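import Pool.Agent.Lib.MP_44a246_ntAL.Defs

/-!
# The weights of a vector
-/

set_option autoImplicit false

open NumberField IsDedekindDomain Height
open Pool.Agent.Lib.MP_4d5ce1_nt (fa nv ordv)
open Pool.Agent.Lib.MP_44a246_ntNF
open Pool.Agent.Lib.MP_44a246_ntNU

namespace Pool.Agent.Lib.MP_44a246_ntAL

universe u

/-- AL0 : the weights of a vector -/
theorem adm_tf {E : Type*} [Field E] [NumberField E] {m : ℕ} (x : Fin m → E) (hx : x ≠ 0) :
    Adm (tf x) (ti x) ∧ hb (tf x) (ti x) = mulHeight x := by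
  obtain ⟨i₀, hi₀⟩ := Function.ne_iff.1 hx
  have hi₀' : x i₀ ≠ 0 := hi₀
  have hne : Nonempty (Fin m) := ⟨i₀⟩
  have hle : ∀ (w : HeightOneSpectrum (𝓞 E)) (i : Fin m), fa w (x i) ≤ tf x w := fun w i =>
    le_ciSup (Set.finite_range fun i => fa w (x i)).bddAbove i
  have hpos : ∀ w, 0 < tf x w := fun w =>
    (Pool.Agent.Lib.MP_4d5ce1_nt.fa_pos w hi₀').trans_le (hle w i₀)
  have hatt : ∀ w : HeightOneSpectrum (𝓞 E), ∃ i, x i ≠ 0 ∧ fa w (x i) = tf x w := by
    intro w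
    obtain ⟨i, hi⟩ := exists_eq_ciSup_of_finite (f := fun i => fa w (x i))
    refine ⟨i, ?_, hi⟩
    intro h0
    have h1 : fa w (x i) = 0 := by
      rw [h0, Pool.Agent.Lib.MP_4d5ce1_nt.fa_zero]
    have h2 : fa w (x i) = tf x w := hi
    have h3 := hpos w
    rw [← h2, h1] at h3
    exact lt_irrefl _ h3
  refine ⟨⟨?_, ?_, ?_⟩, ?_⟩
  · intro w
    obtain ⟨i, hi, he⟩ := hatt w
    refine ⟨- ordv w (x i), ?_⟩
    rw [← he]
    exact Pool.Agent.Lib.MP_4d5ce1_nt.fa_eq w hi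
  · have hfin : (⋃ i : Fin m, {w : HeightOneSpectrum (𝓞 E) | x i ≠ 0 ∧ fa w (x i) ≠ 1}).Finite := by
      refine Set.finite_iUnion fun i => ?_
      by_cases h : x i = 0
      · refine Set.finite_empty.subset ?_
        rintro w ⟨h1, -⟩
        exact absurd h h1
      · refine (Pool.Agent.Lib.MP_4d5ce1_nt.finite_fa_ne_one h).subset ?_
        rintro w ⟨-, h1⟩
        exact h1
    refine hfin.subset ?_
    intro w hw
    obtain ⟨i, hi, he⟩ := hatt w
    refine Set.mem_iUnion.2 ⟨i, hi, ?_⟩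
    rw [he]
    exact hw
  · intro w
    have h1 : w (x i₀) ≤ ti x w := le_ciSup (Set.finite_range fun i => w (x i)).bddAbove i₀
    exact (InfinitePlace.pos_iff.2 hi₀').trans_le h1
  · rw [NumberField.mulHeight_eq hx, mul_comm]
    unfold hb
    congr 1
    rw [← finprod_comp_equiv (FinitePlace.equivHeightOneSpectrum (K := E)).symm]
    rfl

end Pool.Agent.Lib.MP_44a246_ntAL
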