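import Mathlib

set_option autoImplicit false

open NumberField IsDedekindDomain Height

namespace Pool.Agent.Lib.MP_44a246_ntAL

universe u

private lemma abs_sub_lt_AL1 {x y : ℝ} (h : ⌊2 * x⌋ = ⌊2 * y⌋) : |x - y| < 1 / 2 := by
  have h1 := Int.abs_sub_lt_one_of_floor_eq_floor h
  have h2 : |2 * x - 2 * y| = 2 * |x - y| := by
    rw [← mul_sub, abs_mul]; norm_num
  rw [h2] at h1
  linarith

/-- AL1 : cells -/
theorem cell (D : ℕ) : ∃ C : ℝ, 1 ≤ C ∧ ∀ (E : Type u) [Field E] [NumberField E],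
    Module.finrank ℚ E ≤ D → ∀ b : InfinitePlace E → ℝ, (∀ w, 0 < b w) →
      ∀ s s' : ℝ, 0 < s → 0 < s' → ∀ Y : Finset E, Y.Nonempty →
        (∀ y ∈ Y, ∀ w : InfinitePlace E, w y ≤ s * b w) →
        ∃ Y' ⊆ Y, Y'.Nonempty ∧
          (Y.card : ℝ) ≤ C * (1 + s / s') ^ Module.finrank ℚ E * Y'.card ∧
          ∀ y ∈ Y', ∀ z ∈ Y', ∀ w : InfinitePlace E, w (y - z) ≤ s' * b w := by
  classical
  refine ⟨4 ^ D, one_le_pow₀ (by norm_num), fun E _ _ hD b hb s s' hs hs' Y hY hYb => ?_⟩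
  obtain ⟨t, ht⟩ : ∃ t : ℝ, t = s / s' := ⟨_, rfl⟩
  have ht0 : 0 < t := by rw [ht]; positivity
  obtain ⟨m, hm⟩ : ∃ m : ℕ, m = ⌊2 * t⌋₊ + 1 := ⟨_, rfl⟩
  have hmR : (m : ℝ) ≤ 2 * t + 1 := by
    rw [hm]; push_cast
    have := Nat.floor_le (show (0 : ℝ) ≤ 2 * t by linarith)
    linarith
  have hmR' : 2 * t < m := by
    rw [hm]; push_cast
    exact Nat.lt_floor_add_one _
  let Φ : E → (InfinitePlace E → ℤ × ℤ) := fun c v =>
    (⌊2 * ((v.embedding c).re / (s' * b v))⌋, ⌊2 * ((v.embedding c).im / (s' * b v))⌋)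
  let Tg : Finset (InfinitePlace E → ℤ × ℤ) := Fintype.piFinset (fun v =>
    (Finset.Icc (-(m : ℤ)) m) ×ˢ (if v.IsReal then {0} else Finset.Icc (-(m : ℤ)) m))
  have hfl : ∀ x : ℝ, |x| ≤ t → ⌊2 * x⌋ ∈ Finset.Icc (-(m : ℤ)) m := by
    intro x hx
    rw [abs_le] at hx
    rw [Finset.mem_Icc]
    constructor
    · rw [Int.le_floor]; push_cast; linarith
    · have : (⌊2 * x⌋ : ℝ) ≤ 2 * x := Int.floor_le _
      have h2 : (⌊2 * x⌋ : ℝ) ≤ (m : ℝ) := by linarith
      exact_mod_cast h2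
  have hsb : ∀ v : InfinitePlace E, 0 < s' * b v := fun v => mul_pos hs' (hb v)
  have hdiv : ∀ (v : InfinitePlace E) (x : ℝ), |x| ≤ s * b v → |x / (s' * b v)| ≤ t := by
    intro v x hx
    rw [abs_div, abs_of_pos (hsb v), div_le_iff₀ (hsb v), ht]
    have : s / s' * (s' * b v) = s * b v := by
      field_simp
    rw [this]; exact hx
  have him : ∀ (v : InfinitePlace E), v.IsReal → ∀ c : E, (v.embedding c).im = 0 := by
    intro v hv c
    have h3 : (starRingEnd ℂ) (v.embedding c) = v.embedding c := by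
      have := DFunLike.congr_fun
        (ComplexEmbedding.isReal_iff.1 (InfinitePlace.isReal_iff.1 hv)) c
      simpa using this
    exact Complex.conj_eq_iff_im.1 h3
  have h1 : ∀ c ∈ Y, Φ c ∈ Tg := by
    intro c hc
    rw [Fintype.mem_piFinset]
    intro v
    have hn : ‖v.embedding c‖ ≤ s * b v := by
      rw [InfinitePlace.norm_embedding_eq]; exact hYb c hc v
    rw [Finset.mem_product]
    refine ⟨hfl _ (hdiv v _ ((Complex.abs_re_le_norm _).trans hn)), ?_⟩
    split_ifs with hre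
    · rw [Finset.mem_singleton]
      simp only [Φ]
      rw [him v hre, zero_div, mul_zero, Int.floor_zero]
    · exact hfl _ (hdiv v _ ((Complex.abs_im_le_norm _).trans hn))
  have h2 : ∀ c c' : E, Φ c = Φ c' → ∀ w : InfinitePlace E, w (c - c') ≤ s' * b w := by
    intro c c' hcc v
    have e1 := congrArg Prod.fst (congrFun hcc v)
    have e2 := congrArg Prod.snd (congrFun hcc v)
    simp only [Φ] at e1 e2
    have a1 := abs_sub_lt_AL1 e1
    have a2 := abs_sub_lt_AL1 e2
    rw [← sub_div, abs_div, abs_of_pos (hsb v), div_lt_iff₀ (hsb v)] at a1 a2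
    rw [← InfinitePlace.norm_embedding_eq, map_sub]
    refine (Complex.norm_le_abs_re_add_abs_im _).trans ?_
    rw [Complex.sub_re, Complex.sub_im]
    linarith
  have h4 : Tg.card = (2 * m + 1) ^ Module.finrank ℚ E := by
    have hI : (Finset.Icc (-(m : ℤ)) m).card = 2 * m + 1 := by
      rw [Int.card_Icc]; omega
    rw [Fintype.card_piFinset, ← InfinitePlace.sum_mult_eq (K := E), ← Finset.prod_pow_eq_pow_sum]
    refine Finset.prod_congr rfl (fun v _ => ?_)
    rw [Finset.card_product, hI]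
    by_cases hre : v.IsReal
    · rw [if_pos hre]
      simp [InfinitePlace.mult, hre]
    · rw [if_neg hre, hI]
      simp only [InfinitePlace.mult, hre, if_false]
      ring
  have hTne : Tg.Nonempty := by
    obtain ⟨y, hy⟩ := hY
    exact ⟨_, h1 y hy⟩
  obtain ⟨c0, hc0, hmax⟩ := Finset.exists_max_image Tg
    (fun c => (Y.filter (fun y => Φ y = c)).card) hTne
  have hsum : Y.card = ∑ c ∈ Tg, (Y.filter (fun y => Φ y = c)).card :=
    Finset.card_eq_sum_card_fiberwise (fun y hy => h1 y hy)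
  have hle : Y.card ≤ Tg.card * (Y.filter (fun y => Φ y = c0)).card := by
    rw [hsum]
    have := Finset.sum_le_card_nsmul Tg (fun c => (Y.filter (fun y => Φ y = c)).card)
      (Y.filter (fun y => Φ y = c0)).card (fun c hc => hmax c hc)
    simpa using this
  refine ⟨Y.filter (fun y => Φ y = c0), Finset.filter_subset _ _, ?_, ?_, ?_⟩
  · rw [← Finset.card_pos]
    by_contra h0
    have h0' : (Y.filter (fun y => Φ y = c0)).card = 0 := by omega
    rw [h0', mul_zero] at hle
    have := hY.card_pos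
    omega
  · have h5 : (Y.card : ℝ) ≤ ((2 * m + 1 : ℕ) : ℝ) ^ Module.finrank ℚ E *
        ((Y.filter (fun y => Φ y = c0)).card : ℝ) := by
      rw [h4] at hle
      exact_mod_cast hle
    refine h5.trans (mul_le_mul_of_nonneg_right ?_ (by positivity))
    have h6 : ((2 * m + 1 : ℕ) : ℝ) ^ Module.finrank ℚ E ≤ (4 * (1 + t)) ^ Module.finrank ℚ E := by
      apply pow_le_pow_left₀ (by positivity)
      push_cast; linarith
    refine h6.trans ?_
    rw [mul_pow, ht]
    exact mul_le_mul_of_nonneg_right (pow_le_pow_right₀ (by norm_num) hD) (by positivity)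
  · intro y hy z hz w
    rw [Finset.mem_filter] at hy hz
    exact h2 y z (hy.2.trans hz.2.symm) w

end Pool.Agent.Lib.MP_44a246_ntAL
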