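import Pool.Agent.Lib.MP_44a246_ntAL.Defs
import Pool.Agent.Lib.MP_4d5ce1_nt.Kummer

set_option autoImplicit false
set_option linter.unusedVariables false

open NumberField IsDedekindDomain Height
open Pool.Agent.Lib.MP_4d5ce1_nt (fa nv ordv)
open Pool.Agent.Lib.MP_44a246_ntNF
open Pool.Agent.Lib.MP_44a246_ntNU

namespace Pool.Agent.Lib.MP_44a246_ntAL

universe u

open MeasureTheory NumberField.mixedEmbedding in
open scoped nonZeroDivisors ENNReal NNReal in
/-- Minkowski's theorem for fractional ideals and weights at the infinite places. -/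
private theorem mink_AL10 (K : Type*) [Field K] [NumberField K] : ∃ C : ℝ, 1 ≤ C ∧
    ∀ (J : (FractionalIdeal (𝓞 K)⁰ K)ˣ) (b : InfinitePlace K → ℝ), (∀ w, 0 < b w) →
      ∃ c ∈ (J : FractionalIdeal (𝓞 K)⁰ K), c ≠ 0 ∧ ∀ w : InfinitePlace K,
        w c * b w ≤ C * (((FractionalIdeal.absNorm (J : FractionalIdeal (𝓞 K)⁰ K) : ℚ) : ℝ) *
          ∏ w : InfinitePlace K, b w ^ w.mult) ^ ((Module.finrank ℚ K : ℝ)⁻¹) := by
  classical
  set M : ℝ≥0∞ := volume (ZSpan.fundamentalDomain (latticeBasis K)) *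
    (2 : ℝ≥0∞) ^ (Module.finrank ℝ (mixedSpace K)) with hM
  have hMJ : ∀ J : (FractionalIdeal (𝓞 K)⁰ K)ˣ,
      minkowskiBound K J = ENNReal.ofReal (FractionalIdeal.absNorm J.1) * M := by
    intro J
    rw [minkowskiBound, volume_fundamentalDomain_fractionalIdealLatticeBasis, mul_assoc]
  have hMtop : M < ⊤ := by
    have h := minkowskiBound_lt_top K (1 : (FractionalIdeal (𝓞 K)⁰ K)ˣ)
    rw [hMJ] at h
    simpa [FractionalIdeal.absNorm_one] using h
  refine ⟨M.toReal + 1, by linarith [ENNReal.toReal_nonneg (a := M)], ?_⟩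
  intro J b hb
  set C : ℝ := M.toReal + 1 with hC
  have hM0 : 0 ≤ M.toReal := ENNReal.toReal_nonneg
  have hC1 : 1 ≤ C := by linarith
  have hC0 : 0 < C := by linarith
  have hd : 0 < Module.finrank ℚ K := Module.finrank_pos
  have hsum : ∑ w : InfinitePlace K, w.mult = Module.finrank ℚ K := InfinitePlace.sum_mult_eq
  set N : ℝ := ((FractionalIdeal.absNorm (J : FractionalIdeal (𝓞 K)⁰ K) : ℚ) : ℝ) with hN
  have hN0 : 0 < N := by
    have h1 : 0 ≤ FractionalIdeal.absNorm (J : FractionalIdeal (𝓞 K)⁰ K) :=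
      FractionalIdeal.absNorm_nonneg _
    have h2 : FractionalIdeal.absNorm (J : FractionalIdeal (𝓞 K)⁰ K) ≠ 0 := by
      intro h0
      exact J.ne_zero (FractionalIdeal.absNorm_eq_zero_iff.mp h0)
    rw [hN]
    exact_mod_cast lt_of_le_of_ne h1 (Ne.symm h2)
  have hB0 : 0 < ∏ w : InfinitePlace K, b w ^ w.mult :=
    Finset.prod_pos fun w _ => pow_pos (hb w) _
  set B : ℝ := ∏ w : InfinitePlace K, b w ^ w.mult with hB
  set E : ℝ := (N * B) ^ ((Module.finrank ℚ K : ℝ)⁻¹) with hE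
  have hE0 : 0 < E := Real.rpow_pos_of_pos (mul_pos hN0 hB0) _
  have hEd : E ^ Module.finrank ℚ K = N * B := by
    rw [hE, ← Real.rpow_natCast, ← Real.rpow_mul (mul_pos hN0 hB0).le,
      inv_mul_cancel₀ (by exact_mod_cast hd.ne'), Real.rpow_one]
  let f : InfinitePlace K → ℝ≥0 := fun w => Real.toNNReal (C * E / b w)
  have hf : ∀ w, ((f w : ℝ≥0) : ℝ) = C * E / b w := fun w =>
    Real.coe_toNNReal _ (div_nonneg (by positivity) (hb w).le)
  have hP : ((∏ w, f w ^ w.mult : ℝ≥0) : ℝ) = C ^ Module.finrank ℚ K * N := by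
    push_cast
    have : ∀ w : InfinitePlace K, (f w : ℝ) ^ w.mult = (C * E) ^ w.mult / b w ^ w.mult := by
      intro w
      rw [hf, div_pow]
    simp_rw [this]
    rw [Finset.prod_div_distrib, Finset.prod_pow_eq_pow_sum, hsum, mul_pow, hEd, ← hB]
    field_simp
  have hlt : minkowskiBound K J < volume (convexBodyLT K f) := by
    rw [hMJ, convexBodyLT_volume]
    have h1 : M = ENNReal.ofReal M.toReal := (ENNReal.ofReal_toReal hMtop.ne).symm
    have h2 : (((∏ w, f w ^ w.mult : ℝ≥0)) : ℝ≥0∞) =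
        ENNReal.ofReal (C ^ Module.finrank ℚ K * N) := by
      rw [← hP, ENNReal.ofReal_coe_nnreal]
    calc ENNReal.ofReal N * M = ENNReal.ofReal (N * M.toReal) := by
          rw [ENNReal.ofReal_mul hN0.le, ← h1]
      _ < ENNReal.ofReal (C ^ Module.finrank ℚ K * N) := by
          rw [ENNReal.ofReal_lt_ofReal_iff (by positivity)]
          rw [mul_comm]
          refine mul_lt_mul_of_pos_right ?_ hN0
          calc M.toReal < C := by linarith
            _ = C ^ 1 := (pow_one C).symm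
            _ ≤ _ := pow_le_pow_right₀ hC1 hd
      _ = 1 * (((∏ w, f w ^ w.mult : ℝ≥0)) : ℝ≥0∞) := by rw [h2, one_mul]
      _ ≤ _ := by
          gcongr
          exact_mod_cast one_le_convexBodyLTFactor K
  obtain ⟨t, htJ, ht0, htf⟩ := exists_ne_zero_mem_ideal_lt K J hlt
  refine ⟨t, htJ, ht0, fun w => ?_⟩
  have h1 : w t < C * E / b w := by rw [← hf w]; exact htf w
  calc w t * b w ≤ (C * E / b w) * b w := mul_le_mul_of_nonneg_right h1.le (hb w).le
    _ = C * E := div_mul_cancel₀ _ (hb w).ne'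

open scoped nonZeroDivisors in
/-- AL10 : a scalar which balances the weights -/
theorem exists_scale (K : Type*) [Field K] [NumberField K] : ∃ C : ℝ, 1 ≤ C ∧
    ∀ (a : HeightOneSpectrum (𝓞 K) → ℝ) (b : InfinitePlace K → ℝ), Adm a b →
      ∃ c : K, c ≠ 0 ∧ (∀ v, fa v c * a v ≤ 1) ∧ ∀ v : InfinitePlace K,
        v c * b v ≤ C * hb a b ^ ((Module.finrank ℚ K : ℝ)⁻¹) := by
  classical
  obtain ⟨C, hC1, hC⟩ := mink_AL10 K
  refine ⟨C, hC1, fun a b hab => ?_⟩
  choose k hk using hab.pow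
  have hk0 : ∀ v, k v ≠ 0 → a v ≠ 1 := by
    intro v h0 h1
    rw [hk v] at h1
    have h2 : (1 : ℝ) < nv v := Pool.Agent.Lib.MP_4d5ce1_nt.one_lt_nv v
    exact h0 ((zpow_eq_one_iff_right₀ (by linarith) h2.ne').mp h1)
  let e : HeightOneSpectrum (𝓞 K) →₀ ℤ := Finsupp.onFinset hab.fin.toFinset k (fun v hv => by
    rw [Set.Finite.mem_toFinset, Function.mem_mulSupport]
    exact hk0 v hv)
  have he : ∀ v, e v = k v := fun v => rfl
  set I : FractionalIdeal (𝓞 K)⁰ K :=
    e.prod (fun v n => (v.asIdeal : FractionalIdeal (𝓞 K)⁰ K) ^ n) with hI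
  have hI0 : I ≠ 0 := by
    rw [hI, Finsupp.prod]
    exact Finset.prod_ne_zero_iff.mpr fun v _ =>
      zpow_ne_zero _ (FractionalIdeal.coeIdeal_ne_zero.mpr v.ne_bot)
  have hN : ((FractionalIdeal.absNorm I : ℚ) : ℝ) = ∏ᶠ v, a v := by
    rw [hI, Finsupp.prod, map_prod, finprod_eq_finsetProd_of_mulSupport_subset
      (s := e.support)]
    · push_cast
      refine Finset.prod_congr rfl fun v _ => ?_
      rw [map_zpow₀, FractionalIdeal.coeIdeal_absNorm, hk v, he]
      push_cast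
      rfl
    · intro v hv
      rw [Function.mem_mulSupport] at hv
      rw [Finset.mem_coe, Finsupp.mem_support_iff, he]
      intro h0
      apply hv
      rw [hk v, h0, zpow_zero]
  obtain ⟨c, hcI, hc0, hc⟩ := hC (Units.mk0 I hI0) b hab.pos
  refine ⟨c, hc0, fun v => ?_, fun v => ?_⟩
  · have h1 : FractionalIdeal.spanSingleton (𝓞 K)⁰ c ≤ I := by
      rw [FractionalIdeal.spanSingleton_le_iff_mem]
      exact hcI
    have h2 := FractionalIdeal.count_mono K v
      (FractionalIdeal.spanSingleton_ne_zero_iff.mpr hc0) h1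
    have h3 : FractionalIdeal.count K v I = k v := by
      rw [hI, FractionalIdeal.count_finsuppProd, he]
    rw [h3, Pool.Agent.Lib.MP_4d5ce1_nt.count_spanSingleton v hc0] at h2
    rw [Pool.Agent.Lib.MP_4d5ce1_nt.fa_eq v hc0, hk v,
      ← zpow_add₀ (Pool.Agent.Lib.MP_4d5ce1_nt.nv_ne_zero v)]
    exact zpow_le_one_of_nonpos₀ (Pool.Agent.Lib.MP_4d5ce1_nt.one_lt_nv v).le (by omega)
  · have h1 := hc v
    rw [Units.val_mk0, hN] at h1
    exact h1

end Pool.Agent.Lib.MP_44a246_ntAL
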