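import Pool.Agent.Lib.MP_44a246_ntAL.Defs
import Pool.Agent.Lib.MP_44a246_ntNU.NU2

set_option autoImplicit false

open NumberField IsDedekindDomain Height
open Pool.Agent.Lib.MP_4d5ce1_nt (fa nv ordv)
open Pool.Agent.Lib.MP_44a246_ntNF
open Pool.Agent.Lib.MP_44a246_ntNU

namespace Pool.Agent.Lib.MP_44a246_ntAL

universe u

private lemma al11_nk_pos {E : Type*} [Field E] [NumberField E]
    (k : HeightOneSpectrum (𝓞 E) →₀ ℕ) : 0 < Nk k := by
  unfold Nk Finsupp.prod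
  exact Finset.prod_pos fun v _ => pow_pos (Pool.Agent.Lib.MP_4d5ce1_nt.nv_pos v) _

private lemma al11_nk_rpow {E : Type*} [Field E] [NumberField E]
    (k : HeightOneSpectrum (𝓞 E) →₀ ℕ) (s : ℝ) :
    Nk k ^ s = ∏ v ∈ k.support, (nv v ^ s) ^ (k v) := by
  unfold Nk Finsupp.prod
  rw [← Real.finsetProd_rpow _ _ fun v _ => (pow_pos (Pool.Agent.Lib.MP_4d5ce1_nt.nv_pos v) _).le]
  refine Finset.prod_congr rfl fun v _ => ?_
  have hv := Pool.Agent.Lib.MP_4d5ce1_nt.nv_pos v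
  rw [← Real.rpow_natCast, ← Real.rpow_mul hv.le, ← Real.rpow_natCast, ← Real.rpow_mul hv.le,
    mul_comm]

/-- geometric sums -/
private lemma al11_geom (x r : ℝ) (hx0 : 0 ≤ x) (hxr : x ≤ r) (hr : r < 1) (M : ℕ) :
    ∑ m ∈ Finset.Ico 1 M, x ^ m ≤ x / (1 - r) := by
  have hx1 : x < 1 := lt_of_le_of_lt hxr hr
  have e1 : ∑ m ∈ Finset.Ico 1 M, x ^ m = x * ∑ m ∈ Finset.range (M - 1), x ^ m := by
    rw [Finset.sum_Ico_eq_sum_range, Finset.mul_sum]
    refine Finset.sum_congr rfl fun m _ => ?_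
    rw [pow_add, pow_one]
  have e2 : ∑ m ∈ Finset.range (M - 1), x ^ m ≤ 1 / (1 - x) := by
    have h := (summable_geometric_of_lt_one hx0 hx1).sum_le_tsum (Finset.range (M - 1))
      (fun i _ => by positivity)
    rwa [tsum_geometric_of_lt_one hx0 hx1, ← one_div] at h
  rw [e1, div_eq_mul_one_div]
  refine mul_le_mul_of_nonneg_left (e2.trans ?_) hx0
  exact div_le_div_of_nonneg_left zero_le_one (by linarith) (by linarith)

/-- the sum of a negative power of the norms -/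
private lemma al11_sum {E : Type*} [Field E] [NumberField E] (s : ℝ) (hs : 0 < s)
    (Y : Finset (HeightOneSpectrum (𝓞 E) →₀ ℕ)) (W : Finset (HeightOneSpectrum (𝓞 E)))
    (hW : ∀ k ∈ Y, k.support ⊆ W) :
    ∑ k ∈ Y, Nk k ^ (-s) ≤
      Real.exp (∑ v ∈ W, nv v ^ (-s) / (1 - (2 : ℝ) ^ (-s))) := by
  classical
  have hr1 : (2 : ℝ) ^ (-s) < 1 := Real.rpow_lt_one_of_one_lt_of_neg (by norm_num) (by linarith)
  have h := Pool.Agent.Lib.MP_4d5ce1_nt.sum_finsupp_le Y (fun v m => (nv v ^ (-s)) ^ m)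
    (fun v m => pow_nonneg
      (Real.rpow_nonneg (Pool.Agent.Lib.MP_4d5ce1_nt.nv_pos v).le _) _)
    (fun v => nv v ^ (-s) / (1 - (2 : ℝ) ^ (-s)))
    (fun v M => al11_geom _ _
      (Real.rpow_nonneg (Pool.Agent.Lib.MP_4d5ce1_nt.nv_pos v).le _)
      (Real.rpow_le_rpow_of_nonpos (by norm_num) (Pool.Agent.Lib.MP_4d5ce1_nt.two_le_nv v)
        (by linarith)) hr1 M)
  have h2 : ∑ k ∈ Y, Nk k ^ (-s) = ∑ k ∈ Y, ∏ v ∈ k.support, (nv v ^ (-s)) ^ (k v) :=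
    Finset.sum_congr rfl fun k _ => al11_nk_rpow k (-s)
  rw [h2]
  refine h.trans ?_
  rw [Real.exp_le_exp]
  refine Finset.sum_le_sum_of_subset_of_nonneg ?_ ?_
  · intro v hv
    obtain ⟨k, hk, hv⟩ := Finset.mem_biUnion.mp hv
    exact hW k hk hv
  · intro v _ _
    exact div_nonneg (Real.rpow_nonneg (Pool.Agent.Lib.MP_4d5ce1_nt.nv_pos v).le _) (by linarith)

/-- AL11a : families of exponents with bounded norm and given support -/
theorem card_exps (D : ℕ) (η : ℝ) (hη : 0 < η) : ∃ C : ℝ, 0 < C ∧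
    ∀ (E : Type u) [Field E] [NumberField E], Module.finrank ℚ E ≤ D → ∀ T : ℝ, 1 ≤ T →
      ∀ V : Finset (HeightOneSpectrum (𝓞 E)), NN V ≤ T →
      ∀ Y : Finset (HeightOneSpectrum (𝓞 E) →₀ ℕ), (∀ k ∈ Y, k.support ⊆ V ∧ Nk k ≤ T) →
        (Y.card : ℝ) ≤ C * T ^ η := by
  classical
  set δ : ℝ := η / 2 with hδ
  have hδ0 : 0 < δ := by positivity
  set r : ℝ := (2 : ℝ) ^ (-δ) with hr
  have hr1 : r < 1 := Real.rpow_lt_one_of_one_lt_of_neg (by norm_num) (by linarith)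
  have hr0 : 0 < r := by positivity
  set b : ℝ := r / (1 - r) with hb
  have hb0 : 0 < b := div_pos hr0 (by linarith)
  set β : ℝ := b / Real.log 2 with hβ
  have hl2 : 0 < Real.log 2 := Real.log_pos (by norm_num)
  have hβ0 : 0 < β := div_pos hb0 hl2
  obtain ⟨C1, hC1, h2pow⟩ := two_pow_card_le_u.{u} D (η / (2 * β)) (by positivity)
  refine ⟨C1 ^ β, Real.rpow_pos_of_pos hC1 _, ?_⟩
  intro E _ _ hD T hT V hV Y hY
  have hT0 : 0 < T := by linarith
  have h1 := al11_sum δ hδ0 Y V (fun k hk => (hY k hk).1)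
  have h2 : ∑ v ∈ V, nv v ^ (-δ) / (1 - (2 : ℝ) ^ (-δ)) ≤ V.card * b := by
    rw [← nsmul_eq_mul, ← Finset.sum_const]
    refine Finset.sum_le_sum fun v _ => ?_
    exact div_le_div_of_nonneg_right
      (Real.rpow_le_rpow_of_nonpos (by norm_num) (Pool.Agent.Lib.MP_4d5ce1_nt.two_le_nv v)
        (by linarith)) (by linarith)
  have h3 : Real.exp (V.card * b) = ((2 : ℝ) ^ V.card) ^ β := by
    rw [← Real.rpow_natCast, ← Real.rpow_mul (by norm_num), Real.rpow_def_of_pos (by norm_num)]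
    congr 1
    rw [hβ]
    field_simp
  have hNN : 0 < NN V := Finset.prod_pos fun v _ => Pool.Agent.Lib.MP_4d5ce1_nt.nv_pos v
  have h4 : ((2 : ℝ) ^ V.card) ^ β ≤ C1 ^ β * T ^ δ := by
    calc ((2 : ℝ) ^ V.card) ^ β ≤ (C1 * NN V ^ (η / (2 * β))) ^ β :=
          Real.rpow_le_rpow (by positivity) (h2pow E hD V) hβ0.le
      _ = C1 ^ β * NN V ^ (η / 2) := by
          rw [Real.mul_rpow hC1.le (Real.rpow_nonneg hNN.le _), ← Real.rpow_mul hNN.le]
          congr 2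
          field_simp
      _ ≤ C1 ^ β * T ^ (η / 2) := by
          have := Real.rpow_le_rpow hNN.le hV (show (0 : ℝ) ≤ η / 2 by positivity)
          have h5 : 0 ≤ C1 ^ β := Real.rpow_nonneg hC1.le _
          exact mul_le_mul_of_nonneg_left this h5
  have h5 : ∀ k ∈ Y, (1 : ℝ) ≤ T ^ δ * Nk k ^ (-δ) := by
    intro k hk
    have hk0 := al11_nk_pos k
    rw [Real.rpow_neg hk0.le, ← div_eq_mul_inv, one_le_div (Real.rpow_pos_of_pos hk0 _)]
    exact Real.rpow_le_rpow hk0.le (hY k hk).2 hδ0.le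
  calc (Y.card : ℝ) = ∑ _k ∈ Y, (1 : ℝ) := by simp
    _ ≤ ∑ k ∈ Y, T ^ δ * Nk k ^ (-δ) := Finset.sum_le_sum h5
    _ = T ^ δ * ∑ k ∈ Y, Nk k ^ (-δ) := by rw [Finset.mul_sum]
    _ ≤ T ^ δ * (C1 ^ β * T ^ δ) := by
        refine mul_le_mul_of_nonneg_left ?_ (Real.rpow_nonneg hT0.le _)
        refine h1.trans ((Real.exp_le_exp.mpr h2).trans ?_)
        rw [h3]
        exact h4
    _ = C1 ^ β * T ^ η := by
        have : T ^ η = T ^ δ * T ^ δ := by
          rw [← Real.rpow_add hT0]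
          congr 1
          rw [hδ]
          ring
        rw [this]
        ring

/-- AL11b : sums over the ideals, uniform in the field -/
theorem sum_ideals (D : ℕ) (p η : ℝ) (hη : 0 < η) (hp : 1 + η ≤ p) : ∃ C : ℝ, 0 < C ∧
    ∀ (E : Type u) [Field E] [NumberField E], Module.finrank ℚ E ≤ D → ∀ T : ℝ, 1 ≤ T →
      ∀ Y : Finset (HeightOneSpectrum (𝓞 E) →₀ ℕ), (∀ k ∈ Y, T ≤ Nk k) →
        ∑ k ∈ Y, Nk k ^ (-p) ≤ C * T ^ (1 + η - p) := by
  classical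
  set s : ℝ := 1 + η with hs
  have hs1 : 1 < s := by linarith
  obtain ⟨C0, hC0, hV⟩ := sum_nv_bound_u.{u} D s hs1
  have hr1 : (2 : ℝ) ^ (-s) < 1 := Real.rpow_lt_one_of_one_lt_of_neg (by norm_num) (by linarith)
  refine ⟨Real.exp (C0 / (1 - (2 : ℝ) ^ (-s))), Real.exp_pos _, ?_⟩
  intro E _ _ hD T hT Y hY
  have hT0 : 0 < T := by linarith
  have h1 := al11_sum s (by linarith) Y (Y.biUnion fun k => k.support)
    (fun k hk => Finset.subset_biUnion_of_mem (fun k : HeightOneSpectrum (𝓞 E) →₀ ℕ => k.support)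
      hk)
  have h2 : ∑ v ∈ Y.biUnion (fun k => k.support), nv v ^ (-s) / (1 - (2 : ℝ) ^ (-s)) ≤
      C0 / (1 - (2 : ℝ) ^ (-s)) := by
    rw [← Finset.sum_div]
    exact div_le_div_of_nonneg_right (hV E hD _) (by linarith)
  have h3 : ∀ k ∈ Y, Nk k ^ (-p) ≤ Nk k ^ (-s) * T ^ (s - p) := by
    intro k hk
    have hk0 := al11_nk_pos k
    have e : Nk k ^ (-p) = Nk k ^ (-s) * Nk k ^ (s - p) := by
      rw [← Real.rpow_add hk0]
      congr 1
      ring
    rw [e]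
    refine mul_le_mul_of_nonneg_left ?_ (Real.rpow_nonneg hk0.le _)
    exact Real.rpow_le_rpow_of_nonpos hT0 (hY k hk) (by linarith)
  calc ∑ k ∈ Y, Nk k ^ (-p) ≤ ∑ k ∈ Y, Nk k ^ (-s) * T ^ (s - p) := Finset.sum_le_sum h3
    _ = (∑ k ∈ Y, Nk k ^ (-s)) * T ^ (s - p) := by rw [Finset.sum_mul]
    _ ≤ Real.exp (C0 / (1 - (2 : ℝ) ^ (-s))) * T ^ (s - p) := by
        refine mul_le_mul_of_nonneg_right ?_ (Real.rpow_nonneg hT0.le _)
        exact h1.trans (Real.exp_le_exp.mpr h2)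

end Pool.Agent.Lib.MP_44a246_ntAL
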