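import Pool.Agent.Lib.MP_44a246_ntAL.Defs
import Pool.Agent.Lib.MP_44a246_ntNU.NU6

/-!
# Norms at the finite places
-/

set_option autoImplicit false

open NumberField IsDedekindDomain Height
open Pool.Agent.Lib.MP_4d5ce1_nt (fa nv ordv)
open Pool.Agent.Lib.MP_44a246_ntNF
open Pool.Agent.Lib.MP_44a246_ntNU

namespace Pool.Agent.Lib.MP_44a246_ntAL

universe u

/-- AL7 : primes above a prime, norms -/
theorem mem_ov {K E : Type*} [Field K] [NumberField K] [Field E] [NumberField E] [Algebra K E]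
    (v : HeightOneSpectrum (𝓞 K)) (w : HeightOneSpectrum (𝓞 E)) :
    w ∈ ov K E v ↔ w.asIdeal.comap (algebraMap (𝓞 K) (𝓞 E)) = v.asIdeal := by
  classical
  obtain ⟨S', hS', -⟩ := above_finset (K := K) E ({v} : Finset (HeightOneSpectrum (𝓞 K)))
  have hfin : {w : HeightOneSpectrum (𝓞 E) |
      w.asIdeal.comap (algebraMap (𝓞 K) (𝓞 E)) = v.asIdeal}.Finite := by
    refine (S'.finite_toSet).subset ?_
    intro w hw
    rw [hS']
    exact ⟨v, by simp, hw⟩
  unfold ov
  rw [dif_pos hfin, Set.Finite.mem_toFinset]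
  rfl

open scoped Classical in
/-- The exponent of `v` in an ideal. -/
private noncomputable def cn {R : Type*} [CommRing R] [IsDedekindDomain R]
    (v : HeightOneSpectrum R) (I : Ideal R) : ℕ :=
  (Associates.mk v.asIdeal).count (Associates.mk I).factors

private lemma cn_mul {R : Type*} [CommRing R] [IsDedekindDomain R]
    (v : HeightOneSpectrum R) {I J : Ideal R} (hI : I ≠ 0) (hJ : J ≠ 0) :
    cn v (I * J) = cn v I + cn v J := by
  classical
  unfold cn
  rw [← Associates.mk_mul_mk, Associates.count_mul (Associates.mk_ne_zero.mpr hI)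
    (Associates.mk_ne_zero.mpr hJ) v.associates_irreducible]

private lemma cn_one {R : Type*} [CommRing R] [IsDedekindDomain R]
    (v : HeightOneSpectrum R) : cn v (1 : Ideal R) = 0 := by
  classical
  unfold cn
  rw [Associates.mk_one, Associates.factors_one, Associates.count_zero v.associates_irreducible]

private lemma cn_pow {R : Type*} [CommRing R] [IsDedekindDomain R]
    (v : HeightOneSpectrum R) {I : Ideal R} (hI : I ≠ 0) (n : ℕ) :
    cn v (I ^ n) = n * cn v I := by
  induction n with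
  | zero => rw [pow_zero, zero_mul]; exact cn_one v
  | succ n ih => rw [pow_succ, cn_mul v (pow_ne_zero n hI) hI, ih]; ring

private lemma cn_self {R : Type*} [CommRing R] [IsDedekindDomain R]
    (v : HeightOneSpectrum R) : cn v v.asIdeal = 1 := by
  classical
  unfold cn
  exact Associates.count_self v.associates_irreducible

private lemma cn_ne {R : Type*} [CommRing R] [IsDedekindDomain R]
    (v w : HeightOneSpectrum R) (h : v ≠ w) : cn v w.asIdeal = 0 := by
  classical
  unfold cn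
  refine Associates.count_eq_zero_of_ne v.associates_irreducible w.associates_irreducible ?_
  intro h'
  apply h
  apply HeightOneSpectrum.ext
  exact associated_iff_eq.mp (Associates.mk_eq_mk_iff_associated.mp h')

private lemma fa_int {K : Type*} [Field K] [NumberField K] (v : HeightOneSpectrum (𝓞 K))
    {a : 𝓞 K} (ha : a ≠ 0) :
    fa v (algebraMap (𝓞 K) K a) = ((nv v) ^ cn v (Ideal.span {a}))⁻¹ := by
  have ha' : algebraMap (𝓞 K) K a ≠ 0 := by
    rw [Ne, FaithfulSMul.algebraMap_eq_zero_iff]; exact ha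
  rw [Pool.Agent.Lib.MP_4d5ce1_nt.fa_eq v ha']
  have : ordv v (algebraMap (𝓞 K) K a) = (cn v (Ideal.span {a}) : ℤ) := by
    unfold Pool.Agent.Lib.MP_4d5ce1_nt.ordv cn
    rw [HeightOneSpectrum.valuation_of_algebraMap, HeightOneSpectrum.intValuation_if_neg _ ha,
      WithZero.log_exp, neg_neg]
  rw [this, zpow_neg, zpow_natCast]

/-- The local norm on ideals. -/
private lemma local_rel {K E : Type*} [Field K] [NumberField K] [Field E] [NumberField E]
    [Algebra K E] (v : HeightOneSpectrum (𝓞 K)) (I : Ideal (𝓞 E)) : I ≠ 0 →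
    Ideal.relNorm (𝓞 K) I ≠ 0 ∧
    (nv v) ^ cn v (Ideal.relNorm (𝓞 K) I) = ∏ w ∈ ov K E v, (nv w) ^ cn w I := by
  classical
  induction I using UniqueFactorizationMonoid.induction_on_prime with
  | h₁ => intro h; exact absurd rfl h
  | h₂ I hI =>
    intro _
    have hI1 : I = 1 := by rw [Ideal.isUnit_iff] at hI; rw [hI, Ideal.one_eq_top]
    subst hI1
    have h1 : Ideal.relNorm (𝓞 K) (1 : Ideal (𝓞 E)) = 1 := map_one _
    rw [h1]
    refine ⟨one_ne_zero, ?_⟩
    rw [cn_one, pow_zero]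
    symm
    apply Finset.prod_eq_one
    intro w _
    rw [cn_one, pow_zero]
  | h₃ I P hI hP ih =>
    intro _
    obtain ⟨h0, h1⟩ := ih hI
    have hP0 : P ≠ 0 := hP.ne_zero
    have hPp : P.IsPrime := Ideal.isPrime_of_prime hP
    let w0 : HeightOneSpectrum (𝓞 E) := ⟨P, hPp, hP0⟩
    have hPmax : P.IsMaximal := w0.isMaximal
    let p : Ideal (𝓞 K) := P.comap (algebraMap (𝓞 K) (𝓞 E))
    have hlo : P.LiesOver p := ⟨rfl⟩
    have hp0 : p ≠ ⊥ := by
      intro h
      apply hP0
      exact Ideal.eq_bot_of_comap_eq_bot h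
    have hpp : p.IsPrime := Ideal.comap_isPrime _ _
    let v0 : HeightOneSpectrum (𝓞 K) := ⟨p, hpp, hp0⟩
    have hpmax : p.IsMaximal := v0.isMaximal
    have hrel : Ideal.relNorm (𝓞 K) P = p ^ P.inertiaDeg (𝓞 K) :=
      Ideal.relNorm_eq_pow_of_isMaximal P p
    have hnv : nv w0 = nv v0 ^ P.inertiaDeg (𝓞 K) := by
      unfold Pool.Agent.Lib.MP_4d5ce1_nt.nv
      have : Ideal.absNorm P = Ideal.absNorm p ^ P.inertiaDeg (𝓞 K) := by
        rw [← Ideal.absNorm_relNorm (𝓞 K) (S := 𝓞 E) (I := P), hrel, map_pow]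
      change (Ideal.absNorm P : ℝ) = (Ideal.absNorm p : ℝ) ^ _
      rw [this]
      push_cast
      rfl
    have hrelne : Ideal.relNorm (𝓞 K) P ≠ 0 := by
      rw [hrel]
      exact pow_ne_zero _ hp0
    have hkey : (nv v) ^ cn v (Ideal.relNorm (𝓞 K) P) = ∏ w ∈ ov K E v, (nv w) ^ cn w P := by
      by_cases hv : v = v0
      · subst hv
        have hmem : w0 ∈ ov K E v0 := (mem_ov v0 w0).mpr rfl
        rw [Finset.prod_eq_single_of_mem w0 hmem, hrel]
        · have e1 : cn v0 (p ^ P.inertiaDeg (𝓞 K)) = P.inertiaDeg (𝓞 K) := by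
            rw [cn_pow v0 (I := p) hp0]
            have : cn v0 p = 1 := cn_self v0
            rw [this, mul_one]
          have e2 : cn w0 P = 1 := cn_self w0
          rw [e1, e2, pow_one, hnv]
        · intro w _ hw
          have : cn w P = 0 := cn_ne w w0 hw
          rw [this, pow_zero]
      · have e1 : cn v (p ^ P.inertiaDeg (𝓞 K)) = 0 := by
          rw [cn_pow v (I := p) hp0]
          have : cn v p = 0 := cn_ne v v0 hv
          rw [this, mul_zero]
        rw [hrel, e1, pow_zero]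
        symm
        apply Finset.prod_eq_one
        intro w hw
        have hww : w ≠ w0 := by
          rintro rfl
          rw [mem_ov] at hw
          exact hv (HeightOneSpectrum.ext hw.symm)
        have : cn w P = 0 := cn_ne w w0 hww
        rw [this, pow_zero]
    have hmul : Ideal.relNorm (𝓞 K) (P * I) = Ideal.relNorm (𝓞 K) P * Ideal.relNorm (𝓞 K) I :=
      map_mul _ _ _
    rw [hmul]
    refine ⟨mul_ne_zero hrelne h0, ?_⟩
    rw [cn_mul v hrelne h0, pow_add, hkey, h1, ← Finset.prod_mul_distrib]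
    apply Finset.prod_congr rfl
    intro w _
    rw [cn_mul w hP0 hI, pow_add]

private lemma fa_norm_int {K E : Type*} [Field K] [NumberField K] [Field E] [NumberField E]
    [Algebra K E] (v : HeightOneSpectrum (𝓞 K)) {a : 𝓞 E} (ha : a ≠ 0) :
    fa v (Algebra.norm K (algebraMap (𝓞 E) E a)) =
      ∏ w ∈ ov K E v, fa w (algebraMap (𝓞 E) E a) := by
  have hI : (Ideal.span {a} : Ideal (𝓞 E)) ≠ 0 := by
    rw [Ne, Ideal.zero_eq_bot, Ideal.span_singleton_eq_bot]; exact ha
  obtain ⟨-, h⟩ := local_rel (K := K) v (Ideal.span {a}) hI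
  rw [Ideal.relNorm_singleton] at h
  have hn : Algebra.intNorm (𝓞 K) (𝓞 E) a ≠ 0 := by
    rw [Ne, Algebra.intNorm_eq_zero]; exact ha
  rw [← Algebra.algebraMap_intNorm (A := 𝓞 K) (K := K) (L := E) (B := 𝓞 E) a, fa_int v hn, h,
    ← Finset.prod_inv_distrib]
  apply Finset.prod_congr rfl
  intro w _
  rw [fa_int w ha]

/-- There is a prime above every prime. -/
private lemma exists_over {K : Type*} {E : Type*} [Field K] [NumberField K] [Field E]
    [NumberField E] [Algebra K E] (v : HeightOneSpectrum (𝓞 K)) :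
    ∃ w : HeightOneSpectrum (𝓞 E), w.asIdeal.comap (algebraMap (𝓞 K) (𝓞 E)) = v.asIdeal := by
  have hmax : v.asIdeal.IsMaximal := v.isMaximal
  obtain ⟨Q, hQ, hQv⟩ := Ideal.exists_maximal_ideal_liesOver_of_isIntegral (S := 𝓞 E) v.asIdeal
  have hc : Q.comap (algebraMap (𝓞 K) (𝓞 E)) = v.asIdeal := hQv.over.symm
  refine ⟨⟨Q, hQ.isPrime, ?_⟩, hc⟩
  rintro rfl
  apply v.ne_bot
  rw [← hc, eq_bot_iff]
  intro x hx
  rw [Ideal.mem_comap, Ideal.mem_bot] at hx
  rw [Ideal.mem_bot]
  exact (FaithfulSMul.algebraMap_injective (𝓞 K) (𝓞 E)) (by rw [hx, map_zero])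

theorem fa_norm {K E : Type*} [Field K] [NumberField K] [Field E] [NumberField E] [Algebra K E]
    (v : HeightOneSpectrum (𝓞 K)) (z : E) :
    fa v (Algebra.norm K z) = ∏ w ∈ ov K E v, fa w z := by
  have hfin : Module.Finite K E := Module.Finite.of_restrictScalars_finite ℚ K E
  rcases eq_or_ne z 0 with rfl | hz
  · obtain ⟨w, hw⟩ := exists_over (E := E) v
    have h0 : Algebra.norm K (0 : E) = 0 := Algebra.norm_zero
    rw [h0, Pool.Agent.Lib.MP_4d5ce1_nt.fa_zero]
    symm
    exact Finset.prod_eq_zero ((mem_ov v w).mpr hw) (Pool.Agent.Lib.MP_4d5ce1_nt.fa_zero w)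
  obtain ⟨a, b, hb, rfl⟩ := IsFractionRing.div_surjective (A := 𝓞 E) z
  have hb0 : b ≠ 0 := nonZeroDivisors.ne_zero hb
  have ha : a ≠ 0 := by
    rintro rfl
    exact hz (by rw [map_zero, zero_div])
  have hb1 : algebraMap (𝓞 E) E b ≠ 0 := by
    rw [Ne, FaithfulSMul.algebraMap_eq_zero_iff]; exact hb0
  have hN : Algebra.norm K (algebraMap (𝓞 E) E b) ≠ 0 := Algebra.norm_ne_zero_iff.mpr hb1
  have hdiv : Algebra.norm K (algebraMap (𝓞 E) E a / algebraMap (𝓞 E) E b) =
      Algebra.norm K (algebraMap (𝓞 E) E a) / Algebra.norm K (algebraMap (𝓞 E) E b) := by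
    rw [eq_div_iff hN, ← map_mul, div_mul_cancel₀ _ hb1]
  rw [hdiv, Pool.Agent.Lib.MP_4d5ce1_nt.fa_div, fa_norm_int v ha, fa_norm_int v hb0,
    ← Finset.prod_div_distrib]
  apply Finset.prod_congr rfl
  intro w _
  rw [Pool.Agent.Lib.MP_4d5ce1_nt.fa_div]

end Pool.Agent.Lib.MP_44a246_ntAL
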