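import Pool.Agent.Lib.MP_44a246_ntAL.Defs
import Pool.Agent.Lib.MP_44a246_ntSR.SR5
import Pool.Agent.Lib.MP_44a246_ntAL.AL7

/-!
# AL8: coefficients of `N(u T - z)` at the finite places
-/

set_option autoImplicit false

open NumberField IsDedekindDomain Height
open Pool.Agent.Lib.MP_4d5ce1_nt (fa nv ordv)
open Pool.Agent.Lib.MP_44a246_ntNF
open Pool.Agent.Lib.MP_44a246_ntNU

namespace Pool.Agent.Lib.MP_44a246_ntAL

universe u

/-- An integer which lies in exactly one of the primes of a finite set. -/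
lemma al8_exists_mem {E : Type*} [Field E] [NumberField E]
    (W : Finset (HeightOneSpectrum (𝓞 E))) (w : HeightOneSpectrum (𝓞 E)) :
    ∃ x : 𝓞 E, x ≠ 0 ∧ x ∈ w.asIdeal ∧ ∀ w' ∈ W, w' ≠ w → x ∉ w'.asIdeal := by
  classical
  set s : Finset (Ideal (𝓞 E)) := insert ⊥ ((W.erase w).image fun w' => w'.asIdeal) with hs
  have hprime : ∀ I ∈ s, I ≠ ⊥ → I ≠ ⊥ → I.IsPrime := by
    intro I hI _ _
    rcases Finset.mem_insert.1 hI with h | h
    · rw [h]
      exact Ideal.isPrime_bot
    · obtain ⟨w', _, rfl⟩ := Finset.mem_image.1 h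
      exact w'.isPrime
  have hnot : ¬ ((w.asIdeal : Set (𝓞 E)) ⊆ ⋃ I ∈ (↑s : Set (Ideal (𝓞 E))), (id I : Ideal (𝓞 E))) := by
    rw [Ideal.subset_union_prime (f := (id : Ideal (𝓞 E) → Ideal (𝓞 E))) ⊥ ⊥ hprime]
    rintro ⟨I, hI, hle⟩
    rcases Finset.mem_insert.1 hI with h | h
    · rw [id, h] at hle
      exact w.ne_bot (le_bot_iff.1 hle)
    · obtain ⟨w', hw', rfl⟩ := Finset.mem_image.1 h
      have hmax : w.asIdeal.IsMaximal := w.isMaximal
      have heq := hmax.eq_of_le w'.isPrime.ne_top hle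
      exact (Finset.mem_erase.1 hw').1 (HeightOneSpectrum.ext heq.symm)
  obtain ⟨x, hx, hx2⟩ := Set.not_subset.1 hnot
  simp only [Set.mem_iUnion, not_exists] at hx2
  refine ⟨x, ?_, hx, ?_⟩
  · intro h0
    exact hx2 ⊥ (Finset.mem_coe.2 (Finset.mem_insert_self _ _)) (by rw [h0]; exact Ideal.zero_mem _)
  · intro w' hw' hne hmem
    exact hx2 w'.asIdeal (Finset.mem_coe.2 (Finset.mem_insert_of_mem
      (Finset.mem_image.2 ⟨w', Finset.mem_erase.2 ⟨hne, hw'⟩, rfl⟩))) hmem

/-- The norm is the product over the embeddings. -/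
lemma al8_norm_eq_prod {K L E : Type u} [Field K] [CharZero K] [Field L] [Algebra K L]
    [Field E] [Algebra K E] [FiniteDimensional K E] (r : ℕ) (hr : Module.finrank K E = r)
    (y : E) (σ : Fin r → (E →ₐ[K] L))
    (hσ : (minpoly K y).map (algebraMap K L) = ∏ k, (Polynomial.X - Polynomial.C (σ k y)))
    (e : E) : algebraMap K L (Algebra.norm K e) = ∏ k, σ k e := by
  classical
  let A := AlgebraicClosure L
  let _ : Algebra K A := inferInstance
  have hsep : ((minpoly K y).map (algebraMap K L)).Separable :=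
    (minpoly.irreducible (IsIntegral.of_finite K y)).separable.map
  have hinjy : Function.Injective fun k => σ k y := by
    rw [hσ] at hsep
    exact (Polynomial.separable_prod_X_sub_C_iff).1 hsep
  let τ : Fin r → (E →ₐ[K] A) := fun k => (IsScalarTower.toAlgHom K L A).comp (σ k)
  have hτinj : Function.Injective τ := by
    intro i j hij
    have h1 : τ i y = τ j y := by rw [hij]
    exact hinjy ((algebraMap L A).injective h1)
  have hcard : Fintype.card (Fin r) = Fintype.card (E →ₐ[K] A) := by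
    rw [Fintype.card_fin, AlgHom.card K E A, hr]
  have hbij : Function.Bijective τ := (Fintype.bijective_iff_injective_and_card τ).2 ⟨hτinj, hcard⟩
  apply (algebraMap L A).injective
  rw [← IsScalarTower.algebraMap_apply, Algebra.norm_eq_prod_embeddings, map_prod]
  exact (Fintype.prod_bijective τ hbij _ _ fun k => rfl).symm

/-- AL8 : coefficients of `N(u T - z)` at the finite places -/
theorem coeff_fin {K E : Type u} [Field K] [NumberField K] [Field E] [NumberField E] [Algebra K E]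
    (v : HeightOneSpectrum (𝓞 K)) (u z : E) (hu : u ≠ 0)
    (h : IntermediateField.adjoin K {z / u} = ⊤) (i : ℕ) :
    fa v (Algebra.norm K u * (minpoly K (z / u)).coeff i) ≤
      ∏ w ∈ ov K E v, max (fa w u) (fa w z) := by
  classical
  obtain ⟨r, hr⟩ : ∃ r, Module.finrank K E = r := ⟨_, rfl⟩
  obtain ⟨L, _, _, _, σ, -, hf⟩ :=
    Pool.Agent.Lib.MP_44a246_ntSR.exists_closure r E hr (z / u) h
  obtain ⟨w₀, hw₀⟩ := Pool.Agent.Lib.MP_44a246_ntSR.exists_above (L := L) v
  obtain ⟨M, hM, _, hdown⟩ := fa_up_lt_iff (K := K) (E := L) hw₀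
  have hM0 : M ≠ 0 := by omega
  choose W hW m hm hfa using fun k =>
    Pool.Agent.Lib.MP_44a246_ntSR.exists_restrict (σ k) v w₀ hw₀
  have hfaprod : ∀ a : Fin r → L, fa w₀ (∏ k, a k) = ∏ k, fa w₀ (a k) := by
    intro a
    exact map_prod (FinitePlace.mk w₀) a Finset.univ
  have hWov : ∀ k, W k ∈ ov K E v := fun k => (mem_ov v (W k)).2 (hW k)
  -- grouping
  set e : HeightOneSpectrum (𝓞 E) → ℕ := fun w => ∑ k ∈ Finset.univ.filter (fun k => W k = w), m k
    with he
  have hgroup : ∀ g : HeightOneSpectrum (𝓞 E) → ℝ,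
      ∏ k, g (W k) ^ m k = ∏ w ∈ ov K E v, g w ^ e w := by
    intro g
    rw [← Finset.prod_fiberwise_of_maps_to (s := Finset.univ) (t := ov K E v) (g := W)
      (fun k _ => hWov k)]
    refine Finset.prod_congr rfl fun w _ => ?_
    rw [he, ← Finset.prod_pow_eq_pow_sum]
    refine Finset.prod_congr rfl fun k hk => ?_
    rw [(Finset.mem_filter.1 hk).2]
  have hnorm : ∀ x : E, (∏ w ∈ ov K E v, fa w x) ^ M = ∏ w ∈ ov K E v, fa w x ^ e w := by
    intro x
    rw [← fa_norm v x, ← hdown, al8_norm_eq_prod r hr (z / u) σ hf x, hfaprod,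
      ← hgroup fun w => fa w x]
    exact Finset.prod_congr rfl fun k _ => hfa k x
  have heM : ∀ w ∈ ov K E v, e w = M := by
    intro w hw
    obtain ⟨x, hx0, hxw, hx⟩ := al8_exists_mem (ov K E v) w
    have hone : ∀ w' ∈ ov K E v, w' ≠ w → fa w' (x : E) = 1 := fun w' hw' hne =>
      (FinitePlace.norm_eq_one_iff_notMem (K := E) w' x).2 (hx w' hw' hne)
    have hlt : fa w (x : E) < 1 := (FinitePlace.norm_lt_one_iff_mem (K := E) w x).2 hxw
    have hpos : 0 < fa w (x : E) :=
      Pool.Agent.Lib.MP_4d5ce1_nt.fa_pos w (by simpa using hx0)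
    have h1 := hnorm (x : E)
    rw [Finset.prod_eq_single_of_mem w hw fun w' hw' hne => hone w' hw' hne,
      Finset.prod_eq_single_of_mem w hw fun w' hw' hne => by rw [hone w' hw' hne, one_pow]] at h1
    exact (pow_right_injective₀ hpos hlt.ne h1).symm
  -- the estimate over `L`
  have hnn : ∀ w : HeightOneSpectrum (𝓞 E), 0 ≤ max (fa w u) (fa w z) := fun w =>
    le_trans (Pool.Agent.Lib.MP_4d5ce1_nt.fa_nonneg w u) (le_max_left _ _)
  have key : fa w₀ (algebraMap K L (Algebra.norm K u * (minpoly K (z / u)).coeff i)) ≤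
      (∏ w ∈ ov K E v, max (fa w u) (fa w z)) ^ M := by
    have hcoeff : algebraMap K L ((minpoly K (z / u)).coeff i) =
        (∏ k, (Polynomial.X - Polynomial.C (σ k (z / u)))).coeff i := by
      rw [← hf, Polynomial.coeff_map]
    rw [map_mul, Pool.Agent.Lib.MP_4d5ce1_nt.fa_mul, al8_norm_eq_prod r hr (z / u) σ hf u,
      hfaprod, hcoeff]
    have h1 := Pool.Agent.Lib.MP_44a246_ntSR.fa_coeff_prod_le w₀ Finset.univ
      (fun k => σ k (z / u)) i
    refine (mul_le_mul_of_nonneg_left h1 (Finset.prod_nonneg fun k _ =>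
      Pool.Agent.Lib.MP_4d5ce1_nt.fa_nonneg w₀ _)).trans ?_
    rw [← Finset.prod_mul_distrib]
    have h2 : ∀ k, fa w₀ (σ k u) * max 1 (fa w₀ (σ k (z / u))) =
        (fun w => max (fa w u) (fa w z)) (W k) ^ m k := by
      intro k
      have hσu : fa w₀ (σ k u) ≠ 0 := by
        rw [hfa]
        exact pow_ne_zero _ (Pool.Agent.Lib.MP_4d5ce1_nt.fa_pos (W k) hu).ne'
      rw [map_div₀, Pool.Agent.Lib.MP_4d5ce1_nt.fa_div,
        mul_max_of_nonneg _ _ (Pool.Agent.Lib.MP_4d5ce1_nt.fa_nonneg w₀ _), mul_one,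
        mul_div_cancel₀ _ hσu, hfa, hfa]
      change _ = max (fa (W k) u) (fa (W k) z) ^ m k
      rcases le_total (fa (W k) u) (fa (W k) z) with hle | hle
      · rw [max_eq_right hle, max_eq_right (pow_le_pow_left₀
          (Pool.Agent.Lib.MP_4d5ce1_nt.fa_nonneg _ _) hle _)]
      · rw [max_eq_left hle, max_eq_left (pow_le_pow_left₀
          (Pool.Agent.Lib.MP_4d5ce1_nt.fa_nonneg _ _) hle _)]
    rw [Finset.prod_congr rfl fun k _ => h2 k, hgroup fun w => max (fa w u) (fa w z),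
      ← Finset.prod_pow]
    exact le_of_eq (Finset.prod_congr rfl fun w hw => by rw [heM w hw])
  rw [hdown] at key
  exact (pow_le_pow_iff_left₀ (Pool.Agent.Lib.MP_4d5ce1_nt.fa_nonneg v _)
    (Finset.prod_nonneg fun w _ => hnn w) hM0).1 key

end Pool.Agent.Lib.MP_44a246_ntAL
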