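import Pool.Agent.Lib.MP_44a246_ntAL.Defs

set_option autoImplicit false
set_option linter.unusedVariables false

open NumberField IsDedekindDomain Height
open Pool.Agent.Lib.MP_4d5ce1_nt (fa nv ordv)
open Pool.Agent.Lib.MP_44a246_ntNF
open Pool.Agent.Lib.MP_44a246_ntNU

namespace Pool.Agent.Lib.MP_44a246_ntAL

universe u

/-- Products over the extensions of an embedding and over the places above a place. -/
private lemma prod_over_AL9 {K E : Type*} [Field K] [NumberField K] [Field E] [NumberField E]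
    [Algebra K E] (v : InfinitePlace K) (h : InfinitePlace E → ℝ) [DecidableEq (K →+* ℂ)] :
    (∏ φ ∈ Finset.univ.filter (fun φ : E →+* ℂ => φ.comp (algebraMap K E) = v.embedding),
      h (InfinitePlace.mk φ)) ^ v.mult = ∏ w ∈ oi K E v, h w ^ w.mult := by
  classical
  obtain ⟨P, hP⟩ : ∃ P : (K →+* ℂ) → ℝ, ∀ ψ, P ψ =
    ∏ φ ∈ Finset.univ.filter (fun φ : E →+* ℂ => φ.comp (algebraMap K E) = ψ),
      h (InfinitePlace.mk φ) := ⟨_, fun _ => rfl⟩
  have hconj : ∀ ψ : K →+* ℂ, P (ComplexEmbedding.conjugate ψ) = P ψ := by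
    intro ψ
    rw [hP, hP]
    refine Finset.prod_bij' (fun φ _ => ComplexEmbedding.conjugate φ)
      (fun φ _ => ComplexEmbedding.conjugate φ) ?_ ?_ ?_ ?_ ?_
    · intro φ hφ
      rw [Finset.mem_filter] at hφ ⊢
      refine ⟨Finset.mem_univ _, ?_⟩
      rw [ComplexEmbedding.conjugate_comp, hφ.2]
      exact star_star ψ
    · intro φ hφ
      rw [Finset.mem_filter] at hφ ⊢
      refine ⟨Finset.mem_univ _, ?_⟩
      rw [ComplexEmbedding.conjugate_comp, hφ.2]
    · intro φ _
      exact star_star φ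
    · intro φ _
      exact star_star φ
    · intro φ _
      rw [InfinitePlace.mk_conjugate_eq]
  have h1 : ∏ w ∈ oi K E v, h w ^ w.mult =
      ∏ φ ∈ Finset.univ.filter (fun φ : E →+* ℂ =>
        InfinitePlace.mk (φ.comp (algebraMap K E)) = v), h (InfinitePlace.mk φ) := by
    rw [← Finset.prod_fiberwise_of_maps_to (t := oi K E v)
      (g := fun φ : E →+* ℂ => InfinitePlace.mk φ)]
    · refine Finset.prod_congr rfl fun w hw => ?_
      rw [← InfinitePlace.card_filter_mk_eq, ← Finset.prod_const]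
      refine Finset.prod_congr ?_ fun φ hφ => ?_
      · ext φ
        simp only [Finset.mem_filter, Finset.mem_univ, true_and]
        refine ⟨fun h2 => ⟨?_, h2⟩, fun h2 => h2.2⟩
        rw [← InfinitePlace.comap_mk, h2]
        unfold oi at hw
        exact (Finset.mem_filter.1 hw).2
      · rw [(Finset.mem_filter.1 hφ).2]
    · intro φ hφ
      unfold oi
      rw [Finset.mem_filter] at hφ ⊢
      exact ⟨Finset.mem_univ _, hφ.2⟩
  have h2 : ∏ φ ∈ Finset.univ.filter (fun φ : E →+* ℂ =>
        InfinitePlace.mk (φ.comp (algebraMap K E)) = v), h (InfinitePlace.mk φ) =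
      ∏ ψ ∈ Finset.univ.filter (fun ψ : K →+* ℂ => InfinitePlace.mk ψ = v), P ψ := by
    rw [← Finset.prod_fiberwise_of_maps_to
      (t := Finset.univ.filter (fun ψ : K →+* ℂ => InfinitePlace.mk ψ = v))
      (g := fun φ : E →+* ℂ => φ.comp (algebraMap K E))]
    · refine Finset.prod_congr rfl fun ψ hψ => ?_
      rw [hP]
      refine Finset.prod_congr ?_ fun φ _ => rfl
      ext φ
      simp only [Finset.mem_filter, Finset.mem_univ, true_and]
      refine ⟨fun h3 => h3.2, fun h3 => ⟨?_, h3⟩⟩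
      rw [h3]
      exact (Finset.mem_filter.1 hψ).2
    · intro φ hφ
      rw [Finset.mem_filter] at hφ ⊢
      exact ⟨Finset.mem_univ _, hφ.2⟩
  rw [h1, h2, ← hP]
  have h3 : ∀ ψ ∈ Finset.univ.filter (fun ψ : K →+* ℂ => InfinitePlace.mk ψ = v),
      P ψ = P v.embedding := by
    intro ψ hψ
    have h4 := (Finset.mem_filter.1 hψ).2
    rw [← InfinitePlace.mk_embedding v, InfinitePlace.mk_eq_iff] at h4
    rcases h4 with h4 | h4
    · rw [h4]
    · rw [← h4, hconj]
  rw [Finset.prod_congr rfl h3, Finset.prod_const, InfinitePlace.card_filter_mk_eq]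

/-- Products over the algebra embeddings. -/
private lemma prod_alg_AL9 {K E : Type*} [Field K] [NumberField K] [Field E] [NumberField E]
    [Algebra K E] (v : InfinitePlace K) (h : InfinitePlace E → ℝ) :
    letI : Algebra K ℂ := v.embedding.toAlgebra
    (∏ σ : E →ₐ[K] ℂ, h (InfinitePlace.mk σ.toRingHom)) ^ v.mult =
      ∏ w ∈ oi K E v, h w ^ w.mult := by
  classical
  let _ : Algebra K ℂ := v.embedding.toAlgebra
  rw [← prod_over_AL9 v h]
  congr 1
  refine Finset.prod_bij (fun σ _ => σ.toRingHom) ?_ ?_ ?_ ?_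
  · intro σ _
    rw [Finset.mem_filter]
    refine ⟨Finset.mem_univ _, ?_⟩
    ext r
    exact σ.commutes r
  · intro σ _ τ _ h1
    ext x
    exact RingHom.congr_fun h1 x
  · intro φ hφ
    have h1 := (Finset.mem_filter.1 hφ).2
    exact ⟨{ φ with commutes' := fun r => RingHom.congr_fun h1 r }, Finset.mem_univ _, rfl⟩
  · intro σ _
    rfl

/-- AL9 : norms and coefficients at the infinite places -/
theorem norm_inf {K E : Type*} [Field K] [NumberField K] [Field E] [NumberField E] [Algebra K E]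
    (v : InfinitePlace K) (z : E) :
    v (Algebra.norm K z) ^ v.mult = ∏ w ∈ oi K E v, w z ^ w.mult := by
  have : FiniteDimensional K E := Module.Finite.of_restrictScalars_finite ℚ K E
  let _ : Algebra K ℂ := v.embedding.toAlgebra
  rw [← prod_alg_AL9 v (fun w => w z)]
  congr 1
  have h1 : v.embedding (Algebra.norm K z) = ∏ σ : E →ₐ[K] ℂ, σ z := by
    rw [← Algebra.norm_eq_prod_embeddings K ℂ z]
    rfl
  rw [← InfinitePlace.norm_embedding_eq v, h1, norm_prod]
  rfl

/-- Coefficients of a product of linear factors. -/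
private lemma coeff_prod_AL9 {ι : Type*} (s : Finset ι) (a b : ι → ℂ) (B : ι → ℝ) (l1 l2 : ℝ)
    (h1 : 0 ≤ l1) (h2 : 0 ≤ l2) (hB : ∀ j, 0 ≤ B j) (ha : ∀ j, ‖a j‖ ≤ l1 * B j)
    (hb : ∀ j, ‖b j‖ ≤ l2 * B j) (i : ℕ) :
    ‖(∏ j ∈ s, (Polynomial.C (a j) * Polynomial.X - Polynomial.C (b j))).coeff i‖ ≤
      (s.card.choose i : ℝ) * (l1 ^ i * l2 ^ (s.card - i)) * ∏ j ∈ s, B j := by
  classical
  induction s using Finset.induction_on generalizing i with
  | empty =>
    rw [Finset.prod_empty, Finset.prod_empty, Finset.card_empty]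
    rcases i with _ | i
    · simp
    · rw [Polynomial.coeff_one]
      simp
  | insert j s hj ih =>
    rw [Finset.prod_insert hj, Finset.prod_insert hj, Finset.card_insert_of_notMem hj]
    obtain ⟨Q, hQ⟩ : ∃ Q, Q = ∏ j ∈ s, (Polynomial.C (a j) * Polynomial.X - Polynomial.C (b j)) :=
      ⟨_, rfl⟩
    obtain ⟨R, hR⟩ : ∃ R, R = ∏ j ∈ s, B j := ⟨_, rfl⟩
    rw [← hQ] at ih ⊢
    rw [← hR] at ih ⊢
    have hR0 : 0 ≤ R := by rw [hR]; exact Finset.prod_nonneg fun k _ => hB k
    have hBj := hB j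
    have hb1 : ∀ k, ‖b j * Q.coeff k‖ ≤
        (l2 * B j) * ((s.card.choose k : ℝ) * (l1 ^ k * l2 ^ (s.card - k)) * R) := by
      intro k
      rw [norm_mul]
      exact mul_le_mul (hb j) (ih k) (norm_nonneg _) (by positivity)
    rcases i with _ | i
    · have h3 : ((Polynomial.C (a j) * Polynomial.X - Polynomial.C (b j)) * Q).coeff 0 =
          - (b j * Q.coeff 0) := by
        rw [Polynomial.mul_coeff_zero]
        simp
      rw [h3, norm_neg]
      refine (hb1 0).trans (le_of_eq ?_)
      rw [Nat.choose_zero_right, Nat.choose_zero_right, Nat.sub_zero, Nat.sub_zero, pow_succ]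
      ring
    · have h3 : ((Polynomial.C (a j) * Polynomial.X - Polynomial.C (b j)) * Q).coeff (i + 1) =
          a j * Q.coeff i - b j * Q.coeff (i + 1) := by
        rw [sub_mul, Polynomial.coeff_sub, mul_assoc, Polynomial.coeff_C_mul,
          Polynomial.coeff_X_mul, Polynomial.coeff_C_mul]
      rw [h3]
      refine (norm_sub_le _ _).trans ?_
      have ha1 : ‖a j * Q.coeff i‖ ≤
          (l1 * B j) * ((s.card.choose i : ℝ) * (l1 ^ i * l2 ^ (s.card - i)) * R) := by
        rw [norm_mul]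
        exact mul_le_mul (ha j) (ih i) (norm_nonneg _) (by positivity)
      refine (add_le_add ha1 (hb1 (i + 1))).trans (le_of_eq ?_)
      rw [Nat.choose_succ_succ, Nat.cast_add, Nat.add_sub_add_right]
      rcases le_or_gt (i + 1) s.card with h4 | h4
      · have h5 : s.card - i = s.card - (i + 1) + 1 := by omega
        rw [h5, pow_succ, pow_succ]
        ring
      · rw [Nat.choose_eq_zero_of_lt h4]
        rw [pow_succ]
        push_cast
        ring

theorem coeff_inf {K E : Type u} [Field K] [NumberField K] [Field E] [NumberField E] [Algebra K E]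
    (r : ℕ) (hr : Module.finrank K E = r) (v : InfinitePlace K) (b : InfinitePlace E → ℝ)
    (hb : ∀ w, 0 < b w) (l1 l2 : ℝ) (h1 : 0 ≤ l1) (h2 : 0 ≤ l2) (u z : E) (hu : u ≠ 0)
    (hu1 : ∀ w : InfinitePlace E, w u ≤ l1 * b w) (hz : ∀ w : InfinitePlace E, w z ≤ l2 * b w)
    (h : IntermediateField.adjoin K {z / u} = ⊤) (i : ℕ) (hi : i ≤ r) :
    v (Algebra.norm K u * (minpoly K (z / u)).coeff i) ^ v.mult ≤
      (2 ^ r * l1 ^ i * l2 ^ (r - i)) ^ v.mult * ∏ w ∈ oi K E v, b w ^ w.mult := by
  classical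
  have : FiniteDimensional K E := Module.Finite.of_restrictScalars_finite ℚ K E
  let _ : Algebra K ℂ := v.embedding.toAlgebra
  have hcard : (Finset.univ : Finset (E →ₐ[K] ℂ)).card = r := by
    rw [Finset.card_univ, AlgHom.card K E ℂ, hr]
  have hint : IsIntegral K (z / u) := Algebra.IsIntegral.isIntegral _
  have hdeg : (minpoly K (z / u)).natDegree = r := by
    rw [← hr]
    exact (Field.primitive_element_iff_minpoly_natDegree_eq K (z / u)).1 h
  have hmin : (minpoly K (z / u)).map (algebraMap K ℂ) =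
      ∏ σ : E →ₐ[K] ℂ, (Polynomial.X - Polynomial.C (σ (z / u))) := by
    refine (Polynomial.eq_of_monic_of_dvd_of_natDegree_le
      (Polynomial.monic_prod_of_monic _ _ fun σ _ => Polynomial.monic_X_sub_C _)
      ((minpoly.monic hint).map _) ?_ ?_)
    · refine Finset.prod_dvd_of_coprime ?_ ?_
      · intro σ _ τ _ hst
        refine Polynomial.isCoprime_X_sub_C_of_isUnit_sub ?_
        refine IsUnit.mk0 _ (sub_ne_zero.2 fun h3 => hst ?_)
        refine AlgHom.ext_of_adjoin_eq_top (s := {z / u}) ?_ ?_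
        · rw [← IntermediateField.adjoin_simple_toSubalgebra_of_isAlgebraic
            hint.isAlgebraic, h, IntermediateField.top_toSubalgebra]
        · intro x hx
          rw [Set.mem_singleton_iff.1 hx]
          exact h3
      · intro σ _
        rw [Polynomial.dvd_iff_isRoot, Polynomial.IsRoot, Polynomial.eval_map_algebraMap,
          Polynomial.aeval_algHom_apply, minpoly.aeval, map_zero]
    · rw [Polynomial.natDegree_map, hdeg, Polynomial.natDegree_prod_of_monic _ _
        fun σ _ => Polynomial.monic_X_sub_C _]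
      simp only [Polynomial.natDegree_X_sub_C]
      rw [Finset.sum_const, hcard]
      simp
  have hprod : Polynomial.C (v.embedding (Algebra.norm K u)) *
      (minpoly K (z / u)).map (algebraMap K ℂ) =
      ∏ σ : E →ₐ[K] ℂ, (Polynomial.C (σ u) * Polynomial.X - Polynomial.C (σ z)) := by
    have h3 : v.embedding (Algebra.norm K u) = ∏ σ : E →ₐ[K] ℂ, σ u := by
      rw [← Algebra.norm_eq_prod_embeddings K ℂ u]
      rfl
    rw [h3, hmin, map_prod, ← Finset.prod_mul_distrib]
    refine Finset.prod_congr rfl fun σ _ => ?_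
    rw [mul_sub, ← Polynomial.C_mul, ← map_mul, mul_div_cancel₀ _ hu]
  have hcoeff : v (Algebra.norm K u * (minpoly K (z / u)).coeff i) ≤
      (2 ^ r * l1 ^ i * l2 ^ (r - i)) * ∏ σ : E →ₐ[K] ℂ, b (InfinitePlace.mk σ.toRingHom) := by
    rw [← InfinitePlace.norm_embedding_eq v, map_mul]
    have h3 : v.embedding (Algebra.norm K u) * v.embedding ((minpoly K (z / u)).coeff i) =
        (∏ σ : E →ₐ[K] ℂ, (Polynomial.C (σ u) * Polynomial.X - Polynomial.C (σ z))).coeff i := by
      rw [← hprod, Polynomial.coeff_C_mul, Polynomial.coeff_map]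
      rfl
    rw [h3]
    refine (coeff_prod_AL9 Finset.univ (fun σ : E →ₐ[K] ℂ => σ u) (fun σ => σ z)
      (fun σ => b (InfinitePlace.mk σ.toRingHom)) l1 l2 h1 h2 (fun σ => (hb _).le)
      (fun σ => hu1 (InfinitePlace.mk σ.toRingHom)) (fun σ => hz (InfinitePlace.mk σ.toRingHom))
      i).trans ?_
    rw [hcard]
    refine mul_le_mul_of_nonneg_right ?_ (Finset.prod_nonneg fun σ _ => (hb _).le)
    rw [mul_assoc]
    refine mul_le_mul_of_nonneg_right ?_ (by positivity)
    exact_mod_cast Nat.choose_le_two_pow _ _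
  rw [← prod_alg_AL9 v b, ← mul_pow]
  exact pow_le_pow_left₀ (apply_nonneg _ _) hcoeff _

end Pool.Agent.Lib.MP_44a246_ntAL
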