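import Pool.Agent.Lib.MP_44a246_ntAL.AL7
import Pool.Agent.Lib.MP_44a246_ntAL.AL8
import Pool.Agent.Lib.MP_44a246_ntAL.AL9
import Pool.Agent.Lib.MP_44a246_ntAL.AL10
import Pool.Agent.Lib.MP_44a246_ntNU.NU6c

/-!
# The normal form
-/

set_option autoImplicit false

open NumberField IsDedekindDomain Height
open Pool.Agent.Lib.MP_4d5ce1_nt (fa nv ordv)
open Pool.Agent.Lib.MP_44a246_ntNF
open Pool.Agent.Lib.MP_44a246_ntNU

namespace Pool.Agent.Lib.MP_44a246_ntAL

universe u

section push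
variable (K : Type*) {E : Type*} [Field K] [NumberField K] [Field E] [NumberField E] [Algebra K E]

/-- The finite weights below. -/
private noncomputable def pa (a : HeightOneSpectrum (𝓞 E) → ℝ) (v : HeightOneSpectrum (𝓞 K)) : ℝ :=
  ∏ w ∈ ov K E v, a w

/-- The infinite weights below. -/
private noncomputable def pb (b : InfinitePlace E → ℝ) (v : InfinitePlace K) : ℝ :=
  (∏ w ∈ oi K E v, b w ^ w.mult) ^ ((v.mult : ℝ)⁻¹)

variable {K}

private lemma adm_pos {a : HeightOneSpectrum (𝓞 E) → ℝ} {b : InfinitePlace E → ℝ} (h : Adm a b)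
    (w : HeightOneSpectrum (𝓞 E)) : 0 < a w := by
  obtain ⟨k, hk⟩ := h.pow w
  rw [hk]
  exact zpow_pos (Pool.Agent.Lib.MP_4d5ce1_nt.nv_pos w) k

private lemma pb_prod_pos {b : InfinitePlace E → ℝ} (hb : ∀ w, 0 < b w) (v : InfinitePlace K) :
    0 < ∏ w ∈ oi K E v, b w ^ w.mult :=
  Finset.prod_pos fun w _ => pow_pos (hb w) _

omit [NumberField K] in
private lemma mult_ne (v : InfinitePlace K) : v.mult ≠ 0 := by
  have := v.mult_pos
  omega

private lemma pb_pow {b : InfinitePlace E → ℝ} (hb : ∀ w, 0 < b w) (v : InfinitePlace K) :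
    pb K b v ^ v.mult = ∏ w ∈ oi K E v, b w ^ w.mult :=
  Real.rpow_inv_natCast_pow (pb_prod_pos hb v).le (mult_ne v)

private lemma pb_pos {b : InfinitePlace E → ℝ} (hb : ∀ w, 0 < b w) (v : InfinitePlace K) :
    0 < pb K b v := Real.rpow_pos_of_pos (pb_prod_pos hb v) _

private lemma pa_pos {a : HeightOneSpectrum (𝓞 E) → ℝ} {b : InfinitePlace E → ℝ} (h : Adm a b)
    (v : HeightOneSpectrum (𝓞 K)) : 0 < pa K a v := Finset.prod_pos fun w _ => adm_pos h w

private lemma adm_push {a : HeightOneSpectrum (𝓞 E) → ℝ} {b : InfinitePlace E → ℝ} (h : Adm a b) :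
    Adm (pa K a) (pb K b) := by
  classical
  choose β hβ using fun w : HeightOneSpectrum (𝓞 E) => exists_below (K := K) w
  refine ⟨fun v => ?_, ?_, fun v => pb_pos h.pos v⟩
  · have key : ∀ s : Finset (HeightOneSpectrum (𝓞 E)), (∀ w ∈ s, w ∈ ov K E v) →
        ∃ k : ℤ, ∏ w ∈ s, a w = nv v ^ k := by
      intro s
      induction s using Finset.induction_on with
      | empty => intro _; exact ⟨0, by simp⟩
      | insert w s hw ih =>
        intro hs
        obtain ⟨k, hk⟩ := ih fun w' hw' => hs w' (Finset.mem_insert_of_mem hw')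
        obtain ⟨l, hl⟩ := h.pow w
        obtain ⟨f, hf⟩ : ∃ f : ℕ, nv w = nv v ^ f := by
          have hf := nv_up ((mem_ov v w).1 (hs w (Finset.mem_insert_self _ _)))
          exact ⟨_, hf⟩
        refine ⟨f * l + k, ?_⟩
        rw [Finset.prod_insert hw, hk, hl, hf, ← zpow_natCast, ← zpow_mul,
          ← zpow_add₀ (Pool.Agent.Lib.MP_4d5ce1_nt.nv_ne_zero v)]
    exact key _ fun w hw => hw
  · refine (h.fin.image β).subset fun v hv => ?_
    by_contra hno
    apply hv
    show ∏ w ∈ ov K E v, a w = 1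
    refine Finset.prod_eq_one fun w hw => ?_
    by_contra hw1
    refine hno ⟨w, hw1, ?_⟩
    have h1 := (mem_ov v w).1 hw
    have h2 := hβ w
    apply HeightOneSpectrum.ext
    rw [← h1, ← h2]

private lemma hb_push {a : HeightOneSpectrum (𝓞 E) → ℝ} {b : InfinitePlace E → ℝ} (h : Adm a b) :
    hb (pa K a) (pb K b) = hb a b := by
  classical
  choose β hβ using fun w : HeightOneSpectrum (𝓞 E) => exists_below (K := K) w
  have hmem : ∀ v w, w ∈ ov K E v ↔ β w = v := by
    intro v w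
    rw [mem_ov]
    constructor
    · intro h1
      apply HeightOneSpectrum.ext
      rw [← h1, ← hβ w]
    · rintro rfl
      exact hβ w
  have h1 : ∏ᶠ w, a w = ∏ w ∈ h.fin.toFinset, a w :=
    finprod_eq_prod_of_mulSupport_subset _ (by simp)
  have h2 : ∏ᶠ v, pa K a v = ∏ v ∈ h.fin.toFinset.image β, pa K a v := by
    refine finprod_eq_prod_of_mulSupport_subset _ fun v hv => ?_
    rw [Finset.coe_image]
    by_contra hno
    apply hv
    show ∏ w ∈ ov K E v, a w = 1
    refine Finset.prod_eq_one fun w hw => ?_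
    by_contra hw1
    exact hno ⟨w, by simpa using hw1, (hmem v w).1 hw⟩
  have h3 : ∏ᶠ v, pa K a v = ∏ᶠ w, a w := by
    rw [h1, h2, ← Finset.prod_fiberwise_of_maps_to
      (fun w hw => Finset.mem_image_of_mem β hw)]
    refine Finset.prod_congr rfl fun v _ => ?_
    show ∏ w ∈ ov K E v, a w = _
    symm
    refine Finset.prod_subset ?_ ?_
    · intro w hw
      rw [Finset.mem_filter] at hw
      exact (hmem v w).2 hw.2
    · intro w hw hno
      by_contra hw1
      exact hno (Finset.mem_filter.2 ⟨by simpa using hw1, (hmem v w).1 hw⟩)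
  have h4 : ∏ v : InfinitePlace K, pb K b v ^ v.mult =
      ∏ w : InfinitePlace E, b w ^ w.mult := by
    rw [← Finset.prod_fiberwise (s := (Finset.univ : Finset (InfinitePlace E)))
      (g := fun w => w.comap (algebraMap K E))]
    refine Finset.prod_congr rfl fun v _ => ?_
    rw [pb_pow h.pos]
    refine Finset.prod_congr ?_ fun _ _ => rfl
    unfold oi
    ext w
    simp
  unfold hb
  rw [h3, h4]

end push

/-- AL12 : the normal form -/
theorem normal_form {K : Type u} [Field K] [NumberField K] (r : ℕ) : ∃ C : ℝ, 1 ≤ C ∧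
    ∀ (E : Type u) [Field E] [NumberField E] [Algebra K E], Module.finrank K E = r →
      ∀ (a : HeightOneSpectrum (𝓞 E) → ℝ) (b : InfinitePlace E → ℝ), Adm a b →
      ∃ c : K, c ≠ 0 ∧ ∀ (u z : E) (l1 l2 : ℝ), u ≠ 0 →
        IntermediateField.adjoin K {z / u} = ⊤ → 0 ≤ l1 → 0 ≤ l2 →
        (∀ w : InfinitePlace E, w u ≤ l1 * b w) → (∀ w : InfinitePlace E, w z ≤ l2 * b w) →
        (∀ v i, fa v (gv K r c u z i) ≤ ∏ w ∈ ov K E v, (max (fa w u) (fa w z) / a w)) ∧
        (∀ v, fa v (gv K r c u z (Fin.last r)) ≤ ∏ w ∈ ov K E v, fa w u / a w) ∧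
        (∀ (v : InfinitePlace K) i, v (gv K r c u z i) ≤
          C * hb a b ^ ((Module.finrank ℚ K : ℝ)⁻¹) * l1 ^ i.val * l2 ^ (r - i.val)) ∧
        ∀ v : InfinitePlace K, v (gv K r c u z (Fin.last r)) ^ v.mult ≤
          (C * hb a b ^ ((Module.finrank ℚ K : ℝ)⁻¹)) ^ v.mult *
            ∏ w ∈ oi K E v, (w u / b w) ^ w.mult := by
  obtain ⟨C, hC, hsc⟩ := exists_scale K
  have h2r : (1 : ℝ) ≤ 2 ^ r := one_le_pow₀ (by norm_num)
  refine ⟨C * 2 ^ r, by nlinarith, fun E _ _ _ hr a b hab => ?_⟩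
  obtain ⟨c, hc, hcf, hci⟩ := hsc (pa K a) (pb K b) (adm_push hab)
  rw [hb_push hab] at hci
  set H : ℝ := hb a b ^ ((Module.finrank ℚ K : ℝ)⁻¹) with hH
  have hpos : ∀ w, 0 < a w := adm_pos hab
  refine ⟨c, hc, fun u z l1 l2 hu hgen h1 h2 hul hzl => ?_⟩
  have hfin : FiniteDimensional K E := Module.Finite.of_restrictScalars_finite ℚ K E
  have hint : IsIntegral K (z / u) := Algebra.IsIntegral.isIntegral _
  have hdeg : (minpoly K (z / u)).natDegree = r := by
    rw [← hr]
    exact (Field.primitive_element_iff_minpoly_natDegree_eq K (z / u)).1 hgen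
  have hmon : (minpoly K (z / u)).coeff r = 1 := by
    have := minpoly.monic hint
    rw [Polynomial.Monic, Polynomial.leadingCoeff, hdeg] at this
    exact this
  have hlast : gv K r c u z (Fin.last r) = c * Algebra.norm K u := by
    unfold gv
    rw [Fin.val_last, hmon, mul_one]
  have hfc : ∀ v, fa v c ≤ (pa K a v)⁻¹ := fun v => by
    rw [← one_div, le_div_iff₀ (pa_pos hab v)]
    exact hcf v
  have hfc0 : ∀ v : HeightOneSpectrum (𝓞 K), 0 ≤ fa v c := fun v => by
    unfold Pool.Agent.Lib.MP_4d5ce1_nt.fa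
    exact apply_nonneg _ _
  have hfa0 : ∀ (w : HeightOneSpectrum (𝓞 E)) (x : E), 0 ≤ fa w x := fun w x => by
    unfold Pool.Agent.Lib.MP_4d5ce1_nt.fa
    exact apply_nonneg _ _
  refine ⟨fun v i => ?_, fun v => ?_, fun v i => ?_, fun v => ?_⟩
  · have e1 : gv K r c u z i = c * (Algebra.norm K u * (minpoly K (z / u)).coeff i.val) := by
      unfold gv
      ring
    have e3 : ∏ w ∈ ov K E v, (max (fa w u) (fa w z) / a w) =
        (pa K a v)⁻¹ * ∏ w ∈ ov K E v, max (fa w u) (fa w z) := by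
      rw [Finset.prod_div_distrib, div_eq_inv_mul]
      rfl
    rw [e1, Pool.Agent.Lib.MP_4d5ce1_nt.fa_mul, e3]
    refine mul_le_mul (hfc v) (coeff_fin v u z hu hgen i.val) ?_ (inv_nonneg.2 (pa_pos hab v).le)
    unfold Pool.Agent.Lib.MP_4d5ce1_nt.fa
    exact apply_nonneg _ _
  · rw [hlast, Pool.Agent.Lib.MP_4d5ce1_nt.fa_mul, Finset.prod_div_distrib, div_eq_inv_mul,
      fa_norm]
    exact mul_le_mul_of_nonneg_right (hfc v) (Finset.prod_nonneg fun w _ => hfa0 w u)
  · have e1 : gv K r c u z i = c * (Algebra.norm K u * (minpoly K (z / u)).coeff i.val) := by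
      unfold gv
      ring
    have h3 := coeff_inf r hr v b hab.pos l1 l2 h1 h2 u z hu hul hzl hgen i.val i.is_le
    rw [← pb_pow hab.pos, ← mul_pow] at h3
    have h4 : 0 ≤ 2 ^ r * l1 ^ i.val * l2 ^ (r - i.val) * pb K b v :=
      mul_nonneg (by positivity) (pb_pos hab.pos v).le
    have h5 := (pow_le_pow_iff_left₀ (apply_nonneg _ _) h4 (mult_ne v)).1 h3
    rw [e1, map_mul]
    calc v c * v (Algebra.norm K u * (minpoly K (z / u)).coeff i.val)
        ≤ v c * (2 ^ r * l1 ^ i.val * l2 ^ (r - i.val) * pb K b v) :=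
          mul_le_mul_of_nonneg_left h5 (apply_nonneg _ _)
      _ = (v c * pb K b v) * (2 ^ r * l1 ^ i.val * l2 ^ (r - i.val)) := by ring
      _ ≤ (C * H) * (2 ^ r * l1 ^ i.val * l2 ^ (r - i.val)) :=
          mul_le_mul_of_nonneg_right (hci v) (by positivity)
      _ = C * 2 ^ r * H * l1 ^ i.val * l2 ^ (r - i.val) := by ring
  · rw [hlast, map_mul, mul_pow, norm_inf]
    have e2 : ∏ w ∈ oi K E v, (w u / b w) ^ w.mult =
        (∏ w ∈ oi K E v, w u ^ w.mult) / pb K b v ^ v.mult := by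
      rw [pb_pow hab.pos, ← Finset.prod_div_distrib]
      exact Finset.prod_congr rfl fun w _ => div_pow _ _ _
    have hP : 0 ≤ ∏ w ∈ oi K E v, w u ^ w.mult :=
      Finset.prod_nonneg fun w _ => pow_nonneg (apply_nonneg _ _) _
    have hpb := pb_pos (K := K) hab.pos v
    rw [e2, mul_div_assoc', le_div_iff₀ (pow_pos hpb _)]
    have h6 : (v c * pb K b v) ^ v.mult ≤ (C * 2 ^ r * H) ^ v.mult := by
      refine pow_le_pow_left₀ (mul_nonneg (apply_nonneg _ _) hpb.le) ((hci v).trans ?_) _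
      have hCH : 0 ≤ C * H := (mul_nonneg (apply_nonneg _ _) hpb.le).trans (hci v)
      nlinarith
    calc v c ^ v.mult * (∏ w ∈ oi K E v, w u ^ w.mult) * pb K b v ^ v.mult
        = (v c * pb K b v) ^ v.mult * ∏ w ∈ oi K E v, w u ^ w.mult := by rw [mul_pow]; ring
      _ ≤ (C * 2 ^ r * H) ^ v.mult * ∏ w ∈ oi K E v, w u ^ w.mult :=
          mul_le_mul_of_nonneg_right h6 hP

end Pool.Agent.Lib.MP_44a246_ntAL
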