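import Pool.Agent.Lib.MP_44a246_ntAL.AL0
import Pool.Agent.Lib.MP_44a246_ntAL.AL7
import Pool.Agent.Lib.MP_44a246_ntAL.AL11

/-!
# Decoding
-/

set_option autoImplicit false

open NumberField IsDedekindDomain Height
open Pool.Agent.Lib.MP_4d5ce1_nt (fa nv ordv fa_pos fa_nonneg nv_pos one_lt_nv two_le_nv)
open Pool.Agent.Lib.MP_44a246_ntNF
open Pool.Agent.Lib.MP_44a246_ntNU

namespace Pool.Agent.Lib.MP_44a246_ntAL

universe u

private lemma al13_below {K : Type*} {E : Type*} [Field K] [NumberField K] [Field E]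
    [NumberField E] [Algebra K E] (w : HeightOneSpectrum (𝓞 E)) :
    ∃ v : HeightOneSpectrum (𝓞 K), w.asIdeal.comap (algebraMap (𝓞 K) (𝓞 E)) = v.asIdeal := by
  have hp : (w.asIdeal.comap (algebraMap (𝓞 K) (𝓞 E))).IsPrime := by
    have := w.isPrime
    exact Ideal.comap_isPrime _ _
  refine ⟨⟨w.asIdeal.comap (algebraMap (𝓞 K) (𝓞 E)), hp, ?_⟩, rfl⟩
  intro h
  exact w.ne_bot (Ideal.eq_bot_of_comap_eq_bot h)

private lemma al13_fa_lt {E : Type*} [Field E] [NumberField E] (w : HeightOneSpectrum (𝓞 E))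
    {x : E} (h : fa w x < 1) : fa w x ≤ (nv w)⁻¹ := by
  rcases eq_or_ne x 0 with rfl | hx
  · rw [Pool.Agent.Lib.MP_4d5ce1_nt.fa_zero]
    exact (inv_pos.2 (nv_pos w)).le
  · rw [Pool.Agent.Lib.MP_4d5ce1_nt.fa_eq w hx] at h ⊢
    have h1 : - ordv w x < 0 := by
      by_contra h2
      push Not at h2
      have := one_le_zpow₀ (one_lt_nv w).le h2
      linarith
    rw [← zpow_neg_one]
    exact zpow_le_zpow_right₀ (one_lt_nv w).le (by omega)

private lemma al13_prod_nv {K E : Type*} [Field K] [NumberField K] [Field E] [NumberField E]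
    [Algebra K E] (v : HeightOneSpectrum (𝓞 K)) :
    ∏ w ∈ ov K E v, nv w ≤ nv v ^ Module.finrank K E := by
  obtain ⟨π, hπ⟩ := HeightOneSpectrum.valuation_exists_uniformizer K v
  have hπ0 : π ≠ 0 := by
    rintro rfl
    rw [map_zero] at hπ
    exact absurd hπ.symm WithZero.exp_ne_zero
  have h1 : fa v π = (nv v)⁻¹ := by
    rw [Pool.Agent.Lib.MP_4d5ce1_nt.fa_eq v hπ0]
    have : ordv v π = 1 := by
      unfold Pool.Agent.Lib.MP_4d5ce1_nt.ordv
      rw [hπ, WithZero.log_exp, neg_neg]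
    rw [this, zpow_neg_one]
  have h2 : fa v π < 1 := by
    rw [h1]
    exact inv_lt_one_of_one_lt₀ (one_lt_nv v)
  have hn : fa v (Algebra.norm K (algebraMap K E π)) = ∏ w ∈ ov K E v, fa w (algebraMap K E π) :=
    fa_norm v _
  rw [Algebra.norm_algebraMap, Pool.Agent.Lib.MP_4d5ce1_nt.fa_pow, h1] at hn
  have h3 : ∏ w ∈ ov K E v, fa w (algebraMap K E π) ≤ ∏ w ∈ ov K E v, (nv w)⁻¹ := by
    refine Finset.prod_le_prod (fun w _ => fa_nonneg w _) fun w hw => ?_
    obtain ⟨m, hm, -, hm2⟩ := fa_up_lt_iff ((mem_ov v w).1 hw)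
    refine al13_fa_lt w ?_
    rw [hm2]
    exact pow_lt_one₀ (fa_nonneg v π) h2 (by omega)
  rw [← hn, Finset.prod_inv_distrib, inv_pow] at h3
  exact (inv_le_inv₀ (pow_pos (nv_pos v) _) (Finset.prod_pos fun w _ => nv_pos w)).1 h3

private lemma al13_pf {E : Type*} [Field E] [NumberField E] {x : E} (hx : x ≠ 0) :
    (∏ w : InfinitePlace E, w x ^ w.mult) * ∏ᶠ v : HeightOneSpectrum (𝓞 E), fa v x = 1 := by
  have h := NumberField.prod_abs_eq_one (K := E) hx
  have hfin : ∏ᶠ w : FinitePlace E, w x = ∏ᶠ v : HeightOneSpectrum (𝓞 E), fa v x := by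
    rw [← finprod_comp_equiv (FinitePlace.equivHeightOneSpectrum (K := E)).symm]
    rfl
  rwa [hfin] at h

private lemma al13_one_le_prod {ι : Type*} (s : Finset ι) (f : ι → ℝ) (h : ∀ i ∈ s, 1 ≤ f i) :
    1 ≤ ∏ i ∈ s, f i := by
  have := Finset.prod_le_prod (s := s) (f := fun _ => (1 : ℝ)) (g := f)
    (fun _ _ => zero_le_one) h
  simpa using this

/-- the basic estimate -/
private lemma al13_key {E : Type*} [Field E] [NumberField E] {m : ℕ} {x : Fin m → E} (hx : x ≠ 0)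
    {u : E} (hu : u ≠ 0) (h : ∀ w : HeightOneSpectrum (𝓞 E), fa w u ≤ tf x w)
    (W : Finset (HeightOneSpectrum (𝓞 E))) :
    (∏ w ∈ W, tf x w / fa w u) * ∏ w : InfinitePlace E, (ti x w / w u) ^ w.mult ≤ mulHeight x := by
  classical
  obtain ⟨⟨-, hfin, hpos⟩, hhb⟩ := adm_tf x hx
  have hfu : (Function.mulSupport fun v : HeightOneSpectrum (𝓞 E) => fa v u).Finite :=
    Pool.Agent.Lib.MP_4d5ce1_nt.finite_fa_ne_one hu
  set W' := W ∪ (hfin.toFinset ∪ hfu.toFinset) with hW'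
  have hup : ∀ w : InfinitePlace E, 0 < w u := fun w => InfinitePlace.pos_iff.2 hu
  have e1 : ∏ᶠ w, tf x w = ∏ w ∈ W', tf x w :=
    finprod_eq_prod_of_mulSupport_subset _ (by
      intro w hw
      simp only [hW', Finset.coe_union, Set.mem_union, Finset.mem_coe, Set.Finite.mem_toFinset]
      exact Or.inr (Or.inl hw))
  have e2 : ∏ᶠ w : HeightOneSpectrum (𝓞 E), fa w u = ∏ w ∈ W', fa w u :=
    finprod_eq_prod_of_mulSupport_subset _ (by
      intro w hw
      simp only [hW', Finset.coe_union, Set.mem_union, Finset.mem_coe, Set.Finite.mem_toFinset]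
      exact Or.inr (Or.inr hw))
  have hpf := al13_pf hu
  rw [e2] at hpf
  have h1 : ∏ w ∈ W, tf x w / fa w u ≤ ∏ w ∈ W', tf x w / fa w u := by
    refine Finset.prod_le_prod_of_subset_of_one_le Finset.subset_union_left
      (fun w _ => div_nonneg ((fa_nonneg w u).trans (h w)) (fa_nonneg w u)) fun w _ _ => ?_
    rw [one_le_div (fa_pos w hu)]
    exact h w
  have h2 : 0 ≤ ∏ w : InfinitePlace E, (ti x w / w u) ^ w.mult :=
    Finset.prod_nonneg fun w _ => pow_nonneg (div_nonneg (hpos w).le (hup w).le) _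
  refine (mul_le_mul_of_nonneg_right h1 h2).trans (le_of_eq ?_)
  rw [← hhb]
  unfold hb
  rw [e1, Finset.prod_div_distrib]
  have h3 : ∏ w : InfinitePlace E, (ti x w / w u) ^ w.mult =
      (∏ w : InfinitePlace E, ti x w ^ w.mult) / ∏ w : InfinitePlace E, w u ^ w.mult := by
    rw [← Finset.prod_div_distrib]
    exact Finset.prod_congr rfl fun w _ => div_pow _ _ _
  rw [h3, div_mul_div_comm, mul_comm (∏ w ∈ W', fa w u), hpf, div_one]

/-- consequences for the elements of the box -/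
private lemma al13_box {E : Type*} [Field E] [NumberField E] {m : ℕ} {x : Fin m → E} (hx : x ≠ 0)
    {u : E} (hu : u ≠ 0) {M B : ℝ} (hM : 1 ≤ M) (h : u ∈ Bx (tf x) (ti x) M)
    (hB : mulHeight x ≤ B) :
    (∀ W : Finset (HeightOneSpectrum (𝓞 E)), ∏ w ∈ W, tf x w / fa w u ≤
      M ^ Module.finrank ℚ E * B) ∧
    (∀ w : InfinitePlace E, ti x w / w u ≤ M ^ Module.finrank ℚ E * B) ∧
    (∀ w : InfinitePlace E, M⁻¹ ≤ ti x w / w u) := by
  classical
  obtain ⟨⟨-, -, hpos⟩, -⟩ := adm_tf x hx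
  have hup : ∀ w : InfinitePlace E, 0 < w u := fun w => InfinitePlace.pos_iff.2 hu
  have hM0 : 0 < M := by linarith
  have hlow : ∀ w : InfinitePlace E, 1 ≤ M * (ti x w / w u) := by
    intro w
    rw [← mul_div_assoc, one_le_div (hup w)]
    exact h.2 w
  have hkey := al13_key hx hu h.1
  have hMD : ∏ w : InfinitePlace E, M ^ w.mult = M ^ Module.finrank ℚ E := by
    rw [Finset.prod_pow_eq_pow_sum, InfinitePlace.sum_mult_eq]
  have hprod : ∏ w : InfinitePlace E, (M * (ti x w / w u)) ^ w.mult =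
      M ^ Module.finrank ℚ E * ∏ w : InfinitePlace E, (ti x w / w u) ^ w.mult := by
    rw [← hMD, ← Finset.prod_mul_distrib]
    exact Finset.prod_congr rfl fun w _ => mul_pow _ _ _
  have hone : 1 ≤ M ^ Module.finrank ℚ E * ∏ w : InfinitePlace E, (ti x w / w u) ^ w.mult := by
    rw [← hprod]
    exact al13_one_le_prod _ _ fun w _ => one_le_pow₀ (hlow w)
  have hMp : 0 < M ^ Module.finrank ℚ E := pow_pos hM0 _
  refine ⟨fun W => ?_, fun w => ?_, fun w => ?_⟩
  · have h1 : 0 ≤ ∏ w ∈ W, tf x w / fa w u :=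
      Finset.prod_nonneg fun w _ => div_nonneg ((fa_nonneg w u).trans (h.1 w)) (fa_nonneg w u)
    calc ∏ w ∈ W, tf x w / fa w u ≤ (∏ w ∈ W, tf x w / fa w u) *
          (M ^ Module.finrank ℚ E * ∏ w : InfinitePlace E, (ti x w / w u) ^ w.mult) :=
        le_mul_of_one_le_right h1 hone
      _ = M ^ Module.finrank ℚ E * ((∏ w ∈ W, tf x w / fa w u) *
          ∏ w : InfinitePlace E, (ti x w / w u) ^ w.mult) := by ring
      _ ≤ M ^ Module.finrank ℚ E * B :=
        mul_le_mul_of_nonneg_left ((hkey W).trans hB) hMp.le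
  · have h0 := hkey ∅
    rw [Finset.prod_empty, one_mul] at h0
    have h1 : M * (ti x w / w u) ≤ (M * (ti x w / w u)) ^ w.mult :=
      le_self_pow₀ (hlow w) InfinitePlace.mult_pos.ne'
    have h2 : (M * (ti x w / w u)) ^ w.mult ≤
        ∏ w : InfinitePlace E, (M * (ti x w / w u)) ^ w.mult := by
      have := Finset.prod_le_prod_of_subset_of_one_le
        (s := {w}) (t := Finset.univ) (f := fun w : InfinitePlace E =>
          (M * (ti x w / w u)) ^ w.mult) (Finset.subset_univ _)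
        (fun w' _ => by have := hlow w'; positivity) fun w' _ _ => one_le_pow₀ (hlow w')
      simpa using this
    have h3 : 0 < ti x w / w u := div_pos (hpos w) (hup w)
    have h4 : ti x w / w u ≤ M * (ti x w / w u) := le_mul_of_one_le_left h3.le hM
    rw [hprod] at h2
    exact h4.trans (h1.trans (h2.trans (mul_le_mul_of_nonneg_left (h0.trans hB) hMp.le)))
  · rw [inv_le_iff_one_le_mul₀ hM0, mul_comm]
    exact hlow w

/-- the primes which divide the leading coefficient -/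
private lemma al13_V {K : Type*} [Field K] [NumberField K] {γ : K} (hγ : γ ≠ 0)
    (h1 : ∀ v : HeightOneSpectrum (𝓞 K), fa v γ ≤ 1) {M B : ℝ} (hB : 1 ≤ B)
    (h2 : ∀ v : InfinitePlace K, v γ ≤ M * B ^ ((Module.finrank ℚ K : ℝ)⁻¹)) :
    ∃ V : Finset (HeightOneSpectrum (𝓞 K)), (∀ v, fa v γ < 1 → v ∈ V) ∧
      ∏ v ∈ V, nv v ≤ M ^ Module.finrank ℚ K * B := by
  classical
  have hf := Pool.Agent.Lib.MP_4d5ce1_nt.finite_fa_ne_one hγ
  refine ⟨hf.toFinset, fun v hv => by simpa using hv.ne, ?_⟩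
  have hpf := al13_pf hγ
  have e1 : ∏ᶠ v : HeightOneSpectrum (𝓞 K), fa v γ = ∏ v ∈ hf.toFinset, fa v γ :=
    finprod_eq_prod_of_mulSupport_subset _ (by intro v hv; simpa using hv)
  rw [e1] at hpf
  have h3 : ∏ v ∈ hf.toFinset, fa v γ ≤ ∏ v ∈ hf.toFinset, (nv v)⁻¹ := by
    refine Finset.prod_le_prod (fun v _ => fa_nonneg v _) fun v hv => ?_
    have : fa v γ ≠ 1 := by simpa using hv
    exact al13_fa_lt v (lt_of_le_of_ne (h1 v) this)
  rw [Finset.prod_inv_distrib] at h3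
  have hnvp : 0 < ∏ v ∈ hf.toFinset, nv v := Finset.prod_pos fun v _ => nv_pos v
  have hP : 0 ≤ ∏ w : InfinitePlace K, w γ ^ w.mult :=
    Finset.prod_nonneg fun w _ => pow_nonneg (apply_nonneg w γ) _
  have h4 : 1 ≤ (∏ w : InfinitePlace K, w γ ^ w.mult) * (∏ v ∈ hf.toFinset, nv v)⁻¹ :=
    hpf.symm.le.trans (mul_le_mul_of_nonneg_left h3 hP)
  rw [← div_eq_mul_inv, one_le_div hnvp] at h4
  refine h4.trans ?_
  have hd : (Module.finrank ℚ K : ℝ) ≠ 0 := by
    have := Module.finrank_pos (R := ℚ) (M := K)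
    exact_mod_cast this.ne'
  calc ∏ w : InfinitePlace K, w γ ^ w.mult
      ≤ ∏ w : InfinitePlace K, (M * B ^ ((Module.finrank ℚ K : ℝ)⁻¹)) ^ w.mult :=
        Finset.prod_le_prod (fun w _ => pow_nonneg (apply_nonneg w γ) _) fun w _ =>
          pow_le_pow_left₀ (apply_nonneg w γ) (h2 w) _
    _ = (M * B ^ ((Module.finrank ℚ K : ℝ)⁻¹)) ^ Module.finrank ℚ K := by
        rw [Finset.prod_pow_eq_pow_sum, InfinitePlace.sum_mult_eq]
    _ = M ^ Module.finrank ℚ K * B := by
        rw [mul_pow]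
        congr 1
        rw [← Real.rpow_natCast (B ^ _), ← Real.rpow_mul (by linarith), inv_mul_cancel₀ hd,
          Real.rpow_one]

/-- the primes over a set of primes -/
private lemma al13_NN {K E : Type*} [Field K] [NumberField K] [Field E] [NumberField E]
    [Algebra K E] (V : Finset (HeightOneSpectrum (𝓞 K))) :
    ∃ W : Finset (HeightOneSpectrum (𝓞 E)), (∀ v ∈ V, ∀ w ∈ ov K E v, w ∈ W) ∧
      NN W ≤ (∏ v ∈ V, nv v) ^ Module.finrank K E := by
  classical
  refine ⟨V.biUnion (ov K E), fun v hv w hw => Finset.mem_biUnion.2 ⟨v, hv, hw⟩, ?_⟩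
  unfold NN
  rw [Finset.prod_biUnion, ← Finset.prod_pow]
  · exact Finset.prod_le_prod (fun v _ => Finset.prod_nonneg fun w _ => (nv_pos w).le)
      fun v _ => al13_prod_nv v
  · intro v _ v' _ hvv
    rw [Function.onFun, Finset.disjoint_left]
    intro w hw hw'
    rw [mem_ov] at hw hw'
    exact hvv (HeightOneSpectrum.ext (hw.symm.trans hw'))

/-- The data of the theorem, over one field. -/
private structure Dt {K E : Type*} [Field K] [NumberField K] [Field E] [NumberField E]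
    [Algebra K E] {m : ℕ} (r : ℕ) (M B : ℝ) (x : Fin m → E) (c : K) (u z : E) : Prop where
  rk : Module.finrank K E = r
  x0 : x ≠ 0
  ht : mulHeight x ≤ B
  u0 : u ≠ 0
  c0 : c ≠ 0
  ub : u ∈ Bx (tf x) (ti x) M
  zb : z ∈ Bx (tf x) (ti x) M
  ad : IntermediateField.adjoin K {z / u} = ⊤
  fn : ∀ v i, fa v (gv K r c u z i) ≤ ∏ w ∈ ov K E v, (max (fa w u) (fa w z) / tf x w)
  nf : ∀ v : InfinitePlace K, v (gv K r c u z (Fin.last r)) ≤
    M * B ^ ((Module.finrank ℚ K : ℝ)⁻¹)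

/-- the exponents of `k` and `e` are determined by the data -/
private structure Cd {E : Type*} [Field E] [NumberField E] {m : ℕ} (x : Fin m → E) (u z : E)
    (k : HeightOneSpectrum (𝓞 E) →₀ ℕ) (e : InfinitePlace E → ℤ) : Prop where
  fn : ∀ w, nv w ^ k w = tf x w / max (fa w u) (fa w z)
  nf : ∀ w : InfinitePlace E, e w = ⌊Real.log (ti x w / w u)⌋

private lemma al13_natDegree {K E : Type*} [Field K] [NumberField K] [Field E] [NumberField E]
    [Algebra K E] {y : E} (h : IntermediateField.adjoin K {y} = ⊤) :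
    IsIntegral K y ∧ (minpoly K y).natDegree = Module.finrank K E := by
  have hfin : Module.Finite K E := Module.Finite.of_restrictScalars_finite ℚ K E
  have hy : IsIntegral K y := Algebra.IsIntegral.isIntegral y
  refine ⟨hy, ?_⟩
  rw [← IntermediateField.adjoin.finrank hy, h, IntermediateField.finrank_top']

/-- the leading coefficient -/
private lemma al13_last {K E : Type*} [Field K] [NumberField K] [Field E] [NumberField E]
    [Algebra K E] {m r : ℕ} {M B : ℝ} {x : Fin m → E} {c : K} {u z : E}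
    (h : Dt r M B x c u z) : gv K r c u z (Fin.last r) ≠ 0 := by
  obtain ⟨hy, hd⟩ := al13_natDegree h.ad
  have h1 : (minpoly K (z / u)).coeff r = 1 := by
    rw [← h.rk, ← hd]
    exact (minpoly.monic hy).coeff_natDegree
  have hfin : Module.Finite K E := Module.Finite.of_restrictScalars_finite ℚ K E
  unfold gv
  rw [Fin.val_last, h1, mul_one]
  exact mul_ne_zero h.c0 (Algebra.norm_ne_zero_iff.2 h.u0)

/-- the maximum of the absolute values of `u` and `z` is at most the size of `x` -/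
private lemma al13_max {K E : Type*} [Field K] [NumberField K] [Field E] [NumberField E]
    [Algebra K E] {m r : ℕ} {M B : ℝ} {x : Fin m → E} {c : K} {u z : E}
    (h : Dt r M B x c u z) (w : HeightOneSpectrum (𝓞 E)) :
    0 < max (fa w u) (fa w z) ∧ max (fa w u) (fa w z) ≤ tf x w :=
  ⟨lt_max_of_lt_left (fa_pos w h.u0), max_le (h.ub.1 w) (h.zb.1 w)⟩

/-- existence of the exponents -/
private lemma al13_ex {K E : Type*} [Field K] [NumberField K] [Field E] [NumberField E]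
    [Algebra K E] {m r : ℕ} {M B : ℝ} {x : Fin m → E} {c : K} {u z : E}
    (h : Dt r M B x c u z) : ∃ k e, Cd x u z k e := by
  classical
  obtain ⟨⟨hpow, hfin, -⟩, -⟩ := adm_tf x h.x0
  have hmax : ∀ w : HeightOneSpectrum (𝓞 E), ∃ j : ℤ, max (fa w u) (fa w z) = nv w ^ j := by
    intro w
    rcases le_total (fa w z) (fa w u) with h1 | h1
    · rw [max_eq_left h1]
      exact ⟨_, Pool.Agent.Lib.MP_4d5ce1_nt.fa_eq w h.u0⟩
    · rw [max_eq_right h1]
      have hz : z ≠ 0 := by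
        rintro rfl
        rw [Pool.Agent.Lib.MP_4d5ce1_nt.fa_zero] at h1
        exact absurd (fa_pos w h.u0) (not_lt.2 h1)
      exact ⟨_, Pool.Agent.Lib.MP_4d5ce1_nt.fa_eq w hz⟩
  have hex : ∀ w : HeightOneSpectrum (𝓞 E), ∃ k : ℕ,
      nv w ^ k = tf x w / max (fa w u) (fa w z) := by
    intro w
    obtain ⟨j, hj⟩ := hmax w
    obtain ⟨i, hi⟩ := hpow w
    have hle := (al13_max h w).2
    have hne : nv w ≠ 0 := (nv_pos w).ne'
    rw [hj, hi] at hle
    have hji : j ≤ i := (zpow_le_zpow_iff_right₀ (one_lt_nv w)).1 hle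
    refine ⟨(i - j).toNat, ?_⟩
    rw [hi, hj, ← zpow_sub₀ hne, ← zpow_natCast, Int.toNat_of_nonneg (by omega)]
  choose k hk using hex
  have hsupp : (Function.support k).Finite := by
    have hu := Pool.Agent.Lib.MP_4d5ce1_nt.finite_fa_ne_one h.u0
    refine (hfin.union hu).subset ?_
    intro w hw
    by_contra hcon
    rw [Set.mem_union, not_or] at hcon
    obtain ⟨h1, h2⟩ := hcon
    have h1' : tf x w = 1 := by
      by_contra h3
      exact h1 h3
    have h2' : fa w u = 1 := by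
      by_contra h3
      exact h2 h3
    have h3 := al13_max h w
    have h4 : max (fa w u) (fa w z) = 1 := by
      apply le_antisymm
      · rw [← h1']; exact h3.2
      · rw [← h2']; exact le_max_left _ _
    have h5 := hk w
    rw [h1', h4, div_one] at h5
    have h6 : k w ≠ 0 := hw
    have h7 := one_lt_pow₀ (one_lt_nv w) h6
    linarith
  exact ⟨Finsupp.ofSupportFinite k hsupp, fun w => ⌊Real.log (ti x w / w u)⌋, ⟨hk, fun w => rfl⟩⟩

/-- the norm of the exponents -/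
private lemma al13_Nk {K E : Type*} [Field K] [NumberField K] [Field E] [NumberField E]
    [Algebra K E] {m r : ℕ} {M B : ℝ} (hM : 1 ≤ M) {x : Fin m → E} {c : K} {u z : E}
    (h : Dt r M B x c u z) {k : HeightOneSpectrum (𝓞 E) →₀ ℕ} {e : InfinitePlace E → ℤ}
    (hk : Cd x u z k e) : Nk k ≤ M ^ Module.finrank ℚ E * B := by
  refine le_trans ?_ ((al13_box h.x0 h.u0 hM h.ub h.ht).1 k.support)
  unfold Nk Finsupp.prod
  refine Finset.prod_le_prod (fun w _ => pow_nonneg (nv_pos w).le _) fun w _ => ?_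
  have h1 := al13_max h w
  refine (hk.fn w).le.trans ?_
  exact div_le_div_of_nonneg_left (h1.1.le.trans h1.2) (fa_pos w h.u0) (le_max_left _ _)

/-- the support of the exponents -/
private lemma al13_supp {K E : Type*} [Field K] [NumberField K] [Field E] [NumberField E]
    [Algebra K E] {m r : ℕ} {M B : ℝ} {x : Fin m → E} {c : K} {u z : E}
    (h : Dt r M B x c u z) {k : HeightOneSpectrum (𝓞 E) →₀ ℕ} {e : InfinitePlace E → ℤ}
    (hk : Cd x u z k e) :
    (∀ v i, fa v (gv K r c u z i) ≤ 1) ∧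
    ∀ w ∈ k.support, ∃ v : HeightOneSpectrum (𝓞 K), w ∈ ov K E v ∧
      fa v (gv K r c u z (Fin.last r)) < 1 := by
  classical
  have hle : ∀ w : HeightOneSpectrum (𝓞 E), max (fa w u) (fa w z) / tf x w ≤ 1 := by
    intro w
    have h1 := al13_max h w
    rw [div_le_one (h1.1.trans_le h1.2)]
    exact h1.2
  have hnn : ∀ w : HeightOneSpectrum (𝓞 E), 0 ≤ max (fa w u) (fa w z) / tf x w := by
    intro w
    have h1 := al13_max h w
    exact div_nonneg h1.1.le (h1.1.trans_le h1.2).le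
  refine ⟨fun v i => (h.fn v i).trans (Finset.prod_le_one (fun w _ => hnn w) fun w _ => hle w),
    fun w hw => ?_⟩
  obtain ⟨v, hv⟩ := al13_below (K := K) w
  have hwv : w ∈ ov K E v := (mem_ov v w).2 hv
  refine ⟨v, hwv, (h.fn v _).trans_lt ?_⟩
  rw [← Finset.mul_prod_erase _ _ hwv]
  have h1 := al13_max h w
  have h2 : max (fa w u) (fa w z) / tf x w < 1 := by
    rw [div_lt_one (h1.1.trans_le h1.2)]
    have h3 := one_lt_pow₀ (one_lt_nv w) (Finsupp.mem_support_iff.1 hw)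
    rw [hk.fn w, one_lt_div h1.1] at h3
    exact h3
  exact mul_lt_one_of_nonneg_of_lt_one_left (hnn w) h2
    (Finset.prod_le_one (fun w _ => hnn w) fun w _ => hle w)

/-- the number of values of the exponents at the infinite places -/
private lemma al13_log (D : ℕ) (M η : ℝ) (hM : 1 ≤ M) (hη : 0 < η) : ∃ C : ℝ, 1 ≤ C ∧
    ∀ B : ℝ, 1 ≤ B → ∀ (ι : Type u) [Fintype ι], Fintype.card ι ≤ D →
      ∀ Z : Finset (ι → ℤ), (∀ e ∈ Z, ∀ w, -Real.log M - 1 ≤ e w ∧
        (e w : ℝ) ≤ Real.log (M ^ D * B)) → (Z.card : ℝ) ≤ C * B ^ η := by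
  classical
  have hM0 : 0 < M := by linarith
  have hlM : 0 ≤ Real.log M := Real.log_nonneg hM
  set ε : ℝ := η / (D + 1) with hε
  have hD0 : (0 : ℝ) < D + 1 := by positivity
  have hε0 : 0 < ε := div_pos hη hD0
  have hεD : ε * D ≤ η := by
    rw [hε, div_mul_eq_mul_div, div_le_iff₀ hD0]
    nlinarith
  set c : ℝ := D * Real.log M + Real.log M + 2 with hc
  have hc1 : 2 ≤ c := by
    have : 0 ≤ (D : ℝ) * Real.log M := by positivity
    linarith
  have hb1 : 1 ≤ 1 / ε + c := by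
    have : 0 < 1 / ε := by positivity
    linarith
  refine ⟨(1 / ε + c) ^ D, one_le_pow₀ hb1, fun B hB ι _ hι Z hZ => ?_⟩
  have hB0 : 0 < B := by linarith
  have hlB : 0 ≤ Real.log B := Real.log_nonneg hB
  set lo : ℤ := ⌈-Real.log M - 1⌉ with hlo
  set hi : ℤ := ⌊Real.log (M ^ D * B)⌋ with hhi
  have hsub : Z ⊆ Fintype.piFinset fun _ : ι => Finset.Icc lo hi := by
    intro e he
    rw [Fintype.mem_piFinset]
    intro w
    rw [Finset.mem_Icc]
    exact ⟨Int.ceil_le.2 (hZ e he w).1, Int.le_floor.2 (hZ e he w).2⟩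
  have hlog : Real.log (M ^ D * B) = D * Real.log M + Real.log B := by
    rw [Real.log_mul (pow_pos hM0 _).ne' hB0.ne', Real.log_pow]
  have hcard : ((Finset.Icc lo hi).card : ℝ) ≤ Real.log B + c := by
    rw [Int.card_Icc]
    have h1 : (hi : ℝ) ≤ Real.log (M ^ D * B) := Int.floor_le _
    have h2 : -Real.log M - 1 ≤ (lo : ℝ) := Int.le_ceil _
    rw [hlog] at h1
    have h3 : (((hi + 1 - lo).toNat : ℤ) : ℝ) ≤ Real.log B + c := by
      rw [Int.toNat_eq_max]
      push_cast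
      exact max_le (by linarith) (by linarith)
    exact_mod_cast h3
  have h4 : (Z.card : ℝ) ≤ ((Finset.Icc lo hi).card : ℝ) ^ Fintype.card ι := by
    have := Finset.card_le_card hsub
    rw [Fintype.card_piFinset, Finset.prod_const, Finset.card_univ] at this
    exact_mod_cast this
  have h5 : Real.log B + c ≤ (1 / ε + c) * B ^ ε := by
    have h6 := Real.log_le_rpow_div hB0.le hε0
    have h7 : 1 ≤ B ^ ε := Real.one_le_rpow hB hε0.le
    have h8 : c ≤ c * B ^ ε := le_mul_of_one_le_right (by linarith) h7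
    have h9 : B ^ ε / ε = 1 / ε * B ^ ε := by ring
    rw [add_mul]
    linarith
  calc (Z.card : ℝ) ≤ ((Finset.Icc lo hi).card : ℝ) ^ Fintype.card ι := h4
    _ ≤ (Real.log B + c) ^ Fintype.card ι := pow_le_pow_left₀ (Nat.cast_nonneg _) hcard _
    _ ≤ (Real.log B + c) ^ D := pow_le_pow_right₀ (by linarith) hι
    _ ≤ ((1 / ε + c) * B ^ ε) ^ D := pow_le_pow_left₀ (by linarith) h5 _
    _ = (1 / ε + c) ^ D * B ^ (ε * D) := by
        rw [mul_pow, Real.rpow_mul hB0.le, Real.rpow_natCast]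
    _ ≤ (1 / ε + c) ^ D * B ^ η :=
        mul_le_mul_of_nonneg_left (Real.rpow_le_rpow_of_exponent_le hB hεD) (by positivity)

/-- the number of codes over one field, with given `g` and `z / u` -/
private lemma al13_fix {K : Type u} [Field K] [NumberField K] (r m : ℕ) (hr : 1 ≤ r) (M η : ℝ)
    (hM : 1 ≤ M) (hη : 0 < η) : ∃ C : ℝ, 1 ≤ C ∧ ∀ B : ℝ, 1 ≤ B → ∀ (E : Type u) [Field E]
      [NumberField E] [Algebra K E] (g : Fin (r + 1) → K)
      (Z : Finset ((HeightOneSpectrum (𝓞 E) →₀ ℕ) × (InfinitePlace E → ℤ))),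
      (∀ p ∈ Z, ∃ (x : Fin m → E) (c : K) (u z : E), Dt r M B x c u z ∧ gv K r c u z = g ∧
        Cd x u z p.1 p.2) → (Z.card : ℝ) ≤ C * B ^ η := by
  classical
  set d := Module.finrank ℚ K with hd
  set D := r * d with hD
  obtain ⟨C₁, hC₁, h₁⟩ := card_exps.{u} D (η / 2 / (r + 1)) (by positivity)
  obtain ⟨C₂, hC₂, h₂⟩ := al13_log.{u} D M (η / 2) hM (by positivity)
  have hd1 : 1 ≤ d := Module.finrank_pos (R := ℚ) (M := K)
  have hdD : d ≤ D := Nat.le_mul_of_pos_left d hr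
  have hM0 : 0 < M := by linarith
  set A : ℝ := (M ^ D) ^ (η / 2) with hA
  refine ⟨max 1 (C₁ * A * C₂), le_max_left _ _, fun B hB E _ _ _ g Z hZ => ?_⟩
  have hB0 : 0 < B := by linarith
  rcases Z.eq_empty_or_nonempty with rfl | hne
  · rw [Finset.card_empty, Nat.cast_zero]
    positivity
  obtain ⟨p₀, hp₀⟩ := hne
  obtain ⟨x₀, c₀, u₀, z₀, hD₀, hg₀, hC₀⟩ := hZ p₀ hp₀
  have hrk : Module.finrank K E = r := hD₀.rk
  have hrkQ : Module.finrank ℚ E = D := by
    rw [hD, ← hrk, hd, mul_comm]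
    exact (Module.finrank_mul_finrank ℚ K E).symm
  have hγ : g (Fin.last r) ≠ 0 := hg₀ ▸ al13_last hD₀
  have hs₀ := al13_supp hD₀ hC₀
  obtain ⟨V, hV, hV2⟩ := al13_V hγ (fun v => hg₀ ▸ hs₀.1 v (Fin.last r)) hB
    (fun v => hg₀ ▸ hD₀.nf v)
  obtain ⟨W, hW, hW2⟩ := al13_NN (E := E) V
  set T : ℝ := (M ^ D * B) ^ (r + 1) with hT
  have hMB : 1 ≤ M ^ D * B := one_le_mul_of_one_le_of_one_le (one_le_pow₀ hM) hB
  have hT1 : 1 ≤ T := one_le_pow₀ hMB
  have hWT : NN W ≤ T := by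
    refine hW2.trans ?_
    rw [hrk]
    have h3 : ∏ v ∈ V, nv v ≤ M ^ D * B := hV2.trans
      (mul_le_mul_of_nonneg_right (pow_le_pow_right₀ hM hdD) hB0.le)
    refine (pow_le_pow_left₀ (Finset.prod_nonneg fun v _ => (nv_pos v).le) h3 r).trans ?_
    exact pow_le_pow_right₀ hMB (Nat.le_succ r)
  have hK : ((Z.image Prod.fst).card : ℝ) ≤ C₁ * T ^ (η / 2 / (r + 1)) := by
    refine h₁ E hrkQ.le T hT1 W hWT (Z.image Prod.fst) fun k hk => ?_
    obtain ⟨p, hp, rfl⟩ := Finset.mem_image.1 hk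
    obtain ⟨x, c, u, z, hDt, hg, hCd⟩ := hZ p hp
    refine ⟨fun w hw => ?_, ?_⟩
    · obtain ⟨v, hwv, hv⟩ := (al13_supp hDt hCd).2 w hw
      rw [hg] at hv
      exact hW v (hV v hv) w hwv
    · have h4 := al13_Nk hM hDt hCd
      rw [hrkQ] at h4
      refine h4.trans ?_
      have := pow_le_pow_right₀ hMB (Nat.succ_le_succ (Nat.zero_le r))
      rwa [Nat.succ_eq_add_one, zero_add, pow_one] at this
  have hTe : T ^ (η / 2 / (r + 1)) = A * B ^ (η / 2) := by
    have hr0 : ((r : ℝ) + 1) ≠ 0 := by positivity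
    rw [hT, ← Real.rpow_natCast, ← Real.rpow_mul (by positivity), Nat.cast_add, Nat.cast_one,
      mul_div_cancel₀ _ hr0, Real.mul_rpow (by positivity) hB0.le]
  have hE : ((Z.image Prod.snd).card : ℝ) ≤ C₂ * B ^ (η / 2) := by
    refine h₂ B hB (InfinitePlace E) ?_ (Z.image Prod.snd) fun e he w => ?_
    · rw [← hrkQ, ← InfinitePlace.sum_mult_eq (K := E), Fintype.card, Finset.card_eq_sum_ones]
      exact Finset.sum_le_sum fun w _ => InfinitePlace.mult_pos
    · obtain ⟨p, hp, rfl⟩ := Finset.mem_image.1 he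
      obtain ⟨x, c, u, z, hDt, hg, hCd⟩ := hZ p hp
      obtain ⟨-, h5, h6⟩ := al13_box hDt.x0 hDt.u0 hM hDt.ub hDt.ht
      have h5w := h5 w
      have h6w := h6 w
      rw [hrkQ] at h5w
      have hpos : 0 < ti x w / w u := (inv_pos.2 hM0).trans_le h6w
      rw [hCd.nf w]
      constructor
      · have h7 := Int.sub_one_lt_floor (Real.log (ti x w / w u))
        have h8 := Real.log_le_log (inv_pos.2 hM0) h6w
        rw [Real.log_inv] at h8
        linarith
      · exact (Int.floor_le _).trans (Real.log_le_log hpos h5w)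
  have hsub : Z ⊆ (Z.image Prod.fst) ×ˢ (Z.image Prod.snd) := by
    intro p hp
    exact Finset.mem_product.2 ⟨Finset.mem_image_of_mem _ hp, Finset.mem_image_of_mem _ hp⟩
  have hcard : (Z.card : ℝ) ≤ ((Z.image Prod.fst).card : ℝ) * ((Z.image Prod.snd).card : ℝ) := by
    have := Finset.card_le_card hsub
    rw [Finset.card_product] at this
    exact_mod_cast this
  have hBe : B ^ (η / 2) * B ^ (η / 2) = B ^ η := by
    rw [← Real.rpow_add hB0, add_halves]
  have hA0 : 0 ≤ A := by positivity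
  calc (Z.card : ℝ) ≤ ((Z.image Prod.fst).card : ℝ) * ((Z.image Prod.snd).card : ℝ) := hcard
    _ ≤ (C₁ * (A * B ^ (η / 2))) * (C₂ * B ^ (η / 2)) := by
        rw [← hTe]
        exact mul_le_mul hK hE (Nat.cast_nonneg _) (by positivity)
    _ = C₁ * A * C₂ * (B ^ (η / 2) * B ^ (η / 2)) := by ring
    _ ≤ max 1 (C₁ * A * C₂) * B ^ η := by
        rw [hBe]
        exact mul_le_mul_of_nonneg_right (le_max_right _ _) (by positivity)

/-- equal codes give similar vectors -/
private lemma al13_sim {E : Type*} [Field E] [NumberField E] {m : ℕ} {x x' : Fin m → E}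
    {u z u' z' : E} {k : HeightOneSpectrum (𝓞 E) →₀ ℕ} {e : InfinitePlace E → ℤ}
    (hx : x ≠ 0) (hx' : x' ≠ 0) (hu : u ≠ 0) (hu' : u' ≠ 0)
    (h : Cd x u z k e) (h' : Cd x' u' z' k e) (hz : z / u = z' / u') : Sim x x' := by
  obtain ⟨⟨-, -, hpos⟩, -⟩ := adm_tf x hx
  obtain ⟨⟨-, -, hpos'⟩, -⟩ := adm_tf x' hx'
  have hup : ∀ w : InfinitePlace E, 0 < w u := fun w => InfinitePlace.pos_iff.2 hu
  have hup' : ∀ w : InfinitePlace E, 0 < w u' := fun w => InfinitePlace.pos_iff.2 hu'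
  have hmax : ∀ (w : HeightOneSpectrum (𝓞 E)) (u z : E), u ≠ 0 →
      max (fa w u) (fa w z) = fa w u * max 1 (fa w (z / u)) := by
    intro w u z hu
    have h1 := fa_pos w hu
    rw [Pool.Agent.Lib.MP_4d5ce1_nt.fa_div, mul_max_of_nonneg _ _ h1.le, mul_one,
      mul_div_cancel₀ _ h1.ne']
  have hlog : ∀ w : InfinitePlace E, ti x w / w u ≤ 3 * (ti x' w / w u') ∧
      ti x' w / w u' ≤ 3 * (ti x w / w u) := by
    have gen : ∀ a b : ℝ, 0 < a → 0 < b → ⌊Real.log a⌋ = ⌊Real.log b⌋ → a ≤ 3 * b := by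
      intro a b ha hb hab
      have h1 : Real.log a - Real.log b < 1 :=
        (abs_lt.1 (Int.abs_sub_lt_one_of_floor_eq_floor hab)).2
      have h2 : Real.log a < Real.log (Real.exp 1 * b) := by
        rw [Real.log_mul (Real.exp_pos 1).ne' hb.ne', Real.log_exp]
        linarith
      have h3 := (Real.log_lt_log_iff ha (by positivity)).1 h2
      have h4 : Real.exp 1 < 3 := Real.exp_one_lt_three
      nlinarith
    intro w
    have ha := div_pos (hpos w) (hup w)
    have hb := div_pos (hpos' w) (hup' w)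
    have hab : ⌊Real.log (ti x w / w u)⌋ = ⌊Real.log (ti x' w / w u')⌋ := by
      rw [← h.nf w, ← h'.nf w]
    exact ⟨gen _ _ ha hb hab, gen _ _ hb ha hab.symm⟩
  refine ⟨u / u', div_ne_zero hu hu', fun w => ?_, fun w => ?_, fun w => ?_⟩
  · have h1 := (h.fn w).symm.trans (h'.fn w)
    rw [hmax w u z hu, hmax w u' z' hu', hz] at h1
    have h2 := fa_pos w hu
    have h3 := fa_pos w hu'
    have h4 : 0 < max 1 (fa w (z' / u')) := lt_max_of_lt_left one_pos
    rw [div_eq_div_iff (mul_pos h2 h4).ne' (mul_pos h3 h4).ne'] at h1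
    rw [Pool.Agent.Lib.MP_4d5ce1_nt.fa_div, div_mul_eq_mul_div, div_eq_iff h3.ne']
    have h5 : (tf x w * fa w u' - fa w u * tf x' w) * max 1 (fa w (z' / u')) = 0 := by
      linear_combination h1
    rcases mul_eq_zero.1 h5 with h6 | h6
    · linarith
    · exact absurd h6 h4.ne'
  · have h1 := (hlog w).2
    rw [map_div₀, div_mul_eq_mul_div, mul_div_assoc]
    have h2 : w u * (3 * (ti x w / w u)) = 3 * ti x w := by
      rw [mul_left_comm, mul_div_cancel₀ _ (hup w).ne']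
    rw [← h2]
    exact mul_le_mul_of_nonneg_left h1 (hup w).le
  · have h1 := (hlog w).1
    rw [map_div₀, div_mul_eq_mul_div, mul_div_assoc]
    have h2 : w u * (ti x w / w u) = ti x w := mul_div_cancel₀ _ (hup w).ne'
    calc ti x w = w u * (ti x w / w u) := h2.symm
      _ ≤ w u * (3 * (ti x' w / w u')) := mul_le_mul_of_nonneg_left h1 (hup w).le
      _ = 3 * (w u * (ti x' w / w u')) := by ring

/-- The codes. -/
private abbrev Cod (K : Type u) [Field K] : Type u :=
  Σ F : IntermediateField K (AlgebraicClosure K),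
    F × (HeightOneSpectrum (𝓞 F) →₀ ℕ) × (InfinitePlace F → ℤ)

private lemma al13_simV {K : Type u} [Field K] [NumberField K] {m r : ℕ} {M B : ℝ} (s t : Vc K m)
    (c c' : K) (u z : s.1) (u' z' : t.1) (k : HeightOneSpectrum (𝓞 s.1) →₀ ℕ)
    (e : InfinitePlace s.1 → ℤ) (k' : HeightOneSpectrum (𝓞 t.1) →₀ ℕ)
    (e' : InfinitePlace t.1 → ℤ)
    (h : ∃ _ : NumberField s.1, Dt r M B s.2 c u z ∧ Cd s.2 u z k e)
    (h' : ∃ _ : NumberField t.1, Dt r M B t.2 c' u' z' ∧ Cd t.2 u' z' k' e')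
    (heq : (⟨s.1, z / u, k, e⟩ : Cod K) = ⟨t.1, z' / u', k', e'⟩) : SimV s t := by
  rcases s with ⟨F, x⟩
  rcases t with ⟨F', x'⟩
  obtain ⟨hF, hh⟩ := Sigma.mk.inj_iff.1 heq
  dsimp only at hF
  subst hF
  have h1 := eq_of_heq hh
  obtain ⟨h2, h3⟩ := Prod.mk.inj h1
  obtain ⟨h4, h5⟩ := Prod.mk.inj h3
  subst h4
  subst h5
  obtain ⟨hNF, hD, hC⟩ := h
  obtain ⟨hNF', hD', hC'⟩ := h'
  exact ⟨F, hNF, x, x', rfl, rfl, al13_sim hD.x0 hD'.x0 hD.u0 hD'.u0 hC hC' h2⟩

private lemma al13_uncast {K : Type u} [Field K] [NumberField K] {m r : ℕ} {M B : ℝ}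
    (t : Vc K m) (c : K) (u z : t.1) (k : HeightOneSpectrum (𝓞 t.1) →₀ ℕ)
    (e : InfinitePlace t.1 → ℤ) (g : Fin (r + 1) → K)
    (h : ∃ _ : NumberField t.1, Dt r M B t.2 c u z ∧ Cd t.2 u z k e) (hg : gv K r c u z = g)
    (F : IntermediateField K (AlgebraicClosure K)) [NumberField F] (y : F)
    (k' : HeightOneSpectrum (𝓞 F) →₀ ℕ) (e' : InfinitePlace F → ℤ)
    (heq : (⟨t.1, z / u, k, e⟩ : Cod K) = ⟨F, y, k', e'⟩) :
    ∃ (x : Fin m → F) (c : K) (u z : F), Dt r M B x c u z ∧ gv K r c u z = g ∧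
      Cd x u z k' e' := by
  rcases t with ⟨F', x⟩
  obtain ⟨hF, hh⟩ := Sigma.mk.inj_iff.1 heq
  dsimp only at hF
  subst hF
  have h1 := eq_of_heq hh
  obtain ⟨h2, h3⟩ := Prod.mk.inj h1
  obtain ⟨h4, h5⟩ := Prod.mk.inj h3
  subst h4
  subst h5
  obtain ⟨hNF, hD, hC⟩ := h
  exact ⟨x, c, u, z, hD, hg, hC⟩

private lemma al13_cast {K : Type u} [Field K] [NumberField K] {m : ℕ}
    (t : Vc K m) (y : t.1) (k : HeightOneSpectrum (𝓞 t.1) →₀ ℕ)
    (e : InfinitePlace t.1 → ℤ) (F : IntermediateField K (AlgebraicClosure K)) (y₀ : F)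
    (hF : t.1 = F) (hy : (y : AlgebraicClosure K) = y₀) :
    ∃ p : (HeightOneSpectrum (𝓞 F) →₀ ℕ) × (InfinitePlace F → ℤ),
      (⟨F, y₀, p.1, p.2⟩ : Cod K) = ⟨t.1, y, k, e⟩ := by
  rcases t with ⟨F', x⟩
  dsimp only at hF
  subst hF
  have h1 : y = y₀ := Subtype.ext hy
  subst h1
  exact ⟨(k, e), rfl⟩

private lemma al13_fld {K : Type u} [Field K] [NumberField K]
    (F : IntermediateField K (AlgebraicClosure K)) (y : F)
    (h : IntermediateField.adjoin K {y} = ⊤) :
    F = IntermediateField.adjoin K {(y : AlgebraicClosure K)} := by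
  have h1 := IntermediateField.lift_adjoin K F {y}
  rw [h, IntermediateField.lift_top, Set.image_singleton] at h1
  exact h1

open Polynomial in
private lemma al13_root {K E : Type*} [Field K] [NumberField K] [Field E] [NumberField E]
    [Algebra K E] {m r : ℕ} {M B : ℝ} {x : Fin m → E} {c : K} {u z : E}
    (h : Dt r M B x c u z) (g : Fin (r + 1) → K) (hg : gv K r c u z = g) :
    aeval (z / u) (∑ i : Fin (r + 1), C (g i) * X ^ (i : ℕ)) = 0 := by
  obtain ⟨hy, hd⟩ := al13_natDegree h.ad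
  have h1 : (minpoly K (z / u)).natDegree < r + 1 := by
    rw [hd, h.rk]
    omega
  have h2 := Polynomial.aeval_eq_sum_range' h1 (z / u)
  rw [minpoly.aeval, Finset.sum_range] at h2
  have h3 : ∀ i : Fin (r + 1), aeval (z / u) (C (g i) * X ^ (i : ℕ)) =
      algebraMap K E (c * Algebra.norm K u) *
        ((minpoly K (z / u)).coeff i • (z / u) ^ (i : ℕ)) := by
    intro i
    rw [← hg]
    unfold gv
    rw [map_mul, aeval_C, map_pow, aeval_X, map_mul, Algebra.smul_def]
    ring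
  rw [map_sum, Finset.sum_congr rfl fun i _ => h3 i, ← Finset.mul_sum, ← h2, mul_zero]

open Polynomial in
private lemma al13_poly {K : Type*} [Field K] {r : ℕ} (g : Fin (r + 1) → K)
    (hg : g (Fin.last r) ≠ 0) :
    (∑ i : Fin (r + 1), C (g i) * X ^ (i : ℕ) : K[X]) ≠ 0 ∧
      (∑ i : Fin (r + 1), C (g i) * X ^ (i : ℕ) : K[X]).natDegree ≤ r := by
  constructor
  · intro h0
    have h1 := congrArg (fun p : K[X] => p.coeff r) h0
    simp only [finsetSum_coeff, coeff_C_mul, coeff_X_pow, coeff_zero] at h1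
    rw [Finset.sum_eq_single (Fin.last r)] at h1
    · simp only [Fin.val_last, if_true, mul_one] at h1
      exact hg h1
    · intro i _ hi
      have : r ≠ (i : ℕ) := by
        intro h2
        exact hi (Fin.ext (by rw [Fin.val_last]; exact h2.symm))
      rw [if_neg this, mul_zero]
    · intro h2
      exact absurd (Finset.mem_univ _) h2
  · refine natDegree_sum_le_of_forall_le _ _ fun i _ => ?_
    refine (natDegree_C_mul_X_pow_le _ _).trans ?_
    have := i.2
    omega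

/-- AL13 : decoding -/
theorem decode {K : Type u} [Field K] [NumberField K] (r m : ℕ) (hr : 1 ≤ r) (M η : ℝ)
    (hM : 1 ≤ M) (hη : 0 < η) : ∃ C : ℝ, 1 ≤ C ∧ ∀ B : ℝ, 1 ≤ B → ∀ (X : Finset (Vc K m))
      (c : Vc K m → K) (u z : ∀ s : Vc K m, s.1),
      (∀ s ∈ X, ∃ _ : NumberField s.1, Module.finrank K s.1 = r ∧ s.2 ≠ 0 ∧ mulHeight s.2 ≤ B ∧
        u s ≠ 0 ∧ c s ≠ 0 ∧ u s ∈ Bx (tf s.2) (ti s.2) M ∧ z s ∈ Bx (tf s.2) (ti s.2) M ∧
        IntermediateField.adjoin K {z s / u s} = ⊤ ∧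
        (∀ v i, fa v (gv K r (c s) (u s) (z s) i) ≤
          ∏ w ∈ ov K s.1 v, (max (fa w (u s)) (fa w (z s)) / tf s.2 w)) ∧
        ∀ v : InfinitePlace K, v (gv K r (c s) (u s) (z s) (Fin.last r)) ≤
          M * B ^ ((Module.finrank ℚ K : ℝ)⁻¹)) →
      ∃ R ⊆ X, (∀ s ∈ X, ∃ t ∈ R, SimV t s ∧
          gv K r (c t) (u t) (z t) = gv K r (c s) (u s) (z s)) ∧
        ∀ R' ⊆ R, ∀ g : Fin (r + 1) → K, (∀ t ∈ R', gv K r (c t) (u t) (z t) = g) →
          (R'.card : ℝ) ≤ C * B ^ η := by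
  classical
  obtain ⟨C, hC, hfix⟩ := al13_fix.{u} (K := K) r m hr M η hM hη
  have hr' : (1 : ℝ) ≤ r := by exact_mod_cast hr
  refine ⟨r * C, one_le_mul_of_one_le_of_one_le hr' hC, fun B hB X c u z h => ?_⟩
  have hB0 : 0 < B := by linarith
  have hex : ∀ s : Vc K m, ∃ (k : HeightOneSpectrum (𝓞 s.1) →₀ ℕ) (e : InfinitePlace s.1 → ℤ),
      s ∈ X → ∃ _ : NumberField s.1, Dt r M B s.2 (c s) (u s) (z s) ∧
        Cd s.2 (u s) (z s) k e := by
    intro s
    by_cases hs : s ∈ X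
    · obtain ⟨hNF, h1, h2, h3, h4, h5, h6, h7, h8, h9, h10⟩ := h s hs
      have hDt : Dt r M B s.2 (c s) (u s) (z s) := ⟨h1, h2, h3, h4, h5, h6, h7, h8, h9, h10⟩
      obtain ⟨k, e, hke⟩ := al13_ex hDt
      exact ⟨k, e, fun _ => ⟨hNF, hDt, hke⟩⟩
    · exact ⟨0, fun _ => 0, fun h => absurd h hs⟩
  choose k e hke using hex
  let cd : Vc K m → Cod K := fun s => ⟨s.1, z s / u s, k s, e s⟩
  let f : Vc K m → Cod K × (Fin (r + 1) → K) := fun s => (cd s, gv K r (c s) (u s) (z s))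
  obtain ⟨R₀, hR₀, hbij⟩ := Set.exists_subset_bijOn (X : Set (Vc K m)) f
  refine ⟨X.filter (· ∈ R₀), Finset.filter_subset _ _, ?_, ?_⟩
  · intro s hs
    have h1 : f s ∈ f '' (X : Set (Vc K m)) := ⟨s, hs, rfl⟩
    obtain ⟨t, ht, hts⟩ := hbij.surjOn h1
    have htX : t ∈ X := hR₀ ht
    obtain ⟨h2, h3⟩ := Prod.mk.inj hts
    exact ⟨t, Finset.mem_filter.2 ⟨htX, ht⟩,
      al13_simV t s (c t) (c s) (u t) (z t) (u s) (z s) (k t) (e t) (k s) (e s)
        (hke t htX) (hke s hs) h2, h3⟩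
  · intro R' hR' g hg
    have hRX : ∀ t ∈ R', t ∈ X := fun t ht => (Finset.mem_filter.1 (hR' ht)).1
    rcases R'.eq_empty_or_nonempty with rfl | ⟨t₁, ht₁⟩
    · rw [Finset.card_empty, Nat.cast_zero]
      positivity
    have hg1 : g (Fin.last r) ≠ 0 := by
      obtain ⟨hNF, hDt, -⟩ := hke t₁ (hRX t₁ ht₁)
      rw [← hg t₁ ht₁]
      exact al13_last hDt
    obtain ⟨hp0, hpd⟩ := al13_poly g hg1
    set p : Polynomial K := ∑ i : Fin (r + 1), Polynomial.C (g i) * Polynomial.X ^ (i : ℕ)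
      with hp
    let y : Vc K m → AlgebraicClosure K := fun t => ((z t / u t : t.1) : AlgebraicClosure K)
    have hmaps : ∀ t ∈ R', y t ∈ (p.aroots (AlgebraicClosure K)).toFinset := by
      intro t ht
      rw [Multiset.mem_toFinset, Polynomial.mem_aroots]
      refine ⟨hp0, ?_⟩
      obtain ⟨hNF, hDt, -⟩ := hke t (hRX t ht)
      have h1 := al13_root hDt g (hg t ht)
      have h2 := Polynomial.aeval_algebraMap_apply (AlgebraicClosure K) (z t / u t) p
      rw [h1, map_zero] at h2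
      exact h2
    have hroots : (p.aroots (AlgebraicClosure K)).toFinset.card ≤ r := by
      refine (Multiset.toFinset_card_le _).trans ((Polynomial.card_roots' _).trans ?_)
      exact (Polynomial.natDegree_map_le).trans hpd
    have hfib : ∀ α ∈ (p.aroots (AlgebraicClosure K)).toFinset,
        (R'.filter fun t => y t = α).card ≤ ⌊C * B ^ η⌋₊ := by
      intro α _
      refine Nat.le_floor ?_
      set Y := R'.filter fun t => y t = α with hY
      rcases Y.eq_empty_or_nonempty with hY0 | ⟨t₀, ht₀⟩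
      · rw [hY0, Finset.card_empty, Nat.cast_zero]
        positivity
      have hYR : ∀ t ∈ Y, t ∈ R' := fun t ht => (Finset.mem_filter.1 ht).1
      have hYα : ∀ t ∈ Y, y t = α := fun t ht => (Finset.mem_filter.1 ht).2
      have hfld : ∀ t ∈ Y, t.1 = IntermediateField.adjoin K {α} := by
        intro t ht
        obtain ⟨hNF, hDt, -⟩ := hke t (hRX t (hYR t ht))
        have h1 := al13_fld t.1 (z t / u t) hDt.ad
        rw [← hYα t ht]
        exact h1
      obtain ⟨hNF₀, -, -⟩ := hke t₀ (hRX t₀ (hYR t₀ ht₀))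
      let y₀ : t₀.1 := z t₀ / u t₀
      let ιF : (HeightOneSpectrum (𝓞 t₀.1) →₀ ℕ) × (InfinitePlace t₀.1 → ℤ) → Cod K :=
        fun p => ⟨t₀.1, y₀, p.1, p.2⟩
      have hιF : Function.Injective ιF := by
        intro a b hab
        have h1 := eq_of_heq (Sigma.mk.inj_iff.1 hab).2
        exact (Prod.mk.inj h1).2
      set Z := (Y.image cd).preimage ιF hιF.injOn with hZ
      have hcd : (Y.card : ℝ) ≤ (Z.card : ℝ) := by
        have h1 : Set.InjOn cd (Y : Set (Vc K m)) := by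
          intro a ha b hb hab
          have ha' := hYR a ha
          have hb' := hYR b hb
          refine hbij.injOn (Finset.mem_filter.1 (hR' ha')).2 (Finset.mem_filter.1 (hR' hb')).2 ?_
          exact Prod.ext hab ((hg a ha').trans (hg b hb').symm)
        have h2 : Y.image cd ⊆ Z.image ιF := by
          intro q hq
          obtain ⟨t, ht, rfl⟩ := Finset.mem_image.1 hq
          have h3 : t.1 = t₀.1 := (hfld t ht).trans (hfld t₀ ht₀).symm
          have h4 : ((z t / u t : t.1) : AlgebraicClosure K) = y₀ :=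
            (hYα t ht).trans (hYα t₀ ht₀).symm
          obtain ⟨pp, hpp⟩ := al13_cast t (z t / u t) (k t) (e t) t₀.1 y₀ h3 h4
          refine Finset.mem_image.2 ⟨pp, Finset.mem_preimage.2 ?_, hpp⟩
          have h5 : ιF pp = cd t := hpp
          rw [h5]
          exact Finset.mem_image_of_mem _ ht
        have h6 := Finset.card_le_card h2
        rw [Finset.card_image_of_injOn h1, Finset.card_image_of_injective _ hιF] at h6
        exact_mod_cast h6
      refine hcd.trans (hfix B hB t₀.1 g Z fun pp hpp => ?_)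
      obtain ⟨t, ht, hte⟩ := Finset.mem_image.1 (Finset.mem_preimage.1 hpp)
      exact al13_uncast t (c t) (u t) (z t) (k t) (e t) g (hke t (hRX t (hYR t ht)))
        (hg t (hYR t ht)) t₀.1 y₀ pp.1 pp.2 hte
    have hcount := Finset.card_le_mul_card_image_of_maps_to hmaps _ hfib
    have h7 : (R'.card : ℝ) ≤ (⌊C * B ^ η⌋₊ : ℝ) * r := by
      have h8 := hcount.trans (Nat.mul_le_mul_left _ hroots)
      exact_mod_cast h8
    have h9 : (⌊C * B ^ η⌋₊ : ℝ) ≤ C * B ^ η := Nat.floor_le (by positivity)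
    calc (R'.card : ℝ) ≤ (⌊C * B ^ η⌋₊ : ℝ) * r := h7
      _ ≤ (C * B ^ η) * r := mul_le_mul_of_nonneg_right h9 (by positivity)
      _ = r * C * B ^ η := by ring

end Pool.Agent.Lib.MP_44a246_ntAL
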