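import Pool.Agent.Lib.MP_44a246_ntAL.AL2

set_option autoImplicit false

open NumberField IsDedekindDomain Height
open Pool.Agent.Lib.MP_4d5ce1_nt (fa nv ordv)
open Pool.Agent.Lib.MP_44a246_ntNF
open Pool.Agent.Lib.MP_44a246_ntNU

namespace Pool.Agent.Lib.MP_44a246_ntAL

universe u

private lemma adm_one (K : Type*) [Field K] [NumberField K] :
    Adm (fun _ : HeightOneSpectrum (𝓞 K) => (1 : ℝ)) (fun _ : InfinitePlace K => (1 : ℝ)) where
  pow := fun _ => ⟨0, by simp⟩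
  fin := by
    have : Function.mulSupport (fun _ : HeightOneSpectrum (𝓞 K) => (1 : ℝ)) = ∅ := by
      ext w; simp
    rw [this]; exact Set.finite_empty
  pos := fun _ => one_pos

private lemma hb_one (K : Type*) [Field K] [NumberField K] :
    hb (fun _ : HeightOneSpectrum (𝓞 K) => (1 : ℝ)) (fun _ : InfinitePlace K => (1 : ℝ)) = 1 := by
  unfold hb
  simp

private lemma prod_powers (r : ℕ) (l1 l2 : ℝ) :
    ∏ i : Fin (r + 1), (l1 ^ i.val * l2 ^ (r - i.val)) = (l1 * l2) ^ (∑ i ∈ Finset.range (r + 1), i) := by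
  rw [Finset.prod_mul_distrib]
  rw [Fin.prod_univ_eq_prod_range (fun i => l1 ^ i) (r + 1),
    Fin.prod_univ_eq_prod_range (fun i => l2 ^ (r - i)) (r + 1),
    Finset.prod_pow_eq_pow_sum, Finset.prod_pow_eq_pow_sum, mul_pow]
  congr 2
  have := Finset.sum_range_reflect (fun i => i) (r + 1)
  simpa using this

/-- AL14a : integral vectors in a box -/
theorem card_vec (K : Type*) [Field K] [NumberField K] (r : ℕ) (hr : 1 ≤ r) (M : ℝ) (hM : 1 ≤ M) :
    ∃ C : ℝ, 1 ≤ C ∧ ∀ (B l1 l2 : ℝ), 1 ≤ B → 0 < l1 → 0 < l2 →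
      1 ≤ M * (B * l1 ^ (r * Module.finrank ℚ K)) → 1 ≤ M * (B * l2 ^ (r * Module.finrank ℚ K)) →
      ∀ G : Finset (Fin (r + 1) → K), (∀ g ∈ G, (∀ v i, fa v (g i) ≤ 1) ∧
        ∀ (v : InfinitePlace K) i, v (g i) ≤
          M * B ^ ((Module.finrank ℚ K : ℝ)⁻¹) * l1 ^ i.val * l2 ^ (r - i.val)) →
        (G.card : ℝ) ≤ C * B ^ (r + 1) *
          ((l1 * l2) ^ (r * Module.finrank ℚ K)) ^ (((r : ℝ) + 1) / 2) := by
  classical
  obtain ⟨d, hd⟩ : ∃ d, d = Module.finrank ℚ K := ⟨_, rfl⟩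
  rw [← hd]
  have hd1 : 1 ≤ d := by rw [hd]; exact Module.finrank_pos
  have hd0 : (d : ℝ) ≠ 0 := by positivity
  obtain ⟨C0, hC0, hcount⟩ := ncard_le d
  have hM0 : 0 < M := by linarith
  have hC1 : 1 ≤ M + C0 * M ^ d := by
    have : 0 ≤ C0 * M ^ d := by positivity
    linarith
  refine ⟨(M + C0 * M ^ d) ^ (r + 1), one_le_pow₀ hC1, ?_⟩
  intro B l1 l2 hB hl1 hl2 h1 h2 G hG
  have hB0 : 0 < B := by linarith
  obtain ⟨R, hR⟩ : ∃ R : Fin (r + 1) → ℝ, ∀ i, R i =
      M * B ^ ((d : ℝ)⁻¹) * l1 ^ i.val * l2 ^ (r - i.val) := ⟨_, fun _ => rfl⟩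
  obtain ⟨P, hP⟩ : ∃ P : Fin (r + 1) → ℝ, ∀ i, P i =
      B * (l1 ^ i.val * l2 ^ (r - i.val)) ^ d := ⟨_, fun _ => rfl⟩
  have hRpos : ∀ i, 0 < R i := by intro i; rw [hR]; positivity
  have hPpos : ∀ i, 0 < P i := by intro i; rw [hP]; positivity
  have hRd : ∀ i, R i ^ d = M ^ d * P i := by
    intro i
    rw [hR, hP]
    have hBd : (B ^ ((d : ℝ)⁻¹)) ^ d = B := by
      rw [← Real.rpow_natCast, ← Real.rpow_mul hB0.le, inv_mul_cancel₀ hd0, Real.rpow_one]
    calc (M * B ^ ((d : ℝ)⁻¹) * l1 ^ i.val * l2 ^ (r - i.val)) ^ d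
        = M ^ d * (B ^ ((d : ℝ)⁻¹)) ^ d * (l1 ^ i.val * l2 ^ (r - i.val)) ^ d := by ring
      _ = M ^ d * (B * (l1 ^ i.val * l2 ^ (r - i.val)) ^ d) := by rw [hBd]; ring
  have hMP : ∀ i, 1 ≤ M * P i := by
    intro i
    have hir : i.val ≤ r := Nat.lt_succ_iff.mp i.isLt
    have hpow : (M * P i) ^ r = (M * (B * l1 ^ (r * d))) ^ i.val *
        (M * (B * l2 ^ (r * d))) ^ (r - i.val) := by
      rw [hP]
      have hr' : r = i.val + (r - i.val) := by omega
      have e1 : (M * (B * (l1 ^ i.val * l2 ^ (r - i.val)) ^ d)) ^ r =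
          (M * B) ^ r * (l1 ^ (r * d)) ^ i.val * (l2 ^ (r * d)) ^ (r - i.val) := by
        simp only [mul_pow, ← pow_mul]
        have a1 : i.val * d * r = r * d * i.val := by ring
        have a2 : (r - i.val) * d * r = r * d * (r - i.val) := by ring
        rw [a1, a2]; ring
      rw [e1]
      have e2 : (M * B) ^ r = (M * B) ^ i.val * (M * B) ^ (r - i.val) := by
        rw [← pow_add, ← hr']
      rw [e2]
      have e3 : (M * (B * l1 ^ (r * d))) ^ i.val = (M * B) ^ i.val * (l1 ^ (r * d)) ^ i.val := by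
        rw [← mul_assoc, mul_pow]
      have e4 : (M * (B * l2 ^ (r * d))) ^ (r - i.val) =
          (M * B) ^ (r - i.val) * (l2 ^ (r * d)) ^ (r - i.val) := by
        rw [← mul_assoc, mul_pow]
      rw [e3, e4]; ring
    have hone : 1 ≤ (M * P i) ^ r := by
      rw [hpow]
      exact one_le_mul_of_one_le_of_one_le (one_le_pow₀ h1) (one_le_pow₀ h2)
    by_contra hlt
    push Not at hlt
    have h0 : 0 ≤ M * P i := by have := hPpos i; positivity
    have := pow_lt_one₀ h0 hlt (by omega : r ≠ 0)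
    linarith
  have hfin : ∀ i, (Bx (fun _ : HeightOneSpectrum (𝓞 K) => (1 : ℝ))
      (fun _ : InfinitePlace K => (1 : ℝ)) (R i)).Finite := fun i => box_finite (adm_one K) (R i)
  have hsub : G ⊆ Fintype.piFinset (fun i => (hfin i).toFinset) := by
    intro g hg
    rw [Fintype.mem_piFinset]
    intro i
    rw [Set.Finite.mem_toFinset]
    refine ⟨fun w => (hG g hg).1 w i, fun w => ?_⟩
    rw [hR, mul_one]
    exact (hG g hg).2 w i
  have hcard : (G.card : ℝ) ≤ ∏ i : Fin (r + 1), (((hfin i).toFinset.card : ℕ) : ℝ) := by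
    have h := Finset.card_le_card hsub
    rw [Fintype.card_piFinset] at h
    calc (G.card : ℝ) ≤ ((∏ i : Fin (r + 1), (hfin i).toFinset.card : ℕ) : ℝ) := by exact_mod_cast h
      _ = _ := by push_cast; rfl
  have hfac : ∀ i, (((hfin i).toFinset.card : ℕ) : ℝ) ≤ (M + C0 * M ^ d) * P i := by
    intro i
    have h := hcount K hd.symm.le (fun _ => 1) (fun _ => 1) (adm_one K) (R i) (hRpos i)
    rw [Set.ncard_eq_toFinset_card _ (hfin i), ← hd, hb_one, mul_one, hRd] at h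
    have := hMP i
    calc (((hfin i).toFinset.card : ℕ) : ℝ) ≤ 1 + C0 * (M ^ d * P i) := h
      _ ≤ M * P i + C0 * (M ^ d * P i) := by linarith
      _ = _ := by ring
  have hprod : ∏ i : Fin (r + 1), (((hfin i).toFinset.card : ℕ) : ℝ) ≤
      ∏ i : Fin (r + 1), ((M + C0 * M ^ d) * P i) :=
    Finset.prod_le_prod (fun i _ => Nat.cast_nonneg _) (fun i _ => hfac i)
  have hval : ∏ i : Fin (r + 1), ((M + C0 * M ^ d) * P i) =
      (M + C0 * M ^ d) ^ (r + 1) * B ^ (r + 1) *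
        ((l1 * l2) ^ (r * d)) ^ (((r : ℝ) + 1) / 2) := by
    rw [Finset.prod_mul_distrib, Finset.prod_const, Finset.card_univ, Fintype.card_fin]
    have e1 : ∏ i : Fin (r + 1), P i = B ^ (r + 1) *
        (∏ i : Fin (r + 1), (l1 ^ i.val * l2 ^ (r - i.val))) ^ d := by
      rw [← Finset.prod_pow]
      simp_rw [hP]
      rw [Finset.prod_mul_distrib, Finset.prod_const, Finset.card_univ, Fintype.card_fin]
    rw [e1, prod_powers]
    have hl : 0 < l1 * l2 := by positivity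
    have e2 : ((l1 * l2) ^ (r * d)) ^ (((r : ℝ) + 1) / 2) =
        ((l1 * l2) ^ (∑ i ∈ Finset.range (r + 1), i)) ^ d := by
      rw [← Real.rpow_natCast (l1 * l2) (r * d), ← Real.rpow_mul hl.le, ← pow_mul,
        ← Real.rpow_natCast]
      congr 1
      have hs : ((∑ i ∈ Finset.range (r + 1), i : ℕ) : ℝ) * 2 = (r + 1) * r := by
        have := Finset.sum_range_id_mul_two (r + 1)
        have h' : ((∑ i ∈ Finset.range (r + 1), i : ℕ) * 2 : ℕ) = (r + 1) * (r + 1 - 1) := this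
        have h'' : (((∑ i ∈ Finset.range (r + 1), i : ℕ) * 2 : ℕ) : ℝ) =
          (((r + 1) * (r + 1 - 1) : ℕ) : ℝ) := by rw [h']
        simpa using h''
      push_cast at hs ⊢
      nlinarith [hs]
    rw [e2]; ring
  linarith [hcard.trans hprod, hval]

end Pool.Agent.Lib.MP_44a246_ntAL
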