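import Pool.Agent.Lib.MP_44a246_ntAL.Defs

/-!
# AL3: the number of intermediate fields
-/

set_option autoImplicit false

open NumberField IsDedekindDomain Height
open Pool.Agent.Lib.MP_4d5ce1_nt (fa nv ordv)
open Pool.Agent.Lib.MP_44a246_ntNF
open Pool.Agent.Lib.MP_44a246_ntNU

namespace Pool.Agent.Lib.MP_44a246_ntAL

universe u

/-- AL3 : an extension of degree `r` has at most `2 ^ r` intermediate fields -/
theorem card_intermediate (r : ℕ) : ∃ N : ℕ, ∀ (K E : Type u) [Field K] [NumberField K] [Field E]
    [NumberField E] [Algebra K E], Module.finrank K E = r →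
      ∃ A : Finset (IntermediateField K E), A.card ≤ N ∧ ∀ F, F ∈ A := by
  classical
  refine ⟨2 ^ r, fun K E _ _ _ _ _ hr => ?_⟩
  have : FiniteDimensional K E := Module.Finite.of_restrictScalars_finite ℚ K E
  obtain ⟨y, hprim⟩ := Field.exists_primitive_element K E
  let h : Polynomial (AlgebraicClosure E) :=
    ((minpoly K y).map (algebraMap K E)).map (algebraMap E (AlgebraicClosure E))
  let g : IntermediateField K E → Multiset (AlgebraicClosure E) := fun F =>
    (((minpoly F y).map (algebraMap F E)).map (algebraMap E (AlgebraicClosure E))).roots
  have hmon : ∀ F : IntermediateField K E,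
      (((minpoly F y).map (algebraMap F E)).map (algebraMap E (AlgebraicClosure E))).Monic :=
    fun F => ((minpoly.monic (Algebra.IsIntegral.isIntegral y)).map _).map _
  have hh0 : h ≠ 0 := by
    have : h.Monic := ((minpoly.monic (Algebra.IsIntegral.isIntegral y)).map _).map _
    exact this.ne_zero
  have hle : ∀ F, g F ≤ h.roots := by
    intro F
    refine Polynomial.roots.le_of_dvd hh0 ?_
    refine Polynomial.map_dvd (algebraMap E (AlgebraicClosure E)) ?_
    have h1 := Polynomial.map_dvd (algebraMap F E) (minpoly.dvd_map_of_isScalarTower K F y)
    rw [Polynomial.map_map] at h1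
    exact h1
  have hinj : Function.Injective g := by
    intro F F' hFF
    have e1 := (IsAlgClosed.splits (((minpoly F y).map (algebraMap F E)).map
      (algebraMap E (AlgebraicClosure E)))).eq_prod_roots_of_monic (hmon F)
    have e2 := (IsAlgClosed.splits (((minpoly F' y).map (algebraMap F' E)).map
      (algebraMap E (AlgebraicClosure E)))).eq_prod_roots_of_monic (hmon F')
    have e3 : (((minpoly F y).map (algebraMap F E)).map (algebraMap E (AlgebraicClosure E))) =
        (((minpoly F' y).map (algebraMap F' E)).map (algebraMap E (AlgebraicClosure E))) := by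
      have e4 : (((minpoly F y).map (algebraMap F E)).map
          (algebraMap E (AlgebraicClosure E))).roots = (((minpoly F' y).map (algebraMap F' E)).map
          (algebraMap E (AlgebraicClosure E))).roots := hFF
      rw [e1, e2, e4]
    have e5 : ((minpoly F y).map (algebraMap F E)) = ((minpoly F' y).map (algebraMap F' E)) :=
      Polynomial.map_injective _ (algebraMap E (AlgebraicClosure E)).injective e3
    apply_fun fun f : Polynomial E => IntermediateField.adjoin K (f.coeffs : Set E) at e5
    simpa only [IntermediateField.adjoin_minpoly_coeff_of_exists_primitive_element K hprim] using e5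
  refine ⟨(h.roots.powerset.toFinset).preimage g hinj.injOn, ?_, ?_⟩
  · calc ((h.roots.powerset.toFinset).preimage g hinj.injOn).card
        = (((h.roots.powerset.toFinset).preimage g hinj.injOn).image g).card :=
          (Finset.card_image_of_injective _ hinj).symm
      _ ≤ (h.roots.powerset.toFinset).card :=
          Finset.card_le_card (by
            intro x hx
            obtain ⟨F, hF, rfl⟩ := Finset.mem_image.mp hx
            exact Finset.mem_preimage.mp hF)
      _ ≤ Multiset.card h.roots.powerset := Multiset.toFinset_card_le _
      _ = 2 ^ Multiset.card h.roots := Multiset.card_powerset _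
      _ ≤ 2 ^ r := by
          refine Nat.pow_le_pow_right (by norm_num) ?_
          refine (Polynomial.card_roots' h).trans ?_
          rw [Polynomial.natDegree_map, Polynomial.natDegree_map, ← hr]
          exact minpoly.natDegree_le y
  · intro F
    rw [Finset.mem_preimage, Multiset.mem_toFinset, Multiset.mem_powerset]
    exact hle F

end Pool.Agent.Lib.MP_44a246_ntAL
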