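import Pool.Agent.Lib.MP_44a246_ntAL.Defs
import Pool.Agent.Lib.MP_44a246_ntAL.AL1

/-!
# AL4: packing in a line over a subfield
-/

set_option autoImplicit false

open NumberField IsDedekindDomain Height
open Pool.Agent.Lib.MP_4d5ce1_nt (fa nv ordv)
open Pool.Agent.Lib.MP_44a246_ntNF
open Pool.Agent.Lib.MP_44a246_ntNU

namespace Pool.Agent.Lib.MP_44a246_ntAL

universe u

/-- Packing in a line over a subfield, for one field. -/
theorem subline_aux {K E : Type u} [Field K] [NumberField K] [Field E]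
    [NumberField E] [Algebra K E] (F : IntermediateField K E) (C : ℝ) (hC : 1 ≤ C)
    (hcell : ∀ b : InfinitePlace F → ℝ, (∀ w, 0 < b w) →
      ∀ s s' : ℝ, 0 < s → 0 < s' → ∀ Y : Finset F, Y.Nonempty →
        (∀ y ∈ Y, ∀ w : InfinitePlace F, w y ≤ s * b w) →
        ∃ Y' ⊆ Y, Y'.Nonempty ∧
          (Y.card : ℝ) ≤ C * (1 + s / s') ^ Module.finrank ℚ F * Y'.card ∧
          ∀ y ∈ Y', ∀ z ∈ Y', ∀ w : InfinitePlace F, w (y - z) ≤ s' * b w)
    (a : HeightOneSpectrum (𝓞 E) → ℝ) (b : InfinitePlace E → ℝ) (hab : Adm a b)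
    (u : E) (hu : u ≠ 0) (l s : ℝ) (hl : 0 < l) (hs : 0 < s)
    (hz : ∀ z : E, z ≠ 0 → (∀ w, fa w z ≤ a w) → ∃ w : InfinitePlace E, l * b w ≤ w z)
    (Y : Finset E) (hY : ∀ y ∈ Y, y ∈ Bx a b s ∧ ∃ e ∈ F, y = u * e) :
    (Y.card : ℝ) ≤ C * (1 + s / (l / 2)) ^ Module.finrank ℚ F := by
  classical
  have hl2 : 0 < l / 2 := by positivity
  have hbase : 0 ≤ C * (1 + s / (l / 2)) ^ Module.finrank ℚ F := by positivity
  rcases Y.eq_empty_or_nonempty with rfl | hne
  · simpa using hbase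
  -- a place of `E` above each place of `F`, which minimises `b w / |u|_w`
  have hmin : ∀ w' : InfinitePlace F, ∃ w0 : InfinitePlace E,
      w0.comap (algebraMap F E) = w' ∧ ∀ w : InfinitePlace E, w.comap (algebraMap F E) = w' →
        b w0 / w0 u ≤ b w / w u := by
    intro w'
    obtain ⟨w1, hw1⟩ := InfinitePlace.comap_surjective (k := F) (K := E) w'
    obtain ⟨w0, h0, h0'⟩ := Finset.exists_min_image
      (Finset.univ.filter fun w : InfinitePlace E => w.comap (algebraMap F E) = w')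
      (fun w => b w / w u) ⟨w1, by simp [hw1]⟩
    refine ⟨w0, (Finset.mem_filter.1 h0).2, fun w hw => h0' w ?_⟩
    simp [hw]
  choose φ hφ hφ' using hmin
  have hupos : ∀ w : InfinitePlace E, 0 < w u := fun w => InfinitePlace.pos_iff.2 hu
  set b' : InfinitePlace F → ℝ := fun w' => b (φ w') / (φ w') u with hb'
  have hb'pos : ∀ w', 0 < b' w' := fun w' => div_pos (hab.pos _) (hupos _)
  -- the elements of `F`
  set g : F → E := fun e => u * (e : E) with hg
  have hginj : Function.Injective g := by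
    intro e e' h
    exact Subtype.ext (mul_left_cancel₀ hu h)
  set Z : Finset F := Y.preimage g hginj.injOn with hZ
  have hYZ : Y = Z.image g := by
    ext y
    constructor
    · intro hy
      obtain ⟨_, e, he, rfl⟩ := hY y hy
      exact Finset.mem_image.2 ⟨⟨e, he⟩, Finset.mem_preimage.2 hy, rfl⟩
    · intro hy
      obtain ⟨e, he, rfl⟩ := Finset.mem_image.1 hy
      exact Finset.mem_preimage.1 he
  have hcard : Y.card = Z.card := by
    conv_lhs => rw [hYZ]
    exact Finset.card_image_of_injective _ hginj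
  have hZne : Z.Nonempty := by
    rw [← Finset.card_pos, ← hcard]; exact Finset.card_pos.2 hne
  have hZs : ∀ e ∈ Z, ∀ w' : InfinitePlace F, w' e ≤ s * b' w' := by
    intro e he w'
    have h1 : (φ w') (u * (e : E)) ≤ s * b (φ w') :=
      (hY _ (Finset.mem_preimage.1 he)).1.2 (φ w')
    have h2 : w' e = (φ w') (e : E) := by
      conv_lhs => rw [← hφ w']
      rfl
    rw [map_mul] at h1
    rw [h2, hb']
    have h3 := hupos (φ w')
    show (φ w') (e : E) ≤ s * (b (φ w') / (φ w') u)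
    rw [← mul_div_assoc, le_div_iff₀ h3]
    linarith [mul_comm ((φ w') u) ((φ w') (e : E))]
  obtain ⟨Z', hZ'Z, hZ'ne, hZ'card, hZ'⟩ := hcell b' hb'pos s (l / 2) hs hl2 Z hZne hZs
  have hone : Z'.card ≤ 1 := by
    rw [Finset.card_le_one]
    intro e he e' he'
    by_contra hee
    have ht : u * ((e : E) - (e' : E)) ≠ 0 := by
      refine mul_ne_zero hu (sub_ne_zero.2 fun h => hee (Subtype.ext h))
    obtain ⟨w, hw⟩ := hz (u * ((e : E) - (e' : E))) ht (by
      intro w
      rw [mul_sub]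
      refine (MP_4d5ce1_nt.fa_sub_le w _ _).trans (max_le ?_ ?_)
      · exact (hY _ (Finset.mem_preimage.1 (hZ'Z he))).1.1 w
      · exact (hY _ (Finset.mem_preimage.1 (hZ'Z he'))).1.1 w)
    have h1 := hZ' e he e' he' (w.comap (algebraMap F E))
    have h2 : (w.comap (algebraMap F E)) (e - e') = w ((e : E) - (e' : E)) := rfl
    rw [h2] at h1
    have h3 : b' (w.comap (algebraMap F E)) ≤ b w / w u := hφ' _ w rfl
    rw [map_mul] at hw
    have h4 : w ((e : E) - (e' : E)) ≤ l / 2 * (b w / w u) :=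
      h1.trans (mul_le_mul_of_nonneg_left h3 hl2.le)
    have h5 : w u * w ((e : E) - (e' : E)) ≤ w u * (l / 2 * (b w / w u)) :=
      mul_le_mul_of_nonneg_left h4 (hupos w).le
    have h6 : w u * (l / 2 * (b w / w u)) = l / 2 * b w := by
      have := (hupos w).ne'
      field_simp
    rw [h6] at h5
    have h7 : 0 < l / 2 * b w := mul_pos hl2 (hab.pos w)
    linarith
  have hone' : (Z'.card : ℝ) ≤ 1 := by exact_mod_cast hone
  calc (Y.card : ℝ) = (Z.card : ℝ) := by rw [hcard]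
    _ ≤ C * (1 + s / (l / 2)) ^ Module.finrank ℚ F * Z'.card := hZ'card
    _ ≤ C * (1 + s / (l / 2)) ^ Module.finrank ℚ F * 1 :=
        mul_le_mul_of_nonneg_left hone' hbase
    _ = C * (1 + s / (l / 2)) ^ Module.finrank ℚ F := mul_one _

/-- AL4 : packing in a line over a subfield -/
theorem subline (D : ℕ) : ∃ C : ℝ, 1 ≤ C ∧ ∀ (K E : Type u) [Field K] [NumberField K] [Field E]
    [NumberField E] [Algebra K E], Module.finrank ℚ E ≤ D → ∀ (F : IntermediateField K E)
      (a : HeightOneSpectrum (𝓞 E) → ℝ) (b : InfinitePlace E → ℝ), Adm a b →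
      ∀ u : E, u ≠ 0 → ∀ l s : ℝ, 0 < l → 0 < s →
      (∀ z : E, z ≠ 0 → (∀ w, fa w z ≤ a w) → ∃ w : InfinitePlace E, l * b w ≤ w z) →
      ∀ Y : Finset E, (∀ y ∈ Y, y ∈ Bx a b s ∧ ∃ e ∈ F, y = u * e) →
        (Y.card : ℝ) ≤ C * (1 + s / l) ^ Module.finrank ℚ F := by
  obtain ⟨C, hC, hcell⟩ := cell.{u} D
  refine ⟨C * 2 ^ D, ?_, ?_⟩
  · have h2 : (1 : ℝ) ≤ 2 ^ D := one_le_pow₀ (by norm_num)
    nlinarith
  intro K E _ _ _ _ _ hD F a b hab u hu l s hl hs hz Y hY
  have hFE : Module.finrank ℚ F ≤ Module.finrank ℚ E := by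
    let f : F →ₗ[ℚ] E := (algebraMap F E).toRatAlgHom.toLinearMap
    exact LinearMap.finrank_le_finrank_of_injective (f := f)
      (by intro x y h; exact (algebraMap F E).injective h)
  have h1 := subline_aux F C hC (fun b' hb' s s' hs hs' Z hZ hZs =>
    hcell F (hFE.trans hD) b' hb' s s' hs hs' Z hZ hZs) a b hab u hu l s hl hs hz Y hY
  refine h1.trans ?_
  have hsl : 0 < s / l := div_pos hs hl
  have h2 : 1 + s / (l / 2) ≤ 2 * (1 + s / l) := by
    have : s / (l / 2) = 2 * (s / l) := by field_simp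
    rw [this]; linarith
  have h3 : (1 + s / (l / 2)) ^ Module.finrank ℚ F ≤
      (2 * (1 + s / l)) ^ Module.finrank ℚ F := by
    apply pow_le_pow_left₀ _ h2
    positivity
  have h4 : (2 : ℝ) ^ Module.finrank ℚ F ≤ 2 ^ D :=
    pow_le_pow_right₀ (by norm_num) (hFE.trans hD)
  have h5 : (0 : ℝ) ≤ (1 + s / l) ^ Module.finrank ℚ F := by positivity
  calc C * (1 + s / (l / 2)) ^ Module.finrank ℚ F
      ≤ C * (2 * (1 + s / l)) ^ Module.finrank ℚ F :=
        mul_le_mul_of_nonneg_left h3 (by linarith)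
    _ = C * (2 ^ Module.finrank ℚ F * (1 + s / l) ^ Module.finrank ℚ F) := by rw [mul_pow]
    _ ≤ C * (2 ^ D * (1 + s / l) ^ Module.finrank ℚ F) :=
        mul_le_mul_of_nonneg_left (mul_le_mul_of_nonneg_right h4 h5) (by linarith)
    _ = C * 2 ^ D * (1 + s / l) ^ Module.finrank ℚ F := by ring

end Pool.Agent.Lib.MP_44a246_ntAL
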