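import Pool.Agent.Lib.MP_44a246_ntAL.AL3

set_option autoImplicit false

open NumberField IsDedekindDomain Height
open Pool.Agent.Lib.MP_4d5ce1_nt (fa nv ordv)
open Pool.Agent.Lib.MP_44a246_ntNF
open Pool.Agent.Lib.MP_44a246_ntNU

namespace Pool.Agent.Lib.MP_44a246_ntAL

universe u

private theorem count_one {K E : Type u} [Field K] [NumberField K] [Field E] [NumberField E]
    [Algebra K E] {m : ℕ} (N : ℕ) (x : Fin m → E) (u : E) (F : IntermediateField K E)
    (i0 : Fin m) (h0 : x i0 / u ∉ F) (T : Finset (Fin m → ℕ))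
    (hT : ∀ c ∈ T, (∀ i, c i < N + 1) ∧ (∑ i, (c i : E) * x i) / u ∈ F) :
    (N + 1) * T.card ≤ (N + 1) ^ m := by
  classical
  have hcard : ((Finset.range (N + 1)) ×ˢ T).card ≤
      (Fintype.piFinset (fun _ : Fin m => Finset.range (N + 1))).card := by
    refine Finset.card_le_card_of_injOn (fun p => Function.update p.2 i0 p.1) ?_ ?_
    · rintro ⟨j, c⟩ hp
      simp only [Finset.coe_product, Set.mem_prod, Finset.mem_coe, Finset.mem_range] at hp
      simp only [Finset.mem_coe, Fintype.mem_piFinset, Finset.mem_range]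
      intro i
      by_cases hi : i = i0
      · subst hi; simpa using hp.1
      · rw [Function.update_of_ne hi]; exact (hT c hp.2).1 i
    · rintro ⟨j, c⟩ hp ⟨j', c'⟩ hp' heq
      simp only [Finset.coe_product, Set.mem_prod, Finset.mem_coe, Finset.mem_range] at hp hp'
      simp only at heq
      have hj : j = j' := by
        have := congrFun heq i0
        simpa using this
      have hoff : ∀ i, i ≠ i0 → c i = c' i := by
        intro i hi
        have := congrFun heq i
        rwa [Function.update_of_ne hi, Function.update_of_ne hi] at this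
      have hc0 : c i0 = c' i0 := by
        by_contra hne
        apply h0
        have h1 := F.sub_mem (hT c hp.2).2 (hT c' hp'.2).2
        have h2 : (∑ i, (c i : E) * x i) / u - (∑ i, (c' i : E) * x i) / u =
            ((c i0 : E) - (c' i0 : E)) * (x i0 / u) := by
          rw [← sub_div, ← Finset.sum_sub_distrib]
          rw [Finset.sum_eq_single i0]
          · ring
          · intro i _ hi
            rw [hoff i hi]; ring
          · intro h; exact absurd (Finset.mem_univ _) h
        rw [h2] at h1
        have hd : ((c i0 : E) - (c' i0 : E)) ≠ 0 := by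
          rw [sub_ne_zero]
          exact_mod_cast hne
        have hdF : ((c i0 : E) - (c' i0 : E))⁻¹ ∈ F :=
          F.inv_mem (F.sub_mem (natCast_mem F _) (natCast_mem F _))
        have h3 := F.mul_mem hdF h1
        rwa [← mul_assoc, inv_mul_cancel₀ hd, one_mul] at h3
      have hc : c = c' := by
        funext i
        by_cases hi : i = i0
        · subst hi; exact hc0
        · exact hoff i hi
      rw [hj, hc]
  rw [Finset.card_product, Finset.card_range, Fintype.card_piFinset] at hcard
  simpa using hcard

/-- AL5 : a combination of the coordinates which generates the field -/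
theorem exists_combo (r m : ℕ) : ∃ N : ℕ, ∀ (K E : Type u) [Field K] [NumberField K] [Field E]
    [NumberField E] [Algebra K E], Module.finrank K E = r → ∀ x : Fin m → E,
      IntermediateField.adjoin K {z : E | ∃ i k, z = x i / x k} = ⊤ → ∀ u : E, u ≠ 0 →
        ∃ c : Fin m → ℕ, (∀ i, c i ≤ N) ∧
          IntermediateField.adjoin K {(∑ i, (c i : E) * x i) / u} = ⊤ := by
  obtain ⟨N, hN⟩ := card_intermediate.{u} r
  refine ⟨N, ?_⟩
  intro K E _ _ _ _ _ hr x hx u hu
  classical
  obtain ⟨A, hA, hAll⟩ := hN K E hr
  set B : Finset (Fin m → ℕ) := Fintype.piFinset (fun _ => Finset.range (N + 1)) with hB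
  have hBc : B.card = (N + 1) ^ m := by
    rw [hB, Fintype.card_piFinset]; simp
  let S : IntermediateField K E → Finset (Fin m → ℕ) := fun F =>
    B.filter (fun c => (∑ i, (c i : E) * x i) / u ∈ F)
  have key : ∀ F : IntermediateField K E, F ≠ ⊤ → (N + 1) * (S F).card ≤ (N + 1) ^ m := by
    intro F hF
    have hex : ∃ i0, x i0 / u ∉ F := by
      by_contra hcon
      push Not at hcon
      apply hF
      rw [eq_top_iff, ← hx, IntermediateField.adjoin_le_iff]
      rintro z ⟨i, k, rfl⟩
      by_cases hk : x k = 0
      · rw [hk, div_zero]; exact F.zero_mem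
      · have h1 := F.div_mem (hcon i) (hcon k)
        have h2 : x i / u / (x k / u) = x i / x k := by
          field_simp
        rwa [h2] at h1
    obtain ⟨i0, h0⟩ := hex
    refine count_one N x u F i0 h0 (S F) ?_
    intro c hc
    simp only [S, Finset.mem_filter, hB, Fintype.mem_piFinset, Finset.mem_range] at hc
    exact hc
  have hlt : ((A.filter (· ≠ ⊤)).biUnion S).card < B.card := by
    have h1 : ((A.filter (· ≠ ⊤)).biUnion S).card ≤ ∑ F ∈ A.filter (· ≠ ⊤), (S F).card :=
      Finset.card_biUnion_le
    have h2 : (N + 1) * ∑ F ∈ A.filter (· ≠ ⊤), (S F).card ≤ N * (N + 1) ^ m := by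
      rw [Finset.mul_sum]
      calc ∑ F ∈ A.filter (· ≠ ⊤), (N + 1) * (S F).card
          ≤ ∑ F ∈ A.filter (· ≠ ⊤), (N + 1) ^ m :=
            Finset.sum_le_sum fun F hF => key F (Finset.mem_filter.mp hF).2
        _ = (A.filter (· ≠ ⊤)).card * (N + 1) ^ m := by rw [Finset.sum_const, smul_eq_mul]
        _ ≤ N * (N + 1) ^ m := Nat.mul_le_mul_right _
            ((Finset.card_le_card (Finset.filter_subset _ _)).trans hA)
    rw [hBc]
    by_contra hcon
    push Not at hcon
    have h3 : (N + 1) * (N + 1) ^ m ≤ N * (N + 1) ^ m :=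
      (Nat.mul_le_mul_left _ (hcon.trans h1)).trans h2
    have h4 : 0 < (N + 1) ^ m := by positivity
    nlinarith
  obtain ⟨c, hcB, hcS⟩ := Finset.exists_mem_notMem_of_card_lt_card hlt
  have hcr : ∀ i, c i < N + 1 := by
    intro i
    rw [hB, Fintype.mem_piFinset] at hcB
    simpa using hcB i
  refine ⟨c, fun i => Nat.lt_succ_iff.mp (hcr i), ?_⟩
  by_contra hne
  apply hcS
  rw [Finset.mem_biUnion]
  refine ⟨IntermediateField.adjoin K {(∑ i, (c i : E) * x i) / u}, ?_, ?_⟩
  · rw [Finset.mem_filter]; exact ⟨hAll _, hne⟩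
  · simp only [S, Finset.mem_filter]
    exact ⟨hcB, IntermediateField.mem_adjoin_simple_self K _⟩

end Pool.Agent.Lib.MP_44a246_ntAL
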