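import Pool.Agent.Lib.MP_44a246_ntAL.AL2
import Pool.Agent.Lib.MP_44a246_ntAL.AL4
import Pool.Agent.Lib.MP_44a246_ntAL.AL3
import Pool.Agent.Lib.MP_44a246_ntAL.AL5

set_option autoImplicit false

open NumberField IsDedekindDomain Height
open Pool.Agent.Lib.MP_4d5ce1_nt (fa nv ordv)
open Pool.Agent.Lib.MP_44a246_ntNF
open Pool.Agent.Lib.MP_44a246_ntNU

namespace Pool.Agent.Lib.MP_44a246_ntAL

universe u

/-- the size of an element with respect to the weights at the infinite places -/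
private noncomputable def sz {E : Type*} [Field E] [NumberField E] (b : InfinitePlace E → ℝ)
    (z : E) : ℝ := ⨆ w : InfinitePlace E, w z / b w

private lemma le_sz {E : Type*} [Field E] [NumberField E] (b : InfinitePlace E → ℝ) (z : E)
    (w : InfinitePlace E) : w z / b w ≤ sz b z :=
  le_ciSup (f := fun w : InfinitePlace E => w z / b w) (Set.finite_range _).bddAbove w

private lemma exists_sz {E : Type*} [Field E] [NumberField E] (b : InfinitePlace E → ℝ) (z : E) :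
    ∃ w : InfinitePlace E, sz b z = w z / b w := by
  obtain ⟨w, hw⟩ := exists_eq_ciSup_of_finite (f := fun w : InfinitePlace E => w z / b w)
  exact ⟨w, hw.symm⟩

private lemma mem_Bx {E : Type*} [Field E] [NumberField E]
    {a : HeightOneSpectrum (𝓞 E) → ℝ} {b : InfinitePlace E → ℝ} (h : Adm a b) {z : E} {s : ℝ} :
    z ∈ Bx a b s ↔ (∀ w, fa w z ≤ a w) ∧ sz b z ≤ s := by
  constructor
  · rintro ⟨h1, h2⟩
    refine ⟨h1, ?_⟩
    obtain ⟨w, hw⟩ := exists_sz b z
    rw [hw, div_le_iff₀ (h.pos w)]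
    exact h2 w
  · rintro ⟨h1, h2⟩
    refine ⟨h1, fun w => ?_⟩
    have := (le_sz b z w).trans h2
    rwa [div_le_iff₀ (h.pos w)] at this

private lemma sz_pos {E : Type*} [Field E] [NumberField E]
    {a : HeightOneSpectrum (𝓞 E) → ℝ} {b : InfinitePlace E → ℝ} (h : Adm a b) {z : E}
    (hz : z ≠ 0) : 0 < sz b z := by
  obtain ⟨w, hw⟩ := exists_sz b z
  rw [hw]
  exact div_pos ((InfinitePlace.pos_iff).mpr hz) (h.pos w)

private lemma adjoin_zero_ne {K E : Type*} [Field K] [Field E] [Algebra K E] {r : ℕ} (hr : 2 ≤ r)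
    (h : Module.finrank K E = r) (S : Set E) (hS : S ⊆ {0}) : IntermediateField.adjoin K S ≠ ⊤ := by
  intro h1
  have h2 : IntermediateField.adjoin K S = ⊥ := by
    rw [eq_bot_iff, IntermediateField.adjoin_le_iff]
    intro z hz
    have : z = 0 := hS hz
    rw [this]
    exact (⊥ : IntermediateField K E).zero_mem
  rw [h2] at h1
  have h3 : Module.finrank K (⊥ : IntermediateField K E) = 1 := IntermediateField.finrank_bot
  have h4 : Module.finrank K (⊤ : IntermediateField K E) = Module.finrank K E :=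
    IntermediateField.finrank_top'
  rw [← h1, h3, h] at h4
  omega

/-- AL6 : a small pair of elements which generates the field -/
theorem gen_pair (r m D : ℕ) (hr : 2 ≤ r) : ∃ C : ℝ, 1 ≤ C ∧ ∀ (K E : Type u) [Field K]
    [NumberField K] [Field E] [NumberField E] [Algebra K E], Module.finrank ℚ E ≤ D →
      Module.finrank K E = r →
      ∀ (a : HeightOneSpectrum (𝓞 E) → ℝ) (b : InfinitePlace E → ℝ), Adm a b →
      ∀ x : Fin m → E, (∀ i, x i ∈ Bx a b 1) →
        IntermediateField.adjoin K {z : E | ∃ i k, z = x i / x k} = ⊤ →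
        ∃ (u z : E) (l1 l2 : ℝ), 0 < l1 ∧ l1 ≤ 1 ∧ 0 < l2 ∧ l2 ≤ C ∧ u ≠ 0 ∧ u ∈ Bx a b l1 ∧
          z ∈ Bx a b l2 ∧ IntermediateField.adjoin K {z / u} = ⊤ ∧
          ((Bx a b 1).ncard : ℝ) ^ 2 * (l1 * l2) ^ Module.finrank ℚ E ≤ C := by
  classical
  obtain ⟨C2, hC2, H2⟩ := ncard_growth.{u} D
  obtain ⟨N0, H3⟩ := card_intermediate.{u} r
  obtain ⟨C4, hC4, H4⟩ := subline.{u} D
  obtain ⟨N, H5⟩ := exists_combo.{u} r m
  set C1 : ℝ := (m : ℝ) * N + 1 with hC1
  have hC1' : 1 ≤ C1 := by rw [hC1]; have : (0 : ℝ) ≤ (m : ℝ) * N := by positivity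
                           linarith
  set C6 : ℝ := C2 ^ 2 * (C1 + 2) ^ (2 * D) * (N0 * C4) ^ 2 * 2 ^ D with hC6
  have hC6' : 0 ≤ C6 := by rw [hC6]; positivity
  refine ⟨C1 + C6, by linarith, ?_⟩
  intro K E _ _ _ _ _ hD hrE a b hab x hx htop
  have ha0 : ∀ w, 0 < a w := fun w => by
    obtain ⟨k, hk⟩ := hab.pow w
    rw [hk]
    exact zpow_pos (Pool.Agent.Lib.MP_4d5ce1_nt.nv_pos w) k
  -- some coordinate is nonzero
  have hx0 : ∃ i, x i ≠ 0 := by
    by_contra hcon
    push Not at hcon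
    refine adjoin_zero_ne hr hrE _ ?_ htop
    rintro z ⟨i, k, rfl⟩
    simp [hcon]
  obtain ⟨i0, hi0⟩ := hx0
  -- the element u
  have hfin1 : {z : E | z ∈ Bx a b 1 ∧ z ≠ 0}.Finite :=
    (box_finite hab 1).subset fun z hz => hz.1
  obtain ⟨u, ⟨huB, hu0⟩, humin⟩ := hfin1.exists_minimalFor (sz b) _ ⟨x i0, hx i0, hi0⟩
  set l1 : ℝ := sz b u with hl1
  have hl1pos : 0 < l1 := sz_pos hab hu0
  have hl1le : l1 ≤ 1 := ((mem_Bx hab).mp huB).2
  have hmin1 : ∀ z : E, z ≠ 0 → (∀ w, fa w z ≤ a w) → l1 ≤ sz b z := by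
    intro z hz hza
    rcases le_or_gt (sz b z) 1 with h | h
    · by_contra hcon
      push Not at hcon
      have := humin (j := z) ⟨(mem_Bx hab).mpr ⟨hza, h⟩, hz⟩ hcon.le
      linarith
    · linarith
  -- the element z
  obtain ⟨c, hcN, hctop⟩ := H5 K E hrE x htop u hu0
  have hz1 : (∑ i, (c i : E) * x i) ∈ Bx a b C1 := by
    refine ⟨fun w => ?_, fun w => ?_⟩
    · refine Pool.Agent.Lib.MP_4d5ce1_nt.fa_sum_le w _ _ _ (ha0 w).le fun i _ => ?_
      rw [Pool.Agent.Lib.MP_4d5ce1_nt.fa_mul]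
      calc fa w (c i : E) * fa w (x i) ≤ 1 * a w :=
            mul_le_mul (Pool.Agent.Lib.MP_4d5ce1_nt.fa_natCast_le_one w _) ((hx i).1 w)
              (Pool.Agent.Lib.MP_4d5ce1_nt.fa_nonneg w _) zero_le_one
        _ = a w := one_mul _
    · have hterm : ∀ i, w ((c i : E) * x i) ≤ N * b w := by
        intro i
        rw [map_mul]
        have h1 : w (c i : E) ≤ N := by
          rw [← InfinitePlace.norm_embedding_eq, map_natCast, Complex.norm_natCast]
          exact_mod_cast hcN i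
        have h2 : w (x i) ≤ b w := by simpa using (hx i).2 w
        exact mul_le_mul h1 h2 (apply_nonneg _ _) (by positivity)
      calc w (∑ i, (c i : E) * x i) ≤ ∑ i, w ((c i : E) * x i) := by
            have := AbsoluteValue.sum_le w.1 (Finset.univ) (fun i => (c i : E) * x i)
            exact this
        _ ≤ ∑ _i : Fin m, (N : ℝ) * b w := Finset.sum_le_sum fun i _ => hterm i
        _ = (m : ℝ) * N * b w := by simp; ring
        _ ≤ C1 * b w := by
            rw [hC1]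
            have := hab.pos w
            nlinarith
  have hfin2 : {z : E | z ∈ Bx a b C1 ∧ IntermediateField.adjoin K {z / u} = ⊤}.Finite :=
    (box_finite hab C1).subset fun z hz => hz.1
  obtain ⟨z, ⟨hzB, hztop⟩, hzmin⟩ := hfin2.exists_minimalFor (sz b) _ ⟨_, hz1, hctop⟩
  set l2 : ℝ := sz b z with hl2
  have hz0 : z ≠ 0 := by
    rintro rfl
    refine adjoin_zero_ne hr hrE _ ?_ hztop
    simp
  have hl2pos : 0 < l2 := sz_pos hab hz0
  have hl2le : l2 ≤ C1 := ((mem_Bx hab).mp hzB).2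
  have hl12 : l1 ≤ l2 := hmin1 z hz0 hzB.1
  refine ⟨u, z, l1, l2, hl1pos, hl1le, hl2pos, by linarith, hu0,
    (mem_Bx hab).mpr ⟨huB.1, le_rfl⟩, (mem_Bx hab).mpr ⟨hzB.1, le_rfl⟩, hztop, ?_⟩
  -- counting
  have hhalf : 0 < l2 / 2 := by positivity
  have hne : ∀ y ∈ Bx a b (l2 / 2), IntermediateField.adjoin K {y / u} ≠ ⊤ := by
    intro y hy hcon
    have hy' := (mem_Bx hab).mp hy
    have := hzmin (j := y) ⟨(mem_Bx hab).mpr ⟨hy'.1, by linarith [hy'.2]⟩, hcon⟩
      (by linarith [hy'.2])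
    have h3 := hy'.2
    linarith
  obtain ⟨A, hAcard, hA⟩ := H3 K E hrE
  set Y : Finset E := (box_finite hab (l2 / 2)).toFinset with hY
  set dE : ℕ := Module.finrank ℚ E with hdE
  set P : ℝ := (2 * (l2 / l1)) ^ dE with hP
  have hρ : 1 ≤ l2 / l1 := by rw [le_div_iff₀ hl1pos]; linarith
  have hP1 : 0 ≤ P := by rw [hP]; positivity
  have hYF : ∀ F ∈ A.filter (fun F => F ≠ ⊤),
      ((Y.filter fun y => y / u ∈ F).card : ℝ) ≤ C4 * Real.sqrt P := by
    intro F hF
    have hFtop : F ≠ ⊤ := (Finset.mem_filter.mp hF).2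
    have h1 := H4 K E hD F a b hab u hu0 l1 (l2 / 2) hl1pos hhalf (by
      intro z' hz' hza'
      obtain ⟨w, hw⟩ := exists_sz b z'
      refine ⟨w, ?_⟩
      have h2 := hmin1 z' hz' hza'
      rw [hw, le_div_iff₀ (hab.pos w)] at h2
      exact h2) (Y.filter fun y => y / u ∈ F) (by
        intro y hy
        rw [Finset.mem_filter] at hy
        refine ⟨(Set.Finite.mem_toFinset _).mp hy.1, y / u, hy.2, ?_⟩
        field_simp)
    refine h1.trans ?_
    have hfr : 2 * Module.finrank ℚ F ≤ dE := by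
      have h5 : Module.finrank ℚ F * Module.finrank F E = Module.finrank ℚ E :=
        Module.finrank_mul_finrank ℚ F E
      have h6 : Module.finrank F E ≠ 1 := by
        intro h7
        apply hFtop
        exact IntermediateField.finrank_eq_one_iff_eq_top.mp h7
      have h8 : 0 < Module.finrank F E := by
        have : FiniteDimensional K E := Module.finite_of_finrank_pos (by omega)
        exact Module.finrank_pos
      have h9 : 2 ≤ Module.finrank F E := by omega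
      rw [hdE, ← h5]
      nlinarith
    have hb1 : 1 + l2 / 2 / l1 ≤ 2 * (l2 / l1) := by
      have : l2 / 2 / l1 = (l2 / l1) / 2 := by ring
      rw [this]; linarith
    have hpow : (1 + l2 / 2 / l1) ^ Module.finrank ℚ F ≤ Real.sqrt P := by
      apply Real.le_sqrt_of_sq_le
      rw [← pow_mul, hP]
      calc (1 + l2 / 2 / l1) ^ (Module.finrank ℚ F * 2)
          ≤ (2 * (l2 / l1)) ^ (Module.finrank ℚ F * 2) :=
            pow_le_pow_left₀ (by positivity) hb1 _
        _ ≤ (2 * (l2 / l1)) ^ dE := pow_le_pow_right₀ (by linarith) (by omega)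
    exact mul_le_mul_of_nonneg_left hpow (by linarith)
  have hYcard : (Y.card : ℝ) ≤ N0 * C4 * Real.sqrt P := by
    have hsub : Y ⊆ (A.filter (fun F => F ≠ ⊤)).biUnion fun F => Y.filter fun y => y / u ∈ F := by
      intro y hy
      rw [Finset.mem_biUnion]
      refine ⟨IntermediateField.adjoin K {y / u}, ?_, ?_⟩
      · rw [Finset.mem_filter]
        exact ⟨hA _, hne y ((Set.Finite.mem_toFinset _).mp hy)⟩
      · rw [Finset.mem_filter]
        exact ⟨hy, IntermediateField.mem_adjoin_simple_self K _⟩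
    calc (Y.card : ℝ) ≤ (((A.filter (fun F => F ≠ ⊤)).biUnion
          fun F => Y.filter fun y => y / u ∈ F).card : ℝ) := by
          exact_mod_cast Finset.card_le_card hsub
      _ ≤ ∑ F ∈ A.filter (fun F => F ≠ ⊤), ((Y.filter fun y => y / u ∈ F).card : ℝ) := by
          exact_mod_cast Finset.card_biUnion_le
      _ ≤ ∑ _F ∈ A.filter (fun F => F ≠ ⊤), C4 * Real.sqrt P := Finset.sum_le_sum hYF
      _ = ((A.filter (fun F => F ≠ ⊤)).card : ℝ) * (C4 * Real.sqrt P) := by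
          rw [Finset.sum_const, nsmul_eq_mul]
      _ ≤ (N0 : ℝ) * (C4 * Real.sqrt P) := by
          refine mul_le_mul_of_nonneg_right ?_ (by positivity)
          exact_mod_cast (Finset.card_filter_le _ _).trans hAcard
      _ = N0 * C4 * Real.sqrt P := by ring
  have hncY : ((Bx a b (l2 / 2)).ncard : ℝ) = Y.card := by
    rw [hY, Set.ncard_eq_toFinset_card _ (box_finite hab (l2 / 2))]
  have hgrow := H2 E hD a b hab 1 (l2 / 2) one_pos hhalf
  rw [hncY] at hgrow
  have hbase : 1 + 1 / (l2 / 2) ≤ (C1 + 2) / l2 := by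
    rw [le_div_iff₀ hl2pos]
    have : (1 + 1 / (l2 / 2)) * l2 = l2 + 2 := by field_simp
    rw [this]; linarith
  have hgrow2 : ((Bx a b 1).ncard : ℝ) ≤
      C2 * ((C1 + 2) / l2) ^ dE * (N0 * C4 * Real.sqrt P) := by
    refine hgrow.trans ?_
    refine mul_le_mul ?_ hYcard (by positivity) (by positivity)
    exact mul_le_mul_of_nonneg_left (pow_le_pow_left₀ (by positivity) hbase _) (by linarith)
  have hsq : ((Bx a b 1).ncard : ℝ) ^ 2 ≤
      (C2 * ((C1 + 2) / l2) ^ dE * (N0 * C4 * Real.sqrt P)) ^ 2 :=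
    pow_le_pow_left₀ (by positivity) hgrow2 2
  have hsP : Real.sqrt P ^ 2 = P := Real.sq_sqrt hP1
  have hkey : (C2 * ((C1 + 2) / l2) ^ dE * (N0 * C4 * Real.sqrt P)) ^ 2 * (l1 * l2) ^ dE =
      C2 ^ 2 * (C1 + 2) ^ (2 * dE) * (N0 * C4) ^ 2 * 2 ^ dE := by
    have e1 : (C2 * ((C1 + 2) / l2) ^ dE * (N0 * C4 * Real.sqrt P)) ^ 2 =
        C2 ^ 2 * (((C1 + 2) / l2) ^ dE) ^ 2 * (N0 * C4) ^ 2 * P := by
      have e0 : (C2 * ((C1 + 2) / l2) ^ dE * (N0 * C4 * Real.sqrt P)) ^ 2 =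
          C2 ^ 2 * (((C1 + 2) / l2) ^ dE) ^ 2 * (N0 * C4) ^ 2 * Real.sqrt P ^ 2 := by ring
      rw [e0, hsP]
    have hl1d : l1 ^ dE ≠ 0 := pow_ne_zero _ hl1pos.ne'
    have hl2d : l2 ^ dE ≠ 0 := pow_ne_zero _ hl2pos.ne'
    have e2 : (C1 + 2) ^ (2 * dE) = ((C1 + 2) ^ dE) ^ 2 := by rw [mul_comm, pow_mul]
    have e3 : ((C1 + 2) / l2) ^ dE = (C1 + 2) ^ dE / l2 ^ dE := div_pow _ _ _
    have e4 : P = 2 ^ dE * (l2 ^ dE / l1 ^ dE) := by rw [hP, mul_pow, div_pow]
    have e5 : (l1 * l2) ^ dE = l1 ^ dE * l2 ^ dE := mul_pow _ _ _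
    rw [e1, e2, e3, e4, e5]
    generalize l1 ^ dE = x1 at *
    generalize l2 ^ dE = x2 at *
    generalize (C1 + 2) ^ dE = x3 at *
    field_simp
  calc ((Bx a b 1).ncard : ℝ) ^ 2 * (l1 * l2) ^ dE
      ≤ (C2 * ((C1 + 2) / l2) ^ dE * (N0 * C4 * Real.sqrt P)) ^ 2 * (l1 * l2) ^ dE :=
        mul_le_mul_of_nonneg_right hsq (by positivity)
    _ = C2 ^ 2 * (C1 + 2) ^ (2 * dE) * (N0 * C4) ^ 2 * 2 ^ dE := hkey
    _ ≤ C6 := by
        rw [hC6]
        have h1 : (C1 + 2) ^ (2 * dE) ≤ (C1 + 2) ^ (2 * D) :=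
          pow_le_pow_right₀ (by linarith) (by omega)
        have h2 : (2 : ℝ) ^ dE ≤ 2 ^ D := pow_le_pow_right₀ (by norm_num) hD
        have h3 : 0 ≤ C2 ^ 2 := by positivity
        have h4 : (0 : ℝ) ≤ (N0 * C4) ^ 2 := by positivity
        gcongr
    _ ≤ C1 + C6 := by linarith

end Pool.Agent.Lib.MP_44a246_ntAL
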