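import Pool.Agent.Lib.MP_44a246_ntAL.Defs
import Pool.Agent.Lib.MP_44a246_ntAL.AL0
import Pool.Agent.Lib.MP_44a246_ntAL.AL6
import Pool.Agent.Lib.MP_44a246_ntAL.AL12
import Pool.Agent.Lib.MP_44a246_ntAL.AL13
import Pool.Agent.Lib.MP_44a246_ntAL.AL14a

/-!
# The number of classes
-/

set_option autoImplicit false

open NumberField IsDedekindDomain Height
open Pool.Agent.Lib.MP_4d5ce1_nt (fa nv ordv)
open Pool.Agent.Lib.MP_44a246_ntNF
open Pool.Agent.Lib.MP_44a246_ntNU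

namespace Pool.Agent.Lib.MP_44a246_ntAL

universe u

private theorem low_AL14 {E : Type*} [Field E] [NumberField E]
    {a : HeightOneSpectrum (𝓞 E) → ℝ} {b : InfinitePlace E → ℝ} {s : ℝ}
    (ha : (Function.mulSupport a).Finite)
    {z : E} (hz : z ≠ 0) (hz' : z ∈ Bx a b s) :
    1 ≤ s ^ Module.finrank ℚ E * hb a b := by
  have h := NumberField.prod_abs_eq_one (K := E) hz
  have hfin : ∏ᶠ w : FinitePlace E, w z = ∏ᶠ v : HeightOneSpectrum (𝓞 E), fa v z := by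
    rw [← finprod_comp_equiv (FinitePlace.equivHeightOneSpectrum (K := E)).symm]
    rfl
  rw [hfin] at h
  have hs : s ^ Module.finrank ℚ E * hb a b = hb a (fun w => s * b w) := by
    unfold hb
    simp only [mul_pow]
    rw [Finset.prod_mul_distrib, Finset.prod_pow_eq_pow_sum, InfinitePlace.sum_mult_eq]
    ring
  rw [hs]
  unfold hb
  have h1 : ∏ᶠ v : HeightOneSpectrum (𝓞 E), fa v z ≤ ∏ᶠ v, a v := by
    refine finprod_le_finprod ?_ (fun v => Pool.Agent.Lib.MP_4d5ce1_nt.fa_nonneg v z) ha hz'.1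
    exact Pool.Agent.Lib.MP_4d5ce1_nt.finite_fa_ne_one hz
  have h2 : ∏ w : InfinitePlace E, w z ^ w.mult ≤ ∏ w : InfinitePlace E, (s * b w) ^ w.mult := by
    refine Finset.prod_le_prod (fun w _ => pow_nonneg (apply_nonneg _ _) _) fun w _ => ?_
    exact pow_le_pow_left₀ (apply_nonneg _ _) (hz'.2 w) _
  have h0 : 0 ≤ ∏ᶠ v : HeightOneSpectrum (𝓞 E), fa v z :=
    finprod_nonneg fun v => Pool.Agent.Lib.MP_4d5ce1_nt.fa_nonneg v z
  calc (1 : ℝ) = (∏ᶠ v : HeightOneSpectrum (𝓞 E), fa v z) *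
        ∏ w : InfinitePlace E, w z ^ w.mult := by rw [← h]; ring
    _ ≤ (∏ᶠ v, a v) * ∏ w : InfinitePlace E, (s * b w) ^ w.mult :=
        mul_le_mul h1 h2 (Finset.prod_nonneg fun w _ => pow_nonneg (apply_nonneg _ _) _)
          (h0.trans h1)

/-- The data attached to a vector. -/
private theorem data_AL14 {K : Type u} [Field K] [NumberField K] (r m : ℕ) (hr : 2 ≤ r) :
    ∃ M : ℝ, 1 ≤ M ∧ ∀ B : ℝ, 1 ≤ B → ∀ s : Vc K m, Gd r B s →
      ∃ (c : K) (u z : s.1) (l1 l2 : ℝ),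
        (∃ _ : NumberField s.1, Module.finrank K s.1 = r ∧ s.2 ≠ 0 ∧ mulHeight s.2 ≤ B ∧
          u ≠ 0 ∧ c ≠ 0 ∧ u ∈ Bx (tf s.2) (ti s.2) M ∧ z ∈ Bx (tf s.2) (ti s.2) M ∧
          IntermediateField.adjoin K {z / u} = ⊤ ∧
          (∀ v i, fa v (gv K r c u z i) ≤
            ∏ w ∈ ov K s.1 v, (max (fa w u) (fa w z) / tf s.2 w)) ∧
          ∀ v : InfinitePlace K, v (gv K r c u z (Fin.last r)) ≤
            M * B ^ ((Module.finrank ℚ K : ℝ)⁻¹)) ∧
        (∀ v i, fa v (gv K r c u z i) ≤ 1) ∧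
        (∀ (v : InfinitePlace K) (i : Fin (r + 1)), v (gv K r c u z i) ≤
          M * B ^ ((Module.finrank ℚ K : ℝ)⁻¹) * l1 ^ i.val * l2 ^ (r - i.val)) ∧
        0 < l1 ∧ l1 ≤ M ∧ 0 < l2 ∧ l2 ≤ M ∧
        1 ≤ B * l1 ^ (r * Module.finrank ℚ K) ∧ 1 ≤ B * l2 ^ (r * Module.finrank ℚ K) ∧
        (Phi s : ℝ) ^ 2 * (l1 * l2) ^ (r * Module.finrank ℚ K) ≤ M := by
  obtain ⟨C6, hC6, h6⟩ := gen_pair.{u} r m (r * Module.finrank ℚ K) hr
  obtain ⟨C12, hC12, h12⟩ := normal_form (K := K) r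
  refine ⟨max C6 C12, hC6.trans (le_max_left _ _), ?_⟩
  intro B hB s hs
  obtain ⟨hN, hrank, hs0, hgen, hht⟩ := hs
  have hrk : Module.finrank ℚ s.1 = r * Module.finrank ℚ K := by
    rw [← Module.finrank_mul_finrank ℚ K s.1, hrank, mul_comm]
  obtain ⟨hadm, hhb⟩ := adm_tf s.2 hs0
  have hx : ∀ i, s.2 i ∈ Bx (tf s.2) (ti s.2) 1 := by
    intro i
    refine ⟨fun w => le_ciSup (Set.finite_range fun i => fa w (s.2 i)).bddAbove i, fun w => ?_⟩
    rw [one_mul]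
    exact le_ciSup (Set.finite_range fun i => w (s.2 i)).bddAbove i
  obtain ⟨u, z, l1, l2, hl1, hl1', hl2, hl2', hu, hul, hzl, hadj, hPhi⟩ :=
    h6 K s.1 hrk.le hrank _ _ hadm s.2 hx hgen
  obtain ⟨c, hc, hnf⟩ := h12 s.1 hrank _ _ hadm
  obtain ⟨n1, -, n3, -⟩ := hnf u z l1 l2 hu hadj hl1.le hl2.le hul.2 hzl.2
  have hz0 : z ≠ 0 := by
    intro h
    rw [h, zero_div] at hadj
    rw [IntermediateField.adjoin_zero] at hadj
    have h4 : Module.finrank K (⊤ : IntermediateField K s.1) = Module.finrank K s.1 :=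
      IntermediateField.finrank_top'
    rw [← hadj, IntermediateField.finrank_bot, hrank] at h4
    omega
  have hpos : ∀ w, 0 < tf s.2 w := by
    intro w
    obtain ⟨k, hk⟩ := hadm.pow w
    rw [hk]
    exact zpow_pos (Pool.Agent.Lib.MP_4d5ce1_nt.nv_pos w) k
  have hinv : 0 ≤ ((Module.finrank ℚ K : ℝ)⁻¹) := by positivity
  have hhb0 : 0 ≤ hb (tf s.2) (ti s.2) := by
    rw [hhb]
    exact le_trans zero_le_one (Height.one_le_mulHeight s.2)
  have hBr : hb (tf s.2) (ti s.2) ^ ((Module.finrank ℚ K : ℝ)⁻¹) ≤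
      B ^ ((Module.finrank ℚ K : ℝ)⁻¹) := by
    apply Real.rpow_le_rpow hhb0 _ hinv
    rw [hhb]
    exact hht
  have hBr0 : 0 ≤ hb (tf s.2) (ti s.2) ^ ((Module.finrank ℚ K : ℝ)⁻¹) :=
    Real.rpow_nonneg hhb0 _
  have hb3 : ∀ (v : InfinitePlace K) (i : Fin (r + 1)), v (gv K r c u z i) ≤
      max C6 C12 * B ^ ((Module.finrank ℚ K : ℝ)⁻¹) * l1 ^ i.val * l2 ^ (r - i.val) := by
    intro v i
    refine (n3 v i).trans ?_
    have h1 : C12 * hb (tf s.2) (ti s.2) ^ ((Module.finrank ℚ K : ℝ)⁻¹) ≤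
        max C6 C12 * B ^ ((Module.finrank ℚ K : ℝ)⁻¹) :=
      mul_le_mul (le_max_right _ _) hBr hBr0 (by linarith [le_max_left C6 C12])
    exact mul_le_mul_of_nonneg_right (mul_le_mul_of_nonneg_right h1 (pow_nonneg hl1.le _))
      (pow_nonneg hl2.le _)
  have hM0 : (0 : ℝ) ≤ max C6 C12 := by linarith [le_max_left C6 C12]
  have hP : (Phi s : ℝ) = ((Bx (tf s.2) (ti s.2) 1).ncard : ℝ) := by
    unfold Phi
    rw [dif_pos hN]
  refine ⟨c, u, z, l1, l2, ⟨hN, hrank, hs0, hht, hu, hc, ?_, ?_, hadj, n1, ?_⟩, ?_, hb3,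
    hl1, hl1'.trans (hC6.trans (le_max_left _ _)), hl2, hl2'.trans (le_max_left _ _), ?_, ?_, ?_⟩
  · exact ⟨hul.1, fun w => (hul.2 w).trans (mul_le_mul_of_nonneg_right
      (hl1'.trans (hC6.trans (le_max_left _ _))) (hadm.pos w).le)⟩
  · exact ⟨hzl.1, fun w => (hzl.2 w).trans (mul_le_mul_of_nonneg_right
      (hl2'.trans (le_max_left _ _)) (hadm.pos w).le)⟩
  · intro v
    refine (hb3 v (Fin.last r)).trans ?_
    simp only [Fin.val_last, Nat.sub_self, pow_zero, mul_one]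
    exact mul_le_of_le_one_right (mul_nonneg hM0 (Real.rpow_nonneg (by linarith) _))
      (pow_le_one₀ hl1.le hl1')
  · intro v i
    refine (n1 v i).trans ?_
    apply Finset.prod_le_one
    · intro w _
      exact div_nonneg (le_max_of_le_left (Pool.Agent.Lib.MP_4d5ce1_nt.fa_nonneg w u)) (hpos w).le
    · intro w _
      rw [div_le_one (hpos w)]
      exact max_le (hul.1 w) (hzl.1 w)
  · have := low_AL14 hadm.fin hu hul
    rw [hrk, hhb] at this
    refine this.trans ?_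
    rw [mul_comm]
    exact mul_le_mul_of_nonneg_right hht (pow_nonneg hl1.le _)
  · have := low_AL14 hadm.fin hz0 hzl
    rw [hrk, hhb] at this
    refine this.trans ?_
    rw [mul_comm]
    exact mul_le_mul_of_nonneg_right hht (pow_nonneg hl2.le _)
  · rw [hP, ← hrk]
    exact hPhi.trans (le_max_left _ _)

/-- Rounding. -/
private theorem round_AL14 {M B l : ℝ} {D : ℕ} (hM : 1 ≤ M) (hB : 1 ≤ B) (hD : 1 ≤ D) (hl : 0 < l)
    (hlM : l ≤ M) (h : 1 ≤ B * l ^ D) : ∃ n : ℕ, (n : ℝ) ≤ Real.log B + Real.log M ∧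
      l ≤ M * Real.exp (-n) ∧ M * Real.exp (-n) ≤ Real.exp 1 * l := by
  have hM0 : 0 < M := by linarith
  have hx : 0 ≤ Real.log (M / l) := Real.log_nonneg (by rwa [one_le_div hl])
  refine ⟨⌊Real.log (M / l)⌋₊, ?_, ?_, ?_⟩
  · refine (Nat.floor_le hx).trans ?_
    rw [Real.log_div hM0.ne' hl.ne']
    have h1 : 0 ≤ Real.log (B * l ^ D) := Real.log_nonneg h
    rw [Real.log_mul (by linarith) (pow_pos hl D).ne', Real.log_pow] at h1
    have hD' : (1 : ℝ) ≤ D := by exact_mod_cast hD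
    have hlB : 0 ≤ Real.log B := Real.log_nonneg hB
    have : -Real.log l ≤ Real.log B := by
      by_contra hcon
      push Not at hcon
      nlinarith
    linarith
  · have h1 : (⌊Real.log (M / l)⌋₊ : ℝ) ≤ Real.log (M / l) := Nat.floor_le hx
    have h2 : Real.exp (-Real.log (M / l)) ≤ Real.exp (-(⌊Real.log (M / l)⌋₊ : ℝ)) :=
      Real.exp_le_exp.2 (by linarith)
    rw [Real.exp_neg, Real.exp_log (by positivity), inv_div] at h2
    rw [div_le_iff₀ hM0] at h2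
    linarith
  · have h1 : Real.log (M / l) < (⌊Real.log (M / l)⌋₊ : ℝ) + 1 := Nat.lt_floor_add_one _
    have h2 : Real.exp (-(⌊Real.log (M / l)⌋₊ : ℝ)) ≤ Real.exp (1 - Real.log (M / l)) :=
      Real.exp_le_exp.2 (by linarith)
    rw [Real.exp_sub, Real.exp_log (by positivity)] at h2
    calc M * Real.exp (-(⌊Real.log (M / l)⌋₊ : ℝ)) ≤ M * (Real.exp 1 / (M / l)) :=
          mul_le_mul_of_nonneg_left h2 hM0.le
      _ = Real.exp 1 * l := by field_simp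

/-- AL14 : the number of classes -/
theorem classes {K : Type u} [Field K] [NumberField K] (r m : ℕ) (hr : 2 ≤ r) (η : ℝ)
    (hη : 0 < η) : ∃ C : ℝ, 1 ≤ C ∧ ∀ B : ℝ, 1 ≤ B → ∀ X : Finset (Vc K m),
      (∀ s ∈ X, Gd r B s) → ∃ R ⊆ X, (∀ s ∈ X, ∃ t ∈ R, SimV t s) ∧
        ∀ F : ℝ, 1 ≤ F → ∀ R' ⊆ R, (∀ t ∈ R', F ≤ Phi t) →
          (R'.card : ℝ) ≤ C * B ^ η * (B / F) ^ (r + 1) := by
  classical
  obtain ⟨M, hM, hdata⟩ := data_AL14 (K := K) r m hr
  obtain ⟨C13, hC13, hdec⟩ := decode (K := K) r m (by omega) M (η / 2) hM (by positivity)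
  obtain ⟨C14, hC14, hvec⟩ := card_vec K r (by omega) M hM
  set D : ℕ := r * Module.finrank ℚ K with hD
  have hd1 : 0 < Module.finrank ℚ K := Module.finrank_pos
  have hD1 : 1 ≤ D := Nat.mul_pos (by omega) hd1
  have hM0 : 0 < M := by linarith
  set q : ℝ := ((r : ℝ) + 1) / 2 with hq
  have hq0 : 0 ≤ q := by positivity
  set C1 : ℝ := 1 + Real.log M + 4 / η with hC1
  have hlM : 0 ≤ Real.log M := Real.log_nonneg hM
  have hC1' : 1 ≤ C1 := by
    have : 0 < 4 / η := by positivity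
    linarith
  set C2 : ℝ := (Real.exp 1 ^ (2 * D) * M) ^ q with hC2
  have hC2' : 1 ≤ C2 := by
    apply Real.one_le_rpow _ hq0
    exact one_le_mul_of_one_le_of_one_le (one_le_pow₀ (Real.one_le_exp (by norm_num))) hM
  refine ⟨C1 ^ 2 * (C13 * (C14 * C2)), ?_, ?_⟩
  · exact one_le_mul_of_one_le_of_one_le (one_le_pow₀ hC1')
      (one_le_mul_of_one_le_of_one_le hC13 (one_le_mul_of_one_le_of_one_le hC14 hC2'))
  intro B hB X hX
  have hB0 : 0 < B := by linarith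
  have hex : ∀ s : Vc K m, ∃ (c : K) (u z : s.1) (l1 l2 : ℝ), s ∈ X →
        (∃ _ : NumberField s.1, Module.finrank K s.1 = r ∧ s.2 ≠ 0 ∧ mulHeight s.2 ≤ B ∧
          u ≠ 0 ∧ c ≠ 0 ∧ u ∈ Bx (tf s.2) (ti s.2) M ∧ z ∈ Bx (tf s.2) (ti s.2) M ∧
          IntermediateField.adjoin K {z / u} = ⊤ ∧
          (∀ v i, fa v (gv K r c u z i) ≤
            ∏ w ∈ ov K s.1 v, (max (fa w u) (fa w z) / tf s.2 w)) ∧
          ∀ v : InfinitePlace K, v (gv K r c u z (Fin.last r)) ≤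
            M * B ^ ((Module.finrank ℚ K : ℝ)⁻¹)) ∧
        (∀ v i, fa v (gv K r c u z i) ≤ 1) ∧
        (∀ (v : InfinitePlace K) (i : Fin (r + 1)), v (gv K r c u z i) ≤
          M * B ^ ((Module.finrank ℚ K : ℝ)⁻¹) * l1 ^ i.val * l2 ^ (r - i.val)) ∧
        0 < l1 ∧ l1 ≤ M ∧ 0 < l2 ∧ l2 ≤ M ∧
        1 ≤ B * l1 ^ D ∧ 1 ≤ B * l2 ^ D ∧
        (Phi s : ℝ) ^ 2 * (l1 * l2) ^ D ≤ M := by
    intro s
    by_cases hs : s ∈ X
    · obtain ⟨c, u, z, l1, l2, h⟩ := hdata B hB s (hX s hs)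
      exact ⟨c, u, z, l1, l2, fun _ => h⟩
    · exact ⟨0, 0, 0, 0, 0, fun h => absurd h hs⟩
  choose c u z l1 l2 hall using hex
  obtain ⟨R, hRX, hR1, hR2⟩ := hdec B hB X c u z (fun s hs => (hall s hs).1)
  refine ⟨R, hRX, fun s hs => ?_, ?_⟩
  · obtain ⟨t, ht, h, -⟩ := hR1 s hs
    exact ⟨t, ht, h⟩
  intro F hF R' hR' hPhi
  have hF0 : 0 < F := by linarith
  -- rounding
  have hround : ∀ s : Vc K m, ∃ n : ℕ × ℕ, s ∈ R' →
      ((n.1 : ℝ) ≤ Real.log B + Real.log M ∧ l1 s ≤ M * Real.exp (-n.1) ∧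
        M * Real.exp (-n.1) ≤ Real.exp 1 * l1 s) ∧
      ((n.2 : ℝ) ≤ Real.log B + Real.log M ∧ l2 s ≤ M * Real.exp (-n.2) ∧
        M * Real.exp (-n.2) ≤ Real.exp 1 * l2 s) := by
    intro s
    by_cases hs : s ∈ R'
    · obtain ⟨-, -, -, h1, h2, h3, h4, h5, h6, -⟩ := hall s (hRX (hR' hs))
      obtain ⟨i, hi⟩ := round_AL14 hM hB hD1 h1 h2 h5
      obtain ⟨j, hj⟩ := round_AL14 hM hB hD1 h3 h4 h6
      exact ⟨(i, j), fun _ => ⟨hi, hj⟩⟩
    · exact ⟨(0, 0), fun h => absurd h hs⟩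
  choose n hn using hround
  set N : ℕ := ⌊Real.log B + Real.log M⌋₊ + 1 with hNdef
  set P : Finset (ℕ × ℕ) := Finset.range N ×ˢ Finset.range N with hP
  have hmap : ∀ s ∈ R', n s ∈ P := by
    intro s hs
    obtain ⟨⟨h1, -⟩, ⟨h2, -⟩⟩ := hn s hs
    rw [hP, Finset.mem_product, Finset.mem_range, Finset.mem_range]
    exact ⟨Nat.lt_succ_of_le (Nat.le_floor h1), Nat.lt_succ_of_le (Nat.le_floor h2)⟩
  -- a single part
  have hpart : ∀ p ∈ P, ((R'.filter fun s => n s = p).card : ℝ) ≤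
      (C13 * B ^ (η / 2)) * (C14 * C2 * (B / F) ^ (r + 1)) := by
    intro p _
    set Q := R'.filter fun s => n s = p with hQ
    have hrhs : 0 ≤ (C13 * B ^ (η / 2)) * (C14 * C2 * (B / F) ^ (r + 1)) := by positivity
    rcases Q.eq_empty_or_nonempty with he | hne
    · rw [he]
      simpa using hrhs
    obtain ⟨s₀, hs₀⟩ := hne
    have hQm : ∀ s ∈ Q, s ∈ R' ∧ n s = p := by
      intro s hs
      rw [hQ, Finset.mem_filter] at hs
      exact hs
    set L1 : ℝ := M * Real.exp (-(p.1 : ℝ)) with hL1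
    set L2 : ℝ := M * Real.exp (-(p.2 : ℝ)) with hL2
    have hL1p : 0 < L1 := by positivity
    have hL2p : 0 < L2 := by positivity
    have hlL : ∀ s ∈ Q, (l1 s ≤ L1 ∧ L1 ≤ Real.exp 1 * l1 s) ∧
        (l2 s ≤ L2 ∧ L2 ≤ Real.exp 1 * l2 s) := by
      intro s hs
      obtain ⟨h1, h2⟩ := hQm s hs
      obtain ⟨⟨-, h3, h4⟩, ⟨-, h5, h6⟩⟩ := hn s h1
      rw [h2] at h3 h4 h5 h6
      exact ⟨⟨h3, h4⟩, ⟨h5, h6⟩⟩
    set g : Vc K m → (Fin (r + 1) → K) := fun s => gv K r (c s) (u s) (z s) with hg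
    have hGcard : ((Q.image g).card : ℝ) ≤ C14 * B ^ (r + 1) * ((L1 * L2) ^ D) ^ q := by
      obtain ⟨h0, -⟩ := hQm s₀ hs₀
      obtain ⟨-, -, -, h1, h2, h3, h4, h5, h6, -⟩ := hall s₀ (hRX (hR' h0))
      obtain ⟨⟨h7, -⟩, ⟨h8, -⟩⟩ := hlL s₀ hs₀
      refine hvec B L1 L2 hB hL1p hL2p ?_ ?_ (Q.image g) ?_
      · have : 1 ≤ B * L1 ^ D :=
          h5.trans (mul_le_mul_of_nonneg_left (pow_le_pow_left₀ h1.le h7 _) hB0.le)
        exact one_le_mul_of_one_le_of_one_le hM this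
      · have : 1 ≤ B * L2 ^ D :=
          h6.trans (mul_le_mul_of_nonneg_left (pow_le_pow_left₀ h3.le h8 _) hB0.le)
        exact one_le_mul_of_one_le_of_one_le hM this
      · intro g' hg'
        rw [Finset.mem_image] at hg'
        obtain ⟨s, hs, rfl⟩ := hg'
        obtain ⟨h0, -⟩ := hQm s hs
        obtain ⟨-, k1, k2, k3, -, k4, -⟩ := hall s (hRX (hR' h0))
        obtain ⟨⟨k7, -⟩, ⟨k8, -⟩⟩ := hlL s hs
        refine ⟨k1, fun v i => (k2 v i).trans ?_⟩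
        have hMB : 0 ≤ M * B ^ ((Module.finrank ℚ K : ℝ)⁻¹) := by positivity
        exact mul_le_mul (mul_le_mul_of_nonneg_left (pow_le_pow_left₀ k3.le k7 _) hMB)
          (pow_le_pow_left₀ k4.le k8 _) (pow_nonneg k4.le _)
          (mul_nonneg hMB (pow_nonneg hL1p.le _))
    have hLL : ((L1 * L2) ^ D) ^ q ≤ C2 / F ^ (r + 1) := by
      obtain ⟨h0, -⟩ := hQm s₀ hs₀
      obtain ⟨-, -, -, h1, -, h3, -, -, -, h7⟩ := hall s₀ (hRX (hR' h0))
      obtain ⟨⟨-, h8⟩, ⟨-, h9⟩⟩ := hlL s₀ hs₀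
      have hFP : F ≤ (Phi s₀ : ℝ) := hPhi s₀ h0
      have hll : 0 ≤ (l1 s₀ * l2 s₀) ^ D := pow_nonneg (mul_pos h1 h3).le _
      have h10 : F ^ 2 * (l1 s₀ * l2 s₀) ^ D ≤ M :=
        (mul_le_mul_of_nonneg_right (pow_le_pow_left₀ hF0.le hFP 2) hll).trans h7
      have h11 : (L1 * L2) ^ D ≤ Real.exp 1 ^ (2 * D) * (l1 s₀ * l2 s₀) ^ D := by
        calc (L1 * L2) ^ D ≤ ((Real.exp 1 * l1 s₀) * (Real.exp 1 * l2 s₀)) ^ D := by
              apply pow_le_pow_left₀ (mul_pos hL1p hL2p).le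
              exact mul_le_mul h8 h9 hL2p.le (by positivity)
          _ = Real.exp 1 ^ (2 * D) * (l1 s₀ * l2 s₀) ^ D := by
              rw [show Real.exp 1 * l1 s₀ * (Real.exp 1 * l2 s₀) =
                Real.exp 1 ^ 2 * (l1 s₀ * l2 s₀) by ring, mul_pow, ← pow_mul]
      have h12 : (L1 * L2) ^ D ≤ (Real.exp 1 ^ (2 * D) * M) / F ^ 2 := by
        rw [le_div_iff₀ (by positivity)]
        have he : 0 ≤ Real.exp 1 ^ (2 * D) := by positivity
        calc (L1 * L2) ^ D * F ^ 2 ≤ Real.exp 1 ^ (2 * D) * (l1 s₀ * l2 s₀) ^ D * F ^ 2 :=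
              mul_le_mul_of_nonneg_right h11 (by positivity)
          _ = Real.exp 1 ^ (2 * D) * (F ^ 2 * (l1 s₀ * l2 s₀) ^ D) := by ring
          _ ≤ Real.exp 1 ^ (2 * D) * M := mul_le_mul_of_nonneg_left h10 he
      calc ((L1 * L2) ^ D) ^ q ≤ ((Real.exp 1 ^ (2 * D) * M) / F ^ 2) ^ q :=
            Real.rpow_le_rpow (by positivity) h12 hq0
        _ = C2 / (F ^ 2) ^ q := by
            rw [Real.div_rpow (by positivity) (by positivity)]
        _ = C2 / F ^ (r + 1) := by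
            congr 1
            rw [← Real.rpow_natCast, ← Real.rpow_mul hF0.le, hq, ← Real.rpow_natCast]
            congr 1
            push_cast
            ring
    have hfib : (Q.card : ℝ) ≤ (C13 * B ^ (η / 2)) * (Q.image g).card := by
      have h1 : Q.card = ∑ y ∈ Q.image g, (Q.filter fun s => g s = y).card :=
        Finset.card_eq_sum_card_image g Q
      rw [h1]
      push_cast
      rw [mul_comm, ← nsmul_eq_mul, ← Finset.sum_const]
      apply Finset.sum_le_sum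
      intro y _
      apply hR2 (Q.filter fun s => g s = y) _ y
      · intro t ht
        rw [Finset.mem_filter] at ht
        exact ht.2
      · intro t ht
        rw [Finset.mem_filter] at ht
        exact hR' (hQm t ht.1).1
    have hCB : 0 ≤ C13 * B ^ (η / 2) := by positivity
    calc (Q.card : ℝ) ≤ (C13 * B ^ (η / 2)) * (Q.image g).card := hfib
      _ ≤ (C13 * B ^ (η / 2)) * (C14 * B ^ (r + 1) * (C2 / F ^ (r + 1))) := by
          apply mul_le_mul_of_nonneg_left _ hCB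
          exact hGcard.trans (mul_le_mul_of_nonneg_left hLL (by positivity))
      _ = (C13 * B ^ (η / 2)) * (C14 * C2 * (B / F) ^ (r + 1)) := by
          rw [div_pow]
          ring
  -- the number of parts
  have hPcard : (P.card : ℝ) ≤ C1 ^ 2 * B ^ (η / 2) := by
    have h1 : (N : ℝ) ≤ C1 * B ^ (η / 4) := by
      have hlB : 0 ≤ Real.log B := Real.log_nonneg hB
      have h2 : (⌊Real.log B + Real.log M⌋₊ : ℝ) ≤ Real.log B + Real.log M :=
        Nat.floor_le (by linarith)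
      have h3 : Real.log B ≤ B ^ (η / 4) / (η / 4) :=
        Real.log_le_rpow_div hB0.le (by positivity)
      have h4 : B ^ (η / 4) / (η / 4) = 4 / η * B ^ (η / 4) := by
        field_simp
      have h5 : 1 ≤ B ^ (η / 4) := Real.one_le_rpow hB (by positivity)
      rw [hNdef]
      push_cast
      have h6 : 1 + Real.log M ≤ (1 + Real.log M) * B ^ (η / 4) :=
        le_mul_of_one_le_right (by linarith) h5
      rw [hC1]
      linarith
    have h2 : (P.card : ℝ) = (N : ℝ) ^ 2 := by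
      rw [hP, Finset.card_product, Finset.card_range]
      push_cast
      ring
    rw [h2]
    calc (N : ℝ) ^ 2 ≤ (C1 * B ^ (η / 4)) ^ 2 := pow_le_pow_left₀ (Nat.cast_nonneg _) h1 2
      _ = C1 ^ 2 * B ^ (η / 2) := by
          rw [mul_pow, ← Real.rpow_natCast (B ^ (η / 4)), ← Real.rpow_mul hB0.le]
          congr 2
          push_cast
          ring
  have hsum : R'.card = ∑ p ∈ P, (R'.filter fun s => n s = p).card :=
    Finset.card_eq_sum_card_fiberwise hmap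
  rw [hsum]
  push_cast
  calc ∑ p ∈ P, ((R'.filter fun s => n s = p).card : ℝ)
      ≤ ∑ p ∈ P, (C13 * B ^ (η / 2)) * (C14 * C2 * (B / F) ^ (r + 1)) := Finset.sum_le_sum hpart
    _ = P.card * ((C13 * B ^ (η / 2)) * (C14 * C2 * (B / F) ^ (r + 1))) := by
        rw [Finset.sum_const, nsmul_eq_mul]
    _ ≤ (C1 ^ 2 * B ^ (η / 2)) * ((C13 * B ^ (η / 2)) * (C14 * C2 * (B / F) ^ (r + 1))) :=
        mul_le_mul_of_nonneg_right hPcard (by positivity)
    _ = C1 ^ 2 * (C13 * (C14 * C2)) * (B ^ (η / 2) * B ^ (η / 2)) * (B / F) ^ (r + 1) := by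
        ring
    _ = C1 ^ 2 * (C13 * (C14 * C2)) * B ^ η * (B / F) ^ (r + 1) := by
        rw [← Real.rpow_add hB0, add_halves]

end Pool.Agent.Lib.MP_44a246_ntAL
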