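import Pool.Agent.Lib.MP_44a246_ntAL.Defs
import Pool.Agent.Lib.MP_44a246_ntAL.AL1

set_option autoImplicit false

open NumberField IsDedekindDomain Height
open Pool.Agent.Lib.MP_4d5ce1_nt (fa nv ordv)
open Pool.Agent.Lib.MP_44a246_ntNF
open Pool.Agent.Lib.MP_44a246_ntNU

namespace Pool.Agent.Lib.MP_44a246_ntAL

universe u

section low

variable {E : Type*} [Field E] [NumberField E]

private theorem hb_scale (a : HeightOneSpectrum (𝓞 E) → ℝ) (b : InfinitePlace E → ℝ) (s : ℝ) :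
    hb a (fun w => s * b w) = s ^ Module.finrank ℚ E * hb a b := by
  unfold hb
  simp only [mul_pow]
  rw [Finset.prod_mul_distrib, Finset.prod_pow_eq_pow_sum, InfinitePlace.sum_mult_eq]
  ring

private theorem low {a : HeightOneSpectrum (𝓞 E) → ℝ} {b : InfinitePlace E → ℝ} {s : ℝ}
    (ha : (Function.mulSupport a).Finite)
    {z : E} (hz : z ≠ 0) (hz' : z ∈ Bx a b s) :
    1 ≤ s ^ Module.finrank ℚ E * hb a b := by
  have h := NumberField.prod_abs_eq_one (K := E) hz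
  have hfin : ∏ᶠ w : FinitePlace E, w z = ∏ᶠ v : HeightOneSpectrum (𝓞 E), fa v z := by
    rw [← finprod_comp_equiv (FinitePlace.equivHeightOneSpectrum (K := E)).symm]
    rfl
  rw [hfin] at h
  rw [← hb_scale a b s]
  unfold hb
  have h1 : ∏ᶠ v : HeightOneSpectrum (𝓞 E), fa v z ≤ ∏ᶠ v, a v := by
    refine finprod_le_finprod ?_ (fun v => Pool.Agent.Lib.MP_4d5ce1_nt.fa_nonneg v z) ha hz'.1
    exact Pool.Agent.Lib.MP_4d5ce1_nt.finite_fa_ne_one hz
  have h2 : ∏ w : InfinitePlace E, w z ^ w.mult ≤ ∏ w : InfinitePlace E, (s * b w) ^ w.mult := by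
    refine Finset.prod_le_prod (fun w _ => pow_nonneg (apply_nonneg _ _) _) fun w _ => ?_
    exact pow_le_pow_left₀ (apply_nonneg _ _) (hz'.2 w) _
  have h0 : 0 ≤ ∏ᶠ v : HeightOneSpectrum (𝓞 E), fa v z :=
    finprod_nonneg fun v => Pool.Agent.Lib.MP_4d5ce1_nt.fa_nonneg v z
  have h0' : 0 ≤ ∏ w : InfinitePlace E, (s * b w) ^ w.mult :=
    (Finset.prod_nonneg fun w _ => pow_nonneg (apply_nonneg _ _) _).trans h2
  calc (1 : ℝ) = (∏ᶠ v : HeightOneSpectrum (𝓞 E), fa v z) *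
        ∏ w : InfinitePlace E, w z ^ w.mult := by rw [← h]; ring
    _ ≤ (∏ᶠ v, a v) * ∏ w : InfinitePlace E, (s * b w) ^ w.mult :=
        mul_le_mul h1 h2 (Finset.prod_nonneg fun w _ => pow_nonneg (apply_nonneg _ _) _)
          (h0.trans h1)

private theorem hb_nonneg {a : HeightOneSpectrum (𝓞 E) → ℝ} {b : InfinitePlace E → ℝ}
    (ha : ∀ w, 0 < a w) (hb' : ∀ w, 0 < b w) : 0 ≤ hb a b :=
  mul_nonneg (finprod_nonneg fun v => (ha v).le)
    (Finset.prod_nonneg fun w _ => pow_nonneg (hb' w).le _)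

private theorem Adm.apos {a : HeightOneSpectrum (𝓞 E) → ℝ} {b : InfinitePlace E → ℝ}
    (h : Adm a b) (w : HeightOneSpectrum (𝓞 E)) : 0 < a w := by
  obtain ⟨k, hk⟩ := h.pow w
  rw [hk]
  exact zpow_pos (Pool.Agent.Lib.MP_4d5ce1_nt.nv_pos w) k

end low

/-- AL2 : adelic packing, uniform in the field -/
theorem adelic_card (D : ℕ) : ∃ C : ℝ, 0 < C ∧ ∀ (E : Type u) [Field E] [NumberField E],
    Module.finrank ℚ E ≤ D → ∀ (a : HeightOneSpectrum (𝓞 E) → ℝ) (b : InfinitePlace E → ℝ),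
      (∀ w, 0 < a w) → (Function.mulSupport a).Finite → (∀ w, 0 < b w) →
      ∀ Y : Finset E, (∀ y ∈ Y, y ≠ 0 ∧ y ∈ Bx a b 1) → (Y.card : ℝ) ≤ C * hb a b := by
  obtain ⟨C, hC1, hC⟩ := cell.{u} D
  refine ⟨C * 5 ^ D, by positivity, ?_⟩
  intro E _ _ hD a b ha hfin hb' Y hY
  rcases Y.eq_empty_or_nonempty with rfl | hne
  · simp only [Finset.card_empty, Nat.cast_zero]
    exact mul_nonneg (by positivity) (hb_nonneg ha hb')
  obtain ⟨y₀, hy₀⟩ := hne
  have hh : 1 ≤ hb a b := by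
    have := low hfin (hY y₀ hy₀).1 (hY y₀ hy₀).2
    simpa using this
  set n := Module.finrank ℚ E with hn
  have hnpos : 0 < n := Module.finrank_pos
  have hnR : (n : ℝ) ≠ 0 := by exact_mod_cast hnpos.ne'
  set t : ℝ := hb a b ^ ((n : ℝ)⁻¹) with ht
  have ht1 : 1 ≤ t := Real.one_le_rpow hh (by positivity)
  have htn : t ^ n = hb a b := Real.rpow_inv_natCast_pow (by linarith) hnpos.ne'
  have hs' : (0 : ℝ) < 1 / (4 * t) := by positivity
  obtain ⟨Y', hY'Y, hY'ne, hcard, hclose⟩ := hC E hD b hb' 1 (1 / (4 * t)) one_pos hs' Y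
    ⟨y₀, hy₀⟩ (fun y hy w => (hY y hy).2.2 w)
  have hone : Y'.card ≤ 1 := by
    rw [Finset.card_le_one]
    intro y hy z hz
    by_contra hyz
    have hne0 : y - z ≠ 0 := sub_ne_zero.mpr hyz
    have hin : y - z ∈ Bx a b (1 / (4 * t)) := by
      refine ⟨fun w => ?_, fun w => hclose y hy z hz w⟩
      exact (Pool.Agent.Lib.MP_4d5ce1_nt.fa_sub_le w y z).trans
        (max_le ((hY y (hY'Y hy)).2.1 w) ((hY z (hY'Y hz)).2.1 w))
    have hl := low hfin hne0 hin
    rw [← hn, ← htn, ← mul_pow] at hl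
    have : 1 / (4 * t) * t = 1 / 4 := by field_simp
    rw [this] at hl
    have h4 : ((1 : ℝ) / 4) ^ n < 1 := pow_lt_one₀ (by norm_num) (by norm_num) hnpos.ne'
    linarith
  have hone' : (Y'.card : ℝ) ≤ 1 := by exact_mod_cast hone
  have hpow : (1 + 1 / (1 / (4 * t))) ^ n ≤ 5 ^ D * hb a b := by
    rw [one_div_one_div]
    calc (1 + 4 * t) ^ n ≤ (5 * t) ^ n := pow_le_pow_left₀ (by positivity) (by linarith) _
      _ = 5 ^ n * hb a b := by rw [mul_pow, htn]
      _ ≤ 5 ^ D * hb a b :=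
        mul_le_mul_of_nonneg_right (pow_le_pow_right₀ (by norm_num) hD) (by linarith)
  calc (Y.card : ℝ) ≤ C * (1 + 1 / (1 / (4 * t))) ^ n * Y'.card := hcard
    _ ≤ C * (1 + 1 / (1 / (4 * t))) ^ n * 1 :=
        mul_le_mul_of_nonneg_left hone' (by positivity)
    _ = C * (1 + 1 / (1 / (4 * t))) ^ n := mul_one _
    _ ≤ C * (5 ^ D * hb a b) := mul_le_mul_of_nonneg_left hpow (by linarith)
    _ = C * 5 ^ D * hb a b := by ring

private theorem Bx_mono {E : Type*} [Field E] [NumberField E]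
    {a : HeightOneSpectrum (𝓞 E) → ℝ} {b : InfinitePlace E → ℝ} (hb' : ∀ w, 0 < b w)
    {s t : ℝ} (hst : s ≤ t) : Bx a b s ⊆ Bx a b t := fun _ hz =>
  ⟨hz.1, fun w => (hz.2 w).trans (mul_le_mul_of_nonneg_right hst (hb' w).le)⟩

private theorem Bx_scale {E : Type*} [Field E] [NumberField E]
    (a : HeightOneSpectrum (𝓞 E) → ℝ) (b : InfinitePlace E → ℝ) (s : ℝ) :
    Bx a b s = Bx a (fun w => s * b w) 1 := by
  ext z
  simp [Bx]

/-- AL2b : boxes are finite; their size -/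
theorem box_finite {E : Type*} [Field E] [NumberField E]
    {a : HeightOneSpectrum (𝓞 E) → ℝ} {b : InfinitePlace E → ℝ} (h : Adm a b) (s : ℝ) :
    (Bx a b s).Finite := by
  have key : (Bx a b (max s 1)).Finite := by
    by_contra hinf
    have hpos : 0 < max s 1 := lt_of_lt_of_le one_pos (le_max_right _ _)
    obtain ⟨C, hC0, hC⟩ := adelic_card (Module.finrank ℚ E)
    have hinf' : (Bx a b (max s 1) \ {0}).Infinite :=
      Set.Infinite.sdiff hinf (Set.finite_singleton 0)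
    obtain ⟨N, hN⟩ := exists_nat_gt (C * hb a (fun w => max s 1 * b w))
    obtain ⟨Y, hYsub, hYcard⟩ := hinf'.exists_subset_card_eq N
    have hle := hC E le_rfl a (fun w => max s 1 * b w) (Adm.apos h) h.fin
      (fun w => mul_pos hpos (h.pos w)) Y (fun y hy => by
        have := hYsub hy
        refine ⟨this.2, ?_⟩
        rw [← Bx_scale]
        exact this.1)
    rw [hYcard] at hle
    linarith
  exact key.subset (Bx_mono h.pos (le_max_left _ _))

theorem ncard_growth (D : ℕ) : ∃ C : ℝ, 1 ≤ C ∧ ∀ (E : Type u) [Field E] [NumberField E],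
    Module.finrank ℚ E ≤ D → ∀ (a : HeightOneSpectrum (𝓞 E) → ℝ) (b : InfinitePlace E → ℝ),
      Adm a b → ∀ s s' : ℝ, 0 < s → 0 < s' → ((Bx a b s).ncard : ℝ) ≤
        C * (1 + s / s') ^ Module.finrank ℚ E * (Bx a b s').ncard := by
  obtain ⟨C, hC1, hC⟩ := cell.{u} D
  refine ⟨C, hC1, ?_⟩
  intro E _ _ hD a b hab s s' hs hs'
  have hfin := box_finite hab s
  have hfin' := box_finite hab s'
  have h0 : (0 : E) ∈ Bx a b s := by
    refine ⟨fun w => ?_, fun w => ?_⟩
    · rw [Pool.Agent.Lib.MP_4d5ce1_nt.fa_zero]; exact (Adm.apos hab w).le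
    · rw [map_zero]; exact (mul_pos hs (hab.pos w)).le
  obtain ⟨Y', hY'Y, hY'ne, hcard, hclose⟩ := hC E hD b hab.pos s s' hs hs' hfin.toFinset
    ⟨0, by simpa using h0⟩ (fun y hy w => by
      have : y ∈ Bx a b s := by simpa using hy
      exact this.2 w)
  obtain ⟨y₀, hy₀⟩ := hY'ne
  have hle : Y'.card ≤ (Bx a b s').ncard := by
    rw [Set.ncard_eq_toFinset_card _ hfin']
    refine Finset.card_le_card_of_injOn (fun y => y - y₀) (fun y hy => ?_)
      (fun y _ z _ hyz => sub_left_injective hyz)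
    have hy1 : y ∈ Bx a b s := by simpa using hY'Y hy
    have hy2 : y₀ ∈ Bx a b s := by simpa using hY'Y hy₀
    have : y - y₀ ∈ Bx a b s' := ⟨fun w =>
      (Pool.Agent.Lib.MP_4d5ce1_nt.fa_sub_le w y y₀).trans (max_le (hy1.1 w) (hy2.1 w)),
      fun w => hclose y hy y₀ hy₀ w⟩
    simpa using this
  have hle' : (Y'.card : ℝ) ≤ (Bx a b s').ncard := by exact_mod_cast hle
  rw [Set.ncard_eq_toFinset_card _ hfin]
  exact hcard.trans (mul_le_mul_of_nonneg_left hle' (by positivity))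

theorem ncard_le (D : ℕ) : ∃ C : ℝ, 1 ≤ C ∧ ∀ (E : Type u) [Field E] [NumberField E],
    Module.finrank ℚ E ≤ D → ∀ (a : HeightOneSpectrum (𝓞 E) → ℝ) (b : InfinitePlace E → ℝ),
      Adm a b → ∀ s : ℝ, 0 < s → ((Bx a b s).ncard : ℝ) ≤
        1 + C * s ^ Module.finrank ℚ E * hb a b := by
  obtain ⟨C, hC0, hC⟩ := adelic_card.{u} D
  refine ⟨max C 1, le_max_right _ _, ?_⟩
  intro E _ _ hD a b hab s hs
  classical
  have hfin := box_finite hab s
  have hY := hC E hD a (fun w => s * b w) (Adm.apos hab) hab.fin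
    (fun w => mul_pos hs (hab.pos w)) (hfin.toFinset.erase 0) (fun y hy => by
      rw [Finset.mem_erase] at hy
      refine ⟨hy.1, ?_⟩
      rw [← Bx_scale]
      simpa using hy.2)
  rw [hb_scale] at hY
  have h1 : hfin.toFinset.card ≤ (hfin.toFinset.erase 0).card + 1 := by
    have := Finset.pred_card_le_card_erase (s := hfin.toFinset) (a := (0 : E))
    omega
  have h2 : ((Bx a b s).ncard : ℝ) ≤ (hfin.toFinset.erase 0).card + 1 := by
    rw [Set.ncard_eq_toFinset_card _ hfin]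
    exact_mod_cast h1
  have h3 : C * (s ^ Module.finrank ℚ E * hb a b) ≤
      max C 1 * s ^ Module.finrank ℚ E * hb a b := by
    rw [← mul_assoc]
    exact mul_le_mul_of_nonneg_right
      (mul_le_mul_of_nonneg_right (le_max_left _ _) (by positivity))
      (hb_nonneg (Adm.apos hab) hab.pos)
  linarith

end Pool.Agent.Lib.MP_44a246_ntAL
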