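import Pool.Agent.Lib.MP_44a246_ntAL.AL0
import Pool.Agent.Lib.MP_44a246_ntAL.AL2

/-!
# Scaling a class of similar vectors; the number of elements of a class
-/

set_option autoImplicit false

open NumberField IsDedekindDomain Height
open Pool.Agent.Lib.MP_4d5ce1_nt (fa nv ordv)
open Pool.Agent.Lib.MP_44a246_ntNF
open Pool.Agent.Lib.MP_44a246_ntNU

namespace Pool.Agent.Lib.MP_44a246_ntAL

universe u

section tools
variable {E : Type*} [Field E] [NumberField E] {m : ℕ}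

private theorem tf_smul (z : E) (x : Fin m → E) (w : HeightOneSpectrum (𝓞 E)) :
    tf (z • x) w = fa w z * tf x w := by
  unfold tf
  rw [Real.mul_iSup_of_nonneg (Pool.Agent.Lib.MP_4d5ce1_nt.fa_nonneg w z)]
  congr 1
  funext i
  rw [Pi.smul_apply, smul_eq_mul, Pool.Agent.Lib.MP_4d5ce1_nt.fa_mul]

private theorem ti_smul (z : E) (x : Fin m → E) (w : InfinitePlace E) :
    ti (z • x) w = w z * ti x w := by
  unfold ti
  rw [Real.mul_iSup_of_nonneg (apply_nonneg w z)]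
  congr 1
  funext i
  rw [Pi.smul_apply, smul_eq_mul, map_mul]

private theorem le_tf (x : Fin m → E) (w : HeightOneSpectrum (𝓞 E)) (i : Fin m) :
    fa w (x i) ≤ tf x w :=
  le_ciSup (Set.finite_range fun i => fa w (x i)).bddAbove i

private theorem le_ti (x : Fin m → E) (w : InfinitePlace E) (i : Fin m) :
    w (x i) ≤ ti x w :=
  le_ciSup (Set.finite_range fun i => w (x i)).bddAbove i

private theorem tf_nonneg (x : Fin m → E) (w : HeightOneSpectrum (𝓞 E)) : 0 ≤ tf x w :=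
  Real.iSup_nonneg fun i => Pool.Agent.Lib.MP_4d5ce1_nt.fa_nonneg w (x i)

private theorem ti_nonneg (x : Fin m → E) (w : InfinitePlace E) : 0 ≤ ti x w :=
  Real.iSup_nonneg fun i => apply_nonneg w (x i)

end tools

private theorem Phi_mk {K : Type u} [Field K] {m : ℕ}
    (F : IntermediateField K (AlgebraicClosure K)) [NumberField F] (x : Fin m → F) :
    Phi (⟨F, x⟩ : Vc K m) = (Bx (tf x) (ti x) 1).ncard := by
  unfold Phi
  rw [dif_pos (inferInstance : NumberField F)]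

/-- Similarity for vectors over the same field. -/
private theorem sim_of {K : Type u} [Field K] {m : ℕ}
    (F : IntermediateField K (AlgebraicClosure K)) [NumberField F] (x : Fin m → F) (s : Vc K m)
    (h : SimV (⟨F, x⟩ : Vc K m) s) : ∃ y : Fin m → F, s = ⟨F, y⟩ ∧ Sim x y := by
  obtain ⟨F', hF', x', y', h1, h2, h3⟩ := h
  obtain ⟨rfl, h4⟩ := Sigma.mk.inj_iff.1 h1
  obtain rfl := eq_of_heq h4
  exact ⟨y', h2, h3⟩

/-- AL15a : scaling a class -/
theorem scaled {K : Type u} [Field K] {m : ℕ} (F : IntermediateField K (AlgebraicClosure K))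
    [NumberField F] (x₀ : Fin m → F) (X : Finset (Vc K m)) (hX : Np X)
    (h : ∀ s ∈ X, SimV (⟨F, x₀⟩ : Vc K m) s) :
    ∃ Y : Finset (Fin m → F), Y.card = X.card ∧ ∀ y ∈ Y,
      (∃ (x : Fin m → F) (z : F), (⟨F, x⟩ : Vc K m) ∈ X ∧ z ≠ 0 ∧ y = z • x) ∧
      (∀ w, tf y w = tf x₀ w) ∧ (∀ w : InfinitePlace F, ti y w ≤ 3 * ti x₀ w) ∧
      ∀ w : InfinitePlace F, ti x₀ w ≤ 3 * ti y w := by
  classical
  have key : ∀ s : Vc K m, s ∈ X → ∃ (y : Fin m → F) (z : F), s = ⟨F, y⟩ ∧ z ≠ 0 ∧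
      (∀ w : HeightOneSpectrum (𝓞 F), fa w z * tf y w = tf x₀ w) ∧
      (∀ w : InfinitePlace F, w z * ti y w ≤ 3 * ti x₀ w) ∧
      ∀ w : InfinitePlace F, ti x₀ w ≤ 3 * (w z * ti y w) := by
    intro s hs
    obtain ⟨y, hy, z, hz⟩ := sim_of F x₀ s (h s hs)
    exact ⟨y, z, hy, hz⟩
  choose! fy fz hs using key
  refine ⟨X.image fun s => fz s • fy s, ?_, ?_⟩
  · refine Finset.card_image_of_injOn ?_
    intro s hsX t htX hst
    have hsX' : s ∈ X := hsX
    have htX' : t ∈ X := htX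
    have h1 := hs s hsX'
    have h2 := hs t htX'
    have hst' : fz s • fy s = fz t • fy t := hst
    have h3 : fy s = ((fz s)⁻¹ * fz t) • fy t := by
      rw [mul_smul, ← hst', smul_smul, inv_mul_cancel₀ h1.2.1, one_smul]
    have h4 : fy s = fy t := by
      refine hX F (fy s) (fy t) ?_ ?_ ((fz s)⁻¹ * fz t)
        (mul_ne_zero (inv_ne_zero h1.2.1) h2.2.1) h3
      · rw [← h1.1]; exact hsX'
      · rw [← h2.1]; exact htX'
    rw [h1.1, h2.1, h4]
  · intro y hy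
    obtain ⟨s, hsX, rfl⟩ := Finset.mem_image.1 hy
    have h1 := hs s hsX
    refine ⟨⟨fy s, fz s, ?_, h1.2.1, rfl⟩, ?_, ?_, ?_⟩
    · rw [← h1.1]; exact hsX
    · intro w
      rw [tf_smul]
      exact h1.2.2.1 w
    · intro w
      rw [ti_smul]
      exact h1.2.2.2.1 w
    · intro w
      rw [ti_smul]
      exact h1.2.2.2.2 w

/-- The box of factor `3` compared with the box of factor `1`. -/
private theorem box3 (K : Type u) [Field K] [NumberField K] (r m : ℕ) : ∃ C : ℝ, 1 ≤ C ∧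
    ∀ (F : IntermediateField K (AlgebraicClosure K)) [NumberField F], Module.finrank K F = r →
      ∀ x : Fin m → F, x ≠ 0 → (Bx (tf x) (ti x) 3).Finite ∧
        ((Bx (tf x) (ti x) 3).ncard : ℝ) ≤ C * (Bx (tf x) (ti x) 1).ncard := by
  obtain ⟨C, hC1, hC⟩ := ncard_growth.{u} (Module.finrank ℚ K * r)
  refine ⟨C * 4 ^ (Module.finrank ℚ K * r),
    one_le_mul_of_one_le_of_one_le hC1 (one_le_pow₀ (by norm_num)), ?_⟩
  intro F _ hF x hx
  have hadm := (adm_tf x hx).1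
  have hD : Module.finrank ℚ F = Module.finrank ℚ K * r := by
    rw [← hF, Module.finrank_mul_finrank ℚ K F]
  refine ⟨box_finite hadm 3, ?_⟩
  have h1 := hC F hD.le (tf x) (ti x) hadm 3 1 (by norm_num) one_pos
  rw [hD] at h1
  have h2 : (1 + 3 / 1 : ℝ) = 4 := by norm_num
  rw [h2] at h1
  exact h1

/-- AL15b : the number of elements of a class -/
theorem class_count {K : Type u} [Field K] [NumberField K] (r m : ℕ) : ∃ C : ℝ, 1 ≤ C ∧
    ∀ (B : ℝ) (t : Vc K m), Gd r B t → ∀ X : Finset (Vc K m), Np X → (∀ s ∈ X, SimV t s) →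
      (X.card : ℝ) ≤ C * (Phi t : ℝ) ^ m := by
  classical
  obtain ⟨C, hC1, hC⟩ := box3 K r m
  refine ⟨C ^ m, one_le_pow₀ hC1, ?_⟩
  rintro B ⟨F, x₀⟩ ⟨hnf, hdeg, hx₀, -, -⟩ X hX hsim
  have : NumberField F := hnf
  obtain ⟨Y, hcard, hY⟩ := scaled F x₀ X hX hsim
  obtain ⟨hfin, hle⟩ := hC F hdeg x₀ hx₀
  rw [Phi_mk, ← hcard]
  have hsub : Y ⊆ Fintype.piFinset fun _ : Fin m => hfin.toFinset := by
    intro y hy
    obtain ⟨-, h1, h2, -⟩ := hY y hy
    refine Fintype.mem_piFinset.2 fun i => ?_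
    rw [Set.Finite.mem_toFinset]
    exact ⟨fun w => (le_tf y w i).trans (h1 w).le, fun w => (le_ti y w i).trans (h2 w)⟩
  have h1 : Y.card ≤ hfin.toFinset.card ^ m := by
    refine (Finset.card_le_card hsub).trans ?_
    rw [Fintype.card_piFinset]
    simp
  have h2 : ((Bx (tf x₀) (ti x₀) 3).ncard : ℝ) ^ m ≤
      (C * ((Bx (tf x₀) (ti x₀) 1).ncard : ℝ)) ^ m :=
    pow_le_pow_left₀ (by positivity) hle m
  rw [← Set.ncard_eq_toFinset_card _ hfin] at h1
  calc (Y.card : ℝ) ≤ ((Bx (tf x₀) (ti x₀) 3).ncard : ℝ) ^ m := by exact_mod_cast h1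
    _ ≤ (C * ((Bx (tf x₀) (ti x₀) 1).ncard : ℝ)) ^ m := h2
    _ = C ^ m * ((Bx (tf x₀) (ti x₀) 1).ncard : ℝ) ^ m := mul_pow _ _ _

/-- AL15c : similar vectors have comparable boxes, and `1 ≤ Phi ≤ C * B` -/
theorem phi_sim {K : Type u} [Field K] [NumberField K] (r m : ℕ) : ∃ C : ℝ, 1 ≤ C ∧
    ∀ (B : ℝ) (s t : Vc K m), Gd r B s → Gd r B t → SimV t s →
      (Phi t : ℝ) ≤ C * Phi s ∧ (Phi s : ℝ) ≤ C * Phi t := by
  obtain ⟨C, hC1, hC⟩ := box3 K r m
  refine ⟨C, hC1, ?_⟩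
  rintro B s ⟨F, x⟩ hs ⟨hnf, hdeg, hx, -, -⟩ hsim
  have : NumberField F := hnf
  obtain ⟨y, rfl, z, hz, h1, h2, h3⟩ := sim_of F x s hsim
  obtain ⟨-, -, hy, -, -⟩ := hs
  obtain ⟨hfx, hlx⟩ := hC F hdeg x hx
  obtain ⟨hfy, hly⟩ := hC F hdeg y hy
  rw [Phi_mk, Phi_mk]
  constructor
  · have h : (Bx (tf x) (ti x) 1).ncard ≤ (Bx (tf y) (ti y) 3).ncard := by
      refine Set.ncard_le_ncard_of_injOn (fun e => z⁻¹ * e) ?_
        (fun a _ b _ hab => mul_left_cancel₀ (inv_ne_zero hz) hab) hfy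
      intro e he
      refine ⟨fun w => ?_, fun w => ?_⟩
      · have h4 : 0 < fa w z := Pool.Agent.Lib.MP_4d5ce1_nt.fa_pos w hz
        have h5 : fa w e = fa w z * fa w (z⁻¹ * e) := by
          rw [← Pool.Agent.Lib.MP_4d5ce1_nt.fa_mul, mul_inv_cancel_left₀ hz]
        have h6 : fa w z * fa w (z⁻¹ * e) ≤ fa w z * tf y w := by
          rw [← h5, h1 w]; exact he.1 w
        exact le_of_mul_le_mul_left h6 h4
      · have h4 : 0 < w z := InfinitePlace.pos_iff.2 hz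
        have h5 : w e = w z * w (z⁻¹ * e) := by
          rw [← map_mul, mul_inv_cancel_left₀ hz]
        have h6 : w z * w (z⁻¹ * e) ≤ w z * (3 * ti y w) := by
          rw [← h5]
          have h7 := he.2 w
          rw [one_mul] at h7
          refine (h7.trans (h3 w)).trans (le_of_eq (by ring))
        exact le_of_mul_le_mul_left h6 h4
    exact (Nat.cast_le.2 h).trans hly
  · have h : (Bx (tf y) (ti y) 1).ncard ≤ (Bx (tf x) (ti x) 3).ncard := by
      refine Set.ncard_le_ncard_of_injOn (fun e => z * e) ?_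
        (fun a _ b _ hab => mul_left_cancel₀ hz hab) hfx
      intro e he
      refine ⟨fun w => ?_, fun w => ?_⟩
      · show fa w (z * e) ≤ tf x w
        rw [Pool.Agent.Lib.MP_4d5ce1_nt.fa_mul, ← h1 w]
        exact mul_le_mul_of_nonneg_left (he.1 w) (Pool.Agent.Lib.MP_4d5ce1_nt.fa_nonneg w z)
      · show w (z * e) ≤ 3 * ti x w
        rw [map_mul]
        refine le_trans (mul_le_mul_of_nonneg_left ?_ (apply_nonneg w z)) (h2 w)
        have h7 := he.2 w
        rwa [one_mul] at h7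
    exact (Nat.cast_le.2 h).trans hlx

theorem phi_bounds {K : Type u} [Field K] [NumberField K] (r m : ℕ) : ∃ C : ℝ, 1 ≤ C ∧
    ∀ (B : ℝ) (s : Vc K m), 1 ≤ B → Gd r B s → 1 ≤ Phi s ∧ (Phi s : ℝ) ≤ C * B := by
  obtain ⟨C, hC1, hC⟩ := ncard_le.{u} (Module.finrank ℚ K * r)
  refine ⟨1 + C, by linarith, ?_⟩
  rintro B ⟨F, x⟩ hB ⟨hnf, hdeg, hx, -, hht⟩
  have : NumberField F := hnf
  obtain ⟨hadm, hhb⟩ := adm_tf x hx
  rw [Phi_mk]
  have hfin := box_finite hadm 1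
  have hD : Module.finrank ℚ F = Module.finrank ℚ K * r := by
    rw [← hdeg, Module.finrank_mul_finrank ℚ K F]
  constructor
  · rw [Nat.one_le_iff_ne_zero]
    refine (Set.ncard_pos hfin).2 ⟨0, fun w => ?_, fun w => ?_⟩ |>.ne'
    · rw [Pool.Agent.Lib.MP_4d5ce1_nt.fa_zero]; exact tf_nonneg x w
    · rw [map_zero, one_mul]; exact ti_nonneg x w
  · have h1 := hC F hD.le (tf x) (ti x) hadm 1 one_pos
    rw [one_pow, mul_one, hhb] at h1
    have h2 : mulHeight x ≤ B := hht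
    have h3 : C * mulHeight x ≤ C * B := mul_le_mul_of_nonneg_left h2 (by linarith)
    linarith

end Pool.Agent.Lib.MP_44a246_ntAL
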