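import Pool.Agent.Lib.MP_44a246_ntAL.AL14
import Pool.Agent.Lib.MP_44a246_ntAL.AL15

/-!
# Almost all points of bounded degree: total counts
-/

set_option autoImplicit false

open NumberField IsDedekindDomain Height
open Pool.Agent.Lib.MP_4d5ce1_nt (fa nv ordv)
open Pool.Agent.Lib.MP_44a246_ntNF
open Pool.Agent.Lib.MP_44a246_ntNU

namespace Pool.Agent.Lib.MP_44a246_ntAL

universe u

/-- Subsets of a pairwise non-proportional set. -/
private theorem np_mono {K : Type u} [Field K] {m : ℕ} {X Y : Finset (Vc K m)} (h : Y ⊆ X)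
    (hX : Np X) : Np Y :=
  fun F x y hx hy z hz e => hX F x y (h hx) (h hy) z hz e

/-- AL16 : total count in a dyadic range -/
theorem total_dyadic {K : Type u} [Field K] [NumberField K] (r m : ℕ) (hr : 2 ≤ r) (η : ℝ)
    (hη : 0 < η) : ∃ C : ℝ, 1 ≤ C ∧ ∀ B : ℝ, 1 ≤ B → ∀ X : Finset (Vc K m), Np X →
      (∀ s ∈ X, Gd r B s) → ∀ F : ℝ, 1 ≤ F → (∀ s ∈ X, F ≤ Phi s ∧ (Phi s : ℝ) ≤ 2 * F) →
        (X.card : ℝ) ≤ C * B ^ η * (B / F) ^ (r + 1) * F ^ m := by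
  classical
  obtain ⟨C1, hC1, h1⟩ := classes (K := K) r m hr η hη
  obtain ⟨C2, hC2, h2⟩ := class_count (K := K) r m
  refine ⟨C1 * (C2 * 2 ^ m), ?_, ?_⟩
  · have h2m : (1 : ℝ) ≤ 2 ^ m := one_le_pow₀ (by norm_num)
    have : (1 : ℝ) ≤ C2 * 2 ^ m := by nlinarith
    nlinarith
  intro B hB X hX hG F hF hP
  obtain ⟨R, hRX, hR, hcl⟩ := h1 B hB X hG
  have hRc := hcl F hF R subset_rfl (fun t ht => (hP t (hRX ht)).1)
  have hcover : X ⊆ R.biUnion (fun t => X.filter (fun s => SimV t s)) := by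
    intro s hs
    obtain ⟨t, ht, hts⟩ := hR s hs
    exact Finset.mem_biUnion.2 ⟨t, ht, Finset.mem_filter.2 ⟨hs, hts⟩⟩
  have hcard : (X.card : ℝ) ≤ ∑ t ∈ R, ((X.filter (fun s => SimV t s)).card : ℝ) := by
    have := (Finset.card_le_card hcover).trans Finset.card_biUnion_le
    exact_mod_cast this
  have hcl2 : ∀ t ∈ R, ((X.filter (fun s => SimV t s)).card : ℝ) ≤ C2 * (2 * F) ^ m := by
    intro t ht
    have h3 := h2 B t (hG t (hRX ht)) (X.filter (fun s => SimV t s))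
      (np_mono (Finset.filter_subset _ _) hX) (fun s hs => (Finset.mem_filter.1 hs).2)
    refine h3.trans ?_
    have : ((Phi t : ℕ) : ℝ) ^ m ≤ (2 * F) ^ m :=
      pow_le_pow_left₀ (Nat.cast_nonneg _) (hP t (hRX ht)).2 m
    nlinarith
  calc (X.card : ℝ) ≤ ∑ t ∈ R, ((X.filter (fun s => SimV t s)).card : ℝ) := hcard
    _ ≤ ∑ _t ∈ R, C2 * (2 * F) ^ m := Finset.sum_le_sum hcl2
    _ = R.card * (C2 * (2 * F) ^ m) := by rw [Finset.sum_const, nsmul_eq_mul]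
    _ ≤ (C1 * B ^ η * (B / F) ^ (r + 1)) * (C2 * (2 * F) ^ m) := by
        apply mul_le_mul_of_nonneg_right hRc
        positivity
    _ = C1 * (C2 * 2 ^ m) * B ^ η * (B / F) ^ (r + 1) * F ^ m := by
        rw [mul_pow]; ring

/-- The number of dyadic ranges. -/
private theorem card_log (C η : ℝ) (hC : 1 ≤ C) (hη : 0 < η) : ∃ C' : ℝ, 1 ≤ C' ∧
    ∀ B : ℝ, 1 ≤ B → ∀ Y : Finset ℕ, (∀ k ∈ Y, (2 : ℝ) ^ k ≤ C * B) →
      (Y.card : ℝ) ≤ C' * B ^ η := by
  refine ⟨1 + C ^ η / η / Real.log 2, ?_, ?_⟩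
  · have : 0 ≤ C ^ η / η / Real.log 2 := by
      have := Real.log_pos (by norm_num : (1 : ℝ) < 2)
      positivity
    linarith
  intro B hB Y hY
  have hl2 : 0 < Real.log 2 := Real.log_pos (by norm_num)
  have hCB : 0 < C * B := by positivity
  have hB1 : (1 : ℝ) ≤ B ^ η := Real.one_le_rpow hB hη.le
  have hlog : ∀ k ∈ Y, (k : ℝ) ≤ C ^ η * B ^ η / η / Real.log 2 := by
    intro k hk
    have h1 := Real.log_le_log (by positivity) (hY k hk)
    rw [Real.log_pow] at h1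
    have h2 := Real.log_le_rpow_div hCB.le hη
    rw [Real.mul_rpow (by linarith) (by linarith)] at h2
    rw [le_div_iff₀ hl2]
    linarith
  have hsub : Y ⊆ Finset.range (⌊C ^ η * B ^ η / η / Real.log 2⌋₊ + 1) := by
    intro k hk
    rw [Finset.mem_range, Nat.lt_succ_iff]
    exact Nat.le_floor (hlog k hk)
  have hcard := Finset.card_le_card hsub
  rw [Finset.card_range] at hcard
  have hnn : 0 ≤ C ^ η * B ^ η / η / Real.log 2 := by positivity
  have hfl := Nat.floor_le hnn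
  have hc : (Y.card : ℝ) ≤ (⌊C ^ η * B ^ η / η / Real.log 2⌋₊ : ℝ) + 1 := by
    exact_mod_cast hcard
  have e : C ^ η * B ^ η / η / Real.log 2 = C ^ η / η / Real.log 2 * B ^ η := by ring
  rw [e] at hfl hc
  rw [add_mul, one_mul]
  linarith

/-- Splitting in dyadic ranges. -/
private theorem split {K : Type u} [Field K] [NumberField K] (r m : ℕ) (hr : 2 ≤ r) (η : ℝ)
    (hη : 0 < η) : ∃ C : ℝ, 1 ≤ C ∧ ∀ B : ℝ, 1 ≤ B → ∀ X : Finset (Vc K m), Np X →
      (∀ s ∈ X, Gd r B s) → ∀ T : ℝ, 0 ≤ T →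
        (∀ (k : ℕ) (s : Vc K m), s ∈ X → (2 : ℝ) ^ k ≤ Phi s → (Phi s : ℝ) ≤ 2 * 2 ^ k →
          (B / 2 ^ k) ^ (r + 1) * ((2 : ℝ) ^ k) ^ m ≤ T) →
        (X.card : ℝ) ≤ C * B ^ η * T := by
  classical
  obtain ⟨C1, hC1, h1⟩ := total_dyadic (K := K) r m hr (η / 2) (by positivity)
  obtain ⟨C2, hC2, h2⟩ := phi_bounds (K := K) r m
  obtain ⟨C3, hC3, h3⟩ := card_log C2 (η / 2) hC2 (by positivity)
  refine ⟨C3 * C1, by nlinarith, ?_⟩
  intro B hB X hX hG T hTnn hT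
  have hB1 : (1 : ℝ) ≤ B ^ (η / 2) := Real.one_le_rpow hB (by positivity)
  have hk : ∀ s ∈ X, (2 : ℝ) ^ (Nat.log 2 (Phi s)) ≤ Phi s ∧
      (Phi s : ℝ) ≤ 2 * 2 ^ (Nat.log 2 (Phi s)) := by
    intro s hs
    have hp := (h2 B s hB (hG s hs)).1
    refine ⟨?_, ?_⟩
    · exact_mod_cast Nat.pow_log_le_self 2 (by omega)
    · have := (Nat.lt_pow_succ_log_self (b := 2) (by norm_num) (Phi s)).le
      rw [pow_succ] at this
      have h' : ((Phi s : ℕ) : ℝ) ≤ 2 ^ (Nat.log 2 (Phi s)) * 2 := by exact_mod_cast this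
      linarith
  set f : Vc K m → ℕ := fun s => Nat.log 2 (Phi s) with hf
  have himg : ((X.image f).card : ℝ) ≤ C3 * B ^ (η / 2) := by
    apply h3 B hB
    intro k hk'
    obtain ⟨s, hs, rfl⟩ := Finset.mem_image.1 hk'
    exact (hk s hs).1.trans (h2 B s hB (hG s hs)).2
  have hfib : ∀ k ∈ X.image f, ((X.filter (fun s => f s = k)).card : ℝ) ≤
      C1 * B ^ (η / 2) * T := by
    intro k hk'
    obtain ⟨s, hs, hsk⟩ := Finset.mem_image.1 hk'
    have hks := hk s hs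
    have hfs : Nat.log 2 (Phi s) = k := hsk
    rw [hfs] at hks
    have h4 := h1 B hB (X.filter (fun s => f s = k)) (np_mono (Finset.filter_subset _ _) hX)
      (fun t ht => hG t (Finset.mem_filter.1 ht).1) (2 ^ k) (one_le_pow₀ (by norm_num))
      (by
        intro t ht
        obtain ⟨ht1, ht2⟩ := Finset.mem_filter.1 ht
        have hkt := hk t ht1
        have hft : Nat.log 2 (Phi t) = k := ht2
        rw [hft] at hkt
        exact hkt)
    refine h4.trans ?_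
    rw [mul_assoc]
    apply mul_le_mul_of_nonneg_left (hT k s hs hks.1 hks.2)
    positivity
  have hsum : (X.card : ℝ) = ∑ k ∈ X.image f, ((X.filter (fun s => f s = k)).card : ℝ) := by
    exact_mod_cast Finset.card_eq_sum_card_image f X
  calc (X.card : ℝ) = ∑ k ∈ X.image f, ((X.filter (fun s => f s = k)).card : ℝ) := hsum
    _ ≤ ∑ _k ∈ X.image f, C1 * B ^ (η / 2) * T := Finset.sum_le_sum hfib
    _ = (X.image f).card * (C1 * B ^ (η / 2) * T) := by rw [Finset.sum_const, nsmul_eq_mul]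
    _ ≤ (C3 * B ^ (η / 2)) * (C1 * B ^ (η / 2) * T) := by
        apply mul_le_mul_of_nonneg_right himg
        positivity
    _ = C3 * C1 * (B ^ (η / 2) * B ^ (η / 2)) * T := by ring
    _ = C3 * C1 * B ^ η * T := by
        rw [← Real.rpow_add (by linarith), add_halves]

theorem total_small {K : Type u} [Field K] [NumberField K] (r n : ℕ) (hr : 2 ≤ r) (hn : r ≤ n)
    (η : ℝ) (hη : 0 < η) : ∃ C : ℝ, 1 ≤ C ∧ ∀ B : ℝ, 1 ≤ B → ∀ X : Finset (Vc K (n + 1)), Np X →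
      (∀ s ∈ X, Gd r B s) → ∀ F : ℝ, 1 ≤ F → (∀ s ∈ X, (Phi s : ℝ) ≤ F) →
        (X.card : ℝ) ≤ C * B ^ η * B ^ (r + 1) * F ^ (n - r) := by
  obtain ⟨C, hC, h⟩ := split (K := K) r (n + 1) hr η hη
  refine ⟨C, hC, ?_⟩
  intro B hB X hX hG F hF hP
  have h1 := h B hB X hX hG (B ^ (r + 1) * F ^ (n - r)) (by positivity) (by
    intro k s hs hk1 _
    have hkF : (2 : ℝ) ^ k ≤ F := hk1.trans (hP s hs)
    have h2k : (0 : ℝ) < 2 ^ k := by positivity
    have e : (B / 2 ^ k) ^ (r + 1) * ((2 : ℝ) ^ k) ^ (n + 1) =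
        B ^ (r + 1) * ((2 : ℝ) ^ k) ^ (n - r) := by
      have : n + 1 = (r + 1) + (n - r) := by omega
      have e2 : ((2 : ℝ) ^ k) ^ (n + 1) = ((2 : ℝ) ^ k) ^ (r + 1) * ((2 : ℝ) ^ k) ^ (n - r) := by
        rw [← pow_add, ← this]
      rw [e2, div_pow]
      field_simp
    rw [e]
    have := pow_le_pow_left₀ h2k.le hkF (n - r)
    have hBr : (0 : ℝ) ≤ B ^ (r + 1) := by positivity
    exact mul_le_mul_of_nonneg_left this hBr)
  rw [← mul_assoc] at h1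
  exact h1

theorem total_large {K : Type u} [Field K] [NumberField K] (r n : ℕ) (hr : 2 ≤ r) (hn : n ≤ r)
    (η : ℝ) (hη : 0 < η) : ∃ C : ℝ, 1 ≤ C ∧ ∀ B : ℝ, 1 ≤ B → ∀ X : Finset (Vc K (n + 1)), Np X →
      (∀ s ∈ X, Gd r B s) → ∀ F : ℝ, 1 ≤ F → (∀ s ∈ X, F ≤ (Phi s : ℝ)) →
        (X.card : ℝ) ≤ C * B ^ η * B ^ (r + 1) / F ^ (r - n) := by
  obtain ⟨C, hC, h⟩ := split (K := K) r (n + 1) hr η hη
  have h2r : (1 : ℝ) ≤ 2 ^ (r - n) := one_le_pow₀ (by norm_num)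
  refine ⟨C * 2 ^ (r - n), by nlinarith, ?_⟩
  intro B hB X hX hG F hF hP
  have h1 := h B hB X hX hG (B ^ (r + 1) * (2 ^ (r - n) / F ^ (r - n))) (by positivity) (by
    intro k s hs _ hk2
    have hkF : F ≤ 2 * (2 : ℝ) ^ k := (hP s hs).trans hk2
    have h2k : (0 : ℝ) < 2 ^ k := by positivity
    have hF0 : 0 < F := by linarith
    have e : (B / 2 ^ k) ^ (r + 1) * ((2 : ℝ) ^ k) ^ (n + 1) =
        B ^ (r + 1) * (1 / ((2 : ℝ) ^ k) ^ (r - n)) := by
      have : r + 1 = (n + 1) + (r - n) := by omega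
      have e2 : (B / 2 ^ k) ^ (r + 1) = B ^ (r + 1) / (((2 : ℝ) ^ k) ^ (n + 1) *
          ((2 : ℝ) ^ k) ^ (r - n)) := by
        rw [div_pow, ← pow_add, ← this]
      rw [e2]
      field_simp
    rw [e]
    apply mul_le_mul_of_nonneg_left _ (by positivity)
    rw [div_le_div_iff₀ (by positivity) (by positivity), one_mul, ← mul_pow]
    exact pow_le_pow_left₀ hF0.le hkF (r - n))
  refine h1.trans (le_of_eq ?_)
  ring

end Pool.Agent.Lib.MP_44a246_ntAL
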