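import Pool.Agent.Lib.MP_44a246_ntAL.BadDefs
import Pool.Agent.Lib.MP_44a246_ntAL.AL2
import Pool.Agent.Lib.MP_44a246_ntAL.AL11
import Pool.Agent.Lib.MP_44a246_ntNU.NU6c

/-!
# The number of bad vectors in a class
-/

set_option autoImplicit false

open NumberField IsDedekindDomain Height
open Pool.Agent.Lib.MP_4d5ce1_nt (fa nv ordv)
open Pool.Agent.Lib.MP_44a246_ntNF
open Pool.Agent.Lib.MP_44a246_ntNU

namespace Pool.Agent.Lib.MP_44a246_ntAL

universe u

namespace AL17aux

section counting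

/-- Vectors with coordinates in a finite set, determined by some of the coordinates and a further
value. -/
lemma card_le_of_inj {ι E β : Type*} [DecidableEq E] (Y : Finset (ι → E)) (B : Finset E)
    (hB : ∀ y ∈ Y, ∀ i, y i ∈ B) (T : Finset ι) (F : (ι → E) → β) (V : Finset β)
    (hV : ∀ y ∈ Y, F y ∈ V)
    (hinj : ∀ y ∈ Y, ∀ y' ∈ Y, F y = F y' → (∀ i ∈ T, y i = y' i) → y = y') :
    Y.card ≤ V.card * B.card ^ T.card := by
  classical
  have h1 : Y.card ≤ (V ×ˢ Fintype.piFinset (fun _ : T => B)).card := by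
    refine Finset.card_le_card_of_injOn (fun y => (F y, fun i : T => y i)) ?_ ?_
    · intro y hy
      simp only [Finset.coe_product, Set.mem_prod, Finset.mem_coe, Fintype.mem_piFinset]
      exact ⟨hV y hy, fun i => hB y hy i⟩
    · intro y hy y' hy' h
      simp only [Prod.mk.injEq] at h
      refine hinj y hy y' hy' h.1 fun i hi => ?_
      exact congrFun h.2 ⟨i, hi⟩
  rw [Finset.card_product, Fintype.card_piFinset] at h1
  simpa using h1

variable {K : Type u} [Field K] {n q : ℕ}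

lemma oneform {E : Type*} [Field E] [Algebra K E] [DecidableEq E]
    (L : Fin q → Fin (n + 1) → K) (j : Fin q) (hj : L j ≠ 0)
    (Y : Finset (Fin (n + 1) → E)) (B : Finset E) (hB : ∀ y ∈ Y, ∀ i, y i ∈ B) :
    Y.card ≤ (Y.image fun y => lin (up E L j) y).card * B.card ^ n := by
  classical
  obtain ⟨i₀, hi₀⟩ : ∃ i₀, L j i₀ ≠ 0 := by
    by_contra hcon
    push Not at hcon
    exact hj (funext hcon)
  have h1 := card_le_of_inj Y B hB (Finset.univ.erase i₀) (fun y => lin (up E L j) y)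
    (Y.image fun y => lin (up E L j) y) (fun y hy => Finset.mem_image_of_mem _ hy) ?_
  · have h2 : (Finset.univ.erase i₀ : Finset (Fin (n + 1))).card = n := by
      rw [Finset.card_erase_of_mem (Finset.mem_univ _)]
      simp
    rwa [h2] at h1
  · intro y _ y' _ h hT
    funext i
    by_cases hi : i = i₀
    · subst hi
      simp only [lin, up] at h
      rw [← Finset.add_sum_erase _ _ (Finset.mem_univ i),
        ← Finset.add_sum_erase (a := i) Finset.univ (fun i => algebraMap K E (L j i) * y' i)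
          (Finset.mem_univ i)] at h
      have h3 : ∑ x ∈ Finset.univ.erase i, algebraMap K E (L j x) * y x =
          ∑ x ∈ Finset.univ.erase i, algebraMap K E (L j x) * y' x :=
        Finset.sum_congr rfl fun x hx => by rw [hT x hx]
      rw [h3] at h
      have h4 := add_right_cancel h
      have h5 : algebraMap K E (L j i) ≠ 0 := by
        simpa using hi₀
      exact mul_left_cancel₀ h5 h4
    · exact hT i (Finset.mem_erase.2 ⟨hi, Finset.mem_univ _⟩)

lemma exists_minor (x y : Fin (n + 1) → K) (h : LinearIndependent K ![x, y]) :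
    ∃ s t, s ≠ t ∧ x s * y t - x t * y s ≠ 0 := by
  by_contra hcon
  push Not at hcon
  have hx : x ≠ 0 := by
    have := h.ne_zero 0
    simpa using this
  obtain ⟨s, hs⟩ : ∃ s, x s ≠ 0 := by
    by_contra hc
    push Not at hc
    exact hx (funext hc)
  have h2 := LinearIndependent.pair_iff.1 h (y s) (-x s) ?_
  · exact hs (by simpa using h2.2)
  · funext t
    simp only [Pi.add_apply, Pi.smul_apply, smul_eq_mul, Pi.zero_apply]
    by_cases hst : s = t
    · subst hst
      ring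
    · have := hcon s t hst
      linear_combination -this

lemma twoform {E : Type*} [Field E] [Algebra K E] [DecidableEq E]
    (L : Fin q → Fin (n + 1) → K) (i j : Fin q) (hij : LinearIndependent K ![L i, L j])
    (Y : Finset (Fin (n + 1) → E)) (B : Finset E) (hB : ∀ y ∈ Y, ∀ i, y i ∈ B) :
    Y.card ≤ (Y.image fun y => lin (up E L i) y).card * (Y.image fun y => lin (up E L j) y).card *
      B.card ^ (n - 1) := by
  classical
  obtain ⟨s, t, hst, hm⟩ := exists_minor _ _ hij
  have h1 := card_le_of_inj Y B hB ((Finset.univ.erase s).erase t)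
    (fun y => (lin (up E L i) y, lin (up E L j) y))
    ((Y.image fun y => lin (up E L i) y) ×ˢ (Y.image fun y => lin (up E L j) y))
    (fun y hy => Finset.mem_product.2 ⟨Finset.mem_image_of_mem _ hy,
      Finset.mem_image_of_mem _ hy⟩) ?_
  · have hts : t ∈ (Finset.univ.erase s : Finset (Fin (n + 1))) :=
      Finset.mem_erase.2 ⟨fun h => hst h.symm, Finset.mem_univ _⟩
    have h2 : ((Finset.univ.erase s).erase t : Finset (Fin (n + 1))).card = n - 1 := by
      rw [Finset.card_erase_of_mem hts, Finset.card_erase_of_mem (Finset.mem_univ _)]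
      simp
    rw [h2, Finset.card_product] at h1
    exact h1
  · intro y _ y' _ h hT
    simp only [Prod.mk.injEq] at h
    have hts : t ∈ (Finset.univ.erase s : Finset (Fin (n + 1))) :=
      Finset.mem_erase.2 ⟨fun h => hst h.symm, Finset.mem_univ _⟩
    have key : ∀ l : Fin q, lin (up E L l) y = lin (up E L l) y' →
        algebraMap K E (L l s) * (y s - y' s) + algebraMap K E (L l t) * (y t - y' t) = 0 := by
      intro l hl
      simp only [lin, up] at hl
      rw [← Finset.add_sum_erase _ _ (Finset.mem_univ s), ← Finset.add_sum_erase _ _ hts,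
        ← Finset.add_sum_erase (a := s) Finset.univ (fun i => algebraMap K E (L l i) * y' i)
          (Finset.mem_univ s),
        ← Finset.add_sum_erase (a := t) (Finset.univ.erase s)
          (fun i => algebraMap K E (L l i) * y' i) hts] at hl
      have h3 : ∑ x ∈ (Finset.univ.erase s).erase t, algebraMap K E (L l x) * y x =
          ∑ x ∈ (Finset.univ.erase s).erase t, algebraMap K E (L l x) * y' x :=
        Finset.sum_congr rfl fun x hx => by rw [hT x hx]
      rw [h3] at hl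
      linear_combination hl
    have e1 := key i h.1
    have e2 := key j h.2
    have hm' : algebraMap K E (L i s) * algebraMap K E (L j t) -
        algebraMap K E (L i t) * algebraMap K E (L j s) ≠ 0 := by
      have h5 : algebraMap K E (L i s * L j t - L i t * L j s) ≠ 0 :=
        (map_ne_zero (algebraMap K E)).2 hm
      simpa only [map_sub, map_mul] using h5
    have hs0 : y s - y' s = 0 := by
      apply mul_left_cancel₀ hm'
      linear_combination algebraMap K E (L j t) * e1 - algebraMap K E (L i t) * e2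
    have ht0 : y t - y' t = 0 := by
      apply mul_left_cancel₀ hm'
      linear_combination algebraMap K E (L i s) * e2 - algebraMap K E (L j s) * e1
    funext x
    by_cases hxs : x = s
    · subst hxs
      exact sub_eq_zero.1 hs0
    · by_cases hxt : x = t
      · subst hxt
        exact sub_eq_zero.1 ht0
      · exact hT x (Finset.mem_erase.2 ⟨hxt, Finset.mem_erase.2 ⟨hxs, Finset.mem_univ _⟩⟩)

end counting

section weights

variable {E : Type*} [Field E] [NumberField E]

lemma hb_mul (a m : HeightOneSpectrum (𝓞 E) → ℝ) (b t : InfinitePlace E → ℝ)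
    (ha : (Function.mulSupport a).Finite) (hm : (Function.mulSupport m).Finite) :
    hb (fun w => a w * m w) (fun w => b w * t w) = hb a b * hb m t := by
  unfold hb
  rw [finprod_mul_distrib ha hm]
  simp only [mul_pow]
  rw [Finset.prod_mul_distrib]
  ring

lemma hb_pos (a : HeightOneSpectrum (𝓞 E) → ℝ) (b : InfinitePlace E → ℝ)
    (ha : ∀ w, 0 < a w) (hbp : ∀ w, 0 < b w) : 0 < hb a b := by
  unfold hb
  refine mul_pos ?_ (Finset.prod_pos fun w _ => pow_pos (hbp w) _)
  exact finprod_induction (fun x : ℝ => 0 < x) one_pos (fun x y hx hy => mul_pos hx hy) ha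

omit [NumberField E] in
lemma mulSupport_fin_of_subset (m : HeightOneSpectrum (𝓞 E) → ℝ)
    (S : Finset (HeightOneSpectrum (𝓞 E))) (h : ∀ w ∉ S, m w = 1) :
    (Function.mulSupport m).Finite := by
  refine S.finite_toSet.subset fun w hw => ?_
  by_contra hcon
  exact hw (h w hcon)

lemma Nk_pos (k : HeightOneSpectrum (𝓞 E) →₀ ℕ) : 0 < Nk k := by
  unfold Nk Finsupp.prod
  exact Finset.prod_pos fun w _ => pow_pos (Pool.Agent.Lib.MP_4d5ce1_nt.nv_pos w) _

lemma finprod_Nk (k : HeightOneSpectrum (𝓞 E) →₀ ℕ) (p : ℕ) :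
    ∏ᶠ w, ((nv w ^ (p * k w))⁻¹ : ℝ) = (Nk k ^ p)⁻¹ := by
  rw [finprod_eq_prod_of_mulSupport_subset (s := k.support)]
  · rw [Finset.prod_inv_distrib]
    congr 1
    unfold Nk Finsupp.prod
    rw [← Finset.prod_pow]
    refine Finset.prod_congr rfl fun w _ => ?_
    rw [← pow_mul, mul_comm]
  · intro w hw
    by_contra hcon
    apply hw
    have h0 : k w = 0 := by simpa using hcon
    simp [h0]

lemma supp_Nk (k : HeightOneSpectrum (𝓞 E) →₀ ℕ) (p : ℕ) :
    (Function.mulSupport fun w => ((nv w ^ (p * k w))⁻¹ : ℝ)).Finite := by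
  refine mulSupport_fin_of_subset _ k.support fun w hw => ?_
  have h0 : k w = 0 := by simpa using hw
  simp [h0]

/-- The characteristic function of a finite set of primes. -/
noncomputable def chi (W : Finset (HeightOneSpectrum (𝓞 E))) : HeightOneSpectrum (𝓞 E) →₀ ℕ :=
  Finsupp.indicator W fun _ _ => 1

omit [NumberField E] in
lemma chi_of_mem {W : Finset (HeightOneSpectrum (𝓞 E))} {w : HeightOneSpectrum (𝓞 E)}
    (h : w ∈ W) : chi W w = 1 := Finsupp.indicator_of_mem h _

omit [NumberField E] in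
lemma chi_of_notMem {W : Finset (HeightOneSpectrum (𝓞 E))} {w : HeightOneSpectrum (𝓞 E)}
    (h : w ∉ W) : chi W w = 0 := Finsupp.indicator_of_notMem h _

lemma mem_supp_chi {W : Finset (HeightOneSpectrum (𝓞 E))} {w : HeightOneSpectrum (𝓞 E)} :
    w ∈ (chi W).support ↔ w ∈ W := by
  rw [Finsupp.mem_support_iff]
  by_cases h : w ∈ W
  · simp [chi_of_mem h, h]
  · simp [chi_of_notMem h, h]

lemma Nk_chi (W : Finset (HeightOneSpectrum (𝓞 E))) : Nk (chi W) = NN W := by
  have hs : (chi W).support = W := by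
    ext w
    exact mem_supp_chi
  unfold Nk NN Finsupp.prod
  rw [hs]
  refine Finset.prod_congr rfl fun w hw => ?_
  simp only [chi_of_mem hw, pow_one]

omit [NumberField E] in
lemma infinite_sum_le (w : InfinitePlace E) {ι : Type*} (s : Finset ι) (f : ι → E) :
    w (∑ i ∈ s, f i) ≤ ∑ i ∈ s, w (f i) := by
  classical
  induction s using Finset.induction_on with
  | empty => simp
  | insert a s ha ih =>
    rw [Finset.sum_insert ha, Finset.sum_insert ha]
    exact (map_add_le_add w.1 _ _).trans (add_le_add le_rfl ih)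

end weights

section bad
variable {K : Type u} [Field K] [NumberField K] {n q : ℕ}

/-- Sum of the absolute values of all coefficients at the infinite places. -/
noncomputable def cI (L : Fin q → Fin (n + 1) → K) : ℝ :=
  ∑ v : InfinitePlace K, ∑ j, ∑ i, v (L j i)

lemma cI_nonneg (L : Fin q → Fin (n + 1) → K) : 0 ≤ cI L :=
  Finset.sum_nonneg fun v _ => Finset.sum_nonneg fun j _ => Finset.sum_nonneg fun i _ =>
    apply_nonneg _ _

lemma lin_inf_le {E : Type*} [Field E] [NumberField E] [Algebra K E]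
    (L : Fin q → Fin (n + 1) → K) (w : InfinitePlace E) (y : Fin (n + 1) → E) (t : ℝ) (ht : 0 ≤ t)
    (hy : ∀ i, w (y i) ≤ t) (j : Fin q) : w (lin (up E L j) y) ≤ cI L * t := by
  unfold lin up
  refine (infinite_sum_le w _ _).trans ?_
  have h1 : ∀ i, w (algebraMap K E (L j i) * y i) ≤ (w.comap (algebraMap K E)) (L j i) * t := by
    intro i
    rw [map_mul, InfinitePlace.comap_apply]
    exact mul_le_mul_of_nonneg_left (hy i) (apply_nonneg _ _)
  refine (Finset.sum_le_sum fun i _ => h1 i).trans ?_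
  rw [← Finset.sum_mul]
  refine mul_le_mul_of_nonneg_right ?_ ht
  unfold cI
  calc ∑ i, (w.comap (algebraMap K E)) (L j i) ≤
        ∑ j, ∑ i, (w.comap (algebraMap K E)) (L j i) :=
        Finset.single_le_sum (f := fun j => ∑ i, (w.comap (algebraMap K E)) (L j i))
          (fun j _ => Finset.sum_nonneg fun i _ => apply_nonneg _ _) (Finset.mem_univ j)
    _ ≤ _ := Finset.single_le_sum (f := fun v : InfinitePlace K => ∑ j, ∑ i, v (L j i))
          (fun v _ => Finset.sum_nonneg fun j _ => Finset.sum_nonneg fun i _ => apply_nonneg _ _)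
          (Finset.mem_univ _)

/-- Bound for the coefficients at the places in `S₀`. -/
noncomputable def cF (S₀ : Finset (HeightOneSpectrum (𝓞 K))) (L : Fin q → Fin (n + 1) → K) : ℝ :=
  1 + ∑ v ∈ S₀, ∑ j, ∑ i, fa v (L j i)

lemma one_le_cF (S₀ : Finset (HeightOneSpectrum (𝓞 K))) (L : Fin q → Fin (n + 1) → K) :
    1 ≤ cF S₀ L := by
  unfold cF
  have : 0 ≤ ∑ v ∈ S₀, ∑ j, ∑ i, fa v (L j i) :=
    Finset.sum_nonneg fun v _ => Finset.sum_nonneg fun j _ => Finset.sum_nonneg fun i _ =>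
      Pool.Agent.Lib.MP_4d5ce1_nt.fa_nonneg v _
  linarith

lemma le_cF (S₀ : Finset (HeightOneSpectrum (𝓞 K))) (L : Fin q → Fin (n + 1) → K)
    {v : HeightOneSpectrum (𝓞 K)} (hv : v ∈ S₀) (j : Fin q) (i : Fin (n + 1)) :
    fa v (L j i) ≤ cF S₀ L := by
  have h1 : fa v (L j i) ≤ ∑ i, fa v (L j i) :=
    Finset.single_le_sum (f := fun i => fa v (L j i))
      (fun i _ => Pool.Agent.Lib.MP_4d5ce1_nt.fa_nonneg v _) (Finset.mem_univ i)
  have h2 : ∑ i, fa v (L j i) ≤ ∑ j, ∑ i, fa v (L j i) :=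
    Finset.single_le_sum (f := fun j => ∑ i, fa v (L j i))
      (fun j _ => Finset.sum_nonneg fun i _ => Pool.Agent.Lib.MP_4d5ce1_nt.fa_nonneg v _)
      (Finset.mem_univ j)
  have h3 : ∑ j, ∑ i, fa v (L j i) ≤ ∑ v ∈ S₀, ∑ j, ∑ i, fa v (L j i) :=
    Finset.single_le_sum (f := fun v => ∑ j, ∑ i, fa v (L j i))
      (fun v _ => Finset.sum_nonneg fun j _ => Finset.sum_nonneg fun i _ =>
        Pool.Agent.Lib.MP_4d5ce1_nt.fa_nonneg v _) hv
  unfold cF
  linarith

open Classical in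
/-- The weight `A` at the places over `S₀`, and `1` elsewhere. -/
noncomputable def aw (E : Type*) [Field E] [NumberField E] [Algebra K E]
    (S₀ : Finset (HeightOneSpectrum (𝓞 K))) (A : ℝ) (w : HeightOneSpectrum (𝓞 E)) : ℝ :=
  if w ∈ above K E (S₀ : Set (HeightOneSpectrum (𝓞 K))) then A else 1

lemma one_le_aw (E : Type*) [Field E] [NumberField E] [Algebra K E]
    (S₀ : Finset (HeightOneSpectrum (𝓞 K))) {A : ℝ} (hA : 1 ≤ A) (w : HeightOneSpectrum (𝓞 E)) :
    1 ≤ aw E S₀ A w := by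
  unfold aw
  split_ifs
  · exact hA
  · exact le_rfl

lemma aw_supp (E : Type*) [Field E] [NumberField E] [Algebra K E]
    (S₀ : Finset (HeightOneSpectrum (𝓞 K))) (A : ℝ) :
    (Function.mulSupport (aw E S₀ A)).Finite := by
  obtain ⟨S', hS', -⟩ := above_finset (K := K) E S₀
  refine mulSupport_fin_of_subset _ S' fun w hw => ?_
  have h1 : w ∉ above K E (S₀ : Set (HeightOneSpectrum (𝓞 K))) := by
    rw [← hS']
    exact hw
  unfold aw
  rw [if_neg h1]

lemma finprod_aw_le (E : Type*) [Field E] [NumberField E] [Algebra K E]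
    (S₀ : Finset (HeightOneSpectrum (𝓞 K))) {A : ℝ} (hA : 1 ≤ A) :
    ∏ᶠ w, aw E S₀ A w ≤ A ^ (Module.finrank K E * S₀.card) := by
  obtain ⟨S', hS', hcard⟩ := above_finset (K := K) E S₀
  rw [finprod_eq_prod_of_mulSupport_subset (s := S')]
  · calc ∏ w ∈ S', aw E S₀ A w ≤ ∏ _w ∈ S', A := by
          refine Finset.prod_le_prod (fun w _ => le_trans zero_le_one (one_le_aw E S₀ hA w))
            fun w _ => ?_
          unfold aw
          split_ifs
          · exact le_rfl
          · exact hA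
      _ = A ^ S'.card := Finset.prod_const A
      _ ≤ _ := pow_le_pow_right₀ hA hcard
  · intro w hw
    by_contra hcon
    apply hw
    have h1 : w ∉ above K E (S₀ : Set (HeightOneSpectrum (𝓞 K))) := by
      rw [← hS']
      exact hcon
    unfold aw
    rw [if_neg h1]

lemma lin_fin_le {E : Type*} [Field E] [NumberField E] [Algebra K E]
    (S₀ : Finset (HeightOneSpectrum (𝓞 K))) (L : Fin q → Fin (n + 1) → K) (hS : GoodS S₀ L)
    (r : ℕ) (hr : Module.finrank K E = r) (w : HeightOneSpectrum (𝓞 E)) (y : Fin (n + 1) → E)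
    (j : Fin q) : fa w (lin (up E L j) y) ≤ aw E S₀ (cF S₀ L ^ r) w * tf y w := by
  have hA : 1 ≤ cF S₀ L ^ r := one_le_pow₀ (one_le_cF S₀ L)
  have hty : ∀ i, fa w (y i) ≤ tf y w := fun i =>
    le_ciSup (f := fun i => fa w (y i)) (Set.finite_range _).bddAbove i
  have ht0 : 0 ≤ tf y w := le_trans (Pool.Agent.Lib.MP_4d5ce1_nt.fa_nonneg w _) (hty 0)
  have hL : ∀ i, fa w (algebraMap K E (L j i)) ≤ aw E S₀ (cF S₀ L ^ r) w := by
    intro i
    obtain ⟨v, hv⟩ := exists_below (K := K) w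
    obtain ⟨m, hm, hmr, hfa⟩ := fa_up_lt_iff (K := K) (E := E) hv
    rw [hfa]
    by_cases hvS : v ∈ S₀
    · have hw : w ∈ above K E (S₀ : Set (HeightOneSpectrum (𝓞 K))) := ⟨v, hvS, hv⟩
      unfold aw
      rw [if_pos hw]
      calc fa v (L j i) ^ m ≤ cF S₀ L ^ m :=
            pow_le_pow_left₀ (Pool.Agent.Lib.MP_4d5ce1_nt.fa_nonneg v _) (le_cF S₀ L hvS j i) m
        _ ≤ _ := pow_le_pow_right₀ (one_le_cF S₀ L) (hr ▸ hmr)
    · refine le_trans (pow_le_one₀ (Pool.Agent.Lib.MP_4d5ce1_nt.fa_nonneg v _)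
        ((hS v hvS j).1 i)) (one_le_aw E S₀ hA w)
  unfold lin
  refine Pool.Agent.Lib.MP_4d5ce1_nt.fa_sum_le w _ _ _
    (mul_nonneg (le_trans zero_le_one (one_le_aw E S₀ hA w)) ht0) fun i _ => ?_
  rw [Pool.Agent.Lib.MP_4d5ce1_nt.fa_mul]
  exact mul_le_mul (hL i) (hty i) (Pool.Agent.Lib.MP_4d5ce1_nt.fa_nonneg w _)
    (le_trans zero_le_one (one_le_aw E S₀ hA w))

/-- The number of possible values of a form. -/
lemma vals (S₀ : Finset (HeightOneSpectrum (𝓞 K))) (A c : ℝ) (hA : 1 ≤ A) (hc : 1 ≤ c) (r : ℕ) :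
    ∃ C : ℝ, 1 ≤ C ∧ ∀ (E : Type u) [Field E] [NumberField E] [Algebra K E],
      Module.finrank K E = r →
      ∀ (a : HeightOneSpectrum (𝓞 E) → ℝ) (b : InfinitePlace E → ℝ), Adm a b →
      ∀ (m : HeightOneSpectrum (𝓞 E) → ℝ) (t : InfinitePlace E → ℝ), (∀ w, 0 < m w) →
        (Function.mulSupport m).Finite → (∀ w, 0 < t w) → ∀ V : Finset E,
        (∀ e ∈ V, e ≠ 0 ∧ (∀ w, fa w e ≤ aw E S₀ A w * a w * m w) ∧
          ∀ w : InfinitePlace E, w e ≤ c * b w * t w) →
        (V.card : ℝ) ≤ C * (hb a b * hb m t) := by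
  obtain ⟨C, hC, h⟩ := adelic_card.{u} (Module.finrank ℚ K * r)
  refine ⟨max 1 (C * (A ^ (r * S₀.card) * c ^ (Module.finrank ℚ K * r))), le_max_left _ _, ?_⟩
  intro E _ _ _ hr a b hab m t hm hms ht V hV
  have hD : Module.finrank ℚ E = Module.finrank ℚ K * r := by
    rw [← hr, Module.finrank_mul_finrank ℚ K E]
  have ha : ∀ w, 0 < a w := by
    intro w
    obtain ⟨k, hk⟩ := hab.pow w
    rw [hk]
    exact zpow_pos (Pool.Agent.Lib.MP_4d5ce1_nt.nv_pos w) _
  have haw : ∀ w, 0 < aw E S₀ A w := fun w => lt_of_lt_of_le one_pos (one_le_aw E S₀ hA w)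
  have hsupp1 : (Function.mulSupport fun w => aw E S₀ A w * a w).Finite :=
    ((aw_supp E S₀ A).union hab.fin).subset (Function.mulSupport_mul _ _)
  have hsupp : (Function.mulSupport fun w => aw E S₀ A w * a w * m w).Finite :=
    (hsupp1.union hms).subset (Function.mulSupport_mul _ _)
  have hc0 : (0 : ℝ) < c := lt_of_lt_of_le one_pos hc
  have h1 := h E hD.le (fun w => aw E S₀ A w * a w * m w) (fun w => c * b w * t w)
    (fun w => mul_pos (mul_pos (haw w) (ha w)) (hm w)) hsupp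
    (fun w => mul_pos (mul_pos hc0 (hab.pos w)) (ht w)) V ?_
  · have h2 : hb (fun w => aw E S₀ A w * a w * m w) (fun w => c * b w * t w) =
        hb (aw E S₀ A) (fun _ => c) * hb a b * hb m t := by
      rw [hb_mul (fun w => aw E S₀ A w * a w) m (fun w => c * b w) t hsupp1 hms,
        hb_mul (aw E S₀ A) a (fun _ => c) b (aw_supp E S₀ A) hab.fin]
    have h3 : hb (aw E S₀ A) (fun _ => c) ≤
        A ^ (r * S₀.card) * c ^ (Module.finrank ℚ K * r) := by
      unfold hb
      have h4 : ∏ w : InfinitePlace E, c ^ w.mult = c ^ (Module.finrank ℚ K * r) := by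
        rw [Finset.prod_pow_eq_pow_sum, InfinitePlace.sum_mult_eq, hD]
      rw [h4]
      refine mul_le_mul_of_nonneg_right ?_ (pow_nonneg hc0.le _)
      have h5 := finprod_aw_le (K := K) E S₀ hA
      rwa [hr] at h5
    rw [h2] at h1
    have hpos : 0 ≤ hb a b * hb m t := (mul_pos (hb_pos a b ha hab.pos) (hb_pos m t hm ht)).le
    calc (V.card : ℝ) ≤ C * (hb (aw E S₀ A) (fun _ => c) * hb a b * hb m t) := h1
      _ = C * hb (aw E S₀ A) (fun _ => c) * (hb a b * hb m t) := by ring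
      _ ≤ C * (A ^ (r * S₀.card) * c ^ (Module.finrank ℚ K * r)) * (hb a b * hb m t) :=
          mul_le_mul_of_nonneg_right (mul_le_mul_of_nonneg_left h3 hC.le) hpos
      _ ≤ _ := mul_le_mul_of_nonneg_right (le_max_right _ _) hpos
  · intro e he
    obtain ⟨h1, h2, h3⟩ := hV e he
    refine ⟨h1, h2, fun w => ?_⟩
    rw [one_mul]
    exact h3 w

lemma card_inf_le (E : Type*) [Field E] [NumberField E] :
    Fintype.card (InfinitePlace E) ≤ Module.finrank ℚ E := by
  rw [← InfinitePlace.sum_mult_eq (K := E), ← Finset.card_univ, Finset.card_eq_sum_ones]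
  exact Finset.sum_le_sum fun w _ => InfinitePlace.mult_pos

end bad

end AL17aux

open AL17aux

/-- AL17 : the number of bad vectors in a class -/
theorem bad_count {K : Type u} [Field K] [NumberField K] {n q : ℕ} (S₀ : Finset (HeightOneSpectrum (𝓞 K))) (L : Fin q → Fin (n + 1) → K)
    (hS : GoodS S₀ L) (hL : ∀ i j, i ≠ j → LinearIndependent K ![L i, L j])
    (hL0 : ∀ j, L j ≠ 0) (hn : 1 ≤ n) (r : ℕ) : ∃ C : ℝ, 1 ≤ C ∧
    ∀ (E : Type u) [Field E] [NumberField E] [Algebra K E], Module.finrank K E = r →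
      ∀ (a : HeightOneSpectrum (𝓞 E) → ℝ) (b : InfinitePlace E → ℝ), Adm a b → 1 ≤ hb a b →
      ∀ ε : ℝ, 0 < ε → ε ≤ 1 → ∀ Y : Finset (Fin (n + 1) → E),
      (∀ y ∈ Y, tf y = a ∧ (∀ w, ti y w ≤ 3 * b w) ∧ (∀ j, lin (up E L j) y ≠ 0) ∧
        Bad S₀ L ε y) →
      (Y.card : ℝ) ≤ C * ε ^ (1 / 2 : ℝ) * (hb a b / (Bx a b 1).ncard) ^ 2 *
        ((Bx a b 1).ncard : ℝ) ^ (n + 1) := by
  classical
  set A : ℝ := cF S₀ L ^ r with hA
  have hA1 : 1 ≤ A := one_le_pow₀ (one_le_cF S₀ L)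
  set c : ℝ := 3 * (1 + cI L) with hc
  have hc3 : 3 ≤ c := by
    have := cI_nonneg L
    rw [hc]
    linarith
  obtain ⟨C₁, hC₁, hvals⟩ := vals.{u} (K := K) S₀ A c hA1 (by linarith) r
  set D : ℕ := Module.finrank ℚ K * r with hDdef
  obtain ⟨C₂, hC₂, hgrow⟩ := ncard_growth.{u} D
  obtain ⟨C₃, hC₃, hle⟩ := ncard_le.{u} D
  obtain ⟨C₄, hC₄, hsum⟩ := sum_ideals.{u} D 2 (1 / 2) (by norm_num) (by norm_num)
  set G : ℝ := C₂ * 4 ^ D with hGdef
  have hG0 : 0 ≤ G := by positivity
  refine ⟨max 1 ((q * D + q * (r * S₀.card) + q * C₄) * C₁ * G ^ n * (1 + C₃) +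
    q * q * C₁ ^ 2 * C₄ * G ^ (n - 1)), le_max_left _ _, ?_⟩
  intro E _ _ _ hr a b hab hh ε hε hε1 Y hY
  have hD : Module.finrank ℚ E = D := by
    rw [hDdef, ← hr, Module.finrank_mul_finrank ℚ K E]
  set h : ℝ := hb a b with hhdef
  set Φ : ℝ := ((Bx a b 1).ncard : ℝ) with hΦdef
  have ha : ∀ w, 0 < a w := by
    intro w
    obtain ⟨k, hk⟩ := hab.pow w
    rw [hk]
    exact zpow_pos (Pool.Agent.Lib.MP_4d5ce1_nt.nv_pos w) _
  have hΦ1 : 1 ≤ Φ := by
    have h0 : (0 : E) ∈ Bx a b 1 := by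
      refine ⟨fun w => ?_, fun w => ?_⟩
      · rw [Pool.Agent.Lib.MP_4d5ce1_nt.fa_zero]
        exact (ha w).le
      · rw [map_zero, one_mul]
        exact (hab.pos w).le
    have h1 : 0 < (Bx a b 1).ncard := (Set.ncard_pos (box_finite hab 1)).2 ⟨0, h0⟩
    rw [hΦdef]
    exact_mod_cast h1
  have hΦ0 : 0 < Φ := lt_of_lt_of_le one_pos hΦ1
  have hΦh : Φ ≤ (1 + C₃) * h := by
    have h1 := hle E hD.le a b hab 1 one_pos
    rw [one_pow, mul_one] at h1
    nlinarith [h1, hh]
  set Bf : Finset E := (box_finite hab 3).toFinset with hBfdef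
  have hBf : (Bf.card : ℝ) ≤ G * Φ := by
    have h1 := hgrow E hD.le a b hab 3 1 (by norm_num) one_pos
    rw [hD] at h1
    have h2 : (Bx a b 3).ncard = Bf.card := Set.ncard_eq_toFinset_card _ (box_finite hab 3)
    rw [h2] at h1
    have h3 : (1 + 3 / 1 : ℝ) = 4 := by norm_num
    rw [h3] at h1
    exact h1
  have hcoord : ∀ y ∈ Y, ∀ i, y i ∈ Bf := by
    intro y hy i
    obtain ⟨h1, h2, -, -⟩ := hY y hy
    rw [hBfdef, Set.Finite.mem_toFinset]
    refine ⟨fun w => ?_, fun w => ?_⟩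
    · rw [← h1]
      exact le_ciSup (f := fun i => fa w (y i)) (Set.finite_range _).bddAbove i
    · exact le_trans (le_ciSup (f := fun i => w (y i)) (Set.finite_range _).bddAbove i) (h2 w)
  have hfin : ∀ y ∈ Y, ∀ j w, fa w (lin (up E L j) y) ≤ aw E S₀ A w * a w := by
    intro y hy j w
    have h1 := lin_fin_le S₀ L hS r hr w y j
    rwa [(hY y hy).1] at h1
  have hinf : ∀ y ∈ Y, ∀ j, ∀ w : InfinitePlace E, w (lin (up E L j) y) ≤ c * b w := by
    intro y hy j w
    have hb0 := hab.pos w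
    have h1 := lin_inf_le L w y (3 * b w) (by positivity) (fun i =>
      le_trans (le_ciSup (f := fun i => w (y i)) (Set.finite_range _).bddAbove i)
        ((hY y hy).2.1 w)) j
    refine h1.trans ?_
    rw [hc]
    nlinarith [cI_nonneg L]
  have haw : ∀ w, 1 ≤ aw E S₀ A w := one_le_aw E S₀ hA1
  have hval : ∀ Y' ⊆ Y, ∀ (j : Fin q) (m : HeightOneSpectrum (𝓞 E) → ℝ)
      (t : InfinitePlace E → ℝ), (∀ w, 0 < m w) → (Function.mulSupport m).Finite →
      (∀ w, 0 < t w) → (∀ y ∈ Y', (∀ w, fa w (lin (up E L j) y) ≤ aw E S₀ A w * a w * m w) ∧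
        ∀ w : InfinitePlace E, w (lin (up E L j) y) ≤ c * b w * t w) →
      ((Y'.image fun y => lin (up E L j) y).card : ℝ) ≤ C₁ * (h * hb m t) := by
    intro Y' hY' j m t hm hms ht hy
    refine hvals E hr a b hab m t hm hms ht _ fun e he => ?_
    obtain ⟨y, hyY, rfl⟩ := Finset.mem_image.1 he
    exact ⟨(hY y (hY' hyY)).2.2.1 j, (hy y hyY).1, (hy y hyY).2⟩
  have one : ∀ Y' ⊆ Y, ∀ (j : Fin q) (m : HeightOneSpectrum (𝓞 E) → ℝ)
      (t : InfinitePlace E → ℝ), (∀ w, 0 < m w) → (Function.mulSupport m).Finite →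
      (∀ w, 0 < t w) → (∀ y ∈ Y', (∀ w, fa w (lin (up E L j) y) ≤ aw E S₀ A w * a w * m w) ∧
        ∀ w : InfinitePlace E, w (lin (up E L j) y) ≤ c * b w * t w) →
      (Y'.card : ℝ) ≤ C₁ * (h * hb m t) * (G * Φ) ^ n := by
    intro Y' hY' j m t hm hms ht hy
    have h1 := oneform L j (hL0 j) Y' Bf (fun y hyY i => hcoord y (hY' hyY) i)
    have h2 := hval Y' hY' j m t hm hms ht hy
    have h3 : (Y'.card : ℝ) ≤ ((Y'.image fun y => lin (up E L j) y).card : ℝ) *
        (Bf.card : ℝ) ^ n := by exact_mod_cast h1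
    refine h3.trans (mul_le_mul h2 (pow_le_pow_left₀ (Nat.cast_nonneg _) hBf n)
      (pow_nonneg (Nat.cast_nonneg _) n) ?_)
    exact le_trans (Nat.cast_nonneg _) h2
  have two : ∀ Y' ⊆ Y, ∀ (i j : Fin q), i ≠ j → ∀ (m : HeightOneSpectrum (𝓞 E) → ℝ)
      (t : InfinitePlace E → ℝ), (∀ w, 0 < m w) → (Function.mulSupport m).Finite →
      (∀ w, 0 < t w) → (∀ l ∈ ({i, j} : Finset (Fin q)), ∀ y ∈ Y',
        (∀ w, fa w (lin (up E L l) y) ≤ aw E S₀ A w * a w * m w) ∧
        ∀ w : InfinitePlace E, w (lin (up E L l) y) ≤ c * b w * t w) →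
      (Y'.card : ℝ) ≤ (C₁ * (h * hb m t)) ^ 2 * (G * Φ) ^ (n - 1) := by
    intro Y' hY' i j hij m t hm hms ht hy
    have h1 := twoform L i j (hL i j hij) Y' Bf (fun y hyY i => hcoord y (hY' hyY) i)
    have h2 := hval Y' hY' i m t hm hms ht (hy i (by simp))
    have h2' := hval Y' hY' j m t hm hms ht (hy j (by simp))
    have h3 : (Y'.card : ℝ) ≤ ((Y'.image fun y => lin (up E L i) y).card : ℝ) *
        ((Y'.image fun y => lin (up E L j) y).card : ℝ) * (Bf.card : ℝ) ^ (n - 1) := by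
      exact_mod_cast h1
    refine h3.trans (mul_le_mul ?_ (pow_le_pow_left₀ (Nat.cast_nonneg _) hBf (n - 1))
      (pow_nonneg (Nat.cast_nonneg _) _) (by positivity))
    rw [pow_two]
    exact mul_le_mul h2 h2' (Nat.cast_nonneg _) (le_trans (Nat.cast_nonneg _) h2)
  have hx : ε ≤ ε ^ (1 / 2 : ℝ) := by
    have h1 := Real.rpow_le_rpow_of_exponent_ge hε hε1 (show (1 / 2 : ℝ) ≤ 1 by norm_num)
    rwa [Real.rpow_one] at h1
  have hx0 : 0 < ε ^ (1 / 2 : ℝ) := Real.rpow_pos_of_pos hε _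
  have hh0 : 0 < h := lt_of_lt_of_le one_pos hh
  have cover : ∀ {ι : Type u} (Z : Finset (Fin (n + 1) → E)) (I : Finset ι)
      (P : ι → Finset (Fin (n + 1) → E)), Z ⊆ I.biUnion P →
      (Z.card : ℝ) ≤ ∑ i ∈ I, ((P i).card : ℝ) := by
    intro ι Z I P hZ
    have h1 := (Finset.card_le_card hZ).trans Finset.card_biUnion_le
    exact_mod_cast h1
  have hsumN : ∀ I : Finset (HeightOneSpectrum (𝓞 E) →₀ ℕ), (∀ k ∈ I, 1 ≤ ε * Nk k) →
      ∑ k ∈ I, ((Nk k ^ 2)⁻¹ : ℝ) ≤ C₄ * ε ^ (1 / 2 : ℝ) := by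
    intro I hI
    have h1 := hsum E hD.le ε⁻¹ (by rw [one_le_inv₀ hε]; exact hε1) I fun k hk => by
      rw [inv_le_iff_one_le_mul₀ hε, mul_comm]
      exact hI k hk
    have h2 : ∀ k ∈ I, ((Nk k ^ 2)⁻¹ : ℝ) = Nk k ^ (-(2 : ℝ)) := by
      intro k _
      rw [Real.rpow_neg (Nk_pos k).le, Real.rpow_two]
    rw [Finset.sum_congr rfl h2]
    refine h1.trans (le_of_eq ?_)
    congr 1
    rw [Real.inv_rpow hε.le, ← Real.rpow_neg hε.le]
    norm_num
  have hone_t : ∀ w : InfinitePlace E, (0 : ℝ) < (fun _ => 1 : InfinitePlace E → ℝ) w :=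
    fun _ => one_pos
  have hb_one_t : ∀ m : HeightOneSpectrum (𝓞 E) → ℝ, hb m (fun _ => 1) = ∏ᶠ w, m w := by
    intro m
    unfold hb
    simp
  have hGΦ : 0 ≤ (G * Φ) ^ n := by positivity
  -- the infinite places
  have case1 : ((Y.filter fun y => ∃ (j : Fin q) (w : InfinitePlace E),
      w (lin (up E L j) y) ≤ ε * ti y w).card : ℝ) ≤ q * D * (C₁ * (h * ε) * (G * Φ) ^ n) := by
    have h1 := cover (Y.filter fun y => ∃ (j : Fin q) (w : InfinitePlace E),
      w (lin (up E L j) y) ≤ ε * ti y w) (Finset.univ : Finset (Fin q × InfinitePlace E))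
      (fun p => Y.filter fun y => p.2 (lin (up E L p.1) y) ≤ ε * ti y p.2) ?_
    · refine h1.trans ?_
      have h2 : ∀ p ∈ (Finset.univ : Finset (Fin q × InfinitePlace E)),
          ((Y.filter fun y => p.2 (lin (up E L p.1) y) ≤ ε * ti y p.2).card : ℝ) ≤
            C₁ * (h * ε) * (G * Φ) ^ n := by
        rintro ⟨j, w₀⟩ -
        have h3 := one (Y.filter fun y => w₀ (lin (up E L j) y) ≤ ε * ti y w₀)
          (Finset.filter_subset _ _) j (fun _ => 1) (fun w => if w = w₀ then ε else 1)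
          (fun _ => one_pos) (by simp) (fun w => by split_ifs; exacts [hε, one_pos]) ?_
        · refine h3.trans (mul_le_mul_of_nonneg_right ?_ hGΦ)
          refine mul_le_mul_of_nonneg_left (mul_le_mul_of_nonneg_left ?_ hh0.le) (by linarith)
          unfold hb
          rw [finprod_one, one_mul, Finset.prod_eq_single w₀]
          · beta_reduce
            rw [if_pos rfl]
            calc ε ^ w₀.mult ≤ ε ^ 1 := pow_le_pow_of_le_one hε.le hε1 InfinitePlace.mult_pos
              _ = ε := pow_one ε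
          · intro w _ hw
            beta_reduce
            rw [if_neg hw, one_pow]
          · intro hcon
            exact absurd (Finset.mem_univ _) hcon
        · intro y hy
          obtain ⟨hyY, hyw⟩ := Finset.mem_filter.1 hy
          refine ⟨fun w => by rw [mul_one]; exact hfin y hyY j w, fun w => ?_⟩
          split_ifs with hw
          · subst hw
            have hb0 := hab.pos w
            have h4 : ε * ti y w ≤ ε * (3 * b w) :=
              mul_le_mul_of_nonneg_left ((hY y hyY).2.1 w) hε.le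
            have h5 : 3 * b w ≤ c * b w := mul_le_mul_of_nonneg_right hc3 hb0.le
            calc w (lin (up E L j) y) ≤ ε * (3 * b w) := hyw.trans h4
              _ ≤ ε * (c * b w) := mul_le_mul_of_nonneg_left h5 hε.le
              _ = c * b w * ε := by ring
          · rw [mul_one]
            exact hinf y hyY j w
      refine (Finset.sum_le_card_nsmul _ _ _ h2).trans ?_
      rw [Finset.card_univ, Fintype.card_prod, Fintype.card_fin, nsmul_eq_mul, Nat.cast_mul]
      have h6 : (Fintype.card (InfinitePlace E) : ℝ) ≤ D := by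
        have := card_inf_le E
        rw [hD] at this
        exact_mod_cast this
      have h7 : 0 ≤ C₁ * (h * ε) * (G * Φ) ^ n := by positivity
      exact mul_le_mul_of_nonneg_right (mul_le_mul_of_nonneg_left h6 (Nat.cast_nonneg _)) h7
    · intro y hy
      obtain ⟨hyY, j, w, hjw⟩ := Finset.mem_filter.1 hy
      exact Finset.mem_biUnion.2 ⟨(j, w), Finset.mem_univ _, Finset.mem_filter.2 ⟨hyY, hjw⟩⟩
  -- the places over `S₀`
  obtain ⟨S', hS', hS'c⟩ := above_finset (K := K) E S₀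
  have case2 : ((Y.filter fun y => ∃ (j : Fin q) (w : HeightOneSpectrum (𝓞 E)),
      w ∈ above K E (S₀ : Set (HeightOneSpectrum (𝓞 K))) ∧
        fa w (lin (up E L j) y) ≤ ε * tf y w).card : ℝ) ≤
      q * (r * S₀.card) * (C₁ * (h * ε) * (G * Φ) ^ n) := by
    have h1 := cover (Y.filter fun y => ∃ (j : Fin q) (w : HeightOneSpectrum (𝓞 E)),
      w ∈ above K E (S₀ : Set (HeightOneSpectrum (𝓞 K))) ∧
        fa w (lin (up E L j) y) ≤ ε * tf y w)
      ((Finset.univ : Finset (Fin q)) ×ˢ S')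
      (fun p => Y.filter fun y => fa p.2 (lin (up E L p.1) y) ≤ ε * tf y p.2) ?_
    · refine h1.trans ?_
      have h2 : ∀ p ∈ (Finset.univ : Finset (Fin q)) ×ˢ S',
          ((Y.filter fun y => fa p.2 (lin (up E L p.1) y) ≤ ε * tf y p.2).card : ℝ) ≤
            C₁ * (h * ε) * (G * Φ) ^ n := by
        rintro ⟨j, w₀⟩ -
        have h3 := one (Y.filter fun y => fa w₀ (lin (up E L j) y) ≤ ε * tf y w₀)
          (Finset.filter_subset _ _) j (fun w => if w = w₀ then ε else 1) (fun _ => 1)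
          (fun w => by split_ifs; exacts [hε, one_pos])
          (mulSupport_fin_of_subset _ {w₀} fun w hw => if_neg (by simpa using hw)) hone_t ?_
        · refine h3.trans (mul_le_mul_of_nonneg_right ?_ hGΦ)
          refine mul_le_mul_of_nonneg_left (mul_le_mul_of_nonneg_left ?_ hh0.le) (by linarith)
          rw [hb_one_t, finprod_eq_single _ w₀ fun w hw => if_neg hw, if_pos rfl]
        · intro y hy
          obtain ⟨hyY, hyw⟩ := Finset.mem_filter.1 hy
          refine ⟨fun w => ?_, fun w => by rw [mul_one]; exact hinf y hyY j w⟩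
          split_ifs with hw
          · subst hw
            rw [(hY y hyY).1] at hyw
            have h5 : a w ≤ aw E S₀ A w * a w := le_mul_of_one_le_left (ha w).le (haw w)
            calc fa w (lin (up E L j) y) ≤ ε * a w := hyw
              _ ≤ ε * (aw E S₀ A w * a w) := mul_le_mul_of_nonneg_left h5 hε.le
              _ = aw E S₀ A w * a w * ε := by ring
          · rw [mul_one]
            exact hfin y hyY j w
      refine (Finset.sum_le_card_nsmul _ _ _ h2).trans ?_
      rw [Finset.card_product, Finset.card_univ, Fintype.card_fin, nsmul_eq_mul, Nat.cast_mul]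
      have h6 : (S'.card : ℝ) ≤ r * S₀.card := by
        rw [hr] at hS'c
        exact_mod_cast hS'c
      have h7 : 0 ≤ C₁ * (h * ε) * (G * Φ) ^ n := by positivity
      exact mul_le_mul_of_nonneg_right (mul_le_mul_of_nonneg_left h6 (Nat.cast_nonneg _)) h7
    · intro y hy
      obtain ⟨hyY, j, w, hw, hjw⟩ := Finset.mem_filter.1 hy
      have hwS : w ∈ S' := by
        have h3 : w ∈ (S' : Set (HeightOneSpectrum (𝓞 E))) := by
          rw [hS']
          exact hw
        exact h3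
      exact Finset.mem_biUnion.2 ⟨(j, w), Finset.mem_product.2 ⟨Finset.mem_univ _, hwS⟩,
        Finset.mem_filter.2 ⟨hyY, hjw⟩⟩
  -- squares of ideals
  have case3 : ((Y.filter fun y => ∃ (j : Fin q) (k : HeightOneSpectrum (𝓞 E) →₀ ℕ),
      (∀ w ∈ k.support, w ∉ above K E (S₀ : Set (HeightOneSpectrum (𝓞 K)))) ∧ 1 ≤ ε * Nk k ∧
      ∀ w ∈ k.support, fa w (lin (up E L j) y) * nv w ^ (2 * k w) ≤ tf y w).card : ℝ) ≤
      q * (C₁ * h * (C₄ * ε ^ (1 / 2 : ℝ)) * (G * Φ) ^ n) := by
    have hch : ∀ y ∈ (Y.filter fun y => ∃ (j : Fin q) (k : HeightOneSpectrum (𝓞 E) →₀ ℕ),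
        (∀ w ∈ k.support, w ∉ above K E (S₀ : Set (HeightOneSpectrum (𝓞 K)))) ∧ 1 ≤ ε * Nk k ∧
        ∀ w ∈ k.support, fa w (lin (up E L j) y) * nv w ^ (2 * k w) ≤ tf y w),
        ∃ (k : HeightOneSpectrum (𝓞 E) →₀ ℕ), ∃ j : Fin q, 1 ≤ ε * Nk k ∧
        ∀ w ∈ k.support, fa w (lin (up E L j) y) * nv w ^ (2 * k w) ≤ tf y w := by
      intro y hy
      obtain ⟨_, j, k, _, h1, h2⟩ := Finset.mem_filter.1 hy
      exact ⟨k, j, h1, h2⟩
    choose! kf hkf using hch
    set Z := (Y.filter fun y => ∃ (j : Fin q) (k : HeightOneSpectrum (𝓞 E) →₀ ℕ),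
      (∀ w ∈ k.support, w ∉ above K E (S₀ : Set (HeightOneSpectrum (𝓞 K)))) ∧ 1 ≤ ε * Nk k ∧
      ∀ w ∈ k.support, fa w (lin (up E L j) y) * nv w ^ (2 * k w) ≤ tf y w) with hZ
    have hI : ∀ k ∈ Z.image kf, 1 ≤ ε * Nk k := by
      intro k hk
      obtain ⟨y, hy, rfl⟩ := Finset.mem_image.1 hk
      obtain ⟨j, h1, -⟩ := hkf y hy
      exact h1
    have h1 := cover Z ((Finset.univ : Finset (Fin q)) ×ˢ Z.image kf)
      (fun p => Y.filter fun y => ∀ w ∈ p.2.support,
        fa w (lin (up E L p.1) y) * nv w ^ (2 * p.2 w) ≤ tf y w) ?_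
    · refine h1.trans ?_
      have h2 : ∀ p ∈ (Finset.univ : Finset (Fin q)) ×ˢ Z.image kf,
          ((Y.filter fun y => ∀ w ∈ p.2.support,
            fa w (lin (up E L p.1) y) * nv w ^ (2 * p.2 w) ≤ tf y w).card : ℝ) ≤
            C₁ * h * (G * Φ) ^ n * (Nk p.2 ^ 2)⁻¹ := by
        rintro ⟨j, k⟩ -
        have h3 := one (Y.filter fun y => ∀ w ∈ k.support,
            fa w (lin (up E L j) y) * nv w ^ (2 * k w) ≤ tf y w)
          (Finset.filter_subset _ _) j (fun w => (nv w ^ (2 * k w))⁻¹) (fun _ => 1)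
          (fun w => inv_pos.2 (pow_pos (Pool.Agent.Lib.MP_4d5ce1_nt.nv_pos w) _))
          (supp_Nk k 2) hone_t ?_
        · refine h3.trans (le_of_eq ?_)
          rw [hb_one_t, finprod_Nk]
          ring
        · intro y hy
          obtain ⟨hyY, hyw⟩ := Finset.mem_filter.1 hy
          refine ⟨fun w => ?_, fun w => by rw [mul_one]; exact hinf y hyY j w⟩
          by_cases hw : w ∈ k.support
          · have h4 := hyw w hw
            rw [(hY y hyY).1] at h4
            have h5 : a w ≤ aw E S₀ A w * a w := le_mul_of_one_le_left (ha w).le (haw w)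
            rw [← div_eq_mul_inv, le_div_iff₀
              (pow_pos (Pool.Agent.Lib.MP_4d5ce1_nt.nv_pos w) _)]
            exact h4.trans h5
          · have h0 : k w = 0 := by simpa using hw
            rw [h0, mul_zero, pow_zero, inv_one, mul_one]
            exact hfin y hyY j w
      refine (Finset.sum_le_sum h2).trans ?_
      rw [Finset.sum_product]
      simp only [← Finset.mul_sum]
      rw [Finset.sum_const, Finset.card_univ, Fintype.card_fin, nsmul_eq_mul]
      have hq0 : (0 : ℝ) ≤ q := Nat.cast_nonneg _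
      rw [mul_left_comm]
      refine mul_le_mul_of_nonneg_left ?_ hq0
      have h7 : 0 ≤ C₁ * h * (G * Φ) ^ n := by positivity
      calc C₁ * h * (G * Φ) ^ n * ∑ k ∈ Z.image kf, ((Nk k ^ 2)⁻¹ : ℝ) ≤
            C₁ * h * (G * Φ) ^ n * (C₄ * ε ^ (1 / 2 : ℝ)) :=
            mul_le_mul_of_nonneg_left (hsumN _ hI) h7
        _ = _ := by ring
    · intro y hy
      obtain ⟨j, -, h2⟩ := hkf y hy
      exact Finset.mem_biUnion.2 ⟨(j, kf y), Finset.mem_product.2
        ⟨Finset.mem_univ _, Finset.mem_image_of_mem _ hy⟩,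
        Finset.mem_filter.2 ⟨(Finset.mem_filter.1 hy).1, h2⟩⟩
  -- two forms
  have case4 : ((Y.filter fun y => ∃ (i j : Fin q) (W : Finset (HeightOneSpectrum (𝓞 E))),
      i ≠ j ∧ (∀ w ∈ W, w ∉ above K E (S₀ : Set (HeightOneSpectrum (𝓞 K)))) ∧ 1 ≤ ε * NN W ∧
      ∀ w ∈ W, fa w (lin (up E L i) y) * nv w ≤ tf y w ∧
        fa w (lin (up E L j) y) * nv w ≤ tf y w).card : ℝ) ≤
      q * q * (C₁ ^ 2 * h ^ 2 * (C₄ * ε ^ (1 / 2 : ℝ)) * (G * Φ) ^ (n - 1)) := by
    have hch : ∀ y ∈ (Y.filter fun y => ∃ (i j : Fin q) (W : Finset (HeightOneSpectrum (𝓞 E))),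
        i ≠ j ∧ (∀ w ∈ W, w ∉ above K E (S₀ : Set (HeightOneSpectrum (𝓞 K)))) ∧ 1 ≤ ε * NN W ∧
        ∀ w ∈ W, fa w (lin (up E L i) y) * nv w ≤ tf y w ∧
          fa w (lin (up E L j) y) * nv w ≤ tf y w),
        ∃ (k : HeightOneSpectrum (𝓞 E) →₀ ℕ), ∃ i j : Fin q, i ≠ j ∧ 1 ≤ ε * Nk k ∧
        ∀ w ∈ k.support, fa w (lin (up E L i) y) * nv w ^ (1 * k w) ≤ tf y w ∧
          fa w (lin (up E L j) y) * nv w ^ (1 * k w) ≤ tf y w := by
      intro y hy
      obtain ⟨_, i, j, W, hij, _, h1, h2⟩ := Finset.mem_filter.1 hy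
      refine ⟨chi W, i, j, hij, ?_, fun w hw => ?_⟩
      · rw [Nk_chi]
        exact h1
      · have hwW := mem_supp_chi.1 hw
        rw [chi_of_mem hwW, mul_one, pow_one]
        exact h2 w hwW
    choose! kf hkf using hch
    set Z := (Y.filter fun y => ∃ (i j : Fin q) (W : Finset (HeightOneSpectrum (𝓞 E))),
        i ≠ j ∧ (∀ w ∈ W, w ∉ above K E (S₀ : Set (HeightOneSpectrum (𝓞 K)))) ∧ 1 ≤ ε * NN W ∧
        ∀ w ∈ W, fa w (lin (up E L i) y) * nv w ≤ tf y w ∧
          fa w (lin (up E L j) y) * nv w ≤ tf y w) with hZ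
    have hI : ∀ k ∈ Z.image kf, 1 ≤ ε * Nk k := by
      intro k hk
      obtain ⟨y, hy, rfl⟩ := Finset.mem_image.1 hk
      obtain ⟨i, j, _, h1, -⟩ := hkf y hy
      exact h1
    have h1 := cover Z (((Finset.univ : Finset (Fin q × Fin q))) ×ˢ Z.image kf)
      (fun p => Y.filter fun y => p.1.1 ≠ p.1.2 ∧ ∀ w ∈ p.2.support,
        fa w (lin (up E L p.1.1) y) * nv w ^ (1 * p.2 w) ≤ tf y w ∧
        fa w (lin (up E L p.1.2) y) * nv w ^ (1 * p.2 w) ≤ tf y w) ?_
    · refine h1.trans ?_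
      have h2 : ∀ p ∈ ((Finset.univ : Finset (Fin q × Fin q))) ×ˢ Z.image kf,
          ((Y.filter fun y => p.1.1 ≠ p.1.2 ∧ ∀ w ∈ p.2.support,
            fa w (lin (up E L p.1.1) y) * nv w ^ (1 * p.2 w) ≤ tf y w ∧
            fa w (lin (up E L p.1.2) y) * nv w ^ (1 * p.2 w) ≤ tf y w).card : ℝ) ≤
            C₁ ^ 2 * h ^ 2 * (G * Φ) ^ (n - 1) * (Nk p.2 ^ 2)⁻¹ := by
        rintro ⟨⟨i, j⟩, k⟩ -
        by_cases hij : i = j
        · have h3 : (Y.filter fun y => i ≠ j ∧ ∀ w ∈ k.support,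
              fa w (lin (up E L i) y) * nv w ^ (1 * k w) ≤ tf y w ∧
              fa w (lin (up E L j) y) * nv w ^ (1 * k w) ≤ tf y w) = ∅ := by
            rw [Finset.filter_eq_empty_iff]
            intro y _ hcon
            exact hcon.1 hij
          simp only [h3]
          have h4 := Nk_pos k
          rw [Finset.card_empty, Nat.cast_zero]
          positivity
        · have h3 := two (Y.filter fun y => i ≠ j ∧ ∀ w ∈ k.support,
              fa w (lin (up E L i) y) * nv w ^ (1 * k w) ≤ tf y w ∧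
              fa w (lin (up E L j) y) * nv w ^ (1 * k w) ≤ tf y w)
            (Finset.filter_subset _ _) i j hij (fun w => (nv w ^ (1 * k w))⁻¹) (fun _ => 1)
            (fun w => inv_pos.2 (pow_pos (Pool.Agent.Lib.MP_4d5ce1_nt.nv_pos w) _))
            (supp_Nk k 1) hone_t ?_
          · refine h3.trans (le_of_eq ?_)
            rw [hb_one_t, finprod_Nk, pow_one, mul_pow, mul_pow, inv_pow]
            ring
          · intro l hl y hy
            obtain ⟨hyY, _, hyw⟩ := Finset.mem_filter.1 hy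
            refine ⟨fun w => ?_, fun w => by rw [mul_one]; exact hinf y hyY l w⟩
            by_cases hw : w ∈ k.support
            · have h4 : fa w (lin (up E L l) y) * nv w ^ (1 * k w) ≤ tf y w := by
                rcases Finset.mem_insert.1 hl with rfl | hl'
                · exact (hyw w hw).1
                · rw [Finset.mem_singleton] at hl'
                  subst hl'
                  exact (hyw w hw).2
              rw [(hY y hyY).1] at h4
              have h5 : a w ≤ aw E S₀ A w * a w := le_mul_of_one_le_left (ha w).le (haw w)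
              rw [← div_eq_mul_inv, le_div_iff₀
                (pow_pos (Pool.Agent.Lib.MP_4d5ce1_nt.nv_pos w) _)]
              exact h4.trans h5
            · have h0 : k w = 0 := by simpa using hw
              rw [h0, mul_zero, pow_zero, inv_one, mul_one]
              exact hfin y hyY l w
      refine (Finset.sum_le_sum h2).trans ?_
      rw [Finset.sum_product]
      simp only [← Finset.mul_sum]
      rw [Finset.sum_const, Finset.card_univ, Fintype.card_prod, Fintype.card_fin, nsmul_eq_mul,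
        Nat.cast_mul]
      have hq0 : (0 : ℝ) ≤ (q : ℝ) * q := by positivity
      rw [mul_left_comm]
      refine mul_le_mul_of_nonneg_left ?_ hq0
      have h7 : 0 ≤ C₁ ^ 2 * h ^ 2 * (G * Φ) ^ (n - 1) := by positivity
      calc C₁ ^ 2 * h ^ 2 * (G * Φ) ^ (n - 1) * ∑ k ∈ Z.image kf, ((Nk k ^ 2)⁻¹ : ℝ) ≤
            C₁ ^ 2 * h ^ 2 * (G * Φ) ^ (n - 1) * (C₄ * ε ^ (1 / 2 : ℝ)) :=
            mul_le_mul_of_nonneg_left (hsumN _ hI) h7
        _ = _ := by ring
    · intro y hy
      obtain ⟨i, j, hij, -, h2⟩ := hkf y hy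
      exact Finset.mem_biUnion.2 ⟨((i, j), kf y), Finset.mem_product.2
        ⟨Finset.mem_univ _, Finset.mem_image_of_mem _ hy⟩,
        Finset.mem_filter.2 ⟨(Finset.mem_filter.1 hy).1, hij, h2⟩⟩
  -- the total
  have htot : (Y.card : ℝ) ≤ q * D * (C₁ * (h * ε) * (G * Φ) ^ n) +
      q * (r * S₀.card) * (C₁ * (h * ε) * (G * Φ) ^ n) +
      q * (C₁ * h * (C₄ * ε ^ (1 / 2 : ℝ)) * (G * Φ) ^ n) +
      q * q * (C₁ ^ 2 * h ^ 2 * (C₄ * ε ^ (1 / 2 : ℝ)) * (G * Φ) ^ (n - 1)) := by
    have hsub : Y ⊆ (((Y.filter fun y => ∃ (j : Fin q) (w : InfinitePlace E),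
        w (lin (up E L j) y) ≤ ε * ti y w) ∪
        (Y.filter fun y => ∃ (j : Fin q) (w : HeightOneSpectrum (𝓞 E)),
          w ∈ above K E (S₀ : Set (HeightOneSpectrum (𝓞 K))) ∧
          fa w (lin (up E L j) y) ≤ ε * tf y w)) ∪
        (Y.filter fun y => ∃ (j : Fin q) (k : HeightOneSpectrum (𝓞 E) →₀ ℕ),
          (∀ w ∈ k.support, w ∉ above K E (S₀ : Set (HeightOneSpectrum (𝓞 K)))) ∧ 1 ≤ ε * Nk k ∧
          ∀ w ∈ k.support, fa w (lin (up E L j) y) * nv w ^ (2 * k w) ≤ tf y w)) ∪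
        (Y.filter fun y => ∃ (i j : Fin q) (W : Finset (HeightOneSpectrum (𝓞 E))),
          i ≠ j ∧ (∀ w ∈ W, w ∉ above K E (S₀ : Set (HeightOneSpectrum (𝓞 K)))) ∧ 1 ≤ ε * NN W ∧
          ∀ w ∈ W, fa w (lin (up E L i) y) * nv w ≤ tf y w ∧
            fa w (lin (up E L j) y) * nv w ≤ tf y w) := by
      intro y hy
      have hbad := (hY y hy).2.2.2
      unfold Bad at hbad
      simp only [Finset.mem_union, Finset.mem_filter]
      rcases hbad with h1 | h1 | h1 | h1
      · exact Or.inl (Or.inl (Or.inl ⟨hy, h1⟩))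
      · exact Or.inl (Or.inl (Or.inr ⟨hy, h1⟩))
      · exact Or.inl (Or.inr ⟨hy, h1⟩)
      · exact Or.inr ⟨hy, h1⟩
    have h1 := (((Finset.card_le_card hsub).trans (Finset.card_union_le _ _)).trans
      (Nat.add_le_add_right (Finset.card_union_le _ _) _)).trans
      (Nat.add_le_add_right (Nat.add_le_add_right (Finset.card_union_le _ _) _) _)
    have h2 := (Nat.cast_le (α := ℝ)).2 h1
    rw [Nat.cast_add, Nat.cast_add, Nat.cast_add] at h2
    exact h2.trans (add_le_add (add_le_add (add_le_add case1 case2) case3) case4)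
  obtain ⟨n', rfl⟩ : ∃ n', n = n' + 1 := ⟨n - 1, by omega⟩
  rw [Nat.add_sub_cancel] at htot
  set x : ℝ := ε ^ (1 / 2 : ℝ) with hxdef
  set F : ℝ := Φ ^ n' with hF
  have hF0 : 0 ≤ F := by positivity
  have hGn : (G * Φ) ^ (n' + 1) ≤ G ^ (n' + 1) * ((1 + C₃) * h) * F := by
    rw [mul_pow, pow_succ Φ n', mul_comm (Φ ^ n') Φ, ← mul_assoc]
    exact mul_le_mul_of_nonneg_right (mul_le_mul_of_nonneg_left hΦh (pow_nonneg hG0 _)) hF0
  have hGn' : (G * Φ) ^ n' = G ^ n' * F := by rw [mul_pow]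
  have hrhs : ∀ C : ℝ, C * x * (h / Φ) ^ 2 * Φ ^ (n' + 1 + 1) = C * (x * h ^ 2 * F) := by
    intro C
    have h1 : Φ ^ (n' + 1 + 1) = F * Φ ^ 2 := by rw [hF]; ring
    rw [h1, div_pow]
    field_simp
  rw [hrhs]
  have hX0 : 0 ≤ x * h ^ 2 * F := by positivity
  refine le_trans ?_ (mul_le_mul_of_nonneg_right (le_max_right _ _) hX0)
  rw [Nat.add_sub_cancel]
  refine htot.trans ?_
  have hε' : h * ε ≤ h * x := mul_le_mul_of_nonneg_left hx hh0.le
  have hC1 : 0 ≤ C₁ := by linarith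
  have t1 : C₁ * (h * ε) * (G * Φ) ^ (n' + 1) ≤
      C₁ * (h * x) * (G ^ (n' + 1) * ((1 + C₃) * h) * F) := by
    refine mul_le_mul (mul_le_mul_of_nonneg_left hε' hC1) hGn (by positivity) (by positivity)
  have t3 : C₁ * h * (C₄ * x) * (G * Φ) ^ (n' + 1) ≤
      C₁ * h * (C₄ * x) * (G ^ (n' + 1) * ((1 + C₃) * h) * F) :=
    mul_le_mul_of_nonneg_left hGn (by positivity)
  rw [hGn']
  calc _ ≤ (q : ℝ) * D * (C₁ * (h * x) * (G ^ (n' + 1) * ((1 + C₃) * h) * F)) +
        q * (r * S₀.card) * (C₁ * (h * x) * (G ^ (n' + 1) * ((1 + C₃) * h) * F)) +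
        q * (C₁ * h * (C₄ * x) * (G ^ (n' + 1) * ((1 + C₃) * h) * F)) +
        q * q * (C₁ ^ 2 * h ^ 2 * (C₄ * x) * (G ^ n' * F)) := by
        refine add_le_add (add_le_add (add_le_add ?_ ?_) ?_) le_rfl
        · exact mul_le_mul_of_nonneg_left t1 (by positivity)
        · exact mul_le_mul_of_nonneg_left t1 (by positivity)
        · exact mul_le_mul_of_nonneg_left t3 (by positivity)
    _ = _ := by ring

end Pool.Agent.Lib.MP_44a246_ntAL
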