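import Pool.Agent.Lib.MP_44a246_ntAL.BadDefs
import Pool.Agent.Lib.MP_44a246_ntNF.NF6d
import Pool.Agent.Lib.MP_44a246_ntNU.NU6c

/-!
# AL18: points with small truncated counting function are bad
-/

set_option autoImplicit false

open NumberField IsDedekindDomain Height
open Pool.Agent.Lib.MP_4d5ce1_nt (fa nv ordv)
open Pool.Agent.Lib.MP_44a246_ntNF
open Pool.Agent.Lib.MP_44a246_ntNU

namespace Pool.Agent.Lib.MP_44a246_ntAL

universe u

namespace EX

open Pool.Agent.Lib.MP_4d5ce1_nt (fa_nonneg fa_pos fa_eq finite_fa_ne_one fa_zero nv_pos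
  one_lt_nv log_nv_pos product_formula fa_sum_le fa_mul)

section
variable {E : Type*} [Field E] [NumberField E] {n q : ℕ}

lemma exists_expo (w : HeightOneSpectrum (𝓞 E)) {x : Fin (n + 1) → E} (hx : x ≠ 0) {l : E}
    (hl : l ≠ 0) (h : fa w l ≤ sz w x) : ∃ e : ℕ, sz w x = nv w ^ e * fa w l := by
  obtain ⟨i, hi⟩ := exists_sz_eq w x
  have hxi : x i ≠ 0 := by
    intro h0
    rw [h0, fa_zero] at hi
    exact (sz_pos w hx).ne' hi
  rw [hi] at h ⊢
  rw [fa_eq w hxi, fa_eq w hl] at h ⊢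
  rw [zpow_le_zpow_iff_right₀ (one_lt_nv w)] at h
  obtain ⟨e, he⟩ := Int.eq_ofNat_of_zero_le (a := -ordv w (x i) + ordv w l) (by omega)
  refine ⟨e, ?_⟩
  rw [← zpow_natCast, ← he, ← zpow_add₀ (nv_pos w).ne']
  congr 1
  ring

lemma height_sum {x : Fin (n + 1) → E} (hx : x ≠ 0) {l : E} (hl : l ≠ 0)
    (Z : Finset (HeightOneSpectrum (𝓞 E))) (h1 : ∀ w, sz w x ≠ 1 → w ∈ Z)
    (h2 : ∀ w, fa w l ≠ 1 → w ∈ Z) :
    logHeight x = ∑ w ∈ Z, (Real.log (sz w x) - Real.log (fa w l)) +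
      ∑ w : InfinitePlace E, (w.mult : ℝ) * (Real.log (az w x) - Real.log (w l)) := by
  have hprod := product_formula hl
  rw [logHeight_eq' hx]
  have e1 : ∑ᶠ v : HeightOneSpectrum (𝓞 E), Real.log (sz v x) = ∑ v ∈ Z, Real.log (sz v x) := by
    refine finsum_eq_sum_of_support_subset _ ?_
    intro v hv
    refine h1 v fun h => hv ?_
    show Real.log (sz v x) = 0
    rw [h, Real.log_one]
  have e2 : ∑ᶠ v : HeightOneSpectrum (𝓞 E), Real.log (fa v l) = ∑ v ∈ Z, Real.log (fa v l) := by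
    refine finsum_eq_sum_of_support_subset _ ?_
    intro v hv
    refine h2 v fun h => hv ?_
    show Real.log (fa v l) = 0
    rw [h, Real.log_one]
  rw [e2] at hprod
  rw [e1, Finset.sum_sub_distrib]
  have e3 : ∑ w : InfinitePlace E, (w.mult : ℝ) * (Real.log (az w x) - Real.log (w l)) =
      ∑ w : InfinitePlace E, (w.mult : ℝ) * Real.log (az w x) -
        ∑ w : InfinitePlace E, (w.mult : ℝ) * Real.log (w l) := by
    rw [← Finset.sum_sub_distrib]
    refine Finset.sum_congr rfl fun w _ => ?_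
    ring
  rw [e3]
  linarith

end

lemma ind_le {q : ℕ} (P : Fin q → Prop) [DecidablePred P] :
    ∑ j, (if P j then (1 : ℝ) else 0) ≤ (if ∃ j, P j then (1 : ℝ) else 0) +
      ∑ i, ∑ j, (if i ≠ j ∧ P i ∧ P j then (1 : ℝ) else 0) := by
  classical
  by_cases h : ∃ j, P j
  · obtain ⟨i, hi⟩ := h
    rw [if_pos ⟨i, hi⟩]
    have h1 : ∑ j, (if P j then (1 : ℝ) else 0) ≤
        ∑ j, ((if j = i then (1 : ℝ) else 0) + if i ≠ j ∧ P i ∧ P j then (1 : ℝ) else 0) := by
      refine Finset.sum_le_sum fun j _ => ?_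
      by_cases hj : P j
      · by_cases hji : j = i
        · rw [if_pos hj, if_pos hji]
          split_ifs <;> norm_num
        · rw [if_pos hj, if_neg hji, if_pos ⟨fun h => hji h.symm, hi, hj⟩]
          norm_num
      · rw [if_neg hj]
        split_ifs <;> norm_num
    rw [Finset.sum_add_distrib, Finset.sum_ite_eq' Finset.univ i, if_pos (Finset.mem_univ _)] at h1
    refine h1.trans (add_le_add le_rfl ?_)
    exact Finset.single_le_sum (f := fun i => ∑ j, (if i ≠ j ∧ P i ∧ P j then (1 : ℝ) else 0))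
      (fun k _ => Finset.sum_nonneg fun j _ => by split_ifs <;> norm_num) (Finset.mem_univ i)
  · have h0 : ∀ j, ¬ P j := by
      push Not at h
      exact h
    rw [if_neg h, Finset.sum_eq_zero (fun j _ => if_neg (h0 j)), zero_add]
    exact Finset.sum_nonneg fun i _ => Finset.sum_nonneg fun j _ => by split_ifs <;> norm_num

lemma half_le (e : ℕ) : (e : ℝ) ≤ 2 * ((e / 2 : ℕ) : ℝ) + if 1 ≤ e then (1 : ℝ) else 0 := by
  have h : e ≤ 2 * (e / 2) + if 1 ≤ e then 1 else 0 := by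
    split_ifs <;> omega
  have h2 : ((e : ℕ) : ℝ) ≤ ((2 * (e / 2) + if 1 ≤ e then 1 else 0 : ℕ) : ℝ) := by exact_mod_cast h
  refine h2.trans (le_of_eq ?_)
  push_cast
  split_ifs <;> simp

lemma comb {ι : Type*} {q : ℕ} (Z : Finset ι) (lam : ι → ℝ) (hlam : ∀ w ∈ Z, 0 ≤ lam w)
    (e : Fin q → ι → ℕ) (A B N : ℝ) (hB0 : 0 ≤ B)
    (hA : ∀ j, A ≤ ∑ w ∈ Z, (e j w : ℝ) * lam w)
    (hB : ∀ j, ∑ w ∈ Z, ((e j w / 2 : ℕ) : ℝ) * lam w ≤ B)
    (hP : ∀ i j, i ≠ j → ∑ w ∈ Z with 1 ≤ e i w ∧ 1 ≤ e j w, lam w ≤ B)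
    (hN : ∑ w ∈ Z with ∃ j, 1 ≤ e j w, lam w ≤ N) :
    q * A ≤ 2 * q * B + q ^ 2 * B + N := by
  classical
  have s1 : (q : ℝ) * A ≤ ∑ j : Fin q, ∑ w ∈ Z, (e j w : ℝ) * lam w := by
    calc (q : ℝ) * A = ∑ j : Fin q, A := by simp
      _ ≤ _ := Finset.sum_le_sum fun j _ => hA j
  have s2 : ∑ j : Fin q, ∑ w ∈ Z, (e j w : ℝ) * lam w ≤
      ∑ w ∈ Z, (2 * (∑ j : Fin q, ((e j w / 2 : ℕ) : ℝ) * lam w) +
        (if ∃ j, 1 ≤ e j w then lam w else 0) +
        ∑ i : Fin q, ∑ j : Fin q, (if i ≠ j ∧ 1 ≤ e i w ∧ 1 ≤ e j w then lam w else 0)) := by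
    rw [Finset.sum_comm]
    refine Finset.sum_le_sum fun w hw => ?_
    have h1 : ∑ j : Fin q, (e j w : ℝ) ≤
        2 * (∑ j : Fin q, ((e j w / 2 : ℕ) : ℝ)) + ((if ∃ j, 1 ≤ e j w then (1 : ℝ) else 0) +
          ∑ i : Fin q, ∑ j : Fin q, (if i ≠ j ∧ 1 ≤ e i w ∧ 1 ≤ e j w then (1 : ℝ) else 0)) := by
      refine (Finset.sum_le_sum fun j _ => half_le (e j w)).trans ?_
      rw [Finset.sum_add_distrib, ← Finset.mul_sum]
      gcongr
      exact ind_le (fun j => 1 ≤ e j w)
    have h2 := mul_le_mul_of_nonneg_right h1 (hlam w hw)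
    rw [Finset.sum_mul] at h2
    refine h2.trans (le_of_eq ?_)
    rw [add_mul, add_mul, mul_assoc, Finset.sum_mul, Finset.sum_mul, ← add_assoc]
    congr 1
    · congr 1
      split_ifs <;> simp
    · refine Finset.sum_congr rfl fun i _ => ?_
      rw [Finset.sum_mul]
      refine Finset.sum_congr rfl fun j _ => ?_
      split_ifs <;> simp
  have s3 : ∑ w ∈ Z, (2 * (∑ j : Fin q, ((e j w / 2 : ℕ) : ℝ) * lam w) +
        (if ∃ j, 1 ≤ e j w then lam w else 0) +
        ∑ i : Fin q, ∑ j : Fin q, (if i ≠ j ∧ 1 ≤ e i w ∧ 1 ≤ e j w then lam w else 0)) =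
      2 * (∑ j : Fin q, ∑ w ∈ Z, ((e j w / 2 : ℕ) : ℝ) * lam w) +
        ∑ w ∈ Z with ∃ j, 1 ≤ e j w, lam w +
        ∑ i : Fin q, ∑ j : Fin q, ∑ w ∈ Z,
          (if i ≠ j ∧ 1 ≤ e i w ∧ 1 ≤ e j w then lam w else 0) := by
    rw [Finset.sum_add_distrib, Finset.sum_add_distrib, ← Finset.mul_sum, Finset.sum_comm,
      Finset.sum_filter]
    congr 1
    rw [Finset.sum_comm]
    refine Finset.sum_congr rfl fun i _ => ?_
    rw [Finset.sum_comm]
  have s4 : ∑ j : Fin q, ∑ w ∈ Z, ((e j w / 2 : ℕ) : ℝ) * lam w ≤ q * B := by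
    calc _ ≤ ∑ j : Fin q, B := Finset.sum_le_sum fun j _ => hB j
      _ = q * B := by simp
  have s5 : ∑ i : Fin q, ∑ j : Fin q, ∑ w ∈ Z,
      (if i ≠ j ∧ 1 ≤ e i w ∧ 1 ≤ e j w then lam w else 0) ≤ q ^ 2 * B := by
    calc _ ≤ ∑ i : Fin q, ∑ j : Fin q, B := by
          refine Finset.sum_le_sum fun i _ => Finset.sum_le_sum fun j _ => ?_
          by_cases hij : i = j
          · refine le_trans (le_of_eq ?_) hB0
            refine Finset.sum_eq_zero fun w _ => ?_
            rw [if_neg]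
            exact fun h => h.1 hij
          · refine le_trans (le_of_eq ?_) (hP i j hij)
            rw [Finset.sum_filter]
            refine Finset.sum_congr rfl fun w _ => ?_
            simp [hij]
      _ = q ^ 2 * B := by
          simp
          ring
  rw [s3] at s2
  linarith

section
variable {K : Type*} [Field K] [NumberField K] {n q : ℕ}

lemma good_w {S₀ : Finset (HeightOneSpectrum (𝓞 K))} {L : Fin q → Fin (n + 1) → K}
    (hg : GoodS S₀ L) {E : Type*} [Field E] [NumberField E] [Algebra K E]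
    {w : HeightOneSpectrum (𝓞 E)} (hw : w ∉ above K E (S₀ : Set (HeightOneSpectrum (𝓞 K))))
    (j : Fin q) (y : Fin (n + 1) → E) :
    sz w (up E L j) = 1 ∧ fa w (lin (up E L j) y) ≤ sz w y := by
  obtain ⟨v, hv⟩ := exists_below (K := K) w
  have hvS : v ∉ S₀ := fun h => hw ⟨v, h, hv⟩
  obtain ⟨m, _, _, hm⟩ := fa_up_lt_iff (K := K) (E := E) hv
  obtain ⟨h1, i, hi⟩ := hg v hvS j
  have h2 : sz w (up E L j) = 1 := by
    refine le_antisymm (sz_le_of w _ 1 fun i => ?_) ?_
    · simp only [up]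
      rw [hm]
      exact pow_le_one₀ (fa_nonneg v _) (h1 i)
    · have h3 : fa w (up E L j i) = 1 := by
        simp only [up]
        rw [hm, hi, one_pow]
      rw [← h3]
      exact fa_le_sz w (up E L j) i
  refine ⟨h2, ?_⟩
  have h3 := fa_lin_le w (up E L j) y
  rwa [h2, one_mul] at h3

lemma sum_lt_of_prod {ι : Type*} (Z : Finset ι) (f : ι → ℝ) (hf : ∀ w ∈ Z, 0 < f w) {ε : ℝ}
    (hε : 0 < ε) (h : ε * ∏ w ∈ Z, f w < 1) : ∑ w ∈ Z, Real.log (f w) ≤ - Real.log ε := by
  have hp : 0 < ∏ w ∈ Z, f w := Finset.prod_pos hf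
  have h1 := Real.log_lt_log (mul_pos hε hp) h
  rw [Real.log_mul hε.ne' hp.ne', Real.log_one, Real.log_prod fun w hw => (hf w hw).ne'] at h1
  linarith

/-- The main inequality. -/
lemma key {S : Set (HeightOneSpectrum (𝓞 K))} {S₀ : Finset (HeightOneSpectrum (𝓞 K))}
    (hS : S ⊆ (S₀ : Set (HeightOneSpectrum (𝓞 K)))) {L : Fin q → Fin (n + 1) → K}
    (hg : GoodS S₀ L) (r : ℕ) (E : Type*) [Field E] [NumberField E] [Algebra K E]
    (hr : Module.finrank K E = r) {y : Fin (n + 1) → E} (hy : y ≠ 0)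
    (hl : ∀ j, lin (up E L j) y ≠ 0) {ε : ℝ} (hε : 0 < ε) (hε1 : ε ≤ 1)
    (hbad : ¬ Bad S₀ L ε y) :
    q * (logHeight y - ((r * S₀.card : ℕ) + (r * Module.finrank ℚ K : ℕ)) * (- Real.log ε)) ≤
      2 * q * (- Real.log ε) + q ^ 2 * (- Real.log ε) +
        truncCount (above K E S) (up E L) y := by
  classical
  set B : ℝ := - Real.log ε with hB
  have hB0 : 0 ≤ B := by
    rw [hB]
    have := Real.log_nonpos hε.le hε1
    linarith
  obtain ⟨S', hS', hS'c⟩ := above_finset E S₀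
  rw [hr] at hS'c
  have hmem : ∀ w, w ∈ S' ↔ w ∈ above K E (S₀ : Set (HeightOneSpectrum (𝓞 K))) := by
    intro w
    rw [← hS']
    rfl
  unfold Bad at hbad
  push Not at hbad
  obtain ⟨b1, b2, b3, b4⟩ := hbad
  have hfin1 := finite_sz_ne_one hy
  have hfin2 : {w : HeightOneSpectrum (𝓞 E) | ∃ j, fa w (lin (up E L j) y) ≠ 1}.Finite := by
    have : {w : HeightOneSpectrum (𝓞 E) | ∃ j, fa w (lin (up E L j) y) ≠ 1} =
        ⋃ j, {w | fa w (lin (up E L j) y) ≠ 1} := by
      ext w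
      simp
    rw [this]
    exact Set.finite_iUnion fun j => finite_fa_ne_one (hl j)
  set Z : Finset (HeightOneSpectrum (𝓞 E)) := hfin1.toFinset ∪ hfin2.toFinset ∪ S' with hZ
  have hZ1 : ∀ w, sz w y ≠ 1 → w ∈ Z := by
    intro w hw
    simp only [hZ, Finset.mem_union, Set.Finite.mem_toFinset, Set.mem_ofPred_eq]
    exact Or.inl (Or.inl hw)
  have hZ2 : ∀ j w, fa w (lin (up E L j) y) ≠ 1 → w ∈ Z := by
    intro j w hw
    simp only [hZ, Finset.mem_union, Set.Finite.mem_toFinset, Set.mem_ofPred_eq]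
    exact Or.inl (Or.inr ⟨j, hw⟩)
  have hZ3 : S' ⊆ Z := Finset.subset_union_right
  have hexp : ∀ (j : Fin q) (w : HeightOneSpectrum (𝓞 E)), ∃ e : ℕ, w ∉ S' →
      sz w y = nv w ^ e * fa w (lin (up E L j) y) := by
    intro j w
    by_cases hw : w ∈ S'
    · exact ⟨0, fun h => (h hw).elim⟩
    · have hw' : w ∉ above K E (S₀ : Set (HeightOneSpectrum (𝓞 K))) := fun h => hw ((hmem w).2 h)
      obtain ⟨e, he⟩ := exists_expo w hy (hl j) (good_w hg hw' j y).2
      exact ⟨e, fun _ => he⟩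
  choose e he using hexp
  have hlog : ∀ (j : Fin q) (w : HeightOneSpectrum (𝓞 E)), w ∉ S' →
      Real.log (sz w y) - Real.log (fa w (lin (up E L j) y)) = (e j w : ℝ) * Real.log (nv w) := by
    intro j w hw
    rw [he j w hw, Real.log_mul (pow_pos (nv_pos w) _).ne' (fa_pos w (hl j)).ne', Real.log_pow]
    ring
  have hA : ∀ j, logHeight y - ((r * S₀.card : ℕ) + (r * Module.finrank ℚ K : ℕ)) * B ≤
      ∑ w ∈ Z \ S', (e j w : ℝ) * Real.log (nv w) := by
    intro j
    have h1 := height_sum hy (hl j) Z hZ1 (hZ2 j)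
    rw [← Finset.sum_sdiff hZ3] at h1
    have h2 : ∑ w ∈ Z \ S', (Real.log (sz w y) - Real.log (fa w (lin (up E L j) y))) =
        ∑ w ∈ Z \ S', (e j w : ℝ) * Real.log (nv w) := by
      refine Finset.sum_congr rfl fun w hw => hlog j w (Finset.mem_sdiff.1 hw).2
    have h3 : ∑ w ∈ S', (Real.log (sz w y) - Real.log (fa w (lin (up E L j) y))) ≤
        (r * S₀.card : ℕ) * B := by
      calc _ ≤ ∑ w ∈ S', B := by
            refine Finset.sum_le_sum fun w hw => ?_
            have h4 := b2 j w ((hmem w).1 hw)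
            have h4' : ε * sz w y < fa w (lin (up E L j) y) := h4
            have h5 := Real.log_lt_log (mul_pos hε (sz_pos w hy)) h4'
            rw [Real.log_mul hε.ne' (sz_pos w hy).ne'] at h5
            linarith
        _ = S'.card * B := by simp
        _ ≤ (r * S₀.card : ℕ) * B := by
            refine mul_le_mul_of_nonneg_right ?_ hB0
            exact_mod_cast hS'c
    have h6 : ∑ w : InfinitePlace E, (w.mult : ℝ) *
        (Real.log (az w y) - Real.log (w (lin (up E L j) y))) ≤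
        (r * Module.finrank ℚ K : ℕ) * B := by
      calc _ ≤ ∑ w : InfinitePlace E, (w.mult : ℝ) * B := by
            refine Finset.sum_le_sum fun w _ => mul_le_mul_of_nonneg_left ?_ (Nat.cast_nonneg _)
            have h4 := b1 j w
            have h4' : ε * az w y < w (lin (up E L j) y) := h4
            have h5 := Real.log_lt_log (mul_pos hε (az_pos w hy)) h4'
            rw [Real.log_mul hε.ne' (az_pos w hy).ne'] at h5
            linarith
        _ = (r * Module.finrank ℚ K : ℕ) * B := by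
            rw [← Finset.sum_mul, ← Nat.cast_sum, InfinitePlace.sum_mult_eq,
              ← Module.finrank_mul_finrank ℚ K E, hr, mul_comm (Module.finrank ℚ K) r]
    rw [h2] at h1
    linarith
  have hout : ∀ w ∈ Z \ S', w ∉ above K E (S₀ : Set (HeightOneSpectrum (𝓞 K))) := by
    intro w hw h
    exact (Finset.mem_sdiff.1 hw).2 ((hmem w).2 h)
  have hge : ∀ (j : Fin q) (w : HeightOneSpectrum (𝓞 E)) (m : ℕ), w ∉ S' → m ≤ e j w →
      fa w (lin (up E L j) y) * nv w ^ m ≤ tf y w := by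
    intro j w m hw hm
    have h1 : tf y w = nv w ^ e j w * fa w (lin (up E L j) y) := he j w hw
    rw [h1, mul_comm]
    exact mul_le_mul_of_nonneg_right (pow_le_pow_right₀ (one_lt_nv w).le hm) (fa_nonneg w _)
  have hBB : ∀ j, ∑ w ∈ Z \ S', ((e j w / 2 : ℕ) : ℝ) * Real.log (nv w) ≤ B := by
    intro j
    by_contra hcon
    push Not at hcon
    set k : HeightOneSpectrum (𝓞 E) →₀ ℕ :=
      Finsupp.onFinset (Z \ S') (fun w => if w ∈ Z \ S' then e j w / 2 else 0)
      (by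
        intro w hw
        by_contra h
        exact hw (if_neg h)) with hk
    have hks : ∀ w ∈ k.support, w ∈ Z \ S' := by
      intro w hw
      exact Finsupp.support_onFinset_subset hw
    have hkw : ∀ w ∈ Z \ S', k w = e j w / 2 := by
      intro w hw
      rw [hk, Finsupp.onFinset_apply, if_pos hw]
    have hN : Nk k = ∏ w ∈ Z \ S', nv w ^ (e j w / 2) := by
      unfold Nk
      rw [hk, Finsupp.onFinset_prod _ (fun w => pow_zero _)]
      refine Finset.prod_congr rfl fun w hw => ?_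
      rw [if_pos hw]
    have h1 : 1 ≤ ε * Nk k := by
      by_contra h
      push Not at h
      rw [hN] at h
      have h2 := sum_lt_of_prod (Z \ S') (fun w => nv w ^ (e j w / 2))
        (fun w _ => pow_pos (nv_pos w) _) hε h
      simp only [Real.log_pow] at h2
      linarith
    obtain ⟨w, hw, h2⟩ := b3 j k (fun w hw => hout w (hks w hw)) h1
    have h3 := hge j w (2 * k w) (Finset.mem_sdiff.1 (hks w hw)).2 (by
      rw [hkw w (hks w hw)]
      omega)
    linarith
  have hPP : ∀ i j, i ≠ j →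
      ∑ w ∈ Z \ S' with 1 ≤ e i w ∧ 1 ≤ e j w, Real.log (nv w) ≤ B := by
    intro i j hij
    by_contra hcon
    push Not at hcon
    set W : Finset (HeightOneSpectrum (𝓞 E)) := {w ∈ Z \ S' | 1 ≤ e i w ∧ 1 ≤ e j w} with hW
    have h1 : 1 ≤ ε * NN W := by
      by_contra h
      push Not at h
      unfold NN at h
      have h2 := sum_lt_of_prod W (fun w => nv w) (fun w _ => nv_pos w) hε h
      linarith
    obtain ⟨w, hw, h2⟩ := b4 i j W hij (fun w hw => hout w (Finset.mem_filter.1 hw).1) h1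
    obtain ⟨hw1, hw2, hw3⟩ := Finset.mem_filter.1 hw
    have h3 := hge i w 1 (Finset.mem_sdiff.1 hw1).2 hw2
    have h4 := hge j w 1 (Finset.mem_sdiff.1 hw1).2 hw3
    rw [pow_one] at h3 h4
    have h5 := h2 h3
    linarith
  have hN : ∑ w ∈ Z \ S' with ∃ j, 1 ≤ e j w, Real.log (nv w) ≤
      truncCount (above K E S) (up E L) y := by
    set T : Set (HeightOneSpectrum (𝓞 E)) := {v | v ∉ above K E S ∧
      ∃ j, FinitePlace.mk v (lin (up E L j) y) <
      (⨆ i, FinitePlace.mk v (up E L j i)) * ⨆ i, FinitePlace.mk v (y i)} with hT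
    have hTfin : T.Finite := by
      refine (Z.finite_toSet).subset ?_
      rintro w ⟨-, j, hj⟩
      by_cases hw : w ∈ S'
      · exact hZ3 hw
      · have hw' : w ∉ above K E (S₀ : Set (HeightOneSpectrum (𝓞 K))) :=
          fun h => hw ((hmem w).2 h)
        have h1 := (good_w hg hw' j y).1
        have h2 : fa w (lin (up E L j) y) < sz w (up E L j) * sz w y := hj
        rw [h1, one_mul] at h2
        by_contra hwZ
        have h3 : sz w y = 1 := by
          by_contra h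
          exact hwZ (hZ1 w h)
        have h4 : fa w (lin (up E L j) y) = 1 := by
          by_contra h
          exact hwZ (hZ2 j w h)
        rw [h3, h4] at h2
        exact lt_irrefl _ h2
    have hcount : truncCount (above K E S) (up E L) y =
        ∑ v ∈ hTfin.toFinset, Real.log (nv v) := by
      unfold truncCount
      rw [← finsum_mem_eq_finite_toFinset_sum _ hTfin]
      rfl
    rw [hcount]
    refine Finset.sum_le_sum_of_subset_of_nonneg ?_ fun v _ _ => (log_nv_pos v).le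
    intro w hw
    obtain ⟨hw1, j, hj⟩ := Finset.mem_filter.1 hw
    rw [Set.Finite.mem_toFinset]
    have hw' := hout w hw1
    refine ⟨?_, j, ?_⟩
    · rintro ⟨v, hv, hvw⟩
      exact hw' ⟨v, hS hv, hvw⟩
    · have h1 := (good_w hg hw' j y).1
      have h2 := he j w (Finset.mem_sdiff.1 hw1).2
      have h3 : fa w (lin (up E L j) y) < sz w (up E L j) * sz w y := by
        rw [h1, one_mul, h2]
        have h4 : 1 < nv w ^ e j w := one_lt_pow₀ (one_lt_nv w) (by omega)
        exact lt_mul_of_one_lt_left (fa_pos w (hl j)) h4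
      exact h3
  exact comb (Z \ S') (fun w => Real.log (nv w)) (fun w _ => (log_nv_pos w).le) e _ B _ hB0 hA
    hBB hPP hN

end

end EX

section bad
variable {K : Type u} [Field K] [NumberField K] {n q : ℕ}

/-- AL18 : points with small truncated counting function are bad -/
theorem excess {S : Set (HeightOneSpectrum (𝓞 K))} (hSf : S.Finite)
    (L : Fin q → Fin (n + 1) → K) (hL : ∀ i j, i ≠ j → LinearIndependent K ![L i, L j])
    (hL0 : ∀ j, L j ≠ 0) (r : ℕ) (ρ c : ℝ) (hρ : ρ < q) :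
    ∃ (S₀ : Finset (HeightOneSpectrum (𝓞 K))) (δ H₀ : ℝ), GoodS S₀ L ∧ 0 < δ ∧
      ∀ (E : Type u) [Field E] [NumberField E] [Algebra K E], Module.finrank K E = r →
      ∀ y : Fin (n + 1) → E, y ≠ 0 → (∀ j, lin (up E L j) y ≠ 0) → H₀ ≤ mulHeight y →
        truncCount (above K E S) (up E L) y ≤ ρ * logHeight y + c →
        Bad S₀ L (mulHeight y ^ (-δ)) y := by
  classical
  have hfin : {v : HeightOneSpectrum (𝓞 K) | ∃ j i, L j i ≠ 0 ∧ fa v (L j i) ≠ 1}.Finite := by
    have : {v : HeightOneSpectrum (𝓞 K) | ∃ j i, L j i ≠ 0 ∧ fa v (L j i) ≠ 1} =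
        ⋃ j, {v | ∃ i, L j i ≠ 0 ∧ fa v (L j i) ≠ 1} := by
      ext v
      simp
    rw [this]
    exact Set.finite_iUnion fun j => finite_bad (L j)
  set S₀ : Finset (HeightOneSpectrum (𝓞 K)) := hSf.toFinset ∪ hfin.toFinset with hS₀
  have hS : S ⊆ (S₀ : Set (HeightOneSpectrum (𝓞 K))) := by
    intro v hv
    rw [hS₀, Finset.mem_coe, Finset.mem_union, Set.Finite.mem_toFinset]
    exact Or.inl hv
  have hg : GoodS S₀ L := by
    intro v hv j
    have hv' : ∀ i, L j i ≠ 0 → fa v (L j i) = 1 := by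
      intro i hi
      by_contra h
      refine hv ?_
      rw [hS₀, Finset.mem_union, Set.Finite.mem_toFinset, Set.Finite.mem_toFinset]
      exact Or.inr ⟨j, i, hi, h⟩
    refine ⟨fun i => ?_, ?_⟩
    · by_cases hi : L j i = 0
      · rw [hi, Pool.Agent.Lib.MP_4d5ce1_nt.fa_zero]
        exact zero_le_one
      · exact (hv' i hi).le
    · obtain ⟨i, hi⟩ := Function.ne_iff.mp (hL0 j)
      exact ⟨i, hv' i hi⟩
  set C1 : ℝ := ((r * S₀.card : ℕ) : ℝ) + ((r * Module.finrank ℚ K : ℕ) : ℝ) with hC1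
  have hC10 : 0 ≤ C1 := by positivity
  set D : ℝ := C1 * q + 2 * q + q ^ 2 + 1 with hD
  have hD1 : 0 < D := by positivity
  set δ : ℝ := (q - ρ) / (2 * D) with hδ
  have hqρ : 0 < (q : ℝ) - ρ := by linarith
  have hδ0 : 0 < δ := by positivity
  have hδD : D * δ = (q - ρ) / 2 := by
    rw [hδ]
    field_simp
  refine ⟨S₀, δ, Real.exp (2 * |c| / (q - ρ) + 1), hg, hδ0, ?_⟩
  intro E _ _ _ hr y hy hl hH hT
  by_contra hbad
  have hH0 : 0 < mulHeight y := (Real.exp_pos _).trans_le hH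
  set h : ℝ := logHeight y with hh
  have hlog : Real.log (mulHeight y) = h := by
    rw [hh, logHeight_eq_log_mulHeight]
  have hh1 : 2 * |c| / (q - ρ) + 1 ≤ h := by
    rw [← hlog]
    exact (Real.le_log_iff_exp_le hH0).2 hH
  have hc0 : 0 ≤ 2 * |c| / (q - ρ) := by positivity
  have hh0 : 0 < h := by linarith
  have hε : 0 < mulHeight y ^ (-δ) := Real.rpow_pos_of_pos hH0 _
  have hlε : - Real.log (mulHeight y ^ (-δ)) = δ * h := by
    rw [Real.log_rpow hH0, hlog]
    ring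
  have hε1 : mulHeight y ^ (-δ) ≤ 1 := by
    have h1 : Real.log (mulHeight y ^ (-δ)) ≤ Real.log 1 := by
      rw [Real.log_one]
      have : 0 < δ * h := by positivity
      linarith
    exact (Real.log_le_log_iff hε one_pos).1 h1
  have hkey := EX.key hS hg r E hr hy hl hε hε1 hbad
  rw [hlε, ← hC1, ← hh] at hkey
  have h2 : (q - ρ) * h ≤ D * δ * h + c := by
    have h3 : 0 ≤ δ * h := by positivity
    have h4 : q * h ≤ (C1 * q + 2 * q + q ^ 2) * (δ * h) + (ρ * h + c) := by nlinarith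
    have h5 : (C1 * q + 2 * q + q ^ 2) * (δ * h) ≤ D * (δ * h) :=
      mul_le_mul_of_nonneg_right (by rw [hD]; linarith) h3
    nlinarith
  rw [hδD] at h2
  have h3 : (q - ρ) / 2 * (2 * |c| / (q - ρ) + 1) ≤ (q - ρ) / 2 * h :=
    mul_le_mul_of_nonneg_left hh1 (by positivity)
  have h4 : (q - ρ) / 2 * (2 * |c| / (q - ρ) + 1) = |c| + (q - ρ) / 2 := by
    field_simp
  have h5 : c ≤ |c| := le_abs_self c
  nlinarith

end bad

end Pool.Agent.Lib.MP_44a246_ntAL
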