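import Pool.Agent.Lib.MP_44a246_ntAL.Defs

/-!
# Almost all points of bounded degree: good reduction and bad vectors

The definitions `GoodS` and `Bad` (used by AL17, AL18, AL19).
-/

set_option autoImplicit false

open NumberField IsDedekindDomain Height
open Pool.Agent.Lib.MP_4d5ce1_nt (fa nv ordv)
open Pool.Agent.Lib.MP_44a246_ntNF
open Pool.Agent.Lib.MP_44a246_ntNU

namespace Pool.Agent.Lib.MP_44a246_ntAL

universe u

section bad
variable {K : Type u} [Field K] [NumberField K] {n q : ℕ}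

/-- Good reduction outside `S₀`. -/
def GoodS (S₀ : Finset (HeightOneSpectrum (𝓞 K))) (L : Fin q → Fin (n + 1) → K) : Prop :=
  ∀ v ∉ S₀, ∀ j, (∀ i, fa v (L j i) ≤ 1) ∧ ∃ i, fa v (L j i) = 1

/-- Some form is small at an infinite place or at a place over `S₀`, or divisible by the square of
an ideal of norm `≥ ε⁻¹`, or two forms are divisible by the same primes of total norm `≥ ε⁻¹`. -/
def Bad {E : Type*} [Field E] [NumberField E] [Algebra K E]
    (S₀ : Finset (HeightOneSpectrum (𝓞 K))) (L : Fin q → Fin (n + 1) → K) (ε : ℝ)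
    (y : Fin (n + 1) → E) : Prop :=
  (∃ (j : Fin q) (w : InfinitePlace E), w (lin (up E L j) y) ≤ ε * ti y w) ∨
  (∃ (j : Fin q) (w : HeightOneSpectrum (𝓞 E)),
    w ∈ above K E (S₀ : Set (HeightOneSpectrum (𝓞 K))) ∧
      fa w (lin (up E L j) y) ≤ ε * tf y w) ∨
  (∃ (j : Fin q) (k : HeightOneSpectrum (𝓞 E) →₀ ℕ),
    (∀ w ∈ k.support, w ∉ above K E (S₀ : Set (HeightOneSpectrum (𝓞 K)))) ∧ 1 ≤ ε * Nk k ∧
      ∀ w ∈ k.support, fa w (lin (up E L j) y) * nv w ^ (2 * k w) ≤ tf y w) ∨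
  ∃ (i j : Fin q) (W : Finset (HeightOneSpectrum (𝓞 E))), i ≠ j ∧
    (∀ w ∈ W, w ∉ above K E (S₀ : Set (HeightOneSpectrum (𝓞 K)))) ∧ 1 ≤ ε * NN W ∧
      ∀ w ∈ W, fa w (lin (up E L i) y) * nv w ≤ tf y w ∧ fa w (lin (up E L j) y) * nv w ≤ tf y w

end bad

end Pool.Agent.Lib.MP_44a246_ntAL
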