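import Pool.Agent.Lib.MP_44a246_ntAL.Defs
import Pool.Agent.Lib.MP_44a246_ntAL.BadDefs
import Pool.Agent.Lib.MP_44a246_ntAL.AL0
import Pool.Agent.Lib.MP_44a246_ntAL.AL14
import Pool.Agent.Lib.MP_44a246_ntAL.AL15
import Pool.Agent.Lib.MP_44a246_ntAL.AL16
import Pool.Agent.Lib.MP_44a246_ntAL.AL17
import Pool.Agent.Lib.MP_44a246_ntAL.AL18

/-!
# Counting the points with small truncated counting function, `n > r`
-/

set_option autoImplicit false

open NumberField IsDedekindDomain Height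
open Pool.Agent.Lib.MP_4d5ce1_nt (fa nv ordv)
open Pool.Agent.Lib.MP_44a246_ntNF
open Pool.Agent.Lib.MP_44a246_ntNU

namespace Pool.Agent.Lib.MP_44a246_ntAL

universe u

section tools
variable {E : Type*} [Field E] [NumberField E] {m : ℕ}

private theorem tf_smul' (z : E) (x : Fin m → E) (w : HeightOneSpectrum (𝓞 E)) :
    tf (z • x) w = fa w z * tf x w := by
  unfold tf
  rw [Real.mul_iSup_of_nonneg (Pool.Agent.Lib.MP_4d5ce1_nt.fa_nonneg w z)]
  congr 1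
  funext i
  rw [Pi.smul_apply, smul_eq_mul, Pool.Agent.Lib.MP_4d5ce1_nt.fa_mul]

private theorem ti_smul' (z : E) (x : Fin m → E) (w : InfinitePlace E) :
    ti (z • x) w = w z * ti x w := by
  unfold ti
  rw [Real.mul_iSup_of_nonneg (apply_nonneg w z)]
  congr 1
  funext i
  rw [Pi.smul_apply, smul_eq_mul, map_mul]

private theorem tf_nonneg' (x : Fin m → E) (w : HeightOneSpectrum (𝓞 E)) : 0 ≤ tf x w :=
  Real.iSup_nonneg fun i => Pool.Agent.Lib.MP_4d5ce1_nt.fa_nonneg w (x i)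

private theorem ti_nonneg' (x : Fin m → E) (w : InfinitePlace E) : 0 ≤ ti x w :=
  Real.iSup_nonneg fun i => apply_nonneg w (x i)

private theorem Nk_nonneg' (k : HeightOneSpectrum (𝓞 E) →₀ ℕ) : 0 ≤ Nk k := by
  unfold Nk
  exact Finset.prod_nonneg fun w _ => pow_nonneg (Pool.Agent.Lib.MP_4d5ce1_nt.nv_pos w).le _

private theorem NN_nonneg' (W : Finset (HeightOneSpectrum (𝓞 E))) : 0 ≤ NN W := by
  unfold NN
  exact Finset.prod_nonneg fun w _ => (Pool.Agent.Lib.MP_4d5ce1_nt.nv_pos w).le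

omit [NumberField E] in
private theorem lin_smul' {n : ℕ} (a : Fin (n + 1) → E) (z : E) (x : Fin (n + 1) → E) :
    lin a (z • x) = z * lin a x := by
  unfold lin
  rw [Finset.mul_sum]
  refine Finset.sum_congr rfl fun i _ => ?_
  rw [Pi.smul_apply, smul_eq_mul]
  ring

end tools

section bad
variable {K : Type u} [Field K] [NumberField K] {n q : ℕ}

private theorem bad_mono' {E : Type*} [Field E] [NumberField E] [Algebra K E]
    {S₀ : Finset (HeightOneSpectrum (𝓞 K))} {L : Fin q → Fin (n + 1) → K} {ε ε' : ℝ}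
    {y : Fin (n + 1) → E} (hε : ε ≤ ε') (h : Bad S₀ L ε y) : Bad S₀ L ε' y := by
  rcases h with ⟨j, w, h⟩ | ⟨j, w, hw, h⟩ | ⟨j, k, hk, h1, h⟩ | ⟨i, j, W, hij, hW, h1, h⟩
  · exact Or.inl ⟨j, w, h.trans (mul_le_mul_of_nonneg_right hε (ti_nonneg' y w))⟩
  · exact Or.inr (Or.inl ⟨j, w, hw, h.trans (mul_le_mul_of_nonneg_right hε (tf_nonneg' y w))⟩)
  · exact Or.inr (Or.inr (Or.inl ⟨j, k, hk,
      h1.trans (mul_le_mul_of_nonneg_right hε (Nk_nonneg' k)), h⟩))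
  · exact Or.inr (Or.inr (Or.inr ⟨i, j, W, hij, hW,
      h1.trans (mul_le_mul_of_nonneg_right hε (NN_nonneg' W)), h⟩))

private theorem bad_smul' {E : Type*} [Field E] [NumberField E] [Algebra K E]
    {S₀ : Finset (HeightOneSpectrum (𝓞 K))} {L : Fin q → Fin (n + 1) → K} {ε : ℝ}
    {y : Fin (n + 1) → E} (z : E) (h : Bad S₀ L ε y) : Bad S₀ L ε (z • y) := by
  rcases h with ⟨j, w, h⟩ | ⟨j, w, hw, h⟩ | ⟨j, k, hk, h1, h⟩ | ⟨i, j, W, hij, hW, h1, h⟩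
  · refine Or.inl ⟨j, w, ?_⟩
    rw [lin_smul', map_mul, ti_smul']
    calc w z * w (lin (up E L j) y) ≤ w z * (ε * ti y w) :=
          mul_le_mul_of_nonneg_left h (apply_nonneg w z)
      _ = ε * (w z * ti y w) := by ring
  · refine Or.inr (Or.inl ⟨j, w, hw, ?_⟩)
    rw [lin_smul', Pool.Agent.Lib.MP_4d5ce1_nt.fa_mul, tf_smul']
    calc fa w z * fa w (lin (up E L j) y) ≤ fa w z * (ε * tf y w) :=
          mul_le_mul_of_nonneg_left h (Pool.Agent.Lib.MP_4d5ce1_nt.fa_nonneg w z)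
      _ = ε * (fa w z * tf y w) := by ring
  · refine Or.inr (Or.inr (Or.inl ⟨j, k, hk, h1, fun w hw => ?_⟩))
    rw [lin_smul', Pool.Agent.Lib.MP_4d5ce1_nt.fa_mul, tf_smul', mul_assoc]
    exact mul_le_mul_of_nonneg_left (h w hw) (Pool.Agent.Lib.MP_4d5ce1_nt.fa_nonneg w z)
  · refine Or.inr (Or.inr (Or.inr ⟨i, j, W, hij, hW, h1, fun w hw => ?_⟩))
    rw [lin_smul', lin_smul', Pool.Agent.Lib.MP_4d5ce1_nt.fa_mul,
      Pool.Agent.Lib.MP_4d5ce1_nt.fa_mul, tf_smul', mul_assoc, mul_assoc]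
    exact ⟨mul_le_mul_of_nonneg_left (h w hw).1 (Pool.Agent.Lib.MP_4d5ce1_nt.fa_nonneg w z),
      mul_le_mul_of_nonneg_left (h w hw).2 (Pool.Agent.Lib.MP_4d5ce1_nt.fa_nonneg w z)⟩

/-- Bad vectors of a class, of height at most `B`, with box of size at least `F`. -/
private theorem class_bad (S₀ : Finset (HeightOneSpectrum (𝓞 K))) (L : Fin q → Fin (n + 1) → K)
    (hS : GoodS S₀ L) (hL : ∀ i j, i ≠ j → LinearIndependent K ![L i, L j])
    (hL0 : ∀ j, L j ≠ 0) (hn : 1 ≤ n) (r : ℕ) : ∃ C : ℝ, 1 ≤ C ∧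
    ∀ (B F ε : ℝ), 1 ≤ B → 1 ≤ F → 0 < ε → ε ≤ 1 → ∀ (t : Vc K (n + 1)), Gd r B t →
      F ≤ Phi t → ∀ X : Finset (Vc K (n + 1)), Np X → (∀ s ∈ X, SimV t s) →
      (∀ s ∈ X, ∃ _ : NumberField s.1, (∀ j, lin (up s.1 L j) s.2 ≠ 0) ∧ Bad S₀ L ε s.2) →
      (X.card : ℝ) ≤ C * ε ^ (1 / 2 : ℝ) * (B / F) ^ 2 * B ^ (n + 1) := by
  obtain ⟨C₁, hC₁, h₁⟩ := bad_count S₀ L hS hL hL0 hn r
  obtain ⟨C₂, hC₂, h₂⟩ := phi_bounds (K := K) r (n + 1)
  refine ⟨C₁ * C₂ ^ (n + 1), one_le_mul_of_one_le_of_one_le hC₁ (one_le_pow₀ hC₂), ?_⟩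
  rintro B F ε hB hF hε hε1 ⟨E, x₀⟩ ht hFt X hX hsim hbad
  obtain ⟨hp1, hp2⟩ := h₂ B ⟨E, x₀⟩ hB ht
  obtain ⟨hnf, hr, hx0, -, hB0⟩ := ht
  haveI : NumberField E := hnf
  obtain ⟨Y, hYc, hY⟩ := scaled E x₀ X hX hsim
  obtain ⟨hadm, hhb⟩ := adm_tf x₀ hx0
  have hphi : Phi (⟨E, x₀⟩ : Vc K (n + 1)) = (Bx (tf x₀) (ti x₀) 1).ncard := by
    unfold Phi
    exact dif_pos hnf
  have hkey := h₁ E hr (tf x₀) (ti x₀) hadm (by rw [hhb]; exact one_le_mulHeight x₀) ε hε hε1 Y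
    (fun y hy => by
      obtain ⟨⟨x, z, hxX, hz, hyx⟩, h1, h2, h3⟩ := hY y hy
      obtain ⟨hnf', hlin, hb⟩ := hbad _ hxX
      refine ⟨funext h1, h2, fun j => ?_, ?_⟩
      · rw [hyx, lin_smul']
        exact mul_ne_zero hz (hlin j)
      · rw [hyx]
        exact bad_smul' z hb)
  rw [← hphi, hhb, hYc] at hkey
  refine hkey.trans ?_
  have hP0 : (0 : ℝ) < Phi (⟨E, x₀⟩ : Vc K (n + 1)) := by
    exact_mod_cast hp1
  have hF0 : 0 < F := by linarith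
  have e1 : mulHeight x₀ / (Phi (⟨E, x₀⟩ : Vc K (n + 1)) : ℝ) ≤ B / F := by
    exact div_le_div₀ (by linarith) hB0 hF0 hFt
  have e2 : (mulHeight x₀ / (Phi (⟨E, x₀⟩ : Vc K (n + 1)) : ℝ)) ^ 2 ≤ (B / F) ^ 2 := by
    refine pow_le_pow_left₀ (div_nonneg (mulHeight_pos x₀).le hP0.le) e1 2
  have e3 : (Phi (⟨E, x₀⟩ : Vc K (n + 1)) : ℝ) ^ (n + 1) ≤ (C₂ * B) ^ (n + 1) :=
    pow_le_pow_left₀ hP0.le hp2 _
  calc C₁ * ε ^ (1 / 2 : ℝ) * (mulHeight x₀ / (Phi (⟨E, x₀⟩ : Vc K (n + 1)) : ℝ)) ^ 2 *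
        (Phi (⟨E, x₀⟩ : Vc K (n + 1)) : ℝ) ^ (n + 1)
      ≤ C₁ * ε ^ (1 / 2 : ℝ) * (B / F) ^ 2 * (C₂ * B) ^ (n + 1) := by
        have : 0 ≤ C₁ * ε ^ (1 / 2 : ℝ) := by positivity
        gcongr
    _ = C₁ * C₂ ^ (n + 1) * ε ^ (1 / 2 : ℝ) * (B / F) ^ 2 * B ^ (n + 1) := by
        rw [mul_pow]; ring

/-- A dyadic shell. -/
private theorem shell {S : Set (HeightOneSpectrum (𝓞 K))} (hSf : S.Finite)
    (L : Fin q → Fin (n + 1) → K) (hL : ∀ i j, i ≠ j → LinearIndependent K ![L i, L j])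
    (hL0 : ∀ j, L j ≠ 0) (r : ℕ) (hr : 2 ≤ r) (hn : r < n) (ρ c : ℝ) (hρ : ρ < q) :
    ∃ (δ C : ℝ), 0 < δ ∧ δ ≤ 1 ∧ 1 ≤ C ∧ ∀ B : ℝ, 1 ≤ B → ∀ X : Finset (Vc K (n + 1)), Np X →
      (∀ s ∈ X, Gd r B s ∧ ¬ Gd r (B / 2) s ∧
        ∃ _ : NumberField s.1, (∀ j, lin (up s.1 L j) s.2 ≠ 0) ∧
        truncCount (above K s.1 S) (up s.1 L) s.2 ≤ ρ * logHeight s.2 + c) →
      (X.card : ℝ) ≤ C * B ^ ((n : ℝ) + 1 - δ) := by
  classical
  obtain ⟨S₀, δ₀, H₀, hS₀, hδ₀, hex⟩ := excess hSf L hL hL0 r ρ c hρ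
  -- parameters
  set t : ℝ := min (1 / 2) (δ₀ / (8 * (r + 3))) with ht
  have hr3 : (0 : ℝ) < 8 * (r + 3) := by positivity
  have ht0 : 0 < t := lt_min (by norm_num) (div_pos hδ₀ hr3)
  have ht1 : t ≤ 1 / 2 := min_le_left _ _
  have ht2 : t * (r + 3) ≤ δ₀ / 8 := by
    have h1 : t ≤ δ₀ / (8 * (r + 3)) := min_le_right _ _
    have h2 : (0 : ℝ) < r + 3 := by positivity
    calc t * (r + 3) ≤ δ₀ / (8 * (r + 3)) * (r + 3) := mul_le_mul_of_nonneg_right h1 h2.le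
      _ = δ₀ / 8 := by field_simp
  set η : ℝ := min (δ₀ / 8) (t / 2) with hη
  have hη0 : 0 < η := lt_min (by positivity) (by positivity)
  have hη1 : η ≤ δ₀ / 8 := min_le_left _ _
  have hη2 : η ≤ t / 2 := min_le_right _ _
  set δ : ℝ := min (t / 2) (δ₀ / 4) with hδ
  have hδ0 : 0 < δ := lt_min (by positivity) (by positivity)
  have hδ1 : δ ≤ t / 2 := min_le_left _ _
  have hδ2 : δ ≤ δ₀ / 4 := min_le_right _ _
  obtain ⟨C₁, hC₁, htot⟩ := total_small (K := K) r n hr hn.le η hη0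
  obtain ⟨C₂, hC₂, hphi⟩ := phi_bounds (K := K) r (n + 1)
  obtain ⟨C₃, hC₃, hcl⟩ := classes (K := K) r (n + 1) hr η hη0
  obtain ⟨C₄, hC₄, hcb⟩ := class_bad S₀ L hS₀ hL hL0 (by omega) r
  set H₁ : ℝ := 2 * max H₀ 1 with hH₁
  have hH₁1 : 1 ≤ H₁ := by
    have : (1 : ℝ) ≤ max H₀ 1 := le_max_right _ _
    linarith
  have hrn : ((n - r : ℕ) : ℝ) = (n : ℝ) - r := by
    rw [Nat.cast_sub hn.le]
  have hrn1 : (1 : ℝ) ≤ (n : ℝ) - r := by
    rw [← hrn]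
    exact_mod_cast (by omega : 1 ≤ n - r)
  refine ⟨δ, C₁ * C₂ ^ (n - r) * H₁ ^ (η + δ) + C₁ + C₃ * C₄ * 2 ^ (δ₀ / 2), hδ0,
    by linarith, ?_, ?_⟩
  · have h1 : 0 ≤ C₁ * C₂ ^ (n - r) * H₁ ^ (η + δ) := by positivity
    have h2 : 0 ≤ C₃ * C₄ * (2 : ℝ) ^ (δ₀ / 2) := by positivity
    linarith
  intro B hB X hX hall
  have hB0 : 0 < B := by linarith
  have hXG : ∀ s ∈ X, Gd r B s := fun s hs => (hall s hs).1
  have hmain : 0 ≤ B ^ ((n : ℝ) + 1 - δ) := by positivity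
  rcases le_or_gt B H₁ with hBH | hBH
  · -- small B
    have h1 := htot B hB X hX hXG (C₂ * B) (by nlinarith) (fun s hs => (hphi B s hB (hXG s hs)).2)
    refine h1.trans ?_
    have h2 : C₁ * B ^ η * B ^ (r + 1) * (C₂ * B) ^ (n - r) =
        C₁ * C₂ ^ (n - r) * (B ^ (η + δ) * B ^ ((n : ℝ) + 1 - δ)) := by
      rw [mul_pow, ← Real.rpow_add hB0, show η + δ + ((n : ℝ) + 1 - δ) =
        η + ((r : ℝ) + 1) + ((n - r : ℕ) : ℝ) by rw [hrn]; ring, Real.rpow_add hB0,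
        Real.rpow_add hB0, Real.rpow_natCast]
      rw [show ((r : ℝ) + 1) = ((r + 1 : ℕ) : ℝ) by push_cast; ring, Real.rpow_natCast]
      ring
    rw [h2]
    have h3 : B ^ (η + δ) ≤ H₁ ^ (η + δ) :=
      Real.rpow_le_rpow hB0.le hBH (by linarith)
    have h4 : 0 ≤ C₁ * C₂ ^ (n - r) := by positivity
    have h5 : 0 ≤ (C₁ + C₃ * C₄ * (2 : ℝ) ^ (δ₀ / 2)) * B ^ ((n : ℝ) + 1 - δ) := by positivity
    calc C₁ * C₂ ^ (n - r) * (B ^ (η + δ) * B ^ ((n : ℝ) + 1 - δ))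
        ≤ C₁ * C₂ ^ (n - r) * (H₁ ^ (η + δ) * B ^ ((n : ℝ) + 1 - δ)) := by gcongr
      _ ≤ (C₁ * C₂ ^ (n - r) * H₁ ^ (η + δ) + C₁ + C₃ * C₄ * 2 ^ (δ₀ / 2)) *
          B ^ ((n : ℝ) + 1 - δ) := by nlinarith
  · -- large B
    have hB2 : max H₀ 1 < B / 2 := by
      have : 2 * max H₀ 1 < B := hBH
      linarith
    have hB21 : 1 < B / 2 := (le_max_right _ _).trans_lt hB2
    have hB2H : H₀ < B / 2 := (le_max_left _ _).trans_lt hB2
    have hB20 : 0 < B / 2 := by linarith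
    set ε : ℝ := (B / 2) ^ (-δ₀) with hε
    have hε0 : 0 < ε := Real.rpow_pos_of_pos hB20 _
    have hε1 : ε ≤ 1 := Real.rpow_le_one_of_one_le_of_nonpos hB21.le (by linarith)
    have hXbad : ∀ s ∈ X, ∃ _ : NumberField s.1, (∀ j, lin (up s.1 L j) s.2 ≠ 0) ∧
        Bad S₀ L ε s.2 := by
      rintro ⟨E, x⟩ hs
      obtain ⟨hG, hnG, hnf, hlin, htr⟩ := hall _ hs
      haveI : NumberField E := hnf
      obtain ⟨hnf', hfr, hx0, hadj, hht⟩ := hG
      have hgt : B / 2 < mulHeight x := by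
        by_contra hcon
        push Not at hcon
        exact hnG ⟨hnf, hfr, hx0, hadj, hcon⟩
      refine ⟨hnf, hlin, ?_⟩
      have hb := hex E hfr x hx0 hlin (hB2H.trans hgt).le htr
      refine bad_mono' ?_ hb
      rw [hε]
      exact Real.rpow_le_rpow_of_nonpos hB20 hgt.le (by linarith)
    set F : ℝ := B ^ (1 - t) with hF
    have hF1 : 1 ≤ F := Real.one_le_rpow hB (by linarith)
    have hF0 : 0 < F := by linarith
    have hBF : B / F = B ^ t := by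
      rw [hF, Real.rpow_sub hB0, Real.rpow_one]
      field_simp
    set X₁ := X.filter (fun s => (Phi s : ℝ) ≤ F) with hX₁
    set X₂ := X.filter (fun s => ¬ (Phi s : ℝ) ≤ F) with hX₂
    have hcard : (X.card : ℝ) = X₁.card + X₂.card := by
      rw [hX₁, hX₂]
      exact_mod_cast (Finset.card_filter_add_card_filter_not _).symm
    have hNp : ∀ Z : Finset (Vc K (n + 1)), Z ⊆ X → Np Z := fun Z hZ E x y hx hy z hz h =>
      hX E x y (hZ hx) (hZ hy) z hz h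
    -- first part
    have hX₁c : (X₁.card : ℝ) ≤ C₁ * B ^ ((n : ℝ) + 1 - δ) := by
      have h1 := htot B hB X₁ (hNp _ (Finset.filter_subset _ _))
        (fun s hs => hXG s (Finset.mem_filter.1 hs).1) F hF1
        (fun s hs => (Finset.mem_filter.1 hs).2)
      refine h1.trans ?_
      have h2 : C₁ * B ^ η * B ^ (r + 1) * F ^ (n - r) =
          C₁ * B ^ (η + ((r : ℝ) + 1) + (1 - t) * ((n : ℝ) - r)) := by
        rw [Real.rpow_add hB0, Real.rpow_add hB0, hF, ← Real.rpow_natCast (B ^ (1 - t)),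
          ← Real.rpow_mul hB0.le, hrn]
        rw [show ((r : ℝ) + 1) = ((r + 1 : ℕ) : ℝ) by push_cast; ring, Real.rpow_natCast]
        ring
      rw [h2]
      refine mul_le_mul_of_nonneg_left (Real.rpow_le_rpow_of_exponent_le hB ?_) (by linarith)
      nlinarith
    -- second part
    have hX₂c : (X₂.card : ℝ) ≤ C₃ * C₄ * 2 ^ (δ₀ / 2) * B ^ ((n : ℝ) + 1 - δ) := by
      obtain ⟨R, hRX, hRs, hRc⟩ := hcl B hB X₂
        (fun s hs => hXG s (Finset.mem_filter.1 hs).1)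
      have hRF : ∀ t ∈ R, F ≤ Phi t := by
        intro t ht
        have := (Finset.mem_filter.1 (hRX ht)).2
        push Not at this
        exact this.le
      have h1 := hRc F hF1 R subset_rfl hRF
      have h2 : X₂ ⊆ R.biUnion (fun t => X₂.filter (fun s => SimV t s)) := by
        intro s hs
        obtain ⟨t, ht, hts⟩ := hRs s hs
        exact Finset.mem_biUnion.2 ⟨t, ht, Finset.mem_filter.2 ⟨hs, hts⟩⟩
      have h3 : (X₂.card : ℝ) ≤ ∑ t ∈ R, ((X₂.filter (fun s => SimV t s)).card : ℝ) := by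
        have := (Finset.card_le_card h2).trans Finset.card_biUnion_le
        exact_mod_cast this
      have h4 : ∀ t ∈ R, ((X₂.filter (fun s => SimV t s)).card : ℝ) ≤
          C₄ * ε ^ (1 / 2 : ℝ) * (B / F) ^ 2 * B ^ (n + 1) := by
        intro t ht
        have htX : t ∈ X := (Finset.mem_filter.1 (hRX ht)).1
        refine hcb B F ε hB hF1 hε0 hε1 t (hXG t htX) (hRF t ht) _
          (hNp _ ((Finset.filter_subset _ _).trans (Finset.filter_subset _ _)))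
          (fun s hs => (Finset.mem_filter.1 hs).2) (fun s hs => ?_)
        exact hXbad s (Finset.mem_filter.1 (Finset.mem_filter.1 hs).1).1
      have h5 : (X₂.card : ℝ) ≤ R.card * (C₄ * ε ^ (1 / 2 : ℝ) * (B / F) ^ 2 * B ^ (n + 1)) := by
        refine h3.trans ((Finset.sum_le_sum h4).trans ?_)
        rw [Finset.sum_const, nsmul_eq_mul]
      have h6 : (X₂.card : ℝ) ≤ C₃ * B ^ η * (B / F) ^ (r + 1) *
          (C₄ * ε ^ (1 / 2 : ℝ) * (B / F) ^ 2 * B ^ (n + 1)) := by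
        refine h5.trans (mul_le_mul_of_nonneg_right h1 ?_)
        positivity
      refine h6.trans ?_
      have h7 : ε ^ (1 / 2 : ℝ) = 2 ^ (δ₀ / 2) * B ^ (-δ₀ / 2) := by
        rw [hε, ← Real.rpow_mul hB20.le, Real.div_rpow hB0.le (by norm_num),
          show -δ₀ * (1 / 2) = -(δ₀ / 2) by ring, Real.rpow_neg (by norm_num : (0 : ℝ) ≤ 2),
          show -δ₀ / 2 = -(δ₀ / 2) by ring]
        field_simp
      have h8 : C₃ * B ^ η * (B / F) ^ (r + 1) *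
          (C₄ * ε ^ (1 / 2 : ℝ) * (B / F) ^ 2 * B ^ (n + 1)) =
          C₃ * C₄ * 2 ^ (δ₀ / 2) *
            B ^ (η + t * ((r : ℝ) + 1) + -δ₀ / 2 + t * 2 + ((n : ℝ) + 1)) := by
        rw [hBF, h7, ← Real.rpow_natCast (B ^ t) (r + 1), ← Real.rpow_natCast (B ^ t) 2,
          ← Real.rpow_mul hB0.le, ← Real.rpow_mul hB0.le, Real.rpow_add hB0, Real.rpow_add hB0,
          Real.rpow_add hB0, Real.rpow_add hB0]
        rw [show ((n : ℝ) + 1) = ((n + 1 : ℕ) : ℝ) by push_cast; ring, Real.rpow_natCast]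
        push_cast
        ring
      rw [h8]
      refine mul_le_mul_of_nonneg_left (Real.rpow_le_rpow_of_exponent_le hB ?_) (by positivity)
      nlinarith
    have h9 : 0 ≤ C₁ * C₂ ^ (n - r) * H₁ ^ (η + δ) * B ^ ((n : ℝ) + 1 - δ) := by positivity
    rw [hcard]
    nlinarith

/-- AL19 : `n > r` -/
theorem count_gt {S : Set (HeightOneSpectrum (𝓞 K))} (hSf : S.Finite)
    (L : Fin q → Fin (n + 1) → K) (hL : ∀ i j, i ≠ j → LinearIndependent K ![L i, L j])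
    (hL0 : ∀ j, L j ≠ 0) (r : ℕ) (hr : 2 ≤ r) (hn : r < n) (ρ c : ℝ) (hρ : ρ < q) :
    ∃ (δ C : ℝ), 0 < δ ∧ ∀ B : ℝ, 1 ≤ B → ∀ X : Finset (Vc K (n + 1)), Np X →
      (∀ s ∈ X, Gd r B s ∧ ∃ _ : NumberField s.1, (∀ j, lin (up s.1 L j) s.2 ≠ 0) ∧
        truncCount (above K s.1 S) (up s.1 L) s.2 ≤ ρ * logHeight s.2 + c) →
      (X.card : ℝ) ≤ C * B ^ ((n : ℝ) + 1 - δ) := by
  classical
  obtain ⟨δ, C, hδ, hδ1, hC, h⟩ := shell hSf L hL hL0 r hr hn ρ c hρ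
  refine ⟨δ, 2 * C, hδ, ?_⟩
  have hn1 : (1 : ℝ) ≤ n := by exact_mod_cast (by omega : 1 ≤ n)
  have hind : ∀ k : ℕ, ∀ B : ℝ, 1 ≤ B → B < 2 ^ k → ∀ X : Finset (Vc K (n + 1)), Np X →
      (∀ s ∈ X, Gd r B s ∧ ∃ _ : NumberField s.1, (∀ j, lin (up s.1 L j) s.2 ≠ 0) ∧
        truncCount (above K s.1 S) (up s.1 L) s.2 ≤ ρ * logHeight s.2 + c) →
      (X.card : ℝ) ≤ 2 * C * B ^ ((n : ℝ) + 1 - δ) := by
    intro k
    induction k with
    | zero =>
      intro B hB hB'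
      rw [pow_zero] at hB'
      linarith
    | succ k ih =>
      intro B hB hBk X hX hall
      have hB0 : 0 < B := by linarith
      have hNp : ∀ Z : Finset (Vc K (n + 1)), Z ⊆ X → Np Z := fun Z hZ E x y hx hy z hz h =>
        hX E x y (hZ hx) (hZ hy) z hz h
      set X₁ := X.filter (fun s => Gd r (B / 2) s) with hX₁
      set X₂ := X.filter (fun s => ¬ Gd r (B / 2) s) with hX₂
      have hcard : (X.card : ℝ) = X₁.card + X₂.card := by
        rw [hX₁, hX₂]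
        exact_mod_cast (Finset.card_filter_add_card_filter_not _).symm
      have h2 : (X₂.card : ℝ) ≤ C * B ^ ((n : ℝ) + 1 - δ) := by
        refine h B hB X₂ (hNp _ (Finset.filter_subset _ _)) (fun s hs => ?_)
        obtain ⟨hs1, hs2⟩ := Finset.mem_filter.1 hs
        exact ⟨(hall s hs1).1, hs2, (hall s hs1).2⟩
      have h1 : (X₁.card : ℝ) ≤ C * B ^ ((n : ℝ) + 1 - δ) := by
        rcases lt_or_ge (B / 2) 1 with hlt | hge
        · have he : X₁ = ∅ := by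
            rw [hX₁, Finset.filter_eq_empty_iff]
            rintro s hs ⟨hnf, -, -, -, hht⟩
            have := one_le_mulHeight s.2
            linarith
          rw [he, Finset.card_empty, Nat.cast_zero]
          positivity
        · have h3 := ih (B / 2) hge (by rw [pow_succ] at hBk; linarith) X₁
            (hNp _ (Finset.filter_subset _ _)) (fun s hs => by
              obtain ⟨hs1, hs2⟩ := Finset.mem_filter.1 hs
              exact ⟨hs2, (hall s hs1).2⟩)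
          refine h3.trans ?_
          rw [Real.div_rpow hB0.le (by norm_num)]
          have h4 : (2 : ℝ) ≤ 2 ^ ((n : ℝ) + 1 - δ) := by
            calc (2 : ℝ) = 2 ^ (1 : ℝ) := (Real.rpow_one 2).symm
              _ ≤ 2 ^ ((n : ℝ) + 1 - δ) :=
                Real.rpow_le_rpow_of_exponent_le (by norm_num) (by linarith)
          have h5 : 0 < B ^ ((n : ℝ) + 1 - δ) := Real.rpow_pos_of_pos hB0 _
          have h6 : B ^ ((n : ℝ) + 1 - δ) / 2 ^ ((n : ℝ) + 1 - δ) ≤ B ^ ((n : ℝ) + 1 - δ) / 2 :=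
            div_le_div_of_nonneg_left h5.le (by norm_num) h4
          nlinarith
      rw [hcard]
      linarith
  intro B hB X hX hall
  obtain ⟨k, hk⟩ := pow_unbounded_of_one_lt B (by norm_num : (1 : ℝ) < 2)
  exact hind k B hB hk X hX hall

end bad

end Pool.Agent.Lib.MP_44a246_ntAL
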