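import Pool.Agent.Lib.MP_44a246_ntNF.Tools
import Pool.Agent.Lib.MP_44a246_ntNU.Defs

/-!
# Almost all points of bounded degree: definitions
-/

set_option autoImplicit false

open NumberField IsDedekindDomain Height
open Pool.Agent.Lib.MP_4d5ce1_nt (fa nv ordv)

namespace Pool.Agent.Lib.MP_44a246_ntAL

universe u

section
variable {E : Type*} [Field E] [NumberField E]

/-- The elements with finite absolute values at most `a` and infinite ones at most `s * b`. -/
def Bx (a : HeightOneSpectrum (𝓞 E) → ℝ) (b : InfinitePlace E → ℝ) (s : ℝ) : Set E :=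
  {z | (∀ w, fa w z ≤ a w) ∧ ∀ w : InfinitePlace E, w z ≤ s * b w}

/-- Admissible weights. -/
structure Adm (a : HeightOneSpectrum (𝓞 E) → ℝ) (b : InfinitePlace E → ℝ) : Prop where
  pow : ∀ w, ∃ k : ℤ, a w = nv w ^ k
  fin : (Function.mulSupport a).Finite
  pos : ∀ w, 0 < b w

/-- The height of the weights. -/
noncomputable def hb (a : HeightOneSpectrum (𝓞 E) → ℝ) (b : InfinitePlace E → ℝ) : ℝ :=
  (∏ᶠ w, a w) * ∏ w : InfinitePlace E, b w ^ w.mult

/-- Size of a vector at a finite place. -/
noncomputable def tf {ι : Type*} (x : ι → E) (w : HeightOneSpectrum (𝓞 E)) : ℝ := ⨆ i, fa w (x i)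

/-- Size of a vector at an infinite place. -/
noncomputable def ti {ι : Type*} (x : ι → E) (w : InfinitePlace E) : ℝ := ⨆ i, w (x i)

/-- `x` and `y` have the same sizes up to a scalar (and a factor `3` at the infinite places). -/
def Sim {m : ℕ} (x y : Fin m → E) : Prop :=
  ∃ z : E, z ≠ 0 ∧ (∀ w : HeightOneSpectrum (𝓞 E), fa w z * tf y w = tf x w) ∧
    (∀ w : InfinitePlace E, w z * ti y w ≤ 3 * ti x w) ∧
    ∀ w : InfinitePlace E, ti x w ≤ 3 * (w z * ti y w)

/-- The norm of the ideal with exponents `k`. -/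
noncomputable def Nk (k : HeightOneSpectrum (𝓞 E) →₀ ℕ) : ℝ := k.prod fun w e => nv w ^ e

end

/-- The primes of `E` over `v`. -/
noncomputable def ov (K E : Type*) [Field K] [NumberField K] [Field E] [NumberField E]
    [Algebra K E] (v : HeightOneSpectrum (𝓞 K)) : Finset (HeightOneSpectrum (𝓞 E)) :=
  open Classical in
  if h : {w : HeightOneSpectrum (𝓞 E) |
    w.asIdeal.comap (algebraMap (𝓞 K) (𝓞 E)) = v.asIdeal}.Finite then h.toFinset else ∅

/-- The infinite places of `E` over `v`. -/
noncomputable def oi (K E : Type*) [Field K] [NumberField K] [Field E] [NumberField E]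
    [Algebra K E] (v : InfinitePlace K) : Finset (InfinitePlace E) :=
  open Classical in Finset.univ.filter fun w => w.comap (algebraMap K E) = v

/-- The coefficients of `N(u T - z) = N(u) * minpoly (z / u)`, multiplied by `c`. -/
noncomputable def gv (K : Type*) {E : Type*} [Field K] [Field E] [Algebra K E] (r : ℕ) (c : K)
    (u z : E) : Fin (r + 1) → K :=
  fun i => c * Algebra.norm K u * (minpoly K (z / u)).coeff i.val

/-- Vectors over finite extensions of `K` inside the algebraic closure. -/
abbrev Vc (K : Type u) [Field K] (m : ℕ) : Type u :=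
  Σ F : IntermediateField K (AlgebraicClosure K), (Fin m → F)

/-- Similarity of two vectors (over the same field). -/
def SimV {K : Type u} [Field K] {m : ℕ} (s t : Vc K m) : Prop :=
  ∃ (F : IntermediateField K (AlgebraicClosure K)) (_ : NumberField F) (x y : Fin m → F),
    s = ⟨F, x⟩ ∧ t = ⟨F, y⟩ ∧ Sim x y

open Classical in
/-- The number of elements in the box of a vector. -/
noncomputable def Phi {K : Type u} [Field K] {m : ℕ} (s : Vc K m) : ℕ :=
  if h : NumberField s.1 then
    haveI := h
    (Bx (tf s.2) (ti s.2) 1).ncard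
  else 0

/-- A vector over a field of degree `r`, the ratios of whose coordinates generate the field, of
height at most `B`. -/
def Gd {K : Type u} [Field K] {m : ℕ} (r : ℕ) (B : ℝ) (s : Vc K m) : Prop :=
  ∃ _ : NumberField s.1, Module.finrank K s.1 = r ∧ s.2 ≠ 0 ∧
    IntermediateField.adjoin K {z : s.1 | ∃ i k, z = s.2 i / s.2 k} = ⊤ ∧ mulHeight s.2 ≤ B

/-- The vectors are pairwise non-proportional. -/
def Np {K : Type u} [Field K] {m : ℕ} (X : Finset (Vc K m)) : Prop :=
  ∀ (F : IntermediateField K (AlgebraicClosure K)) (x y : Fin m → F), (⟨F, x⟩ : Vc K m) ∈ X →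
    (⟨F, y⟩ : Vc K m) ∈ X → ∀ z : F, z ≠ 0 → x = z • y → x = y

end Pool.Agent.Lib.MP_44a246_ntAL
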