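import Mathlib

set_option autoImplicit false

open NumberField IsDedekindDomain Height MeasureTheory Metric Module
open scoped ENNReal

namespace Pool.Agent.Lib.MP_44a246_ntAL

universe u

/-- The number of points of a ball with large mutual distances. -/
private theorem card_le_sep {F : Type*} [NormedAddCommGroup F] [NormedSpace ℝ F]
    [FiniteDimensional ℝ F] (S : Finset F) (R δ : ℝ) (hR : 0 ≤ R) (hδ : 0 < δ)
    (hs : ∀ c ∈ S, ‖c‖ ≤ R) (h : ∀ c ∈ S, ∀ d ∈ S, c ≠ d → 2 * δ ≤ ‖c - d‖) :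
    (S.card : ℝ) ≤ ((R + δ) / δ) ^ finrank ℝ F := by
  borelize F
  let μ : Measure F := Measure.addHaar
  obtain ⟨ρ, hρ⟩ : ∃ ρ : ℝ, ρ = R + δ := ⟨_, rfl⟩
  have ρpos : 0 < ρ := by rw [hρ]; linarith
  rw [← hρ]
  set A := ⋃ c ∈ S, ball (c : F) δ with hA
  have D : Set.Pairwise (S : Set F) (Function.onFun Disjoint fun c => ball (c : F) δ) := by
    rintro c hc d hd hcd
    apply ball_disjoint_ball
    rw [dist_eq_norm]
    have := h c hc d hd hcd
    linarith
  have A_subset : A ⊆ ball (0 : F) ρ := by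
    refine Set.iUnion₂_subset fun x hx => ?_
    apply ball_subset_ball'
    rw [dist_zero_right, hρ]
    have := hs x hx
    linarith
  have I : (S.card : ℝ≥0∞) * ENNReal.ofReal (δ ^ finrank ℝ F) * μ (ball 0 1) ≤
      ENNReal.ofReal (ρ ^ finrank ℝ F) * μ (ball 0 1) :=
    calc
      (S.card : ℝ≥0∞) * ENNReal.ofReal (δ ^ finrank ℝ F) * μ (ball 0 1) = μ A := by
        rw [hA, measure_biUnion_finset D fun c _ => measurableSet_ball]
        simp only [μ.addHaar_ball_of_pos _ hδ]
        simp only [Finset.sum_const, nsmul_eq_mul, mul_assoc]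
      _ ≤ μ (ball (0 : F) ρ) := measure_mono A_subset
      _ = ENNReal.ofReal (ρ ^ finrank ℝ F) * μ (ball 0 1) := by
        simp only [μ.addHaar_ball_of_pos _ ρpos]
  have J : (S.card : ℝ≥0∞) * ENNReal.ofReal (δ ^ finrank ℝ F) ≤
      ENNReal.ofReal (ρ ^ finrank ℝ F) :=
    (ENNReal.mul_le_mul_iff_left (measure_ball_pos _ _ zero_lt_one).ne' measure_ball_lt_top.ne).1 I
  have K := ENNReal.toReal_le_of_le_ofReal (pow_nonneg ρpos.le _) J
  rw [ENNReal.toReal_mul, ENNReal.toReal_natCast, ENNReal.toReal_ofReal (pow_nonneg hδ.le _)] at K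
  rw [div_pow, le_div_iff₀ (pow_pos hδ _)]
  exact K

/-- A maximal subset with large mutual distances. -/
private theorem exists_max_sep {E : Type*} [DecidableEq E] (Y : Finset E) (P : E → E → Prop)
    (hP : ∀ x y, P x y → P y x) :
    ∃ Y0 ⊆ Y, (∀ x ∈ Y0, ∀ y ∈ Y0, x ≠ y → P x y) ∧
      ∀ y ∈ Y, ∃ x ∈ Y0, x = y ∨ ¬ P x y := by
  classical
  obtain ⟨Q, hQ⟩ : ∃ Q : Finset E → Prop, ∀ Z, Q Z ↔ ∀ x ∈ Z, ∀ y ∈ Z, x ≠ y → P x y :=
    ⟨_, fun _ => Iff.rfl⟩
  obtain ⟨Y0, h0, hmax⟩ := Finset.exists_max_image (Y.powerset.filter Q) Finset.card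
    ⟨∅, by rw [Finset.mem_filter, hQ]; simp⟩
  rw [Finset.mem_filter, Finset.mem_powerset, hQ] at h0
  refine ⟨Y0, h0.1, h0.2, fun y hy => ?_⟩
  by_contra hno
  push Not at hno
  have hy0 : y ∉ Y0 := fun hc => (hno y hc).1 rfl
  have h1 : insert y Y0 ∈ Y.powerset.filter Q := by
    rw [Finset.mem_filter, Finset.mem_powerset, hQ]
    refine ⟨Finset.insert_subset hy h0.1, ?_⟩
    intro a ha b hb hab
    rw [Finset.mem_insert] at ha hb
    rcases ha with rfl | ha
    · rcases hb with rfl | hb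
      · exact absurd rfl hab
      · exact hP _ _ (hno b hb).2
    · rcases hb with rfl | hb
      · exact (hno a ha).2
      · exact h0.2 a ha b hb hab
  have h2 := hmax _ h1
  rw [Finset.card_insert_of_notMem hy0] at h2
  omega

/-- EA1 : cells in a subspace -/
theorem cell_sub (D : ℕ) : ∃ C : ℝ, 1 ≤ C ∧ ∀ (E : Type u) [Field E] [NumberField E],
    Module.finrank ℚ E ≤ D → ∀ (V : Submodule ℚ E) (b : InfinitePlace E → ℝ), (∀ w, 0 < b w) →
      ∀ s s' : ℝ, 0 < s → 0 < s' → ∀ Y : Finset E, Y.Nonempty →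
        (∀ y ∈ Y, y ∈ V ∧ ∀ w : InfinitePlace E, w y ≤ s * b w) →
        ∃ Y' ⊆ Y, Y'.Nonempty ∧
          (Y.card : ℝ) ≤ C * (1 + s / s') ^ Module.finrank ℚ V * Y'.card ∧
          ∀ y ∈ Y', ∀ z ∈ Y', ∀ w : InfinitePlace E, w (y - z) ≤ s' * b w := by
  classical
  refine ⟨4 ^ D, one_le_pow₀ (by norm_num), fun E _ _ hD V b hb s s' hs hs' Y hY hYb => ?_⟩
  -- the embedding
  let j : E →ₗ[ℚ] (InfinitePlace E → ℂ) :=
    { toFun := fun z w => w.embedding z / (b w : ℂ)
      map_add' := fun x y => by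
        funext w; simp only [map_add, add_div, Pi.add_apply]
      map_smul' := fun q x => by
        funext w
        simp only [Pi.smul_apply, RingHom.id_apply]
        rw [Rat.smul_def, map_mul, map_ratCast, Rat.smul_def, mul_div_assoc] }
  have hj : ∀ z w, ‖j z w‖ = w z / b w := by
    intro z w
    show ‖w.embedding z / (b w : ℂ)‖ = _
    rw [norm_div, InfinitePlace.norm_embedding_eq, Complex.norm_real, Real.norm_of_nonneg (hb w).le]
  have hjle : ∀ z (t : ℝ), 0 ≤ t → (∀ w : InfinitePlace E, w z ≤ t * b w) → ‖j z‖ ≤ t := by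
    intro z t ht hz
    rw [pi_norm_le_iff_of_nonneg ht]
    intro w
    rw [hj, div_le_iff₀ (hb w)]
    exact hz w
  have hjge : ∀ z (t : ℝ), ‖j z‖ ≤ t → ∀ w : InfinitePlace E, w z ≤ t * b w := by
    intro z t hz w
    have h1 := (norm_le_pi_norm (j z) w).trans hz
    rwa [hj, div_le_iff₀ (hb w)] at h1
  -- the real span
  let VR : Submodule ℝ (InfinitePlace E → ℂ) := Submodule.span ℝ (j '' V)
  have hdim : finrank ℝ VR ≤ finrank ℚ V := by
    have h1 : VR ≤ Submodule.span ℝ (Set.range fun i => j (finBasis ℚ V i : E)) := by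
      rw [Submodule.span_le]
      rintro _ ⟨v, hv, rfl⟩
      have h2 := congrArg Subtype.val ((finBasis ℚ V).sum_repr ⟨v, hv⟩)
      rw [Submodule.coe_sum] at h2
      have h3 : j v = ∑ i, (((finBasis ℚ V).repr ⟨v, hv⟩ i : ℚ) : ℝ) •
          j (finBasis ℚ V i : E) := by
        have h4 : j v = j (∑ i, ((finBasis ℚ V).repr ⟨v, hv⟩ i • finBasis ℚ V i : V) : E) := by
          rw [h2]
        rw [h4, map_sum]
        refine Finset.sum_congr rfl fun i _ => ?_
        rw [Submodule.coe_smul, map_smul, Rat.cast_smul_eq_qsmul]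
      rw [h3]
      exact Submodule.sum_mem _ fun i _ => Submodule.smul_mem _ _
        (Submodule.subset_span (Set.mem_range_self i))
    refine (Submodule.finrank_mono h1).trans ((finrank_range_le_card _).trans ?_)
    rw [Fintype.card_fin]
  obtain ⟨Y0, hY0, hsep, hcov⟩ := exists_max_sep Y (fun x y => s' / 2 < ‖j x - j y‖)
    (fun x y hxy => by rwa [norm_sub_rev])
  have hmem : ∀ y ∈ Y, j y ∈ VR := fun y hy =>
    Submodule.subset_span (Set.mem_image_of_mem _ (hYb y hy).1)
  have hn : ∀ y ∈ Y, ‖j y‖ ≤ s := fun y hy => hjle y s hs.le (hYb y hy).2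
  have hinj : ∀ x ∈ Y0, ∀ y ∈ Y0, j x = j y → x = y := by
    intro x hx y hy hxy
    by_contra hne
    have := hsep x hx y hy hne
    rw [hxy, sub_self, norm_zero] at this
    linarith
  have hcard : (Y0.card : ℝ) ≤ (4 * (1 + s / s')) ^ finrank ℚ V := by
    let S : Finset VR := Y0.attach.image (fun y => (⟨j y.1, hmem y.1 (hY0 y.2)⟩ : VR))
    have hS : S.card = Y0.card := by
      rw [Finset.card_image_of_injOn, Finset.card_attach]
      intro x _ y _ hxy
      exact Subtype.ext (hinj _ x.2 _ y.2 (congrArg Subtype.val hxy))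
    have h1 := card_le_sep S s (s' / 4) hs.le (by linarith) (by
        intro c hc
        obtain ⟨y, _, rfl⟩ := Finset.mem_image.1 hc
        exact hn y.1 (hY0 y.2)) (by
        intro c hc d hd hcd
        obtain ⟨x, _, rfl⟩ := Finset.mem_image.1 hc
        obtain ⟨y, _, rfl⟩ := Finset.mem_image.1 hd
        have hne : x.1 ≠ y.1 := fun e => hcd (by congr 2)
        have h3 := hsep x.1 x.2 y.1 y.2 hne
        show 2 * (s' / 4) ≤ ‖j x.1 - j y.1‖
        linarith)
    rw [hS] at h1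
    have h2 : (s + s' / 4) / (s' / 4) = 1 + 4 * (s / s') := by
      field_simp
      ring
    rw [h2] at h1
    have hpos : 0 < s / s' := div_pos hs hs'
    calc (Y0.card : ℝ) ≤ (1 + 4 * (s / s')) ^ finrank ℝ VR := h1
      _ ≤ (1 + 4 * (s / s')) ^ finrank ℚ V := pow_le_pow_right₀ (by linarith) hdim
      _ ≤ _ := pow_le_pow_left₀ (by linarith) (by linarith) _
  have hY0ne : Y0.Nonempty := by
    obtain ⟨y, hy⟩ := hY
    obtain ⟨x, hx, _⟩ := hcov y hy
    exact ⟨x, hx⟩
  have hcov' : ∀ y ∈ Y, ∃ x ∈ Y0, ‖j y - j x‖ ≤ s' / 2 := by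
    intro y hy
    obtain ⟨x, hx, h1⟩ := hcov y hy
    refine ⟨x, hx, ?_⟩
    rcases h1 with rfl | h1
    · rw [sub_self, norm_zero]; linarith
    · rw [norm_sub_rev]; exact not_lt.1 h1
  choose! f hf1 hf2 using hcov'
  obtain ⟨c0, hc0, hmax⟩ := Finset.exists_max_image Y0
    (fun c => (Y.filter (fun y => f y = c)).card) hY0ne
  have hsum : Y.card = ∑ c ∈ Y0, (Y.filter (fun y => f y = c)).card :=
    Finset.card_eq_sum_card_fiberwise (fun y hy => hf1 y hy)
  have hle : Y.card ≤ Y0.card * (Y.filter (fun y => f y = c0)).card := by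
    rw [hsum]
    have := Finset.sum_le_card_nsmul Y0 (fun c => (Y.filter (fun y => f y = c)).card)
      (Y.filter (fun y => f y = c0)).card (fun c hc => hmax c hc)
    simpa using this
  refine ⟨Y.filter (fun y => f y = c0), Finset.filter_subset _ _, ?_, ?_, ?_⟩
  · rw [← Finset.card_pos]
    by_contra h0
    have h0' : (Y.filter (fun y => f y = c0)).card = 0 := by omega
    rw [h0', mul_zero] at hle
    have := hY.card_pos
    omega
  · have h5 : (Y.card : ℝ) ≤ (Y0.card : ℝ) * ((Y.filter (fun y => f y = c0)).card : ℝ) := by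
      exact_mod_cast hle
    refine h5.trans (mul_le_mul_of_nonneg_right ?_ (by positivity))
    refine hcard.trans ?_
    rw [mul_pow]
    refine mul_le_mul_of_nonneg_right (pow_le_pow_right₀ (by norm_num) ?_) (by positivity)
    exact (Submodule.finrank_le V).trans hD
  · intro y hy z hz w
    rw [Finset.mem_filter] at hy hz
    refine hjge _ _ ?_ w
    have h1 := hf2 y hy.1
    have h2 := hf2 z hz.1
    rw [hy.2] at h1
    rw [hz.2] at h2
    rw [map_sub]
    calc ‖j y - j z‖ = ‖(j y - j c0) - (j z - j c0)‖ := by congr 1; abel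
      _ ≤ ‖j y - j c0‖ + ‖j z - j c0‖ := norm_sub_le _ _
      _ ≤ s' := by linarith

end Pool.Agent.Lib.MP_44a246_ntAL
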