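import Pool.Agent.Lib.MP_44a246_ntAL.EDefs
import Pool.Agent.Lib.MP_44a246_ntAL.AL2
import Pool.Agent.Lib.MP_4d5ce1_nt.Kummer

set_option autoImplicit false
set_option linter.unusedVariables false

open NumberField IsDedekindDomain Height
open Pool.Agent.Lib.MP_4d5ce1_nt (fa nv ordv)
open Pool.Agent.Lib.MP_44a246_ntNF
open Pool.Agent.Lib.MP_44a246_ntNU
open scoped nonZeroDivisors

namespace Pool.Agent.Lib.MP_44a246_ntAL

universe u

/-- The fractional ideal of the weights. -/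
private lemma frac_EA2 {E : Type*} [Field E] [NumberField E]
    {a : HeightOneSpectrum (𝓞 E) → ℝ} {b : InfinitePlace E → ℝ} (hab : Adm a b) :
    ∃ I : (FractionalIdeal (𝓞 E)⁰ E)ˣ,
      ((FractionalIdeal.absNorm (I : FractionalIdeal (𝓞 E)⁰ E) : ℚ) : ℝ) * (∏ᶠ v, a v) = 1 ∧
      ∀ z : E, (∀ w, fa w z ≤ a w) → z ∈ (I : FractionalIdeal (𝓞 E)⁰ E) := by
  classical
  choose k hk using hab.pow
  have hk0 : ∀ v, k v ≠ 0 → a v ≠ 1 := by
    intro v h0 h1
    rw [hk v] at h1
    have h2 : (1 : ℝ) < nv v := Pool.Agent.Lib.MP_4d5ce1_nt.one_lt_nv v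
    exact h0 ((zpow_eq_one_iff_right₀ (by linarith) h2.ne').mp h1)
  let e : HeightOneSpectrum (𝓞 E) →₀ ℤ := Finsupp.onFinset hab.fin.toFinset (fun v => - k v)
    (fun v hv => by
      rw [Set.Finite.mem_toFinset, Function.mem_mulSupport]
      exact hk0 v (fun h => hv (by rw [h, neg_zero])))
  have he : ∀ v, e v = - k v := fun v => rfl
  obtain ⟨I, hI⟩ : ∃ I : FractionalIdeal (𝓞 E)⁰ E, I =
    e.prod (fun v n => (v.asIdeal : FractionalIdeal (𝓞 E)⁰ E) ^ n) := ⟨_, rfl⟩
  have hI0 : I ≠ 0 := by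
    rw [hI, Finsupp.prod]
    exact Finset.prod_ne_zero_iff.mpr fun v _ =>
      zpow_ne_zero _ (FractionalIdeal.coeIdeal_ne_zero.mpr v.ne_bot)
  have hN : ((FractionalIdeal.absNorm I : ℚ) : ℝ) = ∏ v ∈ e.support, (a v)⁻¹ := by
    rw [hI, Finsupp.prod, map_prod]
    push_cast
    refine Finset.prod_congr rfl fun v _ => ?_
    rw [map_zpow₀, FractionalIdeal.coeIdeal_absNorm, hk v, he, ← zpow_neg]
    push_cast
    rfl
  have hN2 : ∏ᶠ v, a v = ∏ v ∈ e.support, a v := by
    rw [finprod_eq_finsetProd_of_mulSupport_subset (s := e.support)]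
    intro v hv
    rw [Function.mem_mulSupport] at hv
    rw [Finset.mem_coe, Finsupp.mem_support_iff, he]
    intro h0
    apply hv
    rw [hk v, neg_eq_zero.1 h0, zpow_zero]
  refine ⟨Units.mk0 I hI0, ?_, fun z hz => ?_⟩
  · rw [Units.val_mk0, hN, hN2, ← Finset.prod_mul_distrib]
    refine Finset.prod_eq_one fun v _ => inv_mul_cancel₀ ?_
    rw [hk v]
    exact zpow_ne_zero _ (Pool.Agent.Lib.MP_4d5ce1_nt.nv_ne_zero v)
  · rw [Units.val_mk0]
    by_cases hz0 : z = 0
    · rw [hz0]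
      exact FractionalIdeal.zero_mem I
    obtain ⟨J, hJ⟩ : ∃ J, J = FractionalIdeal.spanSingleton (𝓞 E)⁰ z * I⁻¹ := ⟨_, rfl⟩
    have hs0 : FractionalIdeal.spanSingleton (𝓞 E)⁰ z ≠ 0 :=
      FractionalIdeal.spanSingleton_ne_zero_iff.mpr hz0
    have hJ0 : J ≠ 0 := by
      rw [hJ]
      exact mul_ne_zero hs0 (inv_ne_zero hI0)
    have hc : ∀ v, 0 ≤ FractionalIdeal.count E v J := by
      intro v
      have h3 : FractionalIdeal.count E v I = - k v := by
        rw [hI, FractionalIdeal.count_finsuppProd, he]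
      rw [hJ, FractionalIdeal.count_mul E v hs0 (inv_ne_zero hI0), FractionalIdeal.count_inv, h3,
        Pool.Agent.Lib.MP_4d5ce1_nt.count_spanSingleton v hz0]
      have h4 := hz v
      rw [Pool.Agent.Lib.MP_4d5ce1_nt.fa_eq v hz0, hk v,
        zpow_le_zpow_iff_right₀ (Pool.Agent.Lib.MP_4d5ce1_nt.one_lt_nv v)] at h4
      omega
    have hJ1 : J ≤ 1 := by
      rw [← FractionalIdeal.finprod_heightOneSpectrum_factorization' E hJ0]
      refine finprod_induction (p := fun J : FractionalIdeal (𝓞 E)⁰ E => J ≤ 1) le_rfl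
        (fun x y hx hy => ?_) fun v => ?_
      · exact mul_le_one' hx hy
      · obtain ⟨m, hm⟩ := Int.eq_ofNat_of_zero_le (hc v)
        rw [hm, zpow_natCast, ← FractionalIdeal.coeIdeal_pow]
        exact FractionalIdeal.coeIdeal_le_one
    rw [← FractionalIdeal.spanSingleton_le_iff_mem]
    calc FractionalIdeal.spanSingleton (𝓞 E)⁰ z = J * I := by
          rw [hJ, mul_assoc, inv_mul_cancel₀ hI0, mul_one]
      _ ≤ 1 * I := mul_le_mul_left hJ1 I
      _ = I := one_mul I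

/-- The product over the complex embeddings. -/
private lemma prod_emb_EA2 {E : Type*} [Field E] [NumberField E] (b : InfinitePlace E → ℝ) :
    ∏ σ : E →ₐ[ℚ] ℂ, b (InfinitePlace.mk σ.toRingHom) = ∏ w : InfinitePlace E, b w ^ w.mult := by
  classical
  have h1 : ∏ w : InfinitePlace E, b w ^ w.mult = ∏ φ : E →+* ℂ, b (InfinitePlace.mk φ) := by
    rw [← Finset.prod_fiberwise Finset.univ (fun φ : E →+* ℂ => InfinitePlace.mk φ)]
    refine Finset.prod_congr rfl fun w _ => ?_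
    rw [← InfinitePlace.card_filter_mk_eq, ← Finset.prod_const]
    refine Finset.prod_congr rfl fun φ hφ => ?_
    rw [(Finset.mem_filter.1 hφ).2]
  rw [h1]
  exact Fintype.prod_equiv (RingHom.equivRatAlgHom E ℂ).symm _ _ fun σ => rfl

/-- Bound for the discriminant of a family of elements of the box. -/
private lemma discr_le_EA2 {E : Type*} [Field E] [NumberField E] {ι : Type*} [Fintype ι]
    [DecidableEq ι] (e : ι ≃ (E →ₐ[ℚ] ℂ)) (b : InfinitePlace E → ℝ) (hb : ∀ w, 0 < b w)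
    (y : ι → E) (hy : ∀ i, ∀ w : InfinitePlace E, w (y i) ≤ b w) :
    √|((Algebra.discr ℚ y : ℚ) : ℝ)| ≤ (Fintype.card ι).factorial *
      ∏ w : InfinitePlace E, b w ^ w.mult := by
  classical
  have h1 := Algebra.discr_eq_det_embeddingsMatrixReindex_pow_two ℚ ℂ y e
  have h2 : |((Algebra.discr ℚ y : ℚ) : ℝ)| =
      ‖(Algebra.embeddingsMatrixReindex ℚ ℂ y e).det‖ ^ 2 := by
    rw [← norm_pow, ← h1]
    have h3 : (algebraMap ℚ ℂ) (Algebra.discr ℚ y) = (((Algebra.discr ℚ y : ℚ) : ℝ) : ℂ) := by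
      simp
    rw [h3, Complex.norm_real, Real.norm_eq_abs]
  rw [h2, Real.sqrt_sq (norm_nonneg _), Matrix.det_apply]
  refine (norm_sum_le _ _).trans ?_
  have h4 : ∀ π ∈ (Finset.univ : Finset (Equiv.Perm ι)),
      ‖Equiv.Perm.sign π • ∏ i, Algebra.embeddingsMatrixReindex ℚ ℂ y e (π i) i‖ ≤
        ∏ w : InfinitePlace E, b w ^ w.mult := by
    intro π _
    have h5 : ‖Equiv.Perm.sign π • ∏ i, Algebra.embeddingsMatrixReindex ℚ ℂ y e (π i) i‖ =
        ∏ i, ‖Algebra.embeddingsMatrixReindex ℚ ℂ y e (π i) i‖ := by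
      rcases Int.units_eq_one_or (Equiv.Perm.sign π) with h | h
      · rw [h, one_smul, norm_prod]
      · rw [h, Units.neg_smul, one_smul, norm_neg, norm_prod]
    rw [h5, ← prod_emb_EA2 b, ← Equiv.prod_comp e]
    refine Finset.prod_le_prod (fun i _ => norm_nonneg _) fun i _ => ?_
    have h6 : Algebra.embeddingsMatrixReindex ℚ ℂ y e (π i) i = e i (y (π i)) := rfl
    rw [h6]
    exact hy (π i) (InfinitePlace.mk (e i).toRingHom)
  refine (Finset.sum_le_card_nsmul _ _ _ h4).trans ?_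
  rw [Finset.card_univ, Fintype.card_perm, nsmul_eq_mul]

/-- Elements of a set with bounded coordinates and with few classes. -/
private lemma card_le_EA2 {E : Type*} [Field E] [NumberField E] {ι : Type*} [Fintype ι]
    [DecidableEq ι] (y b₂ : Module.Basis ι ℚ E) (L₁ L₂ : AddSubgroup E)
    (h₁ : L₁ = .closure (Set.range y)) (h₂ : L₂ = .closure (Set.range b₂)) (hL : L₁ ≤ L₂)
    (Z : Finset E) (hZ : ∀ z ∈ Z, z ∈ L₂ ∧ ∀ j, |y.repr z j| ≤ 1) (h0 : L₁.relIndex L₂ ≠ 0) :
    Z.card ≤ 5 ^ Fintype.card ι * L₁.relIndex L₂ := by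
  classical
  have hfin : Finite (L₂ ⧸ L₁.addSubgroupOf L₂) := by
    apply Nat.finite_of_card_ne_zero
    exact h0
  have hft : Fintype (L₂ ⧸ L₁.addSubgroupOf L₂) := Fintype.ofFinite _
  let φ : E → (L₂ ⧸ L₁.addSubgroupOf L₂) := fun z =>
    if h : z ∈ L₂ then QuotientAddGroup.mk (⟨z, h⟩ : L₂) else 0
  have hcard : (Finset.univ : Finset (L₂ ⧸ L₁.addSubgroupOf L₂)).card = L₁.relIndex L₂ := by
    rw [Finset.card_univ, ← Nat.card_eq_fintype_card]
    rfl
  rw [← hcard]
  refine Finset.card_le_mul_card_image_of_maps_to (f := φ) (fun z _ => Finset.mem_univ _) _ ?_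
  intro c _
  rcases (Z.filter fun z => φ z = c).eq_empty_or_nonempty with h | ⟨z₀, hz₀⟩
  · rw [h, Finset.card_empty]
    exact Nat.zero_le _
  have h5 : (5 : ℕ) ^ Fintype.card ι =
      (Fintype.piFinset fun _ : ι => Finset.Icc (-2 : ℤ) 2).card := by
    rw [Fintype.card_piFinset, Finset.prod_const, Finset.card_univ]
    rfl
  rw [h5]
  have hz0 := Finset.mem_filter.1 hz₀
  have hint : ∀ z ∈ Z.filter fun z => φ z = c, ∀ j, ∃ m : ℤ, y.repr (z - z₀) j = m := by
    intro z hz j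
    have hz' := Finset.mem_filter.1 hz
    have h6 : φ z = φ z₀ := by rw [hz'.2, hz0.2]
    simp only [φ] at h6
    rw [dif_pos (hZ z hz'.1).1, dif_pos (hZ z₀ hz0.1).1] at h6
    have h7 : (⟨z₀, (hZ z₀ hz0.1).1⟩ : L₂) - ⟨z, (hZ z hz'.1).1⟩ ∈ L₁.addSubgroupOf L₂ := by
      have := QuotientAddGroup.eq.1 h6
      rw [sub_eq_neg_add]
      exact this
    have h8 : z₀ - z ∈ L₁ := AddSubgroup.mem_addSubgroupOf.1 h7
    have h9 : z - z₀ ∈ Submodule.span ℤ (Set.range y) := by
      rw [← neg_sub]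
      refine Submodule.neg_mem _ ?_
      rw [h₁, ← Submodule.span_int_eq_addSubgroupClosure] at h8
      exact h8
    have h10 := (y.mem_span_iff_repr_mem ℤ (z - z₀)).1 h9 j
    obtain ⟨m, hm⟩ := h10
    exact ⟨m, by rw [← hm]; rfl⟩
  choose! g hg using hint
  refine Finset.card_le_card_of_injOn (fun z => g z) ?_ ?_
  · intro z hz
    rw [Finset.mem_coe, Fintype.mem_piFinset]
    intro j
    have hz' := Finset.mem_filter.1 (Finset.mem_coe.1 hz)
    have h6 := hg z (Finset.mem_coe.1 hz) j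
    have h7 := abs_le.1 ((hZ z hz'.1).2 j)
    have h8 := abs_le.1 ((hZ z₀ hz0.1).2 j)
    rw [map_sub, Finsupp.sub_apply] at h6
    rw [Finset.mem_Icc]
    constructor
    · have : (-2 : ℚ) ≤ g z j := by rw [← h6]; linarith [h7.1, h8.2]
      exact_mod_cast this
    · have : (g z j : ℚ) ≤ 2 := by rw [← h6]; linarith [h7.2, h8.1]
      exact_mod_cast this
  · intro z hz z' hz' h6
    simp only at h6
    have h7 : y.repr (z - z₀) = y.repr (z' - z₀) := by
      ext j
      rw [hg z (Finset.mem_coe.1 hz) j, hg z' (Finset.mem_coe.1 hz') j, h6]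
    have h8 := y.repr.injective h7
    exact sub_left_injective h8

/-- EA2 : the number of elements of a box which spans the field over `ℚ` -/
theorem box_disc_rat (D : ℕ) : ∃ C : ℝ, 1 ≤ C ∧ ∀ (E : Type u) [Field E] [NumberField E],
    Module.finrank ℚ E ≤ D → ∀ (a : HeightOneSpectrum (𝓞 E) → ℝ) (b : InfinitePlace E → ℝ),
      Adm a b → Submodule.span ℚ (Bx a b 1) = ⊤ →
        ((Bx a b 1).ncard : ℝ) * √|((discr E : ℤ) : ℝ)| ≤ C * hb a b := by
  classical
  refine ⟨5 ^ D * D.factorial, ?_, ?_⟩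
  · have h1 : (1 : ℝ) ≤ 5 ^ D := one_le_pow₀ (by norm_num)
    have h2 : (1 : ℝ) ≤ D.factorial := by exact_mod_cast Nat.one_le_iff_ne_zero.2 D.factorial_ne_zero
    nlinarith
  intro E _ _ hD a b hab hspan
  obtain ⟨I, hI1, hI2⟩ := frac_EA2 hab
  have hfinB : (Bx a b 1).Finite := box_finite hab 1
  -- bases
  obtain ⟨B, hB⟩ : ∃ B : Module.Basis (Module.Free.ChooseBasisIndex ℤ (𝓞 E)) ℚ E,
    B = integralBasis E := ⟨_, rfl⟩
  have hcι : Fintype.card (Module.Free.ChooseBasisIndex ℤ (𝓞 E)) = Module.finrank ℚ E :=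
    (Module.finrank_eq_card_basis B).symm
  have hcI : Fintype.card (Module.Free.ChooseBasisIndex ℤ I) = Module.finrank ℚ E :=
    (Module.finrank_eq_card_basis (basisOfFractionalIdeal E I)).symm
  obtain ⟨e⟩ : Nonempty ((Module.Free.ChooseBasisIndex ℤ (𝓞 E)) ≃
      (Module.Free.ChooseBasisIndex ℤ I)) := ⟨Fintype.equivOfCardEq (hcι.trans hcI.symm)⟩
  obtain ⟨b₂, hb₂⟩ : ∃ b₂ : Module.Basis (Module.Free.ChooseBasisIndex ℤ (𝓞 E)) ℚ E,
    b₂ = (basisOfFractionalIdeal E I).reindex e.symm := ⟨_, rfl⟩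
  have hdet2 : |B.det b₂| = FractionalIdeal.absNorm I.1 := by
    rw [hB, hb₂]
    exact det_basisOfFractionalIdeal_eq_absNorm E I e
  have hmem2 : ∀ z ∈ Bx a b 1, z ∈ AddSubgroup.closure (Set.range b₂) := by
    intro z hz
    have h1 : z ∈ Submodule.span ℤ (Set.range (basisOfFractionalIdeal E I)) :=
      (mem_span_basisOfFractionalIdeal E).2 (hI2 z hz.1)
    rw [← Submodule.span_int_eq_addSubgroupClosure, hb₂, Module.Basis.range_reindex]
    exact h1
  -- a family with maximal determinant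
  obtain ⟨y₁, hy₁, hy₁0⟩ : ∃ y : Module.Free.ChooseBasisIndex ℤ (𝓞 E) → E,
      (∀ i, y i ∈ Bx a b 1) ∧ B.det y ≠ 0 := by
    obtain ⟨s, hs, hs2, hs3⟩ := exists_linearIndependent ℚ (Bx a b 1)
    have hsfin : s.Finite := hfinB.subset hs
    have hft : Fintype s := hsfin.fintype
    let bs : Module.Basis s ℚ E := Module.Basis.mk hs3 (by
      rw [Subtype.range_coe, hs2, hspan])
    have hcs : Fintype.card (Module.Free.ChooseBasisIndex ℤ (𝓞 E)) = Fintype.card s := by
      rw [hcι, Module.finrank_eq_card_basis bs]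
    let es := Fintype.equivOfCardEq hcs
    refine ⟨fun i => bs.reindex es.symm i, fun i => ?_, ?_⟩
    · change (bs.reindex es.symm) i ∈ Bx a b 1
      rw [Module.Basis.reindex_apply]
      simp only [bs, Module.Basis.mk_apply]
      exact hs (Subtype.coe_prop _)
    · exact (B.isUnit_det (bs.reindex es.symm)).ne_zero
  obtain ⟨y₀, hy₀, hmax⟩ := Set.exists_max_image
    {y : Module.Free.ChooseBasisIndex ℤ (𝓞 E) → E | ∀ i, y i ∈ Bx a b 1} (fun y => |B.det y|)
    (Set.Finite.pi' fun _ => hfinB) ⟨y₁, hy₁⟩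
  have hy₀0 : B.det y₀ ≠ 0 := by
    intro h0
    have h1 := hmax y₁ hy₁
    rw [h0, abs_zero] at h1
    exact hy₁0 (abs_nonpos_iff.1 h1)
  obtain ⟨hli, hsp⟩ := B.is_basis_iff_det.2 (isUnit_iff_ne_zero.2 hy₀0)
  obtain ⟨Y, hY⟩ : ∃ Y : Module.Basis (Module.Free.ChooseBasisIndex ℤ (𝓞 E)) ℚ E,
    Y = Module.Basis.mk hli hsp.ge := ⟨_, rfl⟩
  have hYc : (Y : _ → E) = y₀ := by rw [hY]; exact Module.Basis.coe_mk _ _
  have hcoef : ∀ z ∈ Bx a b 1, ∀ j, |Y.repr z j| ≤ 1 := by
    intro z hz j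
    have h1 := hmax (Function.update y₀ j z) (by
      intro i
      by_cases hij : i = j
      · rw [hij, Function.update_self]
        exact hz
      · rw [Function.update_of_ne hij]
        exact hy₀ i)
    have h2 : B.det (Function.update y₀ j z) = B.det y₀ * Y.repr z j := by
      have h3 : B.toMatrix (Function.update y₀ j z) =
          B.toMatrix Y * Y.toMatrix (Function.update y₀ j z) :=
        (Module.Basis.toMatrix_mul_toMatrix B Y _).symm
      rw [Module.Basis.det_apply, h3, Matrix.det_mul, ← Module.Basis.det_apply, hYc,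
        Module.Basis.toMatrix_update, ← hYc, Module.Basis.toMatrix_self, ← Matrix.cramer_apply,
        Matrix.cramer_one]
      rfl
    have h1' : |B.det (Function.update y₀ j z)| ≤ |B.det y₀| := h1
    rw [h2, abs_mul] at h1'
    have h4 : 0 < |B.det y₀| := abs_pos.2 hy₀0
    by_contra h5
    push Not at h5
    nlinarith
  -- the index
  obtain ⟨L₁, hL₁⟩ : ∃ L, L = AddSubgroup.closure (Set.range Y) := ⟨_, rfl⟩
  obtain ⟨L₂, hL₂⟩ : ∃ L, L = AddSubgroup.closure (Set.range b₂) := ⟨_, rfl⟩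
  have hL : L₁ ≤ L₂ := by
    rw [hL₁, AddSubgroup.closure_le, hYc, hL₂]
    rintro _ ⟨i, rfl⟩
    exact hmem2 _ (hy₀ i)
  have hidx : ((L₁.relIndex L₂ : ℕ) : ℚ) = |b₂.det Y| :=
    AddSubgroup.relIndex_eq_abs_det L₁ L₂ hL Y b₂ hL₁ hL₂
  have hdetY : B.det y₀ = B.det b₂ * b₂.det Y := by
    rw [← hYc, Module.Basis.det_apply, Module.Basis.det_apply, Module.Basis.det_apply,
      ← Matrix.det_mul, Module.Basis.toMatrix_mul_toMatrix]
  have hidx0 : L₁.relIndex L₂ ≠ 0 := by
    intro h0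
    rw [h0, Nat.cast_zero, eq_comm, abs_eq_zero] at hidx
    rw [hidx, mul_zero] at hdetY
    exact hy₀0 hdetY
  have hcardle : (Bx a b 1).ncard ≤ 5 ^ Module.finrank ℚ E * L₁.relIndex L₂ := by
    rw [Set.ncard_eq_toFinset_card _ hfinB, ← hcι]
    refine card_le_EA2 Y b₂ L₁ L₂ hL₁ hL₂ hL hfinB.toFinset (fun z hz => ?_) hidx0
    rw [Set.Finite.mem_toFinset] at hz
    refine ⟨?_, hcoef z hz⟩
    rw [hL₂]
    exact hmem2 z hz
  -- the discriminant
  have hdisc : Algebra.discr ℚ y₀ = (B.det y₀) ^ 2 * (discr E : ℚ) := by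
    have h1 := Algebra.discr_of_matrix_vecMul (A := ℚ) B (B.toMatrix y₀)
    rw [Module.Basis.toMatrix_map_vecMul] at h1
    rw [h1, coe_discr, Module.Basis.det_apply, hB]
  have hsq : √|((Algebra.discr ℚ y₀ : ℚ) : ℝ)| =
      ((FractionalIdeal.absNorm I.1 : ℚ) : ℝ) * (L₁.relIndex L₂ : ℝ) *
        √|((discr E : ℤ) : ℝ)| := by
    rw [hdisc]
    push_cast
    rw [abs_mul, Real.sqrt_mul (abs_nonneg _), abs_pow, Real.sqrt_sq (abs_nonneg _)]
    congr 1
    have h1 : |((B.det y₀ : ℚ) : ℝ)| = ((|B.det y₀| : ℚ) : ℝ) := by push_cast; rfl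
    rw [h1, hdetY, abs_mul, hdet2, ← hidx]
    push_cast
    rfl
  have hce : Fintype.card (Module.Free.ChooseBasisIndex ℤ (𝓞 E)) =
      Fintype.card (E →ₐ[ℚ] ℂ) := by
    rw [hcι, AlgHom.card]
  have hle := discr_le_EA2 (Fintype.equivOfCardEq hce) b hab.pos y₀ (fun i w => by
    have := (hy₀ i).2 w
    rwa [one_mul] at this)
  rw [hsq, hcι] at hle
  -- conclusion
  obtain ⟨Q, hQ⟩ : ∃ Q : ℝ, Q = ∏ w : InfinitePlace E, b w ^ w.mult := ⟨_, rfl⟩
  have hQ0 : 0 < Q := by
    rw [hQ]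
    exact Finset.prod_pos fun w _ => pow_pos (hab.pos w) _
  obtain ⟨P, hP⟩ : ∃ P : ℝ, P = ∏ᶠ v, a v := ⟨_, rfl⟩
  have hhb : hb a b = P * Q := by rw [hP, hQ]; rfl
  obtain ⟨N, hN⟩ : ∃ N : ℝ, N = ((FractionalIdeal.absNorm I.1 : ℚ) : ℝ) := ⟨_, rfl⟩
  have hNP : N * P = 1 := by rw [hN, hP]; exact hI1
  have hN0 : 0 < N := by
    have h1 : 0 ≤ N := by
      rw [hN]
      exact_mod_cast FractionalIdeal.absNorm_nonneg _
    rcases h1.lt_or_eq with h | h
    · exact h
    · rw [← h, zero_mul] at hNP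
      exact absurd hNP (by norm_num)
  have hP0 : 0 < P := by
    by_contra h
    push Not at h
    nlinarith
  rw [← hN, ← hQ] at hle
  rw [hhb]
  obtain ⟨R, hR⟩ : ∃ R : ℝ, R = (L₁.relIndex L₂ : ℝ) := ⟨_, rfl⟩
  obtain ⟨s, hs⟩ : ∃ s : ℝ, s = √|((discr E : ℤ) : ℝ)| := ⟨_, rfl⟩
  have hs0 : 0 ≤ s := by rw [hs]; exact Real.sqrt_nonneg _
  rw [← hR, ← hs] at hle
  rw [← hs]
  have h1 : ((Bx a b 1).ncard : ℝ) ≤ 5 ^ Module.finrank ℚ E * R := by
    rw [hR]
    exact_mod_cast hcardle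
  have h2 : R * s ≤ (Module.finrank ℚ E).factorial * (P * Q) := by
    have h3 : P * (N * R * s) ≤ P * ((Module.finrank ℚ E).factorial * Q) :=
      mul_le_mul_of_nonneg_left hle hP0.le
    have h4 : P * (N * R * s) = R * s := by
      calc P * (N * R * s) = (N * P) * (R * s) := by ring
        _ = R * s := by rw [hNP, one_mul]
    rw [h4] at h3
    linarith
  have h5 : (5 : ℝ) ^ Module.finrank ℚ E ≤ 5 ^ D := pow_le_pow_right₀ (by norm_num) hD
  have h6 : ((Module.finrank ℚ E).factorial : ℝ) ≤ D.factorial := by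
    exact_mod_cast Nat.factorial_le hD
  have hPQ : 0 < P * Q := mul_pos hP0 hQ0
  calc ((Bx a b 1).ncard : ℝ) * s ≤ (5 ^ Module.finrank ℚ E * R) * s :=
        mul_le_mul_of_nonneg_right h1 hs0
    _ = 5 ^ Module.finrank ℚ E * (R * s) := by ring
    _ ≤ 5 ^ Module.finrank ℚ E * ((Module.finrank ℚ E).factorial * (P * Q)) :=
        mul_le_mul_of_nonneg_left h2 (by positivity)
    _ ≤ 5 ^ D * (D.factorial * (P * Q)) := by
        refine mul_le_mul h5 (mul_le_mul_of_nonneg_right h6 hPQ.le) (by positivity) (by positivity)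
    _ = 5 ^ D * D.factorial * (P * Q) := by ring

/-- EA3 : the same over `K` -/
theorem box_disc {K : Type u} [Field K] [NumberField K] (r : ℕ) : ∃ C : ℝ, 1 ≤ C ∧
    ∀ (E : Type u) [Field E] [NumberField E] [Algebra K E], Module.finrank K E = r →
      ∀ (a : HeightOneSpectrum (𝓞 E) → ℝ) (b : InfinitePlace E → ℝ), Adm a b →
      Submodule.span K (Bx a b 1) = ⊤ →
        ((Bx a b 1).ncard : ℝ) * √|((discr E : ℤ) : ℝ)| ≤ C * hb a b := by
  classical
  obtain ⟨C, hC1, hC⟩ := box_disc_rat.{u} (Module.finrank ℚ K * r)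
  obtain ⟨B, hB⟩ : ∃ B : Module.Basis (Module.Free.ChooseBasisIndex ℤ (𝓞 K)) ℚ K,
    B = integralBasis K := ⟨_, rfl⟩
  obtain ⟨M, hM1, hM⟩ : ∃ M : ℝ, 1 ≤ M ∧ ∀ i, ∀ v : InfinitePlace K, v (B i) ≤ M := by
    refine ⟨1 + ∑ i, ∑ v : InfinitePlace K, v (B i), ?_, fun i v => ?_⟩
    · have : 0 ≤ ∑ i, ∑ v : InfinitePlace K, v (B i) :=
        Finset.sum_nonneg fun i _ => Finset.sum_nonneg fun v _ => apply_nonneg _ _
      linarith
    · have h1 : v (B i) ≤ ∑ v : InfinitePlace K, v (B i) :=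
        Finset.single_le_sum (f := fun v : InfinitePlace K => v (B i))
          (fun v _ => apply_nonneg _ _) (Finset.mem_univ v)
      have h2 : ∑ v : InfinitePlace K, v (B i) ≤ ∑ i, ∑ v : InfinitePlace K, v (B i) :=
        Finset.single_le_sum (f := fun i => ∑ v : InfinitePlace K, v (B i))
          (fun i _ => Finset.sum_nonneg fun v _ => apply_nonneg _ _) (Finset.mem_univ i)
      linarith
  refine ⟨C * M ^ (Module.finrank ℚ K * r), ?_, ?_⟩
  · exact one_le_mul_of_one_le_of_one_le hC1 (one_le_pow₀ hM1)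
  intro E _ _ _ hr a b hab hspan
  have hD : Module.finrank ℚ E = Module.finrank ℚ K * r := by
    rw [← hr, Module.finrank_mul_finrank]
  have hM0 : 0 < M := by linarith
  obtain ⟨b', hb'⟩ : ∃ b' : InfinitePlace E → ℝ, ∀ w, b' w = M * b w := ⟨_, fun _ => rfl⟩
  have hab' : Adm a b' := ⟨hab.pow, hab.fin, fun w => by
    rw [hb' w]
    exact mul_pos hM0 (hab.pos w)⟩
  have hsub : Bx a b 1 ⊆ Bx a b' 1 := by
    intro z hz
    refine ⟨hz.1, fun w => ?_⟩
    have h1 := hz.2 w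
    rw [one_mul] at h1 ⊢
    rw [hb' w]
    have h2 := hab.pos w
    nlinarith
  have hmul : ∀ i, ∀ z ∈ Bx a b 1, algebraMap K E (B i) * z ∈ Bx a b' 1 := by
    intro i z hz
    refine ⟨fun w => ?_, fun w => ?_⟩
    · rw [Pool.Agent.Lib.MP_4d5ce1_nt.fa_mul]
      have h1 : fa w (algebraMap K E (B i)) ≤ 1 := by
        have h2 : algebraMap K E (B i) =
            algebraMap (𝓞 E) E (algebraMap (𝓞 K) (𝓞 E) ((RingOfIntegers.basis K) i)) := by
          rw [hB, integralBasis_apply K i]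
          exact (IsScalarTower.algebraMap_apply (𝓞 K) K E _).symm.trans
            (IsScalarTower.algebraMap_apply (𝓞 K) (𝓞 E) E _)
        rw [h2]
        change FinitePlace.mk w _ ≤ 1
        rw [FinitePlace.mk_apply]
        exact FinitePlace.norm_le_one E w _
      have h3 := hz.1 w
      have h4 : 0 ≤ fa w z := apply_nonneg _ _
      nlinarith
    · rw [map_mul, one_mul, hb' w]
      have h1 : w (algebraMap K E (B i)) ≤ M := hM i (w.comap (algebraMap K E))
      have h2 := hz.2 w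
      rw [one_mul] at h2
      exact mul_le_mul h1 h2 (apply_nonneg _ _) hM0.le
  have hspan' : Submodule.span ℚ (Bx a b' 1) = ⊤ := by
    rw [eq_top_iff]
    intro x hxt
    have hx : x ∈ Submodule.span K (Bx a b 1) := by rw [hspan]; exact Submodule.mem_top
    clear hxt
    have key : ∀ c : K, c • x ∈ Submodule.span ℚ (Bx a b' 1) := by
      induction hx using Submodule.span_induction with
      | mem x hx =>
        intro c
        have h1 : c • x = ∑ i, B.repr c i • (algebraMap K E (B i) * x) := by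
          conv_lhs => rw [← B.sum_repr c, Finset.sum_smul]
          refine Finset.sum_congr rfl fun i _ => ?_
          rw [smul_assoc, Algebra.smul_def (B i) x]
        rw [h1]
        exact Submodule.sum_mem _ fun i _ =>
          Submodule.smul_mem _ _ (Submodule.subset_span (hmul i x hx))
      | zero =>
        intro c
        rw [smul_zero]
        exact Submodule.zero_mem _
      | add x y _ _ hx hy =>
        intro c
        rw [smul_add]
        exact Submodule.add_mem _ (hx c) (hy c)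
      | smul d x _ hx =>
        intro c
        rw [smul_smul]
        exact hx _
    have h1 := key 1
    rwa [one_smul] at h1
  have h1 := hC E hD.le a b' hab' hspan'
  have hhb : hb a b' = M ^ (Module.finrank ℚ K * r) * hb a b := by
    unfold hb
    have h2 : ∏ w : InfinitePlace E, b' w ^ w.mult =
        M ^ (Module.finrank ℚ K * r) * ∏ w : InfinitePlace E, b w ^ w.mult := by
      rw [← hD, ← InfinitePlace.sum_mult_eq, ← Finset.prod_pow_eq_pow_sum,
        ← Finset.prod_mul_distrib]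
      refine Finset.prod_congr rfl fun w _ => ?_
      rw [hb' w, mul_pow]
    rw [h2]
    ring
  rw [hhb] at h1
  have h2 : ((Bx a b 1).ncard : ℝ) ≤ (Bx a b' 1).ncard := by
    exact_mod_cast Set.ncard_le_ncard hsub (box_finite hab' 1)
  have h3 : 0 ≤ √|((discr E : ℤ) : ℝ)| := Real.sqrt_nonneg _
  calc ((Bx a b 1).ncard : ℝ) * √|((discr E : ℤ) : ℝ)| ≤
        ((Bx a b' 1).ncard : ℝ) * √|((discr E : ℤ) : ℝ)| := mul_le_mul_of_nonneg_right h2 h3
    _ ≤ C * (M ^ (Module.finrank ℚ K * r) * hb a b) := h1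
    _ = C * M ^ (Module.finrank ℚ K * r) * hb a b := by ring

end Pool.Agent.Lib.MP_44a246_ntAL
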