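import Pool.Agent.Lib.MP_44a246_ntAL.GenDefs

/-!
# Almost all points of bounded degree: definitions for `n = r`
-/

set_option autoImplicit false

open NumberField IsDedekindDomain Height
open Pool.Agent.Lib.MP_4d5ce1_nt (fa nv ordv)
open Pool.Agent.Lib.MP_44a246_ntNF
open Pool.Agent.Lib.MP_44a246_ntNU

namespace Pool.Agent.Lib.MP_44a246_ntAL

universe u

/-- The number of elements of the box in the line `u * F`. -/
noncomputable def lineN {K E : Type*} [Field K] [NumberField K] [Field E] [NumberField E]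
    [Algebra K E] (a : HeightOneSpectrum (𝓞 E) → ℝ) (b : InfinitePlace E → ℝ) (u : E)
    (F : IntermediateField K E) (l : ℝ) : ℕ :=
  {y : E | y ∈ Bx a b l ∧ ∃ e ∈ F, y = u * e}.ncard

/-- `u` has size at most `l1`, `z` has size at most `l2`, and `z / u` generates the field. -/
def Pair {K : Type u} [Field K] [NumberField K] {m : ℕ} (s : Vc K m) (l1 l2 : ℝ) : Prop :=
  ∃ (_ : NumberField s.1) (u z : s.1), u ≠ 0 ∧ u ∈ Bx (tf s.2) (ti s.2) l1 ∧
    z ∈ Bx (tf s.2) (ti s.2) l2 ∧ IntermediateField.adjoin K {z / u} = ⊤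

end Pool.Agent.Lib.MP_44a246_ntAL
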