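import Pool.Agent.Lib.MP_44a246_ntAL.AL0
import Pool.Agent.Lib.MP_44a246_ntAL.AL7
import Pool.Agent.Lib.MP_44a246_ntAL.AL11
import Pool.Agent.Lib.MP_44a246_ntAL.EDefs

/-!
# The number of ideals of bounded norm; the classes over one field
-/

set_option autoImplicit false

open NumberField IsDedekindDomain Height MvPolynomial
open Pool.Agent.Lib.MP_4d5ce1_nt (fa nv ordv fa_pos fa_nonneg nv_pos one_lt_nv two_le_nv)
open Pool.Agent.Lib.MP_44a246_ntNF
open Pool.Agent.Lib.MP_44a246_ntNU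

namespace Pool.Agent.Lib.MP_44a246_ntAL

universe u

private lemma ea4_one_le_Nk {E : Type*} [Field E] [NumberField E]
    (k : HeightOneSpectrum (𝓞 E) →₀ ℕ) : 1 ≤ Nk k := by
  unfold Nk Finsupp.prod
  have := Finset.prod_le_prod (s := k.support) (f := fun _ => (1 : ℝ))
    (g := fun w => nv w ^ k w) (fun _ _ => zero_le_one)
    (fun w _ => one_le_pow₀ (one_lt_nv w).le)
  simpa using this

/-- EA4 : the number of ideals of bounded norm -/
theorem card_ideals (D : ℕ) (η : ℝ) (hη : 0 < η) : ∃ C : ℝ, 1 ≤ C ∧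
    ∀ (E : Type u) [Field E] [NumberField E], Module.finrank ℚ E ≤ D → ∀ T : ℝ, 0 < T →
      ∀ Y : Finset (HeightOneSpectrum (𝓞 E) →₀ ℕ), (∀ k ∈ Y, Nk k ≤ T) →
        (Y.card : ℝ) ≤ C * T ^ (1 + η) := by
  obtain ⟨C, hC, h⟩ := sum_ideals.{u} D (1 + η) η hη le_rfl
  refine ⟨max 1 C, le_max_left _ _, fun E _ _ hE T hT Y hY => ?_⟩
  have h1 := h E hE 1 le_rfl Y (fun k _ => ea4_one_le_Nk k)
  rw [Real.one_rpow, mul_one] at h1
  have h2 : ∀ k ∈ Y, (1 : ℝ) ≤ T ^ (1 + η) * Nk k ^ (-(1 + η)) := by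
    intro k hk
    have h3 : 0 < Nk k := one_pos.trans_le (ea4_one_le_Nk k)
    rw [Real.rpow_neg h3.le, ← div_eq_mul_inv, one_le_div (Real.rpow_pos_of_pos h3 _)]
    exact Real.rpow_le_rpow h3.le (hY k hk) (by linarith)
  calc (Y.card : ℝ) = ∑ k ∈ Y, (1 : ℝ) := by simp
    _ ≤ ∑ k ∈ Y, T ^ (1 + η) * Nk k ^ (-(1 + η)) := Finset.sum_le_sum h2
    _ = T ^ (1 + η) * ∑ k ∈ Y, Nk k ^ (-(1 + η)) := by rw [Finset.mul_sum]
    _ ≤ T ^ (1 + η) * C := mul_le_mul_of_nonneg_left h1 (by positivity)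
    _ ≤ max 1 C * T ^ (1 + η) := by
        rw [mul_comm]
        exact mul_le_mul_of_nonneg_right (le_max_right _ _) (by positivity)

private lemma ea4_pf {E : Type*} [Field E] [NumberField E] {x : E} (hx : x ≠ 0) :
    (∏ w : InfinitePlace E, w x ^ w.mult) * ∏ᶠ v : HeightOneSpectrum (𝓞 E), fa v x = 1 := by
  have h := NumberField.prod_abs_eq_one (K := E) hx
  have hfin : ∏ᶠ w : FinitePlace E, w x = ∏ᶠ v : HeightOneSpectrum (𝓞 E), fa v x := by
    rw [← finprod_comp_equiv (FinitePlace.equivHeightOneSpectrum (K := E)).symm]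
    rfl
  rwa [hfin] at h

private lemma ea4_one_le_prod {ι : Type*} (s : Finset ι) (f : ι → ℝ) (h : ∀ i ∈ s, 1 ≤ f i) :
    1 ≤ ∏ i ∈ s, f i := by
  have := Finset.prod_le_prod (s := s) (f := fun _ => (1 : ℝ)) (g := f)
    (fun _ _ => zero_le_one) h
  simpa using this

/-- the basic estimate -/
private lemma ea4_key {E : Type*} [Field E] [NumberField E] {m : ℕ} {x : Fin m → E} (hx : x ≠ 0)
    {u : E} (hu : u ≠ 0) (h : ∀ w : HeightOneSpectrum (𝓞 E), fa w u ≤ tf x w)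
    (W : Finset (HeightOneSpectrum (𝓞 E))) :
    (∏ w ∈ W, tf x w / fa w u) * ∏ w : InfinitePlace E, (ti x w / w u) ^ w.mult ≤ mulHeight x := by
  classical
  obtain ⟨⟨-, hfin, hpos⟩, hhb⟩ := adm_tf x hx
  have hfu : (Function.mulSupport fun v : HeightOneSpectrum (𝓞 E) => fa v u).Finite :=
    Pool.Agent.Lib.MP_4d5ce1_nt.finite_fa_ne_one hu
  set W' := W ∪ (hfin.toFinset ∪ hfu.toFinset) with hW'
  have hup : ∀ w : InfinitePlace E, 0 < w u := fun w => InfinitePlace.pos_iff.2 hu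
  have e1 : ∏ᶠ w, tf x w = ∏ w ∈ W', tf x w :=
    finprod_eq_prod_of_mulSupport_subset _ (by
      intro w hw
      simp only [hW', Finset.coe_union, Set.mem_union, Finset.mem_coe, Set.Finite.mem_toFinset]
      exact Or.inr (Or.inl hw))
  have e2 : ∏ᶠ w : HeightOneSpectrum (𝓞 E), fa w u = ∏ w ∈ W', fa w u :=
    finprod_eq_prod_of_mulSupport_subset _ (by
      intro w hw
      simp only [hW', Finset.coe_union, Set.mem_union, Finset.mem_coe, Set.Finite.mem_toFinset]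
      exact Or.inr (Or.inr hw))
  have hpf := ea4_pf hu
  rw [e2] at hpf
  have h1 : ∏ w ∈ W, tf x w / fa w u ≤ ∏ w ∈ W', tf x w / fa w u := by
    refine Finset.prod_le_prod_of_subset_of_one_le Finset.subset_union_left
      (fun w _ => div_nonneg ((fa_nonneg w u).trans (h w)) (fa_nonneg w u)) fun w _ _ => ?_
    rw [one_le_div (fa_pos w hu)]
    exact h w
  have h2 : 0 ≤ ∏ w : InfinitePlace E, (ti x w / w u) ^ w.mult :=
    Finset.prod_nonneg fun w _ => pow_nonneg (div_nonneg (hpos w).le (hup w).le) _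
  refine (mul_le_mul_of_nonneg_right h1 h2).trans (le_of_eq ?_)
  rw [← hhb]
  unfold hb
  rw [e1, Finset.prod_div_distrib]
  have h3 : ∏ w : InfinitePlace E, (ti x w / w u) ^ w.mult =
      (∏ w : InfinitePlace E, ti x w ^ w.mult) / ∏ w : InfinitePlace E, w u ^ w.mult := by
    rw [← Finset.prod_div_distrib]
    exact Finset.prod_congr rfl fun w _ => div_pow _ _ _
  rw [h3, div_mul_div_comm, mul_comm (∏ w ∈ W', fa w u), hpf, div_one]

/-- consequences for the elements of the box -/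
private lemma ea4_box {E : Type*} [Field E] [NumberField E] {m : ℕ} {x : Fin m → E} (hx : x ≠ 0)
    {u : E} (hu : u ≠ 0) {M B : ℝ} (hM : 1 ≤ M) (h : u ∈ Bx (tf x) (ti x) M)
    (hB : mulHeight x ≤ B) :
    (∀ W : Finset (HeightOneSpectrum (𝓞 E)), ∏ w ∈ W, tf x w / fa w u ≤
      M ^ Module.finrank ℚ E * B) ∧
    (∀ w : InfinitePlace E, ti x w / w u ≤ M ^ Module.finrank ℚ E * B) ∧
    (∀ w : InfinitePlace E, M⁻¹ ≤ ti x w / w u) := by
  classical
  obtain ⟨⟨-, -, hpos⟩, -⟩ := adm_tf x hx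
  have hup : ∀ w : InfinitePlace E, 0 < w u := fun w => InfinitePlace.pos_iff.2 hu
  have hM0 : 0 < M := by linarith
  have hlow : ∀ w : InfinitePlace E, 1 ≤ M * (ti x w / w u) := by
    intro w
    rw [← mul_div_assoc, one_le_div (hup w)]
    exact h.2 w
  have hkey := ea4_key hx hu h.1
  have hMD : ∏ w : InfinitePlace E, M ^ w.mult = M ^ Module.finrank ℚ E := by
    rw [Finset.prod_pow_eq_pow_sum, InfinitePlace.sum_mult_eq]
  have hprod : ∏ w : InfinitePlace E, (M * (ti x w / w u)) ^ w.mult =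
      M ^ Module.finrank ℚ E * ∏ w : InfinitePlace E, (ti x w / w u) ^ w.mult := by
    rw [← hMD, ← Finset.prod_mul_distrib]
    exact Finset.prod_congr rfl fun w _ => mul_pow _ _ _
  have hone : 1 ≤ M ^ Module.finrank ℚ E * ∏ w : InfinitePlace E, (ti x w / w u) ^ w.mult := by
    rw [← hprod]
    exact ea4_one_le_prod _ _ fun w _ => one_le_pow₀ (hlow w)
  have hMp : 0 < M ^ Module.finrank ℚ E := pow_pos hM0 _
  refine ⟨fun W => ?_, fun w => ?_, fun w => ?_⟩
  · have h1 : 0 ≤ ∏ w ∈ W, tf x w / fa w u :=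
      Finset.prod_nonneg fun w _ => div_nonneg ((fa_nonneg w u).trans (h.1 w)) (fa_nonneg w u)
    calc ∏ w ∈ W, tf x w / fa w u ≤ (∏ w ∈ W, tf x w / fa w u) *
          (M ^ Module.finrank ℚ E * ∏ w : InfinitePlace E, (ti x w / w u) ^ w.mult) :=
        le_mul_of_one_le_right h1 hone
      _ = M ^ Module.finrank ℚ E * ((∏ w ∈ W, tf x w / fa w u) *
          ∏ w : InfinitePlace E, (ti x w / w u) ^ w.mult) := by ring
      _ ≤ M ^ Module.finrank ℚ E * B :=
        mul_le_mul_of_nonneg_left ((hkey W).trans hB) hMp.le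
  · have h0 := hkey ∅
    rw [Finset.prod_empty, one_mul] at h0
    have h1 : M * (ti x w / w u) ≤ (M * (ti x w / w u)) ^ w.mult :=
      le_self_pow₀ (hlow w) InfinitePlace.mult_pos.ne'
    have h2 : (M * (ti x w / w u)) ^ w.mult ≤
        ∏ w : InfinitePlace E, (M * (ti x w / w u)) ^ w.mult := by
      have := Finset.prod_le_prod_of_subset_of_one_le
        (s := {w}) (t := Finset.univ) (f := fun w : InfinitePlace E =>
          (M * (ti x w / w u)) ^ w.mult) (Finset.subset_univ _)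
        (fun w' _ => by have := hlow w'; positivity) fun w' _ _ => one_le_pow₀ (hlow w')
      simpa using this
    have h3 : 0 < ti x w / w u := div_pos (hpos w) (hup w)
    have h4 : ti x w / w u ≤ M * (ti x w / w u) := le_mul_of_one_le_left h3.le hM
    rw [hprod] at h2
    exact h4.trans (h1.trans (h2.trans (mul_le_mul_of_nonneg_left (h0.trans hB) hMp.le)))
  · rw [inv_le_iff_one_le_mul₀ hM0, mul_comm]
    exact hlow w

/-- the number of values of the exponents at the infinite places -/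
private lemma ea4_log (D : ℕ) (M η : ℝ) (hM : 1 ≤ M) (hη : 0 < η) : ∃ C : ℝ, 1 ≤ C ∧
    ∀ B : ℝ, 1 ≤ B → ∀ (ι : Type u) [Fintype ι], Fintype.card ι ≤ D →
      ∀ Z : Finset (ι → ℤ), (∀ e ∈ Z, ∀ w, -Real.log M - 1 ≤ e w ∧
        (e w : ℝ) ≤ Real.log (M ^ D * B)) → (Z.card : ℝ) ≤ C * B ^ η := by
  classical
  have hM0 : 0 < M := by linarith
  have hlM : 0 ≤ Real.log M := Real.log_nonneg hM
  set ε : ℝ := η / (D + 1) with hε
  have hD0 : (0 : ℝ) < D + 1 := by positivity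
  have hε0 : 0 < ε := div_pos hη hD0
  have hεD : ε * D ≤ η := by
    rw [hε, div_mul_eq_mul_div, div_le_iff₀ hD0]
    nlinarith
  set c : ℝ := D * Real.log M + Real.log M + 2 with hc
  have hc1 : 2 ≤ c := by
    have : 0 ≤ (D : ℝ) * Real.log M := by positivity
    linarith
  have hb1 : 1 ≤ 1 / ε + c := by
    have : 0 < 1 / ε := by positivity
    linarith
  refine ⟨(1 / ε + c) ^ D, one_le_pow₀ hb1, fun B hB ι _ hι Z hZ => ?_⟩
  have hB0 : 0 < B := by linarith
  have hlB : 0 ≤ Real.log B := Real.log_nonneg hB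
  set lo : ℤ := ⌈-Real.log M - 1⌉ with hlo
  set hi : ℤ := ⌊Real.log (M ^ D * B)⌋ with hhi
  have hsub : Z ⊆ Fintype.piFinset fun _ : ι => Finset.Icc lo hi := by
    intro e he
    rw [Fintype.mem_piFinset]
    intro w
    rw [Finset.mem_Icc]
    exact ⟨Int.ceil_le.2 (hZ e he w).1, Int.le_floor.2 (hZ e he w).2⟩
  have hlog : Real.log (M ^ D * B) = D * Real.log M + Real.log B := by
    rw [Real.log_mul (pow_pos hM0 _).ne' hB0.ne', Real.log_pow]
  have hcard : ((Finset.Icc lo hi).card : ℝ) ≤ Real.log B + c := by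
    rw [Int.card_Icc]
    have h1 : (hi : ℝ) ≤ Real.log (M ^ D * B) := Int.floor_le _
    have h2 : -Real.log M - 1 ≤ (lo : ℝ) := Int.le_ceil _
    rw [hlog] at h1
    have h3 : (((hi + 1 - lo).toNat : ℤ) : ℝ) ≤ Real.log B + c := by
      rw [Int.toNat_eq_max]
      push_cast
      exact max_le (by linarith) (by linarith)
    exact_mod_cast h3
  have h4 : (Z.card : ℝ) ≤ ((Finset.Icc lo hi).card : ℝ) ^ Fintype.card ι := by
    have := Finset.card_le_card hsub
    rw [Fintype.card_piFinset, Finset.prod_const, Finset.card_univ] at this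
    exact_mod_cast this
  have h5 : Real.log B + c ≤ (1 / ε + c) * B ^ ε := by
    have h6 := Real.log_le_rpow_div hB0.le hε0
    have h7 : 1 ≤ B ^ ε := Real.one_le_rpow hB hε0.le
    have h8 : c ≤ c * B ^ ε := le_mul_of_one_le_right (by linarith) h7
    have h9 : B ^ ε / ε = 1 / ε * B ^ ε := by ring
    rw [add_mul]
    linarith
  calc (Z.card : ℝ) ≤ ((Finset.Icc lo hi).card : ℝ) ^ Fintype.card ι := h4
    _ ≤ (Real.log B + c) ^ Fintype.card ι := pow_le_pow_left₀ (Nat.cast_nonneg _) hcard _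
    _ ≤ (Real.log B + c) ^ D := pow_le_pow_right₀ (by linarith) hι
    _ ≤ ((1 / ε + c) * B ^ ε) ^ D := pow_le_pow_left₀ (by linarith) h5 _
    _ = (1 / ε + c) ^ D * B ^ (ε * D) := by
        rw [mul_pow, Real.rpow_mul hB0.le, Real.rpow_natCast]
    _ ≤ (1 / ε + c) ^ D * B ^ η :=
        mul_le_mul_of_nonneg_left (Real.rpow_le_rpow_of_exponent_le hB hεD) (by positivity)

/-- the exponents of `k` and `e` are determined by the data -/
private structure EA4Cd {E : Type*} [Field E] [NumberField E] {m : ℕ} (x : Fin m → E) (u : E)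
    (k : HeightOneSpectrum (𝓞 E) →₀ ℕ) (e : InfinitePlace E → ℤ) : Prop where
  fn : ∀ w, nv w ^ k w = tf x w / fa w u
  nf : ∀ w : InfinitePlace E, e w = ⌊Real.log (ti x w / w u)⌋

/-- existence of the exponents -/
private lemma ea4_ex {E : Type*} [Field E] [NumberField E] {m : ℕ} {x : Fin m → E} (hx : x ≠ 0)
    {u : E} (hu : u ≠ 0) (h : ∀ w : HeightOneSpectrum (𝓞 E), fa w u ≤ tf x w) :
    ∃ k e, EA4Cd x u k e := by
  classical
  obtain ⟨⟨hpow, hfin, -⟩, -⟩ := adm_tf x hx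
  have hex : ∀ w : HeightOneSpectrum (𝓞 E), ∃ k : ℕ, nv w ^ k = tf x w / fa w u := by
    intro w
    have hj := Pool.Agent.Lib.MP_4d5ce1_nt.fa_eq w hu
    obtain ⟨i, hi⟩ := hpow w
    have hle := h w
    have hne : nv w ≠ 0 := (nv_pos w).ne'
    rw [hj, hi] at hle
    have hji : - ordv w u ≤ i := (zpow_le_zpow_iff_right₀ (one_lt_nv w)).1 hle
    refine ⟨(i - - ordv w u).toNat, ?_⟩
    rw [hi, hj, ← zpow_sub₀ hne, ← zpow_natCast, Int.toNat_of_nonneg (by omega)]
  choose k hk using hex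
  have hsupp : (Function.support k).Finite := by
    have hu' := Pool.Agent.Lib.MP_4d5ce1_nt.finite_fa_ne_one hu
    refine (hfin.union hu').subset ?_
    intro w hw
    by_contra hcon
    rw [Set.mem_union, not_or] at hcon
    obtain ⟨h1, h2⟩ := hcon
    have h1' : tf x w = 1 := by
      by_contra h3
      exact h1 h3
    have h2' : fa w u = 1 := by
      by_contra h3
      exact h2 h3
    have h5 := hk w
    rw [h1', h2', div_one] at h5
    have h6 : k w ≠ 0 := hw
    have h7 := one_lt_pow₀ (one_lt_nv w) h6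
    linarith
  exact ⟨Finsupp.ofSupportFinite k hsupp, fun w => ⌊Real.log (ti x w / w u)⌋, ⟨hk, fun w => rfl⟩⟩

/-- the norm of the exponents -/
private lemma ea4_Nk {E : Type*} [Field E] [NumberField E] {m : ℕ} {x : Fin m → E} (hx : x ≠ 0)
    {u : E} (hu : u ≠ 0) {l B : ℝ} (hl : 0 < l) (h : u ∈ Bx (tf x) (ti x) l)
    (hB : mulHeight x ≤ B) {k : HeightOneSpectrum (𝓞 E) →₀ ℕ} {e : InfinitePlace E → ℤ}
    (hk : EA4Cd x u k e) : Nk k ≤ B * l ^ Module.finrank ℚ E := by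
  classical
  obtain ⟨⟨-, -, hpos⟩, -⟩ := adm_tf x hx
  have hup : ∀ w : InfinitePlace E, 0 < w u := fun w => InfinitePlace.pos_iff.2 hu
  have hkey := ea4_key hx hu h.1 k.support
  have hNk : Nk k = ∏ w ∈ k.support, tf x w / fa w u := by
    unfold Nk Finsupp.prod
    exact Finset.prod_congr rfl fun w _ => hk.fn w
  have hlow : ∀ w : InfinitePlace E, 1 ≤ l * (ti x w / w u) := by
    intro w
    rw [← mul_div_assoc, one_le_div (hup w)]
    exact h.2 w
  have hMD : ∏ w : InfinitePlace E, l ^ w.mult = l ^ Module.finrank ℚ E := by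
    rw [Finset.prod_pow_eq_pow_sum, InfinitePlace.sum_mult_eq]
  have hprod : ∏ w : InfinitePlace E, (l * (ti x w / w u)) ^ w.mult =
      l ^ Module.finrank ℚ E * ∏ w : InfinitePlace E, (ti x w / w u) ^ w.mult := by
    rw [← hMD, ← Finset.prod_mul_distrib]
    exact Finset.prod_congr rfl fun w _ => mul_pow _ _ _
  have hone : 1 ≤ l ^ Module.finrank ℚ E * ∏ w : InfinitePlace E, (ti x w / w u) ^ w.mult := by
    rw [← hprod]
    exact ea4_one_le_prod _ _ fun w _ => one_le_pow₀ (hlow w)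
  have hN0 : 0 ≤ Nk k := zero_le_one.trans (ea4_one_le_Nk k)
  rw [← hNk] at hkey
  have hl0 : 0 < l ^ Module.finrank ℚ E := pow_pos hl _
  calc Nk k ≤ Nk k * (l ^ Module.finrank ℚ E *
        ∏ w : InfinitePlace E, (ti x w / w u) ^ w.mult) := le_mul_of_one_le_right hN0 hone
    _ = (Nk k * ∏ w : InfinitePlace E, (ti x w / w u) ^ w.mult) * l ^ Module.finrank ℚ E := by
        ring
    _ ≤ B * l ^ Module.finrank ℚ E := mul_le_mul_of_nonneg_right (hkey.trans hB) hl0.le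

/-- equal codes give similar vectors -/
private lemma ea4_sim {E : Type*} [Field E] [NumberField E] {m : ℕ} {x x' : Fin m → E}
    {u u' : E} {k : HeightOneSpectrum (𝓞 E) →₀ ℕ} {e : InfinitePlace E → ℤ}
    (hx : x ≠ 0) (hx' : x' ≠ 0) (hu : u ≠ 0) (hu' : u' ≠ 0)
    (h : EA4Cd x u k e) (h' : EA4Cd x' u' k e) : Sim x x' := by
  obtain ⟨⟨-, -, hpos⟩, -⟩ := adm_tf x hx
  obtain ⟨⟨-, -, hpos'⟩, -⟩ := adm_tf x' hx'
  have hup : ∀ w : InfinitePlace E, 0 < w u := fun w => InfinitePlace.pos_iff.2 hu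
  have hup' : ∀ w : InfinitePlace E, 0 < w u' := fun w => InfinitePlace.pos_iff.2 hu'
  have hlog : ∀ w : InfinitePlace E, ti x w / w u ≤ 3 * (ti x' w / w u') ∧
      ti x' w / w u' ≤ 3 * (ti x w / w u) := by
    have gen : ∀ a b : ℝ, 0 < a → 0 < b → ⌊Real.log a⌋ = ⌊Real.log b⌋ → a ≤ 3 * b := by
      intro a b ha hb hab
      have h1 : Real.log a - Real.log b < 1 :=
        (abs_lt.1 (Int.abs_sub_lt_one_of_floor_eq_floor hab)).2
      have h2 : Real.log a < Real.log (Real.exp 1 * b) := by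
        rw [Real.log_mul (Real.exp_pos 1).ne' hb.ne', Real.log_exp]
        linarith
      have h3 := (Real.log_lt_log_iff ha (by positivity)).1 h2
      have h4 : Real.exp 1 < 3 := Real.exp_one_lt_three
      nlinarith
    intro w
    have ha := div_pos (hpos w) (hup w)
    have hb := div_pos (hpos' w) (hup' w)
    have hab : ⌊Real.log (ti x w / w u)⌋ = ⌊Real.log (ti x' w / w u')⌋ := by
      rw [← h.nf w, ← h'.nf w]
    exact ⟨gen _ _ ha hb hab, gen _ _ hb ha hab.symm⟩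
  refine ⟨u / u', div_ne_zero hu hu', fun w => ?_, fun w => ?_, fun w => ?_⟩
  · have h1 := (h.fn w).symm.trans (h'.fn w)
    have h2 := fa_pos w hu
    have h3 := fa_pos w hu'
    rw [div_eq_div_iff h2.ne' h3.ne'] at h1
    rw [Pool.Agent.Lib.MP_4d5ce1_nt.fa_div, div_mul_eq_mul_div, div_eq_iff h3.ne']
    linarith
  · have h1 := (hlog w).2
    rw [map_div₀, div_mul_eq_mul_div, mul_div_assoc]
    have h2 : w u * (3 * (ti x w / w u)) = 3 * ti x w := by
      rw [mul_left_comm, mul_div_cancel₀ _ (hup w).ne']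
    rw [← h2]
    exact mul_le_mul_of_nonneg_left h1 (hup w).le
  · have h1 := (hlog w).1
    rw [map_div₀, div_mul_eq_mul_div, mul_div_assoc]
    have h2 : w u * (ti x w / w u) = ti x w := mul_div_cancel₀ _ (hup w).ne'
    calc ti x w = w u * (ti x w / w u) := h2.symm
      _ ≤ w u * (3 * (ti x' w / w u')) := mul_le_mul_of_nonneg_left h1 (hup w).le
      _ = 3 * (w u * (ti x' w / w u')) := by ring

/-- the classes over one field, for vectors over a fixed field -/
private lemma ea4_core (D : ℕ) (M η : ℝ) (hM : 1 ≤ M) (hη : 0 < η) : ∃ C : ℝ, 1 ≤ C ∧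
    ∀ B : ℝ, 1 ≤ B → ∀ l : ℝ, 0 < l → l ≤ M → ∀ (E : Type u) [Field E] [NumberField E],
      Module.finrank ℚ E = D → ∀ (m : ℕ) (Y : Finset (Fin m → E)),
      (∀ x ∈ Y, x ≠ 0 ∧ mulHeight x ≤ B ∧ ∃ u : E, u ≠ 0 ∧ u ∈ Bx (tf x) (ti x) l) →
      ∃ R ⊆ Y, (∀ x ∈ Y, ∃ y ∈ R, Sim y x) ∧ (R.card : ℝ) ≤ C * B ^ η * (B * l ^ D) := by
  classical
  obtain ⟨C₁, hC₁, h₁⟩ := card_ideals.{u} D (η / 2) (by positivity)
  obtain ⟨C₂, hC₂, h₂⟩ := ea4_log.{u} D M (η / 2) hM (by positivity)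
  have hM0 : 0 < M := by linarith
  set A : ℝ := (M ^ D) ^ (η / 2) with hA
  refine ⟨max 1 (C₁ * A * C₂), le_max_left _ _, fun B hB l hl hlM E _ _ hE m Y hY => ?_⟩
  have hB0 : 0 < B := by linarith
  have hex : ∀ x : Fin m → E, ∃ (u : E) (k : HeightOneSpectrum (𝓞 E) →₀ ℕ)
      (e : InfinitePlace E → ℤ), x ∈ Y → u ≠ 0 ∧ u ∈ Bx (tf x) (ti x) l ∧ EA4Cd x u k e := by
    intro x
    by_cases hx : x ∈ Y
    · obtain ⟨h1, h2, u, h3, h4⟩ := hY x hx
      obtain ⟨k, e, hke⟩ := ea4_ex h1 h3 h4.1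
      exact ⟨u, k, e, fun _ => ⟨h3, h4, hke⟩⟩
    · exact ⟨0, 0, fun _ => 0, fun h => absurd h hx⟩
  choose u k e hke using hex
  let f : (Fin m → E) → (HeightOneSpectrum (𝓞 E) →₀ ℕ) × (InfinitePlace E → ℤ) :=
    fun x => (k x, e x)
  obtain ⟨R₀, hR₀, hbij⟩ := Set.exists_subset_bijOn (Y : Set (Fin m → E)) f
  refine ⟨Y.filter (· ∈ R₀), Finset.filter_subset _ _, ?_, ?_⟩
  · intro x hx
    have h1 : f x ∈ f '' (Y : Set (Fin m → E)) := ⟨x, hx, rfl⟩
    obtain ⟨y, hy, hyx⟩ := hbij.surjOn h1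
    have hyY : y ∈ Y := hR₀ hy
    obtain ⟨h2, h3⟩ := Prod.mk.inj hyx
    refine ⟨y, Finset.mem_filter.2 ⟨hyY, hy⟩, ?_⟩
    have h4 := (hke y hyY).2.2
    rw [h2, h3] at h4
    exact ea4_sim (hY y hyY).1 (hY x hx).1 (hke y hyY).1 (hke x hx).1 h4 (hke x hx).2.2
  · set R := Y.filter (· ∈ R₀) with hR
    have hRY : ∀ x ∈ R, x ∈ Y := fun x hx => (Finset.mem_filter.1 hx).1
    have hinj : Set.InjOn f (R : Set (Fin m → E)) := by
      intro a ha b hb hab
      exact hbij.injOn (Finset.mem_filter.1 ha).2 (Finset.mem_filter.1 hb).2 hab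
    have hlow : 0 < l ^ D := pow_pos hl _
    have hT : 0 < B * l ^ D := mul_pos hB0 hlow
    have hK : ((R.image k).card : ℝ) ≤ C₁ * (B * l ^ D) ^ (1 + η / 2) := by
      refine h₁ E hE.le _ hT _ fun q hq => ?_
      obtain ⟨x, hx, rfl⟩ := Finset.mem_image.1 hq
      have h3 := hke x (hRY x hx)
      have h4 := ea4_Nk (hY x (hRY x hx)).1 h3.1 hl h3.2.1 (hY x (hRY x hx)).2.1 h3.2.2
      rwa [hE] at h4
    have hE2 : ((R.image e).card : ℝ) ≤ C₂ * B ^ (η / 2) := by
      refine h₂ B hB (InfinitePlace E) ?_ (R.image e) fun q hq w => ?_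
      · rw [← hE, ← InfinitePlace.sum_mult_eq (K := E), Fintype.card, Finset.card_eq_sum_ones]
        exact Finset.sum_le_sum fun w _ => InfinitePlace.mult_pos
      · obtain ⟨x, hx, rfl⟩ := Finset.mem_image.1 hq
        have h3 := hke x (hRY x hx)
        have h0 := hY x (hRY x hx)
        obtain ⟨⟨-, -, hpos⟩, -⟩ := adm_tf x h0.1
        have h4 : u x ∈ Bx (tf x) (ti x) M :=
          ⟨h3.2.1.1, fun w => (h3.2.1.2 w).trans (mul_le_mul_of_nonneg_right hlM (hpos w).le)⟩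
        obtain ⟨-, h5, h6⟩ := ea4_box h0.1 h3.1 hM h4 h0.2.1
        have h5w := h5 w
        have h6w := h6 w
        rw [hE] at h5w
        have hpos : 0 < ti x w / w (u x) := (inv_pos.2 hM0).trans_le h6w
        rw [h3.2.2.nf w]
        constructor
        · have h7 := Int.sub_one_lt_floor (Real.log (ti x w / w (u x)))
          have h8 := Real.log_le_log (inv_pos.2 hM0) h6w
          rw [Real.log_inv] at h8
          linarith
        · exact (Int.floor_le _).trans (Real.log_le_log hpos h5w)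
    have hsub : R.image f ⊆ (R.image k) ×ˢ (R.image e) := by
      intro p hp
      obtain ⟨x, hx, rfl⟩ := Finset.mem_image.1 hp
      exact Finset.mem_product.2 ⟨Finset.mem_image_of_mem _ hx, Finset.mem_image_of_mem _ hx⟩
    have hcard : (R.card : ℝ) ≤ ((R.image k).card : ℝ) * ((R.image e).card : ℝ) := by
      have := Finset.card_le_card hsub
      rw [Finset.card_product, Finset.card_image_of_injOn hinj] at this
      exact_mod_cast this
    have hBe : B ^ (η / 2) * B ^ (η / 2) = B ^ η := by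
      rw [← Real.rpow_add hB0, add_halves]
    have hA0 : 0 ≤ A := by positivity
    have hTe : (B * l ^ D) ^ (1 + η / 2) ≤ (B * l ^ D) * (A * B ^ (η / 2)) := by
      rw [Real.rpow_add hT, Real.rpow_one]
      refine mul_le_mul_of_nonneg_left ?_ hT.le
      have h9 : B * l ^ D ≤ M ^ D * B := by
        rw [mul_comm]
        exact mul_le_mul_of_nonneg_right (pow_le_pow_left₀ hl.le hlM D) hB0.le
      refine (Real.rpow_le_rpow hT.le h9 (by positivity)).trans (le_of_eq ?_)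
      rw [hA, Real.mul_rpow (by positivity) hB0.le]
    calc (R.card : ℝ) ≤ ((R.image k).card : ℝ) * ((R.image e).card : ℝ) := hcard
      _ ≤ (C₁ * ((B * l ^ D) * (A * B ^ (η / 2)))) * (C₂ * B ^ (η / 2)) := by
          refine mul_le_mul (hK.trans (mul_le_mul_of_nonneg_left hTe (by linarith))) hE2
            (Nat.cast_nonneg _) ?_
          positivity
      _ = C₁ * A * C₂ * ((B ^ (η / 2) * B ^ (η / 2)) * (B * l ^ D)) := by ring
      _ ≤ max 1 (C₁ * A * C₂) * (B ^ η * (B * l ^ D)) := by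
          rw [hBe]
          exact mul_le_mul_of_nonneg_right (le_max_right _ _) (by positivity)
      _ = max 1 (C₁ * A * C₂) * B ^ η * (B * l ^ D) := by ring

/-- EA5 : the classes over one field -/
theorem field_classes {K : Type u} [Field K] [NumberField K] (r m : ℕ) (hr : 1 ≤ r) (M η : ℝ)
    (hM : 1 ≤ M) (hη : 0 < η) : ∃ C : ℝ, 1 ≤ C ∧ ∀ B : ℝ, 1 ≤ B → ∀ l : ℝ, 0 < l → l ≤ M →
      ∀ (E : IntermediateField K (AlgebraicClosure K)) (X : Finset (Vc K m)),
      (∀ s ∈ X, s.1 = E ∧ Gd r B s ∧ ∃ (_ : NumberField s.1) (u : s.1), u ≠ 0 ∧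
        u ∈ Bx (tf s.2) (ti s.2) l) →
      ∃ R ⊆ X, (∀ s ∈ X, ∃ t ∈ R, SimV t s) ∧
        (R.card : ℝ) ≤ C * B ^ η * (B * l ^ (r * Module.finrank ℚ K)) := by
  classical
  obtain ⟨C, hC, h⟩ := ea4_core.{u} (r * Module.finrank ℚ K) M η hM hη
  refine ⟨C, hC, fun B hB l hl hlM E X hX => ?_⟩
  have hB0 : 0 < B := by linarith
  rcases X.eq_empty_or_nonempty with rfl | ⟨s₀, hs₀⟩
  · refine ⟨∅, Finset.Subset.refl _, fun s hs => absurd hs (Finset.notMem_empty s), ?_⟩
    rw [Finset.card_empty, Nat.cast_zero]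
    positivity
  have hNF : NumberField E := by
    obtain ⟨h1, ⟨h2, -⟩, -⟩ := hX s₀ hs₀
    rw [← h1]
    exact h2
  have hrk : Module.finrank K E = r := by
    obtain ⟨h1, ⟨-, h2, -⟩, -⟩ := hX s₀ hs₀
    rw [← h1]
    exact h2
  have hrkQ : Module.finrank ℚ E = r * Module.finrank ℚ K := by
    rw [← hrk, mul_comm]
    exact (Module.finrank_mul_finrank ℚ K E).symm
  let ι : (Fin m → E) → Vc K m := fun x => ⟨E, x⟩
  have hι : Function.Injective ι := by
    intro a b hab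
    exact eq_of_heq (Sigma.mk.inj_iff.1 hab).2
  have hXι : ∀ s ∈ X, ∃ x : Fin m → E, ι x = s := by
    intro s hs
    obtain ⟨h1, -⟩ := hX s hs
    rcases s with ⟨F, x⟩
    dsimp only at h1
    subst h1
    exact ⟨x, rfl⟩
  set Y := X.preimage ι hι.injOn with hY
  obtain ⟨R, hR1, hR2, hR3⟩ := h B hB l hl hlM E hrkQ m Y (by
    intro x hx
    obtain ⟨-, ⟨_, -, h1, -, h2⟩, _, u, h3, h4⟩ := hX (ι x) (Finset.mem_preimage.1 hx)
    exact ⟨h1, h2, u, h3, h4⟩)
  refine ⟨R.image ι, ?_, ?_, ?_⟩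
  · intro s hs
    obtain ⟨x, hx, rfl⟩ := Finset.mem_image.1 hs
    exact Finset.mem_preimage.1 (hR1 hx)
  · intro s hs
    obtain ⟨x, rfl⟩ := hXι s hs
    obtain ⟨y, hy, hyx⟩ := hR2 x (Finset.mem_preimage.2 hs)
    exact ⟨ι y, Finset.mem_image_of_mem _ hy, E, hNF, y, x, rfl, rfl, hyx⟩
  · rw [Finset.card_image_of_injective _ hι]
    exact hR3

end Pool.Agent.Lib.MP_44a246_ntAL
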