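import Pool.Agent.Lib.MP_44a246_ntAL.EDefs
import Pool.Agent.Lib.MP_44a246_ntAL.AL0
import Pool.Agent.Lib.MP_44a246_ntAL.AL12
import Pool.Agent.Lib.MP_44a246_ntAL.AL13
import Pool.Agent.Lib.MP_44a246_ntAL.AL14a

/-!
# The classes with a pair of given sizes
-/

set_option autoImplicit false

open NumberField IsDedekindDomain Height
open Pool.Agent.Lib.MP_4d5ce1_nt (fa nv ordv)
open Pool.Agent.Lib.MP_44a246_ntNF
open Pool.Agent.Lib.MP_44a246_ntNU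

namespace Pool.Agent.Lib.MP_44a246_ntAL

universe u

section low

variable {E : Type*} [Field E] [NumberField E]

private lemma ea6_scale (a : HeightOneSpectrum (𝓞 E) → ℝ) (b : InfinitePlace E → ℝ) (s : ℝ) :
    hb a (fun w => s * b w) = s ^ Module.finrank ℚ E * hb a b := by
  unfold hb
  simp only [mul_pow]
  rw [Finset.prod_mul_distrib, Finset.prod_pow_eq_pow_sum, InfinitePlace.sum_mult_eq]
  ring

private lemma ea6_low {a : HeightOneSpectrum (𝓞 E) → ℝ} {b : InfinitePlace E → ℝ} {s : ℝ}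
    (ha : (Function.mulSupport a).Finite)
    {z : E} (hz : z ≠ 0) (hz' : z ∈ Bx a b s) :
    1 ≤ s ^ Module.finrank ℚ E * hb a b := by
  have h := NumberField.prod_abs_eq_one (K := E) hz
  have hfin : ∏ᶠ w : FinitePlace E, w z = ∏ᶠ v : HeightOneSpectrum (𝓞 E), fa v z := by
    rw [← finprod_comp_equiv (FinitePlace.equivHeightOneSpectrum (K := E)).symm]
    rfl
  rw [hfin] at h
  rw [← ea6_scale a b s]
  unfold hb
  have h1 : ∏ᶠ v : HeightOneSpectrum (𝓞 E), fa v z ≤ ∏ᶠ v, a v := by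
    refine finprod_le_finprod ?_ (fun v => Pool.Agent.Lib.MP_4d5ce1_nt.fa_nonneg v z) ha hz'.1
    exact Pool.Agent.Lib.MP_4d5ce1_nt.finite_fa_ne_one hz
  have h2 : ∏ w : InfinitePlace E, w z ^ w.mult ≤ ∏ w : InfinitePlace E, (s * b w) ^ w.mult := by
    refine Finset.prod_le_prod (fun w _ => pow_nonneg (apply_nonneg _ _) _) fun w _ => ?_
    exact pow_le_pow_left₀ (apply_nonneg _ _) (hz'.2 w) _
  have h0 : 0 ≤ ∏ᶠ v : HeightOneSpectrum (𝓞 E), fa v z :=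
    finprod_nonneg fun v => Pool.Agent.Lib.MP_4d5ce1_nt.fa_nonneg v z
  have h0' : 0 ≤ ∏ w : InfinitePlace E, (s * b w) ^ w.mult :=
    (Finset.prod_nonneg fun w _ => pow_nonneg (apply_nonneg _ _) _).trans h2
  calc (1 : ℝ) = (∏ᶠ v : HeightOneSpectrum (𝓞 E), fa v z) *
        ∏ w : InfinitePlace E, w z ^ w.mult := by rw [← h]; ring
    _ ≤ (∏ᶠ v, a v) * ∏ w : InfinitePlace E, (s * b w) ^ w.mult :=
        mul_le_mul h1 h2 (Finset.prod_nonneg fun w _ => pow_nonneg (apply_nonneg _ _) _)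
          (h0.trans h1)

private lemma ea6_apos {a : HeightOneSpectrum (𝓞 E) → ℝ} {b : InfinitePlace E → ℝ}
    (h : Adm a b) (w : HeightOneSpectrum (𝓞 E)) : 0 < a w := by
  obtain ⟨k, hk⟩ := h.pow w
  rw [hk]
  exact zpow_pos (Pool.Agent.Lib.MP_4d5ce1_nt.nv_pos w) k

private lemma ea6_mono {a : HeightOneSpectrum (𝓞 E) → ℝ} {b : InfinitePlace E → ℝ}
    (hb' : ∀ w, 0 < b w) {s t : ℝ} (hst : s ≤ t) {z : E} (hz : z ∈ Bx a b s) : z ∈ Bx a b t :=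
  ⟨hz.1, fun w => (hz.2 w).trans (mul_le_mul_of_nonneg_right hst (hb' w).le)⟩

end low

private lemma ea6_gen {K E : Type*} [Field K] [Field E] [Algebra K E] {r : ℕ} (hr : 2 ≤ r)
    (h : Module.finrank K E = r) {y : E} (hy : IntermediateField.adjoin K {y} = ⊤) : y ≠ 0 := by
  rintro rfl
  have h2 : IntermediateField.adjoin K {(0 : E)} = ⊥ := by
    rw [eq_bot_iff, IntermediateField.adjoin_le_iff]
    intro z hz
    have : z = 0 := hz
    rw [this]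
    exact (⊥ : IntermediateField K E).zero_mem
  rw [h2] at hy
  have h3 : Module.finrank K (⊥ : IntermediateField K E) = 1 := IntermediateField.finrank_bot
  have h4 : Module.finrank K (⊤ : IntermediateField K E) = Module.finrank K E :=
    IntermediateField.finrank_top'
  rw [← hy, h3, h] at h4
  omega

/-- The data of the theorem for one vector. -/
private def EA6D {K : Type u} [Field K] [NumberField K] {m : ℕ} (r : ℕ) (C l1 l2 B : ℝ)
    (s : Vc K m) (c : K) (u z : s.1) : Prop :=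
  ∃ _ : NumberField s.1, Module.finrank K s.1 = r ∧ s.2 ≠ 0 ∧ mulHeight s.2 ≤ B ∧ u ≠ 0 ∧ c ≠ 0 ∧
    u ∈ Bx (tf s.2) (ti s.2) l1 ∧ z ∈ Bx (tf s.2) (ti s.2) l2 ∧
    IntermediateField.adjoin K {z / u} = ⊤ ∧
    (∀ v i, fa v (gv K r c u z i) ≤ ∏ w ∈ ov K s.1 v, (max (fa w u) (fa w z) / tf s.2 w)) ∧
    ∀ (v : InfinitePlace K) i, v (gv K r c u z i) ≤
      C * B ^ ((Module.finrank ℚ K : ℝ)⁻¹) * l1 ^ i.val * l2 ^ (r - i.val)

private lemma ea6_one {K : Type u} [Field K] [NumberField K] (r m : ℕ) : ∃ C : ℝ, 1 ≤ C ∧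
    ∀ (B l1 l2 : ℝ), 0 < l1 → 0 < l2 → ∀ s : Vc K m, Gd r B s → Pair s l1 l2 →
      ∃ (c : K) (u z : s.1), EA6D r C l1 l2 B s c u z := by
  obtain ⟨C, hC, h⟩ := normal_form (K := K) r
  refine ⟨C, hC, ?_⟩
  rintro B l1 l2 hl1 hl2 s ⟨hN, hr, hs0, -, hB⟩ ⟨hN2, u, z, hu0, hu, hz, hgen⟩
  obtain ⟨ha, hhb⟩ := adm_tf s.2 hs0
  obtain ⟨c, hc0, hc⟩ := h s.1 hr (tf s.2) (ti s.2) ha
  obtain ⟨h1, -, h3, -⟩ := hc u z l1 l2 hu0 hgen hl1.le hl2.le hu.2 hz.2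
  refine ⟨c, u, z, hN, hr, hs0, hB, hu0, hc0, hu, hz, hgen, h1, ?_⟩
  intro v i
  refine (h3 v i).trans ?_
  rw [hhb]
  have h0 : 0 ≤ mulHeight s.2 := (mulHeight_pos s.2).le
  have h4 : mulHeight s.2 ^ ((Module.finrank ℚ K : ℝ)⁻¹) ≤ B ^ ((Module.finrank ℚ K : ℝ)⁻¹) :=
    Real.rpow_le_rpow h0 hB (by positivity)
  have h5 : 0 ≤ C := by linarith
  gcongr

/-- EA6 : the classes with a pair of given sizes -/
theorem classes2 {K : Type u} [Field K] [NumberField K] (r m : ℕ) (hr : 2 ≤ r) (M η : ℝ)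
    (hM : 1 ≤ M) (hη : 0 < η) : ∃ C : ℝ, 1 ≤ C ∧ ∀ B : ℝ, 1 ≤ B → ∀ l1 l2 : ℝ, 0 < l1 → 0 < l2 →
      l1 ≤ M → l2 ≤ M → ∀ X : Finset (Vc K m), (∀ s ∈ X, Gd r B s ∧ Pair s l1 l2) →
      ∃ R ⊆ X, (∀ s ∈ X, ∃ t ∈ R, SimV t s) ∧ (R.card : ℝ) ≤ C * B ^ η * (B ^ (r + 1) *
        ((l1 * l2) ^ (r * Module.finrank ℚ K)) ^ (((r : ℝ) + 1) / 2)) := by
  classical
  obtain ⟨C0, hC0, h0⟩ := ea6_one (K := K) r m
  have hMr : (1 : ℝ) ≤ M ^ r := one_le_pow₀ hM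
  have hM0 : 1 ≤ C0 * M ^ r := one_le_mul_of_one_le_of_one_le hC0 hMr
  have hMM : M ≤ C0 * M ^ r := by
    calc M = M ^ 1 := (pow_one M).symm
      _ ≤ M ^ r := pow_le_pow_right₀ hM (by omega)
      _ ≤ C0 * M ^ r := le_mul_of_one_le_left (by positivity) hC0
  obtain ⟨C1, hC1, h1⟩ := decode (K := K) r m (by omega) (C0 * M ^ r) η hM0 hη
  obtain ⟨C2, hC2, h2⟩ := card_vec K r (by omega) C0 hC0
  refine ⟨C1 * C2, one_le_mul_of_one_le_of_one_le hC1 hC2, ?_⟩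
  intro B hB l1 l2 hl1 hl2 hl1M hl2M X hX
  have hB0 : 0 < B := by linarith
  rcases X.eq_empty_or_nonempty with rfl | ⟨s₀, hs₀⟩
  · refine ⟨∅, subset_rfl, by simp, ?_⟩
    rw [Finset.card_empty, Nat.cast_zero]
    positivity
  have hd : ∀ s : Vc K m, ∃ (c : K) (u z : s.1), s ∈ X → EA6D r C0 l1 l2 B s c u z := by
    intro s
    by_cases hs : s ∈ X
    · obtain ⟨c, u, z, h⟩ := h0 B l1 l2 hl1 hl2 s (hX s hs).1 (hX s hs).2
      exact ⟨c, u, z, fun _ => h⟩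
    · exact ⟨0, 0, 0, fun h => absurd h hs⟩
  choose c u z hcuz using hd
  have hdec : ∀ s ∈ X, ∃ _ : NumberField s.1, Module.finrank K s.1 = r ∧ s.2 ≠ 0 ∧
      mulHeight s.2 ≤ B ∧ u s ≠ 0 ∧ c s ≠ 0 ∧ u s ∈ Bx (tf s.2) (ti s.2) (C0 * M ^ r) ∧
      z s ∈ Bx (tf s.2) (ti s.2) (C0 * M ^ r) ∧ IntermediateField.adjoin K {z s / u s} = ⊤ ∧
        (∀ v i, fa v (gv K r (c s) (u s) (z s) i) ≤
          ∏ w ∈ ov K s.1 v, (max (fa w (u s)) (fa w (z s)) / tf s.2 w)) ∧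
        ∀ v : InfinitePlace K, v (gv K r (c s) (u s) (z s) (Fin.last r)) ≤
          C0 * M ^ r * B ^ ((Module.finrank ℚ K : ℝ)⁻¹) := by
    intro s hs
    obtain ⟨hN, hr', hs0, hB', hu0, hc0, hu, hz, hgen, hfin, hinf⟩ := hcuz s hs
    obtain ⟨ha, -⟩ := adm_tf s.2 hs0
    refine ⟨hN, hr', hs0, hB', hu0, hc0, ea6_mono ha.pos (hl1M.trans hMM) hu,
      ea6_mono ha.pos (hl2M.trans hMM) hz, hgen, hfin, fun v => ?_⟩
    refine (hinf v (Fin.last r)).trans ?_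
    rw [Fin.val_last, Nat.sub_self, pow_zero, mul_one]
    have h5 : l1 ^ r ≤ M ^ r := pow_le_pow_left₀ hl1.le hl1M r
    have h6 : 0 ≤ C0 * B ^ ((Module.finrank ℚ K : ℝ)⁻¹) := by positivity
    calc C0 * B ^ ((Module.finrank ℚ K : ℝ)⁻¹) * l1 ^ r
        ≤ C0 * B ^ ((Module.finrank ℚ K : ℝ)⁻¹) * M ^ r := mul_le_mul_of_nonneg_left h5 h6
      _ = C0 * M ^ r * B ^ ((Module.finrank ℚ K : ℝ)⁻¹) := by ring
  obtain ⟨R, hRX, hR1, hR2⟩ := h1 B hB X c u z hdec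
  refine ⟨R, hRX, fun s hs => ?_, ?_⟩
  · obtain ⟨t, ht, hts, -⟩ := hR1 s hs
    exact ⟨t, ht, hts⟩
  -- the two lower bounds
  have hlow : 1 ≤ C0 * (B * l1 ^ (r * Module.finrank ℚ K)) ∧
      1 ≤ C0 * (B * l2 ^ (r * Module.finrank ℚ K)) := by
    obtain ⟨hN, hr', hs0, hB', hu0, hc0, hu, hz, hgen, hfin, hinf⟩ := hcuz s₀ hs₀
    obtain ⟨ha, hhb⟩ := adm_tf s₀.2 hs0
    have hD : Module.finrank ℚ s₀.1 = r * Module.finrank ℚ K := by
      rw [← Module.finrank_mul_finrank ℚ K s₀.1, hr', mul_comm]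
    have hz0 : z s₀ ≠ 0 := by
      have := ea6_gen hr hr' hgen
      intro h
      rw [h, zero_div] at this
      exact this rfl
    have key : ∀ (l : ℝ) (y : s₀.1), 0 < l → y ≠ 0 → y ∈ Bx (tf s₀.2) (ti s₀.2) l →
        1 ≤ C0 * (B * l ^ (r * Module.finrank ℚ K)) := by
      intro l y hl hy hyB
      have h3 := ea6_low ha.fin hy hyB
      rw [hhb, hD] at h3
      have h4 : l ^ (r * Module.finrank ℚ K) * mulHeight s₀.2 ≤
          l ^ (r * Module.finrank ℚ K) * B := mul_le_mul_of_nonneg_left hB' (by positivity)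
      have h5 : 1 ≤ B * l ^ (r * Module.finrank ℚ K) := by
        rw [mul_comm]
        exact h3.trans h4
      exact one_le_mul_of_one_le_of_one_le hC0 h5
    exact ⟨key l1 _ hl1 hu0 hu, key l2 _ hl2 hz0 hz⟩
  set g : Vc K m → (Fin (r + 1) → K) := fun s => gv K r (c s) (u s) (z s) with hg
  have hG := h2 B l1 l2 hB hl1 hl2 hlow.1 hlow.2 (R.image g) (by
    intro x hx
    obtain ⟨s, hs, rfl⟩ := Finset.mem_image.1 hx
    obtain ⟨hN, hr', hs0, hB', hu0, hc0, hu, hz, hgen, hfin, hinf⟩ := hcuz s (hRX hs)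
    obtain ⟨ha, -⟩ := adm_tf s.2 hs0
    refine ⟨fun v i => (hfin v i).trans ?_, hinf⟩
    refine Finset.prod_le_one (fun w _ => ?_) fun w _ => ?_
    · exact div_nonneg (le_max_of_le_left (Pool.Agent.Lib.MP_4d5ce1_nt.fa_nonneg w _))
        (ea6_apos ha w).le
    · rw [div_le_one (ea6_apos ha w)]
      exact max_le (hu.1 w) (hz.1 w))
  have hcard : (R.card : ℝ) ≤ (R.image g).card * (C1 * B ^ η) := by
    rw [Finset.card_eq_sum_card_image g R, Nat.cast_sum, ← nsmul_eq_mul]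
    refine Finset.sum_le_card_nsmul _ _ _ fun x _ => ?_
    exact hR2 (R.filter fun a => g a = x) (Finset.filter_subset _ _) x
      fun t ht => (Finset.mem_filter.1 ht).2
  calc (R.card : ℝ) ≤ (R.image g).card * (C1 * B ^ η) := hcard
    _ ≤ (C2 * B ^ (r + 1) * ((l1 * l2) ^ (r * Module.finrank ℚ K)) ^ (((r : ℝ) + 1) / 2)) *
        (C1 * B ^ η) := mul_le_mul_of_nonneg_right hG (by positivity)
    _ = C1 * C2 * B ^ η * (B ^ (r + 1) *
        ((l1 * l2) ^ (r * Module.finrank ℚ K)) ^ (((r : ℝ) + 1) / 2)) := by ring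

end Pool.Agent.Lib.MP_44a246_ntAL
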