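import Pool.Agent.Lib.MP_44a246_ntAL.AL0
import Pool.Agent.Lib.MP_44a246_ntAL.AL2
import Pool.Agent.Lib.MP_44a246_ntAL.AL7
import Pool.Agent.Lib.MP_44a246_ntAL.AL8
import Pool.Agent.Lib.MP_44a246_ntAL.AL9
import Pool.Agent.Lib.MP_44a246_ntAL.AL11
import Pool.Agent.Lib.MP_44a246_ntAL.EA4

/-!
# The classes over the quadratic extensions of one field
-/

set_option autoImplicit false

open NumberField IsDedekindDomain Height MvPolynomial
open Pool.Agent.Lib.MP_4d5ce1_nt (fa nv ordv fa_pos fa_nonneg nv_pos one_lt_nv two_le_nv)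
open Pool.Agent.Lib.MP_44a246_ntNF
open Pool.Agent.Lib.MP_44a246_ntNU

namespace Pool.Agent.Lib.MP_44a246_ntAL

universe u

private lemma ea7_one_le_Nk {E : Type*} [Field E] [NumberField E]
    (k : HeightOneSpectrum (𝓞 E) →₀ ℕ) : 1 ≤ Nk k := by
  unfold Nk Finsupp.prod
  have := Finset.prod_le_prod (s := k.support) (f := fun _ => (1 : ℝ))
    (g := fun w => nv w ^ k w) (fun _ _ => zero_le_one)
    (fun w _ => one_le_pow₀ (one_lt_nv w).le)
  simpa using this

/-- EA4 : the number of ideals of bounded norm -/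
private lemma ea7_pf {E : Type*} [Field E] [NumberField E] {x : E} (hx : x ≠ 0) :
    (∏ w : InfinitePlace E, w x ^ w.mult) * ∏ᶠ v : HeightOneSpectrum (𝓞 E), fa v x = 1 := by
  have h := NumberField.prod_abs_eq_one (K := E) hx
  have hfin : ∏ᶠ w : FinitePlace E, w x = ∏ᶠ v : HeightOneSpectrum (𝓞 E), fa v x := by
    rw [← finprod_comp_equiv (FinitePlace.equivHeightOneSpectrum (K := E)).symm]
    rfl
  rwa [hfin] at h

private lemma ea7_one_le_prod {ι : Type*} (s : Finset ι) (f : ι → ℝ) (h : ∀ i ∈ s, 1 ≤ f i) :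
    1 ≤ ∏ i ∈ s, f i := by
  have := Finset.prod_le_prod (s := s) (f := fun _ => (1 : ℝ)) (g := f)
    (fun _ _ => zero_le_one) h
  simpa using this

/-- the basic estimate -/
private lemma ea7_key {E : Type*} [Field E] [NumberField E] {m : ℕ} {x : Fin m → E} (hx : x ≠ 0)
    {u : E} (hu : u ≠ 0) (h : ∀ w : HeightOneSpectrum (𝓞 E), fa w u ≤ tf x w)
    (W : Finset (HeightOneSpectrum (𝓞 E))) :
    (∏ w ∈ W, tf x w / fa w u) * ∏ w : InfinitePlace E, (ti x w / w u) ^ w.mult ≤ mulHeight x := by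
  classical
  obtain ⟨⟨-, hfin, hpos⟩, hhb⟩ := adm_tf x hx
  have hfu : (Function.mulSupport fun v : HeightOneSpectrum (𝓞 E) => fa v u).Finite :=
    Pool.Agent.Lib.MP_4d5ce1_nt.finite_fa_ne_one hu
  set W' := W ∪ (hfin.toFinset ∪ hfu.toFinset) with hW'
  have hup : ∀ w : InfinitePlace E, 0 < w u := fun w => InfinitePlace.pos_iff.2 hu
  have e1 : ∏ᶠ w, tf x w = ∏ w ∈ W', tf x w :=
    finprod_eq_prod_of_mulSupport_subset _ (by
      intro w hw
      simp only [hW', Finset.coe_union, Set.mem_union, Finset.mem_coe, Set.Finite.mem_toFinset]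
      exact Or.inr (Or.inl hw))
  have e2 : ∏ᶠ w : HeightOneSpectrum (𝓞 E), fa w u = ∏ w ∈ W', fa w u :=
    finprod_eq_prod_of_mulSupport_subset _ (by
      intro w hw
      simp only [hW', Finset.coe_union, Set.mem_union, Finset.mem_coe, Set.Finite.mem_toFinset]
      exact Or.inr (Or.inr hw))
  have hpf := ea7_pf hu
  rw [e2] at hpf
  have h1 : ∏ w ∈ W, tf x w / fa w u ≤ ∏ w ∈ W', tf x w / fa w u := by
    refine Finset.prod_le_prod_of_subset_of_one_le Finset.subset_union_left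
      (fun w _ => div_nonneg ((fa_nonneg w u).trans (h w)) (fa_nonneg w u)) fun w _ _ => ?_
    rw [one_le_div (fa_pos w hu)]
    exact h w
  have h2 : 0 ≤ ∏ w : InfinitePlace E, (ti x w / w u) ^ w.mult :=
    Finset.prod_nonneg fun w _ => pow_nonneg (div_nonneg (hpos w).le (hup w).le) _
  refine (mul_le_mul_of_nonneg_right h1 h2).trans (le_of_eq ?_)
  rw [← hhb]
  unfold hb
  rw [e1, Finset.prod_div_distrib]
  have h3 : ∏ w : InfinitePlace E, (ti x w / w u) ^ w.mult =
      (∏ w : InfinitePlace E, ti x w ^ w.mult) / ∏ w : InfinitePlace E, w u ^ w.mult := by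
    rw [← Finset.prod_div_distrib]
    exact Finset.prod_congr rfl fun w _ => div_pow _ _ _
  rw [h3, div_mul_div_comm, mul_comm (∏ w ∈ W', fa w u), hpf, div_one]

/-- consequences for the elements of the box -/
private lemma ea7_box {E : Type*} [Field E] [NumberField E] {m : ℕ} {x : Fin m → E} (hx : x ≠ 0)
    {u : E} (hu : u ≠ 0) {M B : ℝ} (hM : 1 ≤ M) (h : u ∈ Bx (tf x) (ti x) M)
    (hB : mulHeight x ≤ B) :
    (∀ W : Finset (HeightOneSpectrum (𝓞 E)), ∏ w ∈ W, tf x w / fa w u ≤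
      M ^ Module.finrank ℚ E * B) ∧
    (∀ w : InfinitePlace E, ti x w / w u ≤ M ^ Module.finrank ℚ E * B) ∧
    (∀ w : InfinitePlace E, M⁻¹ ≤ ti x w / w u) := by
  classical
  obtain ⟨⟨-, -, hpos⟩, -⟩ := adm_tf x hx
  have hup : ∀ w : InfinitePlace E, 0 < w u := fun w => InfinitePlace.pos_iff.2 hu
  have hM0 : 0 < M := by linarith
  have hlow : ∀ w : InfinitePlace E, 1 ≤ M * (ti x w / w u) := by
    intro w
    rw [← mul_div_assoc, one_le_div (hup w)]
    exact h.2 w
  have hkey := ea7_key hx hu h.1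
  have hMD : ∏ w : InfinitePlace E, M ^ w.mult = M ^ Module.finrank ℚ E := by
    rw [Finset.prod_pow_eq_pow_sum, InfinitePlace.sum_mult_eq]
  have hprod : ∏ w : InfinitePlace E, (M * (ti x w / w u)) ^ w.mult =
      M ^ Module.finrank ℚ E * ∏ w : InfinitePlace E, (ti x w / w u) ^ w.mult := by
    rw [← hMD, ← Finset.prod_mul_distrib]
    exact Finset.prod_congr rfl fun w _ => mul_pow _ _ _
  have hone : 1 ≤ M ^ Module.finrank ℚ E * ∏ w : InfinitePlace E, (ti x w / w u) ^ w.mult := by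
    rw [← hprod]
    exact ea7_one_le_prod _ _ fun w _ => one_le_pow₀ (hlow w)
  have hMp : 0 < M ^ Module.finrank ℚ E := pow_pos hM0 _
  refine ⟨fun W => ?_, fun w => ?_, fun w => ?_⟩
  · have h1 : 0 ≤ ∏ w ∈ W, tf x w / fa w u :=
      Finset.prod_nonneg fun w _ => div_nonneg ((fa_nonneg w u).trans (h.1 w)) (fa_nonneg w u)
    calc ∏ w ∈ W, tf x w / fa w u ≤ (∏ w ∈ W, tf x w / fa w u) *
          (M ^ Module.finrank ℚ E * ∏ w : InfinitePlace E, (ti x w / w u) ^ w.mult) :=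
        le_mul_of_one_le_right h1 hone
      _ = M ^ Module.finrank ℚ E * ((∏ w ∈ W, tf x w / fa w u) *
          ∏ w : InfinitePlace E, (ti x w / w u) ^ w.mult) := by ring
      _ ≤ M ^ Module.finrank ℚ E * B :=
        mul_le_mul_of_nonneg_left ((hkey W).trans hB) hMp.le
  · have h0 := hkey ∅
    rw [Finset.prod_empty, one_mul] at h0
    have h1 : M * (ti x w / w u) ≤ (M * (ti x w / w u)) ^ w.mult :=
      le_self_pow₀ (hlow w) InfinitePlace.mult_pos.ne'
    have h2 : (M * (ti x w / w u)) ^ w.mult ≤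
        ∏ w : InfinitePlace E, (M * (ti x w / w u)) ^ w.mult := by
      have := Finset.prod_le_prod_of_subset_of_one_le
        (s := {w}) (t := Finset.univ) (f := fun w : InfinitePlace E =>
          (M * (ti x w / w u)) ^ w.mult) (Finset.subset_univ _)
        (fun w' _ => by have := hlow w'; positivity) fun w' _ _ => one_le_pow₀ (hlow w')
      simpa using this
    have h3 : 0 < ti x w / w u := div_pos (hpos w) (hup w)
    have h4 : ti x w / w u ≤ M * (ti x w / w u) := le_mul_of_one_le_left h3.le hM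
    rw [hprod] at h2
    exact h4.trans (h1.trans (h2.trans (mul_le_mul_of_nonneg_left (h0.trans hB) hMp.le)))
  · rw [inv_le_iff_one_le_mul₀ hM0, mul_comm]
    exact hlow w

/-- the number of values of the exponents at the infinite places -/
private lemma ea7_log (D : ℕ) (M η : ℝ) (hM : 1 ≤ M) (hη : 0 < η) : ∃ C : ℝ, 1 ≤ C ∧
    ∀ B : ℝ, 1 ≤ B → ∀ (ι : Type u) [Fintype ι], Fintype.card ι ≤ D →
      ∀ Z : Finset (ι → ℤ), (∀ e ∈ Z, ∀ w, -Real.log M - 1 ≤ e w ∧
        (e w : ℝ) ≤ Real.log (M ^ D * B)) → (Z.card : ℝ) ≤ C * B ^ η := by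
  classical
  have hM0 : 0 < M := by linarith
  have hlM : 0 ≤ Real.log M := Real.log_nonneg hM
  set ε : ℝ := η / (D + 1) with hε
  have hD0 : (0 : ℝ) < D + 1 := by positivity
  have hε0 : 0 < ε := div_pos hη hD0
  have hεD : ε * D ≤ η := by
    rw [hε, div_mul_eq_mul_div, div_le_iff₀ hD0]
    nlinarith
  set c : ℝ := D * Real.log M + Real.log M + 2 with hc
  have hc1 : 2 ≤ c := by
    have : 0 ≤ (D : ℝ) * Real.log M := by positivity
    linarith
  have hb1 : 1 ≤ 1 / ε + c := by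
    have : 0 < 1 / ε := by positivity
    linarith
  refine ⟨(1 / ε + c) ^ D, one_le_pow₀ hb1, fun B hB ι _ hι Z hZ => ?_⟩
  have hB0 : 0 < B := by linarith
  have hlB : 0 ≤ Real.log B := Real.log_nonneg hB
  set lo : ℤ := ⌈-Real.log M - 1⌉ with hlo
  set hi : ℤ := ⌊Real.log (M ^ D * B)⌋ with hhi
  have hsub : Z ⊆ Fintype.piFinset fun _ : ι => Finset.Icc lo hi := by
    intro e he
    rw [Fintype.mem_piFinset]
    intro w
    rw [Finset.mem_Icc]
    exact ⟨Int.ceil_le.2 (hZ e he w).1, Int.le_floor.2 (hZ e he w).2⟩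
  have hlog : Real.log (M ^ D * B) = D * Real.log M + Real.log B := by
    rw [Real.log_mul (pow_pos hM0 _).ne' hB0.ne', Real.log_pow]
  have hcard : ((Finset.Icc lo hi).card : ℝ) ≤ Real.log B + c := by
    rw [Int.card_Icc]
    have h1 : (hi : ℝ) ≤ Real.log (M ^ D * B) := Int.floor_le _
    have h2 : -Real.log M - 1 ≤ (lo : ℝ) := Int.le_ceil _
    rw [hlog] at h1
    have h3 : (((hi + 1 - lo).toNat : ℤ) : ℝ) ≤ Real.log B + c := by
      rw [Int.toNat_eq_max]
      push_cast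
      exact max_le (by linarith) (by linarith)
    exact_mod_cast h3
  have h4 : (Z.card : ℝ) ≤ ((Finset.Icc lo hi).card : ℝ) ^ Fintype.card ι := by
    have := Finset.card_le_card hsub
    rw [Fintype.card_piFinset, Finset.prod_const, Finset.card_univ] at this
    exact_mod_cast this
  have h5 : Real.log B + c ≤ (1 / ε + c) * B ^ ε := by
    have h6 := Real.log_le_rpow_div hB0.le hε0
    have h7 : 1 ≤ B ^ ε := Real.one_le_rpow hB hε0.le
    have h8 : c ≤ c * B ^ ε := le_mul_of_one_le_right (by linarith) h7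
    have h9 : B ^ ε / ε = 1 / ε * B ^ ε := by ring
    rw [add_mul]
    linarith
  calc (Z.card : ℝ) ≤ ((Finset.Icc lo hi).card : ℝ) ^ Fintype.card ι := h4
    _ ≤ (Real.log B + c) ^ Fintype.card ι := pow_le_pow_left₀ (Nat.cast_nonneg _) hcard _
    _ ≤ (Real.log B + c) ^ D := pow_le_pow_right₀ (by linarith) hι
    _ ≤ ((1 / ε + c) * B ^ ε) ^ D := pow_le_pow_left₀ (by linarith) h5 _
    _ = (1 / ε + c) ^ D * B ^ (ε * D) := by
        rw [mul_pow, Real.rpow_mul hB0.le, Real.rpow_natCast]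
    _ ≤ (1 / ε + c) ^ D * B ^ η :=
        mul_le_mul_of_nonneg_left (Real.rpow_le_rpow_of_exponent_le hB hεD) (by positivity)

/-- the exponents of `k` and `e` are determined by the data -/
private structure EA7Cd {E : Type*} [Field E] [NumberField E] {m : ℕ} (x : Fin m → E) (u : E)
    (k : HeightOneSpectrum (𝓞 E) →₀ ℕ) (e : InfinitePlace E → ℤ) : Prop where
  fn : ∀ w, nv w ^ k w = tf x w / fa w u
  nf : ∀ w : InfinitePlace E, e w = ⌊Real.log (ti x w / w u)⌋

/-- existence of the exponents -/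
private lemma ea7_ex {E : Type*} [Field E] [NumberField E] {m : ℕ} {x : Fin m → E} (hx : x ≠ 0)
    {u : E} (hu : u ≠ 0) (h : ∀ w : HeightOneSpectrum (𝓞 E), fa w u ≤ tf x w) :
    ∃ k e, EA7Cd x u k e := by
  classical
  obtain ⟨⟨hpow, hfin, -⟩, -⟩ := adm_tf x hx
  have hex : ∀ w : HeightOneSpectrum (𝓞 E), ∃ k : ℕ, nv w ^ k = tf x w / fa w u := by
    intro w
    have hj := Pool.Agent.Lib.MP_4d5ce1_nt.fa_eq w hu
    obtain ⟨i, hi⟩ := hpow w
    have hle := h w
    have hne : nv w ≠ 0 := (nv_pos w).ne'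
    rw [hj, hi] at hle
    have hji : - ordv w u ≤ i := (zpow_le_zpow_iff_right₀ (one_lt_nv w)).1 hle
    refine ⟨(i - - ordv w u).toNat, ?_⟩
    rw [hi, hj, ← zpow_sub₀ hne, ← zpow_natCast, Int.toNat_of_nonneg (by omega)]
  choose k hk using hex
  have hsupp : (Function.support k).Finite := by
    have hu' := Pool.Agent.Lib.MP_4d5ce1_nt.finite_fa_ne_one hu
    refine (hfin.union hu').subset ?_
    intro w hw
    by_contra hcon
    rw [Set.mem_union, not_or] at hcon
    obtain ⟨h1, h2⟩ := hcon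
    have h1' : tf x w = 1 := by
      by_contra h3
      exact h1 h3
    have h2' : fa w u = 1 := by
      by_contra h3
      exact h2 h3
    have h5 := hk w
    rw [h1', h2', div_one] at h5
    have h6 : k w ≠ 0 := hw
    have h7 := one_lt_pow₀ (one_lt_nv w) h6
    linarith
  exact ⟨Finsupp.ofSupportFinite k hsupp, fun w => ⌊Real.log (ti x w / w u)⌋, ⟨hk, fun w => rfl⟩⟩

/-- the norm of the exponents -/
private lemma ea7_Nk {E : Type*} [Field E] [NumberField E] {m : ℕ} {x : Fin m → E} (hx : x ≠ 0)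
    {u : E} (hu : u ≠ 0) {l B : ℝ} (hl : 0 < l) (h : u ∈ Bx (tf x) (ti x) l)
    (hB : mulHeight x ≤ B) {k : HeightOneSpectrum (𝓞 E) →₀ ℕ} {e : InfinitePlace E → ℤ}
    (hk : EA7Cd x u k e) : Nk k ≤ B * l ^ Module.finrank ℚ E := by
  classical
  obtain ⟨⟨-, -, hpos⟩, -⟩ := adm_tf x hx
  have hup : ∀ w : InfinitePlace E, 0 < w u := fun w => InfinitePlace.pos_iff.2 hu
  have hkey := ea7_key hx hu h.1 k.support
  have hNk : Nk k = ∏ w ∈ k.support, tf x w / fa w u := by
    unfold Nk Finsupp.prod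
    exact Finset.prod_congr rfl fun w _ => hk.fn w
  have hlow : ∀ w : InfinitePlace E, 1 ≤ l * (ti x w / w u) := by
    intro w
    rw [← mul_div_assoc, one_le_div (hup w)]
    exact h.2 w
  have hMD : ∏ w : InfinitePlace E, l ^ w.mult = l ^ Module.finrank ℚ E := by
    rw [Finset.prod_pow_eq_pow_sum, InfinitePlace.sum_mult_eq]
  have hprod : ∏ w : InfinitePlace E, (l * (ti x w / w u)) ^ w.mult =
      l ^ Module.finrank ℚ E * ∏ w : InfinitePlace E, (ti x w / w u) ^ w.mult := by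
    rw [← hMD, ← Finset.prod_mul_distrib]
    exact Finset.prod_congr rfl fun w _ => mul_pow _ _ _
  have hone : 1 ≤ l ^ Module.finrank ℚ E * ∏ w : InfinitePlace E, (ti x w / w u) ^ w.mult := by
    rw [← hprod]
    exact ea7_one_le_prod _ _ fun w _ => one_le_pow₀ (hlow w)
  have hN0 : 0 ≤ Nk k := zero_le_one.trans (ea7_one_le_Nk k)
  rw [← hNk] at hkey
  have hl0 : 0 < l ^ Module.finrank ℚ E := pow_pos hl _
  calc Nk k ≤ Nk k * (l ^ Module.finrank ℚ E *
        ∏ w : InfinitePlace E, (ti x w / w u) ^ w.mult) := le_mul_of_one_le_right hN0 hone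
    _ = (Nk k * ∏ w : InfinitePlace E, (ti x w / w u) ^ w.mult) * l ^ Module.finrank ℚ E := by
        ring
    _ ≤ B * l ^ Module.finrank ℚ E := mul_le_mul_of_nonneg_right (hkey.trans hB) hl0.le

/-- equal codes give similar vectors -/
private lemma ea7_sim {E : Type*} [Field E] [NumberField E] {m : ℕ} {x x' : Fin m → E}
    {u u' : E} {k : HeightOneSpectrum (𝓞 E) →₀ ℕ} {e : InfinitePlace E → ℤ}
    (hx : x ≠ 0) (hx' : x' ≠ 0) (hu : u ≠ 0) (hu' : u' ≠ 0)
    (h : EA7Cd x u k e) (h' : EA7Cd x' u' k e) : Sim x x' := by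
  obtain ⟨⟨-, -, hpos⟩, -⟩ := adm_tf x hx
  obtain ⟨⟨-, -, hpos'⟩, -⟩ := adm_tf x' hx'
  have hup : ∀ w : InfinitePlace E, 0 < w u := fun w => InfinitePlace.pos_iff.2 hu
  have hup' : ∀ w : InfinitePlace E, 0 < w u' := fun w => InfinitePlace.pos_iff.2 hu'
  have hlog : ∀ w : InfinitePlace E, ti x w / w u ≤ 3 * (ti x' w / w u') ∧
      ti x' w / w u' ≤ 3 * (ti x w / w u) := by
    have gen : ∀ a b : ℝ, 0 < a → 0 < b → ⌊Real.log a⌋ = ⌊Real.log b⌋ → a ≤ 3 * b := by
      intro a b ha hb hab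
      have h1 : Real.log a - Real.log b < 1 :=
        (abs_lt.1 (Int.abs_sub_lt_one_of_floor_eq_floor hab)).2
      have h2 : Real.log a < Real.log (Real.exp 1 * b) := by
        rw [Real.log_mul (Real.exp_pos 1).ne' hb.ne', Real.log_exp]
        linarith
      have h3 := (Real.log_lt_log_iff ha (by positivity)).1 h2
      have h4 : Real.exp 1 < 3 := Real.exp_one_lt_three
      nlinarith
    intro w
    have ha := div_pos (hpos w) (hup w)
    have hb := div_pos (hpos' w) (hup' w)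
    have hab : ⌊Real.log (ti x w / w u)⌋ = ⌊Real.log (ti x' w / w u')⌋ := by
      rw [← h.nf w, ← h'.nf w]
    exact ⟨gen _ _ ha hb hab, gen _ _ hb ha hab.symm⟩
  refine ⟨u / u', div_ne_zero hu hu', fun w => ?_, fun w => ?_, fun w => ?_⟩
  · have h1 := (h.fn w).symm.trans (h'.fn w)
    have h2 := fa_pos w hu
    have h3 := fa_pos w hu'
    rw [div_eq_div_iff h2.ne' h3.ne'] at h1
    rw [Pool.Agent.Lib.MP_4d5ce1_nt.fa_div, div_mul_eq_mul_div, div_eq_iff h3.ne']
    linarith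
  · have h1 := (hlog w).2
    rw [map_div₀, div_mul_eq_mul_div, mul_div_assoc]
    have h2 : w u * (3 * (ti x w / w u)) = 3 * ti x w := by
      rw [mul_left_comm, mul_div_cancel₀ _ (hup w).ne']
    rw [← h2]
    exact mul_le_mul_of_nonneg_left h1 (hup w).le
  · have h1 := (hlog w).1
    rw [map_div₀, div_mul_eq_mul_div, mul_div_assoc]
    have h2 : w u * (ti x w / w u) = ti x w := mul_div_cancel₀ _ (hup w).ne'
    calc ti x w = w u * (ti x w / w u) := h2.symm
      _ ≤ w u * (3 * (ti x' w / w u')) := mul_le_mul_of_nonneg_left h1 (hup w).le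
      _ = 3 * (w u * (ti x' w / w u')) := by ring

private lemma ea7_below {F : Type*} {E : Type*} [Field F] [NumberField F] [Field E]
    [NumberField E] [Algebra F E] (w : HeightOneSpectrum (𝓞 E)) :
    ∃ v : HeightOneSpectrum (𝓞 F), w.asIdeal.comap (algebraMap (𝓞 F) (𝓞 E)) = v.asIdeal := by
  have hp : (w.asIdeal.comap (algebraMap (𝓞 F) (𝓞 E))).IsPrime := by
    have := w.isPrime
    exact Ideal.comap_isPrime _ _
  refine ⟨⟨w.asIdeal.comap (algebraMap (𝓞 F) (𝓞 E)), hp, ?_⟩, rfl⟩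
  intro h
  exact w.ne_bot (Ideal.eq_bot_of_comap_eq_bot h)

private lemma ea7_fa_lt {E : Type*} [Field E] [NumberField E] (w : HeightOneSpectrum (𝓞 E))
    {x : E} (h : fa w x < 1) : fa w x ≤ (nv w)⁻¹ := by
  rcases eq_or_ne x 0 with rfl | hx
  · rw [Pool.Agent.Lib.MP_4d5ce1_nt.fa_zero]
    exact (inv_pos.2 (nv_pos w)).le
  · rw [Pool.Agent.Lib.MP_4d5ce1_nt.fa_eq w hx] at h ⊢
    have h1 : - ordv w x < 0 := by
      by_contra h2
      push Not at h2
      have := one_le_zpow₀ (one_lt_nv w).le h2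
      linarith
    rw [← zpow_neg_one]
    exact zpow_le_zpow_right₀ (one_lt_nv w).le (by omega)

private lemma ea7_prod_nv {F E : Type*} [Field F] [NumberField F] [Field E] [NumberField E]
    [Algebra F E] (v : HeightOneSpectrum (𝓞 F)) :
    ∏ w ∈ ov F E v, nv w ≤ nv v ^ Module.finrank F E := by
  obtain ⟨π, hπ⟩ := HeightOneSpectrum.valuation_exists_uniformizer F v
  have hπ0 : π ≠ 0 := by
    rintro rfl
    rw [map_zero] at hπ
    exact absurd hπ.symm WithZero.exp_ne_zero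
  have h1 : fa v π = (nv v)⁻¹ := by
    rw [Pool.Agent.Lib.MP_4d5ce1_nt.fa_eq v hπ0]
    have : ordv v π = 1 := by
      unfold Pool.Agent.Lib.MP_4d5ce1_nt.ordv
      rw [hπ, WithZero.log_exp, neg_neg]
    rw [this, zpow_neg_one]
  have h2 : fa v π < 1 := by
    rw [h1]
    exact inv_lt_one_of_one_lt₀ (one_lt_nv v)
  have hn : fa v (Algebra.norm F (algebraMap F E π)) = ∏ w ∈ ov F E v, fa w (algebraMap F E π) :=
    fa_norm v _
  rw [Algebra.norm_algebraMap, Pool.Agent.Lib.MP_4d5ce1_nt.fa_pow, h1] at hn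
  have h3 : ∏ w ∈ ov F E v, fa w (algebraMap F E π) ≤ ∏ w ∈ ov F E v, (nv w)⁻¹ := by
    refine Finset.prod_le_prod (fun w _ => fa_nonneg w _) fun w hw => ?_
    obtain ⟨m, hm, -, hm2⟩ := fa_up_lt_iff ((mem_ov v w).1 hw)
    refine ea7_fa_lt w ?_
    rw [hm2]
    exact pow_lt_one₀ (fa_nonneg v π) h2 (by omega)
  rw [← hn, Finset.prod_inv_distrib, inv_pow] at h3
  exact (inv_le_inv₀ (pow_pos (nv_pos v) _) (Finset.prod_pos fun w _ => nv_pos w)).1 h3

private lemma ea7_NN {F E : Type*} [Field F] [NumberField F] [Field E] [NumberField E]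
    [Algebra F E] (V : Finset (HeightOneSpectrum (𝓞 F))) :
    ∃ W : Finset (HeightOneSpectrum (𝓞 E)), (∀ v ∈ V, ∀ w ∈ ov F E v, w ∈ W) ∧
      NN W ≤ (∏ v ∈ V, nv v) ^ Module.finrank F E := by
  classical
  refine ⟨V.biUnion (ov F E), fun v hv w hw => Finset.mem_biUnion.2 ⟨v, hv, hw⟩, ?_⟩
  unfold NN
  rw [Finset.prod_biUnion, ← Finset.prod_pow]
  · exact Finset.prod_le_prod (fun v _ => Finset.prod_nonneg fun w _ => (nv_pos w).le)
      fun v _ => ea7_prod_nv v
  · intro v _ v' _ hvv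
    rw [Function.onFun, Finset.disjoint_left]
    intro w hw hw'
    rw [mem_ov] at hw hw'
    exact hvv (HeightOneSpectrum.ext (hw.symm.trans hw'))

/-- the code over the base field -/
private structure EA7Fd {F E : Type*} [Field F] [NumberField F] [Field E] [NumberField E]
    [Algebra F E] {m : ℕ} (x : Fin m → E) (u : E)
    (k : HeightOneSpectrum (𝓞 F) →₀ ℕ) (e : InfinitePlace F → ℤ) : Prop where
  fn : ∀ v, nv v ^ k v = ∏ w ∈ ov F E v, tf x w / fa w u
  nf : ∀ v : InfinitePlace F, e v = ⌊Real.log (∏ w ∈ oi F E v, (ti x w / w u) ^ w.mult)⌋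

private lemma ea7_Fex {F E : Type*} [Field F] [NumberField F] [Field E] [NumberField E]
    [Algebra F E] {m : ℕ} {x : Fin m → E} (hx : x ≠ 0)
    {u : E} (hu : u ≠ 0) (h : ∀ w : HeightOneSpectrum (𝓞 E), fa w u ≤ tf x w) :
    ∃ (k : HeightOneSpectrum (𝓞 F) →₀ ℕ) (e : InfinitePlace F → ℤ), EA7Fd x u k e := by
  classical
  obtain ⟨k, e, hke⟩ := ea7_ex hx hu h
  choose bl hbl using ea7_below (F := F) (E := E)
  let n : HeightOneSpectrum (𝓞 F) → ℕ := fun v =>
    ∑ w ∈ ov F E v, v.asIdeal.inertiaDeg' w.asIdeal * k w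
  have hn : (Function.support n).Finite := by
    refine (k.support.image bl).finite_toSet.subset ?_
    intro v hv
    have hv' : n v ≠ 0 := hv
    obtain ⟨w, hw, hw2⟩ := Finset.exists_ne_zero_of_sum_ne_zero hv'
    have hkw : k w ≠ 0 := by
      intro h0
      exact hw2 (by rw [h0, mul_zero])
    rw [Finset.mem_coe, Finset.mem_image]
    refine ⟨w, Finsupp.mem_support_iff.2 hkw, ?_⟩
    have h1 := (mem_ov v w).1 hw
    exact HeightOneSpectrum.ext ((hbl w).symm.trans h1)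
  refine ⟨Finsupp.ofSupportFinite n hn, fun v =>
    ⌊Real.log (∏ w ∈ oi F E v, (ti x w / w u) ^ w.mult)⌋, ⟨fun v => ?_, fun v => rfl⟩⟩
  change nv v ^ n v = _
  rw [← Finset.prod_pow_eq_pow_sum]
  refine Finset.prod_congr rfl fun w hw => ?_
  rw [← hke.fn w, pow_mul, ← nv_up ((mem_ov v w).1 hw)]

private lemma ea7_prod_oi {F E : Type*} [Field F] [NumberField F] [Field E] [NumberField E]
    [Algebra F E] (g : InfinitePlace E → ℝ) :
    ∏ v : InfinitePlace F, ∏ w ∈ oi F E v, g w = ∏ w : InfinitePlace E, g w := by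
  classical
  unfold oi
  exact Finset.prod_fiberwise Finset.univ (fun w : InfinitePlace E => w.comap (algebraMap F E)) g

private lemma ea7_NkF {F E : Type*} [Field F] [NumberField F] [Field E] [NumberField E]
    [Algebra F E] {m : ℕ} {x : Fin m → E} {u : E} {k : HeightOneSpectrum (𝓞 F) →₀ ℕ}
    {e : InfinitePlace F → ℤ} (hk : EA7Fd x u k e) :
    ∃ W : Finset (HeightOneSpectrum (𝓞 E)), Nk k = ∏ w ∈ W, tf x w / fa w u := by
  classical
  refine ⟨k.support.biUnion (ov F E), ?_⟩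
  rw [Finset.prod_biUnion]
  · unfold Nk Finsupp.prod
    exact Finset.prod_congr rfl fun v _ => hk.fn v
  · intro v _ v' _ hvv
    rw [Function.onFun, Finset.disjoint_left]
    intro w hw hw'
    rw [mem_ov] at hw hw'
    exact hvv (HeightOneSpectrum.ext (hw.symm.trans hw'))

/-- The data of one vector over a quadratic extension of the base field. -/
private structure EA7Dt {F E : Type*} [Field F] [NumberField F] [Field E] [NumberField E]
    [Algebra F E] {m : ℕ} (D : ℕ) (M B l1 l2 : ℝ) (x : Fin m → E) (u z : E)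
    (k : HeightOneSpectrum (𝓞 F) →₀ ℕ) (e : InfinitePlace F → ℤ) : Prop where
  rk : Module.finrank F E = 2
  rq : Module.finrank ℚ E = D
  hM : 1 ≤ M
  l0 : 0 < l1
  l12 : l1 ≤ l2
  lM : l2 ≤ M
  x0 : x ≠ 0
  ht : mulHeight x ≤ B
  u0 : u ≠ 0
  ub : u ∈ Bx (tf x) (ti x) l1
  zb : z ∈ Bx (tf x) (ti x) l2
  ad : IntermediateField.adjoin F {z / u} = ⊤
  cd : EA7Fd x u k e

private lemma ea7_facts {F E : Type*} [Field F] [NumberField F] [Field E] [NumberField E]
    [Algebra F E] {m D : ℕ} {M B l1 l2 : ℝ} {x : Fin m → E} {u z : E}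
    {k : HeightOneSpectrum (𝓞 F) →₀ ℕ} {e : InfinitePlace F → ℤ}
    (h : EA7Dt D M B l1 l2 x u z k e) :
    Nk k * ∏ v : InfinitePlace F, Real.exp (e v) ≤ B ∧ Nk k ≤ B * l1 ^ D ∧ 1 ≤ B * l1 ^ D ∧
    (∀ v, -Real.log (M ^ D) - 1 ≤ e v ∧ (e v : ℝ) ≤ Real.log (M ^ D * B)) ∧
    ∀ v : InfinitePlace F, ∏ w ∈ oi F E v, (ti x w / w u) ^ w.mult ≤ Real.exp (e v + 1) := by
  classical
  have hM0 : 0 < M := by have := h.hM; linarith
  have hl0 := h.l0
  have hlM : l1 ≤ M := h.l12.trans h.lM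
  obtain ⟨⟨-, -, hpos⟩, -⟩ := adm_tf x h.x0
  have hup : ∀ w : InfinitePlace E, 0 < w u := fun w => InfinitePlace.pos_iff.2 h.u0
  have hq : ∀ w : InfinitePlace E, 0 < ti x w / w u := fun w => div_pos (hpos w) (hup w)
  set P : InfinitePlace F → ℝ := fun v => ∏ w ∈ oi F E v, (ti x w / w u) ^ w.mult with hP
  have hP0 : ∀ v, 0 < P v := fun v => Finset.prod_pos fun w _ => pow_pos (hq w) _
  have hPP : ∏ v, P v = ∏ w : InfinitePlace E, (ti x w / w u) ^ w.mult :=
    ea7_prod_oi fun w => (ti x w / w u) ^ w.mult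
  obtain ⟨W, hW⟩ := ea7_NkF h.cd
  have hkey := (ea7_key h.x0 h.u0 h.ub.1 W).trans h.ht
  rw [← hW, ← hPP] at hkey
  have hN1 : 1 ≤ Nk k := ea7_one_le_Nk k
  have he : ∀ v, e v = ⌊Real.log (P v)⌋ := h.cd.nf
  have hexp : ∀ v, Real.exp (e v) ≤ P v := by
    intro v
    rw [← Real.le_log_iff_exp_le (hP0 v), he v]
    exact Int.floor_le _
  have hexp2 : ∀ v, P v ≤ Real.exp (e v + 1) := by
    intro v
    rw [← Real.log_le_iff_le_exp (hP0 v), he v]
    exact (Int.lt_floor_add_one _).le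
  have hlow : ∀ w : InfinitePlace E, 1 ≤ l1 * (ti x w / w u) := by
    intro w
    rw [← mul_div_assoc, one_le_div (hup w)]
    exact h.ub.2 w
  have hlow2 : ∀ w : InfinitePlace E, 1 ≤ M * (ti x w / w u) := fun w =>
    (hlow w).trans (mul_le_mul_of_nonneg_right hlM (hq w).le)
  have hl : ∀ l : ℝ, ∏ w : InfinitePlace E, (l * (ti x w / w u)) ^ w.mult = l ^ D * ∏ v, P v := by
    intro l
    rw [hPP, ← h.rq, ← InfinitePlace.sum_mult_eq (K := E), ← Finset.prod_pow_eq_pow_sum,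
      ← Finset.prod_mul_distrib]
    exact Finset.prod_congr rfl fun w _ => mul_pow _ _ _
  have h1 : 1 ≤ l1 ^ D * ∏ v, P v := by
    rw [← hl]
    exact ea7_one_le_prod _ _ fun w _ => one_le_pow₀ (hlow w)
  have hPpos : 0 < ∏ v, P v := Finset.prod_pos fun v _ => hP0 v
  have hlD : 0 < l1 ^ D := pow_pos hl0 _
  have hNB : Nk k ≤ B * l1 ^ D := by
    calc Nk k ≤ Nk k * (l1 ^ D * ∏ v, P v) := le_mul_of_one_le_right (by linarith) h1
      _ = (Nk k * ∏ v, P v) * l1 ^ D := by ring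
      _ ≤ B * l1 ^ D := mul_le_mul_of_nonneg_right hkey hlD.le
  have hPB : ∏ v, P v ≤ B :=
    (le_mul_of_one_le_left hPpos.le hN1).trans hkey
  have hMD : 0 < M ^ D := pow_pos hM0 _
  refine ⟨?_, hNB, hN1.trans hNB, fun v => ⟨?_, ?_⟩, hexp2⟩
  · refine le_trans ?_ hkey
    exact mul_le_mul_of_nonneg_left
      (Finset.prod_le_prod (fun v _ => (Real.exp_pos _).le) fun v _ => hexp v) (by linarith)
  · have h3 : (M ^ D)⁻¹ ≤ P v := by
      rw [inv_le_iff_one_le_mul₀ hMD]
      have h4 : 1 ≤ ∏ w ∈ oi F E v, (M * (ti x w / w u)) ^ w.mult :=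
        ea7_one_le_prod _ _ fun w _ => one_le_pow₀ (hlow2 w)
      have h5 : ∏ w ∈ oi F E v, (M * (ti x w / w u)) ^ w.mult =
          (∏ w ∈ oi F E v, M ^ w.mult) * P v := by
        rw [hP, ← Finset.prod_mul_distrib]
        exact Finset.prod_congr rfl fun w _ => mul_pow _ _ _
      have h6 : ∏ w ∈ oi F E v, M ^ w.mult ≤ M ^ D := by
        rw [← h.rq, ← InfinitePlace.sum_mult_eq (K := E), ← Finset.prod_pow_eq_pow_sum]
        exact Finset.prod_le_prod_of_subset_of_one_le (Finset.subset_univ _)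
          (fun w _ => (pow_pos hM0 _).le) fun w _ _ => one_le_pow₀ h.hM
      rw [h5] at h4
      rw [mul_comm]
      exact h4.trans (mul_le_mul_of_nonneg_right h6 (hP0 v).le)
    have h7 := Int.sub_one_lt_floor (Real.log (P v))
    have h8 := Real.log_le_log (inv_pos.2 hMD) h3
    rw [Real.log_inv] at h8
    rw [he v]
    linarith
  · rw [he v]
    refine (Int.floor_le _).trans (Real.log_le_log (hP0 v) ?_)
    have h4 : P v ≤ ∏ w ∈ oi F E v, (M * (ti x w / w u)) ^ w.mult := by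
      refine Finset.prod_le_prod (fun w _ => (pow_pos (hq w) _).le) fun w _ => ?_
      exact pow_le_pow_left₀ (hq w).le (le_mul_of_one_le_left (hq w).le h.hM) _
    have h5 : ∏ w ∈ oi F E v, (M * (ti x w / w u)) ^ w.mult ≤
        ∏ w : InfinitePlace E, (M * (ti x w / w u)) ^ w.mult :=
      Finset.prod_le_prod_of_subset_of_one_le (Finset.subset_univ _)
        (fun w _ => pow_nonneg (mul_pos hM0 (hq w)).le _) fun w _ _ => one_le_pow₀ (hlow2 w)
    refine h4.trans (h5.trans ?_)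
    rw [hl]
    exact mul_le_mul_of_nonneg_left hPB hMD.le

/-- the coefficients of the minimal polynomial over the base field -/
private lemma ea7_coeff {F E : Type u} [Field F] [NumberField F] [Field E] [NumberField E]
    [Algebra F E] {m D : ℕ} {M B l1 l2 : ℝ} {x : Fin m → E} {u z : E}
    {k : HeightOneSpectrum (𝓞 F) →₀ ℕ} {e : InfinitePlace F → ℤ}
    (h : EA7Dt D M B l1 l2 x u z k e) (i : ℕ) (hi : i ≤ 2) :
    (minpoly F (z / u)).coeff i ∈ Bx (fun v => nv v ^ k v) (fun v => (2 ^ 2 * l1 ^ i *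
      l2 ^ (2 - i)) * Real.exp ((e v + 1) / v.mult)) 1 := by
  classical
  have hM0 : 0 < M := by have := h.hM; linarith
  have hl0 := h.l0
  have hl2 : 0 < l2 := hl0.trans_le h.l12
  obtain ⟨⟨-, -, hpos⟩, -⟩ := adm_tf x h.x0
  have hup : ∀ w : InfinitePlace E, 0 < w u := fun w => InfinitePlace.pos_iff.2 h.u0
  have hfac := ea7_facts h
  refine ⟨fun v => ?_, fun v => ?_⟩
  · have h1 := coeff_fin v u z h.u0 h.ad i
    rw [Pool.Agent.Lib.MP_4d5ce1_nt.fa_mul, fa_norm] at h1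
    have h2 : ∏ w ∈ ov F E v, max (fa w u) (fa w z) ≤ ∏ w ∈ ov F E v, tf x w :=
      Finset.prod_le_prod (fun w _ => (fa_nonneg w u).trans (le_max_left _ _))
        fun w _ => max_le (h.ub.1 w) (h.zb.1 w)
    have h3 : 0 < ∏ w ∈ ov F E v, fa w u := Finset.prod_pos fun w _ => fa_pos w h.u0
    change fa v _ ≤ nv v ^ k v
    rw [h.cd.fn v, Finset.prod_div_distrib, le_div_iff₀ h3, mul_comm]
    exact h1.trans h2
  · have h1 := coeff_inf 2 h.rk v (ti x) hpos l1 l2 hl0.le hl2.le u z h.u0 h.ub.2 h.zb.2 h.ad i hi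
    have h3 : 0 < ∏ w ∈ oi F E v, w u ^ w.mult := Finset.prod_pos fun w _ => pow_pos (hup w) _
    rw [map_mul, mul_pow, norm_inf] at h1
    have h4 : v ((minpoly F (z / u)).coeff i) ^ v.mult ≤
        (2 ^ 2 * l1 ^ i * l2 ^ (2 - i)) ^ v.mult *
          ∏ w ∈ oi F E v, (ti x w / w u) ^ w.mult := by
      have h5 : ∏ w ∈ oi F E v, (ti x w / w u) ^ w.mult =
          (∏ w ∈ oi F E v, ti x w ^ w.mult) / ∏ w ∈ oi F E v, w u ^ w.mult := by
        rw [← Finset.prod_div_distrib]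
        exact Finset.prod_congr rfl fun w _ => div_pow _ _ _
      rw [h5, ← mul_div_assoc, le_div_iff₀ h3, mul_comm]
      exact h1
    have hc : 0 < 2 ^ 2 * l1 ^ i * l2 ^ (2 - i) := by positivity
    have h6 := h4.trans (mul_le_mul_of_nonneg_left (hfac.2.2.2.2 v) (pow_pos hc v.mult).le)
    have hmult : (v.mult : ℝ) ≠ 0 := by exact_mod_cast InfinitePlace.mult_pos.ne'
    have h7 : Real.exp (e v + 1) = Real.exp ((e v + 1) / v.mult) ^ v.mult := by
      rw [← Real.exp_nat_mul, mul_div_cancel₀ _ hmult]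
    rw [h7, ← mul_pow] at h6
    rw [one_mul]
    exact (pow_le_pow_iff_left₀ (apply_nonneg _ _) (mul_pos hc (Real.exp_pos _)).le
      InfinitePlace.mult_pos.ne').1 h6

/-- the classes over one field with a given code over the base field -/
private lemma ea7_core (D : ℕ) (M η : ℝ) (hM : 1 ≤ M) (hη : 0 < η) : ∃ C : ℝ, 1 ≤ C ∧
    ∀ B : ℝ, 1 ≤ B → ∀ l1 l2 : ℝ, ∀ (F E : Type u) [Field F] [NumberField F] [Field E]
      [NumberField E] [Algebra F E] (m : ℕ) (k₀ : HeightOneSpectrum (𝓞 F) →₀ ℕ)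
      (e₀ : InfinitePlace F → ℤ) (Y : Finset (Fin m → E)),
      (∀ x ∈ Y, ∃ u z : E, EA7Dt D M B l1 l2 x u z k₀ e₀) →
      ∃ R ⊆ Y, (∀ x ∈ Y, ∃ y ∈ R, Sim y x) ∧ (R.card : ℝ) ≤ C * B ^ η := by
  classical
  have hD1 : (0 : ℝ) < D + 1 := by positivity
  have hη' : 0 < η / 2 / (D + 1) := by positivity
  obtain ⟨C₁, hC₁, h₁⟩ := card_exps.{u} D (η / 2 / (D + 1)) hη'
  obtain ⟨C₂, hC₂, h₂⟩ := ea7_log.{u} D M (η / 2) hM (by positivity)
  have hM0 : 0 < M := by linarith
  set A : ℝ := (M ^ D) ^ (η / 2) with hA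
  refine ⟨max 1 (C₁ * A * C₂), le_max_left _ _, fun B hB l1 l2 F E _ _ _ _ _ m k₀ e₀ Y hY => ?_⟩
  have hB0 : 0 < B := by linarith
  rcases Y.eq_empty_or_nonempty with rfl | ⟨x₀, hx₀⟩
  · refine ⟨∅, Finset.Subset.refl _, fun s hs => absurd hs (Finset.notMem_empty s), ?_⟩
    rw [Finset.card_empty, Nat.cast_zero]
    have : (0 : ℝ) < max 1 (C₁ * A * C₂) := lt_of_lt_of_le one_pos (le_max_left _ _)
    positivity
  have hex : ∀ x : Fin m → E, ∃ (u z : E) (k : HeightOneSpectrum (𝓞 E) →₀ ℕ)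
      (e : InfinitePlace E → ℤ), x ∈ Y → EA7Dt D M B l1 l2 x u z k₀ e₀ ∧ EA7Cd x u k e := by
    intro x
    by_cases hx : x ∈ Y
    · obtain ⟨u, z, h⟩ := hY x hx
      obtain ⟨k, e, hke⟩ := ea7_ex h.x0 h.u0 h.ub.1
      exact ⟨u, z, k, e, fun _ => ⟨h, hke⟩⟩
    · exact ⟨0, 0, 0, fun _ => 0, fun h => absurd h hx⟩
  choose u z k e hke using hex
  have hrk : Module.finrank ℚ E = D := (hke x₀ hx₀).1.rq
  have hr2 : Module.finrank F E = 2 := (hke x₀ hx₀).1.rk
  have hfin : Module.Finite F E := Module.Finite.of_restrictScalars_finite ℚ F E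
  have hD2 : 2 ≤ D := by
    rw [← hrk, ← Module.finrank_mul_finrank ℚ F E, hr2]
    have : 0 < Module.finrank ℚ F := Module.finrank_pos
    omega
  have hl0 : 0 < l1 := (hke x₀ hx₀).1.l0
  have hlM : l1 ≤ M := (hke x₀ hx₀).1.l12.trans (hke x₀ hx₀).1.lM
  set T : ℝ := (M ^ D * B) ^ D with hT
  have hMB : 1 ≤ M ^ D * B := one_le_mul_of_one_le_of_one_le (one_le_pow₀ hM) hB
  have hT1 : 1 ≤ T := one_le_pow₀ hMB
  have hBl : B * l1 ^ D ≤ M ^ D * B := by
    rw [mul_comm]
    exact mul_le_mul_of_nonneg_right (pow_le_pow_left₀ hl0.le hlM D) hB0.le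
  have hMBT : M ^ D * B ≤ T := le_self_pow₀ hMB (by omega)
  obtain ⟨V, hV1, hV2⟩ := ea7_NN (E := E) k₀.support
  have hVT : NN V ≤ T := by
    refine hV2.trans ?_
    rw [hr2]
    have h1 : ∏ v ∈ k₀.support, nv v ≤ Nk k₀ := by
      unfold Nk Finsupp.prod
      refine Finset.prod_le_prod (fun v _ => (nv_pos v).le) fun v hv => ?_
      exact le_self_pow₀ (one_lt_nv v).le (Finsupp.mem_support_iff.1 hv)
    have h2 := (ea7_facts (hke x₀ hx₀).1).2.1
    have h3 : 0 ≤ ∏ v ∈ k₀.support, nv v := Finset.prod_nonneg fun v _ => (nv_pos v).le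
    calc (∏ v ∈ k₀.support, nv v) ^ 2 ≤ (M ^ D * B) ^ 2 :=
          pow_le_pow_left₀ h3 (h1.trans (h2.trans hBl)) _
      _ ≤ T := pow_le_pow_right₀ hMB hD2
  let f : (Fin m → E) → (HeightOneSpectrum (𝓞 E) →₀ ℕ) × (InfinitePlace E → ℤ) :=
    fun x => (k x, e x)
  obtain ⟨R₀, hR₀, hbij⟩ := Set.exists_subset_bijOn (Y : Set (Fin m → E)) f
  refine ⟨Y.filter (· ∈ R₀), Finset.filter_subset _ _, ?_, ?_⟩
  · intro x hx
    have h1 : f x ∈ f '' (Y : Set (Fin m → E)) := ⟨x, hx, rfl⟩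
    obtain ⟨y, hy, hyx⟩ := hbij.surjOn h1
    have hyY : y ∈ Y := hR₀ hy
    obtain ⟨h2, h3⟩ := Prod.mk.inj hyx
    refine ⟨y, Finset.mem_filter.2 ⟨hyY, hy⟩, ?_⟩
    have h4 := (hke y hyY).2
    rw [h2, h3] at h4
    exact ea7_sim (hke y hyY).1.x0 (hke x hx).1.x0 (hke y hyY).1.u0 (hke x hx).1.u0 h4
      (hke x hx).2
  · set R := Y.filter (· ∈ R₀) with hR
    have hRY : ∀ x ∈ R, x ∈ Y := fun x hx => (Finset.mem_filter.1 hx).1
    have hinj : Set.InjOn f (R : Set (Fin m → E)) := by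
      intro a ha b hb hab
      exact hbij.injOn (Finset.mem_filter.1 ha).2 (Finset.mem_filter.1 hb).2 hab
    have hK : ((R.image k).card : ℝ) ≤ C₁ * T ^ (η / 2 / (D + 1)) := by
      refine h₁ E hrk.le T hT1 V hVT (R.image k) fun q hq => ?_
      obtain ⟨x, hx, rfl⟩ := Finset.mem_image.1 hq
      obtain ⟨h3, h3'⟩ := hke x (hRY x hx)
      refine ⟨fun w hw => ?_, ?_⟩
      · obtain ⟨v, hv⟩ := ea7_below (F := F) w
        have hwv : w ∈ ov F E v := (mem_ov v w).2 hv
        refine hV1 v ?_ w hwv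
        rw [Finsupp.mem_support_iff]
        intro h0
        have h4 := h3.cd.fn v
        rw [h0, pow_zero, ← Finset.mul_prod_erase _ _ hwv, ← h3'.fn w] at h4
        have h5 := one_lt_pow₀ (one_lt_nv w) (Finsupp.mem_support_iff.1 hw)
        have h6 : 1 ≤ ∏ w' ∈ (ov F E v).erase w, tf x w' / fa w' (u x) := by
          refine ea7_one_le_prod _ _ fun w' _ => ?_
          rw [← h3'.fn w']
          exact one_le_pow₀ (one_lt_nv w').le
        nlinarith
      · have h4 := ea7_Nk h3.x0 h3.u0 h3.l0 h3.ub h3.ht h3'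
        rw [hrk] at h4
        exact h4.trans (hBl.trans hMBT)
    have hE2 : ((R.image e).card : ℝ) ≤ C₂ * B ^ (η / 2) := by
      refine h₂ B hB (InfinitePlace E) ?_ (R.image e) fun q hq w => ?_
      · rw [← hrk, ← InfinitePlace.sum_mult_eq (K := E), Fintype.card, Finset.card_eq_sum_ones]
        exact Finset.sum_le_sum fun w _ => InfinitePlace.mult_pos
      · obtain ⟨x, hx, rfl⟩ := Finset.mem_image.1 hq
        obtain ⟨h3, h3'⟩ := hke x (hRY x hx)
        obtain ⟨⟨-, -, hpos⟩, -⟩ := adm_tf x h3.x0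
        have h4 : u x ∈ Bx (tf x) (ti x) M :=
          ⟨h3.ub.1, fun w => (h3.ub.2 w).trans (mul_le_mul_of_nonneg_right hlM (hpos w).le)⟩
        obtain ⟨-, h5, h6⟩ := ea7_box h3.x0 h3.u0 hM h4 h3.ht
        have h5w := h5 w
        have h6w := h6 w
        rw [hrk] at h5w
        have hpos : 0 < ti x w / w (u x) := (inv_pos.2 hM0).trans_le h6w
        rw [h3'.nf w]
        constructor
        · have h7 := Int.sub_one_lt_floor (Real.log (ti x w / w (u x)))
          have h8 := Real.log_le_log (inv_pos.2 hM0) h6w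
          rw [Real.log_inv] at h8
          linarith
        · exact (Int.floor_le _).trans (Real.log_le_log hpos h5w)
    have hsub : R.image f ⊆ (R.image k) ×ˢ (R.image e) := by
      intro p hp
      obtain ⟨x, hx, rfl⟩ := Finset.mem_image.1 hp
      exact Finset.mem_product.2 ⟨Finset.mem_image_of_mem _ hx, Finset.mem_image_of_mem _ hx⟩
    have hcard : (R.card : ℝ) ≤ ((R.image k).card : ℝ) * ((R.image e).card : ℝ) := by
      have := Finset.card_le_card hsub
      rw [Finset.card_product, Finset.card_image_of_injOn hinj] at this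
      exact_mod_cast this
    have hBe : B ^ (η / 2) * B ^ (η / 2) = B ^ η := by
      rw [← Real.rpow_add hB0, add_halves]
    have hTe : T ^ (η / 2 / (D + 1)) ≤ A * B ^ (η / 2) := by
      rw [hT, ← Real.rpow_natCast, ← Real.rpow_mul (by linarith), hA,
        ← Real.mul_rpow (by positivity) hB0.le]
      refine Real.rpow_le_rpow_of_exponent_le hMB ?_
      rw [mul_div_assoc', div_le_iff₀ hD1]
      nlinarith
    calc (R.card : ℝ) ≤ ((R.image k).card : ℝ) * ((R.image e).card : ℝ) := hcard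
      _ ≤ (C₁ * (A * B ^ (η / 2))) * (C₂ * B ^ (η / 2)) := by
          refine mul_le_mul (hK.trans (mul_le_mul_of_nonneg_left hTe hC₁.le)) hE2
            (Nat.cast_nonneg _) ?_
          positivity
      _ = C₁ * A * C₂ * (B ^ (η / 2) * B ^ (η / 2)) := by ring
      _ ≤ max 1 (C₁ * A * C₂) * B ^ η := by
          rw [hBe]
          exact mul_le_mul_of_nonneg_right (le_max_right _ _) (by positivity)

/-- the number of elements of the base field in the box of a code -/
private lemma ea7_cnt (f : ℕ) : ∃ C : ℝ, 1 ≤ C ∧ ∀ (F : Type u) [Field F] [NumberField F],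
    Module.finrank ℚ F = f → ∀ (k : HeightOneSpectrum (𝓞 F) →₀ ℕ) (e : InfinitePlace F → ℤ)
      (B c : ℝ), 0 < c → Nk k * ∏ v : InfinitePlace F, Real.exp (e v) ≤ B →
      ∀ H : Finset F, (∀ h ∈ H, h ∈ Bx (fun v => nv v ^ k v)
        (fun v => c * Real.exp ((e v + 1) / v.mult)) 1) → (H.card : ℝ) ≤ 1 + C * (c ^ f * B) := by
  classical
  obtain ⟨C₀, hC₀, h₀⟩ := adelic_card.{u} f
  refine ⟨max 1 (C₀ * Real.exp 1 ^ f), le_max_left _ _, fun F _ _ hF k e B c hc hB H hH => ?_⟩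
  have hN1 : 1 ≤ Nk k := ea7_one_le_Nk k
  have hsupp : (Function.mulSupport fun v : HeightOneSpectrum (𝓞 F) => nv v ^ k v) ⊆
      (k.support : Set (HeightOneSpectrum (𝓞 F))) := by
    intro v hv
    rw [Finset.mem_coe, Finsupp.mem_support_iff]
    intro h0
    exact hv (by simp [h0])
  have h1 := h₀ F hF.le (fun v => nv v ^ k v) (fun v => c * Real.exp ((e v + 1) / v.mult))
    (fun v => pow_pos (nv_pos v) _) (k.support.finite_toSet.subset hsupp)
    (fun v => mul_pos hc (Real.exp_pos _)) (H.erase 0) (fun y hy => by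
      rw [Finset.mem_erase] at hy
      exact ⟨hy.1, hH y hy.2⟩)
  have h2 : hb (fun v => nv v ^ k v) (fun v : InfinitePlace F =>
      c * Real.exp ((e v + 1) / v.mult)) ≤ c ^ f * B * Real.exp 1 ^ f := by
    unfold hb
    have e1 : ∏ᶠ v : HeightOneSpectrum (𝓞 F), nv v ^ k v = Nk k := by
      rw [finprod_eq_prod_of_mulSupport_subset _ hsupp]
      rfl
    have e2 : ∏ v : InfinitePlace F, (c * Real.exp ((e v + 1) / v.mult)) ^ v.mult =
        c ^ f * ((∏ v : InfinitePlace F, Real.exp (e v)) * ∏ v : InfinitePlace F, Real.exp 1) := by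
      rw [← hF, ← InfinitePlace.sum_mult_eq (K := F), ← Finset.prod_pow_eq_pow_sum,
        ← Finset.prod_mul_distrib, ← Finset.prod_mul_distrib]
      refine Finset.prod_congr rfl fun v _ => ?_
      have hmult : (v.mult : ℝ) ≠ 0 := by exact_mod_cast InfinitePlace.mult_pos.ne'
      rw [mul_pow, ← Real.exp_nat_mul, mul_div_cancel₀ _ hmult, Real.exp_add]
    have e3 : ∏ v : InfinitePlace F, Real.exp 1 ≤ Real.exp 1 ^ f := by
      rw [Finset.prod_const, ← hF, ← InfinitePlace.sum_mult_eq (K := F)]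
      refine pow_le_pow_right₀ (Real.one_le_exp zero_le_one) ?_
      rw [Finset.card_eq_sum_ones]
      exact Finset.sum_le_sum fun w _ => InfinitePlace.mult_pos
    rw [e1, e2]
    have e4 : 0 < ∏ v : InfinitePlace F, Real.exp (e v) := Finset.prod_pos fun v _ => Real.exp_pos _
    calc Nk k * (c ^ f * ((∏ v : InfinitePlace F, Real.exp (e v)) *
          ∏ v : InfinitePlace F, Real.exp 1)) =
          c ^ f * (Nk k * ∏ v : InfinitePlace F, Real.exp (e v)) *
            ∏ v : InfinitePlace F, Real.exp 1 := by ring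
      _ ≤ c ^ f * B * Real.exp 1 ^ f := by
          have hBp : 0 < B := lt_of_lt_of_le (mul_pos (by linarith) e4) hB
          refine mul_le_mul (mul_le_mul_of_nonneg_left hB (pow_pos hc _).le) e3
            (Finset.prod_nonneg fun v _ => (Real.exp_pos _).le) ?_
          positivity
  have e4 : 0 < ∏ v : InfinitePlace F, Real.exp (e v) := Finset.prod_pos fun v _ => Real.exp_pos _
  have hBp : 0 < B := lt_of_lt_of_le (mul_pos (by linarith) e4) hB
  have h3 : (H.card : ℝ) ≤ 1 + ((H.erase 0).card : ℝ) := by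
    have : H.card ≤ (H.erase 0).card + 1 := by
      have := Finset.pred_card_le_card_erase (s := H) (a := (0 : F))
      omega
    have h4 : ((H.card : ℕ) : ℝ) ≤ (((H.erase 0).card + 1 : ℕ) : ℝ) := by exact_mod_cast this
    push_cast at h4
    linarith
  refine h3.trans ?_
  have h5 : ((H.erase 0).card : ℝ) ≤ (C₀ * Real.exp 1 ^ f) * (c ^ f * B) := by
    refine h1.trans ((mul_le_mul_of_nonneg_left h2 hC₀.le).trans (le_of_eq ?_))
    ring
  have h6 : (C₀ * Real.exp 1 ^ f) * (c ^ f * B) ≤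
      max 1 (C₀ * Real.exp 1 ^ f) * (c ^ f * B) :=
    mul_le_mul_of_nonneg_right (le_max_right _ _) (by positivity)
  linarith

/-- The data of a vector, over the subfields of the algebraic closure. -/
private def EA7Q {K : Type u} [Field K] [NumberField K]
    (F : IntermediateField K (AlgebraicClosure K)) [NumberField F] {m : ℕ} (D : ℕ)
    (M B l1 l2 : ℝ) (s : Vc K m) (k : HeightOneSpectrum (𝓞 F) →₀ ℕ) (e : InfinitePlace F → ℤ)
    (y : AlgebraicClosure K) : Prop :=
  ∃ (h : F ≤ s.1) (_ : NumberField s.1) (u z : s.1),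
    (letI : Algebra F s.1 := (IntermediateField.inclusion h).toRingHom.toAlgebra
     EA7Dt D M B l1 l2 s.2 u z k e) ∧
    IntermediateField.adjoin K {z / u} = ⊤ ∧ y = ((z / u : s.1) : AlgebraicClosure K)

private lemma ea7_adj {K F E : Type*} [Field K] [Field F] [Field E] [Algebra K F] [Algebra F E]
    [Algebra K E] [IsScalarTower K F E] {y : E} (h : IntermediateField.adjoin K {y} = ⊤) :
    IntermediateField.adjoin F {y} = ⊤ := by
  rw [eq_top_iff]
  intro x _
  have hx : x ∈ IntermediateField.adjoin K {y} := by rw [h]; trivial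
  have hle : IntermediateField.adjoin K {y} ≤
      (IntermediateField.adjoin F {y}).restrictScalars K := by
    rw [IntermediateField.adjoin_le_iff]
    intro t ht
    exact IntermediateField.subset_adjoin F {y} ht
  exact hle hx

private lemma ea7_fld {K : Type u} [Field K] [NumberField K]
    (F : IntermediateField K (AlgebraicClosure K)) (y : F)
    (h : IntermediateField.adjoin K {y} = ⊤) :
    F = IntermediateField.adjoin K {(y : AlgebraicClosure K)} := by
  have h1 := IntermediateField.lift_adjoin K F {y}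
  rw [h, IntermediateField.lift_top, Set.image_singleton] at h1
  exact h1

private lemma ea7_Qex {K : Type u} [Field K] [NumberField K]
    (F : IntermediateField K (AlgebraicClosure K)) [NumberField F] {m r : ℕ}
    {M B l1 l2 : ℝ} (hM : 1 ≤ M) (hl : 0 < l1) (h12 : l1 ≤ l2) (h2M : l2 ≤ M)
    (hF : 2 * Module.finrank K F = r) (s : Vc K m) (h : F ≤ s.1) (hg : Gd r B s)
    (hp : Pair s l1 l2) : ∃ (k : HeightOneSpectrum (𝓞 F) →₀ ℕ) (e : InfinitePlace F → ℤ)
      (y : AlgebraicClosure K), EA7Q F (2 * Module.finrank ℚ F) M B l1 l2 s k e y := by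
  obtain ⟨hNF, h1, h2, -, h3⟩ := hg
  obtain ⟨_, u, z, hu, hub, hzb, had⟩ := hp
  letI : Algebra F s.1 := (IntermediateField.inclusion h).toRingHom.toAlgebra
  have hst : IsScalarTower K F s.1 := IsScalarTower.of_algebraMap_eq fun x => rfl
  have hfin : Module.Finite K F := Module.Finite.of_restrictScalars_finite ℚ K F
  have hrk : Module.finrank F s.1 = 2 := by
    have h4 := Module.finrank_mul_finrank K F s.1
    rw [h1, ← hF, mul_comm 2] at h4
    have h5 : 0 < Module.finrank K F := Module.finrank_pos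
    exact Nat.eq_of_mul_eq_mul_left h5 h4
  have hrq : Module.finrank ℚ s.1 = 2 * Module.finrank ℚ F := by
    rw [← Module.finrank_mul_finrank ℚ F s.1, hrk, mul_comm]
  obtain ⟨k, e, hke⟩ := ea7_Fex (F := F) h2 hu hub.1
  exact ⟨k, e, ((z / u : s.1) : AlgebraicClosure K), h, hNF, u, z,
    ⟨hrk, hrq, hM, hl, h12, h2M, h2, h3, hu, hub, hzb, ea7_adj had, hke⟩, had, rfl⟩

private lemma ea7_Qfacts {K : Type u} [Field K] [NumberField K]
    {F : IntermediateField K (AlgebraicClosure K)} [NumberField F] {m D : ℕ}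
    {M B l1 l2 : ℝ} {s : Vc K m} {k : HeightOneSpectrum (𝓞 F) →₀ ℕ} {e : InfinitePlace F → ℤ}
    {y : AlgebraicClosure K} (h : EA7Q F D M B l1 l2 s k e y) :
    Nk k * ∏ v : InfinitePlace F, Real.exp (e v) ≤ B ∧ Nk k ≤ B * l1 ^ D ∧ 1 ≤ B * l1 ^ D ∧
    (∀ v, -Real.log (M ^ D) - 1 ≤ e v ∧ (e v : ℝ) ≤ Real.log (M ^ D * B)) ∧
    s.1 = IntermediateField.adjoin K {y} ∧ IsIntegral F y ∧ (minpoly F y).natDegree = 2 ∧
    ∀ i ≤ 2, (minpoly F y).coeff i ∈ Bx (fun v => nv v ^ k v) (fun v => (2 ^ 2 * l1 ^ i *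
      l2 ^ (2 - i)) * Real.exp ((e v + 1) / v.mult)) 1 := by
  obtain ⟨hle, hNF, u, z, hD, had, hy⟩ := h
  letI : Algebra F s.1 := (IntermediateField.inclusion hle).toRingHom.toAlgebra
  have hst : IsScalarTower F s.1 (AlgebraicClosure K) :=
    IsScalarTower.of_algebraMap_eq fun x => rfl
  have hfin : Module.Finite F s.1 := Module.Finite.of_restrictScalars_finite ℚ F s.1
  obtain ⟨h1, h2, h3, h4, -⟩ := ea7_facts hD
  have hmin : minpoly F y = minpoly F (z / u) := by
    rw [hy]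
    exact minpoly.algebraMap_eq (algebraMap s.1 (AlgebraicClosure K)).injective (z / u)
  have hint : IsIntegral F (z / u) := Algebra.IsIntegral.isIntegral _
  refine ⟨h1, h2, h3, h4, ?_, ?_, ?_, ?_⟩
  · rw [hy]
    exact ea7_fld s.1 (z / u) had
  · rw [hy]
    exact hint.algebraMap
  · rw [hmin, ← hD.rk]
    exact (Field.primitive_element_iff_minpoly_natDegree_eq F (z / u)).1 hD.ad
  · intro i hi
    rw [hmin]
    exact ea7_coeff hD i hi

/-- the classes with a given code -/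
private lemma ea7_fiber {K : Type u} [Field K] [NumberField K] (D m : ℕ) (M η : ℝ)
    (hM : 1 ≤ M) (hη : 0 < η) : ∃ C : ℝ, 1 ≤ C ∧ ∀ B : ℝ, 1 ≤ B → ∀ l1 l2 : ℝ,
      ∀ (F : IntermediateField K (AlgebraicClosure K)) [NumberField F]
      (k : HeightOneSpectrum (𝓞 F) →₀ ℕ) (e : InfinitePlace F → ℤ) (y : AlgebraicClosure K)
      (X : Finset (Vc K m)), (∀ s ∈ X, EA7Q F D M B l1 l2 s k e y) →
      ∃ R ⊆ X, (∀ s ∈ X, ∃ t ∈ R, SimV t s) ∧ (R.card : ℝ) ≤ C * B ^ η := by
  classical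
  obtain ⟨C, hC, h⟩ := ea7_core.{u} D M η hM hη
  refine ⟨C, hC, fun B hB l1 l2 F _ k e y X hX => ?_⟩
  have hB0 : 0 < B := by linarith
  rcases X.eq_empty_or_nonempty with rfl | ⟨s₀, hs₀⟩
  · refine ⟨∅, Finset.Subset.refl _, fun s hs => absurd hs (Finset.notMem_empty s), ?_⟩
    rw [Finset.card_empty, Nat.cast_zero]
    positivity
  obtain ⟨E, hE⟩ : ∃ E : IntermediateField K (AlgebraicClosure K),
      E = IntermediateField.adjoin K {y} := ⟨_, rfl⟩
  have hXE : ∀ s ∈ X, s.1 = E := by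
    intro s hs
    obtain ⟨-, -, -, -, h1, -⟩ := ea7_Qfacts (hX s hs)
    rw [h1, hE]
  obtain ⟨hNF, hle⟩ : NumberField E ∧ F ≤ E := by
    obtain ⟨h1, h2, -⟩ := hX s₀ hs₀
    rw [← hXE s₀ hs₀]
    exact ⟨h2, h1⟩
  let ι : (Fin m → E) → Vc K m := fun x => ⟨E, x⟩
  have hι : Function.Injective ι := by
    intro a b hab
    exact eq_of_heq (Sigma.mk.inj_iff.1 hab).2
  have hXι : ∀ s ∈ X, ∃ x : Fin m → E, ι x = s := by
    intro s hs
    have h1 := hXE s hs
    rcases s with ⟨F', x⟩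
    dsimp only at h1
    subst h1
    exact ⟨x, rfl⟩
  letI : Algebra F E := (IntermediateField.inclusion hle).toRingHom.toAlgebra
  set Y := X.preimage ι hι.injOn with hY
  obtain ⟨R, hR1, hR2, hR3⟩ := h B hB l1 l2 F E m k e Y (by
    intro x hx
    obtain ⟨_, _, u, z, h3, -⟩ := hX (ι x) (Finset.mem_preimage.1 hx)
    exact ⟨u, z, h3⟩)
  refine ⟨R.image ι, ?_, ?_, ?_⟩
  · intro s hs
    obtain ⟨x, hx, rfl⟩ := Finset.mem_image.1 hs
    exact Finset.mem_preimage.1 (hR1 hx)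
  · intro s hs
    obtain ⟨x, rfl⟩ := hXι s hs
    obtain ⟨y', hy, hyx⟩ := hR2 x (Finset.mem_preimage.2 hs)
    exact ⟨ι y', Finset.mem_image_of_mem _ hy, E, hNF, y', x, rfl, rfl, hyx⟩
  · rw [Finset.card_image_of_injective _ hι]
    exact hR3

/-- the number of elements with a given code -/
private lemma ea7_ys {K : Type u} [Field K] [NumberField K] (f : ℕ) : ∃ C : ℝ, 1 ≤ C ∧
    ∀ (F : IntermediateField K (AlgebraicClosure K)) [NumberField F], Module.finrank ℚ F = f →
      ∀ (k : HeightOneSpectrum (𝓞 F) →₀ ℕ) (e : InfinitePlace F → ℤ) (B l1 l2 : ℝ), 0 < l1 →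
      0 < l2 → Nk k * ∏ v : InfinitePlace F, Real.exp (e v) ≤ B →
      ∀ Y : Finset (AlgebraicClosure K), (∀ y ∈ Y, IsIntegral F y ∧
        (minpoly F y).natDegree = 2 ∧ ∀ i ≤ 2, (minpoly F y).coeff i ∈ Bx (fun v => nv v ^ k v)
          (fun v => (2 ^ 2 * l1 ^ i * l2 ^ (2 - i)) * Real.exp ((e v + 1) / v.mult)) 1) →
      (Y.card : ℝ) ≤ 2 * ((1 + C * (B * (l1 * l2) ^ f)) * (1 + C * (B * l2 ^ (2 * f)))) := by
  classical
  obtain ⟨C, hC, h⟩ := ea7_cnt.{u} f
  have hC4 : 1 ≤ C * 4 ^ f := one_le_mul_of_one_le_of_one_le hC (one_le_pow₀ (by norm_num))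
  refine ⟨C * 4 ^ f, hC4, fun F _ hF k e B l1 l2 h1 h2 hB Y hY => ?_⟩
  let c : AlgebraicClosure K → F × F := fun y => ((minpoly F y).coeff 1, (minpoly F y).coeff 0)
  have hfib : ∀ a ∈ Y.image c, (Y.filter fun y => c y = a).card ≤ 2 := by
    intro a _
    obtain ⟨p, hp⟩ : ∃ p : Polynomial F, p = Polynomial.X ^ 2 + Polynomial.C a.1 * Polynomial.X +
      Polynomial.C a.2 := ⟨_, rfl⟩
    have hmin : ∀ y ∈ Y.filter (fun y => c y = a), minpoly F y = p := by
      intro y hy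
      obtain ⟨hy1, hy2⟩ := Finset.mem_filter.1 hy
      obtain ⟨hi, hd, -⟩ := hY y hy1
      have hm := minpoly.monic hi
      have hlc : (minpoly F y).coeff 2 = 1 := by
        have := hm.coeff_natDegree
        rwa [hd] at this
      have ha1 : (minpoly F y).coeff 1 = a.1 := by rw [← hy2]
      have ha2 : (minpoly F y).coeff 0 = a.2 := by rw [← hy2]
      have hsum := (minpoly F y).as_sum_range_C_mul_X_pow
      rw [hd, Finset.sum_range_succ, Finset.sum_range_succ, Finset.sum_range_succ,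
        Finset.sum_range_zero, hlc, ha1, ha2] at hsum
      rw [hsum, hp, map_one]
      ring
    rcases (Y.filter fun y => c y = a).eq_empty_or_nonempty with h0 | ⟨y₀, hy₀⟩
    · rw [h0, Finset.card_empty]
      omega
    · have hp0 : p ≠ 0 := by
        rw [← hmin y₀ hy₀]
        exact minpoly.ne_zero (hY y₀ (Finset.mem_filter.1 hy₀).1).1
      have hpd : p.natDegree = 2 := by
        rw [← hmin y₀ hy₀]
        exact (hY y₀ (Finset.mem_filter.1 hy₀).1).2.1
      have hsub : (Y.filter fun y => c y = a) ⊆ (p.aroots (AlgebraicClosure K)).toFinset := by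
        intro y hy
        rw [Multiset.mem_toFinset, Polynomial.mem_aroots]
        refine ⟨hp0, ?_⟩
        rw [← hmin y hy]
        exact minpoly.aeval F y
      refine (Finset.card_le_card hsub).trans ((Multiset.toFinset_card_le _).trans
        ((Polynomial.card_roots' _).trans (Polynomial.natDegree_map_le.trans hpd.le)))
  have hcard := Finset.card_le_mul_card_image Y 2 hfib
  have hsub : Y.image c ⊆ (Y.image fun y => (minpoly F y).coeff 1) ×ˢ
      (Y.image fun y => (minpoly F y).coeff 0) := by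
    intro a ha
    obtain ⟨y, hy, rfl⟩ := Finset.mem_image.1 ha
    exact Finset.mem_product.2 ⟨Finset.mem_image_of_mem _ hy, Finset.mem_image_of_mem _ hy⟩
  have hcard2 := Finset.card_le_card hsub
  rw [Finset.card_product] at hcard2
  have hb1 : (((Y.image fun y => (minpoly F y).coeff 1).card : ℕ) : ℝ) ≤
      1 + C * 4 ^ f * (B * (l1 * l2) ^ f) := by
    have h3 := h F hF k e B (2 ^ 2 * l1 ^ 1 * l2 ^ (2 - 1)) (by positivity) hB
      (Y.image fun y => (minpoly F y).coeff 1) (fun x hx => by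
        obtain ⟨y, hy, rfl⟩ := Finset.mem_image.1 hx
        exact (hY y hy).2.2 1 (by norm_num))
    have h4 : C * ((2 ^ 2 * l1 ^ 1 * l2 ^ (2 - 1)) ^ f * B) =
        C * 4 ^ f * (B * (l1 * l2) ^ f) := by
      have : (2 : ℝ) ^ 2 * l1 ^ 1 * l2 ^ (2 - 1) = 4 * (l1 * l2) := by
        norm_num
        ring
      rw [this, mul_pow 4]
      ring
    rw [h4] at h3
    exact h3
  have hb0 : (((Y.image fun y => (minpoly F y).coeff 0).card : ℕ) : ℝ) ≤
      1 + C * 4 ^ f * (B * l2 ^ (2 * f)) := by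
    have h3 := h F hF k e B (2 ^ 2 * l1 ^ 0 * l2 ^ (2 - 0)) (by positivity) hB
      (Y.image fun y => (minpoly F y).coeff 0) (fun x hx => by
        obtain ⟨y, hy, rfl⟩ := Finset.mem_image.1 hx
        exact (hY y hy).2.2 0 (by norm_num))
    have h4 : C * ((2 ^ 2 * l1 ^ 0 * l2 ^ (2 - 0)) ^ f * B) =
        C * 4 ^ f * (B * l2 ^ (2 * f)) := by
      have : (2 : ℝ) ^ 2 * l1 ^ 0 * l2 ^ (2 - 0) = 4 * l2 ^ 2 := by
        norm_num
      rw [this, mul_pow 4, ← pow_mul l2]
      ring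
    rw [h4] at h3
    exact h3
  have hreal : (Y.card : ℝ) ≤ 2 * (((Y.image fun y => (minpoly F y).coeff 1).card : ℝ) *
      ((Y.image fun y => (minpoly F y).coeff 0).card : ℝ)) := by
    have := hcard.trans (Nat.mul_le_mul_left 2 hcard2)
    exact_mod_cast this
  refine hreal.trans (mul_le_mul_of_nonneg_left ?_ zero_le_two)
  exact mul_le_mul hb1 hb0 (Nat.cast_nonneg _) ((Nat.cast_nonneg _).trans hb1)

/-- EA7 : the classes over the quadratic extensions of one field -/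
theorem rel_classes {K : Type u} [Field K] [NumberField K] (r m : ℕ) (M η : ℝ)
    (hM : 1 ≤ M) (hη : 0 < η) : ∃ C : ℝ, 1 ≤ C ∧ ∀ B : ℝ, 1 ≤ B → ∀ l1 l2 : ℝ, 0 < l1 →
      l1 ≤ l2 → l2 ≤ M → ∀ (F : IntermediateField K (AlgebraicClosure K)) [NumberField F],
      2 * Module.finrank K F = r → ∀ X : Finset (Vc K m),
      (∀ s ∈ X, F ≤ s.1 ∧ Gd r B s ∧ Pair s l1 l2) →
      ∃ R ⊆ X, (∀ s ∈ X, ∃ t ∈ R, SimV t s) ∧ (R.card : ℝ) ≤ C * B ^ η *
        ((B * l1 ^ (2 * Module.finrank ℚ F)) * (B * (l1 * l2) ^ Module.finrank ℚ F) *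
          (B * l2 ^ (2 * Module.finrank ℚ F))) := by
  classical
  set f : ℕ := r / 2 * Module.finrank ℚ K with hf
  set D : ℕ := 2 * f with hD
  have hη3 : 0 < η / 3 := by positivity
  obtain ⟨C₁, hC₁, h₁⟩ := card_ideals.{u} f (η / 3) hη3
  have hM0 : 0 < M := by linarith
  have hMD : 1 ≤ M ^ D := one_le_pow₀ hM
  obtain ⟨C₂, hC₂, h₂⟩ := ea7_log.{u} (f + 1) (M ^ D) (η / 3) hMD hη3
  obtain ⟨C₃, hC₃, h₃⟩ := ea7_ys (K := K) f
  obtain ⟨C₄, hC₄, h₄⟩ := ea7_fiber (K := K) D m M (η / 3) hM hη3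
  set A : ℝ := (M ^ D) ^ (η / 3) with hA
  have hA1 : 1 ≤ A := Real.one_le_rpow hMD hη3.le
  set C : ℝ := C₁ * A * C₂ * (2 * ((1 + C₃) * (1 + C₃))) * C₄ with hC
  have hC0 : 0 < C := by positivity
  refine ⟨max 1 C, le_max_left _ _, fun B hB l1 l2 hl1 hl12 hl2 F _ hF X hX => ?_⟩
  have hB0 : 0 < B := by linarith
  have hl2p : 0 < l2 := hl1.trans_le hl12
  have hFf : Module.finrank ℚ F = f := by
    have h1 := Module.finrank_mul_finrank ℚ K F
    have h2 : Module.finrank K F = r / 2 := by omega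
    rw [← h1, h2, hf, mul_comm]
  rw [hFf]
  have hex : ∀ s : Vc K m, ∃ (k : HeightOneSpectrum (𝓞 F) →₀ ℕ) (e : InfinitePlace F → ℤ)
      (y : AlgebraicClosure K), s ∈ X → EA7Q F D M B l1 l2 s k e y := by
    intro s
    by_cases hs : s ∈ X
    · obtain ⟨h1, h2, h3⟩ := hX s hs
      obtain ⟨k, e, y, h5⟩ := ea7_Qex F hM hl1 hl12 hl2 hF s h1 h2 h3
      rw [hFf] at h5
      exact ⟨k, e, y, fun _ => h5⟩
    · exact ⟨0, fun _ => 0, 0, fun h => absurd h hs⟩
  choose k e y hQ using hex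
  let cd : Vc K m → ((HeightOneSpectrum (𝓞 F) →₀ ℕ) × (InfinitePlace F → ℤ)) ×
    AlgebraicClosure K := fun s => ((k s, e s), y s)
  have hfib : ∀ c, ∃ R ⊆ X.filter (fun s => cd s = c),
      (∀ s ∈ X.filter (fun s => cd s = c), ∃ t ∈ R, SimV t s) ∧
        (R.card : ℝ) ≤ C₄ * B ^ (η / 3) := by
    intro c
    refine h₄ B hB l1 l2 F c.1.1 c.1.2 c.2 _ fun s hs => ?_
    obtain ⟨h1, h2⟩ := Finset.mem_filter.1 hs
    rw [← h2]
    exact hQ s h1
  choose Rc hRc1 hRc2 hRc3 using hfib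
  refine ⟨(X.image cd).biUnion Rc, ?_, ?_, ?_⟩
  · intro s hs
    obtain ⟨c, -, hc⟩ := Finset.mem_biUnion.1 hs
    exact (Finset.mem_filter.1 (hRc1 c hc)).1
  · intro s hs
    obtain ⟨t, ht, hts⟩ := hRc2 (cd s) s (Finset.mem_filter.2 ⟨hs, rfl⟩)
    exact ⟨t, Finset.mem_biUnion.2 ⟨cd s, Finset.mem_image_of_mem _ hs, ht⟩, hts⟩
  · have hA0 : 0 ≤ A := by positivity
    set x1 : ℝ := B * l1 ^ (2 * f) with hx1
    set x2 : ℝ := B * (l1 * l2) ^ f with hx2
    set x3 : ℝ := B * l2 ^ (2 * f) with hx3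
    have hx1p : 0 < x1 := by positivity
    have hx2p : 0 < x2 := by positivity
    have hx3p : 0 < x3 := by positivity
    rcases X.eq_empty_or_nonempty with hX0 | ⟨s₀, hs₀⟩
    · rw [hX0, Finset.image_empty, Finset.biUnion_empty, Finset.card_empty, Nat.cast_zero]
      positivity
    have hx11 : 1 ≤ x1 := (ea7_Qfacts (hQ s₀ hs₀)).2.2.1
    have hx21 : 1 ≤ x2 := by
      refine hx11.trans ?_
      rw [hx1, hx2, pow_mul, sq]
      exact mul_le_mul_of_nonneg_left (pow_le_pow_left₀ (by positivity)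
        (mul_le_mul_of_nonneg_left hl12 hl1.le) _) hB0.le
    have hx31 : 1 ≤ x3 := by
      refine hx11.trans ?_
      rw [hx1, hx3]
      exact mul_le_mul_of_nonneg_left (pow_le_pow_left₀ hl1.le hl12 _) hB0.le
    -- the codes
    have hk : ((X.image k).card : ℝ) ≤ C₁ * (x1 * (A * B ^ (η / 3))) := by
      have h5 : ((X.image k).card : ℝ) ≤ C₁ * x1 ^ (1 + η / 3) := by
        refine h₁ F hFf.le x1 hx1p _ fun q hq => ?_
        obtain ⟨s, hs, rfl⟩ := Finset.mem_image.1 hq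
        exact (ea7_Qfacts (hQ s hs)).2.1
      refine h5.trans (mul_le_mul_of_nonneg_left ?_ (by linarith))
      rw [Real.rpow_add hx1p, Real.rpow_one]
      refine mul_le_mul_of_nonneg_left ?_ hx1p.le
      have h9 : x1 ≤ M ^ D * B := by
        rw [hx1, mul_comm]
        exact mul_le_mul_of_nonneg_right (pow_le_pow_left₀ hl1.le (hl12.trans hl2) _) hB0.le
      refine (Real.rpow_le_rpow hx1p.le h9 hη3.le).trans (le_of_eq ?_)
      rw [hA, Real.mul_rpow (by positivity) hB0.le]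
    have he : ((X.image e).card : ℝ) ≤ C₂ * B ^ (η / 3) := by
      refine h₂ B hB (InfinitePlace F) ?_ (X.image e) fun q hq w => ?_
      · refine le_trans ?_ (Nat.le_succ f)
        rw [← hFf, ← InfinitePlace.sum_mult_eq (K := F), Fintype.card, Finset.card_eq_sum_ones]
        exact Finset.sum_le_sum fun w _ => InfinitePlace.mult_pos
      · obtain ⟨s, hs, rfl⟩ := Finset.mem_image.1 hq
        obtain ⟨-, -, -, h5, -⟩ := ea7_Qfacts (hQ s hs)
        refine ⟨(h5 w).1, (h5 w).2.trans (Real.log_le_log (by positivity) ?_)⟩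
        exact mul_le_mul_of_nonneg_right (le_self_pow₀ hMD (by omega)) hB0.le
    have hfy : ∀ c ∈ (X.image cd).image Prod.fst,
        ((X.image cd).filter fun p => p.1 = c).card ≤
          ⌊2 * ((1 + C₃ * x2) * (1 + C₃ * x3))⌋₊ := by
      intro c hc
      refine Nat.le_floor ?_
      obtain ⟨p, hp, rfl⟩ := Finset.mem_image.1 hc
      obtain ⟨s, hs, rfl⟩ := Finset.mem_image.1 hp
      set Z := (X.image cd).filter fun p => p.1 = (cd s).1 with hZ
      have hinj : Set.InjOn Prod.snd (Z : Set (((HeightOneSpectrum (𝓞 F) →₀ ℕ) ×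
          (InfinitePlace F → ℤ)) × AlgebraicClosure K)) := by
        intro a ha b hb hab
        have h5 := (Finset.mem_filter.1 (Finset.mem_coe.1 ha)).2
        have h6 := (Finset.mem_filter.1 (Finset.mem_coe.1 hb)).2
        exact Prod.ext (h5.trans h6.symm) hab
      rw [← Finset.card_image_of_injOn hinj]
      refine h₃ F hFf (k s) (e s) B l1 l2 hl1 hl2p (ea7_Qfacts (hQ s hs)).1 _ fun y' hy' => ?_
      obtain ⟨p, hp, rfl⟩ := Finset.mem_image.1 hy'
      obtain ⟨hp1, hp2⟩ := Finset.mem_filter.1 hp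
      obtain ⟨t, ht, rfl⟩ := Finset.mem_image.1 hp1
      obtain ⟨h5, h6⟩ := Prod.mk.inj hp2
      obtain ⟨-, -, -, -, -, h7, h8, h9⟩ := ea7_Qfacts (hQ t ht)
      rw [h5, h6] at h9
      exact ⟨h7, h8, h9⟩
    have hcc := Finset.card_le_mul_card_image (X.image cd) _ hfy
    have hcc2 : (X.image cd).image Prod.fst ⊆ (X.image k) ×ˢ (X.image e) := by
      intro c hc
      obtain ⟨p, hp, rfl⟩ := Finset.mem_image.1 hc
      obtain ⟨s, hs, rfl⟩ := Finset.mem_image.1 hp
      exact Finset.mem_product.2 ⟨Finset.mem_image_of_mem _ hs, Finset.mem_image_of_mem _ hs⟩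
    have hcc3 := Finset.card_le_card hcc2
    rw [Finset.card_product] at hcc3
    have hL : ((⌊2 * ((1 + C₃ * x2) * (1 + C₃ * x3))⌋₊ : ℕ) : ℝ) ≤
        2 * ((1 + C₃) * (1 + C₃)) * (x2 * x3) := by
      refine (Nat.floor_le (by positivity)).trans ?_
      have h5 : 1 + C₃ * x2 ≤ (1 + C₃) * x2 := by linarith
      have h6 : 1 + C₃ * x3 ≤ (1 + C₃) * x3 := by linarith
      have h7 : (1 + C₃ * x2) * (1 + C₃ * x3) ≤ ((1 + C₃) * x2) * ((1 + C₃) * x3) :=
        mul_le_mul h5 h6 (by positivity) (by positivity)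
      calc 2 * ((1 + C₃ * x2) * (1 + C₃ * x3)) ≤ 2 * (((1 + C₃) * x2) * ((1 + C₃) * x3)) := by
            linarith
        _ = 2 * ((1 + C₃) * (1 + C₃)) * (x2 * x3) := by ring
    have hcodes : ((X.image cd).card : ℝ) ≤ (2 * ((1 + C₃) * (1 + C₃)) * (x2 * x3)) *
        ((C₁ * (x1 * (A * B ^ (η / 3)))) * (C₂ * B ^ (η / 3))) := by
      have h5 : ((X.image cd).card : ℝ) ≤ ((⌊2 * ((1 + C₃ * x2) * (1 + C₃ * x3))⌋₊ : ℕ) : ℝ) *
          (((X.image k).card : ℝ) * ((X.image e).card : ℝ)) := by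
        have := hcc.trans (Nat.mul_le_mul_left _ hcc3)
        exact_mod_cast this
      refine h5.trans (mul_le_mul hL (mul_le_mul hk he (Nat.cast_nonneg _) (by positivity))
        (by positivity) (by positivity))
    have hR : ((((X.image cd).biUnion Rc).card : ℕ) : ℝ) ≤
        ((X.image cd).card : ℝ) * (C₄ * B ^ (η / 3)) := by
      have h5 : ((((X.image cd).biUnion Rc).card : ℕ) : ℝ) ≤
          ∑ c ∈ X.image cd, ((Rc c).card : ℝ) := by
        exact_mod_cast Finset.card_biUnion_le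
      refine h5.trans ((Finset.sum_le_sum fun c _ => hRc3 c).trans (le_of_eq ?_))
      rw [Finset.sum_const, nsmul_eq_mul]
    have hB3 : B ^ (η / 3) * B ^ (η / 3) * B ^ (η / 3) = B ^ η := by
      rw [← Real.rpow_add hB0, ← Real.rpow_add hB0]
      congr 1
      ring
    calc ((((X.image cd).biUnion Rc).card : ℕ) : ℝ)
        ≤ ((X.image cd).card : ℝ) * (C₄ * B ^ (η / 3)) := hR
      _ ≤ ((2 * ((1 + C₃) * (1 + C₃)) * (x2 * x3)) *
          ((C₁ * (x1 * (A * B ^ (η / 3)))) * (C₂ * B ^ (η / 3)))) * (C₄ * B ^ (η / 3)) :=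
          mul_le_mul_of_nonneg_right hcodes (by positivity)
      _ = C * (B ^ (η / 3) * B ^ (η / 3) * B ^ (η / 3)) * (x1 * x2 * x3) := by
          rw [hC]
          ring
      _ ≤ max 1 C * B ^ η * (x1 * x2 * x3) := by
          rw [hB3]
          refine mul_le_mul_of_nonneg_right (mul_le_mul_of_nonneg_right (le_max_right _ _) ?_) ?_
          · positivity
          · positivity

end Pool.Agent.Lib.MP_44a246_ntAL
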