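import Pool.Agent.Lib.MP_44a246_ntAL.GenDefs
import Pool.Agent.Lib.MP_44a246_ntAL.AL2
import Pool.Agent.Lib.MP_44a246_ntAL.AL11

/-!
# Counting integral elements in boxes
-/

set_option autoImplicit false

open NumberField IsDedekindDomain Height MvPolynomial
open Pool.Agent.Lib.MP_4d5ce1_nt (fa nv ordv)
open Pool.Agent.Lib.MP_44a246_ntNF
open Pool.Agent.Lib.MP_44a246_ntNU

namespace Pool.Agent.Lib.MP_44a246_ntAL

universe u

namespace NA1aux

lemma Nk_pos {E : Type*} [Field E] [NumberField E] (k : HeightOneSpectrum (𝓞 E) →₀ ℕ) :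
    0 < Nk k := by
  unfold Nk Finsupp.prod
  exact Finset.prod_pos fun w _ => pow_pos (Pool.Agent.Lib.MP_4d5ce1_nt.nv_pos w) _

lemma supp_of_subset {E : Type*} [Field E] (m : HeightOneSpectrum (𝓞 E) → ℝ)
    (S : Finset (HeightOneSpectrum (𝓞 E))) (h : ∀ w ∉ S, m w = 1) :
    (Function.mulSupport m).Finite := by
  refine S.finite_toSet.subset fun w hw => ?_
  by_contra hcon
  exact hw (h w hcon)

lemma finprod_Nk {E : Type*} [Field E] [NumberField E] (k : HeightOneSpectrum (𝓞 E) →₀ ℕ)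
    (p : ℕ) : ∏ᶠ w, ((nv w ^ (p * k w))⁻¹ : ℝ) = (Nk k ^ p)⁻¹ := by
  rw [finprod_eq_prod_of_mulSupport_subset (s := k.support)]
  · rw [Finset.prod_inv_distrib]
    congr 1
    unfold Nk Finsupp.prod
    rw [← Finset.prod_pow]
    refine Finset.prod_congr rfl fun w _ => ?_
    rw [← pow_mul, mul_comm]
  · intro w hw
    by_contra hcon
    apply hw
    have h0 : k w = 0 := by simpa using hcon
    simp [h0]

lemma supp_Nk {E : Type*} [Field E] [NumberField E] (k : HeightOneSpectrum (𝓞 E) →₀ ℕ)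
    (p : ℕ) : (Function.mulSupport fun w => ((nv w ^ (p * k w))⁻¹ : ℝ)).Finite := by
  refine supp_of_subset _ k.support fun w hw => ?_
  have h0 : k w = 0 := by simpa using hw
  simp [h0]

lemma hb_one {E : Type*} [Field E] [NumberField E] (m : HeightOneSpectrum (𝓞 E) → ℝ) :
    hb m (fun _ => 1) = ∏ᶠ w, m w := by
  unfold hb
  simp

/-- The number of nonzero elements of a box. -/
lemma box (K : Type u) [Field K] [NumberField K] (M : ℝ) (hM : 1 ≤ M) : ∃ C : ℝ, 1 ≤ C ∧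
    ∀ B : ℝ, 1 ≤ B → ∀ (m : HeightOneSpectrum (𝓞 K) → ℝ) (t : InfinitePlace K → ℝ),
      (∀ w, 0 < m w) → (Function.mulSupport m).Finite → (∀ w, 0 < t w) → ∀ Z : Finset K,
      (∀ z ∈ Z, z ≠ 0 ∧ (∀ v, fa v z ≤ m v) ∧
        ∀ v : InfinitePlace K, v z ≤ M * B ^ ((Module.finrank ℚ K : ℝ)⁻¹) * t v) →
      (Z.card : ℝ) ≤ C * B * hb m t := by
  obtain ⟨C, hC, h⟩ := adelic_card.{u} (Module.finrank ℚ K)
  refine ⟨max 1 (C * M ^ Module.finrank ℚ K), le_max_left _ _, ?_⟩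
  intro B hB m t hm hms ht Z hZ
  have hM0 : 0 < M := lt_of_lt_of_le one_pos hM
  have hB0 : 0 < B := lt_of_lt_of_le one_pos hB
  set b : ℝ := B ^ ((Module.finrank ℚ K : ℝ)⁻¹) with hbdef
  have hb0 : 0 < b := Real.rpow_pos_of_pos hB0 _
  have hbd : b ^ Module.finrank ℚ K = B := by
    rw [hbdef]
    exact Real.rpow_inv_natCast_pow hB0.le (Module.finrank_pos (R := ℚ) (M := K)).ne'
  have h1 := h K le_rfl m (fun w => M * b * t w) hm hms
    (fun w => mul_pos (mul_pos hM0 hb0) (ht w)) Z ?_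
  · have h2 : hb m (fun w => M * b * t w) = M ^ Module.finrank ℚ K * B * hb m t := by
      unfold hb
      simp only [mul_pow]
      rw [Finset.prod_mul_distrib, Finset.prod_mul_distrib, Finset.prod_pow_eq_pow_sum,
        Finset.prod_pow_eq_pow_sum, InfinitePlace.sum_mult_eq, hbd]
      ring
    have h3 : 0 < hb m t := by
      unfold hb
      refine mul_pos ?_ (Finset.prod_pos fun w _ => pow_pos (ht w) _)
      exact finprod_induction (fun x : ℝ => 0 < x) one_pos (fun x y hx hy => mul_pos hx hy) hm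
    rw [h2] at h1
    calc (Z.card : ℝ) ≤ C * (M ^ Module.finrank ℚ K * B * hb m t) := h1
      _ = C * M ^ Module.finrank ℚ K * (B * hb m t) := by ring
      _ ≤ max 1 (C * M ^ Module.finrank ℚ K) * (B * hb m t) :=
        mul_le_mul_of_nonneg_right (le_max_right _ _) (mul_pos hB0 h3).le
      _ = _ := by ring
  · intro z hz
    obtain ⟨h1, h2, h3⟩ := hZ z hz
    refine ⟨h1, h2, fun w => ?_⟩
    rw [one_mul]
    exact h3 w

/-- The sum over the ideals of large norm. -/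
lemma sumN (K : Type u) [Field K] [NumberField K] : ∃ C : ℝ, 1 ≤ C ∧ ∀ ε : ℝ, 0 < ε → ε ≤ 1 →
    ∀ I : Finset (HeightOneSpectrum (𝓞 K) →₀ ℕ), (∀ k ∈ I, 1 ≤ ε * Nk k) →
      ∑ k ∈ I, ((Nk k ^ 2)⁻¹ : ℝ) ≤ C * ε ^ (1 / 2 : ℝ) := by
  obtain ⟨C₄, hC₄, hsum⟩ := sum_ideals.{u} (Module.finrank ℚ K) 2 (1 / 2) (by norm_num)
    (by norm_num)
  refine ⟨max 1 C₄, le_max_left _ _, ?_⟩
  intro ε hε hε1 I hI
  have h1 := hsum K le_rfl ε⁻¹ (by rw [one_le_inv₀ hε]; exact hε1) I fun k hk => by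
    rw [inv_le_iff_one_le_mul₀ hε, mul_comm]
    exact hI k hk
  have h2 : ∀ k ∈ I, ((Nk k ^ 2)⁻¹ : ℝ) = Nk k ^ (-(2 : ℝ)) := by
    intro k _
    rw [Real.rpow_neg (Nk_pos k).le, Real.rpow_two]
  rw [Finset.sum_congr rfl h2]
  refine h1.trans ?_
  have h3 : (ε⁻¹ : ℝ) ^ (1 + 1 / 2 - 2 : ℝ) = ε ^ (1 / 2 : ℝ) := by
    rw [Real.inv_rpow hε.le, ← Real.rpow_neg hε.le]
    norm_num
  rw [h3]
  exact mul_le_mul_of_nonneg_right (le_max_right _ _) (Real.rpow_nonneg hε.le _)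

lemma cover {ι α : Type*} [DecidableEq α] (Z : Finset α) (I : Finset ι) (P : ι → Finset α)
    (hZ : Z ⊆ I.biUnion P) : (Z.card : ℝ) ≤ ∑ i ∈ I, ((P i).card : ℝ) := by
  have h1 := (Finset.card_le_card hZ).trans Finset.card_biUnion_le
  exact_mod_cast h1

end NA1aux

open NA1aux

/-- NA1 : integral elements in a box -/
theorem card_int (K : Type*) [Field K] [NumberField K] (M : ℝ) (hM : 1 ≤ M) : ∃ C : ℝ, 1 ≤ C ∧
    ∀ B : ℝ, 1 ≤ B → ∀ Z : Finset K, (∀ z ∈ Z, (∀ v, fa v z ≤ 1) ∧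
      ∀ v : InfinitePlace K, v z ≤ M * B ^ ((Module.finrank ℚ K : ℝ)⁻¹)) →
        (Z.card : ℝ) ≤ C * B := by
  classical
  obtain ⟨C, hC, h⟩ := box K M hM
  refine ⟨C + 1, by linarith, ?_⟩
  intro B hB Z hZ
  have h1 := h B hB (fun _ => 1) (fun _ => 1) (fun _ => one_pos) (by simp) (fun _ => one_pos)
    (Z.erase 0) ?_
  · rw [hb_one, finprod_one, mul_one] at h1
    have h2 : Z.card ≤ (Z.erase 0).card + 1 := by
      have h4 := Finset.pred_card_le_card_erase (s := Z) (a := (0 : K))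
      omega
    have h3 : (Z.card : ℝ) ≤ ((Z.erase 0).card : ℝ) + 1 := by exact_mod_cast h2
    linarith
  · intro z hz
    obtain ⟨hz0, hzZ⟩ := Finset.mem_erase.1 hz
    obtain ⟨h1, h2⟩ := hZ z hzZ
    exact ⟨hz0, h1, fun v => by rw [mul_one]; exact h2 v⟩

/-- NA2 : special integral elements in a box -/
theorem card_lead (K : Type*) [Field K] [NumberField K] (S₀ : Finset (HeightOneSpectrum (𝓞 K)))
    (M : ℝ) (hM : 1 ≤ M) : ∃ C : ℝ, 1 ≤ C ∧ ∀ B : ℝ, 1 ≤ B → ∀ ε : ℝ, 0 < ε → ε ≤ 1 →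
      ∀ Z : Finset K, (∀ z ∈ Z, z ≠ 0 ∧ (∀ v, fa v z ≤ 1) ∧
        (∀ v : InfinitePlace K, v z ≤ M * B ^ ((Module.finrank ℚ K : ℝ)⁻¹)) ∧
        ((∃ v : InfinitePlace K,
            v z ^ v.mult ≤ M * ε * (B ^ ((Module.finrank ℚ K : ℝ)⁻¹)) ^ v.mult) ∨
          (∃ v ∈ S₀, fa v z ≤ ε) ∨
          ∃ κ : HeightOneSpectrum (𝓞 K) →₀ ℕ, 1 ≤ ε * Nk κ ∧
            ∀ v ∈ κ.support, fa v z * nv v ^ (2 * κ v) ≤ 1)) →
        (Z.card : ℝ) ≤ C * ε ^ (1 / 2 : ℝ) * B := by
  classical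
  obtain ⟨C, hC, h⟩ := box K M hM
  obtain ⟨C₄, hC₄, hsum⟩ := sumN K
  refine ⟨max 1 (C * (Fintype.card (InfinitePlace K) + S₀.card + C₄)), le_max_left _ _, ?_⟩
  intro B hB ε hε hε1 Z hZ
  have hM0 : 0 < M := lt_of_lt_of_le one_pos hM
  have hB0 : 0 < B := lt_of_lt_of_le one_pos hB
  have hC0 : 0 < C := lt_of_lt_of_le one_pos hC
  set b : ℝ := B ^ ((Module.finrank ℚ K : ℝ)⁻¹) with hbdef
  have hb0 : 0 < b := Real.rpow_pos_of_pos hB0 _
  have hx : ε ≤ ε ^ (1 / 2 : ℝ) := by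
    have h1 := Real.rpow_le_rpow_of_exponent_ge hε hε1 (show (1 / 2 : ℝ) ≤ 1 by norm_num)
    rwa [Real.rpow_one] at h1
  have hx0 : 0 < ε ^ (1 / 2 : ℝ) := Real.rpow_pos_of_pos hε _
  -- infinite places
  have case1 : ((Z.filter fun z => ∃ v : InfinitePlace K,
      v z ^ v.mult ≤ M * ε * b ^ v.mult).card : ℝ) ≤
      Fintype.card (InfinitePlace K) * (C * B * ε ^ (1 / 2 : ℝ)) := by
    have h1 := cover (Z.filter fun z => ∃ v : InfinitePlace K,
      v z ^ v.mult ≤ M * ε * b ^ v.mult) (Finset.univ : Finset (InfinitePlace K))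
      (fun v => Z.filter fun z => v z ^ v.mult ≤ M * ε * b ^ v.mult) ?_
    · refine h1.trans ?_
      have h2 : ∀ v ∈ (Finset.univ : Finset (InfinitePlace K)),
          ((Z.filter fun z => v z ^ v.mult ≤ M * ε * b ^ v.mult).card : ℝ) ≤
            C * B * ε ^ (1 / 2 : ℝ) := by
        intro v₀ _
        have hm0 : v₀.mult ≠ 0 := InfinitePlace.mult_pos.ne'
        set e : ℝ := ε ^ ((v₀.mult : ℝ)⁻¹) with hedef
        have he0 : 0 < e := Real.rpow_pos_of_pos hε _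
        have hem : e ^ v₀.mult = ε := Real.rpow_inv_natCast_pow hε.le hm0
        have h3 := h B hB (fun _ => 1) (fun v => if v = v₀ then e else 1) (fun _ => one_pos)
          (by simp) (fun v => by split_ifs; exacts [he0, one_pos])
          (Z.filter fun z => v₀ z ^ v₀.mult ≤ M * ε * b ^ v₀.mult) ?_
        · refine h3.trans ?_
          have h4 : hb (fun _ : HeightOneSpectrum (𝓞 K) => (1 : ℝ))
              (fun v => if v = v₀ then e else 1) = ε := by
            unfold hb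
            rw [finprod_one, one_mul, Finset.prod_eq_single v₀]
            · beta_reduce
              rw [if_pos rfl]
              exact hem
            · intro w _ hw
              beta_reduce
              rw [if_neg hw, one_pow]
            · intro hcon
              exact absurd (Finset.mem_univ _) hcon
          rw [h4]
          exact mul_le_mul_of_nonneg_left hx (by positivity)
        · intro z hz
          obtain ⟨hzZ, hzv⟩ := Finset.mem_filter.1 hz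
          obtain ⟨hz0, hz1, hz2, -⟩ := hZ z hzZ
          refine ⟨hz0, hz1, fun v => ?_⟩
          split_ifs with hv
          · subst hv
            refine (pow_le_pow_iff_left₀ (apply_nonneg _ _) (by positivity) hm0).1 ?_
            refine hzv.trans ?_
            rw [mul_pow, mul_pow, hem]
            have h5 : M ≤ M ^ v.mult := le_self_pow₀ hM hm0
            calc M * ε * b ^ v.mult = M * (ε * b ^ v.mult) := by ring
              _ ≤ M ^ v.mult * (ε * b ^ v.mult) :=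
                mul_le_mul_of_nonneg_right h5 (by positivity)
              _ = _ := by ring
          · rw [mul_one]
            exact hz2 v
      refine (Finset.sum_le_card_nsmul _ _ _ h2).trans ?_
      rw [Finset.card_univ, nsmul_eq_mul]
    · intro z hz
      obtain ⟨hzZ, v, hv⟩ := Finset.mem_filter.1 hz
      exact Finset.mem_biUnion.2 ⟨v, Finset.mem_univ _, Finset.mem_filter.2 ⟨hzZ, hv⟩⟩
  -- the places in S₀
  have case2 : ((Z.filter fun z => ∃ v ∈ S₀, fa v z ≤ ε).card : ℝ) ≤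
      S₀.card * (C * B * ε ^ (1 / 2 : ℝ)) := by
    have h1 := cover (Z.filter fun z => ∃ v ∈ S₀, fa v z ≤ ε) S₀
      (fun v => Z.filter fun z => fa v z ≤ ε) ?_
    · refine h1.trans ?_
      have h2 : ∀ v ∈ S₀, ((Z.filter fun z => fa v z ≤ ε).card : ℝ) ≤
          C * B * ε ^ (1 / 2 : ℝ) := by
        intro v₀ _
        have h3 := h B hB (fun v => if v = v₀ then ε else 1) (fun _ => 1)
          (fun v => by split_ifs; exacts [hε, one_pos])
          (supp_of_subset _ {v₀} fun w hw => if_neg (by simpa using hw)) (fun _ => one_pos)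
          (Z.filter fun z => fa v₀ z ≤ ε) ?_
        · refine h3.trans ?_
          rw [hb_one, finprod_eq_single _ v₀ fun w hw => if_neg hw, if_pos rfl]
          exact mul_le_mul_of_nonneg_left hx (by positivity)
        · intro z hz
          obtain ⟨hzZ, hzv⟩ := Finset.mem_filter.1 hz
          obtain ⟨hz0, hz1, hz2, -⟩ := hZ z hzZ
          refine ⟨hz0, fun v => ?_, fun v => by rw [mul_one]; exact hz2 v⟩
          split_ifs with hv
          · subst hv
            exact hzv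
          · exact hz1 v
      refine (Finset.sum_le_card_nsmul _ _ _ h2).trans ?_
      rw [nsmul_eq_mul]
    · intro z hz
      obtain ⟨hzZ, v, hv, hvz⟩ := Finset.mem_filter.1 hz
      exact Finset.mem_biUnion.2 ⟨v, hv, Finset.mem_filter.2 ⟨hzZ, hvz⟩⟩
  -- squares of ideals
  have case3 : ((Z.filter fun z => ∃ κ : HeightOneSpectrum (𝓞 K) →₀ ℕ, 1 ≤ ε * Nk κ ∧
      ∀ v ∈ κ.support, fa v z * nv v ^ (2 * κ v) ≤ 1).card : ℝ) ≤
      C * B * (C₄ * ε ^ (1 / 2 : ℝ)) := by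
    have hch : ∀ z ∈ (Z.filter fun z => ∃ κ : HeightOneSpectrum (𝓞 K) →₀ ℕ, 1 ≤ ε * Nk κ ∧
        ∀ v ∈ κ.support, fa v z * nv v ^ (2 * κ v) ≤ 1),
        ∃ κ : HeightOneSpectrum (𝓞 K) →₀ ℕ, 1 ≤ ε * Nk κ ∧
        ∀ v ∈ κ.support, fa v z * nv v ^ (2 * κ v) ≤ 1 := fun z hz => (Finset.mem_filter.1 hz).2
    choose! kf hkf using hch
    set Z' := (Z.filter fun z => ∃ κ : HeightOneSpectrum (𝓞 K) →₀ ℕ, 1 ≤ ε * Nk κ ∧
        ∀ v ∈ κ.support, fa v z * nv v ^ (2 * κ v) ≤ 1) with hZ'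
    have hI : ∀ k ∈ Z'.image kf, 1 ≤ ε * Nk k := by
      intro k hk
      obtain ⟨y, hy, rfl⟩ := Finset.mem_image.1 hk
      exact (hkf y hy).1
    have h1 := cover Z' (Z'.image kf)
      (fun k => Z.filter fun z => ∀ v ∈ k.support, fa v z * nv v ^ (2 * k v) ≤ 1) ?_
    · refine h1.trans ?_
      have h2 : ∀ k ∈ Z'.image kf,
          ((Z.filter fun z => ∀ v ∈ k.support, fa v z * nv v ^ (2 * k v) ≤ 1).card : ℝ) ≤
            C * B * (Nk k ^ 2)⁻¹ := by
        intro k _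
        have h3 := h B hB (fun w => (nv w ^ (2 * k w))⁻¹) (fun _ => 1)
          (fun w => inv_pos.2 (pow_pos (Pool.Agent.Lib.MP_4d5ce1_nt.nv_pos w) _))
          (supp_Nk k 2) (fun _ => one_pos)
          (Z.filter fun z => ∀ v ∈ k.support, fa v z * nv v ^ (2 * k v) ≤ 1) ?_
        · rwa [hb_one, finprod_Nk] at h3
        · intro z hz
          obtain ⟨hzZ, hzv⟩ := Finset.mem_filter.1 hz
          obtain ⟨hz0, hz1, hz2, -⟩ := hZ z hzZ
          refine ⟨hz0, fun v => ?_, fun v => by rw [mul_one]; exact hz2 v⟩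
          by_cases hv : v ∈ k.support
          · have h4 := hzv v hv
            rw [← one_div, le_div_iff₀ (pow_pos (Pool.Agent.Lib.MP_4d5ce1_nt.nv_pos v) _)]
            exact h4
          · have h0 : k v = 0 := by simpa using hv
            rw [h0, mul_zero, pow_zero, inv_one]
            exact hz1 v
      refine (Finset.sum_le_sum h2).trans ?_
      rw [← Finset.mul_sum]
      exact mul_le_mul_of_nonneg_left (hsum ε hε hε1 _ hI) (by positivity)
    · intro z hz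
      exact Finset.mem_biUnion.2 ⟨kf z, Finset.mem_image_of_mem _ hz,
        Finset.mem_filter.2 ⟨(Finset.mem_filter.1 hz).1, (hkf z hz).2⟩⟩
  have hsub : Z ⊆ ((Z.filter fun z => ∃ v : InfinitePlace K,
      v z ^ v.mult ≤ M * ε * b ^ v.mult) ∪ (Z.filter fun z => ∃ v ∈ S₀, fa v z ≤ ε)) ∪
      (Z.filter fun z => ∃ κ : HeightOneSpectrum (𝓞 K) →₀ ℕ, 1 ≤ ε * Nk κ ∧
      ∀ v ∈ κ.support, fa v z * nv v ^ (2 * κ v) ≤ 1) := by
    intro z hz
    simp only [Finset.mem_union, Finset.mem_filter]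
    rcases (hZ z hz).2.2.2 with h1 | h1 | h1
    · exact Or.inl (Or.inl ⟨hz, h1⟩)
    · exact Or.inl (Or.inr ⟨hz, h1⟩)
    · exact Or.inr ⟨hz, h1⟩
  have h1 := ((Finset.card_le_card hsub).trans (Finset.card_union_le _ _)).trans
    (Nat.add_le_add_right (Finset.card_union_le _ _) _)
  have h2 := (Nat.cast_le (α := ℝ)).2 h1
  rw [Nat.cast_add, Nat.cast_add] at h2
  refine (h2.trans (add_le_add (add_le_add case1 case2) case3)).trans ?_
  have h3 : (Fintype.card (InfinitePlace K) : ℝ) * (C * B * ε ^ (1 / 2 : ℝ)) +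
      S₀.card * (C * B * ε ^ (1 / 2 : ℝ)) + C * B * (C₄ * ε ^ (1 / 2 : ℝ)) =
      C * (Fintype.card (InfinitePlace K) + S₀.card + C₄) * (ε ^ (1 / 2 : ℝ) * B) := by ring
  rw [h3, mul_assoc (max 1 _)]
  exact mul_le_mul_of_nonneg_right (le_max_right _ _) (by positivity)

/-- NA3 : pairs of integral elements with a large common divisor -/
theorem card_pairs (K : Type*) [Field K] [NumberField K] (M : ℝ) (hM : 1 ≤ M) : ∃ C : ℝ, 1 ≤ C ∧
    ∀ B : ℝ, 1 ≤ B → ∀ ε : ℝ, 0 < ε → ε ≤ 1 → ∀ Z : Finset (K × K),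
      (∀ z ∈ Z, z.1 ≠ 0 ∧ z.2 ≠ 0 ∧
        (∀ v : InfinitePlace K, v z.1 ≤ M * B ^ ((Module.finrank ℚ K : ℝ)⁻¹)) ∧
        (∀ v : InfinitePlace K, v z.2 ≤ M * B ^ ((Module.finrank ℚ K : ℝ)⁻¹)) ∧
        (∀ v, fa v z.1 ≤ 1) ∧ (∀ v, fa v z.2 ≤ 1) ∧
        ∃ κ : HeightOneSpectrum (𝓞 K) →₀ ℕ, 1 ≤ ε * Nk κ ∧
          ∀ v ∈ κ.support, fa v z.1 * nv v ^ κ v ≤ 1 ∧ fa v z.2 * nv v ^ κ v ≤ 1) →
        (Z.card : ℝ) ≤ C * ε ^ (1 / 2 : ℝ) * B ^ 2 := by
  classical
  obtain ⟨C, hC, h⟩ := box K M hM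
  obtain ⟨C₄, hC₄, hsum⟩ := sumN K
  refine ⟨max 1 (C ^ 2 * C₄), le_max_left _ _, ?_⟩
  intro B hB ε hε hε1 Z hZ
  have hM0 : 0 < M := lt_of_lt_of_le one_pos hM
  have hB0 : 0 < B := lt_of_lt_of_le one_pos hB
  have hC0 : 0 < C := lt_of_lt_of_le one_pos hC
  set b : ℝ := B ^ ((Module.finrank ℚ K : ℝ)⁻¹) with hbdef
  have hb0 : 0 < b := Real.rpow_pos_of_pos hB0 _
  have hch : ∀ z ∈ Z, ∃ κ : HeightOneSpectrum (𝓞 K) →₀ ℕ, 1 ≤ ε * Nk κ ∧
      ∀ v ∈ κ.support, fa v z.1 * nv v ^ κ v ≤ 1 ∧ fa v z.2 * nv v ^ κ v ≤ 1 :=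
    fun z hz => (hZ z hz).2.2.2.2.2.2
  choose! kf hkf using hch
  have hI : ∀ k ∈ Z.image kf, 1 ≤ ε * Nk k := by
    intro k hk
    obtain ⟨y, hy, rfl⟩ := Finset.mem_image.1 hk
    exact (hkf y hy).1
  have h1 := cover Z (Z.image kf) (fun k => Z.filter fun z => ∀ v ∈ k.support,
    fa v z.1 * nv v ^ k v ≤ 1 ∧ fa v z.2 * nv v ^ k v ≤ 1) ?_
  · refine h1.trans ?_
    have h2 : ∀ k ∈ Z.image kf, ((Z.filter fun z => ∀ v ∈ k.support,
        fa v z.1 * nv v ^ k v ≤ 1 ∧ fa v z.2 * nv v ^ k v ≤ 1).card : ℝ) ≤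
          (C * B) ^ 2 * (Nk k ^ 2)⁻¹ := by
      intro k _
      set Y := Z.filter fun z => ∀ v ∈ k.support,
        fa v z.1 * nv v ^ k v ≤ 1 ∧ fa v z.2 * nv v ^ k v ≤ 1 with hY
      have hle : ∀ (x : K), (∀ v, fa v x ≤ 1) → (∀ v ∈ k.support, fa v x * nv v ^ k v ≤ 1) →
          ∀ v, fa v x ≤ (nv v ^ (1 * k v))⁻¹ := by
        intro x hx1 hx2 v
        by_cases hv : v ∈ k.support
        · have h4 := hx2 v hv
          rw [one_mul]
          rw [← one_div, le_div_iff₀ (pow_pos (Pool.Agent.Lib.MP_4d5ce1_nt.nv_pos v) _)]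
          exact h4
        · have h0 : k v = 0 := by simpa using hv
          rw [h0, mul_zero, pow_zero, inv_one]
          exact hx1 v
      have h3 := h B hB (fun w => (nv w ^ (1 * k w))⁻¹) (fun _ => 1)
        (fun w => inv_pos.2 (pow_pos (Pool.Agent.Lib.MP_4d5ce1_nt.nv_pos w) _))
        (supp_Nk k 1) (fun _ => one_pos) (Y.image Prod.fst) ?_
      · have h4 := h B hB (fun w => (nv w ^ (1 * k w))⁻¹) (fun _ => 1)
          (fun w => inv_pos.2 (pow_pos (Pool.Agent.Lib.MP_4d5ce1_nt.nv_pos w) _))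
          (supp_Nk k 1) (fun _ => one_pos) (Y.image Prod.snd) ?_
        · rw [hb_one, finprod_Nk, pow_one] at h3 h4
          have h5 : Y ⊆ (Y.image Prod.fst) ×ˢ (Y.image Prod.snd) := by
            intro z hz
            exact Finset.mem_product.2 ⟨Finset.mem_image_of_mem _ hz,
              Finset.mem_image_of_mem _ hz⟩
          have h6 := Finset.card_le_card h5
          rw [Finset.card_product] at h6
          have h7 : (Y.card : ℝ) ≤ ((Y.image Prod.fst).card : ℝ) * (Y.image Prod.snd).card := by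
            exact_mod_cast h6
          refine h7.trans ((mul_le_mul h3 h4 (Nat.cast_nonneg _)
            ((Nat.cast_nonneg _).trans h3)).trans (le_of_eq ?_))
          rw [← inv_pow]
          ring
        · intro x hx
          obtain ⟨z, hz, rfl⟩ := Finset.mem_image.1 hx
          obtain ⟨hzZ, hzv⟩ := Finset.mem_filter.1 hz
          obtain ⟨-, hz0, -, hz2, -, hz1, -⟩ := hZ z hzZ
          exact ⟨hz0, hle _ hz1 fun v hv => (hzv v hv).2,
            fun v => by rw [mul_one]; exact hz2 v⟩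
      · intro x hx
        obtain ⟨z, hz, rfl⟩ := Finset.mem_image.1 hx
        obtain ⟨hzZ, hzv⟩ := Finset.mem_filter.1 hz
        obtain ⟨hz0, -, hz2, -, hz1, -, -⟩ := hZ z hzZ
        exact ⟨hz0, hle _ hz1 fun v hv => (hzv v hv).1,
          fun v => by rw [mul_one]; exact hz2 v⟩
    refine (Finset.sum_le_sum h2).trans ?_
    rw [← Finset.mul_sum]
    refine (mul_le_mul_of_nonneg_left (hsum ε hε hε1 _ hI) (by positivity)).trans ?_
    have h3 : (C * B) ^ 2 * (C₄ * ε ^ (1 / 2 : ℝ)) = C ^ 2 * C₄ * (ε ^ (1 / 2 : ℝ) * B ^ 2) := by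
      ring
    rw [h3, mul_assoc (max 1 _)]
    exact mul_le_mul_of_nonneg_right (le_max_right _ _)
      (mul_nonneg (Real.rpow_nonneg hε.le _) (sq_nonneg _))
  · intro z hz
    exact Finset.mem_biUnion.2 ⟨kf z, Finset.mem_image_of_mem _ hz,
      Finset.mem_filter.2 ⟨hz, (hkf z hz).2⟩⟩

end Pool.Agent.Lib.MP_44a246_ntAL
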