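import Pool.Agent.Lib.MP_44a246_ntAL.FDefs
import Pool.Agent.Lib.MP_44a246_ntAL.AL0
import Pool.Agent.Lib.MP_44a246_ntAL.AL10
import Pool.Agent.Lib.MP_44a246_ntAL.AL16
import Pool.Agent.Lib.MP_44a246_ntAL.NA1

/-!
# Representatives, rational points, points of degree `j`
-/

set_option autoImplicit false

open NumberField IsDedekindDomain Height MvPolynomial
open Pool.Agent.Lib.MP_4d5ce1_nt (fa nv ordv)
open Pool.Agent.Lib.MP_44a246_ntNF
open Pool.Agent.Lib.MP_44a246_ntNU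

namespace Pool.Agent.Lib.MP_44a246_ntAL

universe u

/-- FA0 : representatives -/
theorem to_vc {K : Type u} [Field K] {n : ℕ} (X : Finset (Pj K n)) :
    ∃ Y : Finset (Vc K (n + 1)), Y.card = X.card ∧ Np Y ∧ ∀ t ∈ Y, ∃ s ∈ X, t = ⟨s.1, s.2.rep⟩ := by
  classical
  have hinj : ∀ (E : IntermediateField K (AlgebraicClosure K))
      (P Q : Projectivization E (Fin (n + 1) → E)), P.rep = Q.rep → P = Q := by
    intro E P Q h
    rw [← P.mk_rep, ← Q.mk_rep, Projectivization.mk_eq_mk_iff']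
    exact ⟨1, by rw [one_smul, h]⟩
  have hf : Function.Injective fun s : Pj K n => (⟨s.1, s.2.rep⟩ : Vc K (n + 1)) := by
    rintro ⟨E, P⟩ ⟨E', Q⟩ h
    simp only [Sigma.mk.injEq] at h
    obtain ⟨rfl, h2⟩ := h
    rw [hinj _ _ _ (eq_of_heq h2)]
  refine ⟨X.image fun s : Pj K n => (⟨s.1, s.2.rep⟩ : Vc K (n + 1)),
    Finset.card_image_of_injective _ hf, ?_, ?_⟩
  · intro F x y hx hy z hz hxy
    obtain ⟨⟨E, P⟩, -, h1⟩ := Finset.mem_image.1 hx
    obtain ⟨⟨E', Q⟩, -, h2⟩ := Finset.mem_image.1 hy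
    simp only [Sigma.mk.injEq] at h1 h2
    obtain ⟨rfl, h1⟩ := h1
    obtain ⟨rfl, h2⟩ := h2
    have h1 := eq_of_heq h1
    have h2 := eq_of_heq h2
    subst h1 h2
    have : P = Q := by
      rw [← P.mk_rep, ← Q.mk_rep, Projectivization.mk_eq_mk_iff']
      exact ⟨z, hxy.symm⟩
    rw [this]
  · intro t ht
    obtain ⟨s, hs, rfl⟩ := Finset.mem_image.1 ht
    exact ⟨s, hs, rfl⟩

/-- FA1 : rational points -/
theorem rational_total (K : Type*) [Field K] [NumberField K] (m : ℕ) : ∃ C : ℝ, 1 ≤ C ∧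
    ∀ B : ℝ, 1 ≤ B → ∀ Y : Finset (Fin m → K), (∀ y ∈ Y, y ≠ 0 ∧ mulHeight y ≤ B) →
      (∀ x ∈ Y, ∀ y ∈ Y, ∀ z : K, z ≠ 0 → x = z • y → x = y) →
        (Y.card : ℝ) ≤ C * B ^ m := by
  classical
  obtain ⟨C₀, hC₀, hsc⟩ := exists_scale K
  obtain ⟨C₁, hC₁, hci⟩ := card_int K C₀ hC₀
  refine ⟨C₁ ^ m, one_le_pow₀ hC₁, ?_⟩
  intro B hB Y hY hprop
  have hd : (0 : ℝ) ≤ (Module.finrank ℚ K : ℝ)⁻¹ := by positivity
  have key : ∀ y : Fin m → K, ∃ c : K, y ∈ Y → c ≠ 0 ∧ ∀ i, (∀ v, fa v (c * y i) ≤ 1) ∧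
      ∀ v : InfinitePlace K, v (c * y i) ≤ C₀ * B ^ ((Module.finrank ℚ K : ℝ)⁻¹) := by
    intro y
    by_cases hy : y ∈ Y
    · obtain ⟨hy0, hyB⟩ := hY y hy
      obtain ⟨hadm, hhb⟩ := adm_tf y hy0
      obtain ⟨c, hc0, hcf, hci'⟩ := hsc (tf y) (ti y) hadm
      refine ⟨c, fun _ => ⟨hc0, fun i => ⟨fun v => ?_, fun v => ?_⟩⟩⟩
      · have h1 : fa v (y i) ≤ tf y v :=
          le_ciSup (Set.finite_range fun i => fa v (y i)).bddAbove i
        rw [Pool.Agent.Lib.MP_4d5ce1_nt.fa_mul]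
        exact (mul_le_mul_of_nonneg_left h1 (Pool.Agent.Lib.MP_4d5ce1_nt.fa_nonneg v c)).trans
          (hcf v)
      · have h1 : v (y i) ≤ ti y v :=
          le_ciSup (Set.finite_range fun i => v (y i)).bddAbove i
        rw [map_mul]
        refine (mul_le_mul_of_nonneg_left h1 (apply_nonneg v c)).trans ((hci' v).trans ?_)
        refine mul_le_mul_of_nonneg_left ?_ (zero_le_one.trans hC₀)
        rw [hhb]
        exact Real.rpow_le_rpow (zero_le_one.trans (one_le_mulHeight y)) hyB hd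
    · exact ⟨1, fun h => absurd h hy⟩
  choose c hc using key
  set Z : Finset K := Y.biUnion fun y => Finset.univ.image fun i => c y * y i with hZ
  have hZc : (Z.card : ℝ) ≤ C₁ * B := by
    refine hci B hB Z ?_
    intro z hz
    obtain ⟨y, hy, hz⟩ := Finset.mem_biUnion.1 hz
    obtain ⟨i, -, rfl⟩ := Finset.mem_image.1 hz
    exact (hc y hy).2 i
  have hcard : Y.card ≤ (Fintype.piFinset fun _ : Fin m => Z).card := by
    refine Finset.card_le_card_of_injOn (fun y => c y • y) ?_ ?_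
    · intro y hy
      refine Finset.mem_coe.2 (Fintype.mem_piFinset.2 fun i => ?_)
      exact Finset.mem_biUnion.2 ⟨y, hy, Finset.mem_image.2 ⟨i, Finset.mem_univ _, rfl⟩⟩
    · intro y hy y' hy' h
      have h0 := (hc y hy).1
      have h0' := (hc y' hy').1
      refine hprop y hy y' hy' ((c y)⁻¹ * c y') (mul_ne_zero (inv_ne_zero h0) h0') ?_
      have h : c y • y = c y' • y' := h
      rw [mul_smul, ← h, smul_smul, inv_mul_cancel₀ h0, one_smul]
  rw [Fintype.card_piFinset, Finset.prod_const, Finset.card_univ, Fintype.card_fin] at hcard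
  calc (Y.card : ℝ) ≤ ((Z.card ^ m : ℕ) : ℝ) := by exact_mod_cast hcard
    _ = (Z.card : ℝ) ^ m := by push_cast; rfl
    _ ≤ (C₁ * B) ^ m := pow_le_pow_left₀ (by positivity) hZc m
    _ = C₁ ^ m * B ^ m := mul_pow _ _ _

/-- FA2 : points of degree `j` -/
theorem deg_total {K : Type u} [Field K] [NumberField K] (n j : ℕ) (hj : 1 ≤ j) (η : ℝ)
    (hη : 0 < η) : ∃ C : ℝ, 1 ≤ C ∧ ∀ B : ℝ, 1 ≤ B → ∀ X : Finset (Vc K (n + 1)), Np X →
      (∀ s ∈ X, Gd j B s) → (X.card : ℝ) ≤ C * B ^ ((max n j : ℕ) + 1 + η) := by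
  classical
  rcases hj.eq_or_lt with rfl | hj2
  · -- rational points
    have : NumberField (⊥ : IntermediateField K (AlgebraicClosure K)) :=
      NumberField.of_module_finite K _
    obtain ⟨C, hC, hct⟩ := rational_total (⊥ : IntermediateField K (AlgebraicClosure K)) (n + 1)
    refine ⟨C, hC, ?_⟩
    intro B hB X hX hG
    have hbot : ∀ s ∈ X, ∃ x : Fin (n + 1) → (⊥ : IntermediateField K (AlgebraicClosure K)),
        s = ⟨⊥, x⟩ ∧ x ≠ 0 ∧ mulHeight x ≤ B := by
      rintro ⟨E, x⟩ hs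
      obtain ⟨hN, hfr, hx0, -, hB'⟩ := hG _ hs
      have hE : E = ⊥ := IntermediateField.finrank_eq_one_iff.1 hfr
      subst hE
      exact ⟨x, rfl, hx0, hB'⟩
    have hXY : X ⊆ (X.preimage (fun x : Fin (n + 1) → (⊥ : IntermediateField K (AlgebraicClosure K))
        => (⟨⊥, x⟩ : Vc K (n + 1))) (fun a _ b _ h => eq_of_heq (Sigma.mk.inj h).2)).image
        fun x => (⟨⊥, x⟩ : Vc K (n + 1)) := by
      intro s hs
      obtain ⟨x, hx, -⟩ := hbot s hs
      refine Finset.mem_image.2 ⟨x, ?_, hx.symm⟩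
      rw [Finset.mem_preimage, ← hx]
      exact hs
    have hc1 := (Finset.card_le_card hXY).trans Finset.card_image_le
    have hc2 := hct B hB (X.preimage (fun x : Fin (n + 1) →
        (⊥ : IntermediateField K (AlgebraicClosure K)) => (⟨⊥, x⟩ : Vc K (n + 1)))
        (fun a _ b _ h => eq_of_heq (Sigma.mk.inj h).2)) ?_ ?_
    · calc (X.card : ℝ) ≤ _ := by exact_mod_cast hc1
        _ ≤ C * B ^ (n + 1) := hc2
        _ = C * B ^ (((n + 1 : ℕ)) : ℝ) := by rw [Real.rpow_natCast]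
        _ ≤ C * B ^ ((max n 1 : ℕ) + 1 + η) := by
            refine mul_le_mul_of_nonneg_left (Real.rpow_le_rpow_of_exponent_le hB ?_)
              (zero_le_one.trans hC)
            have : (n : ℝ) ≤ ((max n 1 : ℕ) : ℝ) := by exact_mod_cast le_max_left n 1
            push_cast at this ⊢
            linarith
    · intro y hy
      obtain ⟨x, hx, hx0, hxB⟩ := hbot _ (Finset.mem_preimage.1 hy)
      have : y = x := eq_of_heq (Sigma.mk.inj hx).2
      subst this
      exact ⟨hx0, hxB⟩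
    · intro x hx y hy z hz hxy
      exact hX _ x y (Finset.mem_preimage.1 hx) (Finset.mem_preimage.1 hy) z hz hxy
  · obtain ⟨C₁, hC₁, hphi⟩ := phi_bounds (K := K) j (n + 1)
    by_cases hjn : j ≤ n
    · obtain ⟨C₂, hC₂, hts⟩ := total_small (K := K) j n hj2 hjn η hη
      refine ⟨C₂ * C₁ ^ (n - j), ?_, ?_⟩
      · exact one_le_mul_of_one_le_of_one_le hC₂ (one_le_pow₀ hC₁)
      intro B hB X hX hG
      have hB0 : 0 < B := zero_lt_one.trans_le hB
      have h1 := hts B hB X hX hG (C₁ * B) (one_le_mul_of_one_le_of_one_le hC₁ hB)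
        fun s hs => (hphi B s hB (hG s hs)).2
      refine h1.trans (le_of_eq ?_)
      rw [mul_pow, max_eq_left hjn]
      have h2 : (B : ℝ) ^ ((n : ℝ) + 1 + η) = B ^ η * B ^ (j + 1) * B ^ (n - j) := by
        rw [mul_assoc, ← pow_add, show j + 1 + (n - j) = n + 1 by omega, ← Real.rpow_natCast,
          ← Real.rpow_add hB0]
        congr 1
        push_cast
        ring
      rw [h2]
      ring
    · push Not at hjn
      obtain ⟨C₂, hC₂, htl⟩ := total_large (K := K) j n hj2 hjn.le η hη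
      refine ⟨C₂, hC₂, ?_⟩
      intro B hB X hX hG
      have hB0 : 0 < B := zero_lt_one.trans_le hB
      have h1 := htl B hB X hX hG 1 le_rfl fun s hs => by
        exact_mod_cast (hphi B s hB (hG s hs)).1
      refine h1.trans (le_of_eq ?_)
      rw [one_pow, div_one, max_eq_right hjn.le]
      have h2 : (B : ℝ) ^ ((j : ℝ) + 1 + η) = B ^ η * B ^ (j + 1) := by
        rw [← Real.rpow_natCast, ← Real.rpow_add hB0]
        congr 1
        push_cast
        ring
      rw [h2]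
      ring

end Pool.Agent.Lib.MP_44a246_ntAL
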