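import Pool.Agent.Lib.MP_44a246_ntAL.GenDefs

/-!
# Points of projective space of degree at most `r`: definitions
-/

set_option autoImplicit false

open NumberField IsDedekindDomain Height
open Pool.Agent.Lib.MP_4d5ce1_nt (fa nv ordv)
open Pool.Agent.Lib.MP_44a246_ntNF
open Pool.Agent.Lib.MP_44a246_ntNU

namespace Pool.Agent.Lib.MP_44a246_ntAL

universe u

/-- Points of projective space over finite extensions of `K` inside the algebraic closure. -/
abbrev Pj (K : Type u) [Field K] (n : ℕ) : Type u :=
  Σ E : IntermediateField K (AlgebraicClosure K), Projectivization E (Fin (n + 1) → E)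

/-- `(E, P)` with `[E : K] ≤ r`, `E = K(P)`, `P` not on the hyperplanes, of height at most `B` and
with small truncated counting function. -/
def Vio {K : Type u} [Field K] [NumberField K] {n q : ℕ} (S : Set (HeightOneSpectrum (𝓞 K)))
    (L : Fin q → Fin (n + 1) → K) (r : ℕ) (ρ c B : ℝ) (s : Pj K n) : Prop :=
  ∃ _ : NumberField s.1, Module.finrank K s.1 ≤ r ∧
    IntermediateField.adjoin K {z | ∃ i k, z = s.2.rep i / s.2.rep k} = ⊤ ∧
    (∀ l, lin (up s.1 L l) s.2.rep ≠ 0) ∧ s.2.mulHeight ≤ B ∧
    truncCount (above K s.1 S) (up s.1 L) s.2.rep ≤ ρ * s.2.logHeight + c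

end Pool.Agent.Lib.MP_44a246_ntAL
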