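import Pool.Agent.Lib.MP_44a246_ntAL.EDefs
import Pool.Agent.Lib.MP_44a246_ntAL.FDefs
import Pool.Agent.Lib.MP_44a246_ntAL.FA0

/-!
# EA8: the number of fields generated by an element of small height
-/

set_option autoImplicit false

open NumberField IsDedekindDomain Height MvPolynomial
open Pool.Agent.Lib.MP_4d5ce1_nt (fa nv ordv)
open Pool.Agent.Lib.MP_44a246_ntNF
open Pool.Agent.Lib.MP_44a246_ntNU

namespace Pool.Agent.Lib.MP_44a246_ntAL

universe u

/-- EA8 : the number of fields generated by an element of small height -/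
theorem count_sub {K : Type u} [Field K] [NumberField K] (a : ℕ) (ha : 2 ≤ a) (η : ℝ)
    (hη : 0 < η) : ∃ C : ℝ, 1 ≤ C ∧ ∀ Y : ℝ, 1 ≤ Y →
      ∀ Fs : Finset (IntermediateField K (AlgebraicClosure K)),
      (∀ F ∈ Fs, ∃ _ : NumberField F, Module.finrank K F = a ∧
        ∃ e : F, IntermediateField.adjoin K {e} = ⊤ ∧ mulHeight ![1, e] ≤ Y) →
        (Fs.card : ℝ) ≤ C * Y ^ ((a : ℝ) + 1 + η) := by
  classical
  obtain ⟨C, hC, h⟩ := deg_total (K := K) 1 a (by omega) η hη
  refine ⟨C, hC, fun Y hY Fs hFs => ?_⟩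
  have hch : ∀ F : IntermediateField K (AlgebraicClosure K), ∃ e : F, F ∈ Fs →
      ∃ _ : NumberField F, Module.finrank K F = a ∧ IntermediateField.adjoin K {e} = ⊤ ∧
        mulHeight ![1, e] ≤ Y := by
    intro F
    by_cases hF : F ∈ Fs
    · obtain ⟨h1, h2, e, h3, h4⟩ := hFs F hF
      exact ⟨e, fun _ => ⟨h1, h2, h3, h4⟩⟩
    · exact ⟨0, fun h => absurd h hF⟩
  choose e he using hch
  let f : IntermediateField K (AlgebraicClosure K) → Vc K (1 + 1) := fun F => ⟨F, ![1, e F]⟩
  have hf : Function.Injective f := by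
    intro F G hFG
    exact congrArg Sigma.fst hFG
  have hcard : (Fs.image f).card = Fs.card := Finset.card_image_of_injective _ hf
  have hmax : (max 1 a : ℕ) = a := by omega
  have key := h Y hY (Fs.image f) ?_ ?_
  · rw [hcard, hmax] at key
    exact key
  · intro F x y hx hy z hz hxy
    obtain ⟨G, -, hG⟩ := Finset.mem_image.1 hx
    obtain ⟨G', -, hG'⟩ := Finset.mem_image.1 hy
    have h1 : G = F := congrArg Sigma.fst hG
    have h2 : G' = F := congrArg Sigma.fst hG'
    subst h1
    subst h2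
    have h3 : ![1, e G'] = x := eq_of_heq (Sigma.mk.inj hG).2
    have h4 : ![1, e G'] = y := eq_of_heq (Sigma.mk.inj hG').2
    rw [← h3, ← h4]
  · intro s hs
    obtain ⟨F, hF, rfl⟩ := Finset.mem_image.1 hs
    obtain ⟨h1, h2, h3, h4⟩ := he F hF
    refine ⟨h1, h2, ?_, ?_, h4⟩
    · intro h0
      have := congrFun h0 0
      simp [f] at this
    · rw [eq_top_iff, ← h3, IntermediateField.adjoin_le_iff, Set.singleton_subset_iff]
      apply IntermediateField.subset_adjoin
      refine ⟨1, 0, ?_⟩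
      simp [f]

end Pool.Agent.Lib.MP_44a246_ntAL
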