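import Pool.Agent.Lib.MP_44a246_ntAL.EDefs
import Pool.Agent.Lib.MP_44a246_ntAL.AL2
import Pool.Agent.Lib.MP_44a246_ntAL.AL3
import Pool.Agent.Lib.MP_44a246_ntAL.AL5
import Pool.Agent.Lib.MP_44a246_ntAL.EA1

set_option autoImplicit false

open NumberField IsDedekindDomain Height
open Pool.Agent.Lib.MP_4d5ce1_nt (fa nv ordv)
open Pool.Agent.Lib.MP_44a246_ntNF
open Pool.Agent.Lib.MP_44a246_ntNU

namespace Pool.Agent.Lib.MP_44a246_ntAL

universe u


/-- the size of an element with respect to the weights at the infinite places -/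
private noncomputable def sz {E : Type*} [Field E] [NumberField E] (b : InfinitePlace E → ℝ)
    (z : E) : ℝ := ⨆ w : InfinitePlace E, w z / b w

private lemma le_sz {E : Type*} [Field E] [NumberField E] (b : InfinitePlace E → ℝ) (z : E)
    (w : InfinitePlace E) : w z / b w ≤ sz b z :=
  le_ciSup (f := fun w : InfinitePlace E => w z / b w) (Set.finite_range _).bddAbove w

private lemma exists_sz {E : Type*} [Field E] [NumberField E] (b : InfinitePlace E → ℝ) (z : E) :
    ∃ w : InfinitePlace E, sz b z = w z / b w := by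
  obtain ⟨w, hw⟩ := exists_eq_ciSup_of_finite (f := fun w : InfinitePlace E => w z / b w)
  exact ⟨w, hw.symm⟩

private lemma mem_Bx {E : Type*} [Field E] [NumberField E]
    {a : HeightOneSpectrum (𝓞 E) → ℝ} {b : InfinitePlace E → ℝ} (h : Adm a b) {z : E} {s : ℝ} :
    z ∈ Bx a b s ↔ (∀ w, fa w z ≤ a w) ∧ sz b z ≤ s := by
  constructor
  · rintro ⟨h1, h2⟩
    refine ⟨h1, ?_⟩
    obtain ⟨w, hw⟩ := exists_sz b z
    rw [hw, div_le_iff₀ (h.pos w)]
    exact h2 w
  · rintro ⟨h1, h2⟩
    refine ⟨h1, fun w => ?_⟩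
    have := (le_sz b z w).trans h2
    rwa [div_le_iff₀ (h.pos w)] at this

private lemma sz_pos {E : Type*} [Field E] [NumberField E]
    {a : HeightOneSpectrum (𝓞 E) → ℝ} {b : InfinitePlace E → ℝ} (h : Adm a b) {z : E}
    (hz : z ≠ 0) : 0 < sz b z := by
  obtain ⟨w, hw⟩ := exists_sz b z
  rw [hw]
  exact div_pos ((InfinitePlace.pos_iff).mpr hz) (h.pos w)

private lemma adjoin_zero_ne {K E : Type*} [Field K] [Field E] [Algebra K E] {r : ℕ} (hr : 2 ≤ r)
    (h : Module.finrank K E = r) (S : Set E) (hS : S ⊆ {0}) : IntermediateField.adjoin K S ≠ ⊤ := by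
  intro h1
  have h2 : IntermediateField.adjoin K S = ⊥ := by
    rw [eq_bot_iff, IntermediateField.adjoin_le_iff]
    intro z hz
    have : z = 0 := hS hz
    rw [this]
    exact (⊥ : IntermediateField K E).zero_mem
  rw [h2] at h1
  have h3 : Module.finrank K (⊥ : IntermediateField K E) = 1 := IntermediateField.finrank_bot
  have h4 : Module.finrank K (⊤ : IntermediateField K E) = Module.finrank K E :=
    IntermediateField.finrank_top'
  rw [← h1, h3, h] at h4
  omega

/-- EB1 : a small pair, second version -/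
theorem gen_pair2 (r m D : ℕ) (hr : 2 ≤ r) : ∃ C : ℝ, 1 ≤ C ∧ ∀ (K E : Type u) [Field K]
    [NumberField K] [Field E] [NumberField E] [Algebra K E], Module.finrank ℚ E ≤ D →
      Module.finrank K E = r →
      ∀ (a : HeightOneSpectrum (𝓞 E) → ℝ) (b : InfinitePlace E → ℝ), Adm a b →
      ∀ x : Fin m → E, (∀ i, x i ∈ Bx a b 1) →
        IntermediateField.adjoin K {z : E | ∃ i k, z = x i / x k} = ⊤ →
        ∃ (u z : E) (l1 l2 : ℝ) (F : IntermediateField K E), 0 < l1 ∧ l1 ≤ 1 ∧ l1 ≤ l2 ∧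
          l2 ≤ C ∧ u ≠ 0 ∧ u ∈ Bx a b l1 ∧ z ∈ Bx a b l2 ∧
          IntermediateField.adjoin K {z / u} = ⊤ ∧ F ≠ ⊤ ∧
          (∀ y : E, y ≠ 0 → (∀ w, fa w y ≤ a w) → ∃ w : InfinitePlace E, l1 * b w ≤ w y) ∧
          ((Bx a b 1).ncard : ℝ) *
              l2 ^ (Module.finrank ℚ K * Module.finrank K (Submodule.span K (Bx a b 1))) ≤
            C * lineN a b u F l2 := by
  classical
  obtain ⟨C2, hC2, H2⟩ := cell_sub.{u} D
  obtain ⟨N0, H3⟩ := card_intermediate.{u} r
  obtain ⟨N, H5⟩ := exists_combo.{u} r m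
  set C1 : ℝ := (m : ℝ) * N + 1 with hC1
  have hC1' : 1 ≤ C1 := by rw [hC1]; have : (0 : ℝ) ≤ (m : ℝ) * N := by positivity
                           linarith
  set C6 : ℝ := C2 * (C1 + 2) ^ D * N0 with hC6
  have hC6' : 0 ≤ C6 := by rw [hC6]; positivity
  refine ⟨C1 + C6, by linarith, ?_⟩
  intro K E _ _ _ _ _ hD hrE a b hab x hx htop
  have ha0 : ∀ w, 0 < a w := fun w => by
    obtain ⟨k, hk⟩ := hab.pow w
    rw [hk]
    exact zpow_pos (Pool.Agent.Lib.MP_4d5ce1_nt.nv_pos w) k
  -- some coordinate is nonzero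
  have hx0 : ∃ i, x i ≠ 0 := by
    by_contra hcon
    push Not at hcon
    refine adjoin_zero_ne hr hrE _ ?_ htop
    rintro z ⟨i, k, rfl⟩
    simp [hcon]
  obtain ⟨i0, hi0⟩ := hx0
  -- the element u
  have hfin1 : {z : E | z ∈ Bx a b 1 ∧ z ≠ 0}.Finite :=
    (box_finite hab 1).subset fun z hz => hz.1
  obtain ⟨u, ⟨huB, hu0⟩, humin⟩ := hfin1.exists_minimalFor (sz b) _ ⟨x i0, hx i0, hi0⟩
  set l1 : ℝ := sz b u with hl1
  have hl1pos : 0 < l1 := sz_pos hab hu0
  have hl1le : l1 ≤ 1 := ((mem_Bx hab).mp huB).2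
  have hmin1 : ∀ z : E, z ≠ 0 → (∀ w, fa w z ≤ a w) → l1 ≤ sz b z := by
    intro z hz hza
    rcases le_or_gt (sz b z) 1 with h | h
    · by_contra hcon
      push Not at hcon
      have := humin (j := z) ⟨(mem_Bx hab).mpr ⟨hza, h⟩, hz⟩ hcon.le
      linarith
    · linarith
  -- the element z
  obtain ⟨c, hcN, hctop⟩ := H5 K E hrE x htop u hu0
  have hz1 : (∑ i, (c i : E) * x i) ∈ Bx a b C1 := by
    refine ⟨fun w => ?_, fun w => ?_⟩
    · refine Pool.Agent.Lib.MP_4d5ce1_nt.fa_sum_le w _ _ _ (ha0 w).le fun i _ => ?_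
      rw [Pool.Agent.Lib.MP_4d5ce1_nt.fa_mul]
      calc fa w (c i : E) * fa w (x i) ≤ 1 * a w :=
            mul_le_mul (Pool.Agent.Lib.MP_4d5ce1_nt.fa_natCast_le_one w _) ((hx i).1 w)
              (Pool.Agent.Lib.MP_4d5ce1_nt.fa_nonneg w _) zero_le_one
        _ = a w := one_mul _
    · have hterm : ∀ i, w ((c i : E) * x i) ≤ N * b w := by
        intro i
        rw [map_mul]
        have h1 : w (c i : E) ≤ N := by
          rw [← InfinitePlace.norm_embedding_eq, map_natCast, Complex.norm_natCast]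
          exact_mod_cast hcN i
        have h2 : w (x i) ≤ b w := by simpa using (hx i).2 w
        exact mul_le_mul h1 h2 (apply_nonneg _ _) (by positivity)
      calc w (∑ i, (c i : E) * x i) ≤ ∑ i, w ((c i : E) * x i) := by
            have := AbsoluteValue.sum_le w.1 (Finset.univ) (fun i => (c i : E) * x i)
            exact this
        _ ≤ ∑ _i : Fin m, (N : ℝ) * b w := Finset.sum_le_sum fun i _ => hterm i
        _ = (m : ℝ) * N * b w := by simp; ring
        _ ≤ C1 * b w := by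
            rw [hC1]
            have := hab.pos w
            nlinarith
  have hfin2 : {z : E | z ∈ Bx a b C1 ∧ IntermediateField.adjoin K {z / u} = ⊤}.Finite :=
    (box_finite hab C1).subset fun z hz => hz.1
  obtain ⟨z, ⟨hzB, hztop⟩, hzmin⟩ := hfin2.exists_minimalFor (sz b) _ ⟨_, hz1, hctop⟩
  set l2 : ℝ := sz b z with hl2
  have hz0 : z ≠ 0 := by
    rintro rfl
    refine adjoin_zero_ne hr hrE _ ?_ hztop
    simp
  have hl2pos : 0 < l2 := sz_pos hab hz0
  have hl2le : l2 ≤ C1 := ((mem_Bx hab).mp hzB).2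
  have hl12 : l1 ≤ l2 := hmin1 z hz0 hzB.1
  -- counting
  have hhalf : 0 < l2 / 2 := by positivity
  have hne : ∀ y ∈ Bx a b (l2 / 2), IntermediateField.adjoin K {y / u} ≠ ⊤ := by
    intro y hy hcon
    have hy' := (mem_Bx hab).mp hy
    have := hzmin (j := y) ⟨(mem_Bx hab).mpr ⟨hy'.1, by linarith [hy'.2]⟩, hcon⟩
      (by linarith [hy'.2])
    have h3 := hy'.2
    linarith
  obtain ⟨A, hAcard, hA⟩ := H3 K E hrE
  set A' : Finset (IntermediateField K E) := A.filter (fun F => F ≠ ⊤) with hA'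
  have hA'ne : A'.Nonempty := by
    refine ⟨IntermediateField.adjoin K {(0 : E)}, ?_⟩
    rw [hA', Finset.mem_filter]
    exact ⟨hA _, adjoin_zero_ne hr hrE _ (by simp)⟩
  obtain ⟨F, hFA, hFmax⟩ := Finset.exists_max_image A' (fun F => lineN a b u F l2) hA'ne
  have hFtop : F ≠ ⊤ := (Finset.mem_filter.mp hFA).2
  refine ⟨u, z, l1, l2, F, hl1pos, hl1le, hl12, by linarith, hu0,
    (mem_Bx hab).mpr ⟨huB.1, le_rfl⟩, (mem_Bx hab).mpr ⟨hzB.1, le_rfl⟩, hztop, hFtop, ?_, ?_⟩
  · intro y hy hya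
    obtain ⟨w, hw⟩ := exists_sz b y
    refine ⟨w, ?_⟩
    have h2 := hmin1 y hy hya
    rwa [hw, le_div_iff₀ (hab.pos w)] at h2
  -- the cell
  set Y : Finset E := (box_finite hab 1).toFinset with hY
  have hYne : Y.Nonempty := ⟨x i0, (Set.Finite.mem_toFinset _).mpr (hx i0)⟩
  set S : Submodule K E := Submodule.span K (Bx a b 1) with hS
  set V : Submodule ℚ E := S.restrictScalars ℚ with hV
  have hdV : Module.finrank ℚ V = Module.finrank ℚ K * Module.finrank K S := by
    have h1 : Module.finrank ℚ V = Module.finrank ℚ S :=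
      ((Submodule.restrictScalarsEquiv ℚ K E S).restrictScalars ℚ).finrank_eq
    rw [h1, Module.finrank_mul_finrank ℚ K S]
  have hdD : Module.finrank ℚ V ≤ D := (Submodule.finrank_le V).trans hD
  obtain ⟨Y', hYY, hY'ne, hcell, hdiff⟩ := H2 E hD V b (fun w => hab.pos w) 1 (l2 / 2) one_pos
    hhalf Y hYne (by
      intro y hy
      have hy1 : y ∈ Bx a b 1 := (Set.Finite.mem_toFinset _).mp hy
      exact ⟨Submodule.subset_span hy1, hy1.2⟩)
  obtain ⟨y0, hy0⟩ := hY'ne
  have hfinF : ∀ F : IntermediateField K E,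
      {y : E | y ∈ Bx a b l2 ∧ ∃ e ∈ F, y = u * e}.Finite := fun F =>
    (box_finite hab l2).subset fun z hz => hz.1
  have hY'card : (Y'.card : ℝ) ≤ N0 * lineN a b u F l2 := by
    have hinj : (Y'.image fun y => y - y0).card = Y'.card :=
      Finset.card_image_of_injective _ sub_left_injective
    have hsub : (Y'.image fun y => y - y0) ⊆ A'.biUnion fun F => (hfinF F).toFinset := by
      intro t ht
      rw [Finset.mem_image] at ht
      obtain ⟨y, hy, rfl⟩ := ht
      have hy1 : y ∈ Bx a b 1 := (Set.Finite.mem_toFinset _).mp (hYY hy)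
      have hy01 : y0 ∈ Bx a b 1 := (Set.Finite.mem_toFinset _).mp (hYY hy0)
      have hfin' : ∀ w, fa w (y - y0) ≤ a w := fun w =>
        (Pool.Agent.Lib.MP_4d5ce1_nt.fa_sub_le w y y0).trans (max_le (hy1.1 w) (hy01.1 w))
      have hB2 : y - y0 ∈ Bx a b (l2 / 2) := ⟨hfin', fun w => hdiff y hy y0 hy0 w⟩
      have hB1 : y - y0 ∈ Bx a b l2 := by
        rw [mem_Bx hab] at hB2 ⊢
        exact ⟨hB2.1, by linarith [hB2.2]⟩
      rw [Finset.mem_biUnion]
      refine ⟨IntermediateField.adjoin K {(y - y0) / u}, ?_, ?_⟩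
      · rw [hA', Finset.mem_filter]
        exact ⟨hA _, hne _ hB2⟩
      · rw [Set.Finite.mem_toFinset]
        refine ⟨hB1, (y - y0) / u, IntermediateField.mem_adjoin_simple_self K _, ?_⟩
        field_simp
    have hnat : Y'.card ≤ N0 * lineN a b u F l2 := by
      calc Y'.card = (Y'.image fun y => y - y0).card := hinj.symm
        _ ≤ (A'.biUnion fun F => (hfinF F).toFinset).card := Finset.card_le_card hsub
        _ ≤ ∑ G ∈ A', ((hfinF G).toFinset).card := Finset.card_biUnion_le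
        _ ≤ ∑ _G ∈ A', lineN a b u F l2 := by
            refine Finset.sum_le_sum fun G hG => ?_
            have h1 : ((hfinF G).toFinset).card = lineN a b u G l2 := by
              unfold lineN
              rw [Set.ncard_eq_toFinset_card _ (hfinF G)]
            rw [h1]
            exact hFmax G hG
        _ = A'.card * lineN a b u F l2 := by rw [Finset.sum_const, smul_eq_mul]
        _ ≤ N0 * lineN a b u F l2 :=
            Nat.mul_le_mul_right _ ((Finset.card_filter_le _ _).trans hAcard)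
    exact_mod_cast hnat
  have hncY : ((Bx a b 1).ncard : ℝ) = Y.card := by
    rw [hY, Set.ncard_eq_toFinset_card _ (box_finite hab 1)]
  rw [← hdV, hncY]
  set dV : ℕ := Module.finrank ℚ V with hdV'
  have hbase : 1 + 1 / (l2 / 2) ≤ (C1 + 2) / l2 := by
    rw [le_div_iff₀ hl2pos]
    have : (1 + 1 / (l2 / 2)) * l2 = l2 + 2 := by field_simp
    rw [this]; linarith
  have hgrow2 : (Y.card : ℝ) ≤ C2 * ((C1 + 2) / l2) ^ dV * (N0 * lineN a b u F l2) := by
    refine hcell.trans ?_
    refine mul_le_mul ?_ hY'card (by positivity) (by positivity)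
    exact mul_le_mul_of_nonneg_left (pow_le_pow_left₀ (by positivity) hbase _) (by linarith)
  have hl2d : (0 : ℝ) < l2 ^ dV := pow_pos hl2pos _
  calc (Y.card : ℝ) * l2 ^ dV
      ≤ (C2 * ((C1 + 2) / l2) ^ dV * (N0 * lineN a b u F l2)) * l2 ^ dV :=
        mul_le_mul_of_nonneg_right hgrow2 hl2d.le
    _ = C2 * (C1 + 2) ^ dV * N0 * lineN a b u F l2 := by
        rw [div_pow]
        field_simp
    _ ≤ C2 * (C1 + 2) ^ D * N0 * lineN a b u F l2 := by
        have h1 : (C1 + 2) ^ dV ≤ (C1 + 2) ^ D := pow_le_pow_right₀ (by linarith) hdD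
        gcongr
    _ ≤ (C1 + C6) * lineN a b u F l2 := by
        refine mul_le_mul_of_nonneg_right ?_ (by positivity)
        rw [hC6]
        linarith

end Pool.Agent.Lib.MP_44a246_ntAL
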