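import Pool.Agent.Lib.MP_44a246_ntAL.EDefs
import Pool.Agent.Lib.MP_44a246_ntAL.AL1
import Pool.Agent.Lib.MP_44a246_ntAL.AL3
import Pool.Agent.Lib.MP_44a246_ntAL.AL4

/-!
# EB2: a generator of a subfield
-/

set_option autoImplicit false

open NumberField IsDedekindDomain Height
open Pool.Agent.Lib.MP_4d5ce1_nt (fa nv ordv)
open Pool.Agent.Lib.MP_44a246_ntNF
open Pool.Agent.Lib.MP_44a246_ntNU

namespace Pool.Agent.Lib.MP_44a246_ntAL

universe u

/-- Cells in a line over a subfield. -/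
private theorem cell_line {K E : Type u} [Field K] [NumberField K] [Field E]
    [NumberField E] [Algebra K E] (F : IntermediateField K E) (C : ℝ)
    (hcell : ∀ b : InfinitePlace F → ℝ, (∀ w, 0 < b w) →
      ∀ s s' : ℝ, 0 < s → 0 < s' → ∀ Y : Finset F, Y.Nonempty →
        (∀ y ∈ Y, ∀ w : InfinitePlace F, w y ≤ s * b w) →
        ∃ Y' ⊆ Y, Y'.Nonempty ∧
          (Y.card : ℝ) ≤ C * (1 + s / s') ^ Module.finrank ℚ F * Y'.card ∧
          ∀ y ∈ Y', ∀ z ∈ Y', ∀ w : InfinitePlace F, w (y - z) ≤ s' * b w)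
    (b : InfinitePlace E → ℝ) (hb : ∀ w, 0 < b w)
    (u : E) (hu : u ≠ 0) (s s' : ℝ) (hs : 0 < s) (hs' : 0 < s')
    (Y : Finset E) (hne : Y.Nonempty)
    (hY : ∀ y ∈ Y, (∀ w : InfinitePlace E, w y ≤ s * b w) ∧ ∃ e ∈ F, y = u * e) :
    ∃ Y' ⊆ Y, Y'.Nonempty ∧
      (Y.card : ℝ) ≤ C * (1 + s / s') ^ Module.finrank ℚ F * Y'.card ∧
      ∀ y ∈ Y', ∀ z ∈ Y', ∀ w : InfinitePlace E, w (y - z) ≤ s' * b w := by
  classical
  have hmin : ∀ w' : InfinitePlace F, ∃ w0 : InfinitePlace E,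
      w0.comap (algebraMap F E) = w' ∧ ∀ w : InfinitePlace E, w.comap (algebraMap F E) = w' →
        b w0 / w0 u ≤ b w / w u := by
    intro w'
    obtain ⟨w1, hw1⟩ := InfinitePlace.comap_surjective (k := F) (K := E) w'
    obtain ⟨w0, h0, h0'⟩ := Finset.exists_min_image
      (Finset.univ.filter fun w : InfinitePlace E => w.comap (algebraMap F E) = w')
      (fun w => b w / w u) ⟨w1, by simp [hw1]⟩
    refine ⟨w0, (Finset.mem_filter.1 h0).2, fun w hw => h0' w ?_⟩
    simp [hw]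
  choose φ hφ hφ' using hmin
  have hupos : ∀ w : InfinitePlace E, 0 < w u := fun w => InfinitePlace.pos_iff.2 hu
  set b' : InfinitePlace F → ℝ := fun w' => b (φ w') / (φ w') u with hb'
  have hb'pos : ∀ w', 0 < b' w' := fun w' => div_pos (hb _) (hupos _)
  set g : F → E := fun e => u * (e : E) with hg
  have hginj : Function.Injective g := by
    intro e e' h
    exact Subtype.ext (mul_left_cancel₀ hu h)
  set Z : Finset F := Y.preimage g hginj.injOn with hZ
  have hYZ : Y = Z.image g := by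
    ext y
    constructor
    · intro hy
      obtain ⟨_, e, he, rfl⟩ := hY y hy
      exact Finset.mem_image.2 ⟨⟨e, he⟩, Finset.mem_preimage.2 hy, rfl⟩
    · intro hy
      obtain ⟨e, he, rfl⟩ := Finset.mem_image.1 hy
      exact Finset.mem_preimage.1 he
  have hcard : Y.card = Z.card := by
    conv_lhs => rw [hYZ]
    exact Finset.card_image_of_injective _ hginj
  have hZne : Z.Nonempty := by
    rw [← Finset.card_pos, ← hcard]; exact Finset.card_pos.2 hne
  have hZs : ∀ e ∈ Z, ∀ w' : InfinitePlace F, w' e ≤ s * b' w' := by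
    intro e he w'
    have h1 : (φ w') (u * (e : E)) ≤ s * b (φ w') :=
      (hY _ (Finset.mem_preimage.1 he)).1 (φ w')
    have h2 : w' e = (φ w') (e : E) := by
      conv_lhs => rw [← hφ w']
      rfl
    rw [map_mul] at h1
    rw [h2, hb']
    have h3 := hupos (φ w')
    show (φ w') (e : E) ≤ s * (b (φ w') / (φ w') u)
    rw [← mul_div_assoc, le_div_iff₀ h3]
    linarith [mul_comm ((φ w') u) ((φ w') (e : E))]
  obtain ⟨Z', hZ'Z, hZ'ne, hZ'card, hZ'⟩ := hcell b' hb'pos s s' hs hs' Z hZne hZs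
  refine ⟨Z'.image g, ?_, hZ'ne.image g, ?_, ?_⟩
  · rw [hYZ]; exact Finset.image_subset_image hZ'Z
  · rw [hcard, Finset.card_image_of_injective _ hginj]; exact hZ'card
  · intro y hy z hz w
    obtain ⟨e, he, rfl⟩ := Finset.mem_image.1 hy
    obtain ⟨e', he', rfl⟩ := Finset.mem_image.1 hz
    have h1 := hZ' e he e' he' (w.comap (algebraMap F E))
    have h2 : (w.comap (algebraMap F E)) (e - e') = w ((e : E) - (e' : E)) := rfl
    rw [h2] at h1
    have h3 : b' (w.comap (algebraMap F E)) ≤ b w / w u := hφ' _ w rfl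
    have h4 : w ((e : E) - (e' : E)) ≤ s' * (b w / w u) :=
      h1.trans (mul_le_mul_of_nonneg_left h3 hs'.le)
    have h5 : w u * w ((e : E) - (e' : E)) ≤ w u * (s' * (b w / w u)) :=
      mul_le_mul_of_nonneg_left h4 (hupos w).le
    have h6 : w u * (s' * (b w / w u)) = s' * b w := by
      have := (hupos w).ne'
      field_simp
    show w (u * (e : E) - u * (e' : E)) ≤ s' * b w
    rw [← mul_sub, map_mul]
    linarith

private theorem finrank_half {K E : Type u} [Field K] [NumberField K] [Field E]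
    [NumberField E] [Algebra K E] {F' F : IntermediateField K E} (h : F' < F) :
    2 * Module.finrank ℚ F' ≤ Module.finrank ℚ F := by
  have : FiniteDimensional K E := Module.Finite.of_restrictScalars_finite ℚ K E
  have h1 : Module.finrank K F' ∣ Module.finrank K F :=
    IntermediateField.finrank_dvd_of_le_right h.le
  have h2 : Module.finrank K F' < Module.finrank K F := by
    by_contra hc
    exact h.ne (IntermediateField.eq_of_le_of_finrank_le h.le (not_lt.1 hc))
  have h3 : 2 * Module.finrank K F' ≤ Module.finrank K F := by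
    obtain ⟨c, hc⟩ := h1
    rcases c with _ | _ | c
    · rw [hc] at h2; simp at h2
    · rw [hc] at h2; simp at h2
    · rw [hc]; nlinarith
  rw [← Module.finrank_mul_finrank ℚ K F', ← Module.finrank_mul_finrank ℚ K F]
  nlinarith

/-- EB2 : a generator of a subfield -/
theorem sub_gen (r D : ℕ) (M : ℝ) (hM : 1 ≤ M) : ∃ C : ℝ, 1 ≤ C ∧
    ∀ (K E : Type u) [Field K] [NumberField K] [Field E] [NumberField E] [Algebra K E],
      Module.finrank ℚ E ≤ D → Module.finrank K E = r → ∀ F : IntermediateField K E,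
      ∀ (a : HeightOneSpectrum (𝓞 E) → ℝ) (b : InfinitePlace E → ℝ), Adm a b →
      ∀ (u : E) (l1 l2 t : ℝ), 0 < l1 → l1 ≤ l2 → l2 ≤ M → 1 ≤ t → u ≠ 0 →
      (∀ y : E, y ≠ 0 → (∀ w, fa w y ≤ a w) → ∃ w : InfinitePlace E, l1 * b w ≤ w y) →
      C * ((l2 / l1) ^ (2 * Module.finrank ℚ F) * (t ^ Module.finrank ℚ F)⁻¹ +
        (l2 / l1) ^ Module.finrank ℚ F) < (lineN a b u F l2 : ℝ) ^ 2 →
      ∃ e : E, IntermediateField.adjoin K {e} = F ∧ u * e ∈ Bx a b (t * l1) := by
  obtain ⟨C1, hC1, hcell⟩ := cell.{u} D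
  obtain ⟨N, hN⟩ := card_intermediate.{u} r
  obtain ⟨C4, hC4, hsub⟩ := subline.{u} D
  have hA1 : (1 : ℝ) ≤ (N : ℝ) + 1 := by
    have : (0 : ℝ) ≤ (N : ℝ) := Nat.cast_nonneg N
    linarith
  refine ⟨(C1 * ((N + 1) * C4)) ^ 2 * 2 ^ (3 * D), ?_, ?_⟩
  · have h1 : (1 : ℝ) ≤ C1 * ((N + 1) * C4) :=
      one_le_mul_of_one_le_of_one_le hC1 (one_le_mul_of_one_le_of_one_le hA1 hC4)
    exact one_le_mul_of_one_le_of_one_le (one_le_pow₀ h1) (one_le_pow₀ (by norm_num))
  intro K E _ _ _ _ _ hD hr F a b hab u l1 l2 t hl1 hl12 _ ht hu hz hlt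
  classical
  have : FiniteDimensional K E := Module.Finite.of_restrictScalars_finite ℚ K E
  by_contra hno
  push Not at hno
  have hl2 : 0 < l2 := hl1.trans_le hl12
  have ht0 : 0 < t := by linarith
  have htl : 0 < t * l1 := mul_pos ht0 hl1
  have hapos : ∀ w, 0 < a w := by
    intro w
    obtain ⟨k, hk⟩ := hab.pow w
    rw [hk]
    exact zpow_pos (MP_4d5ce1_nt.nv_pos w) _
  set d := Module.finrank ℚ F with hd
  have hFE : d ≤ D := by
    let f : F →ₗ[ℚ] E := (algebraMap F E).toRatAlgHom.toLinearMap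
    exact (LinearMap.finrank_le_finrank_of_injective (f := f)
      (by intro x y h; exact (algebraMap F E).injective h)).trans hD
  obtain ⟨A, hAcard, hA⟩ := hN K E hr
  -- the number of elements of size at most `s ≤ t * l1` in the line
  have key : ∀ s : ℝ, 0 < s → s ≤ t * l1 → ∀ Y : Finset E,
      (∀ y ∈ Y, y ∈ Bx a b s ∧ ∃ e ∈ F, y = u * e) →
      (Y.card : ℝ) ^ 2 ≤ ((N + 1) * C4) ^ 2 * (1 + s / l1) ^ d := by
    intro s hs hst Y hY
    have hbase : (1 : ℝ) ≤ 1 + s / l1 := by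
      have : 0 < s / l1 := div_pos hs hl1
      linarith
    -- the field of an element
    have hfield : ∀ y ∈ Y, IntermediateField.adjoin K {y / u} < F := by
      intro y hy
      obtain ⟨hyB, e, heF, rfl⟩ := hY y hy
      have e1 : u * e / u = e := by field_simp
      rw [e1]
      refine lt_of_le_of_ne ?_ ?_
      · rw [IntermediateField.adjoin_simple_le_iff]; exact heF
      · intro hE
        refine hno e hE ⟨hyB.1, fun w => (hyB.2 w).trans ?_⟩
        exact mul_le_mul_of_nonneg_right hst (hab.pos w).le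
    set A' := A.filter (fun F' => F' < F) with hA'
    have hYsub : Y ⊆ A'.biUnion (fun F' => Y.filter (fun y => y / u ∈ F')) := by
      intro y hy
      refine Finset.mem_biUnion.2 ⟨IntermediateField.adjoin K {y / u}, ?_, ?_⟩
      · rw [hA', Finset.mem_filter]; exact ⟨hA _, hfield y hy⟩
      · rw [Finset.mem_filter]
        exact ⟨hy, IntermediateField.mem_adjoin_simple_self K _⟩
    obtain ⟨q, hq⟩ : ∃ q : ℝ, q = √((1 + s / l1) ^ d) := ⟨_, rfl⟩
    have hq0 : 0 ≤ q := by rw [hq]; exact Real.sqrt_nonneg _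
    have hq2 : q ^ 2 = (1 + s / l1) ^ d := by
      rw [hq]; exact Real.sq_sqrt (by positivity)
    have hone : ∀ F' ∈ A', ((Y.filter (fun y => y / u ∈ F')).card : ℝ) ≤ C4 * q := by
      intro F' hF'
      have hF'lt : F' < F := (Finset.mem_filter.1 hF').2
      have h1 := hsub K E hD F' a b hab u hu l1 s hl1 hs hz
        (Y.filter (fun y => y / u ∈ F')) (by
          intro y hy
          rw [Finset.mem_filter] at hy
          refine ⟨(hY y hy.1).1, y / u, hy.2, ?_⟩
          field_simp)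
      refine h1.trans (mul_le_mul_of_nonneg_left ?_ (by linarith))
      have h2 := finrank_half hF'lt
      refine abs_le_of_sq_le_sq' ?_ hq0 |>.2
      rw [hq2, ← pow_mul]
      exact pow_le_pow_right₀ hbase (by rw [mul_comm]; exact h2)
    have hsum : (Y.card : ℝ) ≤ (N + 1) * (C4 * q) := by
      have h1 : (Y.card : ℝ) ≤
          ((A'.biUnion (fun F' => Y.filter (fun y => y / u ∈ F'))).card : ℝ) := by
        exact_mod_cast Finset.card_le_card hYsub
      have h2 : ((A'.biUnion (fun F' => Y.filter (fun y => y / u ∈ F'))).card : ℝ) ≤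
          ∑ F' ∈ A', ((Y.filter (fun y => y / u ∈ F')).card : ℝ) := by
        exact_mod_cast Finset.card_biUnion_le
      have h3 : ∑ F' ∈ A', ((Y.filter (fun y => y / u ∈ F')).card : ℝ) ≤
          ∑ _F' ∈ A', C4 * q := Finset.sum_le_sum hone
      rw [Finset.sum_const, nsmul_eq_mul] at h3
      have h4 : (A'.card : ℝ) ≤ (N : ℝ) + 1 := by
        have : A'.card ≤ N := (Finset.card_filter_le _ _).trans hAcard
        have : (A'.card : ℝ) ≤ N := by exact_mod_cast this
        linarith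
      have h5 : 0 ≤ C4 * q := mul_nonneg (by linarith) hq0
      have h6 := mul_le_mul_of_nonneg_right h4 h5
      linarith
    have h0 : (0 : ℝ) ≤ (Y.card : ℝ) := Nat.cast_nonneg _
    calc (Y.card : ℝ) ^ 2 ≤ ((N + 1) * (C4 * q)) ^ 2 := pow_le_pow_left₀ h0 hsum 2
      _ = ((N + 1) * C4) ^ 2 * q ^ 2 := by ring
      _ = ((N + 1) * C4) ^ 2 * (1 + s / l1) ^ d := by rw [hq2]
  -- the set of the elements of size at most `l2`
  set S : Set E := {y : E | y ∈ Bx a b l2 ∧ ∃ e ∈ F, y = u * e} with hS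
  have hline : lineN a b u F l2 = S.ncard := rfl
  have hratio : 1 ≤ l2 / l1 := by rw [le_div_iff₀ hl1]; linarith
  have hr0 : 0 < l2 / l1 := by linarith
  have hCpos : 0 < (C1 * ((N + 1) * C4)) ^ 2 * 2 ^ (3 * D) := by positivity
  have hpos : 0 < (C1 * ((N + 1) * C4)) ^ 2 * 2 ^ (3 * D) *
      ((l2 / l1) ^ (2 * d) * (t ^ d)⁻¹ + (l2 / l1) ^ d) := by positivity
  have hfin : S.Finite := by
    by_contra hc
    have h0 : S.ncard = 0 := Set.Infinite.ncard hc
    rw [hline, h0] at hlt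
    norm_num at hlt
    linarith
  set Y := hfin.toFinset with hY
  have hYc : (lineN a b u F l2 : ℝ) = Y.card := by
    rw [hline, Set.ncard_eq_toFinset_card S hfin]
  rw [hYc] at hlt
  have hYmem : ∀ y ∈ Y, y ∈ Bx a b l2 ∧ ∃ e ∈ F, y = u * e := by
    intro y hy
    rw [hY, Set.Finite.mem_toFinset] at hy
    exact hy
  have h2d : (2 : ℝ) ^ (3 * d) ≤ 2 ^ (3 * D) :=
    pow_le_pow_right₀ (by norm_num) (by omega)
  rcases le_or_gt (t * l1) l2 with hcase | hcase
  · -- cells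
    have hYne : Y.Nonempty := by
      refine ⟨0, ?_⟩
      rw [hY, Set.Finite.mem_toFinset]
      refine ⟨⟨fun w => ?_, fun w => ?_⟩, 0, F.zero_mem, by ring⟩
      · rw [MP_4d5ce1_nt.fa_zero]; exact (hapos w).le
      · rw [map_zero]; exact mul_nonneg hl2.le (hab.pos w).le
    obtain ⟨Y', hY'Y, hY'ne, hcard, hdiff⟩ := cell_line F C1
      (fun b' hb' s s' hs hs' Z hZ hZs => hcell F hFE b' hb' s s' hs hs' Z hZ hZs)
      b hab.pos u hu l2 (t * l1) hl2 htl Y hYne (fun y hy => ⟨(hYmem y hy).1.2, (hYmem y hy).2⟩)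
    obtain ⟨y0, hy0⟩ := hY'ne
    have hk := key (t * l1) htl le_rfl (Y'.image fun y => y - y0) (by
      intro z hz'
      obtain ⟨y, hy, rfl⟩ := Finset.mem_image.1 hz'
      obtain ⟨hyB, e, heF, hye⟩ := hYmem y (hY'Y hy)
      obtain ⟨hy0B, e0, he0F, hy0e⟩ := hYmem y0 (hY'Y hy0)
      refine ⟨⟨fun w => ?_, fun w => hdiff y hy y0 hy0 w⟩, e - e0, F.sub_mem heF he0F, ?_⟩
      · exact (MP_4d5ce1_nt.fa_sub_le w _ _).trans (max_le (hyB.1 w) (hy0B.1 w))
      · rw [hye, hy0e]; ring)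
    rw [Finset.card_image_of_injective _ (fun x y h => sub_left_injective h)] at hk
    have e1 : t * l1 / l1 = t := by field_simp
    rw [e1] at hk
    have h0 : (0 : ℝ) ≤ (Y.card : ℝ) := Nat.cast_nonneg _
    have hx0 : 0 < l2 / (t * l1) := div_pos hl2 htl
    have hx1 : 1 ≤ l2 / (t * l1) := by rw [le_div_iff₀ htl]; linarith
    have h1 : (Y.card : ℝ) ^ 2 ≤ (C1 * (1 + l2 / (t * l1)) ^ d * Y'.card) ^ 2 :=
      pow_le_pow_left₀ h0 hcard 2
    have h2 : (1 + l2 / (t * l1)) ^ d ≤ (2 * (l2 / (t * l1))) ^ d :=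
      pow_le_pow_left₀ (by positivity) (by linarith) _
    have h3 : (1 + t) ^ d ≤ (2 * t) ^ d := pow_le_pow_left₀ (by positivity) (by linarith) _
    have h4 : (C1 * (1 + l2 / (t * l1)) ^ d * Y'.card) ^ 2 ≤
        (C1 * (2 * (l2 / (t * l1))) ^ d) ^ 2 * (((N + 1) * C4) ^ 2 * (2 * t) ^ d) := by
      calc (C1 * (1 + l2 / (t * l1)) ^ d * Y'.card) ^ 2
          = (C1 * (1 + l2 / (t * l1)) ^ d) ^ 2 * (Y'.card : ℝ) ^ 2 := by ring
        _ ≤ (C1 * (2 * (l2 / (t * l1))) ^ d) ^ 2 * (((N + 1) * C4) ^ 2 * (2 * t) ^ d) := by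
            refine mul_le_mul ?_ (hk.trans ?_) (by positivity) (by positivity)
            · exact pow_le_pow_left₀ (by positivity)
                (mul_le_mul_of_nonneg_left h2 (by linarith)) 2
            · exact mul_le_mul_of_nonneg_left h3 (by positivity)
    have h5 : (C1 * (2 * (l2 / (t * l1))) ^ d) ^ 2 * (((N + 1) * C4) ^ 2 * (2 * t) ^ d) =
        (C1 * ((N + 1) * C4)) ^ 2 * 2 ^ (3 * d) * ((l2 / l1) ^ (2 * d) * (t ^ d)⁻¹) := by
      have e2 : l2 / (t * l1) = (l2 / l1) * t⁻¹ := by field_simp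
      rw [e2]
      have e3 : t ^ d ≠ 0 := by positivity
      have e4 : (2 : ℝ) ^ (3 * d) = (2 ^ d) ^ 3 := by rw [← pow_mul, mul_comm]
      have e5 : (l2 / l1) ^ (2 * d) = ((l2 / l1) ^ d) ^ 2 := by rw [← pow_mul, mul_comm]
      have e6 : (2 * t) ^ d = 2 ^ d * t ^ d := mul_pow _ _ _
      have e7 : (2 * (l2 / l1 * t⁻¹)) ^ d = 2 ^ d * ((l2 / l1) ^ d * (t ^ d)⁻¹) := by
        rw [mul_pow, mul_pow, inv_pow]
      rw [e4, e5, e6, e7]
      generalize (l2 / l1) ^ d = X
      generalize (2 : ℝ) ^ d = Z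
      generalize t ^ d = T at e3
      field_simp
    rw [h5] at h4
    have h6 : (C1 * ((N + 1) * C4)) ^ 2 * 2 ^ (3 * d) * ((l2 / l1) ^ (2 * d) * (t ^ d)⁻¹) ≤
        (C1 * ((N + 1) * C4)) ^ 2 * 2 ^ (3 * D) *
          ((l2 / l1) ^ (2 * d) * (t ^ d)⁻¹ + (l2 / l1) ^ d) := by
      refine mul_le_mul (mul_le_mul_of_nonneg_left h2d (by positivity)) ?_
        (by positivity) (by positivity)
      have : 0 < (l2 / l1) ^ d := by positivity
      linarith
    linarith
  · -- all the elements are in small subfields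
    have hk := key l2 hl2 hcase.le Y hYmem
    have h2 : (1 + l2 / l1) ^ d ≤ (2 * (l2 / l1)) ^ d :=
      pow_le_pow_left₀ (by positivity) (by linarith) _
    have h3 : ((N + 1) * C4) ^ 2 * (1 + l2 / l1) ^ d ≤
        (C1 * ((N + 1) * C4)) ^ 2 * 2 ^ (3 * D) * ((l2 / l1) ^ d) := by
      have h4 : (2 : ℝ) ^ d ≤ 2 ^ (3 * D) := pow_le_pow_right₀ (by norm_num) (by omega)
      have h5 : ((N + 1) * C4) ^ 2 ≤ (C1 * ((N + 1) * C4)) ^ 2 := by
        refine pow_le_pow_left₀ (by positivity) ?_ 2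
        have : 0 ≤ ((N : ℝ) + 1) * C4 := by positivity
        nlinarith
      calc ((N + 1) * C4) ^ 2 * (1 + l2 / l1) ^ d
          ≤ ((N + 1) * C4) ^ 2 * (2 * (l2 / l1)) ^ d :=
            mul_le_mul_of_nonneg_left h2 (by positivity)
        _ = ((N + 1) * C4) ^ 2 * 2 ^ d * (l2 / l1) ^ d := by rw [mul_pow]; ring
        _ ≤ (C1 * ((N + 1) * C4)) ^ 2 * 2 ^ (3 * D) * ((l2 / l1) ^ d) := by
            refine mul_le_mul_of_nonneg_right ?_ (by positivity)
            exact mul_le_mul h5 h4 (by positivity) (by positivity)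
    have h7 : (C1 * ((N + 1) * C4)) ^ 2 * 2 ^ (3 * D) * ((l2 / l1) ^ d) ≤
        (C1 * ((N + 1) * C4)) ^ 2 * 2 ^ (3 * D) *
          ((l2 / l1) ^ (2 * d) * (t ^ d)⁻¹ + (l2 / l1) ^ d) := by
      refine mul_le_mul_of_nonneg_left ?_ hCpos.le
      have : 0 < (l2 / l1) ^ (2 * d) * (t ^ d)⁻¹ := by positivity
      linarith
    linarith

end Pool.Agent.Lib.MP_44a246_ntAL
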