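import Pool.Agent.Lib.MP_44a246_ntAL.EDefs
import Pool.Agent.Lib.MP_44a246_ntAL.AL2
import Pool.Agent.Lib.MP_44a246_ntAL.AL4
import Pool.Agent.Lib.MP_44a246_ntAL.EB1
import Pool.Agent.Lib.MP_44a246_ntAL.EB2

/-!
# EB3: the structure of a box which does not span the field
-/

set_option autoImplicit false

open NumberField IsDedekindDomain Height MvPolynomial
open Pool.Agent.Lib.MP_4d5ce1_nt (fa nv ordv)
open Pool.Agent.Lib.MP_44a246_ntNF
open Pool.Agent.Lib.MP_44a246_ntNU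

namespace Pool.Agent.Lib.MP_44a246_ntAL

universe u

private lemma eb3_i {N L l2 C1 : ℝ} {d k r D : ℕ} (hC1 : 1 ≤ C1) (hN : 0 ≤ N)
    (h0 : 0 < l2) (hl2 : l2 ≤ C1) (hk : k + 1 ≤ r) (hD : d * r ≤ D)
    (h : N * l2 ^ (d * k) ≤ C1 * L) :
    N ^ 2 * l2 ^ (2 * (d * (r - 1))) ≤ C1 ^ (2 + 2 * D) * L ^ 2 := by
  obtain ⟨j, rfl⟩ := Nat.exists_eq_add_of_le hk
  have h1 : (N * l2 ^ (d * k)) ^ 2 ≤ (C1 * L) ^ 2 := pow_le_pow_left₀ (by positivity) h 2
  have e1 : k + 1 + j - 1 = k + j := by omega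
  rw [e1]
  have h2 : l2 ^ (2 * (d * j)) ≤ C1 ^ (2 * D) := by
    calc l2 ^ (2 * (d * j)) ≤ C1 ^ (2 * (d * j)) := pow_le_pow_left₀ h0.le hl2 _
      _ ≤ C1 ^ (2 * D) := pow_le_pow_right₀ hC1 (by nlinarith)
  calc N ^ 2 * l2 ^ (2 * (d * (k + j))) = (N * l2 ^ (d * k)) ^ 2 * l2 ^ (2 * (d * j)) := by
        rw [mul_pow, ← pow_mul, mul_assoc, ← pow_add]
        congr 2
        ring
    _ ≤ (C1 * L) ^ 2 * C1 ^ (2 * D) := mul_le_mul h1 h2 (by positivity) (by positivity)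
    _ = C1 ^ (2 + 2 * D) * L ^ 2 := by rw [pow_add]; ring

private lemma eb3_ii {N L l1 l2 CA : ℝ} {d r : ℕ} (hr : 2 ≤ r) (h1 : 0 < l1)
    (h : N ^ 2 * l2 ^ (2 * (d * (r - 1))) ≤ CA * L ^ 2) :
    N ^ 2 * (l1 * l2) ^ (d * r) * l2 ^ (d * (r - 2)) ≤ CA * L ^ 2 * l1 ^ (d * r) := by
  obtain ⟨j, rfl⟩ := Nat.exists_eq_add_of_le hr
  have e1 : 2 + j - 1 = j + 1 := by omega
  have e2 : 2 + j - 2 = j := by omega
  rw [e1] at h
  rw [e2]
  calc N ^ 2 * (l1 * l2) ^ (d * (2 + j)) * l2 ^ (d * j)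
      = (N ^ 2 * l2 ^ (2 * (d * (j + 1)))) * l1 ^ (d * (2 + j)) := by
        have e3 : 2 * (d * (j + 1)) = d * (2 + j) + d * j := by ring
        rw [e3, pow_add, mul_pow]; ring
    _ ≤ CA * L ^ 2 * l1 ^ (d * (2 + j)) := mul_le_mul_of_nonneg_right h (by positivity)

/-- case (I): `3 f ≤ r` -/
private lemma eb3_I {N L l1 l2 CA CL C1 : ℝ} {d r f D : ℕ} (hr : 3 ≤ r) (hf : 3 * f ≤ r)
    (h1 : 0 < l1) (h11 : l1 ≤ 1) (h12 : l1 ≤ l2) (h2 : l2 ≤ C1) (hC1 : 1 ≤ C1)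
    (hD : d * r ≤ D) (hCA : 0 ≤ CA) (hL0 : 0 ≤ L)
    (hL : L ≤ CL * (l2 / l1) ^ (d * f))
    (h : N ^ 2 * (l1 * l2) ^ (d * r) * l2 ^ (d * (r - 2)) ≤ CA * L ^ 2 * l1 ^ (d * r)) :
    N ^ 2 * (l1 * l2) ^ (d * r) ≤ CA * CL ^ 2 * C1 ^ (2 * D) * l1 ^ d := by
  have h20 : 0 < l2 := h1.trans_le h12
  have hL2 : L ^ 2 * l1 ^ (2 * (d * f)) ≤ CL ^ 2 * l2 ^ (2 * (d * f)) := by
    have h3 : L * l1 ^ (d * f) ≤ CL * l2 ^ (d * f) := by
      have := mul_le_mul_of_nonneg_right hL (pow_nonneg h1.le (d * f))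
      rwa [mul_assoc, div_pow, div_mul_cancel₀ _ (pow_pos h1 _).ne'] at this
    calc L ^ 2 * l1 ^ (2 * (d * f)) = (L * l1 ^ (d * f)) ^ 2 := by
          rw [mul_pow, ← pow_mul]; congr 2; ring
      _ ≤ (CL * l2 ^ (d * f)) ^ 2 := pow_le_pow_left₀ (by positivity) h3 2
      _ = CL ^ 2 * l2 ^ (2 * (d * f)) := by rw [mul_pow, ← pow_mul]; congr 2; ring
  obtain ⟨s, hs⟩ : ∃ s, r = 2 * f + s := ⟨r - 2 * f, by omega⟩
  have hs1 : 1 ≤ s := by omega
  have hdd : d ≤ d * s := Nat.le_mul_of_pos_right _ hs1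
  have hfr : d * f ≤ d * r := Nat.mul_le_mul_left _ (by omega)
  have e1 : d * r = 2 * (d * f) + d * s := by rw [hs]; ring
  set X := N ^ 2 * (l1 * l2) ^ (d * r) with hX
  have hX0 : 0 ≤ X := by positivity
  have h4 : X * l2 ^ (d * (r - 2)) ≤ CA * CL ^ 2 * (l2 ^ (2 * (d * f)) * l1 ^ (d * s)) := by
    refine h.trans ?_
    rw [e1, pow_add]
    calc CA * L ^ 2 * (l1 ^ (2 * (d * f)) * l1 ^ (d * s))
        = CA * (L ^ 2 * l1 ^ (2 * (d * f))) * l1 ^ (d * s) := by ring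
      _ ≤ CA * (CL ^ 2 * l2 ^ (2 * (d * f))) * l1 ^ (d * s) :=
          mul_le_mul_of_nonneg_right (mul_le_mul_of_nonneg_left hL2 hCA) (by positivity)
      _ = _ := by ring
  have hC1' : (1 : ℝ) ≤ C1 ^ (2 * D) := one_le_pow₀ hC1
  have hcc : 0 ≤ CA * CL ^ 2 := by positivity
  rcases le_or_gt (d * (r - 2)) (2 * (d * f)) with hle | hlt
  · obtain ⟨j, hj⟩ := Nat.exists_eq_add_of_le hle
    have h5 : X ≤ CA * CL ^ 2 * (l2 ^ j * l1 ^ (d * s)) := by
      have h6 : X * l2 ^ (d * (r - 2)) ≤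
          CA * CL ^ 2 * (l2 ^ j * l1 ^ (d * s)) * l2 ^ (d * (r - 2)) := by
        refine h4.trans (le_of_eq ?_)
        rw [hj, pow_add]; ring
      exact le_of_mul_le_mul_right h6 (by positivity)
    refine h5.trans ?_
    have h7 : l2 ^ j ≤ C1 ^ (2 * D) :=
      (pow_le_pow_left₀ h20.le h2 _).trans (pow_le_pow_right₀ hC1 (by omega))
    have h8 : l1 ^ (d * s) ≤ l1 ^ d := pow_le_pow_of_le_one h1.le h11 hdd
    calc CA * CL ^ 2 * (l2 ^ j * l1 ^ (d * s)) ≤ CA * CL ^ 2 * (C1 ^ (2 * D) * l1 ^ d) :=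
          mul_le_mul_of_nonneg_left (mul_le_mul h7 h8 (by positivity) (by positivity)) hcc
      _ = _ := by ring
  · obtain ⟨j, hj⟩ := Nat.exists_eq_add_of_le hlt.le
    have h5 : X * l2 ^ j ≤ CA * CL ^ 2 * l1 ^ (d * s) := by
      have h6 : X * l2 ^ j * l2 ^ (2 * (d * f)) ≤
          CA * CL ^ 2 * l1 ^ (d * s) * l2 ^ (2 * (d * f)) := by
        calc X * l2 ^ j * l2 ^ (2 * (d * f)) = X * l2 ^ (d * (r - 2)) := by
              rw [hj, pow_add]; ring
          _ ≤ _ := h4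
          _ = _ := by ring
      exact le_of_mul_le_mul_right h6 (by positivity)
    have h9 : X * l1 ^ j ≤ CA * CL ^ 2 * l1 ^ (d * s) :=
      (mul_le_mul_of_nonneg_left (pow_le_pow_left₀ h1.le h12 _) hX0).trans h5
    have e5 : d * s = j + 2 * d := by
      have e6 : d * (r - 2) + 2 * d = d * r := by
        obtain ⟨q, rfl⟩ := Nat.exists_eq_add_of_le (show 2 ≤ r by omega)
        have : 2 + q - 2 = q := by omega
        rw [this]; ring
      omega
    have h10 : X ≤ CA * CL ^ 2 * l1 ^ (2 * d) := by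
      have h6 : X * l1 ^ j ≤ CA * CL ^ 2 * l1 ^ (2 * d) * l1 ^ j := by
        refine h9.trans (le_of_eq ?_)
        rw [e5, pow_add]; ring
      exact le_of_mul_le_mul_right h6 (by positivity)
    refine h10.trans ?_
    have h8 : l1 ^ (2 * d) ≤ l1 ^ d := pow_le_pow_of_le_one h1.le h11 (by omega)
    calc CA * CL ^ 2 * l1 ^ (2 * d) ≤ CA * CL ^ 2 * l1 ^ d :=
          mul_le_mul_of_nonneg_left h8 hcc
      _ ≤ CA * CL ^ 2 * C1 ^ (2 * D) * l1 ^ d := by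
          refine mul_le_mul_of_nonneg_right ?_ (by positivity)
          exact le_mul_of_one_le_right hcc hC1'

/-- case (II): `2 f = r`; `L ^ 2 ≤ Q (l2 / l1) ^ n` -/
private lemma eb3_II {N L l1 l2 CA Q : ℝ} {d r : ℕ} (hr : 2 ≤ r)
    (h1 : 0 < l1) (h20 : 0 < l2) (hCA : 0 ≤ CA)
    (hL : L ^ 2 ≤ Q * (l2 / l1) ^ (d * r))
    (h : N ^ 2 * (l1 * l2) ^ (d * r) * l2 ^ (d * (r - 2)) ≤ CA * L ^ 2 * l1 ^ (d * r)) :
    N ^ 2 * (l1 * l2) ^ (d * r) ≤ CA * Q * l2 ^ (2 * d) := by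
  have h3 : L ^ 2 * l1 ^ (d * r) ≤ Q * l2 ^ (d * r) := by
    have := mul_le_mul_of_nonneg_right hL (pow_nonneg h1.le (d * r))
    rwa [mul_assoc, div_pow, div_mul_cancel₀ _ (pow_pos h1 _).ne'] at this
  have e6 : d * r = 2 * d + d * (r - 2) := by
    obtain ⟨q, rfl⟩ := Nat.exists_eq_add_of_le hr
    have : 2 + q - 2 = q := by omega
    rw [this]; ring
  have h4 : N ^ 2 * (l1 * l2) ^ (d * r) * l2 ^ (d * (r - 2)) ≤
      CA * Q * l2 ^ (2 * d) * l2 ^ (d * (r - 2)) := by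
    refine h.trans ?_
    calc CA * L ^ 2 * l1 ^ (d * r) = CA * (L ^ 2 * l1 ^ (d * r)) := by ring
      _ ≤ CA * (Q * l2 ^ (d * r)) := mul_le_mul_of_nonneg_left h3 hCA
      _ = CA * Q * l2 ^ (2 * d) * l2 ^ (d * (r - 2)) := by
          conv_lhs => rw [e6]
          rw [pow_add]; ring
  exact le_of_mul_le_mul_right h4 (by positivity)

/-- `N l1 ^ n ≤ C` -/
private theorem eb3_N (D : ℕ) : ∃ C : ℝ, 1 ≤ C ∧ ∀ (E : Type u) [Field E] [NumberField E],
    Module.finrank ℚ E ≤ D → ∀ (a : HeightOneSpectrum (𝓞 E) → ℝ) (b : InfinitePlace E → ℝ),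
      Adm a b → ∀ l1 : ℝ, 0 < l1 → l1 ≤ 1 →
      (∀ y : E, y ≠ 0 → (∀ w, fa w y ≤ a w) → ∃ w : InfinitePlace E, l1 * b w ≤ w y) →
      ((Bx a b 1).ncard : ℝ) * l1 ^ Module.finrank ℚ E ≤ C := by
  obtain ⟨C, hC1, hC⟩ := ncard_growth.{u} D
  refine ⟨C * 3 ^ D, ?_, ?_⟩
  · have : (1 : ℝ) ≤ 3 ^ D := one_le_pow₀ (by norm_num)
    nlinarith
  intro E _ _ hD a b hab l1 h0 h1 hmin
  have hg := hC E hD a b hab 1 (l1 / 2) one_pos (by positivity)
  have hsub : Bx a b (l1 / 2) ⊆ {0} := by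
    intro y hy
    rw [Set.mem_singleton_iff]
    by_contra hne
    obtain ⟨w, hw⟩ := hmin y hne hy.1
    have h2 := hy.2 w
    have h3 := mul_pos h0 (hab.pos w)
    linarith
  have hc : (Bx a b (l1 / 2)).ncard ≤ 1 := by
    have := Set.ncard_le_ncard hsub (Set.finite_singleton 0)
    simpa using this
  have hc' : ((Bx a b (l1 / 2)).ncard : ℝ) ≤ 1 := by exact_mod_cast hc
  set n := Module.finrank ℚ E with hn
  have h4 : ((Bx a b 1).ncard : ℝ) ≤ C * (1 + 1 / (l1 / 2)) ^ n :=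
    hg.trans (by
      calc C * (1 + 1 / (l1 / 2)) ^ n * (Bx a b (l1 / 2)).ncard
          ≤ C * (1 + 1 / (l1 / 2)) ^ n * 1 := mul_le_mul_of_nonneg_left hc' (by positivity)
        _ = _ := mul_one _)
  have h5 : (1 + 1 / (l1 / 2)) * l1 ≤ 3 := by
    have : (1 + 1 / (l1 / 2)) * l1 = l1 + 2 := by field_simp
    rw [this]; linarith
  calc ((Bx a b 1).ncard : ℝ) * l1 ^ n ≤ C * (1 + 1 / (l1 / 2)) ^ n * l1 ^ n :=
        mul_le_mul_of_nonneg_right h4 (by positivity)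
    _ = C * ((1 + 1 / (l1 / 2)) * l1) ^ n := by rw [mul_assoc, ← mul_pow]
    _ ≤ C * 3 ^ n := mul_le_mul_of_nonneg_left (pow_le_pow_left₀ (by positivity) h5 _)
        (by linarith)
    _ ≤ C * 3 ^ D := mul_le_mul_of_nonneg_left (pow_le_pow_right₀ (by norm_num) hD)
        (by linarith)

/-- `L ≤ C (l2 / l1) ^ [F : ℚ]` -/
private theorem eb3_L (D : ℕ) : ∃ C : ℝ, 1 ≤ C ∧ ∀ (K E : Type u) [Field K] [NumberField K]
    [Field E] [NumberField E] [Algebra K E], Module.finrank ℚ E ≤ D →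
      ∀ (F : IntermediateField K E)
      (a : HeightOneSpectrum (𝓞 E) → ℝ) (b : InfinitePlace E → ℝ), Adm a b →
      ∀ u : E, u ≠ 0 → ∀ l1 l2 : ℝ, 0 < l1 → l1 ≤ l2 →
      (∀ z : E, z ≠ 0 → (∀ w, fa w z ≤ a w) → ∃ w : InfinitePlace E, l1 * b w ≤ w z) →
      (lineN a b u F l2 : ℝ) ≤ C * (l2 / l1) ^ Module.finrank ℚ F := by
  obtain ⟨C, hC1, hC⟩ := subline.{u} D
  refine ⟨C * 2 ^ D, ?_, ?_⟩
  · have : (1 : ℝ) ≤ 2 ^ D := one_le_pow₀ (by norm_num)
    nlinarith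
  intro K E _ _ _ _ _ hD F a b hab u hu l1 l2 h0 h12 hmin
  have h2 : 0 < l2 := h0.trans_le h12
  have hfin : {y : E | y ∈ Bx a b l2 ∧ ∃ e ∈ F, y = u * e}.Finite :=
    (box_finite hab l2).subset fun y hy => hy.1
  have h3 := hC K E hD F a b hab u hu l1 l2 h0 h2 hmin hfin.toFinset (fun y hy => by
    simpa using hy)
  have h4 : (lineN a b u F l2 : ℝ) ≤ C * (1 + l2 / l1) ^ Module.finrank ℚ F := by
    unfold lineN
    rw [Set.ncard_eq_toFinset_card _ hfin]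
    exact h3
  have hFE : Module.finrank ℚ F ≤ Module.finrank ℚ E := by
    let f : F →ₗ[ℚ] E := (algebraMap F E).toRatAlgHom.toLinearMap
    exact LinearMap.finrank_le_finrank_of_injective (f := f)
      (by intro x y h; exact (algebraMap F E).injective h)
  have h5 : 1 ≤ l2 / l1 := (one_le_div h0).2 h12
  refine h4.trans ?_
  calc C * (1 + l2 / l1) ^ Module.finrank ℚ F ≤ C * (2 * (l2 / l1)) ^ Module.finrank ℚ F :=
        mul_le_mul_of_nonneg_left (pow_le_pow_left₀ (by positivity) (by linarith) _)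
          (by linarith)
    _ = C * 2 ^ Module.finrank ℚ F * (l2 / l1) ^ Module.finrank ℚ F := by
        rw [mul_pow, mul_assoc]
    _ ≤ C * 2 ^ D * (l2 / l1) ^ Module.finrank ℚ F := by
        refine mul_le_mul_of_nonneg_right (mul_le_mul_of_nonneg_left ?_ (by linarith))
          (by positivity)
        exact pow_le_pow_right₀ (by norm_num) (hFE.trans hD)

private lemma eb3_IIc {B e κ κ2 C2 CN x : ℝ} {φ : ℕ} (hB : 1 ≤ B) (hκ : 0 ≤ κ) (hφ : 1 ≤ φ)
    (hC2 : 1 ≤ C2) (hCN : 1 ≤ CN) (hx0 : 0 < x)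
    (hx : B ^ (3 * e / 4) ≤ CN * x ^ (2 * φ)) (h1 : 2 * C2 ≤ B ^ (κ - 2 * κ2))
    (h2 : 4 * C2 ^ 2 * CN ≤ B ^ (e / 2)) (h4 : 4 * κ2 ≤ e / 4) :
    C2 * (x ^ (2 * φ) * ((B ^ κ) ^ φ)⁻¹ + x ^ φ) ≤ x ^ (2 * φ) * B ^ (-(2 * κ2)) := by
  have hB0 : 0 < B := by linarith
  have hxn : x ^ (2 * φ) = (x ^ φ) ^ 2 := by rw [← pow_mul]; congr 1; ring
  have hxp : 0 < x ^ φ := by positivity
  -- first summand
  have ht1 : (1 : ℝ) ≤ B ^ κ := Real.one_le_rpow hB hκ
  have ht : B ^ κ ≤ (B ^ κ) ^ φ := le_self_pow₀ ht1 (by omega)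
  have h5 : ((B ^ κ) ^ φ)⁻¹ ≤ B ^ (-κ) := by
    rw [Real.rpow_neg hB0.le]
    exact inv_anti₀ (by positivity) ht
  have h6 : 2 * C2 * B ^ (-κ) ≤ B ^ (-(2 * κ2)) := by
    have h7 := mul_le_mul_of_nonneg_right h1 (Real.rpow_nonneg hB0.le (-κ))
    rw [← Real.rpow_add hB0] at h7
    have e1 : κ - 2 * κ2 + -κ = -(2 * κ2) := by ring
    rwa [e1] at h7
  have h8 : C2 * (x ^ (2 * φ) * ((B ^ κ) ^ φ)⁻¹) ≤ x ^ (2 * φ) * B ^ (-(2 * κ2)) / 2 := by
    have h9 : C2 * ((B ^ κ) ^ φ)⁻¹ ≤ B ^ (-(2 * κ2)) / 2 := by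
      have := mul_le_mul_of_nonneg_left h5 (show 0 ≤ C2 by linarith)
      linarith
    have := mul_le_mul_of_nonneg_left h9 (show 0 ≤ x ^ (2 * φ) by positivity)
    linarith [this]
  -- second summand
  have h10 : 4 * C2 ^ 2 * B ^ (4 * κ2) ≤ x ^ (2 * φ) := by
    have h11 : 4 * C2 ^ 2 * CN * B ^ (4 * κ2) ≤ CN * x ^ (2 * φ) := by
      calc 4 * C2 ^ 2 * CN * B ^ (4 * κ2) ≤ B ^ (e / 2) * B ^ (e / 4) :=
            mul_le_mul h2 (Real.rpow_le_rpow_of_exponent_le hB h4) (by positivity)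
              (by positivity)
        _ = B ^ (3 * e / 4) := by
            rw [← Real.rpow_add hB0]; congr 1; ring
        _ ≤ _ := hx
    have h12 : CN * (4 * C2 ^ 2 * B ^ (4 * κ2)) ≤ CN * x ^ (2 * φ) := by linarith
    exact le_of_mul_le_mul_left h12 (by linarith)
  have h13 : 2 * C2 * B ^ (2 * κ2) ≤ x ^ φ := by
    have h14 : (2 * C2 * B ^ (2 * κ2)) ^ 2 ≤ (x ^ φ) ^ 2 := by
      rw [← hxn]
      refine le_trans (le_of_eq ?_) h10
      have : B ^ (4 * κ2) = (B ^ (2 * κ2)) ^ 2 := by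
        rw [← Real.rpow_natCast, ← Real.rpow_mul hB0.le]; congr 1; push_cast; ring
      rw [this]; ring
    exact (pow_le_pow_iff_left₀ (by positivity) hxp.le (by norm_num)).1 h14
  have h15 : C2 * x ^ φ ≤ x ^ (2 * φ) * B ^ (-(2 * κ2)) / 2 := by
    have h16 : 2 * C2 ≤ x ^ φ * B ^ (-(2 * κ2)) := by
      have h17 := mul_le_mul_of_nonneg_right h13 (Real.rpow_nonneg hB0.le (-(2 * κ2)))
      rw [mul_assoc, ← Real.rpow_add hB0, add_neg_cancel, Real.rpow_zero, mul_one] at h17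
      exact h17
    have h18 := mul_le_mul_of_nonneg_left h16 hxp.le
    rw [hxn]
    linarith [h18]
  rw [mul_add]
  linarith

/-- EB3 : the structure of a box which does not span the field -/
theorem structure_mid (r m D : ℕ) (hr : 3 ≤ r) (e κ : ℝ) (he : 0 < e) (hκ : 0 < κ) :
    ∃ c C : ℝ, 0 < c ∧ 1 ≤ C ∧ ∀ (K E : Type u) [Field K] [NumberField K] [Field E]
      [NumberField E] [Algebra K E], Module.finrank ℚ E ≤ D → Module.finrank K E = r →
      ∀ (a : HeightOneSpectrum (𝓞 E) → ℝ) (b : InfinitePlace E → ℝ), Adm a b →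
      Submodule.span K (Bx a b 1) ≠ ⊤ → ∀ x : Fin m → E, (∀ i, x i ∈ Bx a b 1) →
        IntermediateField.adjoin K {z : E | ∃ i k, z = x i / x k} = ⊤ → ∀ B : ℝ, 1 ≤ B →
        B ^ e ≤ (Bx a b 1).ncard →
        ∃ (u z : E) (l1 l2 : ℝ), 0 < l1 ∧ l1 ≤ 1 ∧ l1 ≤ l2 ∧ l2 ≤ C ∧ u ≠ 0 ∧ u ∈ Bx a b l1 ∧
          z ∈ Bx a b l2 ∧ IntermediateField.adjoin K {z / u} = ⊤ ∧
          (((Bx a b 1).ncard : ℝ) ^ 2 * (l1 * l2) ^ Module.finrank ℚ E ≤ C * B ^ (-c) ∨
            ∃ (F : IntermediateField K E) (g : E), 2 * Module.finrank K F = r ∧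
              IntermediateField.adjoin K {g} = F ∧ u * g ∈ Bx a b (B ^ κ * l1) ∧
              ((Bx a b 1).ncard : ℝ) ^ 2 * l1 ^ Module.finrank ℚ E ≤ C * B ^ κ) := by
  obtain ⟨C1, hC1, hG⟩ := gen_pair2.{u} r m D (by omega)
  obtain ⟨C2, hC2, hS⟩ := sub_gen.{u} r D C1 hC1
  obtain ⟨CN, hCN, hNb⟩ := eb3_N.{u} D
  obtain ⟨CL, hCL, hLb⟩ := eb3_L.{u} D
  have hD1 : (0 : ℝ) < (D : ℝ) + 1 := by positivity
  obtain ⟨κ1, hκ1⟩ : ∃ κ1 : ℝ, κ1 = min (κ / (D + 1)) (e / (4 * (D + 1))) := ⟨_, rfl⟩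
  obtain ⟨κ2, hκ2⟩ : ∃ κ2 : ℝ, κ2 = min κ e / 16 := ⟨_, rfl⟩
  have hκ1p : 0 < κ1 := by rw [hκ1]; exact lt_min (by positivity) (by positivity)
  have hκ2p : 0 < κ2 := by rw [hκ2]; exact div_pos (lt_min hκ he) (by norm_num)
  have hκ1a : κ1 * D ≤ κ := by
    have h1 : κ1 ≤ κ / (D + 1) := by rw [hκ1]; exact min_le_left _ _
    rw [le_div_iff₀ hD1] at h1
    nlinarith
  have hκ1b : κ1 * D ≤ e / 4 := by
    have h1 : κ1 ≤ e / (4 * (D + 1)) := by rw [hκ1]; exact min_le_right _ _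
    rw [le_div_iff₀ (by positivity)] at h1
    nlinarith
  have hκ2a : 16 * κ2 ≤ κ := by
    have := min_le_left κ e
    rw [hκ2]; linarith
  have hκ2b : 16 * κ2 ≤ e := by
    have := min_le_right κ e
    rw [hκ2]; linarith
  have hr0 : (0 : ℝ) < r := by exact_mod_cast (show 0 < r by omega)
  obtain ⟨c, hc⟩ : ∃ c : ℝ, c = min (e / r) (min κ1 κ2) := ⟨_, rfl⟩
  have hcp : 0 < c := by rw [hc]; exact lt_min (by positivity) (lt_min hκ1p hκ2p)
  have hc1 : c ≤ e / r := by rw [hc]; exact min_le_left _ _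
  have hc2 : c ≤ κ1 := by rw [hc]; exact (min_le_right _ _).trans (min_le_left _ _)
  have hc3 : c ≤ κ2 := by rw [hc]; exact (min_le_right _ _).trans (min_le_right _ _)
  -- the threshold
  obtain ⟨B0, hB01, hB0⟩ : ∃ B0 : ℝ, 1 ≤ B0 ∧ ∀ B : ℝ, B0 ≤ B →
      2 * C2 ≤ B ^ (κ - 2 * κ2) ∧ 4 * C2 ^ 2 * CN ≤ B ^ (e / 2) := by
    have t1 := (tendsto_rpow_atTop (show 0 < κ - 2 * κ2 by linarith)).eventually_ge_atTop
      (2 * C2)
    have t2 := (tendsto_rpow_atTop (show 0 < e / 2 by linarith)).eventually_ge_atTop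
      (4 * C2 ^ 2 * CN)
    obtain ⟨B0, h⟩ := Filter.eventually_atTop.1 (t1.and t2)
    exact ⟨max B0 1, le_max_right _ _, fun B hB => h B ((le_max_left _ _).trans hB)⟩
  obtain ⟨CA, hCA⟩ : ∃ CA : ℝ, CA = C1 ^ (2 + 2 * D) := ⟨_, rfl⟩
  have hCA1 : C1 ≤ CA := by
    rw [hCA]; exact le_self_pow₀ hC1 (by omega)
  have hCA0 : 1 ≤ CA := hC1.trans hCA1
  obtain ⟨Cg, hCg⟩ : ∃ Cg : ℝ, Cg = CA * CL ^ 2 * C1 ^ (2 * D) := ⟨_, rfl⟩
  have hCL2 : (1 : ℝ) ≤ CL ^ 2 := one_le_pow₀ hCL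
  have hC1D : (1 : ℝ) ≤ C1 ^ (2 * D) := one_le_pow₀ hC1
  have hCg1 : CA ≤ Cg := by
    rw [hCg, mul_assoc]
    exact le_mul_of_one_le_right (by linarith) (by nlinarith)
  have hB0c : (1 : ℝ) ≤ B0 ^ c := Real.one_le_rpow hB01 hcp.le
  obtain ⟨C, hC⟩ : ∃ C : ℝ, C = Cg * CN * B0 ^ c := ⟨_, rfl⟩
  have hCC : Cg * CN ≤ C := by
    rw [hC]; exact le_mul_of_one_le_right (mul_nonneg (by linarith) (by linarith)) hB0c
  have hCgC : Cg ≤ C := le_trans (le_mul_of_one_le_right (by linarith) hCN) hCC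
  refine ⟨c, C, hcp, by linarith, ?_⟩
  intro K E _ _ _ _ _ hED hKE a b hab hspan x hx hadj B hB hN
  obtain ⟨u, z, l1, l2, F, hl1, hl11, hl12, hl2C, hu, huB, hzB, hgen, hFtop, hmin, hmain⟩ :=
    hG K E hED hKE a b hab x hx hadj
  refine ⟨u, z, l1, l2, hl1, hl11, hl12, hl2C.trans (by linarith), hu, huB, hzB, hgen, ?_⟩
  have hB0' : 0 < B := by linarith
  have hl2 : 0 < l2 := hl1.trans_le hl12
  obtain ⟨d, hd⟩ : ∃ d : ℕ, d = Module.finrank ℚ K := ⟨_, rfl⟩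
  have hd1 : 1 ≤ d := by rw [hd]; exact Module.finrank_pos
  have hnE : Module.finrank ℚ E = d * r := by
    rw [← Module.finrank_mul_finrank ℚ K E, hKE, hd]
  have hdD : d * r ≤ D := by rw [← hnE]; exact hED
  have hFQ : Module.finrank ℚ F = d * Module.finrank K F := by
    rw [← Module.finrank_mul_finrank ℚ K F, hd]
  obtain ⟨f, hf⟩ : ∃ f : ℕ, f = Module.finrank K F := ⟨_, rfl⟩
  have hfg : f * Module.finrank F E = r := by
    rw [hf, Module.finrank_mul_finrank K F E, hKE]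
  have hg1 : Module.finrank F E ≠ 1 := fun h =>
    hFtop (IntermediateField.finrank_eq_one_iff_eq_top.1 h)
  have hf0 : 1 ≤ f := by
    rw [hf]; exact Module.finrank_pos
  have hk : Module.finrank K (Submodule.span K (Bx a b 1)) + 1 ≤ r := by
    have := Submodule.finrank_lt hspan
    omega
  set N : ℝ := ((Bx a b 1).ncard : ℝ) with hNdef
  have hN0 : 0 ≤ N := by positivity
  set L : ℝ := (lineN a b u F l2 : ℝ) with hLdef
  have hL0 : 0 ≤ L := by positivity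
  have hLle : L ≤ CL * (l2 / l1) ^ (d * f) := by
    have := hLb K E hED F a b hab u hu l1 l2 hl1 hl12 hmin
    rwa [hFQ, ← hf] at this
  have hNl : N * l1 ^ (d * r) ≤ CN := by
    have := hNb E hED a b hab l1 hl1 hl11 hmin
    rwa [hnE] at this
  have hBe : 0 < B ^ e := by positivity
  have hl1n : l1 ^ (d * r) ≤ CN * B ^ (-e) := by
    have h1 : B ^ e * l1 ^ (d * r) ≤ CN :=
      (mul_le_mul_of_nonneg_right hN (by positivity)).trans hNl
    rw [Real.rpow_neg hB0'.le, ← div_eq_mul_inv, le_div_iff₀ hBe]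
    linarith
  have hi := eb3_i hC1 hN0 hl2 hl2C hk hdD (by rw [hd]; exact hmain)
  rw [← hCA] at hi
  have hii := eb3_ii (by omega : 2 ≤ r) hl1 hi
  have hBc : ∀ y : ℝ, c ≤ y → B ^ (-y) ≤ B ^ (-c) := fun y hy =>
    Real.rpow_le_rpow_of_exponent_le hB (by linarith)
  have hl2d : l2 ^ (2 * d) ≤ C1 ^ (2 * D) := by
    refine (pow_le_pow_left₀ hl2.le hl2C _).trans (pow_le_pow_right₀ hC1 ?_)
    have : d ≤ d * r := Nat.le_mul_of_pos_right _ (by omega)
    omega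
  rw [hnE]
  rcases lt_or_ge (Module.finrank F E) 3 with hg3 | hg3
  · -- `2 f = r`
    have hg2 : Module.finrank F E = 2 ∨ Module.finrank F E = 0 := by omega
    have hg2' : Module.finrank F E = 2 := by
      rcases hg2 with h | h
      · exact h
      · rw [h] at hfg; omega
    rw [hg2'] at hfg
    have hdf : d * r = 2 * (d * f) := by rw [← hfg]; ring
    have hL2 : L ^ 2 ≤ CL ^ 2 * (l2 / l1) ^ (d * r) := by
      rw [hdf]
      calc L ^ 2 ≤ (CL * (l2 / l1) ^ (d * f)) ^ 2 := pow_le_pow_left₀ hL0 hLle 2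
        _ = _ := by rw [mul_pow, ← pow_mul]; congr 2; ring
    have hX := eb3_II (by omega : 2 ≤ r) hl1 hl2 (by linarith) hL2 hii
    have hXg : N ^ 2 * (l1 * l2) ^ (d * r) ≤ Cg := by
      refine hX.trans ?_
      rw [hCg]
      exact mul_le_mul_of_nonneg_left hl2d (by positivity)
    by_cases ha : l2 ≤ B ^ (-κ1)
    · left
      have h1 : l2 ^ (2 * d) ≤ B ^ (-κ1) := by
        have h2 : B ^ (-κ1) ≤ 1 := Real.rpow_le_one_of_one_le_of_nonpos hB (by linarith)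
        have h3 : 0 ≤ B ^ (-κ1) := by positivity
        calc l2 ^ (2 * d) ≤ (B ^ (-κ1)) ^ (2 * d) := pow_le_pow_left₀ hl2.le ha _
          _ ≤ B ^ (-κ1) := pow_le_of_le_one h3 h2 (by omega)
      calc N ^ 2 * (l1 * l2) ^ (d * r) ≤ CA * CL ^ 2 * l2 ^ (2 * d) := hX
        _ ≤ CA * CL ^ 2 * B ^ (-κ1) := mul_le_mul_of_nonneg_left h1 (by positivity)
        _ ≤ C * B ^ (-c) := by
            refine mul_le_mul ?_ (hBc κ1 hc2) (by positivity) (by linarith)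
            refine le_trans ?_ hCgC
            rw [hCg]
            exact le_mul_of_one_le_right (by positivity) hC1D
    · rw [not_le] at ha
      by_cases hb : L ^ 2 ≤ B ^ (-(2 * κ2)) * (l2 / l1) ^ (d * r)
      · left
        have hY := eb3_II (by omega : 2 ≤ r) hl1 hl2 (by linarith) hb hii
        calc N ^ 2 * (l1 * l2) ^ (d * r) ≤ CA * B ^ (-(2 * κ2)) * l2 ^ (2 * d) := hY
          _ = CA * l2 ^ (2 * d) * B ^ (-(2 * κ2)) := by ring
          _ ≤ C * B ^ (-c) := by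
              refine mul_le_mul ?_ (hBc (2 * κ2) (by linarith)) (by positivity) (by linarith)
              refine le_trans ?_ hCgC
              rw [hCg]
              calc CA * l2 ^ (2 * d) ≤ CA * C1 ^ (2 * D) :=
                    mul_le_mul_of_nonneg_left hl2d (by linarith)
                _ ≤ CA * CL ^ 2 * C1 ^ (2 * D) := by
                    refine mul_le_mul_of_nonneg_right ?_ (by linarith)
                    exact le_mul_of_one_le_right (by linarith) hCL2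
      · rw [not_le] at hb
        rcases lt_or_ge B B0 with hlt | hge
        · left
          have h1 : (1 : ℝ) ≤ B0 ^ c * B ^ (-c) := by
            rw [Real.rpow_neg hB0'.le, ← div_eq_mul_inv, one_le_div (by positivity)]
            exact Real.rpow_le_rpow hB0'.le hlt.le hcp.le
          calc N ^ 2 * (l1 * l2) ^ (d * r) ≤ Cg := hXg
            _ ≤ Cg * CN := le_mul_of_one_le_right (by linarith) hCN
            _ ≤ Cg * CN * (B0 ^ c * B ^ (-c)) :=
                le_mul_of_one_le_right (mul_nonneg (by linarith) (by linarith)) h1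
            _ = C * B ^ (-c) := by rw [hC]; ring
        · right
          obtain ⟨hb1, hb2⟩ := hB0 B hge
          have hdr : ((d * r : ℕ) : ℝ) ≤ D := by exact_mod_cast hdD
          have hl2n : ∀ y : ℝ, κ1 * D ≤ y → B ^ (-y) ≤ l2 ^ (d * r) := by
            intro y hy
            have h1 : (B ^ (-κ1)) ^ (d * r) ≤ l2 ^ (d * r) :=
              pow_le_pow_left₀ (by positivity) ha.le _
            refine le_trans ?_ h1
            rw [← Real.rpow_natCast, ← Real.rpow_mul hB0'.le]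
            refine Real.rpow_le_rpow_of_exponent_le hB ?_
            nlinarith
          have hxn : B ^ (3 * e / 4) ≤ CN * (l2 / l1) ^ (2 * (d * f)) := by
            rw [← hdf, div_pow]
            have h1 : B ^ (-(e / 4)) ≤ l2 ^ (d * r) := hl2n _ hκ1b
            have hpos : 0 < l1 ^ (d * r) := by positivity
            rw [mul_div_assoc', le_div_iff₀ hpos]
            calc B ^ (3 * e / 4) * l1 ^ (d * r) ≤ B ^ (3 * e / 4) * (CN * B ^ (-e)) :=
                  mul_le_mul_of_nonneg_left hl1n (by positivity)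
              _ = CN * B ^ (-(e / 4)) := by
                  have : B ^ (3 * e / 4) * B ^ (-e) = B ^ (-(e / 4)) := by
                    rw [← Real.rpow_add hB0']; congr 1; ring
                  rw [← this]; ring
              _ ≤ CN * l2 ^ (d * r) := mul_le_mul_of_nonneg_left h1 (by linarith)
          have hx0 : 0 < l2 / l1 := div_pos hl2 hl1
          have hdf1 : 1 ≤ d * f := Nat.mul_pos hd1 hf0
          have hcond := eb3_IIc (φ := d * f) hB hκ.le hdf1 hC2 hCN hx0 hxn hb1 hb2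
            (by linarith)
          obtain ⟨g, hgF, hug⟩ := hS K E hED hKE F a b hab u l1 l2 (B ^ κ) hl1 hl12 hl2C
            (Real.one_le_rpow hB hκ.le) hu hmin (by
              rw [hFQ, ← hf]
              refine lt_of_le_of_lt hcond ?_
              rw [← hdf]
              linarith [hb])
          refine ⟨F, g, by rw [← hf]; omega, hgF, hug, ?_⟩
          have h1 : B ^ (-κ) ≤ l2 ^ (d * r) := hl2n _ hκ1a
          have h2 : N ^ 2 * l1 ^ (d * r) * B ^ (-κ) ≤ Cg := by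
            calc N ^ 2 * l1 ^ (d * r) * B ^ (-κ) ≤ N ^ 2 * l1 ^ (d * r) * l2 ^ (d * r) :=
                  mul_le_mul_of_nonneg_left h1 (by positivity)
              _ = N ^ 2 * (l1 * l2) ^ (d * r) := by rw [mul_pow]; ring
              _ ≤ Cg := hXg
          have hBk : 0 < B ^ κ := by positivity
          rw [Real.rpow_neg hB0'.le, ← div_eq_mul_inv, div_le_iff₀ hBk] at h2
          exact h2.trans (mul_le_mul_of_nonneg_right hCgC hBk.le)
  · -- `3 f ≤ r`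
    left
    have hf3 : 3 * f ≤ r := by rw [← hfg]; nlinarith
    have hX := eb3_I hr hf3 hl1 hl11 hl12 hl2C hC1 hdD (by linarith) hL0 hLle hii
    rw [← hCg] at hX
    have h1 : l1 ^ d ≤ CN * B ^ (-(e / r)) := by
      have h2 : (l1 ^ d) ^ r ≤ (CN * B ^ (-(e / r))) ^ r := by
        rw [← pow_mul, mul_pow, ← Real.rpow_natCast (B ^ (-(e / r))) r,
          ← Real.rpow_mul hB0'.le]
        have e1 : -(e / r) * (r : ℝ) = -e := by field_simp
        rw [e1]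
        refine hl1n.trans (mul_le_mul_of_nonneg_right ?_ (by positivity))
        exact le_self_pow₀ hCN (by omega)
      exact (pow_le_pow_iff_left₀ (by positivity) (by positivity) (by omega)).1 h2
    calc N ^ 2 * (l1 * l2) ^ (d * r) ≤ Cg * l1 ^ d := hX
      _ ≤ Cg * (CN * B ^ (-(e / r))) := mul_le_mul_of_nonneg_left h1 (by linarith)
      _ = Cg * CN * B ^ (-(e / r)) := by ring
      _ ≤ C * B ^ (-c) := mul_le_mul hCC (hBc _ hc1) (by positivity) (by linarith)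

end Pool.Agent.Lib.MP_44a246_ntAL
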