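import Pool.Agent.Lib.MP_44a246_ntAL.EDefs
import Pool.Agent.Lib.MP_44a246_ntAL.AL0
import Pool.Agent.Lib.MP_44a246_ntAL.AL2
import Pool.Agent.Lib.MP_44a246_ntAL.EA2
import Pool.Agent.Lib.MP_44a246_ntAL.EA4
import Pool.Agent.Lib.MP_44a246_ntSF.SF7

/-!
# Boxes which span the field
-/

set_option autoImplicit false

open NumberField IsDedekindDomain Height
open Pool.Agent.Lib.MP_4d5ce1_nt (fa nv ordv)
open Pool.Agent.Lib.MP_44a246_ntNF
open Pool.Agent.Lib.MP_44a246_ntNU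

namespace Pool.Agent.Lib.MP_44a246_ntAL

universe u

namespace EC1

/-- A small nonzero element of a box with many elements. -/
theorem exists_small (D : ℕ) (hD : 1 ≤ D) : ∃ C : ℝ, 1 ≤ C ∧ ∀ F : ℝ, 1 ≤ F →
    ∃ l : ℝ, 0 < l ∧ l ≤ C ∧ l ^ D = C / F ∧ ∀ (E : Type u) [Field E] [NumberField E],
      Module.finrank ℚ E = D → ∀ {m : ℕ} (x : Fin m → E), x ≠ 0 →
        F ≤ (Bx (tf x) (ti x) 1).ncard → ∃ u : E, u ≠ 0 ∧ u ∈ Bx (tf x) (ti x) l := by
  obtain ⟨C, hC1, hC⟩ := ncard_growth.{u} D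
  refine ⟨C * 2 ^ (D + 1), one_le_mul_of_one_le_of_one_le hC1 (one_le_pow₀ (by norm_num)),
    fun F hF => ?_⟩
  obtain ⟨C₀, hC₀⟩ : ∃ C₀ : ℝ, C₀ = C * 2 ^ (D + 1) := ⟨_, rfl⟩
  rw [← hC₀]
  have hC₀1 : 1 ≤ C₀ := by
    rw [hC₀]; exact one_le_mul_of_one_le_of_one_le hC1 (one_le_pow₀ (by norm_num))
  have hF0 : 0 < F := by linarith
  have hq0 : 0 < C₀ / F := by positivity
  obtain ⟨l, hl⟩ : ∃ l : ℝ, l = (C₀ / F) ^ ((D : ℝ)⁻¹) := ⟨_, rfl⟩
  have hl0 : 0 < l := by rw [hl]; positivity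
  have hlD : l ^ D = C₀ / F := by
    rw [hl]; exact Real.rpow_inv_natCast_pow hq0.le (by omega)
  refine ⟨l, hl0, ?_, hlD, ?_⟩
  · by_contra hcon
    push Not at hcon
    have h1 : C₀ < l ^ D := by
      calc C₀ < l := hcon
        _ = l ^ 1 := (pow_one l).symm
        _ ≤ l ^ D := pow_le_pow_right₀ (by linarith) hD
    rw [hlD] at h1
    have h2 : C₀ / F ≤ C₀ := div_le_self (by linarith) hF
    linarith
  · intro E _ _ hED m x hx hcard
    obtain ⟨hadm, -⟩ := adm_tf x hx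
    by_cases hl1 : 1 ≤ l
    · obtain ⟨i₀, hi₀⟩ := Function.ne_iff.1 hx
      refine ⟨x i₀, hi₀, fun w => ?_, fun w => ?_⟩
      · exact le_ciSup (Set.finite_range fun i => fa w (x i)).bddAbove i₀
      · have h1 : w (x i₀) ≤ ti x w := le_ciSup (Set.finite_range fun i => w (x i)).bddAbove i₀
        have h2 : 0 < ti x w := hadm.pos w
        nlinarith
    · push Not at hl1
      by_contra hcon
      push Not at hcon
      have hsub : Bx (tf x) (ti x) l ⊆ {0} := by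
        intro y hy
        by_contra hy0
        exact hcon y hy0 hy
      have hle : (Bx (tf x) (ti x) l).ncard ≤ 1 := by
        calc (Bx (tf x) (ti x) l).ncard ≤ ({0} : Set E).ncard :=
              Set.ncard_le_ncard hsub (Set.finite_singleton 0)
          _ = 1 := Set.ncard_singleton 0
      have h1 := hC E hED.le (tf x) (ti x) hadm 1 l one_pos hl0
      rw [hED] at h1
      have h2 : (1 + 1 / l) ^ D ≤ 2 ^ D / l ^ D := by
        rw [← div_pow]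
        refine pow_le_pow_left₀ (by positivity) ?_ D
        rw [le_div_iff₀ hl0, add_mul, div_mul_cancel₀ _ hl0.ne']
        linarith
      have hleR : ((Bx (tf x) (ti x) l).ncard : ℝ) ≤ 1 := by exact_mod_cast hle
      have h3 : F ≤ C * (2 ^ D / l ^ D) * 1 := by
        refine hcard.trans (h1.trans ?_)
        refine mul_le_mul ?_ hleR (by positivity) (by positivity)
        exact mul_le_mul_of_nonneg_left h2 (by linarith)
      rw [hlD, mul_one] at h3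
      have h4 : C * (2 ^ D / (C₀ / F)) = F / 2 := by
        rw [hC₀, pow_succ]
        field_simp
      rw [h4] at h3
      linarith

end EC1

open EC1 in
/-- EC1 : boxes which span the field -/
theorem mid_span {K : Type u} [Field K] [NumberField K] (r m : ℕ) (hr : 2 ≤ r) (η : ℝ)
    (hη : 0 < η) : ∃ C : ℝ, 1 ≤ C ∧ ∀ B : ℝ, 1 ≤ B → ∀ F : ℝ, 1 ≤ F → ∀ X : Finset (Vc K m),
      (∀ s ∈ X, Gd r B s ∧ F ≤ Phi s ∧ ∃ _ : NumberField s.1,
        Submodule.span K (Bx (tf s.2) (ti s.2) 1) = ⊤) →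
      ∃ R ⊆ X, (∀ s ∈ X, ∃ t ∈ R, SimV t s) ∧
        (R.card : ℝ) ≤ C * B ^ η * (B / F) ^ (((r : ℝ) + 4) / 2) := by
  classical
  obtain ⟨D, hDdef⟩ : ∃ D : ℕ, D = r * Module.finrank ℚ K := ⟨_, rfl⟩
  have hd : 0 < Module.finrank ℚ K := Module.finrank_pos
  have hD : 1 ≤ D := by
    rw [hDdef]; exact Nat.mul_pos (by omega) hd
  obtain ⟨C₀, hC₀1, hC₀⟩ := exists_small.{u} D hD
  obtain ⟨C₁, hC₁1, hC₁⟩ := field_classes (K := K) r m (by omega) C₀ η hC₀1 hη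
  obtain ⟨C₂, hC₂1, hC₂⟩ := box_disc (K := K) r
  obtain ⟨C₃, hC₃0, hC₃⟩ :=
    Pool.Agent.Lib.MP_44a246_ntSF.schmidt.{u} r (Module.finrank ℚ K) (by omega)
  obtain ⟨C, hC⟩ : ∃ C : ℝ, C = C₃ * C₂ ^ (((r : ℝ) + 2) / 2) * (C₁ * C₀) := ⟨_, rfl⟩
  refine ⟨max C 1, le_max_right _ _, ?_⟩
  intro B hB F hF X hX
  have hB0 : 0 < B := by linarith
  have hF0 : 0 < F := by linarith
  rcases X.eq_empty_or_nonempty with rfl | hne
  · refine ⟨∅, subset_rfl, by simp, ?_⟩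
    simp only [Finset.card_empty, Nat.cast_zero]
    positivity
  obtain ⟨l, hl0, hlC, hlD, hl⟩ := hC₀ F hF
  -- the fields
  let Es : Finset (IntermediateField K (AlgebraicClosure K)) := X.image fun s => s.1
  have hdisc : ∀ s ∈ X, ∃ _ : NumberField s.1, Module.finrank K s.1 = r ∧
      √|((discr s.1 : ℤ) : ℝ)| ≤ C₂ * B / F := by
    intro s hs
    obtain ⟨⟨hn, hfr, hne0, -, hht⟩, hFs, ⟨hn', hsp⟩⟩ := hX s hs
    refine ⟨hn, hfr, ?_⟩
    obtain ⟨hadm, hhb⟩ := adm_tf s.2 hne0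
    have h1 := hC₂ s.1 hfr (tf s.2) (ti s.2) hadm hsp
    rw [hhb] at h1
    have h2 : (Phi s : ℝ) = ((Bx (tf s.2) (ti s.2) 1).ncard : ℝ) := by
      unfold Phi
      rw [dif_pos hn]
    rw [← h2] at h1
    rw [le_div_iff₀ hF0]
    calc √|((discr s.1 : ℤ) : ℝ)| * F ≤ √|((discr s.1 : ℤ) : ℝ)| * Phi s :=
          mul_le_mul_of_nonneg_left hFs (Real.sqrt_nonneg _)
      _ = Phi s * √|((discr s.1 : ℤ) : ℝ)| := mul_comm _ _
      _ ≤ C₂ * mulHeight s.2 := h1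
      _ ≤ C₂ * B := mul_le_mul_of_nonneg_left hht (by linarith)
  have hX1 : 1 ≤ (C₂ * B / F) ^ 2 := by
    obtain ⟨s, hs⟩ := hne
    obtain ⟨hn, -, h1⟩ := hdisc s hs
    have h2 : (1 : ℝ) ≤ |((discr s.1 : ℤ) : ℝ)| := by
      have h3 : (1 : ℤ) ≤ |discr s.1| := Int.one_le_abs (NumberField.discr_ne_zero _)
      exact_mod_cast h3
    have h3 : (1 : ℝ) ≤ √|((discr s.1 : ℤ) : ℝ)| := Real.one_le_sqrt.mpr h2
    exact one_le_pow₀ (h3.trans h1)
  have hEs : (Es.card : ℝ) ≤ C₃ * ((C₂ * B / F) ^ 2) ^ (((r : ℝ) + 2) / 4) := by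
    refine hC₃ K rfl (AlgebraicClosure K) _ hX1 Es ?_
    intro E hE
    obtain ⟨s, hs, rfl⟩ := Finset.mem_image.mp hE
    obtain ⟨hn, hfr, h1⟩ := hdisc s hs
    refine ⟨hfr, hn, ?_⟩
    rw [← Real.sqrt_le_left (by positivity)]
    exact h1
  have hclass : ∀ E ∈ Es, ∃ R ⊆ X.filter (fun s => s.1 = E),
      (∀ s ∈ X.filter (fun s => s.1 = E), ∃ t ∈ R, SimV t s) ∧
        (R.card : ℝ) ≤ C₁ * B ^ η * (B * l ^ (r * Module.finrank ℚ K)) := by
    intro E _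
    refine hC₁ B hB l hl0 hlC E _ ?_
    intro s hs
    rw [Finset.mem_filter] at hs
    obtain ⟨hsX, hsE⟩ := hs
    obtain ⟨hG, hFs, -⟩ := hX s hsX
    refine ⟨hsE, hG, ?_⟩
    obtain ⟨hn, hfr, hne0, -, -⟩ := hG
    refine ⟨hn, ?_⟩
    have h2 : (Phi s : ℝ) = ((Bx (tf s.2) (ti s.2) 1).ncard : ℝ) := by
      unfold Phi
      rw [dif_pos hn]
    refine hl s.1 ?_ s.2 hne0 (h2 ▸ hFs)
    rw [hDdef, ← hfr, mul_comm]
    exact (Module.finrank_mul_finrank ℚ K s.1).symm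
  choose! R hRX hRS hRc using hclass
  refine ⟨Es.biUnion R, ?_, ?_, ?_⟩
  · intro s hs
    obtain ⟨E, hE, hsE⟩ := Finset.mem_biUnion.mp hs
    exact Finset.mem_of_mem_filter s (hRX E hE hsE)
  · intro s hs
    have hE : s.1 ∈ Es := Finset.mem_image_of_mem _ hs
    obtain ⟨t, ht, hts⟩ := hRS s.1 hE s (Finset.mem_filter.mpr ⟨hs, rfl⟩)
    exact ⟨t, Finset.mem_biUnion.mpr ⟨s.1, hE, ht⟩, hts⟩
  · have h1 : ((Es.biUnion R).card : ℝ) ≤
        Es.card * (C₁ * B ^ η * (B * l ^ (r * Module.finrank ℚ K))) := by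
      calc ((Es.biUnion R).card : ℝ) ≤ ((∑ E ∈ Es, (R E).card : ℕ) : ℝ) := by
            exact_mod_cast Finset.card_biUnion_le
        _ = ∑ E ∈ Es, ((R E).card : ℝ) := by push_cast; rfl
        _ ≤ ∑ _E ∈ Es, (C₁ * B ^ η * (B * l ^ (r * Module.finrank ℚ K))) :=
            Finset.sum_le_sum fun E hE => hRc E hE
        _ = _ := by rw [Finset.sum_const, nsmul_eq_mul]
    rw [← hDdef, hlD] at h1
    have hBF : 0 < B / F := by positivity
    have h2 : ((C₂ * B / F) ^ 2) ^ (((r : ℝ) + 2) / 4) =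
        C₂ ^ (((r : ℝ) + 2) / 2) * (B / F) ^ (((r : ℝ) + 2) / 2) := by
      rw [mul_div_assoc, ← Real.rpow_natCast (C₂ * (B / F)) 2, ← Real.rpow_mul (by positivity),
        ← Real.mul_rpow (by linarith) hBF.le]
      congr 1
      push_cast
      ring
    have h3 : (B / F) ^ (((r : ℝ) + 4) / 2) = (B / F) ^ (((r : ℝ) + 2) / 2) * (B / F) := by
      rw [← Real.rpow_add_one hBF.ne']
      congr 1
      ring
    calc ((Es.biUnion R).card : ℝ) ≤ Es.card * (C₁ * B ^ η * (B * (C₀ / F))) := h1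
      _ ≤ (C₃ * ((C₂ * B / F) ^ 2) ^ (((r : ℝ) + 2) / 4)) *
          (C₁ * B ^ η * (B * (C₀ / F))) := by
            refine mul_le_mul_of_nonneg_right hEs (by positivity)
      _ = C * B ^ η * (B / F) ^ (((r : ℝ) + 4) / 2) := by
            rw [h2, h3, hC]
            ring
      _ ≤ max C 1 * B ^ η * (B / F) ^ (((r : ℝ) + 4) / 2) := by
            refine mul_le_mul_of_nonneg_right ?_ (by positivity)
            exact mul_le_mul_of_nonneg_right (le_max_left _ _) (by positivity)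

end Pool.Agent.Lib.MP_44a246_ntAL
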