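import Pool.Agent.Lib.MP_44a246_ntAL.EDefs
import Pool.Agent.Lib.MP_44a246_ntAL.AL0
import Pool.Agent.Lib.MP_44a246_ntAL.EA7
import Pool.Agent.Lib.MP_44a246_ntAL.EA6
import Pool.Agent.Lib.MP_44a246_ntAL.EB3
import Pool.Agent.Lib.MP_44a246_ntAL.EA8
import Pool.Agent.Lib.MP_44a246_ntSR.SR1

/-!
# Boxes which do not span the field
-/

set_option autoImplicit false

open NumberField IsDedekindDomain Height
open Pool.Agent.Lib.MP_4d5ce1_nt (fa nv ordv)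
open Pool.Agent.Lib.MP_44a246_ntNF
open Pool.Agent.Lib.MP_44a246_ntNU

namespace Pool.Agent.Lib.MP_44a246_ntAL

universe u

namespace EC2

section heights

variable {E : Type*} [Field E] [NumberField E]

lemma hb_scale (a : HeightOneSpectrum (𝓞 E) → ℝ) (b : InfinitePlace E → ℝ) (s : ℝ) :
    hb a (fun w => s * b w) = s ^ Module.finrank ℚ E * hb a b := by
  unfold hb
  simp only [mul_pow]
  rw [Finset.prod_mul_distrib, Finset.prod_pow_eq_pow_sum, InfinitePlace.sum_mult_eq]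
  ring

/-- The height of a vector in a box. -/
lemma height_le {n : ℕ} (x : Fin n → E) (hx : x ≠ 0)
    {a : HeightOneSpectrum (𝓞 E) → ℝ} {b : InfinitePlace E → ℝ} (h : Adm a b) {s : ℝ}
    (hs : ∀ i, x i ∈ Bx a b s) : mulHeight x ≤ s ^ Module.finrank ℚ E * hb a b := by
  obtain ⟨i₀, hi₀⟩ := Function.ne_iff.1 hx
  have hne : Nonempty (Fin n) := ⟨i₀⟩
  obtain ⟨h1, h2⟩ := adm_tf x hx
  have hpos : ∀ w, 0 ≤ tf x w := fun w =>
    Real.iSup_nonneg fun i => Pool.Agent.Lib.MP_4d5ce1_nt.fa_nonneg w (x i)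
  rw [← h2, ← hb_scale a b s]
  unfold hb
  have e1 : ∏ᶠ w, tf x w ≤ ∏ᶠ w, a w :=
    finprod_le_finprod h1.fin hpos h.fin fun w => ciSup_le fun i => (hs i).1 w
  refine mul_le_mul e1 ?_ ?_ ((finprod_nonneg hpos).trans e1)
  · refine Finset.prod_le_prod (fun w _ => pow_nonneg (h1.pos w).le _) fun w _ => ?_
    exact pow_le_pow_left₀ (h1.pos w).le (ciSup_le fun i => (hs i).2 w) _
  · exact Finset.prod_nonneg fun w _ => pow_nonneg (h1.pos w).le _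

lemma mem_own {m : ℕ} (x : Fin m → E) (i : Fin m) : x i ∈ Bx (tf x) (ti x) 1 := by
  refine ⟨fun w => ?_, fun w => ?_⟩
  · exact le_ciSup (Set.finite_range fun i => fa w (x i)).bddAbove i
  · rw [one_mul]
    exact le_ciSup (Set.finite_range fun i => w (x i)).bddAbove i

lemma Bx_mono {a : HeightOneSpectrum (𝓞 E) → ℝ} {b : InfinitePlace E → ℝ} (hb' : ∀ w, 0 < b w)
    {s t : ℝ} (hst : s ≤ t) {z : E} (hz : z ∈ Bx a b s) : z ∈ Bx a b t :=
  ⟨hz.1, fun w => (hz.2 w).trans (mul_le_mul_of_nonneg_right hst (hb' w).le)⟩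

end heights

/-- Heights are invariant under isomorphisms. -/
lemma mulHeight_equiv {F G : Type*} [Field F] [NumberField F] [Field G] [NumberField G]
    {ι : Type*} [Finite ι] (e : F ≃+* G) (x : ι → F) : mulHeight (fun i => e (x i)) = mulHeight x := by
  let i1 : Algebra F G := e.toRingHom.toAlgebra
  have h1 : Module.finrank F G = 1 := by
    let l : F ≃ₗ[F] G :=
      { toFun := e
        invFun := e.symm
        left_inv := e.left_inv
        right_inv := e.right_inv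
        map_add' := map_add e
        map_smul' := fun a b => by
          simp only [smul_eq_mul, map_mul, RingHom.id_apply]
          rfl }
    rw [← LinearEquiv.finrank_eq l, Module.finrank_self]
  have h2 := Pool.Agent.Lib.MP_44a246_ntSR.mulHeight_ext (K := F) (L := G) x
  rw [h1, pow_one] at h2
  exact h2

/-- The field with a small generator, inside the algebraic closure. -/
lemma sub_lift {K : Type u} [Field K] [NumberField K]
    (E : IntermediateField K (AlgebraicClosure K)) [NumberField E] (F : IntermediateField K E)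
    (g u : E) (hg : IntermediateField.adjoin K {g} = F) (hu : u ≠ 0)
    {a : HeightOneSpectrum (𝓞 E) → ℝ} {b : InfinitePlace E → ℝ} (h : Adm a b) {l : ℝ}
    (h1 : u ∈ Bx a b l) (h2 : u * g ∈ Bx a b l)
    (hF : 2 * Module.finrank K F = Module.finrank K E) :
    ∃ F0 : IntermediateField K (AlgebraicClosure K), F0 ≤ E ∧ ∃ _ : NumberField F0,
      2 * Module.finrank K F0 = Module.finrank K E ∧
      ∃ e : F0, IntermediateField.adjoin K {e} = ⊤ ∧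
        mulHeight ![1, e] ^ 2 ≤ l ^ Module.finrank ℚ E * hb a b := by
  have : Module.Finite K E := Module.Finite.of_restrictScalars_finite ℚ K E
  have : Module.Finite F E := Module.Finite.of_restrictScalars_finite K F E
  have : Module.Finite K F := inferInstance
  have : NumberField F := NumberField.of_module_finite K F
  let e : F ≃ₐ[K] IntermediateField.lift F := IntermediateField.liftAlgEquiv F
  have : Module.Finite K (IntermediateField.lift F) := Module.Finite.equiv e.toLinearEquiv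
  have : NumberField (IntermediateField.lift F) :=
    NumberField.of_module_finite K (IntermediateField.lift F)
  have hgF : g ∈ F := by
    rw [← hg]
    exact IntermediateField.mem_adjoin_simple_self K g
  refine ⟨IntermediateField.lift F, IntermediateField.lift_le F, this, ?_, e ⟨g, hgF⟩, ?_, ?_⟩
  · rw [← LinearEquiv.finrank_eq e.toLinearEquiv, hF]
  · apply IntermediateField.lift_injective
    rw [IntermediateField.lift_adjoin_simple, IntermediateField.lift_top]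
    have h3 : ((e ⟨g, hgF⟩ : IntermediateField.lift F) : AlgebraicClosure K) = ((g : E) : AlgebraicClosure K) := by
      rfl
    rw [h3, ← IntermediateField.lift_adjoin_simple, hg]
  · have h4 : mulHeight ![1, e ⟨g, hgF⟩] = mulHeight ![1, (⟨g, hgF⟩ : F)] := by
      rw [← mulHeight_equiv e.toRingEquiv ![1, (⟨g, hgF⟩ : F)]]
      congr 1
      funext i
      fin_cases i <;> simp
    have h5 : Module.finrank F E = 2 := by
      have h6 := Module.finrank_mul_finrank K F E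
      have h7 : 0 < Module.finrank K F := Module.finrank_pos
      rw [← hF, mul_comm 2] at h6
      exact Nat.eq_of_mul_eq_mul_left h7 h6
    have h8 := Pool.Agent.Lib.MP_44a246_ntSR.mulHeight_ext (K := F) (L := E) ![1, (⟨g, hgF⟩ : F)]
    rw [h5] at h8
    rw [h4, ← h8]
    have h9 : (fun i => algebraMap F E (![1, (⟨g, hgF⟩ : F)] i)) = ![1, g] := by
      funext i
      fin_cases i
      · simp
      · rfl
    rw [h9, ← mulHeight_smul_eq_mulHeight _ hu]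
    refine height_le _ ?_ h ?_
    · intro h10
      have h11 := congrFun h10 0
      simp at h11
      exact hu h11
    · intro i
      fin_cases i
      · simpa using h1
      · simpa using h2

/-- Unions of classes. -/
lemma union {K : Type u} [Field K] {m : ℕ} {J : Type*} (X : Finset (Vc K m)) (I : Finset J)
    (P : J → Vc K m → Prop) (h : ∀ s ∈ X, ∃ j ∈ I, P j s) (T : ℝ)
    (hT : ∀ j ∈ I, ∀ X' ⊆ X, (∀ s ∈ X', P j s) → ∃ R ⊆ X', (∀ s ∈ X', ∃ t ∈ R, SimV t s) ∧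
      (R.card : ℝ) ≤ T) :
    ∃ R ⊆ X, (∀ s ∈ X, ∃ t ∈ R, SimV t s) ∧ (R.card : ℝ) ≤ I.card * T := by
  classical
  have h1 : ∀ j : I, ∃ R ⊆ X.filter (P j), (∀ s ∈ X.filter (P j), ∃ t ∈ R, SimV t s) ∧
      (R.card : ℝ) ≤ T :=
    fun j => hT j j.2 _ (Finset.filter_subset _ _) fun s hs => (Finset.mem_filter.1 hs).2
  choose R hR1 hR2 hR3 using h1
  refine ⟨I.attach.biUnion R, ?_, ?_, ?_⟩
  · intro s hs
    obtain ⟨j, -, hj⟩ := Finset.mem_biUnion.1 hs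
    exact (Finset.mem_filter.1 (hR1 j hj)).1
  · intro s hs
    obtain ⟨j, hj, hP⟩ := h s hs
    obtain ⟨t, ht, hts⟩ := hR2 ⟨j, hj⟩ s (Finset.mem_filter.2 ⟨hs, hP⟩)
    exact ⟨t, Finset.mem_biUnion.2 ⟨⟨j, hj⟩, Finset.mem_attach _ _, ht⟩, hts⟩
  · calc ((I.attach.biUnion R).card : ℝ) ≤ ((∑ j ∈ I.attach, (R j).card : ℕ) : ℝ) := by
          exact_mod_cast Finset.card_biUnion_le
      _ = ∑ j ∈ I.attach, ((R j).card : ℝ) := by push_cast; rfl
      _ ≤ ∑ j ∈ I.attach, T := Finset.sum_le_sum fun j _ => hR3 j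
      _ = I.card * T := by simp

/-- The first inequality. -/
lemma ineq1 {r D : ℕ} {R F B L C1 C2 c η : ℝ} (hB : 1 ≤ B) (hF : 0 ≤ F) (hL : 0 ≤ L)
    (hC1 : 0 ≤ C1) (hC2 : 0 ≤ C2)
    (hR : R ≤ C1 * B ^ η * (B ^ (r + 1) * (L ^ D) ^ (((r : ℝ) + 1) / 2)))
    (hF2 : F ^ 2 * L ^ D ≤ C2 * B ^ (-c)) :
    R * F ^ (r + 1) ≤
      C1 * C2 ^ (((r : ℝ) + 1) / 2) * B ^ ((r : ℝ) + 1 + η - c * (((r : ℝ) + 1) / 2)) := by
  set p : ℝ := ((r : ℝ) + 1) / 2 with hp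
  have hB0 : 0 < B := one_pos.trans_le hB
  have hp0 : 0 ≤ p := by positivity
  have h1 : F ^ (r + 1) = (F ^ 2) ^ p := by
    rw [← Real.rpow_natCast F 2, ← Real.rpow_mul hF, ← Real.rpow_natCast F (r + 1)]
    congr 1
    rw [hp]
    push_cast
    ring
  have h2 : (F ^ 2 * L ^ D) ^ p ≤ (C2 * B ^ (-c)) ^ p :=
    Real.rpow_le_rpow (by positivity) hF2 hp0
  calc R * F ^ (r + 1) ≤ C1 * B ^ η * (B ^ (r + 1) * (L ^ D) ^ p) * F ^ (r + 1) :=
        mul_le_mul_of_nonneg_right hR (by positivity)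
    _ = C1 * B ^ η * B ^ (r + 1) * (F ^ 2 * L ^ D) ^ p := by
        rw [h1, Real.mul_rpow (by positivity) (by positivity)]
        ring
    _ ≤ C1 * B ^ η * B ^ (r + 1) * (C2 * B ^ (-c)) ^ p :=
        mul_le_mul_of_nonneg_left h2 (by positivity)
    _ = C1 * C2 ^ p * B ^ ((r : ℝ) + 1 + η - c * p) := by
        rw [Real.mul_rpow hC2 (by positivity), ← Real.rpow_mul hB0.le,
          show (r : ℝ) + 1 + η - c * p = η + ((r + 1 : ℕ) : ℝ) + -c * p by push_cast; ring,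
          Real.rpow_add hB0, Real.rpow_add hB0, Real.rpow_natCast]
        ring

/-- The second inequality. -/
lemma ineq2 {a D : ℕ} (ha : 2 ≤ a) {N R F B L1 L2 M C2 C3 C4 κ η Z Q : ℝ} (hB : 1 ≤ B)
    (hF : 0 ≤ F) (hL1 : 0 < L1) (hL2 : 0 < L2) (hL1' : L1 ≤ 1) (hM1 : 1 ≤ M) (hM : L2 ≤ M)
    (hR0 : 0 ≤ R) (hC2 : 0 ≤ C2) (hC3 : 0 ≤ C3) (hC4 : 0 ≤ C4) (hη : 0 < η)
    (hP : 1 ≤ B * L1 ^ D) (hN : N ≤ C2 * Z ^ ((a : ℝ) + 1 + η)) (hZ : 0 ≤ Z)
    (hZ2 : Z ^ 2 = (B ^ κ * L1) ^ D * B)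
    (hR : R ≤ C3 * B ^ η * ((B * L1 ^ D) * (B * Q) * (B * L2 ^ D)))
    (hQ2 : Q ^ 2 = L1 ^ D * L2 ^ D) (hF2 : F ^ 2 * L1 ^ D ≤ C4 * B ^ κ) :
    N * R * F ^ (2 * a + 1) ≤ C2 * (C3 * (M ^ D * M ^ D)) * C4 ^ ((a : ℝ) + 1 / 2) *
      B ^ (κ * D * (((a : ℝ) + 1 + η) / 2) + (η + 3 / 2) + (κ + 1) * ((a : ℝ) + 1 / 2) +
        (1 + η) / 2) := by
  have hB0 : 0 < B := one_pos.trans_le hB
  have hx : 0 < L1 ^ D := by positivity
  have hx1 : L1 ^ D ≤ 1 := pow_le_one₀ hL1.le hL1'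
  obtain ⟨x, hxd⟩ : ∃ x, x = L1 ^ D := ⟨_, rfl⟩
  obtain ⟨P, hPd⟩ : ∃ P, P = B * L1 ^ D := ⟨_, rfl⟩
  have hP0 : 0 < P := by rw [hPd]; positivity
  have hP1 : 1 ≤ P := by rw [hPd]; exact hP
  have hPB : P ≤ B := by
    rw [hPd]
    exact mul_le_of_le_one_right hB0.le hx1
  have hm : L2 ^ D ≤ M ^ D := pow_le_pow_left₀ hL2.le hM D
  have hm1 : 1 ≤ M ^ D := one_le_pow₀ hM1
  have hxP : L1 ^ D = P * B ^ (-1 : ℝ) := by
    rw [hPd, Real.rpow_neg_one]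
    field_simp
  -- the number of fields
  have e1 : N ≤ C2 * (B ^ (κ * D * (((a : ℝ) + 1 + η) / 2)) * P ^ (((a : ℝ) + 1 + η) / 2)) := by
    refine hN.trans (mul_le_mul_of_nonneg_left (le_of_eq ?_) hC2)
    have h1 : Z ^ 2 = B ^ (κ * D) * P := by
      rw [hZ2, mul_pow, ← Real.rpow_mul_natCast hB0.le, hPd]
      ring
    have h2 : Z ^ ((a : ℝ) + 1 + η) = (Z ^ 2) ^ (((a : ℝ) + 1 + η) / 2) := by
      rw [← Real.rpow_natCast Z 2, ← Real.rpow_mul hZ]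
      congr 1
      push_cast
      ring
    rw [h2, h1, Real.mul_rpow (by positivity) hP0.le, ← Real.rpow_mul hB0.le]
  -- the number of classes over one field
  have e2 : R ≤ C3 * (M ^ D * M ^ D) * (B ^ (η + 3 / 2) * P ^ (3 / 2 : ℝ)) := by
    have h1 : Q ≤ M ^ D * (P ^ (1 / 2 : ℝ) * B ^ (-1 / 2 : ℝ)) := by
      have h2 : Q ^ 2 ≤ (M ^ D * (P ^ (1 / 2 : ℝ) * B ^ (-1 / 2 : ℝ))) ^ 2 := by
        rw [hQ2, mul_pow, mul_pow, ← Real.rpow_mul_natCast hP0.le, ← Real.rpow_mul_natCast hB0.le,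
          hxP]
        have h3 : ((1 / 2 : ℝ) * ((2 : ℕ) : ℝ)) = 1 := by norm_num
        have h4 : ((-1 / 2 : ℝ) * ((2 : ℕ) : ℝ)) = -1 := by norm_num
        rw [h3, h4, Real.rpow_one]
        have h5 : L2 ^ D ≤ (M ^ D) ^ 2 := by nlinarith
        calc P * B ^ (-1 : ℝ) * L2 ^ D ≤ P * B ^ (-1 : ℝ) * (M ^ D) ^ 2 :=
              mul_le_mul_of_nonneg_left h5 (by positivity)
          _ = (M ^ D) ^ 2 * (P * B ^ (-1 : ℝ)) := by ring
      exact le_of_sq_le_sq h2 (by positivity)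
    have h6 : C3 * B ^ η * ((B * L1 ^ D) * (B * Q) * (B * L2 ^ D)) ≤
        C3 * B ^ η * (P * (B * (M ^ D * (P ^ (1 / 2 : ℝ) * B ^ (-1 / 2 : ℝ)))) * (B * M ^ D)) := by
      rw [← hPd]
      gcongr
    refine hR.trans (h6.trans (le_of_eq ?_))
    have h7 : B ^ (η + 3 / 2) = B ^ η * (B * B * B ^ (-1 / 2 : ℝ)) := by
      have h8 : B * B * B ^ (-1 / 2 : ℝ) = B ^ (3 / 2 : ℝ) := by
        nth_rewrite 1 [← Real.rpow_one B]
        nth_rewrite 2 [← Real.rpow_one B]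
        rw [← Real.rpow_add hB0, ← Real.rpow_add hB0]
        norm_num
      rw [h8, ← Real.rpow_add hB0]
    have h9 : P ^ (3 / 2 : ℝ) = P * P ^ (1 / 2 : ℝ) := by
      nth_rewrite 2 [← Real.rpow_one P]
      rw [← Real.rpow_add hP0]
      norm_num
    rw [h7, h9]
    ring
  -- the size of the box
  have e3 : F ^ (2 * a + 1) ≤ C4 ^ ((a : ℝ) + 1 / 2) * (B ^ ((κ + 1) * ((a : ℝ) + 1 / 2)) *
      P ^ (-((a : ℝ) + 1 / 2))) := by
    have h1 : F ^ 2 ≤ C4 * (B ^ (κ + 1) * P ^ (-1 : ℝ)) := by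
      rw [Real.rpow_neg_one, Real.rpow_add hB0, Real.rpow_one]
      have h2 : F ^ 2 * P ≤ C4 * B ^ κ * B := by
        rw [hPd]
        calc F ^ 2 * (B * L1 ^ D) = F ^ 2 * L1 ^ D * B := by ring
          _ ≤ C4 * B ^ κ * B := mul_le_mul_of_nonneg_right hF2 hB0.le
      calc F ^ 2 = F ^ 2 * P * P⁻¹ := by field_simp
        _ ≤ C4 * B ^ κ * B * P⁻¹ := mul_le_mul_of_nonneg_right h2 (by positivity)
        _ = C4 * (B ^ κ * B * P⁻¹) := by ring
    have h3 : F ^ (2 * a + 1) = (F ^ 2) ^ ((a : ℝ) + 1 / 2) := by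
      rw [← Real.rpow_natCast F 2, ← Real.rpow_mul hF, ← Real.rpow_natCast F (2 * a + 1)]
      congr 1
      push_cast
      ring
    rw [h3]
    refine (Real.rpow_le_rpow (by positivity) h1 (by positivity)).trans (le_of_eq ?_)
    rw [Real.mul_rpow hC4 (by positivity), Real.mul_rpow (by positivity) (by positivity),
      ← Real.rpow_mul hB0.le, ← Real.rpow_mul hP0.le, neg_one_mul]
  -- all together
  have e4 : P ^ (((a : ℝ) + 1 + η) / 2) * P ^ (3 / 2 : ℝ) * P ^ (-((a : ℝ) + 1 / 2)) ≤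
      B ^ ((1 + η) / 2) := by
    rw [← Real.rpow_add hP0, ← Real.rpow_add hP0]
    have ha' : (2 : ℝ) ≤ a := by exact_mod_cast ha
    refine (Real.rpow_le_rpow_of_exponent_le hP1 (?_ : _ ≤ (1 + η) / 2)).trans
      (Real.rpow_le_rpow hP0.le hPB (by linarith))
    linarith
  set y1 := B ^ (κ * D * (((a : ℝ) + 1 + η) / 2)) with hy1
  set y2 := B ^ (η + 3 / 2) with hy2
  set y3 := B ^ ((κ + 1) * ((a : ℝ) + 1 / 2)) with hy3
  set z1 := P ^ (((a : ℝ) + 1 + η) / 2) with hz1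
  set z2 := P ^ (3 / 2 : ℝ) with hz2
  set z3 := P ^ (-((a : ℝ) + 1 / 2)) with hz3
  have p1 : 0 ≤ y1 := by positivity
  have p2 : 0 ≤ y2 := by positivity
  have p3 : 0 ≤ y3 := by positivity
  have p4 : 0 ≤ z1 := by positivity
  have p5 : 0 ≤ z2 := by positivity
  have p6 : 0 ≤ z3 := by positivity
  have e5 : N * R * F ^ (2 * a + 1) ≤ (C2 * (y1 * z1)) * (C3 * (M ^ D * M ^ D) * (y2 * z2)) *
      (C4 ^ ((a : ℝ) + 1 / 2) * (y3 * z3)) := by
    refine mul_le_mul (mul_le_mul e1 e2 hR0 (by positivity)) e3 (by positivity) (by positivity)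
  refine e5.trans ?_
  rw [Real.rpow_add hB0, Real.rpow_add hB0, Real.rpow_add hB0]
  calc (C2 * (y1 * z1)) * (C3 * (M ^ D * M ^ D) * (y2 * z2)) *
      (C4 ^ ((a : ℝ) + 1 / 2) * (y3 * z3)) =
        C2 * (C3 * (M ^ D * M ^ D)) * C4 ^ ((a : ℝ) + 1 / 2) * (y1 * y2 * y3) *
          (z1 * z2 * z3) := by ring
    _ ≤ C2 * (C3 * (M ^ D * M ^ D)) * C4 ^ ((a : ℝ) + 1 / 2) * (y1 * y2 * y3) *
          B ^ ((1 + η) / 2) := mul_le_mul_of_nonneg_left e4 (by positivity)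
    _ = _ := by ring

/-- A field with a small generator. -/
def SubP {K : Type u} [Field K] [NumberField K] (r : ℕ)
    (F0 : IntermediateField K (AlgebraicClosure K)) (Y : ℝ) : Prop :=
  ∃ _ : NumberField F0, 2 * Module.finrank K F0 = r ∧
    ∃ e : F0, IntermediateField.adjoin K {e} = ⊤ ∧ mulHeight ![1, e] ^ 2 ≤ Y

/-- Vectors with a small subfield. -/
lemma typeII {K : Type u} [Field K] [NumberField K] (r m : ℕ) (hr : 3 ≤ r) (M κ η C4 : ℝ)
    (hM : 1 ≤ M) (hκ : 0 < κ) (hη : 0 < η) (hC4 : 1 ≤ C4) : ∃ C : ℝ, 1 ≤ C ∧ ∀ B : ℝ, 1 ≤ B →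
      ∀ F : ℝ, 0 < F → ∀ L1 L2 : ℝ, 0 < L1 → L1 ≤ 1 → L1 ≤ L2 → L2 ≤ M →
      1 ≤ B * L1 ^ (r * Module.finrank ℚ K) →
      F ^ 2 * L1 ^ (r * Module.finrank ℚ K) ≤ C4 * B ^ κ → ∀ X : Finset (Vc K m),
      (∀ s ∈ X, Gd r B s ∧ Pair s L1 L2 ∧ ∃ F0 : IntermediateField K (AlgebraicClosure K),
        F0 ≤ s.1 ∧ SubP r F0 ((B ^ κ * L1) ^ (r * Module.finrank ℚ K) * B)) →
      ∃ R ⊆ X, (∀ s ∈ X, ∃ t ∈ R, SimV t s) ∧ (R.card : ℝ) * F ^ (r + 1) ≤
        C * B ^ (κ * (r * Module.finrank ℚ K : ℕ) * (((r : ℝ) / 2 + 1 + η) / 2) + (η + 3 / 2) +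
          (κ + 1) * ((r : ℝ) / 2 + 1 / 2) + (1 + η) / 2) := by
  classical
  by_cases hr2 : ∃ a, 2 * a = r
  · obtain ⟨a, rfl⟩ := hr2
    have ha : 2 ≤ a := by omega
    obtain ⟨C2, hC2, H2⟩ := count_sub (K := K) a ha η hη
    obtain ⟨C3, hC3, H3⟩ := rel_classes (K := K) (2 * a) m M η hM hη
    set D : ℕ := 2 * a * Module.finrank ℚ K with hD
    have hMD : 1 ≤ M ^ D := one_le_pow₀ hM
    refine ⟨C2 * (C3 * (M ^ D * M ^ D)) * C4 ^ ((a : ℝ) + 1 / 2), ?_, ?_⟩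
    · have h1 : 1 ≤ C4 ^ ((a : ℝ) + 1 / 2) := Real.one_le_rpow hC4 (by positivity)
      exact one_le_mul_of_one_le_of_one_le (one_le_mul_of_one_le_of_one_le hC2
        (one_le_mul_of_one_le_of_one_le hC3 (one_le_mul_of_one_le_of_one_le hMD hMD))) h1
    intro B hB F hF L1 L2 hL1 hL1' hL12 hL2 hP hF2 X hX
    have hB0 : 0 < B := one_pos.trans_le hB
    have hL2' : 0 < L2 := hL1.trans_le hL12
    choose! f hf using fun s hs => (hX s hs).2.2
    set Z2 : ℝ := (B ^ κ * L1) ^ D * B with hZ2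
    have hZ0 : 0 ≤ Z2 := by positivity
    have hZ1 : 1 ≤ Z2 := by
      refine hP.trans ?_
      rw [hZ2, mul_comm]
      refine mul_le_mul_of_nonneg_right (pow_le_pow_left₀ hL1.le ?_ D) hB0.le
      exact le_mul_of_one_le_left hL1.le (Real.one_le_rpow hB hκ.le)
    have hN := H2 (√Z2) (Real.one_le_sqrt.2 hZ1) (X.image f) (by
      intro F0 hF0
      obtain ⟨s, hs, rfl⟩ := Finset.mem_image.1 hF0
      obtain ⟨-, hn, h1, e, he, h2⟩ := hf s hs
      exact ⟨hn, by omega, e, he, Real.le_sqrt_of_sq_le h2⟩)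
    set Q : ℝ := (L1 * L2) ^ (a * Module.finrank ℚ K) with hQ
    set T : ℝ := C3 * B ^ η * ((B * L1 ^ D) * (B * Q) * (B * L2 ^ D)) with hT
    obtain ⟨R, hR1, hR2, hR3⟩ := union X (X.image f) (fun F0 s => f s = F0)
      (fun s hs => ⟨f s, Finset.mem_image_of_mem f hs, rfl⟩) T (by
        intro F0 hF0 X' hX' hP'
        obtain ⟨s, hs, rfl⟩ := Finset.mem_image.1 hF0
        obtain ⟨-, hn, h1, -⟩ := hf s hs
        have h2 : Module.finrank ℚ (f s) = a * Module.finrank ℚ K := by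
          have h3 := Module.finrank_mul_finrank ℚ K (f s)
          have h4 : Module.finrank K (f s) = a := by omega
          rw [← h3, h4, mul_comm]
        obtain ⟨R, hR1, hR2, hR3⟩ := H3 B hB L1 L2 hL1 hL12 hL2 (f s) h1 X' (by
          intro t ht
          refine ⟨?_, (hX t (hX' ht)).1, (hX t (hX' ht)).2.1⟩
          have h5 := (hf t (hX' ht)).1
          rw [hP' t ht] at h5
          exact h5)
        refine ⟨R, hR1, hR2, hR3.trans (le_of_eq ?_)⟩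
        rw [hT, h2, ← mul_assoc 2 a, ← hD])
    refine ⟨R, hR1, hR2, ?_⟩
    have hQ2 : Q ^ 2 = L1 ^ D * L2 ^ D := by
      rw [hQ, ← pow_mul, ← mul_pow, hD]
      congr 1
      ring
    have hfin := ineq2 (a := a) (D := D) (N := ((X.image f).card : ℝ)) (R := T) (F := F) (B := B)
      (L1 := L1) (L2 := L2) (M := M) (C2 := C2) (C3 := C3) (C4 := C4) (κ := κ) (η := η)
      (Z := √Z2) (Q := Q) ha hB hF.le hL1 hL2' hL1' hM hL2 (by positivity) (by linarith)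
      (by linarith) (by linarith) hη hP hN (Real.sqrt_nonneg _) (Real.sq_sqrt hZ0) le_rfl
      hQ2 hF2
    have hcast : ((2 * a : ℕ) : ℝ) / 2 = (a : ℝ) := by
      push_cast
      ring
    rw [hcast]
    exact (mul_le_mul_of_nonneg_right hR3 (by positivity)).trans hfin
  · refine ⟨1, le_rfl, fun B hB F hF L1 L2 hL1 hL1' hL12 hL2 hP hF2 X hX => ?_⟩
    have h0 : X = ∅ := by
      rw [Finset.eq_empty_iff_forall_notMem]
      intro s hs
      obtain ⟨-, -, F0, -, -, h1, -⟩ := hX s hs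
      exact hr2 ⟨_, h1⟩
    subst h0
    refine ⟨∅, subset_rfl, by simp, ?_⟩
    have hB0 : 0 < B := one_pos.trans_le hB
    simp only [Finset.card_empty, Nat.cast_zero, zero_mul]
    positivity

lemma phi_eq {K : Type u} [Field K] {m : ℕ} (s : Vc K m) [h : NumberField s.1] :
    Phi s = (Bx (tf s.2) (ti s.2) 1).ncard := by
  unfold Phi
  rw [dif_pos h]

/-- The structure of the box of a vector. -/
lemma data {K : Type u} [Field K] [NumberField K] (r m : ℕ) (hr : 3 ≤ r) (e κ : ℝ) (he : 0 < e)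
    (hκ : 0 < κ) : ∃ c C : ℝ, 0 < c ∧ 1 ≤ C ∧ ∀ B : ℝ, 1 ≤ B → ∀ s : Vc K m, Gd r B s →
      B ^ e ≤ Phi s →
      (∃ _ : NumberField s.1, Submodule.span K (Bx (tf s.2) (ti s.2) 1) ≠ ⊤) →
      ∃ l1 l2 : ℝ, 0 < l1 ∧ l1 ≤ 1 ∧ l1 ≤ l2 ∧ l2 ≤ C ∧ Pair s l1 l2 ∧
        1 ≤ B * l1 ^ (r * Module.finrank ℚ K) ∧
        ((Phi s : ℝ) ^ 2 * (l1 * l2) ^ (r * Module.finrank ℚ K) ≤ C * B ^ (-c) ∨
          ((∃ F0 : IntermediateField K (AlgebraicClosure K), F0 ≤ s.1 ∧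
            SubP r F0 ((B ^ κ * l1) ^ (r * Module.finrank ℚ K) * B)) ∧
          (Phi s : ℝ) ^ 2 * l1 ^ (r * Module.finrank ℚ K) ≤ C * B ^ κ)) := by
  obtain ⟨c, C, hc, hC, H⟩ := structure_mid r m (r * Module.finrank ℚ K) hr e κ he hκ
  refine ⟨c, C, hc, hC, ?_⟩
  intro B hB s hs hphi hspan
  have hB0 : 0 < B := one_pos.trans_le hB
  obtain ⟨hn, hdeg, h0, hgen, hht⟩ := hs
  obtain ⟨_, hsp⟩ := hspan
  obtain ⟨hadm, hhb⟩ := adm_tf s.2 h0
  have hD : Module.finrank ℚ s.1 = r * Module.finrank ℚ K := by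
    rw [← Module.finrank_mul_finrank ℚ K s.1, hdeg, mul_comm]
  rw [phi_eq s] at hphi ⊢
  obtain ⟨u, z, l1, l2, hl1, hl1', hl12, hl2, hu, hub, hzb, hg, halt⟩ := H K s.1 hD.le hdeg (tf s.2)
    (ti s.2) hadm hsp s.2 (mem_own s.2) hgen B hB hphi
  rw [hD] at halt
  have hhb' : hb (tf s.2) (ti s.2) ≤ B := by
    rw [hhb]
    exact hht
  refine ⟨l1, l2, hl1, hl1', hl12, hl2, ⟨hn, u, z, hu, hub, hzb, hg⟩, ?_, ?_⟩
  · have h1 : mulHeight ![u] ≤ l1 ^ Module.finrank ℚ s.1 * hb (tf s.2) (ti s.2) := by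
      refine height_le _ ?_ hadm ?_
      · intro h
        have h2 := congrFun h 0
        simp at h2
        exact hu h2
      · intro i
        fin_cases i
        exact hub
    have h2 : 1 ≤ mulHeight ![u] := one_le_mulHeight _
    rw [hD] at h1
    calc (1 : ℝ) ≤ l1 ^ (r * Module.finrank ℚ K) * hb (tf s.2) (ti s.2) := h2.trans h1
      _ ≤ l1 ^ (r * Module.finrank ℚ K) * B := mul_le_mul_of_nonneg_left hhb' (by positivity)
      _ = B * l1 ^ (r * Module.finrank ℚ K) := mul_comm _ _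
  · refine halt.imp_right ?_
    rintro ⟨F, g, hF, hgF, hugb, hsize⟩
    refine ⟨?_, hsize⟩
    have hκ1 : 1 ≤ B ^ κ := Real.one_le_rpow hB hκ.le
    obtain ⟨F0, h1, hnf, h2, e', h3, h4⟩ := sub_lift s.1 F g u hgF hu hadm
      (Bx_mono hadm.pos (le_mul_of_one_le_left hl1.le hκ1) hub) hugb (by rw [hF, hdeg])
    refine ⟨F0, h1, hnf, by rw [h2, hdeg], e', h3, h4.trans ?_⟩
    rw [hD]
    exact mul_le_mul_of_nonneg_left hhb' (by positivity)

/-- Rounding. -/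
lemma round {l : ℝ} (hl : 0 < l) : l ≤ Real.exp (-((⌊-Real.log l⌋ : ℤ) : ℝ)) ∧
    Real.exp (-((⌊-Real.log l⌋ : ℤ) : ℝ)) ≤ Real.exp 1 * l := by
  have h1 := Int.floor_le (-Real.log l)
  have h2 := Int.lt_floor_add_one (-Real.log l)
  constructor
  · calc l = Real.exp (Real.log l) := (Real.exp_log hl).symm
      _ ≤ _ := Real.exp_le_exp.2 (by linarith)
  · calc Real.exp (-((⌊-Real.log l⌋ : ℤ) : ℝ)) ≤ Real.exp (1 + Real.log l) :=
          Real.exp_le_exp.2 (by linarith)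
      _ = _ := by rw [Real.exp_add, Real.exp_log hl]

/-- The number of pairs of rounded sizes. -/
lemma card_pairs (c η : ℝ) (hη : 0 < η) : ∃ C : ℝ, 1 ≤ C ∧ ∀ B : ℝ, 1 ≤ B →
    (((Finset.Icc ⌊-c⌋ ⌊Real.log B⌋ ×ˢ Finset.Icc ⌊-c⌋ ⌊Real.log B⌋) ×ˢ
      (Finset.univ : Finset Bool)).card : ℝ) ≤ C * B ^ η := by
  refine ⟨2 * (2 / η + |c| + 2) ^ 2, ?_, fun B hB => ?_⟩
  · have h1 : 0 < 2 / η := by positivity
    have h2 : 0 ≤ |c| := abs_nonneg c
    nlinarith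
  have hB0 : 0 < B := one_pos.trans_le hB
  have hlog : 0 ≤ Real.log B := Real.log_nonneg hB
  have h1 : ((Finset.Icc ⌊-c⌋ ⌊Real.log B⌋).card : ℝ) ≤ Real.log B + |c| + 2 := by
    rw [Int.card_Icc]
    have h2 : ((⌊Real.log B⌋ + 1 - ⌊-c⌋).toNat : ℝ) = max ((⌊Real.log B⌋ : ℝ) + 1 - ⌊-c⌋) 0 := by
      have h3 : (((⌊Real.log B⌋ + 1 - ⌊-c⌋).toNat : ℤ) : ℝ) =
          ((max (⌊Real.log B⌋ + 1 - ⌊-c⌋) 0 : ℤ) : ℝ) := by rw [Int.toNat_eq_max]
      push_cast at h3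
      exact h3
    rw [h2]
    have h4 := Int.floor_le (Real.log B)
    have h5 := Int.lt_floor_add_one (-c)
    have h6 := le_abs_self c
    exact max_le (by linarith) (by positivity)
  have h2 : Real.log B ≤ B ^ (η / 2) * (2 / η) := by
    have h3 := Real.log_le_rpow_div hB0.le (half_pos hη)
    calc Real.log B ≤ B ^ (η / 2) / (η / 2) := h3
      _ = B ^ (η / 2) * (2 / η) := by field_simp
  have h3 : 1 ≤ B ^ (η / 2) := Real.one_le_rpow hB (half_pos hη).le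
  have h4 : ((Finset.Icc ⌊-c⌋ ⌊Real.log B⌋).card : ℝ) ≤ (2 / η + |c| + 2) * B ^ (η / 2) := by
    have h5 : 0 ≤ |c| := abs_nonneg c
    nlinarith
  have h5 : (B ^ (η / 2)) ^ 2 = B ^ η := by
    rw [← Real.rpow_mul_natCast hB0.le]
    congr 1
    push_cast
    ring
  rw [Finset.card_product, Finset.card_product, Finset.card_univ, Fintype.card_bool]
  push_cast
  calc ((Finset.Icc ⌊-c⌋ ⌊Real.log B⌋).card : ℝ) * ((Finset.Icc ⌊-c⌋ ⌊Real.log B⌋).card : ℝ) * 2 =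
        2 * ((Finset.Icc ⌊-c⌋ ⌊Real.log B⌋).card : ℝ) ^ 2 := by ring
    _ ≤ 2 * ((2 / η + |c| + 2) * B ^ (η / 2)) ^ 2 := by gcongr
    _ = 2 * (2 / η + |c| + 2) ^ 2 * B ^ η := by rw [mul_pow, h5]; ring

lemma pair_mono {K : Type u} [Field K] [NumberField K] {m r : ℕ} {B : ℝ} {s : Vc K m}
    (hs : Gd r B s) {l1 l2 L1 L2 : ℝ}
    (h : Pair s l1 l2) (h1 : l1 ≤ L1) (h2 : l2 ≤ L2) : Pair s L1 L2 := by
  obtain ⟨hn, u, z, hu, hub, hzb, hg⟩ := h
  obtain ⟨-, -, h0, -, -⟩ := hs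
  obtain ⟨hadm, -⟩ := adm_tf s.2 h0
  exact ⟨hn, u, z, hu, Bx_mono hadm.pos h1 hub, Bx_mono hadm.pos h2 hzb, hg⟩

end EC2

/-- EC2 : boxes which do not span the field -/
theorem mid_nonspan {K : Type u} [Field K] [NumberField K] (r m : ℕ) (hr : 3 ≤ r) (e : ℝ)
    (he : 0 < e) : ∃ δ C : ℝ, 0 < δ ∧ 1 ≤ C ∧ ∀ B : ℝ, 1 ≤ B → ∀ F : ℝ, B ^ e ≤ F →
      ∀ X : Finset (Vc K m), (∀ s ∈ X, Gd r B s ∧ F ≤ Phi s ∧ ∃ _ : NumberField s.1,
        Submodule.span K (Bx (tf s.2) (ti s.2) 1) ≠ ⊤) →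
      ∃ R ⊆ X, (∀ s ∈ X, ∃ t ∈ R, SimV t s) ∧
        (R.card : ℝ) * F ^ (r + 1) ≤ C * B ^ ((r : ℝ) + 1 - δ) := by
  set D : ℕ := r * Module.finrank ℚ K with hD
  have hr0 : (3 : ℝ) ≤ r := by exact_mod_cast hr
  -- the small exponents
  obtain ⟨κ, hκd⟩ : ∃ κ : ℝ, κ = 1 / (16 * ((D : ℝ) + 1) * ((r : ℝ) + 2)) := ⟨_, rfl⟩
  have hκ : 0 < κ := by rw [hκd]; positivity
  have hκ2 : κ * (((D : ℝ) + 1) * ((r : ℝ) + 2)) = 1 / 16 := by
    rw [hκd]
    field_simp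
  obtain ⟨c, C₀, hc, hC₀, H⟩ := EC2.data (K := K) r m hr e κ he hκ
  obtain ⟨η, hηd⟩ : ∃ η : ℝ, η = min (1 / 16) (c / 4) := ⟨_, rfl⟩
  have hη : 0 < η := by rw [hηd]; exact lt_min (by norm_num) (by positivity)
  have hη1 : η ≤ 1 / 16 := by rw [hηd]; exact min_le_left _ _
  have hη2 : η ≤ c / 4 := by rw [hηd]; exact min_le_right _ _
  -- the constants
  obtain ⟨M, hMd⟩ : ∃ M : ℝ, M = Real.exp 1 * C₀ := ⟨_, rfl⟩
  have he1 : 1 ≤ Real.exp 1 := Real.one_le_exp zero_le_one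
  have hM : 1 ≤ M := by rw [hMd]; exact one_le_mul_of_one_le_of_one_le he1 hC₀
  have hM0 : C₀ ≤ M := by rw [hMd]; exact le_mul_of_one_le_left (by linarith) he1
  obtain ⟨C4, hC4d⟩ : ∃ C4 : ℝ, C4 = (Real.exp 1 * Real.exp 1) ^ D * C₀ := ⟨_, rfl⟩
  have hee : 1 ≤ Real.exp 1 * Real.exp 1 := one_le_mul_of_one_le_of_one_le he1 he1
  have hC4 : 1 ≤ C4 := by
    rw [hC4d]
    exact one_le_mul_of_one_le_of_one_le (one_le_pow₀ hee) hC₀
  obtain ⟨C1, hC1, H1⟩ := classes2 (K := K) r m (by omega) M η hM hη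
  obtain ⟨C2, hC2, H2⟩ := EC2.typeII (K := K) r m hr M κ η C4 hM hκ hη hC4
  obtain ⟨C3, hC3, H3⟩ := EC2.card_pairs (Real.log C₀) η hη
  rw [← hD] at H1 H2
  have hC4p : 1 ≤ C4 ^ (((r : ℝ) + 1) / 2) := Real.one_le_rpow hC4 (by positivity)
  set C5 : ℝ := C1 * C4 ^ (((r : ℝ) + 1) / 2) + C2 with hC5
  have hC15 : 1 ≤ C1 * C4 ^ (((r : ℝ) + 1) / 2) := one_le_mul_of_one_le_of_one_le hC1 hC4p
  have hC50 : 1 ≤ C5 := by rw [hC5]; linarith
  refine ⟨η, C3 * C5, hη, one_le_mul_of_one_le_of_one_le hC3 hC50, ?_⟩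
  intro B hB F hF X hX
  have hB0 : 0 < B := one_pos.trans_le hB
  have hF0 : 0 < F := (Real.rpow_pos_of_pos hB0 e).trans_le hF
  set T : ℝ := C5 * B ^ ((r : ℝ) + 1 - η - η) / F ^ (r + 1) with hT
  have hFp : 0 < F ^ (r + 1) := by positivity
  set P : (ℤ × ℤ) × Bool → Vc K m → Prop := fun j s =>
    Pair s (Real.exp (-(j.1.1 : ℝ))) (Real.exp (-(j.1.2 : ℝ))) ∧ Real.exp (-(j.1.1 : ℝ)) ≤ 1 ∧
    Real.exp (-(j.1.1 : ℝ)) ≤ Real.exp (-(j.1.2 : ℝ)) ∧ Real.exp (-(j.1.2 : ℝ)) ≤ M ∧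
    1 ≤ B * Real.exp (-(j.1.1 : ℝ)) ^ D ∧
    (j.2 = false → F ^ 2 * (Real.exp (-(j.1.1 : ℝ)) * Real.exp (-(j.1.2 : ℝ))) ^ D ≤
      C4 * B ^ (-c)) ∧
    (j.2 = true → (∃ F0 : IntermediateField K (AlgebraicClosure K), F0 ≤ s.1 ∧
      EC2.SubP r F0 ((B ^ κ * Real.exp (-(j.1.1 : ℝ))) ^ D * B)) ∧
      F ^ 2 * Real.exp (-(j.1.1 : ℝ)) ^ D ≤ C4 * B ^ κ) with hPd
  have hcov : ∀ s ∈ X, ∃ j ∈ ((Finset.Icc ⌊-Real.log C₀⌋ ⌊Real.log B⌋ ×ˢ Finset.Icc ⌊-Real.log C₀⌋ ⌊Real.log B⌋) ×ˢ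
      (Finset.univ : Finset Bool)),
      P j s := by
    intro s hs
    obtain ⟨hgd, hFs, hsp⟩ := hX s hs
    obtain ⟨l1, l2, hl1, hl1', hl12, hl2, hpair, hone, halt⟩ := H B hB s hgd (hF.trans hFs) hsp
    have hl2' : 0 < l2 := hl1.trans_le hl12
    obtain ⟨a1, a2⟩ := EC2.round hl1
    obtain ⟨b1, b2⟩ := EC2.round hl2'
    set k1 : ℤ := ⌊-Real.log l1⌋ with hk1
    set k2 : ℤ := ⌊-Real.log l2⌋ with hk2
    have hlog1 : Real.log l1 ≤ Real.log l2 := Real.log_le_log hl1 hl12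
    have hk21 : k2 ≤ k1 := Int.floor_le_floor (by linarith)
    have hk1n : 0 ≤ k1 := Int.floor_nonneg.2 (by linarith [Real.log_nonpos hl1.le hl1'])
    have hup1 : -Real.log l1 ≤ Real.log B := by
      have h1 : 0 ≤ Real.log (B * l1 ^ D) := Real.log_nonneg hone
      rw [Real.log_mul hB0.ne' (by positivity), Real.log_pow] at h1
      have h2 : (1 : ℝ) ≤ D := by
        have h3 : 0 < Module.finrank ℚ K := Module.finrank_pos
        have h4 : 1 ≤ D := Nat.mul_pos (by omega) h3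
        exact_mod_cast h4
      have h5 : Real.log l1 ≤ 0 := Real.log_nonpos hl1.le hl1'
      nlinarith
    have hup2 : -Real.log l2 ≤ Real.log B := by linarith
    have hlo2 : -Real.log C₀ ≤ -Real.log l2 := neg_le_neg (Real.log_le_log hl2' hl2)
    have hlo1 : -Real.log C₀ ≤ -Real.log l1 := by linarith
    have hmem1 : k1 ∈ Finset.Icc ⌊-Real.log C₀⌋ ⌊Real.log B⌋ :=
      Finset.mem_Icc.2 ⟨Int.floor_le_floor hlo1, Int.floor_le_floor hup1⟩
    have hmem2 : k2 ∈ Finset.Icc ⌊-Real.log C₀⌋ ⌊Real.log B⌋ :=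
      Finset.mem_Icc.2 ⟨Int.floor_le_floor hlo2, Int.floor_le_floor hup2⟩
    have q1 : Real.exp (-(k1 : ℝ)) ≤ 1 := by
      rw [Real.exp_le_one_iff]
      have : (0 : ℝ) ≤ k1 := by exact_mod_cast hk1n
      linarith
    have q2 : Real.exp (-(k1 : ℝ)) ≤ Real.exp (-(k2 : ℝ)) := by
      rw [Real.exp_le_exp]
      have : (k2 : ℝ) ≤ k1 := by exact_mod_cast hk21
      linarith
    have q3 : Real.exp (-(k2 : ℝ)) ≤ M := by
      rw [hMd]
      exact b2.trans (mul_le_mul_of_nonneg_left hl2 (by positivity))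
    have q4 : 1 ≤ B * Real.exp (-(k1 : ℝ)) ^ D :=
      hone.trans (mul_le_mul_of_nonneg_left (pow_le_pow_left₀ hl1.le a1 D) hB0.le)
    have hFs2 : F ^ 2 ≤ (Phi s : ℝ) ^ 2 := pow_le_pow_left₀ hF0.le hFs 2
    rcases halt with hI | ⟨⟨F0, hF0s, hnf, hdeg, g, hg, hht⟩, hII⟩
    · refine ⟨((k1, k2), false), ?_, EC2.pair_mono hgd hpair a1 b1, q1, q2, q3, q4, ?_, ?_⟩
      · exact Finset.mem_product.2 ⟨Finset.mem_product.2 ⟨hmem1, hmem2⟩, Finset.mem_univ _⟩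
      · intro _
        change F ^ 2 * (Real.exp (-(k1 : ℝ)) * Real.exp (-(k2 : ℝ))) ^ D ≤ C4 * B ^ (-c)
        calc F ^ 2 * (Real.exp (-(k1 : ℝ)) * Real.exp (-(k2 : ℝ))) ^ D ≤
              (Phi s : ℝ) ^ 2 * ((Real.exp 1 * l1) * (Real.exp 1 * l2)) ^ D := by gcongr
          _ = (Real.exp 1 * Real.exp 1) ^ D * ((Phi s : ℝ) ^ 2 * (l1 * l2) ^ D) := by
              rw [show (Real.exp 1 * l1) * (Real.exp 1 * l2) =
                (Real.exp 1 * Real.exp 1) * (l1 * l2) by ring, mul_pow (Real.exp 1 * Real.exp 1)]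
              ring
          _ ≤ (Real.exp 1 * Real.exp 1) ^ D * (C₀ * B ^ (-c)) :=
              mul_le_mul_of_nonneg_left hI (by positivity)
          _ = C4 * B ^ (-c) := by rw [hC4d]; ring
      · intro h
        exact absurd h (by simp)
    · refine ⟨((k1, k2), true), ?_, EC2.pair_mono hgd hpair a1 b1, q1, q2, q3, q4, ?_, ?_⟩
      · exact Finset.mem_product.2 ⟨Finset.mem_product.2 ⟨hmem1, hmem2⟩, Finset.mem_univ _⟩
      · intro h
        exact absurd h (by simp)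
      · intro _
        refine ⟨⟨F0, hF0s, hnf, hdeg, g, hg, hht.trans ?_⟩, ?_⟩
        · change (B ^ κ * l1) ^ D * B ≤ (B ^ κ * Real.exp (-(k1 : ℝ))) ^ D * B
          gcongr
        · change F ^ 2 * Real.exp (-(k1 : ℝ)) ^ D ≤ C4 * B ^ κ
          have h1 : (Real.exp 1) ^ D ≤ (Real.exp 1 * Real.exp 1) ^ D :=
            pow_le_pow_left₀ (by positivity) (le_mul_of_one_le_left (by positivity) he1) D
          calc F ^ 2 * Real.exp (-(k1 : ℝ)) ^ D ≤ (Phi s : ℝ) ^ 2 * (Real.exp 1 * l1) ^ D := by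
                gcongr
            _ = (Real.exp 1) ^ D * ((Phi s : ℝ) ^ 2 * l1 ^ D) := by rw [mul_pow]; ring
            _ ≤ (Real.exp 1) ^ D * (C₀ * B ^ κ) := mul_le_mul_of_nonneg_left hII (by positivity)
            _ ≤ (Real.exp 1 * Real.exp 1) ^ D * (C₀ * B ^ κ) :=
                mul_le_mul_of_nonneg_right h1 (by positivity)
            _ = C4 * B ^ κ := by rw [hC4d]; ring
  have hpart : ∀ j ∈ ((Finset.Icc ⌊-Real.log C₀⌋ ⌊Real.log B⌋ ×ˢ Finset.Icc ⌊-Real.log C₀⌋ ⌊Real.log B⌋) ×ˢ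
      (Finset.univ : Finset Bool)),
      ∀ X' ⊆ X, (∀ s ∈ X', P j s) → ∃ R ⊆ X', (∀ s ∈ X', ∃ t ∈ R, SimV t s) ∧
        (R.card : ℝ) ≤ T := by
    rintro ⟨⟨k1, k2⟩, b⟩ - X' hX' hP
    rcases X'.eq_empty_or_nonempty with h0 | ⟨s₀, hs₀⟩
    · subst h0
      refine ⟨∅, subset_rfl, by simp, ?_⟩
      simp only [Finset.card_empty, Nat.cast_zero]
      positivity
    obtain ⟨-, q1, q2, q3, q4, q5, q6⟩ := hP s₀ hs₀
    simp only at q1 q2 q3 q4 q5 q6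
    have hL1 : 0 < Real.exp (-(k1 : ℝ)) := Real.exp_pos _
    have hL2 : 0 < Real.exp (-(k2 : ℝ)) := Real.exp_pos _
    cases b with
    | false =>
      obtain ⟨R, hR1, hR2, hR3⟩ := H1 B hB _ _ hL1 hL2 (q1.trans hM) q3 X'
        (fun s hs => ⟨(hX s (hX' hs)).1, (hP s hs).1⟩)
      refine ⟨R, hR1, hR2, ?_⟩
      have h1 := EC2.ineq1 hB hF0.le (mul_pos hL1 hL2).le (by linarith) (by linarith) hR3
        (q5 rfl)
      rw [hT, le_div_iff₀ hFp]
      refine h1.trans ?_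
      refine mul_le_mul (by rw [hC5]; linarith) (Real.rpow_le_rpow_of_exponent_le hB ?_)
        (by positivity) (by linarith)
      nlinarith
    | true =>
      obtain ⟨R, hR1, hR2, hR3⟩ := H2 B hB F hF0 _ _ hL1 q1 q2 q3 q4 (q6 rfl).2 X'
        (fun s hs => ⟨(hX s (hX' hs)).1, (hP s hs).1, ((hP s hs).2.2.2.2.2.2 rfl).1⟩)
      refine ⟨R, hR1, hR2, ?_⟩
      rw [hT, le_div_iff₀ hFp]
      by_cases hr2 : 4 ≤ r
      · refine hR3.trans ?_
        refine mul_le_mul (by rw [hC5]; linarith) (Real.rpow_le_rpow_of_exponent_le hB ?_)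
          (by positivity) (by linarith)
        have hr4 : (4 : ℝ) ≤ r := by exact_mod_cast hr2
        have hDn : (0 : ℝ) ≤ D := Nat.cast_nonneg D
        have h1 : κ * (D : ℝ) * (((r : ℝ) / 2 + 1 + η) / 2) + κ * ((r : ℝ) / 2 + 1 / 2) ≤ 1 / 16 := by
          rw [← hκ2]
          have h2 : (D : ℝ) * (((r : ℝ) / 2 + 1 + η) / 2) + ((r : ℝ) / 2 + 1 / 2) ≤
              ((D : ℝ) + 1) * ((r : ℝ) + 2) := by nlinarith
          calc _ = κ * ((D : ℝ) * (((r : ℝ) / 2 + 1 + η) / 2) + ((r : ℝ) / 2 + 1 / 2)) := by ring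
            _ ≤ _ := mul_le_mul_of_nonneg_left h2 hκ.le
        nlinarith
      · exfalso
        obtain ⟨F0, -, -, h2, -⟩ := (q6 rfl).1
        omega
  obtain ⟨R, hR1, hR2, hR3⟩ := EC2.union X _ P hcov T hpart
  refine ⟨R, hR1, hR2, ?_⟩
  have hT0 : 0 ≤ T := by positivity
  calc (R.card : ℝ) * F ^ (r + 1) ≤ (C3 * B ^ η * T) * F ^ (r + 1) :=
        mul_le_mul_of_nonneg_right (hR3.trans (mul_le_mul_of_nonneg_right (H3 B hB) hT0)) hFp.le
    _ = C3 * C5 * (B ^ η * B ^ ((r : ℝ) + 1 - η - η)) := by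
        rw [hT]
        field_simp
    _ = C3 * C5 * B ^ ((r : ℝ) + 1 - η) := by
        rw [← Real.rpow_add hB0]
        congr 2
        ring

end Pool.Agent.Lib.MP_44a246_ntAL
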