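import Pool.Agent.Lib.MP_44a246_ntAL.EC1
import Pool.Agent.Lib.MP_44a246_ntAL.AL15
import Pool.Agent.Lib.MP_44a246_ntAL.EC2

/-!
# The middle range
-/

set_option autoImplicit false

open NumberField IsDedekindDomain Height
open Pool.Agent.Lib.MP_4d5ce1_nt (fa nv ordv)
open Pool.Agent.Lib.MP_44a246_ntNF
open Pool.Agent.Lib.MP_44a246_ntNU

namespace Pool.Agent.Lib.MP_44a246_ntAL

universe u

namespace EC3


/-- The number of vectors, from the number of classes. -/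
private theorem class_sum {K : Type u} [Field K] [NumberField K] (r : ℕ) : ∃ C : ℝ, 1 ≤ C ∧
    ∀ B F : ℝ, ∀ X R : Finset (Vc K (r + 1)), Np X →
      (∀ s ∈ X, Gd r B s ∧ (Phi s : ℝ) ≤ 2 * F) → R ⊆ X → (∀ s ∈ X, ∃ t ∈ R, SimV t s) →
      (X.card : ℝ) ≤ C * (R.card * F ^ (r + 1)) := by
  classical
  obtain ⟨C, hC1, hC⟩ := class_count (K := K) r (r + 1)
  refine ⟨C * 2 ^ (r + 1), one_le_mul_of_one_le_of_one_le hC1 (one_le_pow₀ (by norm_num)), ?_⟩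
  intro B F X R hX h hRX hR
  have h1 : X ⊆ R.biUnion fun t => X.filter fun s => SimV t s := by
    intro s hs
    obtain ⟨t, ht, hts⟩ := hR s hs
    exact Finset.mem_biUnion.2 ⟨t, ht, Finset.mem_filter.2 ⟨hs, hts⟩⟩
  have h2 : ∀ t ∈ R, (((X.filter fun s => SimV t s).card : ℕ) : ℝ) ≤ C * (2 * F) ^ (r + 1) := by
    intro t ht
    obtain ⟨hG, hPhi⟩ := h t (hRX ht)
    refine (hC B t hG _ ?_ ?_).trans ?_
    · intro E x y hx hy
      exact hX E x y (Finset.mem_filter.1 hx).1 (Finset.mem_filter.1 hy).1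
    · intro s hs
      exact (Finset.mem_filter.1 hs).2
    · exact mul_le_mul_of_nonneg_left (pow_le_pow_left₀ (Nat.cast_nonneg _) hPhi _) (by linarith)
  calc (X.card : ℝ) ≤ ((∑ t ∈ R, (X.filter fun s => SimV t s).card : ℕ) : ℝ) := by
        exact_mod_cast (Finset.card_le_card h1).trans Finset.card_biUnion_le
    _ = ∑ t ∈ R, (((X.filter fun s => SimV t s).card : ℕ) : ℝ) := by push_cast; rfl
    _ ≤ ∑ _t ∈ R, C * (2 * F) ^ (r + 1) := Finset.sum_le_sum h2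
    _ = C * 2 ^ (r + 1) * (R.card * F ^ (r + 1)) := by
        rw [Finset.sum_const, nsmul_eq_mul, mul_pow]; ring

/-- One dyadic range. -/
private theorem one_scale {K : Type u} [Field K] [NumberField K] (r : ℕ) (hr : 3 ≤ r) (e : ℝ)
    (he : 0 < e) : ∃ δ C : ℝ, 0 < δ ∧ 1 ≤ C ∧ ∀ B : ℝ, 1 ≤ B → ∀ F : ℝ, B ^ e ≤ F →
      ∀ X : Finset (Vc K (r + 1)), Np X →
      (∀ s ∈ X, Gd r B s ∧ F ≤ Phi s ∧ (Phi s : ℝ) ≤ 2 * F ∧ (Phi s : ℝ) ≤ B ^ (1 - e)) →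
        (X.card : ℝ) ≤ C * B ^ ((r : ℝ) + 1 - δ) := by
  classical
  have hr3 : (3 : ℝ) ≤ r := by exact_mod_cast hr
  obtain ⟨η, hη⟩ : ∃ η : ℝ, η = e * ((r : ℝ) - 2) / 4 := ⟨_, rfl⟩
  have hη0 : 0 < η := by
    rw [hη]
    have : 0 < e * ((r : ℝ) - 2) := mul_pos he (by linarith)
    linarith
  obtain ⟨C₀, hC₀1, hC₀⟩ := class_sum (K := K) r
  obtain ⟨C₁, hC₁1, hC₁⟩ := mid_span (K := K) r (r + 1) (by omega) η hη0
  obtain ⟨δ₂, C₂, hδ₂, hC₂1, hC₂⟩ := mid_nonspan (K := K) r (r + 1) hr e he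
  refine ⟨min η δ₂, C₀ * C₁ + C₀ * C₂, lt_min hη0 hδ₂, ?_, ?_⟩
  · have h1 := one_le_mul_of_one_le_of_one_le hC₀1 hC₁1
    have h2 := one_le_mul_of_one_le_of_one_le hC₀1 hC₂1
    linarith
  intro B hB F hF X hX h
  have hB0 : 0 < B := by linarith
  have hF1 : 1 ≤ F := (Real.one_le_rpow hB he.le).trans hF
  have hF0 : 0 < F := by linarith
  have hnpf : ∀ Y : Finset (Vc K (r + 1)), Y ⊆ X → Np Y := fun Y hY E x y hx hy =>
    hX E x y (hY hx) (hY hy)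
  rcases X.eq_empty_or_nonempty with rfl | ⟨s₀, hs₀⟩
  · rw [Finset.card_empty, Nat.cast_zero]
    positivity
  have hFB : F ≤ B ^ (1 - e) := (h s₀ hs₀).2.1.trans (h s₀ hs₀).2.2.2
  obtain ⟨p, hp⟩ : ∃ p : Vc K (r + 1) → Prop, ∀ s : Vc K (r + 1), p s ↔
    ∃ _ : NumberField s.1, Submodule.span K (Bx (tf s.2) (ti s.2) 1) = ⊤ :=
    ⟨_, fun _ => Iff.rfl⟩
  have hsplit : X.card = (X.filter p).card + (X.filter fun s => ¬ p s).card :=
    (Finset.card_filter_add_card_filter_not p).symm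
  -- the boxes which span
  have hpart1 : ((X.filter p).card : ℝ) ≤ C₀ * C₁ * B ^ ((r : ℝ) + 1 - η) := by
    obtain ⟨R, hRX, hRS, hRc⟩ := hC₁ B hB F hF1 (X.filter p) (by
      intro s hs
      obtain ⟨hs1, hs2⟩ := Finset.mem_filter.1 hs
      obtain ⟨hG, hPhi, -⟩ := h s hs1
      exact ⟨hG, hPhi, (hp s).1 hs2⟩)
    have h1 := hC₀ B F (X.filter p) R (hnpf _ (Finset.filter_subset _ _)) (by
      intro s hs
      obtain ⟨hs1, hs2⟩ := Finset.mem_filter.1 hs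
      obtain ⟨hG, -, hPhi, -⟩ := h s hs1
      exact ⟨hG, hPhi⟩) hRX hRS
    have h2 : (B / F) ^ (((r : ℝ) + 4) / 2) * F ^ (r + 1) =
        B ^ (((r : ℝ) + 4) / 2) * F ^ (((r : ℝ) - 2) / 2) := by
      rw [Real.div_rpow hB0.le hF0.le, ← Real.rpow_natCast F (r + 1), div_mul_eq_mul_div,
        mul_div_assoc, ← Real.rpow_sub hF0]
      congr 2
      push_cast
      ring
    have h3 : F ^ (((r : ℝ) - 2) / 2) ≤ B ^ ((1 - e) * (((r : ℝ) - 2) / 2)) := by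
      rw [Real.rpow_mul hB0.le]
      exact Real.rpow_le_rpow hF0.le hFB (by linarith)
    calc ((X.filter p).card : ℝ) ≤ C₀ * (R.card * F ^ (r + 1)) := h1
      _ ≤ C₀ * ((C₁ * B ^ η * (B / F) ^ (((r : ℝ) + 4) / 2)) * F ^ (r + 1)) := by
          refine mul_le_mul_of_nonneg_left ?_ (by linarith)
          exact mul_le_mul_of_nonneg_right hRc (by positivity)
      _ = C₀ * C₁ * (B ^ η * ((B / F) ^ (((r : ℝ) + 4) / 2) * F ^ (r + 1))) := by ring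
      _ = C₀ * C₁ * (B ^ η * (B ^ (((r : ℝ) + 4) / 2) * F ^ (((r : ℝ) - 2) / 2))) := by rw [h2]
      _ ≤ C₀ * C₁ * (B ^ η * (B ^ (((r : ℝ) + 4) / 2) *
          B ^ ((1 - e) * (((r : ℝ) - 2) / 2)))) := by
          refine mul_le_mul_of_nonneg_left ?_ (by positivity)
          refine mul_le_mul_of_nonneg_left ?_ (by positivity)
          exact mul_le_mul_of_nonneg_left h3 (by positivity)
      _ = C₀ * C₁ * B ^ ((r : ℝ) + 1 - η) := by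
          rw [← Real.rpow_add hB0, ← Real.rpow_add hB0]
          congr 2
          rw [hη]
          ring
  -- the boxes which do not span
  have hpart2 : ((X.filter fun s => ¬ p s).card : ℝ) ≤ C₀ * C₂ * B ^ ((r : ℝ) + 1 - δ₂) := by
    obtain ⟨R, hRX, hRS, hRc⟩ := hC₂ B hB F hF (X.filter fun s => ¬ p s) (by
      intro s hs
      obtain ⟨hs1, hs2⟩ := Finset.mem_filter.1 hs
      obtain ⟨hG, hPhi, -⟩ := h s hs1
      refine ⟨hG, hPhi, ?_⟩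
      obtain ⟨hn, -⟩ := hG
      exact ⟨hn, fun hcon => hs2 ((hp s).2 ⟨hn, hcon⟩)⟩)
    have h1 := hC₀ B F (X.filter fun s => ¬ p s) R (hnpf _ (Finset.filter_subset _ _)) (by
      intro s hs
      obtain ⟨hs1, hs2⟩ := Finset.mem_filter.1 hs
      obtain ⟨hG, -, hPhi, -⟩ := h s hs1
      exact ⟨hG, hPhi⟩) hRX hRS
    calc ((X.filter fun s => ¬ p s).card : ℝ) ≤ C₀ * (R.card * F ^ (r + 1)) := h1
      _ ≤ C₀ * (C₂ * B ^ ((r : ℝ) + 1 - δ₂)) := mul_le_mul_of_nonneg_left hRc (by linarith)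
      _ = C₀ * C₂ * B ^ ((r : ℝ) + 1 - δ₂) := by ring
  have h3 : B ^ ((r : ℝ) + 1 - η) ≤ B ^ ((r : ℝ) + 1 - min η δ₂) :=
    Real.rpow_le_rpow_of_exponent_le hB (by linarith [min_le_left η δ₂])
  have h4 : B ^ ((r : ℝ) + 1 - δ₂) ≤ B ^ ((r : ℝ) + 1 - min η δ₂) :=
    Real.rpow_le_rpow_of_exponent_le hB (by linarith [min_le_right η δ₂])
  calc (X.card : ℝ) = ((X.filter p).card : ℝ) + ((X.filter fun s => ¬ p s).card : ℝ) := by
        rw [hsplit]; push_cast; rfl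
    _ ≤ C₀ * C₁ * B ^ ((r : ℝ) + 1 - η) + C₀ * C₂ * B ^ ((r : ℝ) + 1 - δ₂) :=
        add_le_add hpart1 hpart2
    _ ≤ C₀ * C₁ * B ^ ((r : ℝ) + 1 - min η δ₂) + C₀ * C₂ * B ^ ((r : ℝ) + 1 - min η δ₂) := by
        refine add_le_add ?_ ?_
        · exact mul_le_mul_of_nonneg_left h3 (by positivity)
        · exact mul_le_mul_of_nonneg_left h4 (by positivity)
    _ = (C₀ * C₁ + C₀ * C₂) * B ^ ((r : ℝ) + 1 - min η δ₂) := by ring

end EC3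

open EC3 in
/-- EC3 : the middle range -/
theorem mid_total {K : Type u} [Field K] [NumberField K] (r : ℕ) (hr : 3 ≤ r) (e : ℝ)
    (he : 0 < e) : ∃ δ C : ℝ, 0 < δ ∧ 1 ≤ C ∧ ∀ B : ℝ, 1 ≤ B → ∀ X : Finset (Vc K (r + 1)), Np X →
      (∀ s ∈ X, Gd r B s ∧ B ^ e ≤ (Phi s : ℝ) ∧ (Phi s : ℝ) ≤ B ^ (1 - e)) →
        (X.card : ℝ) ≤ C * B ^ ((r : ℝ) + 1 - δ) := by
  classical
  obtain ⟨δ₀, C₀, hδ₀, hC₀1, hC₀⟩ := one_scale (K := K) r hr e he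
  have hlog2 : 0 < Real.log 2 := Real.log_pos (by norm_num)
  obtain ⟨C₃, hC₃⟩ : ∃ C₃ : ℝ, C₃ = 1 + 1 / (δ₀ / 2) / Real.log 2 := ⟨_, rfl⟩
  have hC₃1 : 1 ≤ C₃ := by
    rw [hC₃]
    have : 0 ≤ 1 / (δ₀ / 2) / Real.log 2 := by positivity
    linarith
  refine ⟨δ₀ / 2, C₃ * C₀, by linarith, one_le_mul_of_one_le_of_one_le hC₃1 hC₀1, ?_⟩
  intro B hB X hX h
  have hB0 : 0 < B := by linarith
  have hBe : 0 < B ^ e := Real.rpow_pos_of_pos hB0 e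
  have hlogB : 0 ≤ Real.log B := Real.log_nonneg hB
  obtain ⟨N, hN⟩ : ∃ N : ℕ, N = ⌊Real.log B / Real.log 2⌋₊ + 1 := ⟨_, rfl⟩
  have hNle : (N : ℝ) ≤ C₃ * B ^ (δ₀ / 2) := by
    have h1 : (⌊Real.log B / Real.log 2⌋₊ : ℝ) ≤ Real.log B / Real.log 2 :=
      Nat.floor_le (div_nonneg hlogB hlog2.le)
    have h2 : Real.log B ≤ B ^ (δ₀ / 2) / (δ₀ / 2) := Real.log_le_rpow_div hB0.le (by linarith)
    have h3 : 1 ≤ B ^ (δ₀ / 2) := Real.one_le_rpow hB (by linarith)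
    have h4 : Real.log B / Real.log 2 ≤ B ^ (δ₀ / 2) / (δ₀ / 2) / Real.log 2 :=
      div_le_div_of_nonneg_right h2 hlog2.le
    have h5 : B ^ (δ₀ / 2) / (δ₀ / 2) / Real.log 2 =
        1 / (δ₀ / 2) / Real.log 2 * B ^ (δ₀ / 2) := by ring
    rw [hN, hC₃]
    push_cast
    rw [add_mul, one_mul]
    linarith
  have hcov : X ⊆ (Finset.range N).biUnion fun j => X.filter fun s =>
      B ^ e * 2 ^ j ≤ (Phi s : ℝ) ∧ (Phi s : ℝ) ≤ 2 * (B ^ e * 2 ^ j) := by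
    intro s hs
    obtain ⟨hG, h1, h2⟩ := h s hs
    have hq : 1 ≤ (Phi s : ℝ) / B ^ e := (one_le_div hBe).2 h1
    obtain ⟨j, hj1, hj2⟩ := exists_nat_pow_near hq (by norm_num : (1 : ℝ) < 2)
    have hjB : (2 : ℝ) ^ j ≤ B := by
      refine hj1.trans ?_
      rw [div_le_iff₀ hBe]
      refine h2.trans ?_
      have h3 : B ^ (1 - e) ≤ B ^ (1 + e) :=
        Real.rpow_le_rpow_of_exponent_le hB (by linarith)
      rw [Real.rpow_add hB0, Real.rpow_one] at h3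
      exact h3
    have hjN : j < N := by
      rw [hN, Nat.lt_succ_iff]
      refine Nat.le_floor ?_
      rw [le_div_iff₀ hlog2, ← Real.log_pow]
      exact Real.log_le_log (by positivity) hjB
    refine Finset.mem_biUnion.2 ⟨j, Finset.mem_range.2 hjN, Finset.mem_filter.2 ⟨hs, ?_, ?_⟩⟩
    · rw [le_div_iff₀ hBe] at hj1
      linarith [mul_comm (B ^ e) ((2 : ℝ) ^ j)]
    · rw [div_lt_iff₀ hBe, pow_succ] at hj2
      linarith [mul_comm (B ^ e) ((2 : ℝ) ^ j)]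
  have hone : ∀ j ∈ Finset.range N, (((X.filter fun s =>
      B ^ e * 2 ^ j ≤ (Phi s : ℝ) ∧ (Phi s : ℝ) ≤ 2 * (B ^ e * 2 ^ j)).card : ℕ) : ℝ) ≤
        C₀ * B ^ ((r : ℝ) + 1 - δ₀) := by
    intro j _
    refine hC₀ B hB (B ^ e * 2 ^ j) ?_ _ ?_ ?_
    · exact le_mul_of_one_le_right hBe.le (one_le_pow₀ (by norm_num))
    · intro E x y hx hy
      exact hX E x y (Finset.mem_filter.1 hx).1 (Finset.mem_filter.1 hy).1
    · intro s hs
      obtain ⟨hs1, hs2, hs3⟩ := Finset.mem_filter.1 hs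
      obtain ⟨hG, -, h2⟩ := h s hs1
      exact ⟨hG, hs2, hs3, h2⟩
  calc (X.card : ℝ) ≤ ((∑ j ∈ Finset.range N, (X.filter fun s =>
        B ^ e * 2 ^ j ≤ (Phi s : ℝ) ∧ (Phi s : ℝ) ≤ 2 * (B ^ e * 2 ^ j)).card : ℕ) : ℝ) := by
        exact_mod_cast (Finset.card_le_card hcov).trans Finset.card_biUnion_le
    _ = ∑ j ∈ Finset.range N, (((X.filter fun s =>
        B ^ e * 2 ^ j ≤ (Phi s : ℝ) ∧ (Phi s : ℝ) ≤ 2 * (B ^ e * 2 ^ j)).card : ℕ) : ℝ) := by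
        push_cast; rfl
    _ ≤ ∑ _j ∈ Finset.range N, C₀ * B ^ ((r : ℝ) + 1 - δ₀) := Finset.sum_le_sum hone
    _ = N * (C₀ * B ^ ((r : ℝ) + 1 - δ₀)) := by
        rw [Finset.sum_const, Finset.card_range, nsmul_eq_mul]
    _ ≤ C₃ * B ^ (δ₀ / 2) * (C₀ * B ^ ((r : ℝ) + 1 - δ₀)) :=
        mul_le_mul_of_nonneg_right hNle (by positivity)
    _ = C₃ * C₀ * (B ^ (δ₀ / 2) * B ^ ((r : ℝ) + 1 - δ₀)) := by ring
    _ = C₃ * C₀ * B ^ ((r : ℝ) + 1 - δ₀ / 2) := by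
        rw [← Real.rpow_add hB0]
        congr 2
        ring

end Pool.Agent.Lib.MP_44a246_ntAL
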