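import Pool.Agent.Lib.MP_44a246_ntAL.EDefs
import Pool.Agent.Lib.MP_44a246_ntAL.AL0
import Pool.Agent.Lib.MP_44a246_ntAL.AL2
import Pool.Agent.Lib.MP_44a246_ntAL.AL11
import Pool.Agent.Lib.MP_44a246_ntAL.AL17
import Pool.Agent.Lib.MP_44a246_ntAL.EA2
import Pool.Agent.Lib.MP_44a246_ntAL.EA4
import Pool.Agent.Lib.MP_44a246_ntNU.NU6c

/-!
# Bad points over one quadratic extension
-/

set_option autoImplicit false

open NumberField IsDedekindDomain Height MvPolynomial
open Pool.Agent.Lib.MP_4d5ce1_nt (fa nv ordv)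
open Pool.Agent.Lib.MP_44a246_ntNF
open Pool.Agent.Lib.MP_44a246_ntNU

namespace Pool.Agent.Lib.MP_44a246_ntAL

universe u

namespace ED1

open AL17aux

section nk
variable {E : Type*} [Field E] [NumberField E]

lemma Nk_add (k l : HeightOneSpectrum (𝓞 E) →₀ ℕ) : Nk (k + l) = Nk k * Nk l := by
  classical
  unfold Nk
  exact Finsupp.prod_add_index' (fun _ => pow_zero _) (fun _ _ _ => pow_add _ _ _)

lemma Nk_single (w : HeightOneSpectrum (𝓞 E)) (m : ℕ) : Nk (Finsupp.single w m) = nv w ^ m := by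
  unfold Nk
  exact Finsupp.prod_single_index (h := fun w e => nv w ^ e) (pow_zero _)

lemma one_le_Nk (k : HeightOneSpectrum (𝓞 E) →₀ ℕ) : 1 ≤ Nk k := by
  unfold Nk Finsupp.prod
  have h : ∀ s : Finset (HeightOneSpectrum (𝓞 E)), 1 ≤ ∏ w ∈ s, nv w ^ k w := by
    classical
    intro s
    induction s using Finset.induction_on with
    | empty => simp
    | insert a s ha ih =>
      rw [Finset.prod_insert ha]
      exact one_le_mul_of_one_le_of_one_le
        (one_le_pow₀ (Pool.Agent.Lib.MP_4d5ce1_nt.one_lt_nv a).le) ih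
  exact h _

lemma NN_pos (W : Finset (HeightOneSpectrum (𝓞 E))) : 0 < NN W := by
  rw [← Nk_chi]
  exact Nk_pos _

end nk

/-- the number of exponents above a given one -/
lemma card_ge (D : ℕ) (η : ℝ) (hη : 0 < η) : ∃ C : ℝ, 1 ≤ C ∧
    ∀ (E : Type u) [Field E] [NumberField E], Module.finrank ℚ E ≤ D → ∀ T : ℝ, 0 < T →
      ∀ (κ : HeightOneSpectrum (𝓞 E) →₀ ℕ) (Y : Finset (HeightOneSpectrum (𝓞 E) →₀ ℕ)),
      (∀ k ∈ Y, κ ≤ k ∧ Nk k ≤ T) → (Y.card : ℝ) ≤ C * (T / Nk κ) ^ (1 + η) := by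
  classical
  obtain ⟨C, hC, h⟩ := card_ideals.{u} D η hη
  refine ⟨C, hC, fun E _ _ hE T hT κ Y hY => ?_⟩
  have hκ : 0 < Nk κ := Nk_pos κ
  have h1 := h E hE (T / Nk κ) (div_pos hT hκ) (Y.image fun k => k - κ) ?_
  · rwa [Finset.card_image_of_injOn] at h1
    intro k hk l hl hkl
    have h2 : k - κ = l - κ := hkl
    have h3 := tsub_add_cancel_of_le (hY k hk).1
    have h4 := tsub_add_cancel_of_le (hY l hl).1
    rw [← h3, ← h4, h2]
  · intro l hl
    obtain ⟨k, hk, rfl⟩ := Finset.mem_image.1 hl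
    obtain ⟨h2, h3⟩ := hY k hk
    rw [le_div_iff₀ hκ, ← Nk_add, tsub_add_cancel_of_le h2]
    exact h3

/-- the number of exponents at the infinite places -/
lemma card_log (D : ℕ) (M η : ℝ) (hM : 1 ≤ M) (hη : 0 < η) : ∃ C : ℝ, 1 ≤ C ∧
    ∀ B : ℝ, 1 ≤ B → ∀ (ι : Type u) [Fintype ι], Fintype.card ι ≤ D →
      ∀ Z : Finset (ι → ℤ), (∀ e ∈ Z, ∀ w, -Real.log M - 1 ≤ e w ∧
        (e w : ℝ) ≤ Real.log (M ^ D * B)) → (Z.card : ℝ) ≤ C * B ^ η := by
  classical
  have hM0 : 0 < M := by linarith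
  have hlM : 0 ≤ Real.log M := Real.log_nonneg hM
  set ε : ℝ := η / (D + 1) with hε
  have hD0 : (0 : ℝ) < D + 1 := by positivity
  have hε0 : 0 < ε := div_pos hη hD0
  have hεD : ε * D ≤ η := by
    rw [hε, div_mul_eq_mul_div, div_le_iff₀ hD0]
    nlinarith
  set c : ℝ := D * Real.log M + Real.log M + 2 with hc
  have hc1 : 2 ≤ c := by
    have : 0 ≤ (D : ℝ) * Real.log M := by positivity
    linarith
  have hb1 : 1 ≤ 1 / ε + c := by
    have : 0 < 1 / ε := by positivity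
    linarith
  refine ⟨(1 / ε + c) ^ D, one_le_pow₀ hb1, fun B hB ι _ hι Z hZ => ?_⟩
  have hB0 : 0 < B := by linarith
  have hlB : 0 ≤ Real.log B := Real.log_nonneg hB
  set lo : ℤ := ⌈-Real.log M - 1⌉ with hlo
  set hi : ℤ := ⌊Real.log (M ^ D * B)⌋ with hhi
  have hsub : Z ⊆ Fintype.piFinset fun _ : ι => Finset.Icc lo hi := by
    intro e he
    rw [Fintype.mem_piFinset]
    intro w
    rw [Finset.mem_Icc]
    exact ⟨Int.ceil_le.2 (hZ e he w).1, Int.le_floor.2 (hZ e he w).2⟩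
  have hlog : Real.log (M ^ D * B) = D * Real.log M + Real.log B := by
    rw [Real.log_mul (pow_pos hM0 _).ne' hB0.ne', Real.log_pow]
  have hcard : ((Finset.Icc lo hi).card : ℝ) ≤ Real.log B + c := by
    rw [Int.card_Icc]
    have h1 : (hi : ℝ) ≤ Real.log (M ^ D * B) := Int.floor_le _
    have h2 : -Real.log M - 1 ≤ (lo : ℝ) := Int.le_ceil _
    rw [hlog] at h1
    have h3 : (((hi + 1 - lo).toNat : ℤ) : ℝ) ≤ Real.log B + c := by
      rw [Int.toNat_eq_max]
      push_cast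
      exact max_le (by linarith) (by linarith)
    exact_mod_cast h3
  have h4 : (Z.card : ℝ) ≤ ((Finset.Icc lo hi).card : ℝ) ^ Fintype.card ι := by
    have := Finset.card_le_card hsub
    rw [Fintype.card_piFinset, Finset.prod_const, Finset.card_univ] at this
    exact_mod_cast this
  have h5 : Real.log B + c ≤ (1 / ε + c) * B ^ ε := by
    have h6 := Real.log_le_rpow_div hB0.le hε0
    have h7 : 1 ≤ B ^ ε := Real.one_le_rpow hB hε0.le
    have h8 : c ≤ c * B ^ ε := le_mul_of_one_le_right (by linarith) h7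
    have h9 : B ^ ε / ε = 1 / ε * B ^ ε := by ring
    rw [add_mul]
    linarith
  calc (Z.card : ℝ) ≤ ((Finset.Icc lo hi).card : ℝ) ^ Fintype.card ι := h4
    _ ≤ (Real.log B + c) ^ Fintype.card ι := pow_le_pow_left₀ (Nat.cast_nonneg _) hcard _
    _ ≤ (Real.log B + c) ^ D := pow_le_pow_right₀ (by linarith) hι
    _ ≤ ((1 / ε + c) * B ^ ε) ^ D := pow_le_pow_left₀ (by linarith) h5 _
    _ = (1 / ε + c) ^ D * B ^ (ε * D) := by
        rw [mul_pow, Real.rpow_mul hB0.le, Real.rpow_natCast]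
    _ ≤ (1 / ε + c) ^ D * B ^ η :=
        mul_le_mul_of_nonneg_left (Real.rpow_le_rpow_of_exponent_le hB hεD) (by positivity)

section vec
variable {K : Type u} [Field K] [NumberField K] {n q : ℕ}
variable {E : Type u} [Field E] [NumberField E] [Algebra K E]

lemma le_tf (y : Fin (n + 1) → E) (w : HeightOneSpectrum (𝓞 E)) (i : Fin (n + 1)) :
    fa w (y i) ≤ tf y w :=
  le_ciSup (f := fun i => fa w (y i)) (Set.finite_range _).bddAbove i

lemma le_ti (y : Fin (n + 1) → E) (w : InfinitePlace E) (i : Fin (n + 1)) :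
    w (y i) ≤ ti y w :=
  le_ciSup (f := fun i => w (y i)) (Set.finite_range _).bddAbove i

lemma tf_smul (z : E) (x : Fin (n + 1) → E) (w : HeightOneSpectrum (𝓞 E)) :
    tf (z • x) w = fa w z * tf x w := by
  unfold tf
  rw [Real.mul_iSup_of_nonneg (Pool.Agent.Lib.MP_4d5ce1_nt.fa_nonneg w z)]
  congr 1
  funext i
  rw [Pi.smul_apply, smul_eq_mul, Pool.Agent.Lib.MP_4d5ce1_nt.fa_mul]

lemma ti_smul (z : E) (x : Fin (n + 1) → E) (w : InfinitePlace E) :
    ti (z • x) w = w z * ti x w := by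
  unfold ti
  rw [Real.mul_iSup_of_nonneg (apply_nonneg w z)]
  congr 1
  funext i
  rw [Pi.smul_apply, smul_eq_mul, map_mul]

lemma lin_smul (L : Fin q → Fin (n + 1) → K) (j : Fin q) (z : E) (x : Fin (n + 1) → E) :
    lin (up E L j) (z • x) = z * lin (up E L j) x := by
  unfold lin
  rw [Finset.mul_sum]
  refine Finset.sum_congr rfl fun i _ => ?_
  rw [Pi.smul_apply, smul_eq_mul]
  ring

lemma lin_fa_le (L : Fin q → Fin (n + 1) → K)
    (hL : ∀ v j i, fa v (L j i) ≤ 1) (w : HeightOneSpectrum (𝓞 E))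
    (y : Fin (n + 1) → E) (j : Fin q) : fa w (lin (up E L j) y) ≤ tf y w := by
  obtain ⟨v, hv⟩ := exists_below (K := K) w
  obtain ⟨m, -, -, hm⟩ := fa_up_lt_iff hv
  have ht0 : 0 ≤ tf y w := (Pool.Agent.Lib.MP_4d5ce1_nt.fa_nonneg w _).trans (le_tf y w 0)
  unfold lin up
  refine Pool.Agent.Lib.MP_4d5ce1_nt.fa_sum_le w _ _ _ ht0 fun i _ => ?_
  rw [Pool.Agent.Lib.MP_4d5ce1_nt.fa_mul, hm]
  calc fa v (L j i) ^ m * fa w (y i) ≤ 1 * fa w (y i) :=
        mul_le_mul_of_nonneg_right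
          (pow_le_one₀ (Pool.Agent.Lib.MP_4d5ce1_nt.fa_nonneg _ _) (hL v j i))
          (Pool.Agent.Lib.MP_4d5ce1_nt.fa_nonneg _ _)
    _ ≤ tf y w := by rw [one_mul]; exact le_tf y w i

/-- A normalized vector: exponents. -/
structure Nrm (L : Fin q → Fin (n + 1) → K) (j : Fin q) (B : ℝ) (y : Fin (n + 1) → E)
    (k : HeightOneSpectrum (𝓞 E) →₀ ℕ) : Prop where
  one : lin (up E L j) y = 1
  gen : IntermediateField.adjoin K {z : E | ∃ i k, z = y i / y k} = ⊤
  ht : mulHeight y ≤ B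
  fin : ∀ w, tf y w = nv w ^ k w
  inf : ∀ w : InfinitePlace E, 1 ≤ (1 + cI L) * ti y w
  prod : Nk k * ∏ w : InfinitePlace E, ti y w ^ w.mult = mulHeight y

lemma exists_nrm (L : Fin q → Fin (n + 1) → K) (hL : ∀ v j i, fa v (L j i) ≤ 1) (j : Fin q)
    (B : ℝ) (y : Fin (n + 1) → E) (h1 : lin (up E L j) y = 1)
    (h2 : IntermediateField.adjoin K {z : E | ∃ i k, z = y i / y k} = ⊤)
    (h3 : mulHeight y ≤ B) : ∃ k, Nrm L j B y k := by
  classical
  have hy : y ≠ 0 := by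
    rintro rfl
    simp [lin] at h1
  obtain ⟨hadm, hhb⟩ := adm_tf y hy
  have hone : ∀ w, 1 ≤ tf y w := by
    intro w
    have := lin_fa_le L hL w y j
    rwa [h1, Pool.Agent.Lib.MP_4d5ce1_nt.fa_one] at this
  have hex : ∀ w, ∃ m : ℕ, tf y w = nv w ^ m := by
    intro w
    obtain ⟨z, hz⟩ := hadm.pow w
    have h4 := hone w
    rw [hz] at h4
    have h5 : 0 ≤ z := by
      by_contra h6
      push Not at h6
      exact absurd (zpow_lt_one_of_neg₀ (Pool.Agent.Lib.MP_4d5ce1_nt.one_lt_nv w) h6)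
        (not_lt.2 h4)
    obtain ⟨m, rfl⟩ := Int.eq_ofNat_of_zero_le h5
    exact ⟨m, by rw [hz]; exact zpow_natCast _ _⟩
  choose m hm using hex
  have hfin : (Function.support m).Finite := by
    refine hadm.fin.subset fun w hw => ?_
    rw [Function.mem_mulSupport, hm w]
    intro h4
    rcases pow_eq_one_iff_of_nonneg (Pool.Agent.Lib.MP_4d5ce1_nt.nv_pos w).le
      (Function.mem_support.1 hw) |>.1 h4 with h5
    exact absurd h5 (Pool.Agent.Lib.MP_4d5ce1_nt.one_lt_nv w).ne'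
  have hk : ∀ w, Finsupp.ofSupportFinite m hfin w = m w := fun w => rfl
  refine ⟨Finsupp.ofSupportFinite m hfin, h1, h2, h3, fun w => ?_, fun w => ?_, ?_⟩
  · rw [hk, hm]
  · have h4 := AL17aux.lin_inf_le L w y (ti y w) ((apply_nonneg w _).trans (le_ti y w 0))
      (le_ti y w) j
    rw [h1, map_one] at h4
    have h5 : 0 ≤ ti y w := (apply_nonneg w _).trans (le_ti y w 0)
    linarith
  · rw [← hhb]
    unfold hb
    congr 1
    rw [finprod_eq_prod_of_mulSupport_subset (s := (Finsupp.ofSupportFinite m hfin).support)]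
    · unfold Nk Finsupp.prod
      refine Finset.prod_congr rfl fun w _ => ?_
      rw [hk, hm]
    · intro w hw
      rw [Function.mem_mulSupport, hm w] at hw
      rw [Finset.mem_coe, Finsupp.mem_support_iff, hk]
      intro h4
      exact hw (by rw [h4, pow_zero])

lemma prod_const_mult (c : ℝ) : ∏ w : InfinitePlace E, c ^ w.mult = c ^ Module.finrank ℚ E := by
  rw [Finset.prod_pow_eq_pow_sum, InfinitePlace.sum_mult_eq]

lemma prod_mul_mult (c : ℝ) (t : InfinitePlace E → ℝ) :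
    ∏ w : InfinitePlace E, (c * t w) ^ w.mult =
      c ^ Module.finrank ℚ E * ∏ w : InfinitePlace E, t w ^ w.mult := by
  simp only [mul_pow]
  rw [Finset.prod_mul_distrib, prod_const_mult]

/-- bound for the exponents -/
lemma Nrm.bound {L : Fin q → Fin (n + 1) → K} {j : Fin q} {B : ℝ} {y : Fin (n + 1) → E}
    {k : HeightOneSpectrum (𝓞 E) →₀ ℕ} (h : Nrm L j B y k) (w : InfinitePlace E) :
    Nk k * ((1 + cI L) * ti y w) ≤ (1 + cI L) ^ Module.finrank ℚ E * B := by
  classical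
  have hc : 0 ≤ cI L := cI_nonneg L
  have h1 : (1 + cI L) * ti y w ≤
      ∏ w : InfinitePlace E, ((1 + cI L) * ti y w) ^ w.mult := by
    rw [← Finset.mul_prod_erase _ _ (Finset.mem_univ w)]
    have h2 : 1 ≤ ∏ w ∈ Finset.univ.erase w, ((1 + cI L) * ti y w) ^ w.mult := by
      have h3 : ∀ s : Finset (InfinitePlace E), 1 ≤ ∏ w ∈ s, ((1 + cI L) * ti y w) ^ w.mult := by
        intro s
        induction s using Finset.induction_on with
        | empty => simp
        | insert a s ha ih =>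
          rw [Finset.prod_insert ha]
          exact one_le_mul_of_one_le_of_one_le (one_le_pow₀ (h.inf a)) ih
      exact h3 _
    have h4 : (1 + cI L) * ti y w ≤ ((1 + cI L) * ti y w) ^ w.mult :=
      le_self_pow₀ (h.inf w) InfinitePlace.mult_pos.ne'
    calc (1 + cI L) * ti y w ≤ ((1 + cI L) * ti y w) ^ w.mult := h4
      _ ≤ _ := le_mul_of_one_le_right (pow_nonneg (by linarith [h.inf w]) _) h2
  calc Nk k * ((1 + cI L) * ti y w)
      ≤ Nk k * ∏ w : InfinitePlace E, ((1 + cI L) * ti y w) ^ w.mult :=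
        mul_le_mul_of_nonneg_left h1 (Nk_pos k).le
    _ = (1 + cI L) ^ Module.finrank ℚ E * mulHeight y := by
        rw [prod_mul_mult, ← h.prod]
        ring
    _ ≤ _ := mul_le_mul_of_nonneg_left h.ht (by positivity)

/-- the exponents at the infinite places -/
noncomputable def ee (y : Fin (n + 1) → E) (w : InfinitePlace E) : ℤ := ⌊Real.log (ti y w)⌋

lemma Nrm.ti_pos {L : Fin q → Fin (n + 1) → K} {j : Fin q} {B : ℝ} {y : Fin (n + 1) → E}
    {k : HeightOneSpectrum (𝓞 E) →₀ ℕ} (h : Nrm L j B y k) (w : InfinitePlace E) :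
    0 < ti y w := by
  have h1 := h.inf w
  have hc : 0 ≤ cI L := cI_nonneg L
  by_contra h2
  push Not at h2
  nlinarith

lemma ee_le {y : Fin (n + 1) → E} {w : InfinitePlace E} (h : 0 < ti y w) :
    ti y w ≤ Real.exp (ee y w + 1) ∧ Real.exp (ee y w + 1) ≤ Real.exp 1 * ti y w := by
  unfold ee
  constructor
  · rw [← Real.log_le_iff_le_exp h]
    exact (Int.lt_floor_add_one _).le
  · rw [Real.exp_add, mul_comm]
    refine mul_le_mul_of_nonneg_left ?_ (Real.exp_pos _).le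
    rw [← Real.le_log_iff_exp_le h]
    exact Int.floor_le _

lemma Nrm.ee_bound {L : Fin q → Fin (n + 1) → K} {j : Fin q} {B : ℝ} {y : Fin (n + 1) → E}
    {k : HeightOneSpectrum (𝓞 E) →₀ ℕ} (h : Nrm L j B y k) (w : InfinitePlace E) :
    -Real.log (1 + cI L) - 1 ≤ ee y w ∧
      (ee y w : ℝ) ≤ Real.log ((1 + cI L) ^ Module.finrank ℚ E * B) := by
  have hc : 0 ≤ cI L := cI_nonneg L
  have hc1 : 0 < 1 + cI L := by linarith
  have ht := h.ti_pos w
  constructor
  · have h1 : -Real.log (1 + cI L) ≤ Real.log (ti y w) := by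
      rw [← Real.log_inv]
      refine Real.log_le_log (inv_pos.2 hc1) ?_
      rw [inv_le_iff_one_le_mul₀ hc1]
      rw [mul_comm]
      exact h.inf w
    have h2 := Int.lt_floor_add_one (Real.log (ti y w))
    unfold ee
    linarith
  · have h1 : (ee y w : ℝ) ≤ Real.log (ti y w) := Int.floor_le _
    refine h1.trans (Real.log_le_log ht ?_)
    refine le_trans ?_ (h.bound w)
    have h2 : 1 ≤ Nk k := one_le_Nk k
    calc ti y w ≤ 1 * (1 * ti y w) := by rw [one_mul, one_mul]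
      _ ≤ Nk k * ((1 + cI L) * ti y w) := by
          refine mul_le_mul h2 (mul_le_mul_of_nonneg_right (by linarith) ht.le) ?_ (Nk_pos k).le
          rw [one_mul]
          exact ht.le

/-- two elements with ratio outside `K` span a quadratic extension -/
lemma span_top (h2 : Module.finrank K E = 2) (S : Set E) (a b : E) (ha : a ∈ S) (hb : b ∈ S)
    (hb0 : b ≠ 0) (hab : ∀ c : K, a ≠ algebraMap K E c * b) : Submodule.span K S = ⊤ := by
  have hfd : Module.Finite K E := Module.finite_of_finrank_pos (by omega)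
  have hli : LinearIndependent K ![a, b] := by
    rw [LinearIndependent.pair_iff]
    intro s t hst
    have hs : s = 0 := by
      by_contra hs
      apply hab (-(t / s))
      have hs' : algebraMap K E s ≠ 0 := by simpa using hs
      rw [Algebra.smul_def, Algebra.smul_def] at hst
      rw [map_neg, map_div₀]
      field_simp
      linear_combination hst
    refine ⟨hs, ?_⟩
    rw [hs, zero_smul, zero_add, Algebra.smul_def] at hst
    have h3 : algebraMap K E t = 0 := (mul_eq_zero.1 hst).resolve_right hb0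
    simpa using h3
  have h4 := hli.span_eq_top_of_card_eq_finrank (by simp [h2])
  rw [eq_top_iff, ← h4]
  refine Submodule.span_mono ?_
  rintro x ⟨i, rfl⟩
  fin_cases i
  · exact ha
  · exact hb

lemma bot_ne_top (h2 : Module.finrank K E = 2) : (⊥ : IntermediateField K E) ≠ ⊤ := by
  intro h
  have h3 : Module.finrank K (⊥ : IntermediateField K E) = Module.finrank K E := by
    rw [h, IntermediateField.finrank_top']
  rw [IntermediateField.finrank_bot] at h3
  omega

lemma ratio (h2 : Module.finrank K E = 2) (y : Fin (n + 1) → E)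
    (h : IntermediateField.adjoin K {z : E | ∃ i k, z = y i / y k} = ⊤) :
    ∃ i k, y k ≠ 0 ∧ ∀ c : K, y i ≠ algebraMap K E c * y k := by
  by_contra hcon
  push Not at hcon
  apply bot_ne_top h2
  rw [eq_top_iff, ← h, IntermediateField.adjoin_le_iff]
  rintro z ⟨i, k, rfl⟩
  rw [SetLike.mem_coe, IntermediateField.mem_bot]
  by_cases hk : y k = 0
  · exact ⟨0, by rw [hk, div_zero, map_zero]⟩
  · obtain ⟨c, hc⟩ := hcon i k hk
    exact ⟨c, by rw [hc, mul_div_assoc, div_self hk, mul_one]⟩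

lemma gen_notMem (h2 : Module.finrank K E = 2) (f : E)
    (h : IntermediateField.adjoin K {f} = ⊤) (c : K) : f ≠ algebraMap K E c := by
  intro hf
  apply bot_ne_top h2
  rw [eq_top_iff, ← h, IntermediateField.adjoin_le_iff]
  rintro z rfl
  rw [SetLike.mem_coe, IntermediateField.mem_bot]
  exact ⟨c, hf.symm⟩

lemma adm_code (k : HeightOneSpectrum (𝓞 E) →₀ ℕ) (e : InfinitePlace E → ℤ) (c : ℝ)
    (hc : 0 < c) : Adm (fun w => nv w ^ k w) (fun w => c * Real.exp (e w + 1)) := by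
  refine ⟨fun w => ⟨k w, (zpow_natCast _ _).symm⟩, ?_, fun w => mul_pos hc (Real.exp_pos _)⟩
  refine mulSupport_fin_of_subset _ k.support fun w hw => ?_
  have h0 : k w = 0 := by simpa using hw
  rw [h0, pow_zero]

lemma hb_code (k : HeightOneSpectrum (𝓞 E) →₀ ℕ) (e : InfinitePlace E → ℤ) (c : ℝ) :
    hb (fun w => nv w ^ k w) (fun w => c * Real.exp (e w + 1)) =
      Nk k * (c ^ Module.finrank ℚ E * ∏ w : InfinitePlace E, Real.exp (e w + 1) ^ w.mult) := by
  unfold hb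
  rw [prod_mul_mult, finprod_eq_prod_of_mulSupport_subset (s := k.support)]
  · rfl
  · intro w hw
    rw [Function.mem_mulSupport] at hw
    rw [Finset.mem_coe, Finsupp.mem_support_iff]
    intro h4
    exact hw (by rw [h4, pow_zero])

lemma Nrm.exp_bound {L : Fin q → Fin (n + 1) → K} {j : Fin q} {B : ℝ} {y : Fin (n + 1) → E}
    {k : HeightOneSpectrum (𝓞 E) →₀ ℕ} (h : Nrm L j B y k) :
    Nk k * ∏ w : InfinitePlace E, Real.exp (ee y w + 1) ^ w.mult ≤
      Real.exp 1 ^ Module.finrank ℚ E * B := by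
  have h1 : ∏ w : InfinitePlace E, Real.exp (ee y w + 1) ^ w.mult ≤
      ∏ w : InfinitePlace E, (Real.exp 1 * ti y w) ^ w.mult :=
    Finset.prod_le_prod (fun w _ => pow_nonneg (Real.exp_pos _).le _) fun w _ =>
      pow_le_pow_left₀ (Real.exp_pos _).le (ee_le (h.ti_pos w)).2 _
  rw [prod_mul_mult] at h1
  calc Nk k * ∏ w : InfinitePlace E, Real.exp (ee y w + 1) ^ w.mult
      ≤ Nk k * (Real.exp 1 ^ Module.finrank ℚ E * ∏ w : InfinitePlace E, ti y w ^ w.mult) :=
        mul_le_mul_of_nonneg_left h1 (Nk_pos k).le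
    _ = Real.exp 1 ^ Module.finrank ℚ E * mulHeight y := by
        rw [← h.prod]
        ring
    _ ≤ _ := mul_le_mul_of_nonneg_left h.ht (pow_nonneg (Real.exp_pos _).le _)

lemma Nrm.mem_box {L : Fin q → Fin (n + 1) → K} {j : Fin q} {B : ℝ} {y : Fin (n + 1) → E}
    {k : HeightOneSpectrum (𝓞 E) →₀ ℕ} (h : Nrm L j B y k) (i : Fin (n + 1)) :
    y i ∈ Bx (fun w => nv w ^ k w) (fun w => 1 * Real.exp (ee y w + 1)) 1 := by
  refine ⟨fun w => ?_, fun w => ?_⟩
  · show fa w (y i) ≤ nv w ^ k w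
    rw [← h.fin]
    exact le_tf y w i
  · show w (y i) ≤ 1 * (1 * Real.exp ((ee y w : ℝ) + 1))
    rw [one_mul, one_mul]
    exact (le_ti y w i).trans (ee_le (h.ti_pos w)).1

end vec

/-- the vectors with a given code -/
lemma fiber {K : Type u} [Field K] [NumberField K] {n q : ℕ} (L : Fin q → Fin (n + 1) → K) :
    ∃ C : ℝ, 1 ≤ C ∧ ∀ (E : Type u) [Field E] [NumberField E] [Algebra K E],
      Module.finrank K E = 2 → ∀ B : ℝ, 1 ≤ B → ∀ (j : Fin q)
      (k : HeightOneSpectrum (𝓞 E) →₀ ℕ) (e : InfinitePlace E → ℤ)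
      (Y : Finset (Fin (n + 1) → E)), (∀ y ∈ Y, Nrm L j B y k ∧ ee y = e) →
      (Y.card : ℝ) * √|((discr E : ℤ) : ℝ)| ^ n ≤ (C * B) ^ n := by
  classical
  obtain ⟨C, hC, hbox⟩ := box_disc.{u} (K := K) 2
  set D : ℕ := Module.finrank ℚ K * 2 with hD
  have he1 : (1 : ℝ) ≤ Real.exp 1 ^ D := one_le_pow₀ (Real.one_le_exp (by norm_num))
  refine ⟨C * Real.exp 1 ^ D, one_le_mul_of_one_le_of_one_le hC he1, ?_⟩
  intro E _ _ _ h2 B hB j k e Y hY
  have hDE : Module.finrank ℚ E = D := by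
    rw [hD, ← h2, Module.finrank_mul_finrank ℚ K E]
  have hC0 : 0 < C := by linarith
  rcases Y.eq_empty_or_nonempty with rfl | ⟨y, hy⟩
  · simp only [Finset.card_empty, Nat.cast_zero, zero_mul]
    positivity
  obtain ⟨hN, he⟩ := hY y hy
  set Bs := Bx (fun w => nv w ^ k w) (fun w : InfinitePlace E => 1 * Real.exp (e w + 1)) 1
    with hBs
  have hadm := adm_code k e 1 one_pos
  have hfin : Bs.Finite := box_finite hadm 1
  have hmem : ∀ y ∈ Y, ∀ i, y i ∈ hfin.toFinset := by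
    intro y hy i
    obtain ⟨hN, he⟩ := hY y hy
    rw [Set.Finite.mem_toFinset, hBs, ← he]
    exact hN.mem_box i
  have hspan : Submodule.span K Bs = ⊤ := by
    obtain ⟨i, l, hl, hc⟩ := ratio h2 y hN.gen
    exact span_top h2 Bs (y i) (y l) (hfin.mem_toFinset.1 (hmem y hy i))
      (hfin.mem_toFinset.1 (hmem y hy l)) hl hc
  have h3 := hbox E h2 _ _ hadm hspan
  have h4 : (hfin.toFinset.card : ℝ) * √|((discr E : ℤ) : ℝ)| ≤ C * Real.exp 1 ^ D * B := by
    rw [← Set.ncard_eq_toFinset_card Bs hfin]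
    refine h3.trans ?_
    rw [mul_assoc]
    refine mul_le_mul_of_nonneg_left ?_ hC0.le
    rw [hb_code, one_pow, one_mul, ← hDE, ← he]
    exact hN.exp_bound
  have hLj : L j ≠ 0 := by
    intro h0
    have h5 := hN.one
    simp [lin, up, h0] at h5
  have h6 := oneform L j hLj Y hfin.toFinset hmem
  have h7 : (Y.image fun y => lin (up E L j) y).card ≤ 1 := by
    rw [Finset.card_le_one]
    intro a ha b hb
    obtain ⟨y1, hy1, rfl⟩ := Finset.mem_image.1 ha
    obtain ⟨y2, hy2, rfl⟩ := Finset.mem_image.1 hb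
    rw [(hY y1 hy1).1.one, (hY y2 hy2).1.one]
  have h8 : (Y.card : ℝ) ≤ (hfin.toFinset.card : ℝ) ^ n := by
    have h9 : Y.card ≤ 1 * hfin.toFinset.card ^ n :=
      h6.trans (Nat.mul_le_mul_right _ h7)
    rw [one_mul] at h9
    exact_mod_cast h9
  calc (Y.card : ℝ) * √|((discr E : ℤ) : ℝ)| ^ n
      ≤ (hfin.toFinset.card : ℝ) ^ n * √|((discr E : ℤ) : ℝ)| ^ n :=
        mul_le_mul_of_nonneg_right h8 (by positivity)
    _ = ((hfin.toFinset.card : ℝ) * √|((discr E : ℤ) : ℝ)|) ^ n := by rw [mul_pow]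
    _ ≤ _ := pow_le_pow_left₀ (by positivity) h4 n

/-- the vectors with a given code and a common divisor of two forms -/
lemma fiber3 {K : Type u} [Field K] [NumberField K] {n q : ℕ} (L : Fin q → Fin (n + 1) → K)
    (hL : ∀ v j i, fa v (L j i) ≤ 1) :
    ∃ C : ℝ, 1 ≤ C ∧ ∀ (E : Type u) [Field E] [NumberField E] [Algebra K E],
      Module.finrank K E = 2 → ∀ B : ℝ, 1 ≤ B → ∀ (i j : Fin q)
      (k : HeightOneSpectrum (𝓞 E) →₀ ℕ) (e : InfinitePlace E → ℤ)
      (W : Finset (HeightOneSpectrum (𝓞 E)))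
      (Y : Finset (Fin (n + 1) → E)), (∀ y ∈ Y, (Nrm L j B y k ∧ ee y = e) ∧
        IntermediateField.adjoin K {lin (up E L i) y} = ⊤ ∧
        ∀ w ∈ W, fa w (lin (up E L i) y) * nv w ≤ tf y w ∧ nv w ≤ tf y w) →
      (Y.card : ℝ) * √|((discr E : ℤ) : ℝ)| ^ n ≤ (C * B) ^ n / NN W := by
  classical
  obtain ⟨C, hC, hbox⟩ := box_disc.{u} (K := K) 2
  set D : ℕ := Module.finrank ℚ K * 2 with hD
  have he1 : (1 : ℝ) ≤ Real.exp 1 ^ D := one_le_pow₀ (Real.one_le_exp (by norm_num))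
  have hcI : 0 ≤ cI L := cI_nonneg L
  have hcI1 : (1 : ℝ) ≤ (1 + cI L) ^ D := one_le_pow₀ (by linarith)
  have hC1 : 1 ≤ C * ((1 + cI L) ^ D * Real.exp 1 ^ D) :=
    one_le_mul_of_one_le_of_one_le hC (one_le_mul_of_one_le_of_one_le hcI1 he1)
  refine ⟨C * ((1 + cI L) ^ D * Real.exp 1 ^ D), hC1, ?_⟩
  intro E _ _ _ h2 B hB i j k e W Y hY
  have hDE : Module.finrank ℚ E = D := by
    rw [hD, ← h2, Module.finrank_mul_finrank ℚ K E]
  have hC0 : 0 < C := by linarith
  rcases Y.eq_empty_or_nonempty with rfl | ⟨y, hy⟩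
  · simp only [Finset.card_empty, Nat.cast_zero, zero_mul]
    exact div_nonneg (by positivity) (NN_pos W).le
  obtain ⟨⟨hN, he⟩, hg, hW⟩ := hY y hy
  set Bs := Bx (fun w => nv w ^ k w) (fun w : InfinitePlace E => 1 * Real.exp (e w + 1)) 1
    with hBs
  have hadm := adm_code k e 1 one_pos
  have hfin : Bs.Finite := box_finite hadm 1
  have hmem : ∀ y ∈ Y, ∀ i, y i ∈ hfin.toFinset := by
    intro y hy i
    obtain ⟨⟨hN, he⟩, -⟩ := hY y hy
    rw [Set.Finite.mem_toFinset, hBs, ← he]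
    exact hN.mem_box i
  have hspan : Submodule.span K Bs = ⊤ := by
    obtain ⟨i, l, hl, hc⟩ := ratio h2 y hN.gen
    exact span_top h2 Bs (y i) (y l) (hfin.mem_toFinset.1 (hmem y hy i))
      (hfin.mem_toFinset.1 (hmem y hy l)) hl hc
  have h3 := hbox E h2 _ _ hadm hspan
  have hPB : Nk k * ∏ w : InfinitePlace E, Real.exp (e w + 1) ^ w.mult ≤
      Real.exp 1 ^ D * B := by
    rw [← hDE, ← he]
    exact hN.exp_bound
  have h4 : (hfin.toFinset.card : ℝ) * √|((discr E : ℤ) : ℝ)| ≤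
      C * ((1 + cI L) ^ D * Real.exp 1 ^ D) * B := by
    rw [← Set.ncard_eq_toFinset_card Bs hfin]
    refine h3.trans ?_
    rw [mul_assoc]
    refine mul_le_mul_of_nonneg_left ?_ hC0.le
    rw [hb_code, one_pow, one_mul]
    refine hPB.trans ?_
    rw [mul_assoc]
    exact le_mul_of_one_le_left (by positivity) hcI1
  -- the second box
  have hkW : ∀ w ∈ W, 1 ≤ k w := by
    intro w hw
    have h5 := (hW w hw).2
    rw [hN.fin] at h5
    by_contra h6
    have h7 : k w = 0 := by omega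
    rw [h7, pow_zero] at h5
    linarith [Pool.Agent.Lib.MP_4d5ce1_nt.two_le_nv w]
  have hle : chi W ≤ k := by
    intro w
    by_cases hw : w ∈ W
    · rw [chi_of_mem hw]
      exact hkW w hw
    · rw [chi_of_notMem hw]
      exact Nat.zero_le _
  have hNk : Nk (k - chi W) = Nk k / NN W := by
    rw [eq_div_iff (NN_pos W).ne', ← Nk_chi, ← Nk_add, tsub_add_cancel_of_le hle]
  set Bt := Bx (fun w => nv w ^ (k - chi W) w)
    (fun w : InfinitePlace E => (1 + cI L) * Real.exp (e w + 1)) 1 with hBt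
  have hadm2 := adm_code (k - chi W) e (1 + cI L) (by linarith)
  have hfin2 : Bt.Finite := box_finite hadm2 1
  have hval : ∀ w, (k - chi W) w = k w - chi W w := fun w => by
    rw [Finsupp.coe_tsub, Pi.sub_apply]
  have hone : (1 : E) ∈ Bt := by
    refine ⟨fun w => ?_, fun w => ?_⟩
    · rw [Pool.Agent.Lib.MP_4d5ce1_nt.fa_one]
      exact one_le_pow₀ (Pool.Agent.Lib.MP_4d5ce1_nt.one_lt_nv w).le
    · rw [map_one, one_mul]
      refine (hN.inf w).trans (mul_le_mul_of_nonneg_left ?_ (by linarith))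
      rw [← he]
      exact (ee_le (hN.ti_pos w)).1
  have hf : ∀ y ∈ Y, lin (up E L i) y ∈ Bt := by
    intro y hy
    obtain ⟨⟨hN, he⟩, hg, hW⟩ := hY y hy
    refine ⟨fun w => ?_, fun w => ?_⟩
    · show fa w _ ≤ nv w ^ (k - chi W) w
      rw [hval]
      by_cases hw : w ∈ W
      · rw [chi_of_mem hw]
        have h5 := (hW w hw).1
        rw [hN.fin] at h5
        have h6 : nv w ^ k w = nv w ^ (k w - 1) * nv w := by
          rw [← pow_succ]
          congr 1
          have := hkW w hw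
          omega
        rw [h6] at h5
        exact le_of_mul_le_mul_right h5 (Pool.Agent.Lib.MP_4d5ce1_nt.nv_pos w)
      · rw [chi_of_notMem hw, Nat.sub_zero, ← hN.fin]
        exact lin_fa_le L hL w y i
    · rw [one_mul]
      have h5 := AL17aux.lin_inf_le L w y (ti y w) (hN.ti_pos w).le (le_ti y w) i
      refine h5.trans ?_
      refine mul_le_mul (by linarith) ?_ (hN.ti_pos w).le (by linarith)
      rw [← he]
      exact (ee_le (hN.ti_pos w)).1
  have hspan2 : Submodule.span K Bt = ⊤ := by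
    refine span_top h2 Bt (lin (up E L i) y) 1 (hf y hy) hone one_ne_zero fun c => ?_
    rw [mul_one]
    exact gen_notMem h2 _ hg c
  have h5 := hbox E h2 _ _ hadm2 hspan2
  set V := Y.image fun y => lin (up E L i) y with hV
  have hVB : V ⊆ hfin2.toFinset := by
    intro f hf'
    obtain ⟨y, hy, rfl⟩ := Finset.mem_image.1 hf'
    exact hfin2.mem_toFinset.2 (hf y hy)
  have h6 : (V.card : ℝ) * √|((discr E : ℤ) : ℝ)| ≤
      C * ((1 + cI L) ^ D * Real.exp 1 ^ D) * B / NN W := by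
    have h7 : (V.card : ℝ) ≤ (Bt.ncard : ℝ) := by
      rw [Set.ncard_eq_toFinset_card Bt hfin2]
      exact_mod_cast Finset.card_le_card hVB
    refine (mul_le_mul_of_nonneg_right h7 (by positivity)).trans (h5.trans ?_)
    rw [hb_code, hNk, hDE]
    calc C * (Nk k / NN W * ((1 + cI L) ^ D *
            ∏ w : InfinitePlace E, Real.exp (e w + 1) ^ w.mult))
        = C * (1 + cI L) ^ D * (Nk k *
            ∏ w : InfinitePlace E, Real.exp (e w + 1) ^ w.mult) / NN W := by ring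
      _ ≤ C * (1 + cI L) ^ D * (Real.exp 1 ^ D * B) / NN W :=
          div_le_div_of_nonneg_right (mul_le_mul_of_nonneg_left hPB (by positivity))
            (NN_pos W).le
      _ = _ := by ring
  have hind : LinearIndependent K ![L i, L j] := by
    rw [LinearIndependent.pair_iff]
    intro s t hst
    have h7 : algebraMap K E s * lin (up E L i) y + algebraMap K E t = 0 := by
      have h8 : algebraMap K E t = algebraMap K E t * lin (up E L j) y := by
        rw [hN.one, mul_one]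
      rw [h8]
      unfold lin up
      rw [Finset.mul_sum, Finset.mul_sum, ← Finset.sum_add_distrib]
      refine Finset.sum_eq_zero fun x _ => ?_
      have h9 : s * L i x + t * L j x = 0 := by
        have := congrFun hst x
        simpa using this
      have h10 : algebraMap K E s * algebraMap K E (L i x) +
          algebraMap K E t * algebraMap K E (L j x) = 0 := by
        rw [← map_mul, ← map_mul, ← map_add, h9, map_zero]
      linear_combination y x * h10
    have hs : s = 0 := by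
      by_contra hs
      apply gen_notMem h2 _ hg (-(t / s))
      have hs' : algebraMap K E s ≠ 0 := by simpa using hs
      rw [map_neg, map_div₀]
      field_simp
      linear_combination h7
    refine ⟨hs, ?_⟩
    rw [hs, map_zero, zero_mul, zero_add] at h7
    simpa using h7
  have hn1 : 1 ≤ n := by
    obtain ⟨s, t, hst, -⟩ := exists_minor _ _ hind
    by_contra h7
    have h8 : n = 0 := by omega
    subst h8
    exact hst (Subsingleton.elim (α := Fin 1) s t)
  have h7 := twoform L i j hind Y hfin.toFinset hmem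
  have h8 : (Y.image fun y => lin (up E L j) y).card ≤ 1 := by
    rw [Finset.card_le_one]
    intro a ha b hb
    obtain ⟨y1, hy1, rfl⟩ := Finset.mem_image.1 ha
    obtain ⟨y2, hy2, rfl⟩ := Finset.mem_image.1 hb
    rw [(hY y1 hy1).1.1.one, (hY y2 hy2).1.1.one]
  have h9 : (Y.card : ℝ) ≤ (V.card : ℝ) * (hfin.toFinset.card : ℝ) ^ (n - 1) := by
    have h10 : Y.card ≤ V.card * 1 * hfin.toFinset.card ^ (n - 1) :=
      h7.trans (Nat.mul_le_mul_right _ (Nat.mul_le_mul_left _ h8))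
    rw [mul_one] at h10
    exact_mod_cast h10
  obtain ⟨m, rfl⟩ : ∃ m, n = m + 1 := ⟨n - 1, by omega⟩
  rw [Nat.add_sub_cancel] at h9
  calc (Y.card : ℝ) * √|((discr E : ℤ) : ℝ)| ^ (m + 1)
      ≤ (V.card : ℝ) * (hfin.toFinset.card : ℝ) ^ m * √|((discr E : ℤ) : ℝ)| ^ (m + 1) :=
        mul_le_mul_of_nonneg_right h9 (by positivity)
    _ = ((V.card : ℝ) * √|((discr E : ℤ) : ℝ)|) *
        ((hfin.toFinset.card : ℝ) * √|((discr E : ℤ) : ℝ)|) ^ m := by
        rw [mul_pow, pow_succ]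
        ring
    _ ≤ (C * ((1 + cI L) ^ D * Real.exp 1 ^ D) * B / NN W) *
        (C * ((1 + cI L) ^ D * Real.exp 1 ^ D) * B) ^ m := by
        refine mul_le_mul h6 (pow_le_pow_left₀ (by positivity) h4 m) (by positivity) ?_
        exact div_nonneg (by positivity) (NN_pos W).le
    _ = _ := by
        rw [pow_succ]
        ring

/-- sums over the fibers -/
lemma sum_fibers {α β : Type*} (Y : Finset α) (f : α → β) (Z : Finset β)
    (hZ : ∀ y ∈ Y, f y ∈ Z) (g : β → ℝ) (x : ℝ)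
    (h : ∀ z ∈ Z, ∀ Y' ⊆ Y, (∀ y ∈ Y', f y = z) → (Y'.card : ℝ) * x ≤ g z) :
    (Y.card : ℝ) * x ≤ ∑ z ∈ Z, g z := by
  classical
  have h1 : Y.card = ∑ z ∈ Z, (Y.filter fun y => f y = z).card :=
    Finset.card_eq_sum_card_fiberwise hZ
  rw [h1]
  push_cast
  rw [Finset.sum_mul]
  exact Finset.sum_le_sum fun z hz => h z hz _ (Finset.filter_subset _ _)
    fun y hy => (Finset.mem_filter.1 hy).2

/-- sums over two sets of codes -/
lemma sum_codes {α β γ : Type*} (Y : Finset α) (f : α → β) (f' : α → γ)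
    (Z : Finset β) (Z' : Finset γ) (hZ : ∀ y ∈ Y, f y ∈ Z) (hZ' : ∀ y ∈ Y, f' y ∈ Z')
    (F : ℝ) (x : ℝ)
    (h : ∀ z z', ∀ Y' ⊆ Y, (∀ y ∈ Y', f y = z ∧ f' y = z') → (Y'.card : ℝ) * x ≤ F) :
    (Y.card : ℝ) * x ≤ Z.card * Z'.card * F := by
  have h1 := sum_fibers Y (fun y => (f y, f' y)) (Z ×ˢ Z')
    (fun y hy => Finset.mem_product.2 ⟨hZ y hy, hZ' y hy⟩) (fun _ => F) x
    (fun z _ Y' hY' h2 => h z.1 z.2 Y' hY' fun y hy => by
      have := h2 y hy
      rw [Prod.ext_iff] at this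
      exact this)
  rw [Finset.sum_const, Finset.card_product, nsmul_eq_mul] at h1
  push_cast at h1
  exact h1

/-- the types of bad normalized vectors -/
def Ty {K : Type u} [Field K] [NumberField K] {n q : ℕ} {E : Type u} [Field E] [NumberField E]
    [Algebra K E] (S₀ : Finset (HeightOneSpectrum (𝓞 K))) (L : Fin q → Fin (n + 1) → K) (ε : ℝ)
    (y : Fin (n + 1) → E) : Prop :=
  (∃ w : InfinitePlace E, 1 ≤ ε * ti y w) ∨
  (∃ w : HeightOneSpectrum (𝓞 E),
    w ∈ above K E (S₀ : Set (HeightOneSpectrum (𝓞 K))) ∧ 1 ≤ ε * tf y w) ∨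
  (∃ κ : HeightOneSpectrum (𝓞 E) →₀ ℕ, 1 ≤ ε * Nk κ ∧
      ∀ w ∈ κ.support, nv w ^ (2 * κ w) ≤ tf y w) ∨
  ∃ (i : Fin q) (W : Finset (HeightOneSpectrum (𝓞 E))),
    IntermediateField.adjoin K {lin (up E L i) y} = ⊤ ∧ 1 ≤ ε * NN W ∧
      ∀ w ∈ W, fa w (lin (up E L i) y) * nv w ≤ tf y w ∧ nv w ≤ tf y w

lemma chi_injective {E : Type u} [Field E] [NumberField E] :
    Function.Injective (chi : Finset (HeightOneSpectrum (𝓞 E)) → _) := by
  intro W W' h
  ext w
  rw [← mem_supp_chi, h, mem_supp_chi]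

lemma Nk_zero {E : Type u} [Field E] [NumberField E] :
    Nk (0 : HeightOneSpectrum (𝓞 E) →₀ ℕ) = 1 := by
  unfold Nk
  exact Finsupp.prod_zero_index

/-- normalized bad vectors -/
lemma norm_count {K : Type u} [Field K] [NumberField K] {n q : ℕ}
    (S₀ : Finset (HeightOneSpectrum (𝓞 K))) (L : Fin q → Fin (n + 1) → K)
    (hL : ∀ v j i, fa v (L j i) ≤ 1) (η : ℝ) (hη : 0 < η) : ∃ C : ℝ, 1 ≤ C ∧
    ∀ (E : Type u) [Field E] [NumberField E] [Algebra K E], Module.finrank K E = 2 →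
      ∀ B : ℝ, 1 ≤ B → ∀ ε : ℝ, 0 < ε → ε ≤ 1 → ∀ (j : Fin q) (Y : Finset (Fin (n + 1) → E)),
      (∀ y ∈ Y, (∃ k, Nrm L j B y k) ∧ Ty S₀ L ε y) →
      (Y.card : ℝ) * √|((discr E : ℤ) : ℝ)| ^ n ≤ C * B ^ η * (ε ^ (1 / 2 : ℝ) * B ^ (n + 1)) := by
  classical
  set D : ℕ := Module.finrank ℚ K * 2 with hD
  have hcI : 0 ≤ cI L := cI_nonneg L
  obtain ⟨C₁, hC₁, hge⟩ := card_ge.{u} D (η / 2) (by linarith)
  obtain ⟨C₂, hC₂, hlog⟩ := card_log.{u} D (1 + cI L) (η / 2) (by linarith) (by linarith)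
  obtain ⟨C₃, hC₃, hfib⟩ := fiber.{u} L
  obtain ⟨C₄, hC₄, hfib3⟩ := fiber3.{u} L hL
  obtain ⟨C₅, hC₅, hsum⟩ := sum_ideals.{u} D (2 + η) (η / 2) (by linarith) (by linarith)
  obtain ⟨C₆, hC₆, hsum'⟩ := sum_ideals.{u} D (2 + η / 2) (η / 2) (by linarith) (by linarith)
  set A : ℝ := (1 + cI L) ^ D with hA
  have hA1 : 1 ≤ A := one_le_pow₀ (by linarith)
  have hA0 : 0 < A := by linarith
  have hAr : 1 ≤ A ^ (1 + η / 2) := Real.one_le_rpow hA1 (by linarith)
  have hC34 : 1 ≤ C₃ * C₄ := one_le_mul_of_one_le_of_one_le hC₃ hC₄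
  refine ⟨C₁ * (1 + 2 * S₀.card + C₅ + q * C₆) * (A ^ (1 + η / 2) * C₂ * (C₃ * C₄) ^ n), ?_, ?_⟩
  · refine one_le_mul_of_one_le_of_one_le (one_le_mul_of_one_le_of_one_le hC₁ ?_)
      (one_le_mul_of_one_le_of_one_le (one_le_mul_of_one_le_of_one_le hAr hC₂)
        (one_le_pow₀ hC34))
    have h1 : (0 : ℝ) ≤ 2 * S₀.card := by positivity
    have h2 : (0 : ℝ) ≤ q * C₆ := by positivity
    linarith
  intro E _ _ _ h2 B hB ε hε hε1 j Y hY
  have hDE : Module.finrank ℚ E = D := by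
    rw [hD, ← h2, Module.finrank_mul_finrank ℚ K E]
  have hB0 : 0 < B := by linarith
  have hC₁0 : 0 < C₁ := by linarith
  have hC₂0 : 0 < C₂ := by linarith
  have hC₃0 : 0 < C₃ := by linarith
  have hC₄0 : 0 < C₄ := by linarith
  set T : ℝ := A * B with hT
  have hT0 : 0 < T := mul_pos hA0 hB0
  set x : ℝ := √|((discr E : ℤ) : ℝ)| ^ n with hx
  -- the exponents
  have hexk : ∀ y : Fin (n + 1) → E, ∃ k, y ∈ Y → Nrm L j B y k := by
    intro y
    by_cases hy : y ∈ Y
    · obtain ⟨k, hk⟩ := (hY y hy).1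
      exact ⟨k, fun _ => hk⟩
    · exact ⟨0, fun h => absurd h hy⟩
  choose kk hkk using hexk
  set Es := Y.image ee with hEs
  have hEc : (Es.card : ℝ) ≤ C₂ * B ^ (η / 2) := by
    refine hlog B hB (InfinitePlace E) ((card_inf_le E).trans hDE.le) Es fun e he w => ?_
    obtain ⟨y, hy, rfl⟩ := Finset.mem_image.1 he
    have h3 := (hkk y hy).ee_bound w
    rwa [hDE] at h3
  have hcode : ∀ Y' ⊆ Y, (Y'.card : ℝ) * x ≤ (Y'.image kk).card * Es.card * (C₃ * B) ^ n := by
    intro Y' hY'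
    refine sum_codes Y' kk ee _ Es (fun y hy => Finset.mem_image_of_mem _ hy)
      (fun y hy => Finset.mem_image_of_mem _ (hY' hy)) _ x fun z z' Y'' hY'' h3 => ?_
    refine hfib E h2 B hB j z z' Y'' fun y hy => ?_
    obtain ⟨h4, h5⟩ := h3 y hy
    rw [← h4]
    exact ⟨hkk y (hY' (hY'' hy)), h5⟩
  have hcode3 : ∀ (i : Fin q) (W : Finset (HeightOneSpectrum (𝓞 E))), ∀ Y' ⊆ Y,
      (∀ y ∈ Y', IntermediateField.adjoin K {lin (up E L i) y} = ⊤ ∧
        ∀ w ∈ W, fa w (lin (up E L i) y) * nv w ≤ tf y w ∧ nv w ≤ tf y w) →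
      (Y'.card : ℝ) * x ≤ (Y'.image kk).card * Es.card * ((C₄ * B) ^ n / NN W) := by
    intro i W Y' hY' hW
    refine sum_codes Y' kk ee _ Es (fun y hy => Finset.mem_image_of_mem _ hy)
      (fun y hy => Finset.mem_image_of_mem _ (hY' hy)) _ x fun z z' Y'' hY'' h3 => ?_
    refine hfib3 E h2 B hB i j z z' W Y'' fun y hy => ?_
    obtain ⟨h4, h5⟩ := h3 y hy
    rw [← h4]
    exact ⟨⟨hkk y (hY' (hY'' hy)), h5⟩, hW y (hY'' hy)⟩
  have hNkT : ∀ y ∈ Y, ∀ w : InfinitePlace E, Nk (kk y) * ((1 + cI L) * ti y w) ≤ T := by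
    intro y hy w
    have h3 := (hkk y hy).bound w
    rwa [hDE] at h3
  have hNk : ∀ y ∈ Y, Nk (kk y) ≤ T := by
    intro y hy
    obtain ⟨w⟩ := (inferInstance : Nonempty (InfinitePlace E))
    refine le_trans ?_ (hNkT y hy w)
    exact le_mul_of_one_le_right (Nk_pos _).le ((hkk y hy).inf w)
  have hεr : ε ^ (1 + η / 2) ≤ ε ^ (1 / 2 : ℝ) :=
    Real.rpow_le_rpow_of_exponent_ge hε hε1 (by linarith)
  have hε2 : ε ≤ ε ^ (1 / 2 : ℝ) := by
    have h1 := Real.rpow_le_rpow_of_exponent_ge hε hε1 (show (1 / 2 : ℝ) ≤ 1 by norm_num)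
    rwa [Real.rpow_one] at h1
  have hε0 : 0 < ε ^ (1 / 2 : ℝ) := Real.rpow_pos_of_pos hε _
  have hTr : 0 < T ^ (1 + η / 2) := Real.rpow_pos_of_pos hT0 _
  set G : ℝ := ε ^ (1 / 2 : ℝ) * T ^ (1 + η / 2) with hG
  have hG0 : 0 < G := mul_pos hε0 hTr
  have hGε : (ε * T) ^ (1 + η / 2) ≤ G := by
    rw [Real.mul_rpow hε.le hT0.le]
    exact mul_le_mul_of_nonneg_right hεr hTr.le
  have hP3 : (C₃ * B) ^ n ≤ (C₃ * C₄ * B) ^ n := by
    refine pow_le_pow_left₀ (by positivity) ?_ n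
    exact mul_le_mul_of_nonneg_right (le_mul_of_one_le_right hC₃0.le hC₄) hB0.le
  have hP4 : (C₄ * B) ^ n ≤ (C₃ * C₄ * B) ^ n := by
    refine pow_le_pow_left₀ (by positivity) ?_ n
    exact mul_le_mul_of_nonneg_right (le_mul_of_one_le_left hC₄0.le hC₃) hB0.le
  set P : ℝ := (C₃ * C₄ * B) ^ n with hP
  have hP0 : 0 ≤ P := by positivity
  set Q : ℝ := C₁ * G * (Es.card * P) with hQ
  have hQ0 : 0 ≤ Q := by positivity
  -- the four types
  set Y1 := Y.filter fun y => ∃ w : InfinitePlace E, 1 ≤ ε * ti y w with hY1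
  have hb1 : (Y1.card : ℝ) * x ≤ Q := by
    have h3 : ((Y1.image kk).card : ℝ) ≤ C₁ * G := by
      have h4 := hge E hDE.le (ε * T) (mul_pos hε hT0) 0 (Y1.image kk) fun k hk => by
        obtain ⟨y, hy, rfl⟩ := Finset.mem_image.1 hk
        obtain ⟨hyY, w, hw⟩ := Finset.mem_filter.1 hy
        refine ⟨fun w => Nat.zero_le _, ?_⟩
        have h5 := hNkT y hyY w
        have h6 : 0 < ti y w := (hkk y hyY).ti_pos w
        have h7 : 1 ≤ ε * ((1 + cI L) * ti y w) := by
          refine hw.trans (mul_le_mul_of_nonneg_left ?_ hε.le)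
          exact le_mul_of_one_le_left h6.le (by linarith)
        calc Nk (kk y) ≤ Nk (kk y) * (ε * ((1 + cI L) * ti y w)) :=
              le_mul_of_one_le_right (Nk_pos _).le h7
          _ = ε * (Nk (kk y) * ((1 + cI L) * ti y w)) := by ring
          _ ≤ ε * T := mul_le_mul_of_nonneg_left h5 hε.le
      rw [Nk_zero, div_one] at h4
      exact h4.trans (mul_le_mul_of_nonneg_left hGε hC₁0.le)
    calc (Y1.card : ℝ) * x ≤ (Y1.image kk).card * Es.card * (C₃ * B) ^ n :=
          hcode Y1 (Finset.filter_subset _ _)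
      _ ≤ C₁ * G * Es.card * P := by
          refine mul_le_mul (mul_le_mul_of_nonneg_right h3 (by positivity)) hP3
            (by positivity) (by positivity)
      _ = Q := by rw [hQ]; ring
  obtain ⟨S', hS', hS'c⟩ := above_finset (K := K) E S₀
  have hb2 : ∀ w : HeightOneSpectrum (𝓞 E),
      (((Y.filter fun y => 1 ≤ ε * tf y w).card : ℝ)) * x ≤ Q := by
    intro w
    set Y2 := Y.filter fun y => 1 ≤ ε * tf y w with hY2
    have hnv : 1 < nv w := Pool.Agent.Lib.MP_4d5ce1_nt.one_lt_nv w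
    have hexm : ∃ m : ℕ, 1 ≤ ε * nv w ^ m := by
      obtain ⟨m, hm⟩ := pow_unbounded_of_one_lt (1 / ε) hnv
      refine ⟨m, ?_⟩
      rw [div_lt_iff₀ hε] at hm
      linarith
    have h3 : ((Y2.image kk).card : ℝ) ≤ C₁ * G := by
      have h4 := hge E hDE.le T hT0 (Finsupp.single w (Nat.find hexm)) (Y2.image kk)
        fun k hk => by
          obtain ⟨y, hy, rfl⟩ := Finset.mem_image.1 hk
          obtain ⟨hyY, hw⟩ := Finset.mem_filter.1 hy
          refine ⟨?_, hNk y hyY⟩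
          rw [(hkk y hyY).fin] at hw
          rw [Finsupp.single_le_iff]
          exact Nat.find_min' hexm hw
      rw [Nk_single] at h4
      refine h4.trans (mul_le_mul_of_nonneg_left ?_ hC₁0.le)
      refine le_trans ?_ hGε
      refine Real.rpow_le_rpow (by positivity) ?_ (by linarith)
      rw [div_le_iff₀ (by positivity)]
      have h5 := Nat.find_spec hexm
      calc T = 1 * T := (one_mul T).symm
        _ ≤ (ε * nv w ^ Nat.find hexm) * T := mul_le_mul_of_nonneg_right h5 hT0.le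
        _ = _ := by ring
    calc (Y2.card : ℝ) * x ≤ (Y2.image kk).card * Es.card * (C₃ * B) ^ n :=
          hcode Y2 (Finset.filter_subset _ _)
      _ ≤ C₁ * G * Es.card * P := by
          refine mul_le_mul (mul_le_mul_of_nonneg_right h3 (by positivity)) hP3
            (by positivity) (by positivity)
      _ = Q := by rw [hQ]; ring
  have hinv : 1 ≤ 1 / ε := by
    rw [le_div_iff₀ hε]
    linarith
  set Y3 := Y.filter fun y => ∃ κ : HeightOneSpectrum (𝓞 E) →₀ ℕ, 1 ≤ ε * Nk κ ∧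
      ∀ w ∈ κ.support, nv w ^ (2 * κ w) ≤ tf y w with hY3
  have hb3 : (Y3.card : ℝ) * x ≤ C₅ * Q := by
    have hexκ : ∀ y : Fin (n + 1) → E, ∃ κ : HeightOneSpectrum (𝓞 E) →₀ ℕ, y ∈ Y3 →
        1 ≤ ε * Nk κ ∧ ∀ w ∈ κ.support, nv w ^ (2 * κ w) ≤ tf y w := by
      intro y
      by_cases hy : y ∈ Y3
      · obtain ⟨κ, hκ⟩ := (Finset.mem_filter.1 hy).2
        exact ⟨κ, fun _ => hκ⟩
      · exact ⟨0, fun h => absurd h hy⟩
    choose κ hκ using hexκ
    have h3 := sum_fibers Y3 κ (Y3.image κ) (fun y hy => Finset.mem_image_of_mem _ hy)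
      (fun κ₀ => C₁ * (T / Nk (κ₀ + κ₀)) ^ (1 + η / 2) * (Es.card * P)) x
      (fun κ₀ _ Y' hY' h4 => by
        have h5 : ((Y'.image kk).card : ℝ) ≤ C₁ * (T / Nk (κ₀ + κ₀)) ^ (1 + η / 2) := by
          refine hge E hDE.le T hT0 (κ₀ + κ₀) (Y'.image kk) fun k hk => ?_
          obtain ⟨y, hy, rfl⟩ := Finset.mem_image.1 hk
          have hyY : y ∈ Y := (Finset.mem_filter.1 (hY' hy)).1
          refine ⟨fun w => ?_, hNk y hyY⟩
          obtain ⟨-, h6⟩ := hκ y (hY' hy)
          rw [h4 y hy] at h6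
          rw [Finsupp.coe_add, Pi.add_apply]
          by_cases hw : w ∈ κ₀.support
          · have h7 := h6 w hw
            rw [(hkk y hyY).fin] at h7
            have h8 := (pow_le_pow_iff_right₀ (Pool.Agent.Lib.MP_4d5ce1_nt.one_lt_nv w)).1 h7
            omega
          · have h7 : κ₀ w = 0 := by simpa using hw
            omega
        calc (Y'.card : ℝ) * x ≤ (Y'.image kk).card * Es.card * (C₃ * B) ^ n :=
              hcode Y' (hY'.trans (Finset.filter_subset _ _))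
          _ ≤ C₁ * (T / Nk (κ₀ + κ₀)) ^ (1 + η / 2) * Es.card * P := by
              have h9 : 0 < T / Nk (κ₀ + κ₀) := div_pos hT0 (Nk_pos _)
              refine mul_le_mul (mul_le_mul_of_nonneg_right h5 (by positivity)) hP3
                (by positivity) (by positivity)
          _ = _ := by ring)
    refine h3.trans ?_
    have h4 : ∀ κ₀ : HeightOneSpectrum (𝓞 E) →₀ ℕ,
        C₁ * (T / Nk (κ₀ + κ₀)) ^ (1 + η / 2) * (Es.card * P) =
          C₁ * T ^ (1 + η / 2) * (Es.card * P) * Nk κ₀ ^ (-(2 + η)) := by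
      intro κ₀
      have h5 : 0 < Nk κ₀ := Nk_pos κ₀
      rw [Nk_add, Real.div_rpow hT0.le (by positivity), ← sq, ← Real.rpow_natCast (Nk κ₀) 2,
        ← Real.rpow_mul h5.le, Real.rpow_neg h5.le]
      have h6 : ((2 : ℕ) : ℝ) * (1 + η / 2) = 2 + η := by push_cast; ring
      rw [h6]
      field_simp
    simp only [h4]
    rw [← Finset.mul_sum]
    have h5 := hsum E hDE.le (1 / ε) hinv (Y3.image κ) fun k hk => by
      obtain ⟨y, hy, rfl⟩ := Finset.mem_image.1 hk
      obtain ⟨h6, -⟩ := hκ y hy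
      rw [div_le_iff₀ hε]
      linarith
    have h6 : (1 / ε) ^ (1 + η / 2 - (2 + η)) = ε ^ (1 + η / 2) := by
      rw [one_div, Real.inv_rpow hε.le, ← Real.rpow_neg hε.le]
      congr 1
      ring
    rw [h6] at h5
    calc C₁ * T ^ (1 + η / 2) * (Es.card * P) * ∑ k ∈ Y3.image κ, Nk k ^ (-(2 + η))
        ≤ C₁ * T ^ (1 + η / 2) * (Es.card * P) * (C₅ * ε ^ (1 / 2 : ℝ)) := by
          refine mul_le_mul_of_nonneg_left (h5.trans ?_) (by positivity)
          exact mul_le_mul_of_nonneg_left hεr hC₅.le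
      _ = C₅ * Q := by rw [hQ, hG]; ring
  have hb4 : ∀ i : Fin q, (((Y.filter fun y => ∃ W : Finset (HeightOneSpectrum (𝓞 E)),
      IntermediateField.adjoin K {lin (up E L i) y} = ⊤ ∧ 1 ≤ ε * NN W ∧
      ∀ w ∈ W, fa w (lin (up E L i) y) * nv w ≤ tf y w ∧ nv w ≤ tf y w).card : ℝ)) * x ≤
        C₆ * Q := by
    intro i
    set Y4 := Y.filter fun y => ∃ W : Finset (HeightOneSpectrum (𝓞 E)),
      IntermediateField.adjoin K {lin (up E L i) y} = ⊤ ∧ 1 ≤ ε * NN W ∧
      ∀ w ∈ W, fa w (lin (up E L i) y) * nv w ≤ tf y w ∧ nv w ≤ tf y w with hY4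
    have hexW : ∀ y : Fin (n + 1) → E, ∃ W : Finset (HeightOneSpectrum (𝓞 E)), y ∈ Y4 →
        IntermediateField.adjoin K {lin (up E L i) y} = ⊤ ∧ 1 ≤ ε * NN W ∧
        ∀ w ∈ W, fa w (lin (up E L i) y) * nv w ≤ tf y w ∧ nv w ≤ tf y w := by
      intro y
      by_cases hy : y ∈ Y4
      · obtain ⟨W, hW⟩ := (Finset.mem_filter.1 hy).2
        exact ⟨W, fun _ => hW⟩
      · exact ⟨∅, fun h => absurd h hy⟩
    choose W hW using hexW
    have h3 := sum_fibers Y4 W (Y4.image W) (fun y hy => Finset.mem_image_of_mem _ hy)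
      (fun W₀ => C₁ * (T / NN W₀) ^ (1 + η / 2) * (Es.card * (P / NN W₀))) x
      (fun W₀ _ Y' hY' h4 => by
        have h5 : ((Y'.image kk).card : ℝ) ≤ C₁ * (T / NN W₀) ^ (1 + η / 2) := by
          rw [← Nk_chi]
          refine hge E hDE.le T hT0 (chi W₀) (Y'.image kk) fun k hk => ?_
          obtain ⟨y, hy, rfl⟩ := Finset.mem_image.1 hk
          have hyY : y ∈ Y := (Finset.mem_filter.1 (hY' hy)).1
          refine ⟨fun w => ?_, hNk y hyY⟩
          obtain ⟨-, -, h6⟩ := hW y (hY' hy)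
          rw [h4 y hy] at h6
          by_cases hw : w ∈ W₀
          · rw [chi_of_mem hw]
            have h7 := (h6 w hw).2
            rw [(hkk y hyY).fin] at h7
            by_contra h8
            have h9 : kk y w = 0 := by omega
            rw [h9, pow_zero] at h7
            linarith [Pool.Agent.Lib.MP_4d5ce1_nt.two_le_nv w]
          · rw [chi_of_notMem hw]
            exact Nat.zero_le _
        have h10 : 0 < NN W₀ := NN_pos W₀
        calc (Y'.card : ℝ) * x ≤ (Y'.image kk).card * Es.card * ((C₄ * B) ^ n / NN W₀) :=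
              hcode3 i W₀ Y' (hY'.trans (Finset.filter_subset _ _)) fun y hy => by
                obtain ⟨h6, -, h7⟩ := hW y (hY' hy)
                rw [h4 y hy] at h7
                exact ⟨h6, h7⟩
          _ ≤ C₁ * (T / NN W₀) ^ (1 + η / 2) * Es.card * (P / NN W₀) := by
              refine mul_le_mul (mul_le_mul_of_nonneg_right h5 (by positivity))
                (div_le_div_of_nonneg_right hP4 h10.le) (by positivity) (by positivity)
          _ = _ := by ring)
    refine h3.trans ?_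
    have h4 : ∀ W₀ : Finset (HeightOneSpectrum (𝓞 E)),
        C₁ * (T / NN W₀) ^ (1 + η / 2) * (Es.card * (P / NN W₀)) =
          C₁ * T ^ (1 + η / 2) * (Es.card * P) * Nk (chi W₀) ^ (-(2 + η / 2)) := by
      intro W₀
      have h5 : 0 < NN W₀ := NN_pos W₀
      rw [Nk_chi, Real.div_rpow hT0.le h5.le, Real.rpow_neg h5.le]
      have h6 : NN W₀ ^ (2 + η / 2) = NN W₀ ^ (1 + η / 2) * NN W₀ := by
        rw [← Real.rpow_add_one h5.ne']
        congr 1
        ring
      rw [h6]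
      have h7 : 0 < NN W₀ ^ (1 + η / 2) := Real.rpow_pos_of_pos h5 _
      field_simp
    simp only [h4]
    rw [← Finset.mul_sum]
    have h8 : ∑ W₀ ∈ Y4.image W, Nk (chi W₀) ^ (-(2 + η / 2)) =
        ∑ k ∈ (Y4.image W).image chi, Nk k ^ (-(2 + η / 2)) := by
      rw [Finset.sum_image fun a _ b _ hab => chi_injective hab]
    have h5 := hsum' E hDE.le (1 / ε) hinv ((Y4.image W).image chi) fun k hk => by
      obtain ⟨W₀, hW₀, rfl⟩ := Finset.mem_image.1 hk
      obtain ⟨y, hy, rfl⟩ := Finset.mem_image.1 hW₀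
      obtain ⟨-, h6, -⟩ := hW y hy
      rw [div_le_iff₀ hε, Nk_chi]
      linarith
    have h6 : (1 / ε) ^ (1 + η / 2 - (2 + η / 2)) = ε := by
      have h9 : 1 + η / 2 - (2 + η / 2) = -1 := by ring
      rw [h9, Real.rpow_neg_one, one_div, inv_inv]
    rw [h6, ← h8] at h5
    calc C₁ * T ^ (1 + η / 2) * (Es.card * P) *
          ∑ W₀ ∈ Y4.image W, Nk (chi W₀) ^ (-(2 + η / 2))
        ≤ C₁ * T ^ (1 + η / 2) * (Es.card * P) * (C₆ * ε ^ (1 / 2 : ℝ)) := by
          refine mul_le_mul_of_nonneg_left (h5.trans ?_) (by positivity)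
          exact mul_le_mul_of_nonneg_left hε2 hC₆.le
      _ = C₆ * Q := by rw [hQ, hG]; ring
  -- the total
  have hx0 : 0 ≤ x := by positivity
  have hcov : Y ⊆ (Y1 ∪ (S'.biUnion fun w => Y.filter fun y => 1 ≤ ε * tf y w)) ∪
      (Y3 ∪ (Finset.univ : Finset (Fin q)).biUnion fun i =>
        Y.filter fun y => ∃ W : Finset (HeightOneSpectrum (𝓞 E)),
      IntermediateField.adjoin K {lin (up E L i) y} = ⊤ ∧ 1 ≤ ε * NN W ∧
      ∀ w ∈ W, fa w (lin (up E L i) y) * nv w ≤ tf y w ∧ nv w ≤ tf y w) := by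
    intro y hy
    rcases (hY y hy).2 with h | ⟨w, hw, h⟩ | h | ⟨i, W, h⟩
    · exact Finset.mem_union_left _ (Finset.mem_union_left _ (Finset.mem_filter.2 ⟨hy, h⟩))
    · refine Finset.mem_union_left _ (Finset.mem_union_right _ (Finset.mem_biUnion.2
        ⟨w, ?_, Finset.mem_filter.2 ⟨hy, h⟩⟩))
      rw [← Finset.mem_coe, hS']
      exact hw
    · exact Finset.mem_union_right _ (Finset.mem_union_left _ (Finset.mem_filter.2 ⟨hy, h⟩))
    · exact Finset.mem_union_right _ (Finset.mem_union_right _ (Finset.mem_biUnion.2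
        ⟨i, Finset.mem_univ _, Finset.mem_filter.2 ⟨hy, W, h⟩⟩))
  have htot : (Y.card : ℝ) * x ≤ (1 + 2 * S₀.card + C₅ + q * C₆) * Q := by
    have h3 : (Y.card : ℝ) ≤ Y1.card +
        ∑ w ∈ S', ((Y.filter fun y => 1 ≤ ε * tf y w).card : ℝ) + (Y3.card +
        ∑ i : Fin q, ((Y.filter fun y => ∃ W : Finset (HeightOneSpectrum (𝓞 E)),
      IntermediateField.adjoin K {lin (up E L i) y} = ⊤ ∧ 1 ≤ ε * NN W ∧
      ∀ w ∈ W, fa w (lin (up E L i) y) * nv w ≤ tf y w ∧ nv w ≤ tf y w).card : ℝ)) := by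
      have h4 := (Finset.card_le_card hcov).trans ((Finset.card_union_le _ _).trans
        (add_le_add ((Finset.card_union_le _ _).trans (add_le_add le_rfl
          Finset.card_biUnion_le)) ((Finset.card_union_le _ _).trans (add_le_add le_rfl
          Finset.card_biUnion_le))))
      exact_mod_cast h4
    have h4 : (∑ w ∈ S', ((Y.filter fun y => 1 ≤ ε * tf y w).card : ℝ)) * x ≤
        2 * S₀.card * Q := by
      rw [Finset.sum_mul]
      calc ∑ w ∈ S', ((Y.filter fun y => 1 ≤ ε * tf y w).card : ℝ) * x ≤ ∑ _w ∈ S', Q :=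
            Finset.sum_le_sum fun w _ => hb2 w
        _ = S'.card * Q := by rw [Finset.sum_const, nsmul_eq_mul]
        _ ≤ _ := by
            refine mul_le_mul_of_nonneg_right ?_ hQ0
            rw [h2] at hS'c
            exact_mod_cast hS'c
    have h5 : (∑ i : Fin q, ((Y.filter fun y => ∃ W : Finset (HeightOneSpectrum (𝓞 E)),
      IntermediateField.adjoin K {lin (up E L i) y} = ⊤ ∧ 1 ≤ ε * NN W ∧
      ∀ w ∈ W, fa w (lin (up E L i) y) * nv w ≤ tf y w ∧ nv w ≤ tf y w).card : ℝ)) * x ≤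
        q * C₆ * Q := by
      rw [Finset.sum_mul]
      calc ∑ i : Fin q, ((Y.filter fun y => ∃ W : Finset (HeightOneSpectrum (𝓞 E)),
      IntermediateField.adjoin K {lin (up E L i) y} = ⊤ ∧ 1 ≤ ε * NN W ∧
      ∀ w ∈ W, fa w (lin (up E L i) y) * nv w ≤ tf y w ∧ nv w ≤ tf y w).card : ℝ) * x ≤
          ∑ _i : Fin q, C₆ * Q := Finset.sum_le_sum fun i _ => hb4 i
        _ = _ := by
            rw [Finset.sum_const, Finset.card_univ, Fintype.card_fin, nsmul_eq_mul]
            ring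
    have h6 := mul_le_mul_of_nonneg_right h3 hx0
    linarith [hb1, hb3]
  have hfinal : Q ≤ C₁ * (A ^ (1 + η / 2) * C₂ * (C₃ * C₄) ^ n) *
      (B ^ η * (ε ^ (1 / 2 : ℝ) * B ^ (n + 1))) := by
    have h3 : T ^ (1 + η / 2) = A ^ (1 + η / 2) * (B * B ^ (η / 2)) := by
      rw [hT, Real.mul_rpow hA0.le hB0.le, Real.rpow_add hB0, Real.rpow_one]
    have h4 : B ^ η = B ^ (η / 2) * B ^ (η / 2) := by
      rw [← Real.rpow_add hB0]
      congr 1
      ring
    have hBη : 0 < B ^ (η / 2) := Real.rpow_pos_of_pos hB0 _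
    calc Q = C₁ * G * (Es.card * P) := rfl
      _ ≤ C₁ * G * (C₂ * B ^ (η / 2) * P) :=
          mul_le_mul_of_nonneg_left (mul_le_mul_of_nonneg_right hEc hP0) (by positivity)
      _ = _ := by
          rw [hG, h3, h4, hP, mul_pow (C₃ * C₄) B, pow_succ B n]
          ring
  calc (Y.card : ℝ) * x ≤ (1 + 2 * S₀.card + C₅ + q * C₆) * Q := htot
    _ ≤ (1 + 2 * S₀.card + C₅ + q * C₆) * (C₁ * (A ^ (1 + η / 2) * C₂ * (C₃ * C₄) ^ n) *
      (B ^ η * (ε ^ (1 / 2 : ℝ) * B ^ (n + 1)))) :=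
        mul_le_mul_of_nonneg_left hfinal (by positivity)
    _ = _ := by ring

end ED1

open ED1 AL17aux

/-- ED1 : bad points over one quadratic extension -/
theorem field_bad {K : Type u} [Field K] [NumberField K] {n q : ℕ}
    (S₀ : Finset (HeightOneSpectrum (𝓞 K))) (L : Fin q → Fin (n + 1) → K)
    (hL : ∀ v j i, fa v (L j i) ≤ 1) (η : ℝ) (hη : 0 < η) : ∃ C : ℝ, 1 ≤ C ∧
    ∀ (E : Type u) [Field E] [NumberField E] [Algebra K E], Module.finrank K E = 2 →
      ∀ B : ℝ, 1 ≤ B → ∀ ε : ℝ, 0 < ε → ε ≤ 1 → ∀ Y : Finset (Fin (n + 1) → E),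
      (∀ x ∈ Y, ∀ y ∈ Y, ∀ z : E, z ≠ 0 → x = z • y → x = y) →
      (∀ y ∈ Y, y ≠ 0 ∧ IntermediateField.adjoin K {z : E | ∃ i k, z = y i / y k} = ⊤ ∧
        mulHeight y ≤ B ∧ (∀ j, lin (up E L j) y ≠ 0) ∧ BadG S₀ L ε y) →
      (Y.card : ℝ) * √|((discr E : ℤ) : ℝ)| ^ n ≤ C * B ^ η * (ε ^ (1 / 2 : ℝ) * B ^ (n + 1)) := by
  classical
  obtain ⟨C, hC, hcount⟩ := norm_count S₀ L hL η hη
  have hC0 : 0 < C := by linarith
  refine ⟨(q + 1) * C, ?_, ?_⟩
  · have h1 : (1 : ℝ) ≤ q + 1 := by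
      have : (0 : ℝ) ≤ q := Nat.cast_nonneg _
      linarith
    exact one_le_mul_of_one_le_of_one_le h1 hC
  intro E _ _ _ h2 B hB ε hε hε1 Y hnp hY
  have hB0 : 0 < B := by linarith
  set x : ℝ := √|((discr E : ℤ) : ℝ)| ^ n with hx
  have hx0 : 0 ≤ x := by positivity
  -- normalization
  let f : Fin q → (Fin (n + 1) → E) → (Fin (n + 1) → E) :=
    fun j y => (lin (up E L j) y)⁻¹ • y
  let Yj : Fin q → Finset (Fin (n + 1) → E) := fun j => Y.filter fun y =>
    Ty S₀ L ε (f j y)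
  have hcov : Y ⊆ (Finset.univ : Finset (Fin q)).biUnion Yj := by
    intro y hy
    obtain ⟨hy0, hgen, hht, hne, hbad⟩ := hY y hy
    have hpos : ∀ (j : Fin q) (w : InfinitePlace E), 0 < w (lin (up E L j) y) := fun j w =>
      InfinitePlace.pos_iff.2 (hne j)
    have hfpos : ∀ (j : Fin q) (w : HeightOneSpectrum (𝓞 E)), 0 < fa w (lin (up E L j) y) :=
      fun j w => Pool.Agent.Lib.MP_4d5ce1_nt.fa_pos w (hne j)
    have hti : ∀ (j : Fin q) (w : InfinitePlace E),
        ti (f j y) w = (w (lin (up E L j) y))⁻¹ * ti y w := fun j w => by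
      rw [ti_smul, map_inv₀]
    have htf : ∀ (j : Fin q) (w : HeightOneSpectrum (𝓞 E)),
        tf (f j y) w = (fa w (lin (up E L j) y))⁻¹ * tf y w := fun j w => by
      rw [tf_smul, Pool.Agent.Lib.MP_4d5ce1_nt.fa_inv]
    rcases hbad with ⟨j, w, h⟩ | ⟨j, w, hw, h⟩ | ⟨j, k, -, hk, h⟩ | ⟨i, j, W, hg, -, hW, h⟩
    · refine Finset.mem_biUnion.2 ⟨j, Finset.mem_univ _, Finset.mem_filter.2 ⟨hy, Or.inl
        ⟨w, ?_⟩⟩⟩
      rw [hti]
      have h3 := hpos j w
      rw [← mul_le_mul_iff_right₀ h3]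
      field_simp
      linarith
    · refine Finset.mem_biUnion.2 ⟨j, Finset.mem_univ _, Finset.mem_filter.2 ⟨hy, Or.inr (Or.inl
        ⟨w, hw, ?_⟩)⟩⟩
      rw [htf]
      have h3 := hfpos j w
      rw [← mul_le_mul_iff_right₀ h3]
      field_simp
      linarith
    · refine Finset.mem_biUnion.2 ⟨j, Finset.mem_univ _, Finset.mem_filter.2 ⟨hy, Or.inr (Or.inr
        (Or.inl ⟨k, hk, fun w hw => ?_⟩))⟩⟩
      rw [htf]
      have h3 := hfpos j w
      rw [← mul_le_mul_iff_right₀ h3, mul_inv_cancel_left₀ h3.ne']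
      exact h w hw
    · refine Finset.mem_biUnion.2 ⟨j, Finset.mem_univ _, Finset.mem_filter.2 ⟨hy, Or.inr (Or.inr
        (Or.inr ⟨i, W, ?_, hW, fun w hw => ?_⟩))⟩⟩
      · have h3 : lin (up E L i) (f j y) = lin (up E L i) y / lin (up E L j) y := by
          rw [lin_smul]
          field_simp
        rw [h3]
        exact hg
      · obtain ⟨h4, h5⟩ := h w hw
        have h3 := hfpos j w
        rw [htf, lin_smul, Pool.Agent.Lib.MP_4d5ce1_nt.fa_mul,
          Pool.Agent.Lib.MP_4d5ce1_nt.fa_inv]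
        constructor
        · rw [mul_assoc]
          exact mul_le_mul_of_nonneg_left h4 (inv_pos.2 h3).le
        · rw [← mul_le_mul_iff_right₀ h3, mul_inv_cancel_left₀ h3.ne']
          exact h5
  have hone : ∀ j, ((Yj j).card : ℝ) * x ≤ C * B ^ η * (ε ^ (1 / 2 : ℝ) * B ^ (n + 1)) := by
    intro j
    have h3 : ((Yj j).image (f j)).card = (Yj j).card := by
      refine Finset.card_image_of_injOn fun y hy y' hy' h => ?_
      have hyY : y ∈ Y := (Finset.mem_filter.1 hy).1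
      have hyY' : y' ∈ Y := (Finset.mem_filter.1 hy').1
      have h4 : lin (up E L j) y ≠ 0 := (hY y hyY).2.2.2.1 j
      have h5 : lin (up E L j) y' ≠ 0 := (hY y' hyY').2.2.2.1 j
      have h6 : (lin (up E L j) y)⁻¹ • y = (lin (up E L j) y')⁻¹ • y' := h
      refine hnp y hyY y' hyY' (lin (up E L j) y * (lin (up E L j) y')⁻¹)
        (mul_ne_zero h4 (inv_ne_zero h5)) ?_
      rw [mul_smul, ← h6, smul_smul, mul_inv_cancel₀ h4, one_smul]
    rw [← h3]
    refine hcount E h2 B hB ε hε hε1 j _ fun z hz => ?_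
    obtain ⟨y, hy, rfl⟩ := Finset.mem_image.1 hz
    obtain ⟨hyY, hty⟩ := Finset.mem_filter.1 hy
    obtain ⟨hy0, hgen, hht, hne, hbad⟩ := hY y hyY
    refine ⟨exists_nrm L hL j B _ ?_ ?_ ?_, hty⟩
    · rw [lin_smul, inv_mul_cancel₀ (hne j)]
    · have h4 : {z : E | ∃ i k, z = f j y i / f j y k} = {z : E | ∃ i k, z = y i / y k} := by
        ext z
        refine exists_congr fun i => exists_congr fun k => ?_
        have h5 : f j y i / f j y k = y i / y k := by
          show ((lin (up E L j) y)⁻¹ • y) i / ((lin (up E L j) y)⁻¹ • y) k = _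
          rw [Pi.smul_apply, Pi.smul_apply, smul_eq_mul, smul_eq_mul,
            mul_div_mul_left _ _ (inv_ne_zero (hne j))]
        rw [h5]
      rw [h4]
      exact hgen
    · show mulHeight ((lin (up E L j) y)⁻¹ • y) ≤ B
      rw [mulHeight_smul_eq_mulHeight _ (inv_ne_zero (hne j))]
      exact hht
  have h3 : (Y.card : ℝ) ≤ ∑ j : Fin q, ((Yj j).card : ℝ) := by
    exact_mod_cast (Finset.card_le_card hcov).trans Finset.card_biUnion_le
  have hR : 0 ≤ C * B ^ η * (ε ^ (1 / 2 : ℝ) * B ^ (n + 1)) := by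
    have := Real.rpow_nonneg hB0.le η
    have := Real.rpow_nonneg hε.le (1 / 2 : ℝ)
    positivity
  calc (Y.card : ℝ) * x ≤ (∑ j : Fin q, ((Yj j).card : ℝ)) * x :=
        mul_le_mul_of_nonneg_right h3 hx0
    _ = ∑ j : Fin q, ((Yj j).card : ℝ) * x := by rw [Finset.sum_mul]
    _ ≤ ∑ _j : Fin q, C * B ^ η * (ε ^ (1 / 2 : ℝ) * B ^ (n + 1)) :=
        Finset.sum_le_sum fun j _ => hone j
    _ = q * (C * B ^ η * (ε ^ (1 / 2 : ℝ) * B ^ (n + 1))) := by
        rw [Finset.sum_const, Finset.card_univ, Fintype.card_fin, nsmul_eq_mul]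
    _ ≤ (q + 1) * (C * B ^ η * (ε ^ (1 / 2 : ℝ) * B ^ (n + 1))) :=
        mul_le_mul_of_nonneg_right (by linarith) hR
    _ = _ := by ring

end Pool.Agent.Lib.MP_44a246_ntAL
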