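import Pool.Agent.Lib.MP_44a246_ntAL.NC1
import Pool.Agent.Lib.MP_44a246_ntAL.ED1
import Pool.Agent.Lib.MP_44a246_ntAL.FA0
import Pool.Agent.Lib.MP_44a246_ntAL.EA2
import Pool.Agent.Lib.MP_44a246_ntAL.AL0
import Pool.Agent.Lib.MP_44a246_ntAL.AL2
import Pool.Agent.Lib.MP_44a246_ntSF.SF7

/-!
# ED2: the case `r = 2 ≤ n`
-/

set_option autoImplicit false

open NumberField IsDedekindDomain Height MvPolynomial
open Pool.Agent.Lib.MP_4d5ce1_nt (fa nv ordv)
open Pool.Agent.Lib.MP_44a246_ntNF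
open Pool.Agent.Lib.MP_44a246_ntNU

namespace Pool.Agent.Lib.MP_44a246_ntAL

universe u

namespace ED2

section

lemma not_imp {K E : Type*} [Field K] [Field E] [Algebra K E] (h : Module.finrank K E = 2) :
    ¬ Imp K E := by
  rintro ⟨F, hF, hF'⟩
  have h1 : Module.finrank K F * Module.finrank F E = 2 := by
    rw [Module.finrank_mul_finrank, h]
  have h2 : Module.finrank K F ∣ 2 := ⟨_, h1.symm⟩
  rcases (Nat.dvd_prime Nat.prime_two).1 h2 with h3 | h3
  · exact hF (IntermediateField.finrank_eq_one_iff.1 h3)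
  · rw [h3] at h1
    exact hF' (IntermediateField.finrank_eq_one_iff_eq_top.1 (by omega))

variable {K : Type u} [Field K] [NumberField K] {n q : ℕ}

lemma tf_nonneg {E : Type*} [Field E] [NumberField E] {m : ℕ} (x : Fin m → E)
    (w : HeightOneSpectrum (𝓞 E)) : 0 ≤ tf x w :=
  Real.iSup_nonneg fun i => Pool.Agent.Lib.MP_4d5ce1_nt.fa_nonneg w (x i)

lemma ti_nonneg {E : Type*} [Field E] [NumberField E] {m : ℕ} (x : Fin m → E)
    (w : InfinitePlace E) : 0 ≤ ti x w :=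
  Real.iSup_nonneg fun i => apply_nonneg w (x i)

lemma nk_nonneg {E : Type*} [Field E] [NumberField E] (k : HeightOneSpectrum (𝓞 E) →₀ ℕ) :
    0 ≤ Nk k :=
  Finset.prod_nonneg fun w _ => pow_nonneg (Pool.Agent.Lib.MP_4d5ce1_nt.nv_pos w).le _

lemma nn_nonneg {E : Type*} [Field E] [NumberField E] (W : Finset (HeightOneSpectrum (𝓞 E))) :
    0 ≤ NN W := by
  unfold NN
  exact Finset.prod_nonneg fun w _ => (Pool.Agent.Lib.MP_4d5ce1_nt.nv_pos w).le

lemma badG_mono {E : Type*} [Field E] [NumberField E] [Algebra K E]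
    {S₀ : Finset (HeightOneSpectrum (𝓞 K))} {L : Fin q → Fin (n + 1) → K} {ε ε' : ℝ}
    {y : Fin (n + 1) → E} (hε : ε ≤ ε') (h : BadG S₀ L ε y) : BadG S₀ L ε' y := by
  rcases h with ⟨j, w, hw⟩ | ⟨j, w, hwS, hw⟩ | ⟨j, k, hk, h1, hw⟩ | ⟨i, j, W, hij, hWS, h1, hw⟩
  · exact Or.inl ⟨j, w, hw.trans (mul_le_mul_of_nonneg_right hε (ti_nonneg y w))⟩
  · exact Or.inr (Or.inl ⟨j, w, hwS, hw.trans (mul_le_mul_of_nonneg_right hε (tf_nonneg y w))⟩)
  · exact Or.inr (Or.inr (Or.inl ⟨j, k, hk,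
      h1.trans (mul_le_mul_of_nonneg_right hε (nk_nonneg k)), hw⟩))
  · exact Or.inr (Or.inr (Or.inr ⟨i, j, W, hij, hWS,
      h1.trans (mul_le_mul_of_nonneg_right hε (nn_nonneg W)), hw⟩))

lemma mem_box {E : Type*} [Field E] [NumberField E] {m : ℕ} (x : Fin m → E) (i : Fin m) :
    x i ∈ Bx (tf x) (ti x) 1 := by
  refine ⟨fun w => ?_, fun w => ?_⟩
  · exact le_ciSup (Set.finite_range fun i => fa w (x i)).bddAbove i
  · rw [one_mul]
    exact le_ciSup (Set.finite_range fun i => w (x i)).bddAbove i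

lemma span_top {E : Type u} [Field E] [NumberField E] [Algebra K E] {m : ℕ}
    (h2 : Module.finrank K E = 2) (y : Fin m → E)
    (hy : IntermediateField.adjoin K {z : E | ∃ i k, z = y i / y k} = ⊤) :
    Submodule.span K (Bx (tf y) (ti y) 1) = ⊤ := by
  classical
  by_contra hcon
  have hcon2 : ∀ i k, ∃ c : K, y i / y k = algebraMap K E c := by
    intro i k
    by_cases hk : y k = 0
    · exact ⟨0, by rw [hk, div_zero, map_zero]⟩
    by_contra hc
    push Not at hc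
    refine hcon ?_
    have hli : LinearIndependent K ![y k, y i] := by
      rw [LinearIndependent.pair_iff]
      intro s t hst
      have ht : t = 0 := by
        by_contra ht
        refine hc (- s / t) ?_
        rw [Algebra.smul_def, Algebra.smul_def] at hst
        have ht' : algebraMap K E t ≠ 0 := (map_ne_zero _).2 ht
        rw [map_div₀, map_neg, div_eq_div_iff hk ht']
        linear_combination hst
      subst ht
      rw [zero_smul, add_zero] at hst
      exact ⟨(smul_eq_zero.1 hst).resolve_right hk, rfl⟩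
    have h3 : Submodule.span K (Set.range ![y k, y i]) = ⊤ :=
      hli.span_eq_top_of_card_eq_finrank (by rw [h2]; rfl)
    rw [eq_top_iff, ← h3]
    refine Submodule.span_mono ?_
    rintro _ ⟨j, rfl⟩
    fin_cases j
    · exact mem_box y k
    · exact mem_box y i
  have hbot : IntermediateField.adjoin K {z : E | ∃ i k, z = y i / y k} ≤ ⊥ := by
    rw [IntermediateField.adjoin_le_iff]
    rintro _ ⟨i, k, rfl⟩
    obtain ⟨c, hc⟩ := hcon2 i k
    rw [hc]
    exact IntermediateField.algebraMap_mem _ c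
  rw [hy, top_le_iff] at hbot
  have h3 : Module.finrank K (⊥ : IntermediateField K E) = 1 := IntermediateField.finrank_bot
  rw [hbot, IntermediateField.finrank_top'] at h3
  omega

lemma ncard_pos {E : Type u} [Field E] [NumberField E] {m : ℕ} (y : Fin m → E) (hy : y ≠ 0) :
    1 ≤ (Bx (tf y) (ti y) 1).ncard := by
  have hA := (adm_tf y hy).1
  have hfin := box_finite hA 1
  have h0 : (0 : E) ∈ Bx (tf y) (ti y) 1 := by
    refine ⟨fun w => ?_, fun w => ?_⟩
    · rw [Pool.Agent.Lib.MP_4d5ce1_nt.fa_zero]; exact tf_nonneg y w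
    · rw [map_zero, one_mul]; exact ti_nonneg y w
  exact (Set.ncard_pos hfin).2 ⟨0, h0⟩

open Classical in
/-- The absolute value of the discriminant. -/
noncomputable def dd (E : IntermediateField K (AlgebraicClosure K)) : ℝ :=
  if h : NumberField E then
    haveI := h
    |((discr E : ℤ) : ℝ)|
  else 1

omit [NumberField K] in
lemma dd_eq (E : IntermediateField K (AlgebraicClosure K)) [h : NumberField E] :
    dd E = |((discr E : ℤ) : ℝ)| := by
  unfold dd
  rw [dif_pos h]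

omit [NumberField K] in
lemma one_le_dd (E : IntermediateField K (AlgebraicClosure K)) : 1 ≤ dd E := by
  by_cases h : NumberField E
  · rw [dd_eq E]
    have h1 : (1 : ℤ) ≤ |discr E| := Int.one_le_abs (NumberField.discr_ne_zero E)
    have h2 : ((1 : ℤ) : ℝ) ≤ ((|discr E| : ℤ) : ℝ) := by exact_mod_cast h1
    rwa [Int.cast_abs, Int.cast_one] at h2
  · unfold dd
    rw [dif_neg h]

/-- The sum of the inverses of the discriminants. -/
lemma sum_inv (K : Type u) [Field K] [NumberField K] : ∃ C : ℝ, 0 < C ∧ ∀ Z : ℝ, 1 ≤ Z →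
    ∀ Es : Finset (IntermediateField K (AlgebraicClosure K)),
      (∀ E ∈ Es, Module.finrank K E = 2 ∧ NumberField E ∧ dd E ≤ Z) →
        ∑ E ∈ Es, (dd E)⁻¹ ≤ C * (Real.log Z / Real.log 2 + 1) := by
  classical
  obtain ⟨C, hC0, hC⟩ := Pool.Agent.Lib.MP_44a246_ntSF.schmidt.{u} 2 (Module.finrank ℚ K)
    (by norm_num)
  refine ⟨2 * C, by positivity, ?_⟩
  intro Z hZ Es hEs
  have hlow : ∀ E : IntermediateField K (AlgebraicClosure K),
      (2 : ℝ) ^ (Nat.log 2 ⌊dd E⌋₊) ≤ dd E := by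
    intro E
    have h1 : ⌊dd E⌋₊ ≠ 0 := by
      have := (Nat.one_le_floor_iff (dd E)).2 (one_le_dd E)
      omega
    have h2 : 2 ^ (Nat.log 2 ⌊dd E⌋₊) ≤ ⌊dd E⌋₊ := Nat.pow_log_le_self 2 h1
    have h3 : ((2 ^ (Nat.log 2 ⌊dd E⌋₊) : ℕ) : ℝ) ≤ (⌊dd E⌋₊ : ℝ) := by exact_mod_cast h2
    rw [Nat.cast_pow, Nat.cast_ofNat] at h3
    exact h3.trans (Nat.floor_le (zero_le_one.trans (one_le_dd E)))
  have hup : ∀ E : IntermediateField K (AlgebraicClosure K),
      dd E ≤ (2 : ℝ) ^ (Nat.log 2 ⌊dd E⌋₊ + 1) := by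
    intro E
    have h2 : ⌊dd E⌋₊ + 1 ≤ 2 ^ (Nat.log 2 ⌊dd E⌋₊ + 1) := Nat.lt_pow_succ_log_self (by norm_num) _
    have h3 : ((⌊dd E⌋₊ + 1 : ℕ) : ℝ) ≤ ((2 ^ (Nat.log 2 ⌊dd E⌋₊ + 1) : ℕ) : ℝ) := by
      exact_mod_cast h2
    rw [Nat.cast_pow, Nat.cast_ofNat, Nat.cast_add, Nat.cast_one] at h3
    exact (Nat.lt_floor_add_one _).le.trans h3
  set K0 : ℕ := Nat.log 2 ⌊Z⌋₊ with hK0
  have hmaps : ∀ E ∈ Es, Nat.log 2 ⌊dd E⌋₊ ∈ Finset.range (K0 + 1) := by
    intro E hE
    rw [Finset.mem_range, Nat.lt_succ_iff]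
    exact Nat.log_mono_right (Nat.floor_mono (hEs E hE).2.2)
  have hK0Z : (K0 : ℝ) * Real.log 2 ≤ Real.log Z := by
    have h1 : ⌊Z⌋₊ ≠ 0 := by
      have := (Nat.one_le_floor_iff Z).2 hZ
      omega
    have h2 : 2 ^ K0 ≤ ⌊Z⌋₊ := Nat.pow_log_le_self 2 h1
    have h3 : ((2 ^ K0 : ℕ) : ℝ) ≤ (⌊Z⌋₊ : ℝ) := by exact_mod_cast h2
    rw [Nat.cast_pow, Nat.cast_ofNat] at h3
    have h4 : (2 : ℝ) ^ K0 ≤ Z := h3.trans (Nat.floor_le (by linarith))
    rw [← Real.log_pow]
    exact Real.log_le_log (by positivity) h4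
  have hlog2 : 0 < Real.log 2 := Real.log_pos (by norm_num)
  rw [← Finset.sum_fiberwise_of_maps_to hmaps]
  have hstep : ∀ k ∈ Finset.range (K0 + 1),
      ∑ E ∈ Es.filter (fun E => Nat.log 2 ⌊dd E⌋₊ = k), (dd E)⁻¹ ≤ 2 * C := by
    intro k _
    have h1 : ∀ E ∈ Es.filter (fun E => Nat.log 2 ⌊dd E⌋₊ = k), (dd E)⁻¹ ≤ ((2 : ℝ) ^ k)⁻¹ := by
      intro E hE
      rw [Finset.mem_filter] at hE
      refine inv_anti₀ (by positivity) ?_
      rw [← hE.2]
      exact hlow E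
    have h2 := Finset.sum_le_card_nsmul _ _ _ h1
    rw [nsmul_eq_mul] at h2
    refine h2.trans ?_
    have h3 := hC K rfl (AlgebraicClosure K) ((2 : ℝ) ^ (k + 1)) (one_le_pow₀ (by norm_num))
      (Es.filter (fun E => Nat.log 2 ⌊dd E⌋₊ = k)) (by
        intro E hE
        rw [Finset.mem_filter] at hE
        obtain ⟨h4, h5, -⟩ := hEs E hE.1
        refine ⟨h4, h5, ?_⟩
        rw [← dd_eq E, ← hE.2]
        exact hup E)
    have h6 : (((2 : ℕ) : ℝ) + 2) / 4 = 1 := by norm_num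
    rw [h6, Real.rpow_one] at h3
    calc ((Es.filter (fun E => Nat.log 2 ⌊dd E⌋₊ = k)).card : ℝ) * ((2 : ℝ) ^ k)⁻¹
        ≤ (C * (2 : ℝ) ^ (k + 1)) * ((2 : ℝ) ^ k)⁻¹ :=
          mul_le_mul_of_nonneg_right h3 (by positivity)
      _ = 2 * C := by
          rw [pow_succ]
          field_simp
  refine (Finset.sum_le_card_nsmul _ _ _ hstep).trans ?_
  rw [Finset.card_range, nsmul_eq_mul, mul_comm]
  refine mul_le_mul_of_nonneg_left ?_ (by positivity)
  push_cast
  have : (K0 : ℝ) ≤ Real.log Z / Real.log 2 := by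
    rw [le_div_iff₀ hlog2]
    exact hK0Z
  linarith

end

end ED2

section bad
variable {K : Type u} [Field K] [NumberField K] {n q : ℕ}

open ED2 in
/-- ED2 : `r = 2 ≤ n` -/
theorem count_two {S : Set (HeightOneSpectrum (𝓞 K))} (hSf : S.Finite)
    (L : Fin q → Fin (n + 1) → K) (hL : ∀ v j i, fa v (L j i) ≤ 1)
    (hL0 : ∀ j, L j ≠ 0) (hn : 2 ≤ n) (ρ c : ℝ) (hρ : ρ < q + 1 - n) :
    ∃ (δ C : ℝ), 0 < δ ∧ ∀ B : ℝ, 1 ≤ B → ∀ X : Finset (Vc K (n + 1)), Np X →
      (∀ s ∈ X, Gd 2 B s ∧ ¬ Rel L s.2 ∧ ∃ _ : NumberField s.1,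
        (∀ j, lin (up s.1 L j) s.2 ≠ 0) ∧
        truncCount (above K s.1 S) (up s.1 L) s.2 ≤ ρ * logHeight s.2 + c) →
      (X.card : ℝ) ≤ C * B ^ ((n : ℝ) + 1 - δ) := by
  classical
  obtain ⟨S₀, δ0, H₀, -, hδ0, hex⟩ := excess2 hSf L hL0 2 ρ c hρ
  obtain ⟨Cb, hCb1, hCb⟩ := field_bad S₀ L hL (δ0 / 16) (by positivity)
  obtain ⟨Cd, hCd1, hCd⟩ := box_disc (K := K) 2
  obtain ⟨Ct, hCt1, hCt⟩ := deg_total (K := K) n 2 (by norm_num) 1 one_pos
  obtain ⟨Cs, hCs0, hCs⟩ := sum_inv K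
  set η : ℝ := δ0 / 16 with hη
  have hη0 : 0 < η := by positivity
  have hlog2 : 0 < Real.log 2 := Real.log_pos (by norm_num)
  have hlogCd : 0 ≤ Real.log Cd := Real.log_nonneg hCd1
  set C1 : ℝ := Ct * (|H₀| + 1) ^ ((n : ℝ) + 2) with hC1
  set C2 : ℝ := Cb * (Cs * ((2 * Real.log Cd + 2 / η) / Real.log 2 + 1)) with hC2
  have hC10 : 0 ≤ C1 := by positivity
  have hC20 : 0 ≤ C2 := by positivity
  refine ⟨min (δ0 / 8) 1, C1 + C2, by positivity, ?_⟩
  intro B hB X hNp hX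
  have hB0 : 0 < B := by linarith
  set B1 : ℝ := max H₀ (B ^ (1 / 2 : ℝ)) with hB1
  have hBh : 1 ≤ B ^ (1 / 2 : ℝ) := Real.one_le_rpow hB (by norm_num)
  have hB11 : 1 ≤ B1 := hBh.trans (le_max_right _ _)
  have hB1le : B1 ≤ (|H₀| + 1) * B ^ (1 / 2 : ℝ) := by
    have h1 : 0 ≤ |H₀| := abs_nonneg _
    refine max_le ?_ ?_
    · calc H₀ ≤ |H₀| := le_abs_self _
        _ ≤ (|H₀| + 1) * 1 := by linarith
        _ ≤ (|H₀| + 1) * B ^ (1 / 2 : ℝ) := by gcongr
    · calc B ^ (1 / 2 : ℝ) = 1 * B ^ (1 / 2 : ℝ) := (one_mul _).symm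
        _ ≤ (|H₀| + 1) * B ^ (1 / 2 : ℝ) := by
            refine mul_le_mul_of_nonneg_right ?_ (by positivity)
            linarith
  have hNpf : ∀ Z ⊆ X, Np Z := fun Z hZ F x y hx hy z hz hxy =>
    hNp F x y (hZ hx) (hZ hy) z hz hxy
  set X1 : Finset (Vc K (n + 1)) := X.filter fun s => Gd 2 B1 s with hX1
  set X2 : Finset (Vc K (n + 1)) := X.filter fun s => ¬ Gd 2 B1 s with hX2
  have hsplit : (X.card : ℝ) = X1.card + X2.card := by
    rw [hX1, hX2]
    exact_mod_cast (Finset.card_filter_add_card_filter_not (s := X) fun s => Gd 2 B1 s).symm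
  -- the points of small height
  have hpart1 : (X1.card : ℝ) ≤ C1 * B ^ ((n : ℝ) + 1 - min (δ0 / 8) 1) := by
    have h1 := hCt B1 hB11 X1 (hNpf X1 (Finset.filter_subset _ _))
      (fun s hs => (Finset.mem_filter.1 hs).2)
    have hmax : (max n 2 : ℕ) = n := max_eq_left hn
    rw [hmax] at h1
    have e1 : (n : ℝ) + 1 + 1 = (n : ℝ) + 2 := by ring
    rw [e1] at h1
    refine h1.trans ?_
    rw [hC1, mul_assoc]
    refine mul_le_mul_of_nonneg_left ?_ (by linarith)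
    have hn' : (2 : ℝ) ≤ n := by exact_mod_cast hn
    calc B1 ^ ((n : ℝ) + 2) ≤ ((|H₀| + 1) * B ^ (1 / 2 : ℝ)) ^ ((n : ℝ) + 2) :=
          Real.rpow_le_rpow (by linarith) hB1le (by positivity)
      _ = (|H₀| + 1) ^ ((n : ℝ) + 2) * B ^ ((1 / 2 : ℝ) * ((n : ℝ) + 2)) := by
          rw [Real.mul_rpow (by positivity) (by positivity), ← Real.rpow_mul hB0.le]
      _ ≤ (|H₀| + 1) ^ ((n : ℝ) + 2) * B ^ ((n : ℝ) + 1 - min (δ0 / 8) 1) := by
          refine mul_le_mul_of_nonneg_left ?_ (by positivity)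
          refine Real.rpow_le_rpow_of_exponent_le hB ?_
          have := min_le_right (δ0 / 8) (1 : ℝ)
          linarith
  -- the others
  have hpart2 : (X2.card : ℝ) ≤ C2 * B ^ ((n : ℝ) + 1 - min (δ0 / 8) 1) := by
    set ε0 : ℝ := B ^ (-(δ0 / 2)) with hε0
    have hε00 : 0 < ε0 := Real.rpow_pos_of_pos hB0 _
    have hε01 : ε0 ≤ 1 := Real.rpow_le_one_of_one_le_of_nonpos hB (by linarith)
    have hfacts : ∀ (E : IntermediateField K (AlgebraicClosure K)) (y : Fin (n + 1) → E),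
        (⟨E, y⟩ : Vc K (n + 1)) ∈ X2 → ∃ _ : NumberField E, Module.finrank K E = 2 ∧ y ≠ 0 ∧
          IntermediateField.adjoin K {z : E | ∃ i k, z = y i / y k} = ⊤ ∧ mulHeight y ≤ B ∧
          (∀ j, lin (up E L j) y ≠ 0) ∧ BadG S₀ L ε0 y := by
      intro E y hy
      rw [hX2, Finset.mem_filter] at hy
      obtain ⟨hyX, hyG⟩ := hy
      obtain ⟨⟨hnf, hfr, hne, hadj, hht⟩, hrel, hnf', hlin, htr⟩ := hX _ hyX
      have hfr' : Module.finrank K E = 2 := hfr
      have hne' : y ≠ 0 := hne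
      have hbig : B1 < mulHeight y := by
        by_contra hcon
        push Not at hcon
        exact hyG ⟨hnf, hfr, hne, hadj, hcon⟩
      have hH : H₀ ≤ mulHeight y := (le_max_left _ _).trans hbig.le
      have hH2 : B ^ (1 / 2 : ℝ) ≤ mulHeight y := (le_max_right _ _).trans hbig.le
      refine ⟨hnf, hfr', hne', hadj, hht, hlin, ?_⟩
      rcases hex E hfr' y hne' hlin hH htr with h | h | h
      · refine badG_mono ?_ h
        calc mulHeight y ^ (-δ0) ≤ (B ^ (1 / 2 : ℝ)) ^ (-δ0) :=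
              Real.rpow_le_rpow_of_nonpos (by linarith) hH2 (by linarith)
          _ = ε0 := by
              rw [hε0, ← Real.rpow_mul hB0.le]
              congr 1
              ring
      · exact absurd h (not_imp hfr')
      · exact absurd h hrel
    set Es : Finset (IntermediateField K (AlgebraicClosure K)) := X2.image fun s => s.1 with hEs
    have hEsf : ∀ E ∈ Es, ∃ y : Fin (n + 1) → E, (⟨E, y⟩ : Vc K (n + 1)) ∈ X2 := by
      intro E hE
      rw [hEs, Finset.mem_image] at hE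
      obtain ⟨s, hs, rfl⟩ := hE
      exact ⟨s.2, hs⟩
    set M : ℝ := Cb * B ^ η * (ε0 ^ (1 / 2 : ℝ) * B ^ (n + 1)) with hM
    have hM0 : 0 ≤ M := by positivity
    set Z : ℝ := (Cd * B) ^ 2 with hZ
    have hCdB : 1 ≤ Cd * B := by nlinarith
    have hZ1 : 1 ≤ Z := one_le_pow₀ hCdB
    have hfield : ∀ E ∈ Es, ((X2.filter fun s => s.1 = E).card : ℝ) ≤ M * (dd E)⁻¹ := by
      intro E hE
      obtain ⟨y0, hy0⟩ := hEsf E hE
      obtain ⟨hnf, hfr, -, -, -, -, -⟩ := hfacts E y0 hy0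
      set Y : Finset (Fin (n + 1) → E) := X2.preimage (fun y => (⟨E, y⟩ : Vc K (n + 1)))
        (fun a _ b _ h => eq_of_heq (Sigma.mk.inj h).2) with hY
      have hYm : ∀ y ∈ Y, (⟨E, y⟩ : Vc K (n + 1)) ∈ X2 := fun y hy =>
        Finset.mem_preimage.1 hy
      have hcard : (X2.filter fun s => s.1 = E).card ≤ Y.card := by
        refine le_trans (Finset.card_le_card ?_)
          (Finset.card_image_le (s := Y) (f := fun y => (⟨E, y⟩ : Vc K (n + 1))))
        intro s hs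
        rw [Finset.mem_filter] at hs
        obtain ⟨hs1, rfl⟩ := hs
        rw [Finset.mem_image]
        exact ⟨s.2, Finset.mem_preimage.2 hs1, rfl⟩
      have h1 := hCb E hfr B hB ε0 hε00 hε01 Y
        (fun x hx y hy z hz hxy => hNp E x y
          ((Finset.filter_subset _ _) (hYm x hx)) ((Finset.filter_subset _ _) (hYm y hy)) z hz hxy)
        (fun y hy => by
          obtain ⟨_, _, h2, h3, h4, h5, h6⟩ := hfacts E y (hYm y hy)
          exact ⟨h2, h3, h4, h5, h6⟩)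
      have hd1 : 1 ≤ dd E := one_le_dd E
      rw [← dd_eq E] at h1
      have hsq : 1 ≤ √(dd E) := by
        rw [Real.one_le_sqrt]
        exact hd1
      have hpow : dd E ≤ √(dd E) ^ n := by
        calc dd E = √(dd E) ^ 2 := (Real.sq_sqrt (by linarith)).symm
          _ ≤ √(dd E) ^ n := pow_le_pow_right₀ hsq hn
      rw [← div_eq_mul_inv, le_div_iff₀ (by linarith)]
      calc ((X2.filter fun s => s.1 = E).card : ℝ) * dd E ≤ (Y.card : ℝ) * √(dd E) ^ n := by
            refine mul_le_mul (by exact_mod_cast hcard) hpow (by linarith) (by positivity)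
        _ ≤ M := h1
    have hdisc : ∀ E ∈ Es, Module.finrank K E = 2 ∧ NumberField E ∧ dd E ≤ Z := by
      intro E hE
      obtain ⟨y, hy⟩ := hEsf E hE
      obtain ⟨hnf, hfr, hne, hadj, hht, -, -⟩ := hfacts E y hy
      refine ⟨hfr, hnf, ?_⟩
      obtain ⟨hadm, hhb⟩ := adm_tf y hne
      have h1 := hCd E hfr (tf y) (ti y) hadm (span_top hfr y hadj)
      rw [hhb, ← dd_eq E] at h1
      have h2 : (1 : ℝ) ≤ ((Bx (tf y) (ti y) 1).ncard : ℝ) := by exact_mod_cast ncard_pos y hne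
      have h3 : √(dd E) ≤ Cd * B := by
        calc √(dd E) = 1 * √(dd E) := (one_mul _).symm
          _ ≤ ((Bx (tf y) (ti y) 1).ncard : ℝ) * √(dd E) :=
              mul_le_mul_of_nonneg_right h2 (Real.sqrt_nonneg _)
          _ ≤ Cd * mulHeight y := h1
          _ ≤ Cd * B := mul_le_mul_of_nonneg_left hht (by linarith)
      calc dd E = √(dd E) ^ 2 := (Real.sq_sqrt (by linarith [one_le_dd E])).symm
        _ ≤ (Cd * B) ^ 2 := pow_le_pow_left₀ (Real.sqrt_nonneg _) h3 2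
    have hsum := hCs Z hZ1 Es hdisc
    have hlogZ : Real.log Z / Real.log 2 + 1 ≤
        ((2 * Real.log Cd + 2 / η) / Real.log 2 + 1) * B ^ η := by
      have hBη : 1 ≤ B ^ η := Real.one_le_rpow hB hη0.le
      have h1 : Real.log Z = 2 * Real.log Cd + 2 * Real.log B := by
        rw [hZ, Real.log_pow, Real.log_mul (by linarith) (by linarith)]
        push_cast
        ring
      have h2 : Real.log B ≤ B ^ η / η := Real.log_le_rpow_div hB0.le hη0
      have h3 : Real.log Z ≤ (2 * Real.log Cd + 2 / η) * B ^ η := by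
        rw [h1]
        have h4 : 2 * Real.log Cd ≤ 2 * Real.log Cd * B ^ η := by nlinarith
        have h5 : 2 * (B ^ η / η) = 2 / η * B ^ η := by ring
        nlinarith
      have h6 : Real.log Z / Real.log 2 ≤ (2 * Real.log Cd + 2 / η) / Real.log 2 * B ^ η := by
        rw [div_mul_eq_mul_div]
        exact div_le_div_of_nonneg_right h3 hlog2.le
      nlinarith
    have hX2card : (X2.card : ℝ) = ∑ E ∈ Es, ((X2.filter fun s => s.1 = E).card : ℝ) := by
      have := Finset.card_eq_sum_card_image (fun s : Vc K (n + 1) => s.1) X2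
      rw [this]
      push_cast
      rfl
    have hexp : M * (Cs * (((2 * Real.log Cd + 2 / η) / Real.log 2 + 1) * B ^ η)) ≤
        C2 * B ^ ((n : ℝ) + 1 - min (δ0 / 8) 1) := by
      have h1 : ε0 ^ (1 / 2 : ℝ) = B ^ (-(δ0 / 4)) := by
        rw [hε0, ← Real.rpow_mul hB0.le]
        congr 1
        ring
      have h2 : B ^ (n + 1) = B ^ ((n : ℝ) + 1) := by
        rw [← Real.rpow_natCast]
        push_cast
        rfl
      have h3 : M * (Cs * (((2 * Real.log Cd + 2 / η) / Real.log 2 + 1) * B ^ η)) =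
          C2 * (B ^ η * B ^ (-(δ0 / 4)) * B ^ ((n : ℝ) + 1) * B ^ η) := by
        rw [hM, hC2, h1, h2]
        ring
      rw [h3]
      refine mul_le_mul_of_nonneg_left ?_ hC20
      rw [← Real.rpow_add hB0, ← Real.rpow_add hB0, ← Real.rpow_add hB0]
      refine Real.rpow_le_rpow_of_exponent_le hB ?_
      have := min_le_left (δ0 / 8) (1 : ℝ)
      rw [hη]
      linarith
    rw [hX2card]
    calc ∑ E ∈ Es, ((X2.filter fun s => s.1 = E).card : ℝ) ≤ ∑ E ∈ Es, M * (dd E)⁻¹ :=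
          Finset.sum_le_sum hfield
      _ = M * ∑ E ∈ Es, (dd E)⁻¹ := by rw [Finset.mul_sum]
      _ ≤ M * (Cs * (Real.log Z / Real.log 2 + 1)) := mul_le_mul_of_nonneg_left hsum hM0
      _ ≤ M * (Cs * (((2 * Real.log Cd + 2 / η) / Real.log 2 + 1) * B ^ η)) := by
          refine mul_le_mul_of_nonneg_left ?_ hM0
          exact mul_le_mul_of_nonneg_left hlogZ hCs0.le
      _ ≤ _ := hexp
  rw [hsplit, add_mul]
  exact add_le_add hpart1 hpart2

end bad

end Pool.Agent.Lib.MP_44a246_ntAL
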