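import Pool.Agent.Lib.MP_44a246_ntAL.GenDefs
import Pool.Agent.Lib.MP_44a246_ntSR.Defs
import Pool.Agent.Lib.MP_44a246_ntAL.AL7
import Pool.Agent.Lib.MP_44a246_ntNU.NU6c

set_option autoImplicit false

open NumberField IsDedekindDomain Height MvPolynomial
open Pool.Agent.Lib.MP_4d5ce1_nt (fa nv ordv)
open Pool.Agent.Lib.MP_44a246_ntNF
open Pool.Agent.Lib.MP_44a246_ntNU
open Pool.Agent.Lib.MP_44a246_ntSR (mc)

namespace Pool.Agent.Lib.MP_44a246_ntAL

universe u

section NA

/-- The ideal below. -/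
private theorem push_NA4 {K E : Type*} [Field K] [NumberField K] [Field E] [NumberField E]
    [Algebra K E] (k : HeightOneSpectrum (𝓞 E) →₀ ℕ) :
    ∃ κ : HeightOneSpectrum (𝓞 K) →₀ ℕ, Nk κ = Nk k ∧
      ∀ (v : HeightOneSpectrum (𝓞 K)) (m : ℕ),
        nv v ^ (m * κ v) = ∏ w ∈ ov K E v, nv w ^ (m * k w) := by
  classical
  choose β hβ using fun w : HeightOneSpectrum (𝓞 E) => exists_below (K := K) w
  have hf : ∀ w : HeightOneSpectrum (𝓞 E), ∃ f : ℕ, nv w = nv (β w) ^ f :=
    fun w => ⟨_, nv_up (hβ w)⟩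
  choose f hf using hf
  refine ⟨k.sum fun w e => Finsupp.single (β w) (f w * e), ?_, ?_⟩
  · unfold Nk
    rw [Finsupp.prod_sum_index (fun v => pow_zero _) (fun v a b => pow_add _ _ _)]
    refine Finset.prod_congr rfl fun w _ => ?_
    show (Finsupp.single (β w) (f w * k w)).prod (fun w e => nv w ^ e) = nv w ^ k w
    rw [Finsupp.prod_single_index (h := fun (w : HeightOneSpectrum (𝓞 K)) (e : ℕ) => nv w ^ e)
      (pow_zero _), pow_mul, ← hf]
  · intro v m
    have h1 : (k.sum fun w e => Finsupp.single (β w) (f w * e)) v =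
        ∑ w ∈ k.support, if β w = v then f w * k w else 0 := by
      rw [Finsupp.sum, Finsupp.finsetSum_apply]
      refine Finset.sum_congr rfl fun w _ => ?_
      rw [Finsupp.single_apply]
    rw [h1, Finset.mul_sum, ← Finset.prod_pow_eq_pow_sum]
    have h2 : ∀ w ∈ k.support, nv v ^ (m * if β w = v then f w * k w else 0) =
        if β w = v then nv w ^ (m * k w) else 1 := by
      intro w _
      split_ifs with h
      · rw [hf w, ← h, ← pow_mul]
        congr 1
        ring
      · simp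
    rw [Finset.prod_congr rfl h2, ← Finset.prod_filter]
    have hmem : ∀ w, w ∈ ov K E v ↔ β w = v := by
      intro w
      rw [mem_ov, hβ]
      constructor
      · intro h
        exact HeightOneSpectrum.ext h
      · intro h
        rw [h]
    refine Finset.prod_subset_one_on_sdiff ?_ ?_ (fun _ _ => rfl)
    · intro w hw
      rw [Finset.mem_filter] at hw
      rw [hmem]
      exact hw.2
    · intro w hw
      rw [Finset.mem_sdiff, Finset.mem_filter, hmem] at hw
      have : k w = 0 := by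
        by_contra hne
        exact hw.2 ⟨Finsupp.mem_support_iff.mpr hne, hw.1⟩
      rw [this, mul_zero, pow_zero]

private theorem apos_NA4 {E : Type*} [Field E] [NumberField E]
    {a : HeightOneSpectrum (𝓞 E) → ℝ} {b : InfinitePlace E → ℝ}
    (h : Adm a b) (w : HeightOneSpectrum (𝓞 E)) : 0 < a w := by
  obtain ⟨k, hk⟩ := h.pow w
  rw [hk]
  exact zpow_pos (Pool.Agent.Lib.MP_4d5ce1_nt.nv_pos w) k

/-- NA4 : bad vectors have bad norm forms -/
theorem lead_bad {K : Type u} [Field K] [NumberField K] (S₀ : Finset (HeightOneSpectrum (𝓞 K)))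
    (r : ℕ) (hr : 1 ≤ r) (M : ℝ) (hM : 1 ≤ M) : ∃ C : ℝ, 1 ≤ C ∧
    ∀ (E : Type u) [Field E] [NumberField E] [Algebra K E], Module.finrank K E = r →
      ∀ (a : HeightOneSpectrum (𝓞 E) → ℝ) (b : InfinitePlace E → ℝ), Adm a b → ∀ B : ℝ, 1 ≤ B →
      ∀ (c : K) (u z : E), u ≠ 0 → z ≠ 0 → c ≠ 0 → u ∈ Bx a b M → z ∈ Bx a b M →
        IntermediateField.adjoin K {z / u} = ⊤ →
        (∀ v i, fa v (gv K r c u z i) ≤ ∏ w ∈ ov K E v, (max (fa w u) (fa w z) / a w)) →
        (∀ v, fa v (gv K r c u z (Fin.last r)) ≤ ∏ w ∈ ov K E v, fa w u / a w) →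
        (∀ v : InfinitePlace K, v (gv K r c u z (Fin.last r)) ^ v.mult ≤
          (M * B ^ ((Module.finrank ℚ K : ℝ)⁻¹)) ^ v.mult *
            ∏ w ∈ oi K E v, (w u / b w) ^ w.mult) →
        gv K r c u z 0 ≠ 0 ∧ gv K r c u z (Fin.last r) ≠ 0 ∧ (∀ v i, fa v (gv K r c u z i) ≤ 1) ∧
        ∀ ε : ℝ, 0 < ε → ε ≤ 1 →
          ((∃ w : InfinitePlace E, w u ≤ ε * b w) → ∃ v : InfinitePlace K,
            v (gv K r c u z (Fin.last r)) ^ v.mult ≤
              C * ε * (B ^ ((Module.finrank ℚ K : ℝ)⁻¹)) ^ v.mult) ∧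
          ((∃ w ∈ above K E (S₀ : Set (HeightOneSpectrum (𝓞 K))), fa w u ≤ ε * a w) →
            ∃ v ∈ S₀, fa v (gv K r c u z (Fin.last r)) ≤ ε) ∧
          ((∃ k : HeightOneSpectrum (𝓞 E) →₀ ℕ, 1 ≤ ε * Nk k ∧
              ∀ w ∈ k.support, fa w u * nv w ^ (2 * k w) ≤ a w) →
            ∃ κ : HeightOneSpectrum (𝓞 K) →₀ ℕ, 1 ≤ ε * Nk κ ∧
              ∀ v ∈ κ.support, fa v (gv K r c u z (Fin.last r)) * nv v ^ (2 * κ v) ≤ 1) ∧
          ((∃ W : Finset (HeightOneSpectrum (𝓞 E)), 1 ≤ ε * NN W ∧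
              ∀ w ∈ W, fa w z * nv w ≤ a w ∧ fa w u * nv w ≤ a w) →
            ∃ κ : HeightOneSpectrum (𝓞 K) →₀ ℕ, 1 ≤ ε * Nk κ ∧
              ∀ v ∈ κ.support, ∀ i, fa v (gv K r c u z i) * nv v ^ κ v ≤ 1) := by
  classical
  refine ⟨M ^ (2 + r * Module.finrank ℚ K), one_le_pow₀ hM, ?_⟩
  intro E _ _ _ hrE a b hab B hB c u z hu hz hc huB hzB htop hg hgr hgi
  have hapos := apos_NA4 hab
  have hNu : Algebra.norm K u ≠ 0 := Algebra.norm_ne_zero_iff.mpr hu
  have hint : IsIntegral K (z / u) := IsIntegral.of_finite K _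
  have hfa0 : ∀ (w : HeightOneSpectrum (𝓞 E)) (y : E), 0 ≤ fa w y :=
    fun w y => Pool.Agent.Lib.MP_4d5ce1_nt.fa_nonneg w y
  have hnv : ∀ w : HeightOneSpectrum (𝓞 E), 0 < nv w :=
    fun w => Pool.Agent.Lib.MP_4d5ce1_nt.nv_pos w
  refine ⟨?_, ?_, ?_, ?_⟩
  · unfold gv
    refine mul_ne_zero (mul_ne_zero hc hNu) ?_
    exact minpoly.coeff_zero_ne_zero hint (div_ne_zero hz hu)
  · unfold gv
    refine mul_ne_zero (mul_ne_zero hc hNu) ?_
    have hdeg : (minpoly K (z / u)).natDegree = r := by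
      rw [← hrE]
      exact (Field.primitive_element_iff_minpoly_natDegree_eq K (z / u)).mp htop
    have hmon := (minpoly.monic hint).coeff_natDegree
    rw [hdeg] at hmon
    rw [Fin.val_last, hmon]
    exact one_ne_zero
  · intro v i
    refine (hg v i).trans (Finset.prod_le_one (fun w _ => ?_) fun w _ => ?_)
    · exact div_nonneg ((hfa0 w u).trans (le_max_left _ _)) (hapos w).le
    · rw [div_le_one (hapos w)]
      exact max_le (huB.1 w) (hzB.1 w)
  · intro ε hε hε1
    refine ⟨?_, ?_, ?_, ?_⟩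
    · rintro ⟨w, hw⟩
      refine ⟨w.comap (algebraMap K E), ?_⟩
      set v : InfinitePlace K := w.comap (algebraMap K E) with hv
      have hwm : w ∈ oi K E v := by
        unfold oi
        simp [hv]
      refine (hgi v).trans ?_
      have hB0 : 0 ≤ B ^ ((Module.finrank ℚ K : ℝ)⁻¹) := Real.rpow_nonneg (by linarith) _
      have hM0 : 0 < M := by linarith
      have hfac : ∀ w' : InfinitePlace E, (w' u / b w') ^ w'.mult ≤ M ^ w'.mult := by
        intro w'
        refine pow_le_pow_left₀ (div_nonneg (apply_nonneg _ _) (hab.pos w').le) ?_ _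
        rw [div_le_iff₀ (hab.pos w')]
        exact huB.2 w'
      have hfac0 : ∀ w' : InfinitePlace E, 0 ≤ (w' u / b w') ^ w'.mult :=
        fun w' => pow_nonneg (div_nonneg (apply_nonneg _ _) (hab.pos w').le) _
      have hspec : (w u / b w) ^ w.mult ≤ ε * M ^ w.mult := by
        have h1 : (w u / b w) ^ w.mult ≤ ε ^ w.mult := by
          refine pow_le_pow_left₀ (div_nonneg (apply_nonneg _ _) (hab.pos w).le) ?_ _
          rw [div_le_iff₀ (hab.pos w)]
          exact hw
        have h2 : ε ^ w.mult ≤ ε := pow_le_of_le_one hε.le hε1 w.mult_pos.ne'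
        have h3 : ε ≤ ε * M ^ w.mult := le_mul_of_one_le_right hε.le (one_le_pow₀ hM)
        linarith
      have hprod : ∏ w' ∈ oi K E v, (w' u / b w') ^ w'.mult ≤
          ε * M ^ (r * Module.finrank ℚ K) := by
        rw [← Finset.mul_prod_erase _ _ hwm]
        have hrest : ∏ w' ∈ (oi K E v).erase w, (w' u / b w') ^ w'.mult ≤
            ∏ w' ∈ (oi K E v).erase w, M ^ w'.mult :=
          Finset.prod_le_prod (fun w' _ => hfac0 w') fun w' _ => hfac w'
        calc (w u / b w) ^ w.mult * ∏ w' ∈ (oi K E v).erase w, (w' u / b w') ^ w'.mult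
            ≤ (ε * M ^ w.mult) * ∏ w' ∈ (oi K E v).erase w, M ^ w'.mult :=
              mul_le_mul hspec hrest (Finset.prod_nonneg fun w' _ => hfac0 w')
                (by positivity)
          _ = ε * ∏ w' ∈ oi K E v, M ^ w'.mult := by
              rw [mul_assoc, Finset.mul_prod_erase (oi K E v) (fun w' => M ^ w'.mult) hwm]
          _ ≤ ε * M ^ (r * Module.finrank ℚ K) := by
              refine mul_le_mul_of_nonneg_left ?_ hε.le
              rw [Finset.prod_pow_eq_pow_sum]
              refine pow_le_pow_right₀ hM ?_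
              calc ∑ w' ∈ oi K E v, w'.mult ≤ ∑ w' : InfinitePlace E, w'.mult :=
                    Finset.sum_le_sum_of_subset (Finset.subset_univ _)
                _ = Module.finrank ℚ E := InfinitePlace.sum_mult_eq
                _ = r * Module.finrank ℚ K := by
                    rw [← Module.finrank_mul_finrank ℚ K E, hrE, mul_comm]
      have hMv : M ^ v.mult ≤ M ^ 2 := by
        refine pow_le_pow_right₀ hM ?_
        unfold InfinitePlace.mult
        split_ifs <;> omega
      calc (M * B ^ ((Module.finrank ℚ K : ℝ)⁻¹)) ^ v.mult *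
            ∏ w' ∈ oi K E v, (w' u / b w') ^ w'.mult
          ≤ (M * B ^ ((Module.finrank ℚ K : ℝ)⁻¹)) ^ v.mult *
              (ε * M ^ (r * Module.finrank ℚ K)) :=
            mul_le_mul_of_nonneg_left hprod (by positivity)
        _ = M ^ v.mult * (M ^ (r * Module.finrank ℚ K) * ε *
              (B ^ ((Module.finrank ℚ K : ℝ)⁻¹)) ^ v.mult) := by
            rw [mul_pow]; ring
        _ ≤ M ^ 2 * (M ^ (r * Module.finrank ℚ K) * ε *
              (B ^ ((Module.finrank ℚ K : ℝ)⁻¹)) ^ v.mult) :=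
            mul_le_mul_of_nonneg_right hMv (by positivity)
        _ = M ^ (2 + r * Module.finrank ℚ K) * ε *
              (B ^ ((Module.finrank ℚ K : ℝ)⁻¹)) ^ v.mult := by
            rw [pow_add]; ring
    · rintro ⟨w, ⟨v, hvS, hvw⟩, hw⟩
      refine ⟨v, hvS, (hgr v).trans ?_⟩
      have hwm : w ∈ ov K E v := (mem_ov v w).mpr hvw
      rw [← Finset.mul_prod_erase _ _ hwm]
      have h1 : fa w u / a w ≤ ε := by
        rw [div_le_iff₀ (hapos w)]
        exact hw
      have h2 : ∏ w' ∈ (ov K E v).erase w, fa w' u / a w' ≤ 1 := by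
        refine Finset.prod_le_one (fun w' _ => div_nonneg (hfa0 w' u) (hapos w').le)
          fun w' _ => ?_
        rw [div_le_one (hapos w')]
        exact huB.1 w'
      calc fa w u / a w * ∏ w' ∈ (ov K E v).erase w, fa w' u / a w' ≤ ε * 1 :=
            mul_le_mul h1 h2 (Finset.prod_nonneg fun w' _ =>
              div_nonneg (hfa0 w' u) (hapos w').le) hε.le
        _ = ε := mul_one _
    · rintro ⟨k, hk1, hk2⟩
      obtain ⟨κ, hκ1, hκ2⟩ := push_NA4 (K := K) k
      refine ⟨κ, by rw [hκ1]; exact hk1, fun v _ => ?_⟩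
      rw [hκ2 v 2]
      calc fa v (gv K r c u z (Fin.last r)) * ∏ w ∈ ov K E v, nv w ^ (2 * k w)
          ≤ (∏ w ∈ ov K E v, fa w u / a w) * ∏ w ∈ ov K E v, nv w ^ (2 * k w) :=
            mul_le_mul_of_nonneg_right (hgr v)
              (Finset.prod_nonneg fun w _ => pow_nonneg (hnv w).le _)
        _ = ∏ w ∈ ov K E v, (fa w u / a w * nv w ^ (2 * k w)) := Finset.prod_mul_distrib.symm
        _ ≤ 1 := by
            refine Finset.prod_le_one (fun w _ => mul_nonneg (div_nonneg (hfa0 w u) (hapos w).le)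
              (pow_nonneg (hnv w).le _)) fun w _ => ?_
            by_cases hws : w ∈ k.support
            · rw [div_mul_eq_mul_div, div_le_one (hapos w)]
              exact hk2 w hws
            · rw [Finsupp.notMem_support_iff.mp hws, mul_zero, pow_zero, mul_one,
                div_le_one (hapos w)]
              exact huB.1 w
    · rintro ⟨W, hW1, hW2⟩
      set k : HeightOneSpectrum (𝓞 E) →₀ ℕ := Finsupp.onFinset W
        (fun w => if w ∈ W then 1 else 0) (fun w hw => by
          by_contra h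
          rw [if_neg h] at hw
          exact hw rfl) with hk
      have hkw : ∀ w, k w = if w ∈ W then 1 else 0 := fun w => rfl
      have hNk : Nk k = NN W := by
        unfold Nk NN
        rw [Finsupp.prod_of_support_subset k (s := W) Finsupp.support_onFinset_subset _
          (fun w _ => pow_zero _)]
        refine Finset.prod_congr rfl fun w hw => ?_
        rw [hkw, if_pos hw, pow_one]
      obtain ⟨κ, hκ1, hκ2⟩ := push_NA4 (K := K) k
      refine ⟨κ, by rw [hκ1, hNk]; exact hW1, fun v _ i => ?_⟩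
      have h1 := hκ2 v 1
      simp only [one_mul] at h1
      rw [h1]
      calc fa v (gv K r c u z i) * ∏ w ∈ ov K E v, nv w ^ (k w)
          ≤ (∏ w ∈ ov K E v, max (fa w u) (fa w z) / a w) * ∏ w ∈ ov K E v, nv w ^ (k w) :=
            mul_le_mul_of_nonneg_right (hg v i)
              (Finset.prod_nonneg fun w _ => pow_nonneg (hnv w).le _)
        _ = ∏ w ∈ ov K E v, (max (fa w u) (fa w z) / a w * nv w ^ (k w)) :=
            Finset.prod_mul_distrib.symm
        _ ≤ 1 := by
            refine Finset.prod_le_one (fun w _ => mul_nonneg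
              (div_nonneg ((hfa0 w u).trans (le_max_left _ _)) (hapos w).le)
              (pow_nonneg (hnv w).le _)) fun w _ => ?_
            by_cases hws : w ∈ W
            · rw [hkw, if_pos hws, pow_one, div_mul_eq_mul_div, div_le_one (hapos w),
                max_mul_of_nonneg _ _ (hnv w).le]
              exact max_le (hW2 w hws).2 (hW2 w hws).1
            · rw [hkw, if_neg hws, pow_zero, mul_one, div_le_one (hapos w)]
              exact max_le (huB.1 w) (hzB.1 w)

end NA

end Pool.Agent.Lib.MP_44a246_ntAL
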