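import Pool.Agent.Lib.MP_44a246_ntAL.GenDefs
import Pool.Agent.Lib.MP_44a246_ntAL.AL0
import Pool.Agent.Lib.MP_44a246_ntAL.AL5
import Pool.Agent.Lib.MP_44a246_ntAL.AL12
import Pool.Agent.Lib.MP_44a246_ntAL.AL13
import Pool.Agent.Lib.MP_44a246_ntAL.NA1
import Pool.Agent.Lib.MP_44a246_ntAL.NA4
import Pool.Agent.Lib.MP_44a246_ntNU.NU6c

/-!
# The classes of bad vectors
-/

set_option autoImplicit false

open NumberField IsDedekindDomain Height MvPolynomial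
open Pool.Agent.Lib.MP_4d5ce1_nt (fa nv ordv)
open Pool.Agent.Lib.MP_44a246_ntNF
open Pool.Agent.Lib.MP_44a246_ntNU

namespace Pool.Agent.Lib.MP_44a246_ntAL

universe u

namespace NA5aux

/-- The element is special. -/
def LB {K : Type u} [Field K] [NumberField K] (S₀ : Finset (HeightOneSpectrum (𝓞 K)))
    (M B ε : ℝ) (g : K) : Prop :=
  (∃ v : InfinitePlace K,
      v g ^ v.mult ≤ M * ε * (B ^ ((Module.finrank ℚ K : ℝ)⁻¹)) ^ v.mult) ∨
    (∃ v ∈ S₀, fa v g ≤ ε) ∨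
    ∃ κ : HeightOneSpectrum (𝓞 K) →₀ ℕ, 1 ≤ ε * Nk κ ∧
      ∀ v ∈ κ.support, fa v g * nv v ^ (2 * κ v) ≤ 1

/-- The coordinates have a large common divisor. -/
def PB {K : Type u} [Field K] [NumberField K] {r : ℕ} (ε : ℝ) (g : Fin (r + 1) → K) : Prop :=
  ∃ κ : HeightOneSpectrum (𝓞 K) →₀ ℕ, 1 ≤ ε * Nk κ ∧
    ∀ v ∈ κ.support, ∀ i, fa v (g i) * nv v ^ κ v ≤ 1

/-- Sum of the absolute values of all coefficients at the infinite places. -/
noncomputable def cI {K : Type u} [Field K] [NumberField K] {n q : ℕ}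
    (L : Fin q → Fin (n + 1) → K) : ℝ :=
  ∑ v : InfinitePlace K, ∑ j, ∑ i, v (L j i)

lemma cI_nonneg {K : Type u} [Field K] [NumberField K] {n q : ℕ}
    (L : Fin q → Fin (n + 1) → K) : 0 ≤ cI L :=
  Finset.sum_nonneg fun v _ => Finset.sum_nonneg fun j _ => Finset.sum_nonneg fun i _ =>
    apply_nonneg _ _

lemma inf_sum_le {E : Type*} [Field E] (w : InfinitePlace E) {ι : Type*} (s : Finset ι)
    (f : ι → E) : w (∑ i ∈ s, f i) ≤ ∑ i ∈ s, w (f i) := by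
  classical
  induction s using Finset.induction_on with
  | empty => simp
  | insert a s ha ih =>
    rw [Finset.sum_insert ha, Finset.sum_insert ha]
    exact (w.1.add_le _ _).trans (add_le_add le_rfl ih)

lemma lin_inf_le {K : Type u} [Field K] [NumberField K] {n q : ℕ} {E : Type u} [Field E]
    [NumberField E] [Algebra K E] (L : Fin q → Fin (n + 1) → K) (w : InfinitePlace E)
    (y : Fin (n + 1) → E) (t : ℝ) (hy : ∀ i, w (y i) ≤ t) (ht : 0 ≤ t) (j : Fin q) :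
    w (lin (up E L j) y) ≤ cI L * t := by
  unfold lin up
  refine (inf_sum_le w _ _).trans ?_
  have h1 : ∀ i, w (algebraMap K E (L j i) * y i) ≤ (w.comap (algebraMap K E)) (L j i) * t := by
    intro i
    rw [map_mul, InfinitePlace.comap_apply]
    exact mul_le_mul_of_nonneg_left (hy i) (apply_nonneg _ _)
  refine (Finset.sum_le_sum fun i _ => h1 i).trans ?_
  rw [← Finset.sum_mul]
  refine mul_le_mul_of_nonneg_right ?_ ht
  unfold cI
  calc ∑ i, (w.comap (algebraMap K E)) (L j i) ≤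
        ∑ j, ∑ i, (w.comap (algebraMap K E)) (L j i) :=
        Finset.single_le_sum (f := fun j => ∑ i, (w.comap (algebraMap K E)) (L j i))
          (fun j _ => Finset.sum_nonneg fun i _ => apply_nonneg _ _) (Finset.mem_univ j)
    _ ≤ _ := Finset.single_le_sum (f := fun v : InfinitePlace K => ∑ j, ∑ i, v (L j i))
          (fun v _ => Finset.sum_nonneg fun j _ => Finset.sum_nonneg fun i _ => apply_nonneg _ _)
          (Finset.mem_univ _)

lemma lin_fa_le {K : Type u} [Field K] [NumberField K] {n q : ℕ} {E : Type u} [Field E]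
    [NumberField E] [Algebra K E] (L : Fin q → Fin (n + 1) → K)
    (hL : ∀ v j i, fa v (L j i) ≤ 1) (w : HeightOneSpectrum (𝓞 E))
    (y : Fin (n + 1) → E) (t : ℝ) (hy : ∀ i, fa w (y i) ≤ t) (ht : 0 ≤ t) (j : Fin q) :
    fa w (lin (up E L j) y) ≤ t := by
  obtain ⟨v, hv⟩ := exists_below (K := K) w
  obtain ⟨m, -, -, hm⟩ := fa_up_lt_iff hv
  unfold lin up
  refine Pool.Agent.Lib.MP_4d5ce1_nt.fa_sum_le w _ _ t ht fun i _ => ?_
  rw [Pool.Agent.Lib.MP_4d5ce1_nt.fa_mul, hm]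
  calc fa v (L j i) ^ m * fa w (y i) ≤ 1 * fa w (y i) :=
        mul_le_mul_of_nonneg_right
          (pow_le_one₀ (Pool.Agent.Lib.MP_4d5ce1_nt.fa_nonneg _ _) (hL v j i))
          (Pool.Agent.Lib.MP_4d5ce1_nt.fa_nonneg _ _)
    _ ≤ t := by rw [one_mul]; exact hy i

lemma combo_inf_le {n : ℕ} {E : Type u} [Field E] [NumberField E] (N : ℕ)
    (c : Fin (n + 1) → ℕ) (hc : ∀ i, c i ≤ N) (w : InfinitePlace E)
    (y : Fin (n + 1) → E) (t : ℝ) (hy : ∀ i, w (y i) ≤ t) (ht : 0 ≤ t) :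
    w (∑ i, (c i : E) * y i) ≤ ((n : ℝ) + 1) * N * t := by
  refine (inf_sum_le w _ _).trans ?_
  have h1 : ∀ i, w ((c i : E) * y i) ≤ N * t := by
    intro i
    rw [map_mul]
    have h2 : w (c i : E) ≤ (c i : ℝ) := by
      have h3 : ∀ k : ℕ, w (k : E) ≤ (k : ℝ) := by
        intro k
        induction k with
        | zero => simp
        | succ k ih =>
          push_cast
          refine (w.1.add_le _ _).trans ?_
          have h4 : w.1 (1 : E) = 1 := map_one w.1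
          rw [h4]
          exact add_le_add ih le_rfl
      exact h3 _
    have h5 : (c i : ℝ) ≤ N := by exact_mod_cast hc i
    exact mul_le_mul (h2.trans h5) (hy i) (apply_nonneg _ _) (Nat.cast_nonneg _)
  refine (Finset.sum_le_sum fun i _ => h1 i).trans ?_
  rw [Finset.sum_const, Finset.card_univ, Fintype.card_fin, nsmul_eq_mul]
  push_cast
  exact le_of_eq (by ring)

lemma combo_fa_le {n : ℕ} {E : Type u} [Field E] [NumberField E]
    (c : Fin (n + 1) → ℕ) (w : HeightOneSpectrum (𝓞 E))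
    (y : Fin (n + 1) → E) (t : ℝ) (hy : ∀ i, fa w (y i) ≤ t) (ht : 0 ≤ t) :
    fa w (∑ i, (c i : E) * y i) ≤ t := by
  refine Pool.Agent.Lib.MP_4d5ce1_nt.fa_sum_le w _ _ t ht fun i _ => ?_
  rw [Pool.Agent.Lib.MP_4d5ce1_nt.fa_mul]
  calc fa w (c i : E) * fa w (y i) ≤ 1 * fa w (y i) :=
        mul_le_mul_of_nonneg_right (Pool.Agent.Lib.MP_4d5ce1_nt.fa_natCast_le_one _ _)
          (Pool.Agent.Lib.MP_4d5ce1_nt.fa_nonneg _ _)
    _ ≤ t := by rw [one_mul]; exact hy i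

lemma ne_zero_of_gen {K E : Type u} [Field K] [NumberField K] [Field E] [NumberField E]
    [Algebra K E] (h2 : 2 ≤ Module.finrank K E) {u z : E}
    (h : IntermediateField.adjoin K {z / u} = ⊤) : z ≠ 0 := by
  intro hz
  rw [hz, zero_div, IntermediateField.adjoin_zero] at h
  have h3 : Module.finrank K (⊥ : IntermediateField K E) = Module.finrank K E := by
    rw [h, IntermediateField.finrank_top']
  rw [IntermediateField.finrank_bot] at h3
  omega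

/-- The pair of forms attached to a bad vector. -/
lemma pair {K : Type u} [Field K] [NumberField K] {n q : ℕ}
    (S₀ : Finset (HeightOneSpectrum (𝓞 K))) (L : Fin q → Fin (n + 1) → K)
    (hL : ∀ v j i, fa v (L j i) ≤ 1) (r : ℕ) (hr : 2 ≤ r) :
    ∃ M : ℝ, 1 ≤ M ∧ ∀ (E : Type u) [Field E] [NumberField E] [Algebra K E],
      Module.finrank K E = r → ∀ y : Fin (n + 1) → E,
      IntermediateField.adjoin K {z | ∃ i k, z = y i / y k} = ⊤ →
      (∀ j, lin (up E L j) y ≠ 0) → ∀ ε : ℝ, BadG S₀ L ε y →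
      ∃ u z : E, u ≠ 0 ∧ z ≠ 0 ∧ u ∈ Bx (tf y) (ti y) M ∧ z ∈ Bx (tf y) (ti y) M ∧
        IntermediateField.adjoin K {z / u} = ⊤ ∧
        ((∃ w : InfinitePlace E, w u ≤ ε * ti y w) ∨
          (∃ w ∈ above K E (S₀ : Set (HeightOneSpectrum (𝓞 K))), fa w u ≤ ε * tf y w) ∨
          (∃ k : HeightOneSpectrum (𝓞 E) →₀ ℕ, 1 ≤ ε * Nk k ∧
              ∀ w ∈ k.support, fa w u * nv w ^ (2 * k w) ≤ tf y w) ∨
          (∃ W : Finset (HeightOneSpectrum (𝓞 E)), 1 ≤ ε * NN W ∧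
              ∀ w ∈ W, fa w z * nv w ≤ tf y w ∧ fa w u * nv w ≤ tf y w)) := by
  obtain ⟨N, hN⟩ := exists_combo.{u} r (n + 1)
  have hcI := cI_nonneg L
  refine ⟨1 + cI L + ((n : ℝ) + 1) * N, ?_, ?_⟩
  · have : 0 ≤ ((n : ℝ) + 1) * N := by positivity
    linarith
  intro E _ _ _ hE y hgen hne ε hbad
  have hn0 : 0 ≤ ((n : ℝ) + 1) * N := by positivity
  have htf : ∀ (w : HeightOneSpectrum (𝓞 E)) (i : Fin (n + 1)), fa w (y i) ≤ tf y w := fun w i =>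
    le_ciSup (f := fun i => fa w (y i)) (Set.finite_range fun i => fa w (y i)).bddAbove i
  have hti : ∀ (w : InfinitePlace E) (i : Fin (n + 1)), w (y i) ≤ ti y w := fun w i =>
    le_ciSup (f := fun i => w (y i)) (Set.finite_range fun i => w (y i)).bddAbove i
  have htf0 : ∀ w : HeightOneSpectrum (𝓞 E), 0 ≤ tf y w := fun w =>
    (Pool.Agent.Lib.MP_4d5ce1_nt.fa_nonneg w (y 0)).trans (htf w 0)
  have hti0 : ∀ w : InfinitePlace E, 0 ≤ ti y w := fun w =>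
    (apply_nonneg w (y 0)).trans (hti w 0)
  have hform : ∀ j, lin (up E L j) y ∈ Bx (tf y) (ti y) (1 + cI L + ((n : ℝ) + 1) * N) := by
    intro j
    refine ⟨fun w => lin_fa_le L hL w y _ (htf w) (htf0 w) j, fun w => ?_⟩
    refine (lin_inf_le L w y _ (hti w) (hti0 w) j).trans ?_
    exact mul_le_mul_of_nonneg_right (by linarith) (hti0 w)
  have hcombo : ∀ j, ∃ z : E, z ≠ 0 ∧
      z ∈ Bx (tf y) (ti y) (1 + cI L + ((n : ℝ) + 1) * N) ∧
      IntermediateField.adjoin K {z / lin (up E L j) y} = ⊤ := by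
    intro j
    obtain ⟨c, hc, hcg⟩ := hN K E hE y hgen _ (hne j)
    refine ⟨_, ne_zero_of_gen (by omega) hcg, ⟨fun w => ?_, fun w => ?_⟩, hcg⟩
    · exact combo_fa_le c w y _ (htf w) (htf0 w)
    · refine (combo_inf_le N c hc w y _ (hti w) (hti0 w)).trans ?_
      exact mul_le_mul_of_nonneg_right (by linarith) (hti0 w)
  rcases hbad with ⟨j, w, h⟩ | ⟨j, w, hw, h⟩ | ⟨j, k, -, hk, h⟩ | ⟨i, j, W, hg, -, hW, h⟩
  · obtain ⟨z, hz, hzB, hzg⟩ := hcombo j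
    exact ⟨_, z, hne j, hz, hform j, hzB, hzg, Or.inl ⟨w, h⟩⟩
  · obtain ⟨z, hz, hzB, hzg⟩ := hcombo j
    exact ⟨_, z, hne j, hz, hform j, hzB, hzg, Or.inr (Or.inl ⟨w, hw, h⟩)⟩
  · obtain ⟨z, hz, hzB, hzg⟩ := hcombo j
    exact ⟨_, z, hne j, hz, hform j, hzB, hzg, Or.inr (Or.inr (Or.inl ⟨k, hk, h⟩))⟩
  · exact ⟨_, _, hne j, hne i, hform j, hform i, hg, Or.inr (Or.inr (Or.inr ⟨W, hW, h⟩))⟩

/-- The data of a bad vector. -/
lemma point {K : Type u} [Field K] [NumberField K] {n q : ℕ}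
    (S₀ : Finset (HeightOneSpectrum (𝓞 K))) (L : Fin q → Fin (n + 1) → K)
    (hL : ∀ v j i, fa v (L j i) ≤ 1) (r : ℕ) (hr : 2 ≤ r) :
    ∃ M : ℝ, 1 ≤ M ∧ ∀ (E : Type u) [Field E] [NumberField E] [Algebra K E],
      Module.finrank K E = r → ∀ y : Fin (n + 1) → E, y ≠ 0 →
      IntermediateField.adjoin K {z | ∃ i k, z = y i / y k} = ⊤ →
      (∀ j, lin (up E L j) y ≠ 0) → ∀ B : ℝ, 1 ≤ B → mulHeight y ≤ B →
      ∀ ε : ℝ, 0 < ε → ε ≤ 1 → BadG S₀ L ε y →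
      ∃ (c : K) (u z : E), u ≠ 0 ∧ c ≠ 0 ∧ u ∈ Bx (tf y) (ti y) M ∧ z ∈ Bx (tf y) (ti y) M ∧
        IntermediateField.adjoin K {z / u} = ⊤ ∧
        (∀ v i, fa v (gv K r c u z i) ≤ ∏ w ∈ ov K E v, (max (fa w u) (fa w z) / tf y w)) ∧
        gv K r c u z 0 ≠ 0 ∧ gv K r c u z (Fin.last r) ≠ 0 ∧
        (∀ v i, fa v (gv K r c u z i) ≤ 1) ∧
        (∀ (v : InfinitePlace K) i,
          v (gv K r c u z i) ≤ M * B ^ ((Module.finrank ℚ K : ℝ)⁻¹)) ∧
        (LB S₀ M B ε (gv K r c u z (Fin.last r)) ∨ PB ε (gv K r c u z)) := by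
  obtain ⟨M₀, hM₀, hpair⟩ := pair S₀ L hL r hr
  obtain ⟨C₁, hC₁, hnf⟩ := normal_form (K := K) r
  have hM₀r : 1 ≤ M₀ ^ r := one_le_pow₀ hM₀
  have hM₁ : 1 ≤ C₁ * M₀ ^ r := one_le_mul_of_one_le_of_one_le hC₁ hM₀r
  have hM₀1 : M₀ ≤ C₁ * M₀ ^ r := by
    have h1 : M₀ ≤ M₀ ^ r := le_self_pow₀ hM₀ (by omega)
    nlinarith
  have hC₁1 : C₁ ≤ C₁ * M₀ ^ r := le_mul_of_one_le_right (by linarith) hM₀r
  obtain ⟨C₂, hC₂, hlb⟩ := lead_bad S₀ r (by omega) (C₁ * M₀ ^ r) hM₁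
  have hb1 : C₁ * M₀ ^ r ≤ max (C₁ * M₀ ^ r) C₂ := le_max_left _ _
  have hb2 : C₂ ≤ max (C₁ * M₀ ^ r) C₂ := le_max_right _ _
  refine ⟨max (C₁ * M₀ ^ r) C₂, hM₁.trans hb1, ?_⟩
  intro E _ _ _ hE y hy hgen hne B hB hH ε hε hε1 hbad
  obtain ⟨hadm, hhb⟩ := adm_tf y hy
  obtain ⟨u, z, hu, hz, huB, hzB, hzg, hty⟩ := hpair E hE y hgen hne ε hbad
  obtain ⟨c, hc0, hc⟩ := hnf E hE (tf y) (ti y) hadm
  obtain ⟨hf1, hf2, hi1, hi2⟩ := hc u z M₀ M₀ hu hzg (by linarith) (by linarith) huB.2 hzB.2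
  have hmono : ∀ M' : ℝ, M₀ ≤ M' → Bx (tf y) (ti y) M₀ ⊆ Bx (tf y) (ti y) M' := by
    intro M' hM' x hx
    exact ⟨hx.1, fun w => (hx.2 w).trans
      (mul_le_mul_of_nonneg_right hM' (hadm.pos w).le)⟩
  set d : ℝ := (Module.finrank ℚ K : ℝ)⁻¹ with hd
  have hd0 : 0 ≤ d := by rw [hd]; positivity
  have hhb0 : 0 ≤ hb (tf y) (ti y) := by
    rw [hhb]
    exact (mulHeight_pos y).le
  have hpw : hb (tf y) (ti y) ^ d ≤ B ^ d := by
    refine Real.rpow_le_rpow hhb0 ?_ hd0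
    rw [hhb]; exact hH
  have hpw0 : 0 ≤ hb (tf y) (ti y) ^ d := Real.rpow_nonneg hhb0 _
  have hBd : 0 < B ^ d := Real.rpow_pos_of_pos (by linarith) _
  have hi2' : ∀ v : InfinitePlace K, v (gv K r c u z (Fin.last r)) ^ v.mult ≤
      (C₁ * M₀ ^ r * B ^ d) ^ v.mult * ∏ w ∈ oi K E v, (w u / ti y w) ^ w.mult := by
    intro v
    refine (hi2 v).trans (mul_le_mul_of_nonneg_right ?_ ?_)
    · refine pow_le_pow_left₀ (by positivity) ?_ _
      exact mul_le_mul hC₁1 hpw hpw0 (by linarith)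
    · exact Finset.prod_nonneg fun w _ => pow_nonneg
        (div_nonneg (apply_nonneg _ _) (hadm.pos w).le) _
  obtain ⟨hg0, hgr, hgi, hrest⟩ := hlb E hE (tf y) (ti y) hadm B hB c u z hu hz hc0
    (hmono _ hM₀1 huB) (hmono _ hM₀1 hzB) hzg hf1 hf2 hi2'
  obtain ⟨ht1, ht2, ht3, ht4⟩ := hrest ε hε hε1
  refine ⟨c, u, z, hu, hc0, hmono _ (hM₀1.trans hb1) huB, hmono _ (hM₀1.trans hb1) hzB, hzg,
    hf1, hg0, hgr, hgi, ?_, ?_⟩
  · intro v i
    refine (hi1 v i).trans ?_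
    have hi : (i : ℕ) ≤ r := by have := i.2; omega
    have h1 : M₀ ^ i.val * M₀ ^ (r - i.val) = M₀ ^ r := by
      rw [← pow_add]; congr 1; omega
    calc C₁ * hb (tf y) (ti y) ^ d * M₀ ^ i.val * M₀ ^ (r - i.val)
        = C₁ * M₀ ^ r * hb (tf y) (ti y) ^ d := by rw [← h1]; ring
      _ ≤ C₁ * M₀ ^ r * B ^ d := mul_le_mul_of_nonneg_left hpw (by linarith)
      _ ≤ _ := mul_le_mul_of_nonneg_right hb1 hBd.le
  · rcases hty with h | h | h | h
    · left; left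
      obtain ⟨v, hv⟩ := ht1 h
      refine ⟨v, hv.trans ?_⟩
      refine mul_le_mul_of_nonneg_right ?_ (by positivity)
      exact mul_le_mul_of_nonneg_right hb2 hε.le
    · left; right; left
      exact ht2 h
    · left; right; right
      exact ht3 h
    · right
      exact ht4 h

lemma card_lead_vec {K : Type u} (r : ℕ) (G : Finset (Fin (r + 1) → K))
    (Zl Zi : Finset K) (h1 : ∀ g ∈ G, g (Fin.last r) ∈ Zl) (h2 : ∀ g ∈ G, ∀ i, g i ∈ Zi) :
    G.card ≤ Zl.card * Zi.card ^ r := by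
  classical
  have h3 : G.card ≤ (Zl ×ˢ Fintype.piFinset fun _ : Fin r => Zi).card := by
    refine Finset.card_le_card_of_injOn (fun g => (g (Fin.last r), fun i : Fin r => g i.castSucc))
      ?_ ?_
    · intro g hg
      simp only [Finset.coe_product, Set.mem_prod, Finset.mem_coe, Fintype.mem_piFinset]
      exact ⟨h1 g hg, fun i => h2 g hg _⟩
    · intro g _ g' _ h
      obtain ⟨h4, h5⟩ := Prod.mk.inj h
      funext i
      induction i using Fin.lastCases with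
      | last => exact h4
      | cast i => exact congrFun h5 i
  rwa [Finset.card_product, Fintype.card_piFinset_const] at h3

lemma card_pair_vec {K : Type u} (m : ℕ) (G : Finset (Fin (m + 1 + 1) → K))
    (Z2 : Finset (K × K)) (Zi : Finset K) (h1 : ∀ g ∈ G, (g 0, g (Fin.last (m + 1))) ∈ Z2)
    (h2 : ∀ g ∈ G, ∀ i, g i ∈ Zi) :
    G.card ≤ Z2.card * Zi.card ^ m := by
  classical
  have h3 : G.card ≤ (Z2 ×ˢ Fintype.piFinset fun _ : Fin m => Zi).card := by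
    refine Finset.card_le_card_of_injOn
      (fun g => ((g 0, g (Fin.last (m + 1))), fun i : Fin m => g i.castSucc.succ)) ?_ ?_
    · intro g hg
      simp only [Finset.coe_product, Set.mem_prod, Finset.mem_coe, Fintype.mem_piFinset]
      exact ⟨h1 g hg, fun i => h2 g hg _⟩
    · intro g _ g' _ h
      obtain ⟨h4, h5⟩ := Prod.mk.inj h
      obtain ⟨h6, h7⟩ := Prod.mk.inj h4
      funext i
      induction i using Fin.cases with
      | zero => exact h6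
      | succ i =>
        induction i using Fin.lastCases with
        | last => exact h7
        | cast i => exact congrFun h5 i
  rwa [Finset.card_product, Fintype.card_piFinset_const] at h3

end NA5aux

open NA5aux

/-- NA5 : the classes of bad vectors -/
theorem bad_classes {K : Type u} [Field K] [NumberField K] {n q : ℕ}
    (S₀ : Finset (HeightOneSpectrum (𝓞 K))) (L : Fin q → Fin (n + 1) → K)
    (hL : ∀ v j i, fa v (L j i) ≤ 1) (r : ℕ) (hr : 2 ≤ r) (η : ℝ) (hη : 0 < η) :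
    ∃ C : ℝ, 1 ≤ C ∧ ∀ B : ℝ, 1 ≤ B → ∀ ε : ℝ, 0 < ε → ε ≤ 1 → ∀ X : Finset (Vc K (n + 1)),
      (∀ s ∈ X, Gd r B s ∧ ∃ _ : NumberField s.1, (∀ j, lin (up s.1 L j) s.2 ≠ 0) ∧
        BadG S₀ L ε s.2) →
      ∃ R ⊆ X, (∀ s ∈ X, ∃ t ∈ R, SimV t s) ∧
        (R.card : ℝ) ≤ C * B ^ η * (ε ^ (1 / 2 : ℝ) * B ^ (r + 1)) := by
  classical
  obtain ⟨M, hM, hpt⟩ := point S₀ L hL r hr
  obtain ⟨C₁, hC₁, hdec⟩ := decode.{u} (K := K) r (n + 1) (by omega) M η hM hη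
  obtain ⟨C₂, hC₂, hint⟩ := card_int K M hM
  obtain ⟨C₃, hC₃, hlead⟩ := card_lead K S₀ M hM
  obtain ⟨C₄, hC₄, hpairs⟩ := card_pairs K M hM
  have hC₂r : 1 ≤ C₂ ^ r := one_le_pow₀ hC₂
  refine ⟨C₁ * ((C₃ + C₄) * C₂ ^ r), ?_, ?_⟩
  · refine one_le_mul_of_one_le_of_one_le hC₁ (one_le_mul_of_one_le_of_one_le ?_ hC₂r)
    linarith
  intro B hB ε hε hε1 X hX
  have hex : ∀ s : Vc K (n + 1), ∃ (c : K) (u z : s.1), s ∈ X → ∃ _ : NumberField s.1,
      Module.finrank K s.1 = r ∧ s.2 ≠ 0 ∧ mulHeight s.2 ≤ B ∧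
      u ≠ 0 ∧ c ≠ 0 ∧ u ∈ Bx (tf s.2) (ti s.2) M ∧ z ∈ Bx (tf s.2) (ti s.2) M ∧
        IntermediateField.adjoin K {z / u} = ⊤ ∧
        (∀ v i, fa v (gv K r c u z i) ≤ ∏ w ∈ ov K s.1 v, (max (fa w u) (fa w z) / tf s.2 w)) ∧
        gv K r c u z 0 ≠ 0 ∧ gv K r c u z (Fin.last r) ≠ 0 ∧
        (∀ v i, fa v (gv K r c u z i) ≤ 1) ∧
        (∀ (v : InfinitePlace K) i,
          v (gv K r c u z i) ≤ M * B ^ ((Module.finrank ℚ K : ℝ)⁻¹)) ∧
        (LB S₀ M B ε (gv K r c u z (Fin.last r)) ∨ PB ε (gv K r c u z)) := by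
    intro s
    by_cases hs : s ∈ X
    · obtain ⟨⟨hNF, h1, h2, h3, h4⟩, hNF', h5, h6⟩ := hX s hs
      obtain ⟨c, u, z, h7⟩ := hpt s.1 h1 s.2 h2 h3 h5 B hB h4 ε hε hε1 h6
      exact ⟨c, u, z, fun _ => ⟨hNF, h1, h2, h4, h7⟩⟩
    · exact ⟨0, 0, 0, fun h => absurd h hs⟩
  choose c u z hcuz using hex
  obtain ⟨R, hRX, hRc, hRf⟩ := hdec B hB X c u z (fun s hs => by
    obtain ⟨hNF, h1, h2, h3, h4, h5, h6, h7, h8, h9, h10, h11, h12, h13, h14⟩ := hcuz s hs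
    exact ⟨hNF, h1, h2, h3, h4, h5, h6, h7, h8, h9, fun v => h13 v _⟩)
  refine ⟨R, hRX, fun s hs => ?_, ?_⟩
  · obtain ⟨t, ht, h1, -⟩ := hRc s hs
    exact ⟨t, ht, h1⟩
  set gf : Vc K (n + 1) → Fin (r + 1) → K := fun t => gv K r (c t) (u t) (z t) with hgf
  set G : Finset (Fin (r + 1) → K) := R.image gf with hG
  have hGp : ∀ g ∈ G, g 0 ≠ 0 ∧ g (Fin.last r) ≠ 0 ∧ (∀ v i, fa v (g i) ≤ 1) ∧
      (∀ (v : InfinitePlace K) i, v (g i) ≤ M * B ^ ((Module.finrank ℚ K : ℝ)⁻¹)) ∧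
      (LB S₀ M B ε (g (Fin.last r)) ∨ PB ε g) := by
    intro g hg
    obtain ⟨t, ht, rfl⟩ := Finset.mem_image.1 hg
    obtain ⟨hNF, h1, h2, h3, h4, h5, h6, h7, h8, h9, h10, h11, h12, h13, h14⟩ :=
      hcuz t (hRX ht)
    exact ⟨h10, h11, h12, h13, h14⟩
  have hcard : (R.card : ℝ) ≤ G.card * (C₁ * B ^ η) := by
    have h1 : R.card = ∑ g ∈ G, (R.filter fun t => gf t = g).card :=
      Finset.card_eq_sum_card_image gf R
    rw [h1]
    push_cast
    calc ∑ g ∈ G, ((R.filter fun t => gf t = g).card : ℝ) ≤ ∑ _g ∈ G, C₁ * B ^ η :=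
          Finset.sum_le_sum fun g _ => hRf _ (Finset.filter_subset _ _) g
            fun t ht => (Finset.mem_filter.1 ht).2
      _ = G.card * (C₁ * B ^ η) := by rw [Finset.sum_const, nsmul_eq_mul]
  -- the integral elements
  set Zi : Finset K := G.biUnion fun g => Finset.univ.image g with hZi
  have hZi1 : ∀ g ∈ G, ∀ i, g i ∈ Zi := fun g hg i =>
    Finset.mem_biUnion.2 ⟨g, hg, Finset.mem_image.2 ⟨i, Finset.mem_univ _, rfl⟩⟩
  have hZic : (Zi.card : ℝ) ≤ C₂ * B := by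
    refine hint B hB Zi fun x hx => ?_
    obtain ⟨g, hg, hx⟩ := Finset.mem_biUnion.1 hx
    obtain ⟨i, -, rfl⟩ := Finset.mem_image.1 hx
    obtain ⟨-, -, h3, h4, -⟩ := hGp g hg
    exact ⟨fun v => h3 v i, fun v => h4 v i⟩
  have hsq0 : 0 ≤ ε ^ (1 / 2 : ℝ) := Real.rpow_nonneg hε.le _
  have hB0 : 0 < B := by linarith
  -- type LB
  have hG1 : ((G.filter fun g => LB S₀ M B ε (g (Fin.last r))).card : ℝ) ≤
      C₃ * ε ^ (1 / 2 : ℝ) * B * (C₂ * B) ^ r := by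
    set G1 := G.filter fun g => LB S₀ M B ε (g (Fin.last r)) with hG1
    have h1 := card_lead_vec r G1 (G1.image fun g => g (Fin.last r)) Zi
      (fun g hg => Finset.mem_image.2 ⟨g, hg, rfl⟩)
      (fun g hg => hZi1 g (Finset.mem_filter.1 hg).1)
    have h2 : ((G1.image fun g => g (Fin.last r)).card : ℝ) ≤ C₃ * ε ^ (1 / 2 : ℝ) * B := by
      refine hlead B hB ε hε hε1 _ fun x hx => ?_
      obtain ⟨g, hg, rfl⟩ := Finset.mem_image.1 hx
      obtain ⟨hg1, hg2⟩ := Finset.mem_filter.1 hg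
      obtain ⟨-, h3, h4, h5, -⟩ := hGp g hg1
      exact ⟨h3, fun v => h4 v _, fun v => h5 v _, hg2⟩
    calc (G1.card : ℝ) ≤ ((G1.image fun g => g (Fin.last r)).card : ℝ) * (Zi.card : ℝ) ^ r := by
          exact_mod_cast h1
      _ ≤ _ := mul_le_mul h2 (pow_le_pow_left₀ (Nat.cast_nonneg _) hZic r)
          (by positivity) (by positivity)
  -- type PB
  have hG2 : ((G.filter fun g => PB ε g).card : ℝ) ≤
      C₄ * ε ^ (1 / 2 : ℝ) * B ^ 2 * (C₂ * B) ^ (r - 1) := by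
    obtain ⟨m, rfl⟩ : ∃ m, r = m + 1 := ⟨r - 1, by omega⟩
    rw [Nat.add_sub_cancel]
    set G2 := G.filter fun g => PB ε g with hG2
    have h1 := card_pair_vec m G2 (G2.image fun g => (g 0, g (Fin.last (m + 1)))) Zi
      (fun g hg => Finset.mem_image.2 ⟨g, hg, rfl⟩)
      (fun g hg => hZi1 g (Finset.mem_filter.1 hg).1)
    have h2 : ((G2.image fun g => (g 0, g (Fin.last (m + 1)))).card : ℝ) ≤
        C₄ * ε ^ (1 / 2 : ℝ) * B ^ 2 := by
      refine hpairs B hB ε hε hε1 _ fun x hx => ?_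
      obtain ⟨g, hg, rfl⟩ := Finset.mem_image.1 hx
      obtain ⟨hg1, κ, hκ, hκ2⟩ := Finset.mem_filter.1 hg
      obtain ⟨h3, h4, h5, h6, -⟩ := hGp g hg1
      exact ⟨h3, h4, fun v => h6 v _, fun v => h6 v _, fun v => h5 v _, fun v => h5 v _, κ, hκ,
        fun v hv => ⟨hκ2 v hv _, hκ2 v hv _⟩⟩
    calc (G2.card : ℝ) ≤ ((G2.image fun g => (g 0, g (Fin.last (m + 1)))).card : ℝ) *
          (Zi.card : ℝ) ^ m := by exact_mod_cast h1
      _ ≤ _ := mul_le_mul h2 (pow_le_pow_left₀ (Nat.cast_nonneg _) hZic m)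
          (by positivity) (by positivity)
  have hGc : (G.card : ℝ) ≤ (C₃ + C₄) * C₂ ^ r * (ε ^ (1 / 2 : ℝ) * B ^ (r + 1)) := by
    have h1 : G ⊆ (G.filter fun g => LB S₀ M B ε (g (Fin.last r))) ∪
        (G.filter fun g => PB ε g) := by
      intro g hg
      obtain ⟨-, -, -, -, h5 | h5⟩ := hGp g hg
      · exact Finset.mem_union_left _ (Finset.mem_filter.2 ⟨hg, h5⟩)
      · exact Finset.mem_union_right _ (Finset.mem_filter.2 ⟨hg, h5⟩)
    have h2 : (G.card : ℝ) ≤ ((G.filter fun g => LB S₀ M B ε (g (Fin.last r))).card : ℝ) +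
        ((G.filter fun g => PB ε g).card : ℝ) := by
      exact_mod_cast (Finset.card_le_card h1).trans (Finset.card_union_le _ _)
    have h3 : C₃ * ε ^ (1 / 2 : ℝ) * B * (C₂ * B) ^ r =
        C₃ * C₂ ^ r * (ε ^ (1 / 2 : ℝ) * B ^ (r + 1)) := by
      rw [mul_pow]; ring
    have h4 : C₄ * ε ^ (1 / 2 : ℝ) * B ^ 2 * (C₂ * B) ^ (r - 1) ≤
        C₄ * C₂ ^ r * (ε ^ (1 / 2 : ℝ) * B ^ (r + 1)) := by
      have h5 : C₂ ^ (r - 1) ≤ C₂ ^ r := pow_le_pow_right₀ hC₂ (by omega)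
      have h6 : B ^ 2 * B ^ (r - 1) = B ^ (r + 1) := by
        rw [← pow_add]; congr 1; omega
      calc C₄ * ε ^ (1 / 2 : ℝ) * B ^ 2 * (C₂ * B) ^ (r - 1)
          = C₄ * C₂ ^ (r - 1) * (ε ^ (1 / 2 : ℝ) * (B ^ 2 * B ^ (r - 1))) := by
            rw [mul_pow]; ring
        _ ≤ C₄ * C₂ ^ r * (ε ^ (1 / 2 : ℝ) * B ^ (r + 1)) := by
            rw [h6]
            refine mul_le_mul_of_nonneg_right ?_ (by positivity)
            exact mul_le_mul_of_nonneg_left h5 (by linarith)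
    calc (G.card : ℝ) ≤ _ := h2
      _ ≤ C₃ * C₂ ^ r * (ε ^ (1 / 2 : ℝ) * B ^ (r + 1)) +
          C₄ * C₂ ^ r * (ε ^ (1 / 2 : ℝ) * B ^ (r + 1)) := by
          refine add_le_add (hG1.trans h3.le) (hG2.trans h4)
      _ = _ := by ring
  have hBη : 0 < B ^ η := Real.rpow_pos_of_pos hB0 _
  calc (R.card : ℝ) ≤ G.card * (C₁ * B ^ η) := hcard
    _ ≤ ((C₃ + C₄) * C₂ ^ r * (ε ^ (1 / 2 : ℝ) * B ^ (r + 1))) * (C₁ * B ^ η) :=
        mul_le_mul_of_nonneg_right hGc (by positivity)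
    _ = _ := by ring

end Pool.Agent.Lib.MP_44a246_ntAL
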