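import Pool.Agent.Lib.MP_44a246_ntSR.SR0
import Pool.Agent.Lib.MP_44a246_ntSR.SR1
import Pool.Agent.Lib.MP_44a246_ntSR.SR3

/-!
# Uniform height bound for the minimal polynomial
-/

set_option autoImplicit false

open NumberField IsDedekindDomain Height
open Pool.Agent.Lib.MP_44a246_ntSR (mc)

namespace Pool.Agent.Lib.MP_44a246_ntAL

universe u

/-- The height of a conjugate. -/
private lemma height_conj {K : Type u} [Field K] [NumberField K] {E L : Type u} [Field E]
    [NumberField E] [Algebra K E] [Field L] [NumberField L] [Algebra K L] (σ : E →ₐ[K] L) (y : E) :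
    mulHeight ![1, σ y] = mulHeight ![1, y] ^ (Module.finrank K L / Module.finrank K E) := by
  let i1 : Algebra E L := σ.toRingHom.toAlgebra
  have hT : IsScalarTower K E L := IsScalarTower.of_algebraMap_eq (fun x => (σ.commutes x).symm)
  have hE : Module.Finite K E := Module.Finite.of_restrictScalars_finite ℚ K E
  have hpos : 0 < Module.finrank K E := Module.finrank_pos
  have h1 : Module.finrank K E * Module.finrank E L = Module.finrank K L :=
    Module.finrank_mul_finrank K E L
  have h2 : Module.finrank K L / Module.finrank K E = Module.finrank E L := by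
    rw [← h1, Nat.mul_div_cancel_left _ hpos]
  rw [h2, ← Pool.Agent.Lib.MP_44a246_ntSR.mulHeight_ext (K := E) (L := L) ![1, y]]
  congr 1
  funext i
  refine Fin.cases ?_ (fun i => ?_) i
  · exact (map_one σ).symm
  · have : i = 0 := Subsingleton.elim _ _
    subst this
    rfl

/-- NB1 : uniform bound for the height of the minimal polynomial -/
theorem height_minpoly_unif (D j : ℕ) : ∃ C : ℝ, 1 ≤ C ∧
    ∀ (F E : Type u) [Field F] [NumberField F] [Field E] [NumberField E] [Algebra F E],
      Module.finrank ℚ F ≤ D → Module.finrank F E = j → ∀ y : E,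
        IntermediateField.adjoin F {y} = ⊤ → mulHeight (mc F j y) ≤ C * mulHeight ![1, y] := by
  obtain ⟨C, hC1, hC⟩ := Pool.Agent.Lib.MP_44a246_ntSR.height_prod.{u} j (D * j.factorial)
  refine ⟨C, hC1, ?_⟩
  intro F E _ _ _ _ _ hF hE y hy
  obtain ⟨L, iL1, iL2, iL3, σ, hL, hf⟩ :=
    Pool.Agent.Lib.MP_44a246_ntSR.exists_closure (K := F) j E hE y hy
  have hfE : Module.Finite F E := Module.Finite.of_restrictScalars_finite ℚ F E
  have hfL : Module.Finite F L := Module.Finite.of_restrictScalars_finite ℚ F L
  have hj : 0 < j := by rw [← hE]; exact Module.finrank_pos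
  have hdeg : Module.finrank ℚ L ≤ D * j.factorial := by
    rw [← Module.finrank_mul_finrank ℚ F L]
    exact Nat.mul_le_mul hF hL
  obtain ⟨h1, -⟩ := hC L hdeg (fun k => σ k y)
  set m := Module.finrank F L with hm
  have hmpos : 0 < m := Module.finrank_pos
  have hcoef : mulHeight (fun i : Fin (j + 1) =>
      (∏ k, (Polynomial.X - Polynomial.C (σ k y))).coeff i.val) = mulHeight (mc F j y) ^ m := by
    rw [← Pool.Agent.Lib.MP_44a246_ntSR.mulHeight_ext (K := F) (L := L) (mc F j y), ← hf]
    congr 1
    funext i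
    simp [mc, Polynomial.coeff_map]
  have hdvd : j ∣ m := by
    have k0 : Fin j := ⟨0, hj⟩
    let i1 : Algebra E L := (σ k0).toRingHom.toAlgebra
    have hT : IsScalarTower F E L :=
      IsScalarTower.of_algebraMap_eq (fun x => ((σ k0).commutes x).symm)
    exact ⟨Module.finrank E L, by rw [hm, ← hE]; exact (Module.finrank_mul_finrank F E L).symm⟩
  have hprod : ∏ k, mulHeight ![1, σ k y] = mulHeight ![1, y] ^ m := by
    have : ∀ k : Fin j, mulHeight ![1, σ k y] = mulHeight ![1, y] ^ (m / j) := by
      intro k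
      rw [height_conj (σ k) y, hE]
    rw [Finset.prod_congr rfl (fun k _ => this k), Finset.prod_const, Finset.card_univ,
      Fintype.card_fin, ← pow_mul, Nat.div_mul_cancel hdvd]
  rw [hcoef, hprod] at h1
  have p2 : 0 < mulHeight ![1, y] := mulHeight_pos _
  have hC0 : 0 ≤ C := zero_le_one.trans hC1
  refine le_of_pow_le_pow_left₀ hmpos.ne' (mul_nonneg hC0 p2.le) (h1.trans ?_)
  rw [mul_pow]
  exact mul_le_mul_of_nonneg_right (le_self_pow₀ hC1 hmpos.ne') (pow_pos p2 m).le

end Pool.Agent.Lib.MP_44a246_ntAL
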