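import Pool.Agent.Lib.MP_44a246_ntAL.GenDefs
import Pool.Agent.Lib.MP_44a246_ntSR.Defs
import Pool.Agent.Lib.MP_44a246_ntSR.SR1
import Pool.Agent.Lib.MP_44a246_ntAL.NB1
import Pool.Agent.Lib.MP_44a246_ntAL.AL15
import Pool.Agent.Lib.MP_44a246_ntAL.AL16

/-!
# Generators of fields with an intermediate field
-/

set_option autoImplicit false

open NumberField IsDedekindDomain Height MvPolynomial
open Pool.Agent.Lib.MP_4d5ce1_nt (fa nv ordv)
open Pool.Agent.Lib.MP_44a246_ntNF
open Pool.Agent.Lib.MP_44a246_ntNU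
open Pool.Agent.Lib.MP_44a246_ntSR (mc)

namespace Pool.Agent.Lib.MP_44a246_ntAL

universe u





/-- Heights are invariant under isomorphisms. -/
private lemma mulHeight_equiv {F G : Type*} [Field F] [NumberField F] [Field G] [NumberField G]
    {ι : Type*} [Finite ι] (e : F ≃+* G) (x : ι → F) : mulHeight (fun i => e (x i)) = mulHeight x := by
  let i1 : Algebra F G := e.toRingHom.toAlgebra
  have h1 : Module.finrank F G = 1 := by
    let l : F ≃ₗ[F] G :=
      { toFun := e
        invFun := e.symm
        left_inv := e.left_inv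
        right_inv := e.right_inv
        map_add' := map_add e
        map_smul' := fun a b => by
          simp only [smul_eq_mul, map_mul, RingHom.id_apply]
          rfl }
    rw [← LinearEquiv.finrank_eq l, Module.finrank_self]
  have h2 := Pool.Agent.Lib.MP_44a246_ntSR.mulHeight_ext (K := F) (L := G) x
  rw [h1, pow_one] at h2
  exact h2

/-- The coefficients of the minimal polynomial over an intermediate field. -/
private noncomputable def mpv {K : Type u} [Field K] (b : ℕ)
    (E : IntermediateField K (AlgebraicClosure K)) (F : IntermediateField K E) (y : E) :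
    Vc K (b + 1) :=
  ⟨IntermediateField.lift F,
    fun i => IntermediateField.liftAlgEquiv F ((minpoly F y).coeff i.val)⟩

section
variable {K : Type u} [Field K] [NumberField K]

private lemma natDegree_minpoly (E : IntermediateField K (AlgebraicClosure K)) [NumberField E]
    (F : IntermediateField K E) (y : E) (hy : IntermediateField.adjoin K {y} = ⊤) :
    (minpoly F y).natDegree = Module.finrank F E := by
  have : Module.Finite K E := Module.Finite.of_restrictScalars_finite ℚ K E
  have : Module.Finite F E := Module.Finite.of_restrictScalars_finite K F E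
  have h1 : IntermediateField.adjoin F {y} = ⊤ :=
    IntermediateField.adjoin_eq_top_of_adjoin_eq_top (F := K) (E := F) (K := E) hy
  rw [← IntermediateField.adjoin.finrank (Algebra.IsIntegral.isIntegral (R := F) y), h1]
  exact IntermediateField.finrank_top'

private lemma mpv_last (b : ℕ) (E : IntermediateField K (AlgebraicClosure K)) [NumberField E]
    (F : IntermediateField K E) (y : E) (hy : IntermediateField.adjoin K {y} = ⊤)
    (hb : Module.finrank F E = b) : (mpv b E F y).2 (Fin.last b) = 1 := by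
  have : Module.Finite K E := Module.Finite.of_restrictScalars_finite ℚ K E
  have : Module.Finite F E := Module.Finite.of_restrictScalars_finite K F E
  have h1 := natDegree_minpoly E F y hy
  rw [hb] at h1
  have h2 : (minpoly F y).coeff b = 1 := by
    rw [← h1]
    exact (minpoly.monic (Algebra.IsIntegral.isIntegral (R := F) y)).coeff_natDegree
  change IntermediateField.liftAlgEquiv F ((minpoly F y).coeff b) = 1
  rw [h2, map_one]

private lemma gd_mpv (a b : ℕ) (C B : ℝ) (hC : 1 ≤ C)
    (h : ∀ (F E : Type u) [Field F] [NumberField F] [Field E] [NumberField E] [Algebra F E],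
      Module.finrank ℚ F ≤ Module.finrank ℚ K * a → Module.finrank F E = b → ∀ y : E,
        IntermediateField.adjoin F {y} = ⊤ → mulHeight (mc F b y) ≤ C * mulHeight ![1, y])
    (E : IntermediateField K (AlgebraicClosure K)) [NumberField E]
    (F : IntermediateField K E) (y : E) (hy : IntermediateField.adjoin K {y} = ⊤)
    (ha : Module.finrank K F = a) (hb : Module.finrank F E = b)
    (hB : mulHeight ![1, y] ≤ B) : Gd a (C * B) (mpv b E F y) := by
  have : Module.Finite K E := Module.Finite.of_restrictScalars_finite ℚ K E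
  have : Module.Finite F E := Module.Finite.of_restrictScalars_finite K F E
  have : Module.Finite K F := inferInstance
  have : NumberField F := NumberField.of_module_finite K F
  let e : F ≃ₐ[K] IntermediateField.lift F := IntermediateField.liftAlgEquiv F
  have : Module.Finite K (IntermediateField.lift F) := Module.Finite.equiv e.toLinearEquiv
  have : NumberField (IntermediateField.lift F) :=
    NumberField.of_module_finite K (IntermediateField.lift F)
  refine ⟨inferInstanceAs (NumberField (IntermediateField.lift F)), ?_, ?_, ?_, ?_⟩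
  · change Module.finrank K (IntermediateField.lift F) = a
    rw [← LinearEquiv.finrank_eq e.toLinearEquiv, ha]
  · intro h0
    have h1 := mpv_last b E F y hy hb
    rw [h0] at h1
    exact zero_ne_one h1
  · set S : Set (IntermediateField.lift F) :=
      {z | ∃ i k, z = (mpv b E F y).2 i / (mpv b E F y).2 k} with hS
    set A : IntermediateField K (IntermediateField.lift F) := IntermediateField.adjoin K S with hA
    have hlast : (mpv b E F y).2 (Fin.last b) = 1 := mpv_last b E F y hy hb
    have hdeg := natDegree_minpoly E F y hy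
    rw [hb] at hdeg
    have hcoef : ∀ n, e ((minpoly F y).coeff n) ∈ A := by
      intro n
      by_cases hn : n < b + 1
      · refine IntermediateField.subset_adjoin K S ?_
        refine ⟨⟨n, hn⟩, Fin.last b, ?_⟩
        rw [hlast, div_one]
        rfl
      · rw [Polynomial.coeff_eq_zero_of_natDegree_lt (by omega), map_zero]
        exact zero_mem A
    let A1 : IntermediateField K F := A.comap (e : F →ₐ[K] IntermediateField.lift F)
    let A2 : IntermediateField K E := A1.map F.val
    have hle : F ≤ A2 := by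
      conv_lhs => rw [← IntermediateField.adjoin_minpoly_coeff_of_exists_primitive_element K hy F]
      rw [IntermediateField.adjoin_le_iff]
      intro x hx
      rw [Finset.mem_coe, Polynomial.mem_coeffs_iff] at hx
      obtain ⟨n, -, rfl⟩ := hx
      rw [Polynomial.coeff_map]
      exact ⟨(minpoly F y).coeff n, hcoef n, rfl⟩
    rw [eq_top_iff]
    intro z _
    obtain ⟨x, rfl⟩ := e.surjective z
    obtain ⟨g, hg, hgx⟩ := hle x.2
    have h3 : g = x := Subtype.ext hgx
    rw [h3] at hg
    exact hg
  · change mulHeight (fun i : Fin (b + 1) => e.toRingEquiv ((minpoly F y).coeff i.val)) ≤ C * B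
    rw [mulHeight_equiv]
    have h1 : IntermediateField.adjoin F {y} = ⊤ :=
      IntermediateField.adjoin_eq_top_of_adjoin_eq_top (F := K) (E := F) (K := E) hy
    have h2 : Module.finrank ℚ F ≤ Module.finrank ℚ K * a := by
      rw [← ha, Module.finrank_mul_finrank]
    exact (h F E h2 hb y h1).trans (mul_le_mul_of_nonneg_left hB (zero_le_one.trans hC))

omit [NumberField K] in
/-- An element of the algebraic closure determines its field. -/
private lemma eq_of_val {s t : Σ F : IntermediateField K (AlgebraicClosure K), F}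
    (hs : IntermediateField.adjoin K {s.2} = ⊤) (ht : IntermediateField.adjoin K {t.2} = ⊤)
    (h : (s.2 : AlgebraicClosure K) = t.2) : s = t := by
  obtain ⟨E, y⟩ := s
  obtain ⟨E', y'⟩ := t
  have h1 : E = IntermediateField.adjoin K {(y : AlgebraicClosure K)} := by
    have := congrArg IntermediateField.lift hs
    rw [IntermediateField.lift_adjoin_simple, IntermediateField.lift_top] at this
    exact this.symm
  have h2 : E' = IntermediateField.adjoin K {(y' : AlgebraicClosure K)} := by
    have := congrArg IntermediateField.lift ht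
    rw [IntermediateField.lift_adjoin_simple, IntermediateField.lift_top] at this
    exact this.symm
  have h3 : E = E' := by
    rw [h1, h2]
    change IntermediateField.adjoin K {((y : E) : AlgebraicClosure K)} = _
    simp only at h
    rw [h]
  subst h3
  simp only at h
  rw [Subtype.ext h]

/-- The polynomial of a vector. -/
private noncomputable def pol {b : ℕ} (t : Vc K (b + 1)) : Polynomial (AlgebraicClosure K) :=
  ∑ i : Fin (b + 1), Polynomial.monomial i.val ((t.2 i : t.1) : AlgebraicClosure K)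

private lemma pol_mpv (b : ℕ) (E : IntermediateField K (AlgebraicClosure K)) [NumberField E]
    (F : IntermediateField K E) (y : E) (hy : IntermediateField.adjoin K {y} = ⊤)
    (hb : Module.finrank F E = b) :
    pol (mpv b E F y) = (minpoly F y).map (algebraMap F (AlgebraicClosure K)) := by
  have hdeg := natDegree_minpoly E F y hy
  rw [hb] at hdeg
  ext n
  unfold pol
  rw [Polynomial.finsetSum_coeff, Polynomial.coeff_map]
  simp only [Polynomial.coeff_monomial]
  by_cases hn : n < b + 1
  · rw [Finset.sum_eq_single (⟨n, hn⟩ : Fin (b + 1))]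
    · rw [if_pos rfl]
      rfl
    · intro i _ hi
      rw [if_neg]
      intro h
      exact hi (Fin.ext h)
    · intro h
      exact absurd (Finset.mem_univ _) h
  · rw [Polynomial.coeff_eq_zero_of_natDegree_lt (by omega), map_zero]
    refine Finset.sum_eq_zero (fun i _ => ?_)
    rw [if_neg]
    intro h
    have := i.2
    omega

private lemma root_mpv (b : ℕ) (E : IntermediateField K (AlgebraicClosure K)) [NumberField E]
    (F : IntermediateField K E) (y : E) (hy : IntermediateField.adjoin K {y} = ⊤)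
    (hb : Module.finrank F E = b) :
    pol (mpv b E F y) ≠ 0 ∧ (pol (mpv b E F y)).natDegree = b ∧
      (y : AlgebraicClosure K) ∈ (pol (mpv b E F y)).roots := by
  have : Module.Finite K E := Module.Finite.of_restrictScalars_finite ℚ K E
  have : Module.Finite F E := Module.Finite.of_restrictScalars_finite K F E
  have hm : (minpoly F y).Monic := minpoly.monic (Algebra.IsIntegral.isIntegral (R := F) y)
  rw [pol_mpv b E F y hy hb]
  have h0 : (minpoly F y).map (algebraMap F (AlgebraicClosure K)) ≠ 0 := (hm.map _).ne_zero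
  refine ⟨h0, ?_, ?_⟩
  · rw [Polynomial.natDegree_map, natDegree_minpoly E F y hy, hb]
  · rw [Polynomial.mem_roots h0, Polynomial.IsRoot.def, Polynomial.eval_map]
    have h1 : algebraMap F (AlgebraicClosure K) =
        (algebraMap E (AlgebraicClosure K)).comp (algebraMap F E) := rfl
    rw [h1]
    have h2 : (y : AlgebraicClosure K) = algebraMap E (AlgebraicClosure K) y := rfl
    rw [h2, ← Polynomial.hom_eval₂]
    have h3 : Polynomial.eval₂ (algebraMap F E) y (minpoly F y) = 0 := minpoly.aeval F y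
    rw [h3, map_zero]

/-- The count of the images. -/
private lemma count_images (a b r : ℕ) (ha2 : 2 ≤ a) (hb2 : 2 ≤ b) (hab : a * b = r) (η : ℝ)
    (hη : 0 < η) : ∃ C : ℝ, 1 ≤ C ∧ ∀ B : ℝ, 1 ≤ B → ∀ T : Finset (Vc K (b + 1)), Np T →
      (∀ s ∈ T, Gd a B s) → (T.card : ℝ) ≤ C * B ^ ((r : ℝ) - 1 + η) := by
  have hmax : max a b + 1 ≤ r - 1 := by
    have h1 : 2 * b ≤ a * b := Nat.mul_le_mul_right b ha2
    have h2 : a * 2 ≤ a * b := Nat.mul_le_mul_left a hb2
    omega
  have hr1 : ((r - 1 : ℕ) : ℝ) = (r : ℝ) - 1 := by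
    rw [Nat.cast_sub (by omega), Nat.cast_one]
  have key : ∀ B : ℝ, 1 ≤ B → ∀ m : ℕ, m ≤ r - 1 → B ^ η * B ^ m ≤ B ^ ((r : ℝ) - 1 + η) := by
    intro B hB m hm
    have hB0 : 0 < B := lt_of_lt_of_le one_pos hB
    rw [Real.rpow_add hB0, mul_comm, ← hr1, Real.rpow_natCast]
    exact mul_le_mul_of_nonneg_right (pow_le_pow_right₀ hB hm) (Real.rpow_nonneg hB0.le _)
  obtain ⟨C3, hC3, h3⟩ := phi_bounds (K := K) a (b + 1)
  rcases le_or_gt a b with hle | hlt
  · obtain ⟨C, hC, h⟩ := total_small (K := K) a b ha2 hle η hη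
    refine ⟨C * C3 ^ (b - a), one_le_mul_of_one_le_of_one_le hC (one_le_pow₀ hC3), ?_⟩
    intro B hB T hNp hT
    have hB0 : 0 < B := lt_of_lt_of_le one_pos hB
    have h4 := h B hB T hNp hT (C3 * B) (one_le_mul_of_one_le_of_one_le hC3 hB)
      (fun s hs => (h3 B s hB (hT s hs)).2)
    refine h4.trans ?_
    have h5 := key B hB (b + 1) (by omega)
    have h6 : B ^ (b + 1) = B ^ (a + 1) * B ^ (b - a) := by
      rw [← pow_add]
      congr 1
      omega
    calc C * B ^ η * B ^ (a + 1) * (C3 * B) ^ (b - a)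
        = C * C3 ^ (b - a) * (B ^ η * B ^ (b + 1)) := by
          rw [h6, mul_pow]
          ring
      _ ≤ C * C3 ^ (b - a) * B ^ ((r : ℝ) - 1 + η) :=
          mul_le_mul_of_nonneg_left h5 (mul_nonneg (zero_le_one.trans hC)
            (pow_nonneg (zero_le_one.trans hC3) _))
  · obtain ⟨C, hC, h⟩ := total_large (K := K) a b ha2 hlt.le η hη
    refine ⟨C, hC, ?_⟩
    intro B hB T hNp hT
    have h4 := h B hB T hNp hT 1 le_rfl
      (fun s hs => by exact_mod_cast (h3 B s hB (hT s hs)).1)
    refine h4.trans ?_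
    rw [one_pow, div_one, mul_assoc]
    exact mul_le_mul_of_nonneg_left (key B hB (a + 1) (by omega)) (zero_le_one.trans hC)

/-- The count for fixed degrees. -/
private lemma count_ab (a b r : ℕ) (ha2 : 2 ≤ a) (hb2 : 2 ≤ b) (hab : a * b = r) (η : ℝ)
    (hη : 0 < η) : ∃ C : ℝ, 1 ≤ C ∧ ∀ B : ℝ, 1 ≤ B →
      ∀ X : Finset (Σ F : IntermediateField K (AlgebraicClosure K), F),
        (∀ s ∈ X, ∃ _ : NumberField s.1, IntermediateField.adjoin K {s.2} = ⊤ ∧
          (∃ F : IntermediateField K s.1, Module.finrank K F = a ∧ Module.finrank F s.1 = b) ∧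
            mulHeight ![1, s.2] ≤ B) →
        (X.card : ℝ) ≤ C * B ^ ((r : ℝ) - 1 + η) := by
  obtain ⟨C1, hC1, h1⟩ := height_minpoly_unif.{u} (Module.finrank ℚ K * a) b
  obtain ⟨C2, hC2, h2⟩ := count_images (K := K) a b r ha2 hb2 hab η hη
  have hC1r : 1 ≤ C1 ^ ((r : ℝ) - 1 + η) := by
    refine Real.one_le_rpow hC1 ?_
    have h3 : 1 ≤ r := by
      rw [← hab]
      exact Nat.succ_le_of_lt (Nat.mul_pos (by omega) (by omega))
    have h4 : (1 : ℝ) ≤ r := by exact_mod_cast h3
    linarith
  refine ⟨b * (C2 * C1 ^ ((r : ℝ) - 1 + η)), ?_, ?_⟩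
  · have hb1 : (1 : ℝ) ≤ b := by exact_mod_cast (by omega : 1 ≤ b)
    exact one_le_mul_of_one_le_of_one_le hb1 (one_le_mul_of_one_le_of_one_le hC2 hC1r)
  intro B hB X hX
  classical
  -- the map
  have hex : ∀ s : (Σ F : IntermediateField K (AlgebraicClosure K), F), ∃ t : Vc K (b + 1),
      s ∈ X → ∃ (_ : NumberField s.1) (F : IntermediateField K s.1),
        Module.finrank K F = a ∧ Module.finrank F s.1 = b ∧ t = mpv b s.1 F s.2 := by
    intro s
    by_cases hs : s ∈ X
    · obtain ⟨i1, -, ⟨F, hF1, hF2⟩, -⟩ := hX s hs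
      exact ⟨mpv b s.1 F s.2, fun _ => ⟨i1, F, hF1, hF2, rfl⟩⟩
    · exact ⟨⟨⊥, 0⟩, fun h => absurd h hs⟩
  choose f hf using hex
  have hfib : ∀ t ∈ X.image f, (X.filter (fun x => f x = t)).card ≤ b := by
    intro t ht
    rw [Finset.mem_image] at ht
    obtain ⟨s0, hs0, hs0t⟩ := ht
    obtain ⟨i0, F0, -, hF0b, hF0⟩ := hf s0 hs0
    obtain ⟨-, hy0, -, -⟩ := hX s0 hs0
    have r0 := root_mpv b s0.1 F0 s0.2 hy0 hF0b
    rw [← hF0, hs0t] at r0
    calc (X.filter (fun x => f x = t)).card ≤ (pol t).roots.toFinset.card := by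
          refine Finset.card_le_card_of_injOn (fun s => (s.2 : AlgebraicClosure K)) ?_ ?_
          · intro s hs
            rw [Finset.mem_coe, Finset.mem_filter] at hs
            obtain ⟨i1, F, -, hFb, hF⟩ := hf s hs.1
            obtain ⟨-, hy, -, -⟩ := hX s hs.1
            have r1 := root_mpv b s.1 F s.2 hy hFb
            rw [← hF, hs.2] at r1
            rw [Finset.mem_coe, Multiset.mem_toFinset]
            exact r1.2.2
          · intro s hs s' hs' hss
            rw [Finset.mem_coe, Finset.mem_filter] at hs hs'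
            obtain ⟨-, hy, -, -⟩ := hX s hs.1
            obtain ⟨-, hy', -, -⟩ := hX s' hs'.1
            exact eq_of_val hy hy' hss
      _ ≤ (pol t).roots.card := Multiset.toFinset_card_le _
      _ ≤ (pol t).natDegree := Polynomial.card_roots' _
      _ = b := r0.2.1
  have hcard := Finset.card_le_mul_card_image X b hfib
  -- the images
  have hlast : ∀ t ∈ X.image f, t.2 (Fin.last b) = 1 := by
    intro t ht
    rw [Finset.mem_image] at ht
    obtain ⟨s, hs, rfl⟩ := ht
    obtain ⟨i1, F, -, hFb, hF⟩ := hf s hs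
    obtain ⟨-, hy, -, -⟩ := hX s hs
    rw [hF]
    exact mpv_last b s.1 F s.2 hy hFb
  have hNp : Np (X.image f) := by
    intro F x y hx hy z hz hxy
    have h3 : x (Fin.last b) = 1 := hlast _ hx
    have h4 : y (Fin.last b) = 1 := hlast _ hy
    have h5 : z = 1 := by
      have := congrFun hxy (Fin.last b)
      rw [Pi.smul_apply, smul_eq_mul, h3, h4, mul_one] at this
      exact this.symm
    rw [hxy, h5, one_smul]
  have hGd : ∀ t ∈ X.image f, Gd a (C1 * B) t := by
    intro t ht
    rw [Finset.mem_image] at ht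
    obtain ⟨s, hs, rfl⟩ := ht
    obtain ⟨i1, F, hFa, hFb, hF⟩ := hf s hs
    obtain ⟨i2, hy, -, hB'⟩ := hX s hs
    rw [hF]
    exact gd_mpv a b C1 B hC1 h1 s.1 F s.2 hy hFa hFb hB'
  have h6 := h2 (C1 * B) (one_le_mul_of_one_le_of_one_le hC1 hB) (X.image f) hNp hGd
  have hB0 : 0 ≤ B := zero_le_one.trans hB
  have hC10 : 0 ≤ C1 := zero_le_one.trans hC1
  calc (X.card : ℝ) ≤ ((b * (X.image f).card : ℕ) : ℝ) := by exact_mod_cast hcard
    _ = b * ((X.image f).card : ℝ) := by push_cast; rfl
    _ ≤ b * (C2 * (C1 * B) ^ ((r : ℝ) - 1 + η)) :=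
        mul_le_mul_of_nonneg_left h6 (Nat.cast_nonneg b)
    _ = b * (C2 * C1 ^ ((r : ℝ) - 1 + η)) * B ^ ((r : ℝ) - 1 + η) := by
        rw [Real.mul_rpow hC10 hB0]
        ring

end

/-- NB2 : generators of fields with an intermediate field -/
theorem imprim_points {K : Type u} [Field K] [NumberField K] (r : ℕ) (η : ℝ) (hη : 0 < η) :
    ∃ C : ℝ, 1 ≤ C ∧ ∀ B : ℝ, 1 ≤ B →
      ∀ X : Finset (Σ F : IntermediateField K (AlgebraicClosure K), F),
        (∀ s ∈ X, ∃ _ : NumberField s.1, Module.finrank K s.1 = r ∧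
          IntermediateField.adjoin K {s.2} = ⊤ ∧ Imp K s.1 ∧ mulHeight ![1, s.2] ≤ B) →
        (X.card : ℝ) ≤ C * B ^ ((r : ℝ) - 1 + η) := by
  classical
  have h0 : ∀ p : ℕ × ℕ, ∃ C : ℝ, 1 ≤ C ∧ ∀ B : ℝ, 1 ≤ B →
      ∀ X : Finset (Σ F : IntermediateField K (AlgebraicClosure K), F),
        (∀ s ∈ X, ∃ _ : NumberField s.1, IntermediateField.adjoin K {s.2} = ⊤ ∧
          (∃ F : IntermediateField K s.1, Module.finrank K F = p.1 ∧ Module.finrank F s.1 = p.2) ∧
            mulHeight ![1, s.2] ≤ B) → 2 ≤ p.1 → 2 ≤ p.2 → p.1 * p.2 = r →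
        (X.card : ℝ) ≤ C * B ^ ((r : ℝ) - 1 + η) := by
    intro p
    by_cases hp : 2 ≤ p.1 ∧ 2 ≤ p.2 ∧ p.1 * p.2 = r
    · obtain ⟨C, hC, h⟩ := count_ab (K := K) p.1 p.2 r hp.1 hp.2.1 hp.2.2 η hη
      exact ⟨C, hC, fun B hB X hX _ _ _ => h B hB X hX⟩
    · exact ⟨1, le_rfl, fun B hB X hX h1 h2 h3 => absurd ⟨h1, h2, h3⟩ hp⟩
  choose C hC h using h0
  set R := Finset.range (r + 1) ×ˢ Finset.range (r + 1) with hR
  refine ⟨∑ p ∈ R, C p, ?_, ?_⟩
  · have hmem : ((0, 0) : ℕ × ℕ) ∈ R := by
      rw [hR, Finset.mem_product]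
      simp
    exact (hC (0, 0)).trans (Finset.single_le_sum (f := C)
      (fun p _ => zero_le_one.trans (hC p)) hmem)
  intro B hB X hX
  have hB0 : 0 ≤ B := zero_le_one.trans hB
  let Y : ℕ × ℕ → Finset (Σ F : IntermediateField K (AlgebraicClosure K), F) := fun p =>
    X.filter (fun s => ∃ F : IntermediateField K s.1,
      (Module.finrank K F = p.1 ∧ Module.finrank F s.1 = p.2) ∧
        2 ≤ p.1 ∧ 2 ≤ p.2 ∧ p.1 * p.2 = r)
  have hsub : X ⊆ R.biUnion Y := by
    intro s hs
    obtain ⟨i1, hr, hy, ⟨F, hF1, hF2⟩, hB'⟩ := hX s hs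
    have : Module.Finite K s.1 := Module.Finite.of_restrictScalars_finite ℚ K s.1
    have hab : Module.finrank K F * Module.finrank F s.1 = r := by
      rw [Module.finrank_mul_finrank, hr]
    have hrpos : 0 < r := by
      rw [← hr]
      exact Module.finrank_pos
    have ha0 : Module.finrank K F ≠ 0 := by
      intro h
      rw [h, zero_mul] at hab
      omega
    have hb0 : Module.finrank F s.1 ≠ 0 := by
      intro h
      rw [h, mul_zero] at hab
      omega
    have ha1 : Module.finrank K F ≠ 1 := by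
      intro h
      exact hF1 (IntermediateField.finrank_eq_one_iff.mp h)
    have hb1 : Module.finrank F s.1 ≠ 1 := by
      intro h
      exact hF2 (IntermediateField.finrank_eq_one_iff_eq_top.mp h)
    have hale : Module.finrank K F ≤ r := Nat.le_of_dvd hrpos ⟨_, hab.symm⟩
    have hble : Module.finrank F s.1 ≤ r := Nat.le_of_dvd hrpos ⟨_, by rw [mul_comm]; exact hab.symm⟩
    rw [Finset.mem_biUnion]
    refine ⟨(Module.finrank K F, Module.finrank F s.1), ?_, ?_⟩
    · rw [hR, Finset.mem_product, Finset.mem_range, Finset.mem_range]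
      exact ⟨Nat.lt_succ_of_le hale, Nat.lt_succ_of_le hble⟩
    · rw [Finset.mem_filter]
      exact ⟨hs, F, ⟨rfl, rfl⟩, by omega, by omega, hab⟩
  have hY : ∀ p ∈ R, ((Y p).card : ℝ) ≤ C p * B ^ ((r : ℝ) - 1 + η) := by
    intro p _
    rcases (Y p).eq_empty_or_nonempty with hemp | ⟨s, hs⟩
    · rw [hemp, Finset.card_empty, Nat.cast_zero]
      exact mul_nonneg (zero_le_one.trans (hC p)) (Real.rpow_nonneg hB0 _)
    · have hs' := (Finset.mem_filter.mp hs).2
      obtain ⟨-, -, h1, h2, h3⟩ := hs'
      refine h p B hB (Y p) ?_ h1 h2 h3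
      intro t ht
      obtain ⟨htX, F, hF, -⟩ := Finset.mem_filter.mp ht
      obtain ⟨i1, -, hy, -, hB'⟩ := hX t htX
      exact ⟨i1, hy, ⟨F, hF⟩, hB'⟩
  calc (X.card : ℝ) ≤ ((∑ p ∈ R, (Y p).card : ℕ) : ℝ) := by
        exact_mod_cast (Finset.card_le_card hsub).trans Finset.card_biUnion_le
    _ = ∑ p ∈ R, ((Y p).card : ℝ) := by push_cast; rfl
    _ ≤ ∑ p ∈ R, C p * B ^ ((r : ℝ) - 1 + η) := Finset.sum_le_sum hY
    _ = (∑ p ∈ R, C p) * B ^ ((r : ℝ) - 1 + η) := by rw [Finset.sum_mul]

end Pool.Agent.Lib.MP_44a246_ntAL
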