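import Pool.Agent.Lib.MP_44a246_ntAL.GenDefs
import Pool.Agent.Lib.MP_44a246_ntAL.AL0
import Pool.Agent.Lib.MP_44a246_ntAL.AL5
import Pool.Agent.Lib.MP_44a246_ntAL.AL12
import Pool.Agent.Lib.MP_44a246_ntAL.AL13
import Pool.Agent.Lib.MP_44a246_ntAL.NA1
import Pool.Agent.Lib.MP_44a246_ntAL.NB2

/-!
# The classes of vectors over fields with an intermediate field
-/

set_option autoImplicit false

open NumberField IsDedekindDomain Height MvPolynomial
open Pool.Agent.Lib.MP_4d5ce1_nt (fa nv ordv)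
open Pool.Agent.Lib.MP_44a246_ntNF
open Pool.Agent.Lib.MP_44a246_ntNU
open Pool.Agent.Lib.MP_44a246_ntSR (mc)

namespace Pool.Agent.Lib.MP_44a246_ntAL

universe u

namespace NB3aux

lemma inf_sum_le {E : Type*} [Field E] (w : InfinitePlace E) {ι : Type*} (s : Finset ι)
    (f : ι → E) : w (∑ i ∈ s, f i) ≤ ∑ i ∈ s, w (f i) := by
  classical
  induction s using Finset.induction_on with
  | empty => simp
  | insert a s ha ih =>
    rw [Finset.sum_insert ha, Finset.sum_insert ha]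
    exact (w.1.add_le _ _).trans (add_le_add le_rfl ih)

lemma combo_inf_le {m : ℕ} {E : Type u} [Field E] [NumberField E] (N : ℕ)
    (c : Fin m → ℕ) (hc : ∀ i, c i ≤ N) (w : InfinitePlace E)
    (y : Fin m → E) (t : ℝ) (hy : ∀ i, w (y i) ≤ t) :
    w (∑ i, (c i : E) * y i) ≤ (m : ℝ) * N * t := by
  refine (inf_sum_le w _ _).trans ?_
  have h1 : ∀ i, w ((c i : E) * y i) ≤ N * t := by
    intro i
    rw [map_mul]
    have h2 : w (c i : E) ≤ (c i : ℝ) := by
      have h3 : ∀ k : ℕ, w (k : E) ≤ (k : ℝ) := by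
        intro k
        induction k with
        | zero => simp
        | succ k ih =>
          push_cast
          refine (w.1.add_le _ _).trans ?_
          have h4 : w.1 (1 : E) = 1 := map_one w.1
          rw [h4]
          exact add_le_add ih le_rfl
      exact h3 _
    have h5 : (c i : ℝ) ≤ N := by exact_mod_cast hc i
    exact mul_le_mul (h2.trans h5) (hy i) (apply_nonneg _ _) (Nat.cast_nonneg _)
  refine (Finset.sum_le_sum fun i _ => h1 i).trans ?_
  rw [Finset.sum_const, Finset.card_univ, Fintype.card_fin, nsmul_eq_mul]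
  exact le_of_eq (by ring)

lemma combo_fa_le {m : ℕ} {E : Type u} [Field E] [NumberField E]
    (c : Fin m → ℕ) (w : HeightOneSpectrum (𝓞 E))
    (y : Fin m → E) (t : ℝ) (hy : ∀ i, fa w (y i) ≤ t) (ht : 0 ≤ t) :
    fa w (∑ i, (c i : E) * y i) ≤ t := by
  refine Pool.Agent.Lib.MP_4d5ce1_nt.fa_sum_le w _ _ t ht fun i _ => ?_
  rw [Pool.Agent.Lib.MP_4d5ce1_nt.fa_mul]
  calc fa w (c i : E) * fa w (y i) ≤ 1 * fa w (y i) :=
        mul_le_mul_of_nonneg_right (Pool.Agent.Lib.MP_4d5ce1_nt.fa_natCast_le_one _ _)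
          (Pool.Agent.Lib.MP_4d5ce1_nt.fa_nonneg _ _)
    _ ≤ t := by rw [one_mul]; exact hy i

/-- The height of the ratio of two elements of a box. -/
lemma height_ratio_le {E : Type u} [Field E] [NumberField E] {m : ℕ} (x : Fin m → E)
    (hx : x ≠ 0) (u z : E) (M : ℝ) (hu0 : u ≠ 0)
    (hu : u ∈ Bx (tf x) (ti x) M) (hz : z ∈ Bx (tf x) (ti x) M) :
    mulHeight ![1, z / u] ≤ M ^ Module.finrank ℚ E * mulHeight x := by
  have h1 : mulHeight ![1, z / u] = mulHeight ![u, z] := by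
    have h2 : ![u, z] = u • ![1, z / u] := by
      funext i
      fin_cases i
      · simp
      · simp [mul_div_cancel₀ z hu0]
    rw [h2, mulHeight_smul_eq_mulHeight _ hu0]
  rw [h1]
  have hne : ![u, z] ≠ 0 := fun h => hu0 (by simpa using congrFun h 0)
  obtain ⟨ha1, hh1⟩ := adm_tf ![u, z] hne
  obtain ⟨ha2, hh2⟩ := adm_tf x hx
  rw [← hh1, ← hh2]
  unfold hb
  have hf : ∀ w, tf ![u, z] w ≤ tf x w := by
    intro w
    refine ciSup_le fun i => ?_
    fin_cases i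
    · exact hu.1 w
    · exact hz.1 w
  have hi : ∀ w, ti ![u, z] w ≤ M * ti x w := by
    intro w
    refine ciSup_le fun i => ?_
    fin_cases i
    · exact hu.2 w
    · exact hz.2 w
  have hpos : ∀ w, 0 < tf ![u, z] w := by
    intro w
    obtain ⟨k, hk⟩ := ha1.pow w
    rw [hk]
    have := Pool.Agent.Lib.MP_4d5ce1_nt.one_lt_nv w
    positivity
  have hfp : (∏ᶠ w, tf ![u, z] w) ≤ ∏ᶠ w, tf x w := by
    classical
    have hs1 : Function.mulSupport (tf ![u, z]) ⊆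
        ((ha1.fin.toFinset ∪ ha2.fin.toFinset : Finset _) : Set (HeightOneSpectrum (𝓞 E))) := by
      intro w hw
      exact Finset.mem_coe.2 (Finset.mem_union_left _ (ha1.fin.mem_toFinset.2 hw))
    have hs2 : Function.mulSupport (tf x) ⊆
        ((ha1.fin.toFinset ∪ ha2.fin.toFinset : Finset _) : Set (HeightOneSpectrum (𝓞 E))) := by
      intro w hw
      exact Finset.mem_coe.2 (Finset.mem_union_right _ (ha2.fin.mem_toFinset.2 hw))
    rw [finprod_eq_prod_of_mulSupport_subset _ hs1, finprod_eq_prod_of_mulSupport_subset _ hs2]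
    exact Finset.prod_le_prod (fun w _ => (hpos w).le) fun w _ => hf w
  have hip : ∏ w : InfinitePlace E, ti ![u, z] w ^ w.mult ≤
      M ^ Module.finrank ℚ E * ∏ w : InfinitePlace E, ti x w ^ w.mult := by
    rw [← InfinitePlace.sum_mult_eq (K := E), ← Finset.prod_pow_eq_pow_sum,
      ← Finset.prod_mul_distrib]
    refine Finset.prod_le_prod (fun w _ => pow_nonneg (ha1.pos w).le _) fun w _ => ?_
    rw [← mul_pow]
    exact pow_le_pow_left₀ (ha1.pos w).le (hi w) _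
  calc (∏ᶠ w, tf ![u, z] w) * ∏ w : InfinitePlace E, ti ![u, z] w ^ w.mult
      ≤ (∏ᶠ w, tf x w) * (M ^ Module.finrank ℚ E * ∏ w : InfinitePlace E, ti x w ^ w.mult) := by
        refine mul_le_mul hfp hip (Finset.prod_nonneg fun w _ => pow_nonneg (ha1.pos w).le _) ?_
        exact (finprod_nonneg fun w => (hpos w).le).trans hfp
    _ = _ := by ring

/-- The data of a vector. -/
lemma point {K : Type u} [Field K] [NumberField K] (m : ℕ) (r : ℕ) (hr : 2 ≤ r) :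
    ∃ M : ℝ, 1 ≤ M ∧ ∀ (E : Type u) [Field E] [NumberField E] [Algebra K E],
      Module.finrank K E = r → ∀ y : Fin m → E, y ≠ 0 →
      IntermediateField.adjoin K {z | ∃ i k, z = y i / y k} = ⊤ →
      ∀ B : ℝ, 1 ≤ B → mulHeight y ≤ B →
      ∃ (c : K) (u z : E), u ≠ 0 ∧ c ≠ 0 ∧ u ∈ Bx (tf y) (ti y) M ∧ z ∈ Bx (tf y) (ti y) M ∧
        IntermediateField.adjoin K {z / u} = ⊤ ∧
        (∀ v i, fa v (gv K r c u z i) ≤ ∏ w ∈ ov K E v, (max (fa w u) (fa w z) / tf y w)) ∧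
        (∀ v i, fa v (gv K r c u z i) ≤ 1) ∧
        (∀ (v : InfinitePlace K) i,
          v (gv K r c u z i) ≤ M * B ^ ((Module.finrank ℚ K : ℝ)⁻¹)) ∧
        mulHeight ![1, z / u] ≤ M * B := by
  obtain ⟨N, hN⟩ := exists_combo.{u} r m
  obtain ⟨C₁, hC₁, hnf⟩ := normal_form (K := K) r
  have hn0 : 0 ≤ (m : ℝ) * N := by positivity
  set M₀ : ℝ := 1 + (m : ℝ) * N with hM₀d
  have hM₀ : 1 ≤ M₀ := by linarith
  have hM₀r : 1 ≤ M₀ ^ r := one_le_pow₀ hM₀
  have hM₁ : 1 ≤ C₁ * M₀ ^ r := one_le_mul_of_one_le_of_one_le hC₁ hM₀r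
  have hM₀1 : M₀ ≤ C₁ * M₀ ^ r := by
    have h1 : M₀ ≤ M₀ ^ r := le_self_pow₀ hM₀ (by omega)
    nlinarith
  set D : ℕ := Module.finrank ℚ K * r with hD
  have hM₀D : 1 ≤ M₀ ^ D := one_le_pow₀ hM₀
  have hb1 : C₁ * M₀ ^ r ≤ max (C₁ * M₀ ^ r) (M₀ ^ D) := le_max_left _ _
  have hb2 : M₀ ^ D ≤ max (C₁ * M₀ ^ r) (M₀ ^ D) := le_max_right _ _
  refine ⟨max (C₁ * M₀ ^ r) (M₀ ^ D), hM₁.trans hb1, ?_⟩
  intro E _ _ _ hE y hy hgen B hB hH
  obtain ⟨hadm, hhb⟩ := adm_tf y hy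
  obtain ⟨i₀, hi₀⟩ := Function.ne_iff.1 hy
  have hu : y i₀ ≠ 0 := hi₀
  have htf : ∀ (w : HeightOneSpectrum (𝓞 E)) (i : Fin m), fa w (y i) ≤ tf y w := fun w i =>
    le_ciSup (f := fun i => fa w (y i)) (Set.finite_range fun i => fa w (y i)).bddAbove i
  have hti : ∀ (w : InfinitePlace E) (i : Fin m), w (y i) ≤ ti y w := fun w i =>
    le_ciSup (f := fun i => w (y i)) (Set.finite_range fun i => w (y i)).bddAbove i
  have htf0 : ∀ w : HeightOneSpectrum (𝓞 E), 0 < tf y w := fun w =>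
    (Pool.Agent.Lib.MP_4d5ce1_nt.fa_pos w hu).trans_le (htf w i₀)
  have hti0 : ∀ w : InfinitePlace E, 0 ≤ ti y w := fun w => (hadm.pos w).le
  obtain ⟨co, hco, hcg⟩ := hN K E hE y hgen _ hu
  set u : E := y i₀ with hu_def
  set z : E := ∑ i, (co i : E) * y i with hz_def
  have huB : u ∈ Bx (tf y) (ti y) M₀ := by
    refine ⟨fun w => htf w i₀, fun w => (hti w i₀).trans ?_⟩
    exact le_mul_of_one_le_left (hti0 w) hM₀
  have hzB : z ∈ Bx (tf y) (ti y) M₀ := by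
    refine ⟨fun w => combo_fa_le co w y _ (htf w) (htf0 w).le, fun w => ?_⟩
    refine (combo_inf_le N co hco w y _ (hti w)).trans ?_
    exact mul_le_mul_of_nonneg_right (by linarith) (hti0 w)
  obtain ⟨c, hc0, hc⟩ := hnf E hE (tf y) (ti y) hadm
  obtain ⟨hf1, hf2, hi1, hi2⟩ := hc u z M₀ M₀ hu hcg (by linarith) (by linarith) huB.2 hzB.2
  have hmono : ∀ M' : ℝ, M₀ ≤ M' → Bx (tf y) (ti y) M₀ ⊆ Bx (tf y) (ti y) M' := by
    intro M' hM' x hx
    exact ⟨hx.1, fun w => (hx.2 w).trans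
      (mul_le_mul_of_nonneg_right hM' (hadm.pos w).le)⟩
  set d : ℝ := (Module.finrank ℚ K : ℝ)⁻¹ with hd
  have hd0 : 0 ≤ d := by rw [hd]; positivity
  have hhb0 : 0 ≤ hb (tf y) (ti y) := by
    rw [hhb]
    exact (mulHeight_pos y).le
  have hpw : hb (tf y) (ti y) ^ d ≤ B ^ d := by
    refine Real.rpow_le_rpow hhb0 ?_ hd0
    rw [hhb]; exact hH
  have hpw0 : 0 ≤ hb (tf y) (ti y) ^ d := Real.rpow_nonneg hhb0 _
  have hBd : 0 < B ^ d := Real.rpow_pos_of_pos (by linarith) _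
  refine ⟨c, u, z, hu, hc0, hmono _ (hM₀1.trans hb1) huB, hmono _ (hM₀1.trans hb1) hzB, hcg,
    hf1, ?_, ?_, ?_⟩
  · intro v i
    refine (hf1 v i).trans (Finset.prod_le_one ?_ ?_)
    · intro w _
      exact div_nonneg ((Pool.Agent.Lib.MP_4d5ce1_nt.fa_nonneg w u).trans (le_max_left _ _))
        (htf0 w).le
    · intro w _
      rw [div_le_one (htf0 w)]
      exact max_le (huB.1 w) (hzB.1 w)
  · intro v i
    refine (hi1 v i).trans ?_
    have hi : (i : ℕ) ≤ r := by have := i.2; omega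
    have h1 : M₀ ^ i.val * M₀ ^ (r - i.val) = M₀ ^ r := by
      rw [← pow_add]; congr 1; omega
    calc C₁ * hb (tf y) (ti y) ^ d * M₀ ^ i.val * M₀ ^ (r - i.val)
        = C₁ * M₀ ^ r * hb (tf y) (ti y) ^ d := by rw [← h1]; ring
      _ ≤ C₁ * M₀ ^ r * B ^ d := mul_le_mul_of_nonneg_left hpw (by linarith)
      _ ≤ _ := mul_le_mul_of_nonneg_right hb1 hBd.le
  · have hfE : Module.finrank ℚ E = D := by
      have : Module.Finite K E := Module.Finite.of_restrictScalars_finite ℚ K E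
      rw [hD, ← hE]
      exact (Module.finrank_mul_finrank ℚ K E).symm
    refine (height_ratio_le y hy u z M₀ hu huB hzB).trans ?_
    rw [hfE]
    exact mul_le_mul hb2 hH (mulHeight_pos y).le (by linarith)

end NB3aux

open NB3aux

/-- NB3 : the classes of vectors over fields with an intermediate field -/
theorem imprim_classes {K : Type u} [Field K] [NumberField K] (r m : ℕ) (hr : 2 ≤ r) (η : ℝ)
    (hη : 0 < η) : ∃ C : ℝ, 1 ≤ C ∧ ∀ B : ℝ, 1 ≤ B → ∀ X : Finset (Vc K m),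
      (∀ s ∈ X, Gd r B s ∧ Imp K s.1) → ∃ R ⊆ X, (∀ s ∈ X, ∃ t ∈ R, SimV t s) ∧
        (R.card : ℝ) ≤ C * B ^ ((r : ℝ) + η) := by
  classical
  have hη2 : 0 < η / 2 := by linarith
  obtain ⟨M, hM, hpt⟩ := point (K := K) m r hr
  obtain ⟨C₁, hC₁, hdec⟩ := decode.{u} (K := K) r m (by omega) M (η / 2) hM hη2
  obtain ⟨C₂, hC₂, hint⟩ := card_int K M hM
  obtain ⟨C₃, hC₃, himp⟩ := imprim_points (K := K) r (η / 2) hη2
  have hM0 : 0 < M := by linarith
  have hr1 : (0 : ℝ) ≤ (r : ℝ) - 1 + η / 2 := by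
    have : (2 : ℝ) ≤ r := by exact_mod_cast hr
    linarith
  have hMr : 1 ≤ M ^ ((r : ℝ) - 1 + η / 2) := Real.one_le_rpow hM hr1
  refine ⟨C₁ * (C₂ * (C₃ * M ^ ((r : ℝ) - 1 + η / 2))), ?_, ?_⟩
  · exact one_le_mul_of_one_le_of_one_le hC₁ (one_le_mul_of_one_le_of_one_le hC₂
      (one_le_mul_of_one_le_of_one_le hC₃ hMr))
  intro B hB X hX
  have hB0 : 0 < B := by linarith
  have hex : ∀ s : Vc K m, ∃ (c : K) (u z : s.1), s ∈ X → ∃ _ : NumberField s.1,
      Module.finrank K s.1 = r ∧ s.2 ≠ 0 ∧ mulHeight s.2 ≤ B ∧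
      u ≠ 0 ∧ c ≠ 0 ∧ u ∈ Bx (tf s.2) (ti s.2) M ∧ z ∈ Bx (tf s.2) (ti s.2) M ∧
        IntermediateField.adjoin K {z / u} = ⊤ ∧
        (∀ v i, fa v (gv K r c u z i) ≤ ∏ w ∈ ov K s.1 v, (max (fa w u) (fa w z) / tf s.2 w)) ∧
        (∀ v i, fa v (gv K r c u z i) ≤ 1) ∧
        (∀ (v : InfinitePlace K) i,
          v (gv K r c u z i) ≤ M * B ^ ((Module.finrank ℚ K : ℝ)⁻¹)) ∧
        mulHeight ![1, z / u] ≤ M * B := by
    intro s
    by_cases hs : s ∈ X
    · obtain ⟨⟨hNF, h1, h2, h3, h4⟩, h5⟩ := hX s hs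
      obtain ⟨c, u, z, h6, h7, h8⟩ := hpt s.1 h1 s.2 h2 h3 B hB h4
      exact ⟨c, u, z, fun _ => ⟨hNF, h1, h2, h4, h6, h7, h8⟩⟩
    · exact ⟨0, 0, 0, fun h => absurd h hs⟩
  choose c u z hcuz using hex
  obtain ⟨R, hRX, hRc, hRf⟩ := hdec B hB X c u z (fun s hs => by
    obtain ⟨hNF, h1, h2, h3, h4, h5, h6, h7, h8, h9, h10, h11, h12⟩ := hcuz s hs
    exact ⟨hNF, h1, h2, h3, h4, h5, h6, h7, h8, h9, fun v => h11 v _⟩)
  refine ⟨R, hRX, fun s hs => ?_, ?_⟩
  · obtain ⟨t, ht, h1, -⟩ := hRc s hs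
    exact ⟨t, ht, h1⟩
  set gf : Vc K m → Fin (r + 1) → K := fun t => gv K r (c t) (u t) (z t) with hgf
  set G : Finset (Fin (r + 1) → K) := R.image gf with hG
  have hcard : (R.card : ℝ) ≤ G.card * (C₁ * B ^ (η / 2)) := by
    have h1 : R.card = ∑ g ∈ G, (R.filter fun t => gf t = g).card :=
      Finset.card_eq_sum_card_image gf R
    rw [h1]
    push_cast
    calc ∑ g ∈ G, ((R.filter fun t => gf t = g).card : ℝ) ≤ ∑ _g ∈ G, C₁ * B ^ (η / 2) :=
          Finset.sum_le_sum fun g _ => hRf _ (Finset.filter_subset _ _) g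
            fun t ht => (Finset.mem_filter.1 ht).2
      _ = G.card * (C₁ * B ^ (η / 2)) := by rw [Finset.sum_const, nsmul_eq_mul]
  set ff : Vc K m → K := fun t => gf t (Fin.last r) with hff
  set pf : Vc K m → Σ F : IntermediateField K (AlgebraicClosure K), F :=
    fun t => ⟨t.1, z t / u t⟩ with hpf
  set φ : K × (Σ F : IntermediateField K (AlgebraicClosure K), F) → Fin (r + 1) → K :=
    fun p i => p.1 * (minpoly K p.2.2).coeff i.val with hφ
  have hkey : ∀ t ∈ R, φ (ff t, pf t) = gf t := by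
    intro t ht
    obtain ⟨hNF, h1, h2, h3, h4, h5, h6, h7, h8, -⟩ := hcuz t (hRX ht)
    have hfin : FiniteDimensional K t.1 := Module.Finite.of_restrictScalars_finite ℚ K t.1
    have hint : IsIntegral K (z t / u t) := Algebra.IsIntegral.isIntegral _
    have hdeg : (minpoly K (z t / u t)).natDegree = r := by
      rw [← h1]
      exact (Field.primitive_element_iff_minpoly_natDegree_eq K (z t / u t)).1 h8
    have hmon : (minpoly K (z t / u t)).coeff r = 1 := by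
      have := minpoly.monic hint
      rw [Polynomial.Monic, Polynomial.leadingCoeff, hdeg] at this
      exact this
    funext i
    simp only [hφ, hff, hpf, hgf, gv, Fin.val_last]
    rw [hmon, mul_one]
  have hG2 : G ⊆ ((R.image ff) ×ˢ (R.image pf)).image φ := by
    intro g hg
    obtain ⟨t, ht, rfl⟩ := Finset.mem_image.1 hg
    refine Finset.mem_image.2 ⟨(ff t, pf t), ?_, hkey t ht⟩
    exact Finset.mem_product.2 ⟨Finset.mem_image_of_mem _ ht, Finset.mem_image_of_mem _ ht⟩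
  have hGc : (G.card : ℝ) ≤ ((R.image ff).card : ℝ) * ((R.image pf).card : ℝ) := by
    have h1 := (Finset.card_le_card hG2).trans Finset.card_image_le
    rw [Finset.card_product] at h1
    exact_mod_cast h1
  have h1 : ((R.image ff).card : ℝ) ≤ C₂ * B := by
    refine hint B hB _ fun x hx => ?_
    obtain ⟨t, ht, rfl⟩ := Finset.mem_image.1 hx
    obtain ⟨hNF, -, -, -, -, -, -, -, -, -, h10, h11, -⟩ := hcuz t (hRX ht)
    exact ⟨fun v => h10 v _, fun v => h11 v _⟩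
  have h2 : ((R.image pf).card : ℝ) ≤ C₃ * (M * B) ^ ((r : ℝ) - 1 + η / 2) := by
    refine himp (M * B) (one_le_mul_of_one_le_of_one_le hM hB) _ fun x hx => ?_
    obtain ⟨t, ht, rfl⟩ := Finset.mem_image.1 hx
    obtain ⟨hNF, h1, -, -, -, -, -, -, h8, -, -, -, h12⟩ := hcuz t (hRX ht)
    exact ⟨hNF, h1, h8, (hX t (hRX ht)).2, h12⟩
  have hrB : 0 < B ^ ((r : ℝ) - 1 + η / 2) := Real.rpow_pos_of_pos hB0 _
  have hηB : 0 < B ^ (η / 2) := Real.rpow_pos_of_pos hB0 _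
  have hpow : B ^ ((r : ℝ) + η) = B * B ^ ((r : ℝ) - 1 + η / 2) * B ^ (η / 2) := by
    have h3 : B * B ^ ((r : ℝ) - 1 + η / 2) * B ^ (η / 2) =
        B ^ (1 : ℝ) * B ^ ((r : ℝ) - 1 + η / 2) * B ^ (η / 2) := by rw [Real.rpow_one]
    rw [h3, ← Real.rpow_add hB0, ← Real.rpow_add hB0]
    congr 1
    ring
  calc (R.card : ℝ) ≤ G.card * (C₁ * B ^ (η / 2)) := hcard
    _ ≤ ((C₂ * B) * (C₃ * (M * B) ^ ((r : ℝ) - 1 + η / 2))) * (C₁ * B ^ (η / 2)) := by
        refine mul_le_mul_of_nonneg_right ?_ (by positivity)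
        refine hGc.trans (mul_le_mul h1 h2 (Nat.cast_nonneg _) (by positivity))
    _ = _ := by
        rw [hpow, Real.mul_rpow hM0.le hB0.le]
        ring

end Pool.Agent.Lib.MP_44a246_ntAL
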