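import Pool.Agent.Lib.MP_44a246_ntAL.GenDefs
import Pool.Agent.Lib.MP_44a246_ntAL.AL18

/-!
# NC1: small truncated counting function: bad, intermediate field, or relations
-/

set_option autoImplicit false

open NumberField IsDedekindDomain Height MvPolynomial
open Pool.Agent.Lib.MP_4d5ce1_nt (fa nv ordv)
open Pool.Agent.Lib.MP_44a246_ntNF
open Pool.Agent.Lib.MP_44a246_ntNU

namespace Pool.Agent.Lib.MP_44a246_ntAL

universe u

namespace EX2

open Pool.Agent.Lib.MP_4d5ce1_nt (finite_fa_ne_one log_nv_pos)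

section
variable {K : Type*} [Field K] [NumberField K] {n q m : ℕ}

lemma finite_trunc {E : Type*} [Field E] [NumberField E] [Algebra K E]
    (T : Set (HeightOneSpectrum (𝓞 E))) {L : Fin q → Fin (n + 1) → K} (hL0 : ∀ j, L j ≠ 0)
    {y : Fin (n + 1) → E} (hy : y ≠ 0) (hl : ∀ j, lin (up E L j) y ≠ 0) :
    {v : HeightOneSpectrum (𝓞 E) | v ∉ T ∧ ∃ j, FinitePlace.mk v (lin (up E L j) y) <
      (⨆ i, FinitePlace.mk v (up E L j i)) * ⨆ i, FinitePlace.mk v (y i)}.Finite := by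
  have hup : ∀ j, up E L j ≠ 0 := by
    intro j h
    refine hL0 j ?_
    ext i
    have h1 : algebraMap K E (L j i) = 0 := congrFun h i
    simpa using h1
  have hfin : ({v : HeightOneSpectrum (𝓞 E) | sz v y ≠ 1} ∪
      ⋃ j, ({v | sz v (up E L j) ≠ 1} ∪ {v | fa v (lin (up E L j) y) ≠ 1})).Finite :=
    (finite_sz_ne_one hy).union (Set.finite_iUnion fun j =>
      (finite_sz_ne_one (hup j)).union (finite_fa_ne_one (hl j)))
  refine hfin.subset ?_
  rintro v ⟨-, j, hj⟩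
  by_contra hv
  simp only [Set.mem_union, Set.mem_iUnion, Set.mem_ofPred_eq, not_or, not_exists, not_not] at hv
  obtain ⟨h1, h2⟩ := hv
  obtain ⟨h3, h4⟩ := h2 j
  have h5 : fa v (lin (up E L j) y) < sz v (up E L j) * sz v y := hj
  rw [h1, h3, h4, one_mul] at h5
  exact lt_irrefl _ h5

lemma trunc_le {E : Type*} [Field E] [NumberField E] [Algebra K E]
    (T : Set (HeightOneSpectrum (𝓞 E))) {L : Fin q → Fin (n + 1) → K} (hL0 : ∀ j, L j ≠ 0)
    (J : Fin m → Fin q) {y : Fin (n + 1) → E} (hy : y ≠ 0) (hl : ∀ j, lin (up E L j) y ≠ 0) :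
    truncCount T (up E (L ∘ J)) y ≤ truncCount T (up E L) y := by
  classical
  have h1 := finite_trunc T hL0 hy hl
  have h2 := finite_trunc T (L := L ∘ J) (fun j => hL0 (J j)) hy (fun j => hl (J j))
  have e1 : truncCount T (up E L) y = ∑ v ∈ h1.toFinset, Real.log (nv v) := by
    unfold truncCount
    rw [← finsum_mem_eq_finite_toFinset_sum _ h1]
    rfl
  have e2 : truncCount T (up E (L ∘ J)) y = ∑ v ∈ h2.toFinset, Real.log (nv v) := by
    unfold truncCount
    rw [← finsum_mem_eq_finite_toFinset_sum _ h2]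
    rfl
  rw [e1, e2]
  refine Finset.sum_le_sum_of_subset_of_nonneg ?_ fun v _ _ => (log_nv_pos v).le
  intro v hv
  rw [Set.Finite.mem_toFinset] at hv ⊢
  obtain ⟨h3, j, hj⟩ := hv
  exact ⟨h3, J j, hj⟩

/-- Two forms with proportional values (over the ground field). -/
def Eqv {E : Type*} [Field E] [Algebra K E] (L : Fin q → Fin (n + 1) → K)
    (y : Fin (n + 1) → E) (i j : Fin q) : Prop :=
  ∃ κ : K, lin (up E L i) y = algebraMap K E κ * lin (up E L j) y

lemma eqv_equiv {E : Type*} [Field E] [Algebra K E] {L : Fin q → Fin (n + 1) → K}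
    {y : Fin (n + 1) → E} (hl : ∀ j, lin (up E L j) y ≠ 0) : Equivalence (Eqv L y) := by
  refine ⟨fun i => ⟨1, by rw [map_one, one_mul]⟩, ?_, ?_⟩
  · rintro i j ⟨κ, hκ⟩
    have hκ0 : κ ≠ 0 := by
      rintro rfl
      rw [map_zero, zero_mul] at hκ
      exact hl i hκ
    refine ⟨κ⁻¹, ?_⟩
    rw [hκ, ← mul_assoc, ← map_mul, inv_mul_cancel₀ hκ0, map_one, one_mul]
  · rintro i j k ⟨κ, hκ⟩ ⟨μ, hμ⟩
    exact ⟨κ * μ, by rw [hκ, hμ, map_mul, mul_assoc]⟩

/-- Representatives of the classes. -/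
lemma exists_reps {E : Type*} [Field E] [Algebra K E] {L : Fin q → Fin (n + 1) → K}
    {y : Fin (n + 1) → E} (hl : ∀ j, lin (up E L j) y ≠ 0) :
    ∃ R : Finset (Fin q), (∀ j, ∃ b ∈ R, Eqv L y j b) ∧
      ∀ i ∈ R, ∀ j ∈ R, i ≠ j → ¬ Eqv L y i j := by
  classical
  let s : Setoid (Fin q) := ⟨Eqv L y, eqv_equiv hl⟩
  refine ⟨Finset.univ.image fun j : Fin q => (Quotient.out (Quotient.mk s j)), ?_, ?_⟩
  · intro j
    refine ⟨Quotient.out (Quotient.mk s j), Finset.mem_image_of_mem _ (Finset.mem_univ j), ?_⟩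
    exact s.symm (Quotient.mk_out j)
  · intro i hi j hj hij hE
    obtain ⟨a, -, rfl⟩ := Finset.mem_image.1 hi
    obtain ⟨b, -, rfl⟩ := Finset.mem_image.1 hj
    refine hij ?_
    have h1 : Quotient.mk s (Quotient.out (Quotient.mk s a)) =
        Quotient.mk s (Quotient.out (Quotient.mk s b)) := Quotient.sound hE
    rw [Quotient.out_eq, Quotient.out_eq] at h1
    rw [h1]

/-- Few classes give relations. -/
lemma rel_of_card {E : Type*} [Field E] [Algebra K E] {L : Fin q → Fin (n + 1) → K}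
    {y : Fin (n + 1) → E} (R : Finset (Fin q)) (hR : ∀ j, ∃ b ∈ R, Eqv L y j b)
    (hc : R.card + n ≤ q) : Rel L y := by
  classical
  choose b hb hE using hR
  have h1 : n ≤ (Finset.univ \ R).card := by
    rw [Finset.card_sdiff_of_subset (Finset.subset_univ R), Finset.card_univ, Fintype.card_fin]
    omega
  obtain ⟨T, hT, hTc⟩ := Finset.exists_subset_card_eq h1
  set i : Fin n → Fin q := fun s => T.orderEmbOfFin hTc s with hi
  have hiT : ∀ s, i s ∈ T := fun s => Finset.orderEmbOfFin_mem T hTc s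
  refine ⟨i, fun s => b (i s), (T.orderEmbOfFin hTc).injective, ?_, fun s => hE (i s)⟩
  intro s t h
  have h2 := hb (i s)
  replace h : b (i s) = i t := h
  rw [h] at h2
  exact (Finset.mem_sdiff.1 (hT (hiT t))).2 h2

/-- A bad subfamily of pairwise non-equivalent forms. -/
lemma badG_of_bad {E : Type*} [Field E] [NumberField E] [Algebra K E]
    {S₀ : Finset (HeightOneSpectrum (𝓞 K))} {L : Fin q → Fin (n + 1) → K} {ε : ℝ}
    {y : Fin (n + 1) → E} (hl : ∀ j, lin (up E L j) y ≠ 0) (J : Fin m → Fin q)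
    (hJ : ∀ i j, i ≠ j → ¬ Eqv L y (J i) (J j)) (hI : ¬ Imp K E)
    (h : Bad S₀ (L ∘ J) ε y) : BadG S₀ L ε y := by
  rcases h with ⟨j, w, hw⟩ | ⟨j, w, hwS, hw⟩ | ⟨j, k, hk, hε, hw⟩ | ⟨i, j, W, hij, hWS, hε, hw⟩
  · exact Or.inl ⟨J j, w, hw⟩
  · exact Or.inr (Or.inl ⟨J j, w, hwS, hw⟩)
  · exact Or.inr (Or.inr (Or.inl ⟨J j, k, hk, hε, hw⟩))
  · refine Or.inr (Or.inr (Or.inr ⟨J i, J j, W, ?_, hWS, hε, hw⟩))
    by_contra hcon
    refine hI ⟨_, ?_, hcon⟩
    intro hbot
    rw [IntermediateField.adjoin_simple_eq_bot_iff, IntermediateField.mem_bot] at hbot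
    obtain ⟨κ, hκ⟩ := hbot
    refine hJ i j hij ⟨κ, ?_⟩
    rw [hκ, div_mul_cancel₀ _ (hl (J j))]

end

end EX2

section NC
variable {K : Type u} [Field K] [NumberField K] {n q : ℕ}

/-- NC1 : points with small truncated counting function are bad, or their field has an
intermediate field, or there are `n` relations -/
theorem excess2 {S : Set (HeightOneSpectrum (𝓞 K))} (hSf : S.Finite)
    (L : Fin q → Fin (n + 1) → K) (hL0 : ∀ j, L j ≠ 0) (r : ℕ) (ρ c : ℝ) (hρ : ρ < q + 1 - n) :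
    ∃ (S₀ : Finset (HeightOneSpectrum (𝓞 K))) (δ H₀ : ℝ), GoodS S₀ L ∧ 0 < δ ∧
      ∀ (E : Type u) [Field E] [NumberField E] [Algebra K E], Module.finrank K E = r →
      ∀ y : Fin (n + 1) → E, y ≠ 0 → (∀ j, lin (up E L j) y ≠ 0) → H₀ ≤ mulHeight y →
        truncCount (above K E S) (up E L) y ≤ ρ * logHeight y + c →
        BadG S₀ L (mulHeight y ^ (-δ)) y ∨ Imp K E ∨ Rel L y := by
  classical
  have hfin : {v : HeightOneSpectrum (𝓞 K) | ∃ j i, L j i ≠ 0 ∧ fa v (L j i) ≠ 1}.Finite := by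
    have : {v : HeightOneSpectrum (𝓞 K) | ∃ j i, L j i ≠ 0 ∧ fa v (L j i) ≠ 1} =
        ⋃ j, {v | ∃ i, L j i ≠ 0 ∧ fa v (L j i) ≠ 1} := by
      ext v
      simp
    rw [this]
    exact Set.finite_iUnion fun j => finite_bad (L j)
  set S₀ : Finset (HeightOneSpectrum (𝓞 K)) := hSf.toFinset ∪ hfin.toFinset with hS₀
  have hS : S ⊆ (S₀ : Set (HeightOneSpectrum (𝓞 K))) := by
    intro v hv
    rw [hS₀, Finset.mem_coe, Finset.mem_union, Set.Finite.mem_toFinset]
    exact Or.inl hv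
  have hg : GoodS S₀ L := by
    intro v hv j
    have hv' : ∀ i, L j i ≠ 0 → fa v (L j i) = 1 := by
      intro i hi
      by_contra h
      refine hv ?_
      rw [hS₀, Finset.mem_union, Set.Finite.mem_toFinset, Set.Finite.mem_toFinset]
      exact Or.inr ⟨j, i, hi, h⟩
    refine ⟨fun i => ?_, ?_⟩
    · by_cases hi : L j i = 0
      · rw [hi, Pool.Agent.Lib.MP_4d5ce1_nt.fa_zero]
        exact zero_le_one
      · exact (hv' i hi).le
    · obtain ⟨i, hi⟩ := Function.ne_iff.mp (hL0 j)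
      exact ⟨i, hv' i hi⟩
  set C1 : ℝ := ((r * S₀.card : ℕ) : ℝ) + ((r * Module.finrank ℚ K : ℕ) : ℝ) with hC1
  have hC10 : 0 ≤ C1 := by positivity
  set D : ℝ := C1 * q + 2 * q + q ^ 2 + 1 with hD
  have hD1 : 0 < D := by positivity
  set g : ℝ := q + 1 - n - ρ with hgdef
  have hg0 : 0 < g := by linarith
  set δ : ℝ := g / (2 * D) with hδ
  have hδ0 : 0 < δ := by positivity
  have hδD : D * δ = g / 2 := by
    rw [hδ]
    field_simp
  refine ⟨S₀, δ, Real.exp (2 * |c| / g + 1), hg, hδ0, ?_⟩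
  intro E _ _ _ hr y hy hl hH hT
  by_contra hcon
  push Not at hcon
  obtain ⟨hbadG, hI, hRel⟩ := hcon
  obtain ⟨R, hR1, hR2⟩ := EX2.exists_reps hl
  set m : ℕ := R.card with hm
  have hmn : q + 1 ≤ m + n := by
    by_contra h
    exact hRel (EX2.rel_of_card R hR1 (by omega))
  have hmq : m ≤ q := by
    have := Finset.card_le_univ R
    rwa [Fintype.card_fin] at this
  set J : Fin m → Fin q := fun s => R.orderEmbOfFin hm.symm s with hJ
  have hJR : ∀ s, J s ∈ R := fun s => Finset.orderEmbOfFin_mem R hm.symm s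
  have hJi : Function.Injective J := (R.orderEmbOfFin hm.symm).injective
  have hbad : ¬ Bad S₀ (L ∘ J) (mulHeight y ^ (-δ)) y := by
    intro h
    refine hbadG (EX2.badG_of_bad hl J ?_ hI h)
    intro i j hij
    exact hR2 _ (hJR i) _ (hJR j) fun h => hij (hJi h)
  have hH0 : 0 < mulHeight y := (Real.exp_pos _).trans_le hH
  set h : ℝ := logHeight y with hh
  have hlog : Real.log (mulHeight y) = h := by
    rw [hh, logHeight_eq_log_mulHeight]
  have hh1 : 2 * |c| / g + 1 ≤ h := by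
    rw [← hlog]
    exact (Real.le_log_iff_exp_le hH0).2 hH
  have hc0 : 0 ≤ 2 * |c| / g := by positivity
  have hh0 : 0 < h := by linarith
  have hε : 0 < mulHeight y ^ (-δ) := Real.rpow_pos_of_pos hH0 _
  have hlε : - Real.log (mulHeight y ^ (-δ)) = δ * h := by
    rw [Real.log_rpow hH0, hlog]
    ring
  have hδh : 0 ≤ δ * h := by positivity
  have hε1 : mulHeight y ^ (-δ) ≤ 1 := by
    have h1 : Real.log (mulHeight y ^ (-δ)) ≤ Real.log 1 := by
      rw [Real.log_one]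
      linarith
    exact (Real.log_le_log_iff hε one_pos).1 h1
  have hgJ : GoodS S₀ (L ∘ J) := fun v hv j => hg v hv (J j)
  have hkey := EX.key hS hgJ r E hr hy (fun j => hl (J j)) hε hε1 hbad
  have hTJ : truncCount (above K E S) (up E (L ∘ J)) y ≤ truncCount (above K E S) (up E L) y :=
    EX2.trunc_le _ hL0 J hy hl
  rw [hlε, ← hC1, ← hh] at hkey
  have hmn' : (q : ℝ) + 1 ≤ m + n := by exact_mod_cast hmn
  have hmq' : (m : ℝ) ≤ q := by exact_mod_cast hmq
  have hm0 : (0 : ℝ) ≤ m := Nat.cast_nonneg m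
  have h2 : g * h ≤ D * δ * h + c := by
    have h4 : m * h ≤ (C1 * m + 2 * m + m ^ 2) * (δ * h) + (ρ * h + c) := by nlinarith
    have h5 : (C1 * m + 2 * m + (m : ℝ) ^ 2) ≤ D := by
      have h51 : C1 * m ≤ C1 * q := mul_le_mul_of_nonneg_left hmq' hC10
      have h52 : (m : ℝ) ^ 2 ≤ (q : ℝ) ^ 2 := pow_le_pow_left₀ hm0 hmq' 2
      rw [hD]
      linarith
    have h6 : (C1 * m + 2 * m + (m : ℝ) ^ 2) * (δ * h) ≤ D * (δ * h) :=
      mul_le_mul_of_nonneg_right h5 hδh
    have h7 : (g + ρ) * h ≤ m * h := by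
      refine mul_le_mul_of_nonneg_right ?_ hh0.le
      rw [hgdef]
      linarith
    nlinarith
  rw [hδD] at h2
  have h3 : g / 2 * (2 * |c| / g + 1) ≤ g / 2 * h :=
    mul_le_mul_of_nonneg_left hh1 (by positivity)
  have h4 : g / 2 * (2 * |c| / g + 1) = |c| + g / 2 := by
    field_simp
  have h5 : c ≤ |c| := le_abs_self c
  nlinarith

end NC

end Pool.Agent.Lib.MP_44a246_ntAL
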