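import Pool.Agent.Lib.MP_44a246_ntAL.AL0
import Pool.Agent.Lib.MP_44a246_ntAL.AL14
import Pool.Agent.Lib.MP_44a246_ntAL.AL15
import Pool.Agent.Lib.MP_44a246_ntAL.AL17
import Pool.Agent.Lib.MP_44a246_ntAL.AL18
import Pool.Agent.Lib.MP_44a246_ntAL.NC1
import Pool.Agent.Lib.MP_44a246_ntAL.NA5
import Pool.Agent.Lib.MP_44a246_ntAL.NB3
import Pool.Agent.Lib.MP_44a246_ntAL.FA0
import Pool.Agent.Lib.MP_44a246_ntAL.EC3
import Pool.Agent.Lib.MP_44a246_ntAL.ED2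

/-!
# ED3: the case `n = r`
-/

set_option autoImplicit false

open NumberField IsDedekindDomain Height
open Pool.Agent.Lib.MP_4d5ce1_nt (fa nv ordv)
open Pool.Agent.Lib.MP_44a246_ntNF
open Pool.Agent.Lib.MP_44a246_ntNU

namespace Pool.Agent.Lib.MP_44a246_ntAL

universe u

section tools
variable {E : Type*} [Field E] [NumberField E] {m : ℕ}

private theorem tf_smulE (z : E) (x : Fin m → E) (w : HeightOneSpectrum (𝓞 E)) :
    tf (z • x) w = fa w z * tf x w := by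
  unfold tf
  rw [Real.mul_iSup_of_nonneg (Pool.Agent.Lib.MP_4d5ce1_nt.fa_nonneg w z)]
  congr 1
  funext i
  rw [Pi.smul_apply, smul_eq_mul, Pool.Agent.Lib.MP_4d5ce1_nt.fa_mul]

omit [NumberField E] in
private theorem ti_smulE (z : E) (x : Fin m → E) (w : InfinitePlace E) :
    ti (z • x) w = w z * ti x w := by
  unfold ti
  rw [Real.mul_iSup_of_nonneg (apply_nonneg w z)]
  congr 1
  funext i
  rw [Pi.smul_apply, smul_eq_mul, map_mul]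

private theorem tf_nonnegE (x : Fin m → E) (w : HeightOneSpectrum (𝓞 E)) : 0 ≤ tf x w :=
  Real.iSup_nonneg fun i => Pool.Agent.Lib.MP_4d5ce1_nt.fa_nonneg w (x i)

omit [NumberField E] in
private theorem ti_nonnegE (x : Fin m → E) (w : InfinitePlace E) : 0 ≤ ti x w :=
  Real.iSup_nonneg fun i => apply_nonneg w (x i)

private theorem Nk_nonnegE (k : HeightOneSpectrum (𝓞 E) →₀ ℕ) : 0 ≤ Nk k := by
  unfold Nk
  exact Finset.prod_nonneg fun w _ => pow_nonneg (Pool.Agent.Lib.MP_4d5ce1_nt.nv_pos w).le _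

private theorem NN_nonnegE (W : Finset (HeightOneSpectrum (𝓞 E))) : 0 ≤ NN W := by
  unfold NN
  exact Finset.prod_nonneg fun w _ => (Pool.Agent.Lib.MP_4d5ce1_nt.nv_pos w).le

omit [NumberField E] in
private theorem lin_smulE {n : ℕ} (a : Fin (n + 1) → E) (z : E) (x : Fin (n + 1) → E) :
    lin a (z • x) = z * lin a x := by
  unfold lin
  rw [Finset.mul_sum]
  refine Finset.sum_congr rfl fun i _ => ?_
  rw [Pi.smul_apply, smul_eq_mul]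
  ring

end tools

section bad
variable {K : Type u} [Field K] [NumberField K] {n q : ℕ}

private theorem bad_monoE {E : Type*} [Field E] [NumberField E] [Algebra K E]
    {S₀ : Finset (HeightOneSpectrum (𝓞 K))} {L : Fin q → Fin (n + 1) → K} {ε ε' : ℝ}
    {y : Fin (n + 1) → E} (hε : ε ≤ ε') (h : Bad S₀ L ε y) : Bad S₀ L ε' y := by
  rcases h with ⟨j, w, h⟩ | ⟨j, w, hw, h⟩ | ⟨j, k, hk, h1, h⟩ | ⟨i, j, W, hij, hW, h1, h⟩
  · exact Or.inl ⟨j, w, h.trans (mul_le_mul_of_nonneg_right hε (ti_nonnegE y w))⟩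
  · exact Or.inr (Or.inl ⟨j, w, hw, h.trans (mul_le_mul_of_nonneg_right hε (tf_nonnegE y w))⟩)
  · exact Or.inr (Or.inr (Or.inl ⟨j, k, hk,
      h1.trans (mul_le_mul_of_nonneg_right hε (Nk_nonnegE k)), h⟩))
  · exact Or.inr (Or.inr (Or.inr ⟨i, j, W, hij, hW,
      h1.trans (mul_le_mul_of_nonneg_right hε (NN_nonnegE W)), h⟩))

private theorem badG_monoE {E : Type*} [Field E] [NumberField E] [Algebra K E]
    {S₀ : Finset (HeightOneSpectrum (𝓞 K))} {L : Fin q → Fin (n + 1) → K} {ε ε' : ℝ}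
    {y : Fin (n + 1) → E} (hε : ε ≤ ε') (h : BadG S₀ L ε y) : BadG S₀ L ε' y := by
  rcases h with ⟨j, w, h⟩ | ⟨j, w, hw, h⟩ | ⟨j, k, hk, h1, h⟩ | ⟨i, j, W, hij, hW, h1, h⟩
  · exact Or.inl ⟨j, w, h.trans (mul_le_mul_of_nonneg_right hε (ti_nonnegE y w))⟩
  · exact Or.inr (Or.inl ⟨j, w, hw, h.trans (mul_le_mul_of_nonneg_right hε (tf_nonnegE y w))⟩)
  · exact Or.inr (Or.inr (Or.inl ⟨j, k, hk,
      h1.trans (mul_le_mul_of_nonneg_right hε (Nk_nonnegE k)), h⟩))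
  · exact Or.inr (Or.inr (Or.inr ⟨i, j, W, hij, hW,
      h1.trans (mul_le_mul_of_nonneg_right hε (NN_nonnegE W)), h⟩))

private theorem bad_smulE {E : Type*} [Field E] [NumberField E] [Algebra K E]
    {S₀ : Finset (HeightOneSpectrum (𝓞 K))} {L : Fin q → Fin (n + 1) → K} {ε : ℝ}
    {y : Fin (n + 1) → E} (z : E) (h : Bad S₀ L ε y) : Bad S₀ L ε (z • y) := by
  rcases h with ⟨j, w, h⟩ | ⟨j, w, hw, h⟩ | ⟨j, k, hk, h1, h⟩ | ⟨i, j, W, hij, hW, h1, h⟩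
  · refine Or.inl ⟨j, w, ?_⟩
    rw [lin_smulE, map_mul, ti_smulE]
    calc w z * w (lin (up E L j) y) ≤ w z * (ε * ti y w) :=
          mul_le_mul_of_nonneg_left h (apply_nonneg w z)
      _ = ε * (w z * ti y w) := by ring
  · refine Or.inr (Or.inl ⟨j, w, hw, ?_⟩)
    rw [lin_smulE, Pool.Agent.Lib.MP_4d5ce1_nt.fa_mul, tf_smulE]
    calc fa w z * fa w (lin (up E L j) y) ≤ fa w z * (ε * tf y w) :=
          mul_le_mul_of_nonneg_left h (Pool.Agent.Lib.MP_4d5ce1_nt.fa_nonneg w z)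
      _ = ε * (fa w z * tf y w) := by ring
  · refine Or.inr (Or.inr (Or.inl ⟨j, k, hk, h1, fun w hw => ?_⟩))
    rw [lin_smulE, Pool.Agent.Lib.MP_4d5ce1_nt.fa_mul, tf_smulE, mul_assoc]
    exact mul_le_mul_of_nonneg_left (h w hw) (Pool.Agent.Lib.MP_4d5ce1_nt.fa_nonneg w z)
  · refine Or.inr (Or.inr (Or.inr ⟨i, j, W, hij, hW, h1, fun w hw => ?_⟩))
    rw [lin_smulE, lin_smulE, Pool.Agent.Lib.MP_4d5ce1_nt.fa_mul,
      Pool.Agent.Lib.MP_4d5ce1_nt.fa_mul, tf_smulE, mul_assoc, mul_assoc]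
    exact ⟨mul_le_mul_of_nonneg_left (h w hw).1 (Pool.Agent.Lib.MP_4d5ce1_nt.fa_nonneg w z),
      mul_le_mul_of_nonneg_left (h w hw).2 (Pool.Agent.Lib.MP_4d5ce1_nt.fa_nonneg w z)⟩

/-- Bad vectors of a class, of height at most `B`, with box of size at least `F`. -/
private theorem class_badE (S₀ : Finset (HeightOneSpectrum (𝓞 K))) (L : Fin q → Fin (n + 1) → K)
    (hS : GoodS S₀ L) (hL : ∀ i j, i ≠ j → LinearIndependent K ![L i, L j])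
    (hL0 : ∀ j, L j ≠ 0) (hn : 1 ≤ n) (r : ℕ) : ∃ C : ℝ, 1 ≤ C ∧
    ∀ (B F ε : ℝ), 1 ≤ B → 1 ≤ F → 0 < ε → ε ≤ 1 → ∀ (t : Vc K (n + 1)), Gd r B t →
      F ≤ Phi t → ∀ X : Finset (Vc K (n + 1)), Np X → (∀ s ∈ X, SimV t s) →
      (∀ s ∈ X, ∃ _ : NumberField s.1, (∀ j, lin (up s.1 L j) s.2 ≠ 0) ∧ Bad S₀ L ε s.2) →
      (X.card : ℝ) ≤ C * ε ^ (1 / 2 : ℝ) * (B / F) ^ 2 * B ^ (n + 1) := by
  obtain ⟨C₁, hC₁, h₁⟩ := bad_count S₀ L hS hL hL0 hn r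
  obtain ⟨C₂, hC₂, h₂⟩ := phi_bounds (K := K) r (n + 1)
  refine ⟨C₁ * C₂ ^ (n + 1), one_le_mul_of_one_le_of_one_le hC₁ (one_le_pow₀ hC₂), ?_⟩
  rintro B F ε hB hF hε hε1 ⟨E, x₀⟩ ht hFt X hX hsim hbad
  obtain ⟨hp1, hp2⟩ := h₂ B ⟨E, x₀⟩ hB ht
  obtain ⟨hnf, hr, hx0, -, hB0⟩ := ht
  have : NumberField E := hnf
  obtain ⟨Y, hYc, hY⟩ := scaled E x₀ X hX hsim
  obtain ⟨hadm, hhb⟩ := adm_tf x₀ hx0
  have hphi : Phi (⟨E, x₀⟩ : Vc K (n + 1)) = (Bx (tf x₀) (ti x₀) 1).ncard := by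
    unfold Phi
    exact dif_pos hnf
  have hkey := h₁ E hr (tf x₀) (ti x₀) hadm (by rw [hhb]; exact one_le_mulHeight x₀) ε hε hε1 Y
    (fun y hy => by
      obtain ⟨⟨x, z, hxX, hz, hyx⟩, h1, h2, h3⟩ := hY y hy
      obtain ⟨hnf', hlin, hb⟩ := hbad _ hxX
      refine ⟨funext h1, h2, fun j => ?_, ?_⟩
      · rw [hyx, lin_smulE]
        exact mul_ne_zero hz (hlin j)
      · rw [hyx]
        exact bad_smulE z hb)
  rw [← hphi, hhb, hYc] at hkey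
  refine hkey.trans ?_
  have hP0 : (0 : ℝ) < Phi (⟨E, x₀⟩ : Vc K (n + 1)) := by
    exact_mod_cast hp1
  have hF0 : 0 < F := by linarith
  have e1 : mulHeight x₀ / (Phi (⟨E, x₀⟩ : Vc K (n + 1)) : ℝ) ≤ B / F := by
    exact div_le_div₀ (by linarith) hB0 hF0 hFt
  have e2 : (mulHeight x₀ / (Phi (⟨E, x₀⟩ : Vc K (n + 1)) : ℝ)) ^ 2 ≤ (B / F) ^ 2 := by
    refine pow_le_pow_left₀ (div_nonneg (mulHeight_pos x₀).le hP0.le) e1 2
  have e3 : (Phi (⟨E, x₀⟩ : Vc K (n + 1)) : ℝ) ^ (n + 1) ≤ (C₂ * B) ^ (n + 1) :=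
    pow_le_pow_left₀ hP0.le hp2 _
  calc C₁ * ε ^ (1 / 2 : ℝ) * (mulHeight x₀ / (Phi (⟨E, x₀⟩ : Vc K (n + 1)) : ℝ)) ^ 2 *
        (Phi (⟨E, x₀⟩ : Vc K (n + 1)) : ℝ) ^ (n + 1)
      ≤ C₁ * ε ^ (1 / 2 : ℝ) * (B / F) ^ 2 * (C₂ * B) ^ (n + 1) := by
        have : 0 ≤ C₁ * ε ^ (1 / 2 : ℝ) := by positivity
        gcongr
    _ = C₁ * C₂ ^ (n + 1) * ε ^ (1 / 2 : ℝ) * (B / F) ^ 2 * B ^ (n + 1) := by
        rw [mul_pow]; ring


omit [NumberField K] in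
private theorem by_classesE {m : ℕ} {X R : Finset (Vc K m)} (hX : Np X)
    (hR : ∀ s ∈ X, ∃ t ∈ R, SimV t s) {N b : ℝ} (hN : (R.card : ℝ) ≤ N) (hb0 : 0 ≤ b)
    (hb : ∀ t ∈ R, ∀ Y ⊆ X, Np Y → (∀ s ∈ Y, SimV t s) → (Y.card : ℝ) ≤ b) :
    (X.card : ℝ) ≤ N * b := by
  classical
  have h2 : X ⊆ R.biUnion (fun t => X.filter (fun s => SimV t s)) := by
    intro s hs
    obtain ⟨t, ht, hts⟩ := hR s hs
    exact Finset.mem_biUnion.2 ⟨t, ht, Finset.mem_filter.2 ⟨hs, hts⟩⟩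
  have h3 : (X.card : ℝ) ≤ ∑ t ∈ R, ((X.filter (fun s => SimV t s)).card : ℝ) := by
    have := (Finset.card_le_card h2).trans Finset.card_biUnion_le
    exact_mod_cast this
  have h4 : ∀ t ∈ R, ((X.filter (fun s => SimV t s)).card : ℝ) ≤ b := by
    intro t ht
    refine hb t ht _ (Finset.filter_subset _ _) ?_ (fun s hs => (Finset.mem_filter.1 hs).2)
    exact fun E x y hx hy z hz h =>
      hX E x y (Finset.mem_filter.1 hx).1 (Finset.mem_filter.1 hy).1 z hz h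
  refine (h3.trans (Finset.sum_le_sum h4)).trans ?_
  rw [Finset.sum_const, nsmul_eq_mul]
  exact mul_le_mul_of_nonneg_right hN hb0

/-- ED3 : `n = r` -/
theorem count_eq {S : Set (HeightOneSpectrum (𝓞 K))} (hSf : S.Finite)
    (L : Fin q → Fin (n + 1) → K) (hL : ∀ v j i, fa v (L j i) ≤ 1)
    (hL2 : ∀ i j, i ≠ j → LinearIndependent K ![L i, L j])
    (hL0 : ∀ j, L j ≠ 0) (hn : 2 ≤ n) (ρ c : ℝ) (hρ : ρ < q + 1 - n) :
    ∃ (δ C : ℝ), 0 < δ ∧ ∀ B : ℝ, 1 ≤ B → ∀ X : Finset (Vc K (n + 1)), Np X →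
      (∀ s ∈ X, Gd n B s ∧ ¬ Rel L s.2 ∧ ∃ _ : NumberField s.1,
        (∀ j, lin (up s.1 L j) s.2 ≠ 0) ∧
        truncCount (above K s.1 S) (up s.1 L) s.2 ≤ ρ * logHeight s.2 + c) →
      (X.card : ℝ) ≤ C * B ^ ((n : ℝ) + 1 - δ) := by
  classical
  rcases hn.eq_or_lt with rfl | hn3
  · exact count_two hSf L hL hL0 le_rfl ρ c hρ
  have hnR : (3 : ℝ) ≤ n := by exact_mod_cast hn3
  obtain ⟨S₀, δ₀, H₀, hS₀, hδ₀, hex⟩ := excess2 hSf L hL0 n ρ c hρ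
  obtain ⟨S₁, δ₁, H₁, hS₁, hδ₁, hex1⟩ := excess hSf L hL2 hL0 n ρ c (by linarith)
  -- parameters
  have hn1 : (0 : ℝ) < (n : ℝ) + 1 := by positivity
  have hn3' : (0 : ℝ) < (n : ℝ) + 3 := by positivity
  obtain ⟨e, he, he1, he2, he3⟩ : ∃ e : ℝ, 0 < e ∧ e * ((n : ℝ) + 1) ≤ 1 / 4 ∧
      e * ((n : ℝ) + 1) ≤ δ₀ / 16 ∧ e * ((n : ℝ) + 3) ≤ δ₁ / 16 := by
    refine ⟨min (1 / 4 / ((n : ℝ) + 1)) (min (δ₀ / 16 / ((n : ℝ) + 1)) (δ₁ / 16 / ((n : ℝ) + 3))),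
      ?_, ?_, ?_, ?_⟩
    · exact lt_min (by positivity) (lt_min (by positivity) (by positivity))
    · exact (mul_le_mul_of_nonneg_right (min_le_left _ _) hn1.le).trans_eq (div_mul_cancel₀ _ hn1.ne')
    · exact (mul_le_mul_of_nonneg_right ((min_le_right _ _).trans (min_le_left _ _))
        hn1.le).trans_eq (div_mul_cancel₀ _ hn1.ne')
    · exact (mul_le_mul_of_nonneg_right ((min_le_right _ _).trans (min_le_right _ _))
        hn3'.le).trans_eq (div_mul_cancel₀ _ hn3'.ne')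
  have he4 : e ≤ 1 := by nlinarith
  obtain ⟨η, hη, hη1, hη2, hη3⟩ : ∃ η : ℝ, 0 < η ∧ η ≤ 1 / 4 ∧ η ≤ δ₀ / 16 ∧ η ≤ δ₁ / 16 :=
    ⟨min (1 / 4) (min (δ₀ / 16) (δ₁ / 16)),
      lt_min (by norm_num) (lt_min (by positivity) (by positivity)), min_le_left _ _,
      (min_le_right _ _).trans (min_le_left _ _), (min_le_right _ _).trans (min_le_right _ _)⟩
  obtain ⟨δ₂, C₂, hδ₂, hC₂, hmid⟩ := mid_total (K := K) n hn3 e he
  obtain ⟨δ, hδ, hd1, hd2, hd3, hd4⟩ : ∃ δ : ℝ, 0 < δ ∧ δ ≤ 1 / 2 ∧ δ ≤ δ₂ ∧ δ ≤ δ₀ / 8 ∧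
      δ ≤ δ₁ / 8 :=
    ⟨min (min (1 / 2) δ₂) (min (δ₀ / 8) (δ₁ / 8)),
      lt_min (lt_min (by norm_num) hδ₂) (lt_min (by positivity) (by positivity)),
      (min_le_left _ _).trans (min_le_left _ _), (min_le_left _ _).trans (min_le_right _ _),
      (min_le_right _ _).trans (min_le_left _ _), (min_le_right _ _).trans (min_le_right _ _)⟩
  obtain ⟨C₃, hC₃, hdeg⟩ := deg_total (K := K) n n (by omega) η hη
  obtain ⟨C₄, hC₄, hbad⟩ := bad_classes S₀ L hL n (by omega) η hη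
  obtain ⟨C₅, hC₅, himp⟩ := imprim_classes (K := K) n (n + 1) (by omega) η hη
  obtain ⟨C₆, hC₆, hcc⟩ := class_count (K := K) n (n + 1)
  obtain ⟨C₇, hC₇, hcl⟩ := classes (K := K) n (n + 1) (by omega) η hη
  obtain ⟨C₈, hC₈, hcb⟩ := class_badE S₁ L hS₁ hL2 hL0 (by omega) n
  obtain ⟨H, hH1, hHH₀, hHH₁⟩ : ∃ H : ℝ, 1 ≤ H ∧ H₀ ≤ H ∧ H₁ ≤ H :=
    ⟨max (max H₀ H₁) 1, le_max_right _ _, (le_max_left _ _).trans (le_max_left _ _),
      (le_max_right _ _).trans (le_max_left _ _)⟩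
  refine ⟨δ, C₃ * (H ^ ((n : ℝ) + 1 + η) + 1) + C₅ * C₆ + C₄ * C₆ + C₂ + C₇ * C₈, hδ, ?_⟩
  intro B hB X hX hall
  have hB0 : 0 < B := by linarith
  have hmain : 0 ≤ B ^ ((n : ℝ) + 1 - δ) := by positivity
  have hNp : ∀ Z : Finset (Vc K (n + 1)), Z ⊆ X → Np Z := fun Z hZ E x y hx hy z hz h =>
    hX E x y (hZ hx) (hZ hy) z hz h
  have hpow1 : ∀ x : ℝ, (B ^ x) ^ (n + 1) = B ^ (x * ((n : ℝ) + 1)) := fun x => by
    rw [← Real.rpow_natCast (B ^ x) (n + 1), ← Real.rpow_mul hB0.le]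
    push_cast
    rfl
  have hBn : B ^ (n + 1) = B ^ ((n : ℝ) + 1) := by
    rw [← Real.rpow_natCast B (n + 1)]
    push_cast
    rfl
  set B1 : ℝ := max H (B ^ (1 / 2 : ℝ)) with hB1
  have hB1H : H ≤ B1 := le_max_left _ _
  have hB1B : B ^ (1 / 2 : ℝ) ≤ B1 := le_max_right _ _
  have hB11 : 1 ≤ B1 := hH1.trans hB1H
  have hB10 : 0 < B1 := by linarith
  set X₀ := X.filter (fun s => Gd n B1 s) with hX₀
  set X' := X.filter (fun s => ¬ Gd n B1 s) with hX'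
  set Xa := X'.filter (fun s => (Phi s : ℝ) ≤ B ^ e) with hXa
  set Xr := X'.filter (fun s => ¬ (Phi s : ℝ) ≤ B ^ e) with hXr
  set Xb := Xr.filter (fun s => (Phi s : ℝ) ≤ B ^ (1 - e)) with hXb
  set Xc := Xr.filter (fun s => ¬ (Phi s : ℝ) ≤ B ^ (1 - e)) with hXc
  set Xi := Xa.filter (fun s => Imp K s.1) with hXi
  set Xj := Xa.filter (fun s => ¬ Imp K s.1) with hXj
  have hsub' : X' ⊆ X := Finset.filter_subset _ _
  have hsuba : Xa ⊆ X' := Finset.filter_subset _ _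
  have hsubr : Xr ⊆ X' := Finset.filter_subset _ _
  have hsubb : Xb ⊆ Xr := Finset.filter_subset _ _
  have hsubc : Xc ⊆ Xr := Finset.filter_subset _ _
  have hsubi : Xi ⊆ Xa := Finset.filter_subset _ _
  have hsubj : Xj ⊆ Xa := Finset.filter_subset _ _
  have hcard : (X.card : ℝ) = X₀.card + Xi.card + Xj.card + Xb.card + Xc.card := by
    have h1 : X₀.card + X'.card = X.card := Finset.card_filter_add_card_filter_not _
    have h2 : Xa.card + Xr.card = X'.card := Finset.card_filter_add_card_filter_not _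
    have h3 : Xb.card + Xc.card = Xr.card := Finset.card_filter_add_card_filter_not _
    have h4 : Xi.card + Xj.card = Xa.card := Finset.card_filter_add_card_filter_not _
    have : X.card = X₀.card + Xi.card + Xj.card + Xb.card + Xc.card := by omega
    rw [this]
    push_cast
    rfl
  have hG : ∀ s ∈ X, Gd n B s := fun s hs => (hall s hs).1
  -- the points of small height
  have hb₀ : (X₀.card : ℝ) ≤ C₃ * (H ^ ((n : ℝ) + 1 + η) + 1) * B ^ ((n : ℝ) + 1 - δ) := by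
    have h1 := hdeg B1 hB11 X₀ (hNp _ (Finset.filter_subset _ _))
      (fun s hs => (Finset.mem_filter.1 hs).2)
    rw [max_self] at h1
    have h2 : B1 ^ ((n : ℝ) + 1 + η) ≤ (H ^ ((n : ℝ) + 1 + η) + 1) * B ^ ((n : ℝ) + 1 - δ) := by
      have hBd : 1 ≤ B ^ ((n : ℝ) + 1 - δ) := Real.one_le_rpow hB (by linarith)
      have hHp : 0 < H ^ ((n : ℝ) + 1 + η) := Real.rpow_pos_of_pos (by linarith) _
      rcases max_choice H (B ^ (1 / 2 : ℝ)) with h | h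
      · rw [hB1, h]
        nlinarith
      · rw [hB1, h, ← Real.rpow_mul hB0.le]
        have h3 : B ^ (1 / 2 * ((n : ℝ) + 1 + η)) ≤ B ^ ((n : ℝ) + 1 - δ) :=
          Real.rpow_le_rpow_of_exponent_le hB (by linarith)
        nlinarith
    calc (X₀.card : ℝ) ≤ C₃ * B1 ^ ((n : ℝ) + 1 + η) := h1
      _ ≤ C₃ * ((H ^ ((n : ℝ) + 1 + η) + 1) * B ^ ((n : ℝ) + 1 - δ)) :=
        mul_le_mul_of_nonneg_left h2 (by linarith)
      _ = _ := by ring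
  -- the other points
  have hht : ∀ s ∈ X', ∃ _ : NumberField s.1, Module.finrank K s.1 = n ∧ s.2 ≠ 0 ∧
      B1 < mulHeight s.2 := by
    intro s hs
    obtain ⟨hs1, hs2⟩ := Finset.mem_filter.1 hs
    obtain ⟨hnf, hfr, hx0, hadj, hht⟩ := hG s hs1
    refine ⟨hnf, hfr, hx0, ?_⟩
    by_contra hcon
    push Not at hcon
    exact hs2 ⟨hnf, hfr, hx0, hadj, hcon⟩
  have hdec : ∀ d : ℝ, 0 < d → ∀ h : ℝ, B1 < h → h ^ (-d) ≤ B ^ (-(d / 2)) := by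
    intro d hd h hh
    calc h ^ (-d) ≤ (B ^ (1 / 2 : ℝ)) ^ (-d) :=
          Real.rpow_le_rpow_of_nonpos (by positivity) (hB1B.trans hh.le) (by linarith)
      _ = B ^ (-(d / 2)) := by
          rw [← Real.rpow_mul hB0.le]
          congr 1
          ring
  have hε : ∀ d : ℝ, 0 < d → 0 < B ^ (-(d / 2)) ∧ B ^ (-(d / 2)) ≤ 1 := fun d hd =>
    ⟨Real.rpow_pos_of_pos hB0 _, Real.rpow_le_one_of_one_le_of_nonpos hB (by linarith)⟩
  have hεp : ∀ d : ℝ, (B ^ (-(d / 2))) ^ (1 / 2 : ℝ) = B ^ (-(d / 4)) := fun d => by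
    rw [← Real.rpow_mul hB0.le]
    congr 1
    ring
  have hbadX : ∀ s ∈ X', ∃ _ : NumberField s.1, (∀ j, lin (up s.1 L j) s.2 ≠ 0) ∧
      Bad S₁ L (B ^ (-(δ₁ / 2))) s.2 := by
    intro s hs
    obtain ⟨hnf0, hfr, hx0, hgt⟩ := hht s hs
    obtain ⟨-, -, hnf, hlin, htr⟩ := hall s (hsub' hs)
    refine ⟨hnf, hlin, bad_monoE (hdec δ₁ hδ₁ _ hgt) ?_⟩
    exact hex1 s.1 hfr s.2 hx0 hlin ((hHH₁.trans hB1H).trans hgt.le) htr
  have hbadG : ∀ s ∈ X', ∃ _ : NumberField s.1, (∀ j, lin (up s.1 L j) s.2 ≠ 0) ∧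
      (BadG S₀ L (B ^ (-(δ₀ / 2))) s.2 ∨ Imp K s.1) := by
    intro s hs
    obtain ⟨hnf0, hfr, hx0, hgt⟩ := hht s hs
    obtain ⟨-, hrel, hnf, hlin, htr⟩ := hall s (hsub' hs)
    refine ⟨hnf, hlin, ?_⟩
    rcases hex s.1 hfr s.2 hx0 hlin ((hHH₀.trans hB1H).trans hgt.le) htr with h | h | h
    · exact Or.inl (badG_monoE (hdec δ₀ hδ₀ _ hgt) h)
    · exact Or.inr h
    · exact absurd h hrel
  have hBe : 0 ≤ B ^ (e * ((n : ℝ) + 1)) := by positivity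
  have hsmall : ∀ t ∈ Xa, ∀ Y : Finset (Vc K (n + 1)), Np Y → (∀ s ∈ Y, SimV t s) →
      (Y.card : ℝ) ≤ C₆ * B ^ (e * ((n : ℝ) + 1)) := by
    intro t ht Y hY hsim
    refine (hcc B t (hG t (hsub' (hsuba ht))) Y hY hsim).trans ?_
    rw [← hpow1]
    exact mul_le_mul_of_nonneg_left
      (pow_le_pow_left₀ (Nat.cast_nonneg _) (Finset.mem_filter.1 ht).2 _) (by linarith)
  -- fields with an intermediate field
  have hbi : (Xi.card : ℝ) ≤ C₅ * C₆ * B ^ ((n : ℝ) + 1 - δ) := by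
    obtain ⟨R, hRX, hRs, hRc⟩ := himp B hB Xi (fun s hs =>
      ⟨hG s (hsub' (hsuba (hsubi hs))), (Finset.mem_filter.1 hs).2⟩)
    have h1 := by_classesE (hNp Xi ((hsubi.trans hsuba).trans hsub')) hRs hRc
      (b := C₆ * B ^ (e * ((n : ℝ) + 1))) (mul_nonneg (by linarith) hBe)
      (fun t ht Y _ hY hsim => hsmall t (hsubi (hRX ht)) Y hY hsim)
    refine h1.trans ?_
    calc C₅ * B ^ ((n : ℝ) + η) * (C₆ * B ^ (e * ((n : ℝ) + 1)))
        = C₅ * C₆ * B ^ ((n : ℝ) + η + e * ((n : ℝ) + 1)) := by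
          rw [Real.rpow_add hB0 ((n : ℝ) + η)]; ring
      _ ≤ _ := mul_le_mul_of_nonneg_left (Real.rpow_le_rpow_of_exponent_le hB (by linarith))
          (mul_nonneg (by linarith) (by linarith))
  -- bad points of small boxes
  have hbj : (Xj.card : ℝ) ≤ C₄ * C₆ * B ^ ((n : ℝ) + 1 - δ) := by
    obtain ⟨R, hRX, hRs, hRc⟩ := hbad B hB (B ^ (-(δ₀ / 2))) (hε δ₀ hδ₀).1 (hε δ₀ hδ₀).2 Xj
      (fun s hs => by
        have hsX' : s ∈ X' := hsuba (hsubj hs)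
        obtain ⟨hnf, hlin, h⟩ := hbadG s hsX'
        exact ⟨hG s (hsub' hsX'), hnf, hlin, h.resolve_right (Finset.mem_filter.1 hs).2⟩)
    have h1 := by_classesE (hNp Xj ((hsubj.trans hsuba).trans hsub')) hRs hRc
      (b := C₆ * B ^ (e * ((n : ℝ) + 1))) (mul_nonneg (by linarith) hBe)
      (fun t ht Y _ hY hsim => hsmall t (hsubj (hRX ht)) Y hY hsim)
    refine h1.trans ?_
    rw [hεp, hBn]
    calc C₄ * B ^ η * (B ^ (-(δ₀ / 4)) * B ^ ((n : ℝ) + 1)) * (C₆ * B ^ (e * ((n : ℝ) + 1)))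
        = C₄ * C₆ * B ^ (η + -(δ₀ / 4) + ((n : ℝ) + 1) + e * ((n : ℝ) + 1)) := by
          rw [Real.rpow_add hB0 (η + -(δ₀ / 4) + ((n : ℝ) + 1)),
            Real.rpow_add hB0 (η + -(δ₀ / 4)), Real.rpow_add hB0 η]; ring
      _ ≤ _ := mul_le_mul_of_nonneg_left (Real.rpow_le_rpow_of_exponent_le hB (by linarith))
          (mul_nonneg (by linarith) (by linarith))
  -- the middle range
  have hbb : (Xb.card : ℝ) ≤ C₂ * B ^ ((n : ℝ) + 1 - δ) := by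
    have h1 := hmid B hB Xb (hNp Xb ((hsubb.trans hsubr).trans hsub')) (fun s hs => by
      obtain ⟨hs1, hs2⟩ := Finset.mem_filter.1 hs
      have h2 := (Finset.mem_filter.1 hs1).2
      push Not at h2
      exact ⟨hG s (hsub' (hsubr hs1)), h2.le, hs2⟩)
    refine h1.trans (mul_le_mul_of_nonneg_left ?_ (by linarith))
    exact Real.rpow_le_rpow_of_exponent_le hB (by linarith)
  -- large boxes
  have hbc : (Xc.card : ℝ) ≤ C₇ * C₈ * B ^ ((n : ℝ) + 1 - δ) := by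
    have hF1 : 1 ≤ B ^ (1 - e) := Real.one_le_rpow hB (by linarith)
    have hBF : B / B ^ (1 - e) = B ^ e := by
      rw [Real.rpow_sub hB0, Real.rpow_one]
      field_simp
    obtain ⟨R, hRX, hRs, hRc⟩ := hcl B hB Xc
      (fun s hs => hG s (hsub' (hsubr (hsubc hs))))
    have hRF : ∀ t ∈ R, B ^ (1 - e) ≤ Phi t := by
      intro t ht
      have := (Finset.mem_filter.1 (hRX ht)).2
      push Not at this
      exact this.le
    have h0 := hRc (B ^ (1 - e)) hF1 R subset_rfl hRF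
    have hb0 : 0 ≤ C₈ * (B ^ (-(δ₁ / 2))) ^ (1 / 2 : ℝ) * (B / B ^ (1 - e)) ^ 2 * B ^ (n + 1) := by
      positivity
    have h1 := by_classesE (hNp Xc ((hsubc.trans hsubr).trans hsub')) hRs h0 hb0
      (fun t ht Y hYX hY hsim => by
        have htX : t ∈ X := hsub' (hsubr (hsubc (hRX ht)))
        refine hcb B (B ^ (1 - e)) (B ^ (-(δ₁ / 2))) hB hF1 (hε δ₁ hδ₁).1 (hε δ₁ hδ₁).2 t
          (hG t htX) (hRF t ht) Y hY hsim (fun s hs => hbadX s (hsubr (hsubc (hYX hs)))))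
    refine h1.trans ?_
    rw [hεp, hBn, hBF, hpow1, ← Real.rpow_natCast (B ^ e) 2, ← Real.rpow_mul hB0.le]
    calc C₇ * B ^ η * B ^ (e * ((n : ℝ) + 1)) *
          (C₈ * B ^ (-(δ₁ / 4)) * B ^ (e * ((2 : ℕ) : ℝ)) * B ^ ((n : ℝ) + 1))
        = C₇ * C₈ * B ^ (η + e * ((n : ℝ) + 1) + -(δ₁ / 4) + e * ((2 : ℕ) : ℝ) +
            ((n : ℝ) + 1)) := by
          rw [Real.rpow_add hB0 (η + e * ((n : ℝ) + 1) + -(δ₁ / 4) + e * ((2 : ℕ) : ℝ)),
            Real.rpow_add hB0 (η + e * ((n : ℝ) + 1) + -(δ₁ / 4)),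
            Real.rpow_add hB0 (η + e * ((n : ℝ) + 1)), Real.rpow_add hB0 η]; ring
      _ ≤ _ := by
          refine mul_le_mul_of_nonneg_left (Real.rpow_le_rpow_of_exponent_le hB ?_)
            (mul_nonneg (by linarith) (by linarith))
          push_cast
          linarith
  rw [hcard]
  linarith

end bad

end Pool.Agent.Lib.MP_44a246_ntAL
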