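import Pool.Agent.Lib.MP_44a246_ntAL.FDefs
import Pool.Agent.Lib.MP_44a246_ntNF.Both
import Pool.Agent.Lib.MP_44a246_ntNU.NU6c
import Pool.Agent.Lib.MP_44a246_nt.HQ.Final2

set_option autoImplicit false

open NumberField IsDedekindDomain Height MvPolynomial
open Pool.Agent.Lib.MP_4d5ce1_nt (fa nv ordv)
open Pool.Agent.Lib.MP_44a246_ntNF
open Pool.Agent.Lib.MP_44a246_ntNU

namespace Pool.Agent.Lib.MP_44a246_ntAL

universe u

section
variable {K : Type u} [Field K] [NumberField K] {n q : ℕ}

/-- FA3a : rational points with small truncated counting function -/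
theorem rat_count (hn : 2 ≤ n) (hq : n + 1 ≤ q) {S : Set (HeightOneSpectrum (𝓞 K))} (hS : S.Finite)
    (L : Fin q → Fin (n + 1) → K)
    (hL : ∀ J : Fin (n + 1) → Fin q, Function.Injective J → LinearIndependent K fun s => L (J s))
    (ρ c η : ℝ) (hρ : ρ ≤ q) (hη : 0 < η) :
    ∃ C : ℝ, ∀ B : ℝ, 1 ≤ B → ∀ X : Finset (Pj K n), (∀ s ∈ X, Vio S L 1 ρ c B s) →
      (X.card : ℝ) ≤ C * B ^ ((n : ℝ) + 1 - min 1 (q - ρ) + η) := by
  classical
  let F : IntermediateField K (AlgebraicClosure K) := ⊥
  have hfin : FiniteDimensional K F := by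
    change FiniteDimensional K (⊥ : IntermediateField K (AlgebraicClosure K))
    infer_instance
  have hchar : CharZero F := charZero_of_injective_algebraMap (algebraMap K F).injective
  have hNF : NumberField F := by
    have : FiniteDimensional ℚ F := FiniteDimensional.trans ℚ K F
    exact ⟨⟩
  obtain ⟨cc, hcc, S1, _, hS1⟩ := exists_good hq L hL ∅
  obtain ⟨S', hS', _⟩ := above_finset F S1
  have hLF : ∀ J : Fin (n + 1) → Fin q, Function.Injective J →
      LinearIndependent F (fun i => up F L (J i)) :=
    (good_up hq hL hcc hS1 S' hS').2.2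
  have hfinS : (above K F S).Finite := by
    obtain ⟨S'', h1, _⟩ := above_finset F hS.toFinset
    have h2 : (S'' : Set (HeightOneSpectrum (𝓞 F))) = above K F S := by
      rw [h1, hS.coe_toFinset]
    rw [← h2]
    exact S''.finite_toSet
  obtain ⟨C, h⟩ := Pool.Agent.Lib.MP_44a246_nt.HQ.upper_count F n q hn hq (up F L) hLF
    (above K F S) hfinS (q - ρ) c η (by linarith) hη
  refine ⟨C, ?_⟩
  intro B hB X hX
  have hfst : ∀ s ∈ X, s.1 = F := by
    intro s hs
    obtain ⟨h1, h2, _⟩ := hX s hs
    have h3 : FiniteDimensional K s.1 := by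
      have : FiniteDimensional ℚ s.1 := h1.to_finiteDimensional
      exact FiniteDimensional.right ℚ K s.1
    have h4 : Module.finrank K s.1 = 1 :=
      le_antisymm h2 (Nat.succ_le_of_lt Module.finrank_pos)
    exact IntermediateField.finrank_eq_one_iff.mp h4
  have hrepl : ∀ P : Projectivization F (Fin (n + 1) → F), P.mulHeight = mulHeight P.rep ∧
      P.logHeight = logHeight P.rep := by
    intro P
    constructor
    · conv_lhs => rw [← P.mk_rep, Projectivization.mulHeight_mk]
    · conv_lhs => rw [← P.mk_rep, Projectivization.logHeight_mk]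
  have hinj : Function.Injective (fun P : Projectivization F (Fin (n + 1) → F) =>
      (⟨F, P⟩ : Pj K n)) := fun P Q h => by
    simpa using h
  obtain ⟨XF, hXF⟩ : ∃ XF : Finset (Projectivization F (Fin (n + 1) → F)), XF =
    X.preimage (fun P => (⟨F, P⟩ : Pj K n)) hinj.injOn := ⟨_, rfl⟩
  have himg : XF.image (fun P => (⟨F, P⟩ : Pj K n)) = X := by
    ext s
    rw [Finset.mem_image]
    constructor
    · rintro ⟨P, hP, rfl⟩
      rw [hXF, Finset.mem_preimage] at hP
      exact hP
    · intro h1
      have h2 := hfst s h1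
      obtain ⟨F', P'⟩ := s
      simp only at h2
      subst h2
      exact ⟨P', by rw [hXF, Finset.mem_preimage]; exact h1, rfl⟩
  have hcard : X.card = XF.card := by
    conv_lhs => rw [← himg]
    rw [Finset.card_image_of_injective _ hinj]
  have hrepinj : Function.Injective (fun P : Projectivization F (Fin (n + 1) → F) => P.rep) := by
    intro P Q hPQ
    rw [← P.mk_rep, ← Q.mk_rep]
    exact (Projectivization.mk_eq_mk_iff' _ _ _ _ _).2 ⟨1, by rw [one_smul]; exact hPQ.symm⟩
  have key := h B hB (XF.image fun P => P.rep) (by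
      intro x hx l
      obtain ⟨P, hP, rfl⟩ := Finset.mem_image.1 hx
      rw [hXF, Finset.mem_preimage] at hP
      obtain ⟨_, _, _, h4, _, _⟩ := hX _ hP
      exact h4 l)
    (by
      intro x hx y hy hxy
      obtain ⟨P, _, rfl⟩ := Finset.mem_image.1 hx
      obtain ⟨Q, _, rfl⟩ := Finset.mem_image.1 hy
      rw [LinearIndependent.pair_iff]
      intro a b hab
      have hb : b = 0 := by
        by_contra hb
        apply hxy
        have h5 : P = Q := by
          rw [← P.mk_rep, ← Q.mk_rep]
          refine (Projectivization.mk_eq_mk_iff' _ _ _ _ _).2 ⟨-(a⁻¹ * b), ?_⟩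
          have ha : a ≠ 0 := by
            intro ha
            rw [ha, zero_smul, zero_add] at hab
            exact Q.rep_nonzero ((smul_eq_zero.1 hab).resolve_left hb)
          have h6 : a • P.rep = -(b • Q.rep) := eq_neg_of_add_eq_zero_left hab
          have h7 : P.rep = a⁻¹ • a • P.rep := by
            rw [smul_smul, inv_mul_cancel₀ ha, one_smul]
          rw [h7, h6, smul_neg, smul_smul, neg_smul]
        rw [h5]
      rw [hb, zero_smul, add_zero] at hab
      exact ⟨(smul_eq_zero.1 hab).resolve_right P.rep_nonzero, hb⟩)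
    (by
      intro x hx
      obtain ⟨P, hP, rfl⟩ := Finset.mem_image.1 hx
      rw [hXF, Finset.mem_preimage] at hP
      obtain ⟨_, _, _, _, h5, _⟩ := hX _ hP
      rw [← (hrepl P).1]
      exact h5)
    (by
      intro x hx
      obtain ⟨P, hP, rfl⟩ := Finset.mem_image.1 hx
      rw [hXF, Finset.mem_preimage] at hP
      obtain ⟨_, _, _, _, _, h6⟩ := hX _ hP
      have h7 : truncCount (above K F S) (up F L) P.rep ≤ ρ * P.logHeight + c := h6
      rw [truncCount_eq, ← (hrepl P).2]
      have h8 : (q : ℝ) - (q - ρ) = ρ := by ring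
      rw [h8]
      exact h7)
  rw [Finset.card_image_of_injective _ hrepinj] at key
  rw [hcard]
  exact key

end

end Pool.Agent.Lib.MP_44a246_ntAL
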