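import Pool.Agent.Lib.MP_44a246_ntAL.FDefs
import Pool.Agent.Lib.MP_44a246_ntAL.AL19
import Pool.Agent.Lib.MP_44a246_ntAL.FA0
import Pool.Agent.Lib.MP_44a246_ntAL.FA3a

/-!
# Points of degree at most `r < n`
-/

set_option autoImplicit false

open NumberField IsDedekindDomain Height
open Pool.Agent.Lib.MP_4d5ce1_nt (fa nv ordv)
open Pool.Agent.Lib.MP_44a246_ntNF
open Pool.Agent.Lib.MP_44a246_ntNU

namespace Pool.Agent.Lib.MP_44a246_ntAL

universe u

namespace FA3b

variable {K : Type u} [Field K] [NumberField K] {n q : ℕ}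

/-- any two of the forms are independent -/
private theorem pair_indep (hn : 1 ≤ n) (hq : n + 1 ≤ q) (L : Fin q → Fin (n + 1) → K)
    (hL : ∀ J : Fin (n + 1) → Fin q, Function.Injective J → LinearIndependent K fun s => L (J s))
    (i j : Fin q) (hij : i ≠ j) : LinearIndependent K ![L i, L j] := by
  classical
  obtain ⟨m, rfl⟩ : ∃ m, n = m + 1 := ⟨n - 1, by omega⟩
  -- an injective family that starts with `i`, `j`
  obtain ⟨J, hJ, h0, h1⟩ : ∃ J : Fin (m + 1 + 1) → Fin q, Function.Injective J ∧ J 0 = i ∧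
      J 1 = j := by
    let c : Fin (m + 1 + 1) → Fin q := Fin.castLE hq
    have hc : Function.Injective c := Fin.castLE_injective hq
    let e1 : Equiv.Perm (Fin q) := Equiv.swap (c 0) i
    have he1 : e1 (c 0) = i := Equiv.swap_apply_left _ _
    let e2 : Equiv.Perm (Fin q) := Equiv.swap (e1 (c 1)) j
    have h01 : c 0 ≠ c 1 := fun h => by
      have := hc h
      exact absurd this (by simp)
    refine ⟨fun s => e2 (e1 (c s)), ?_, ?_, ?_⟩
    · exact e2.injective.comp (e1.injective.comp hc)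
    · show e2 (e1 (c 0)) = i
      rw [he1]
      refine Equiv.swap_apply_of_ne_of_ne ?_ hij
      intro h
      apply h01
      apply e1.injective
      rw [he1]
      exact h
    · exact Equiv.swap_apply_left _ _
  have h2 := (hL J hJ).comp (![0, 1] : Fin 2 → Fin (m + 1 + 1)) (by
    intro x y hxy
    fin_cases x <;> fin_cases y <;> simp_all)
  have h4 : ((fun s => L (J s)) ∘ (![0, 1] : Fin 2 → Fin (m + 1 + 1))) = ![L i, L j] := by
    funext x
    fin_cases x
    · simp [h0]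
    · simp [h1]
  rw [← h4]
  exact h2

/-- the forms do not vanish -/
private theorem ne_zero (hn : 1 ≤ n) (hq : n + 1 ≤ q) (L : Fin q → Fin (n + 1) → K)
    (hL : ∀ J : Fin (n + 1) → Fin q, Function.Injective J → LinearIndependent K fun s => L (J s))
    (j : Fin q) : L j ≠ 0 := by
  obtain ⟨i, hi⟩ : ∃ i : Fin q, i ≠ j := by
    haveI : Nontrivial (Fin q) := by
      rw [← Fintype.one_lt_card_iff_nontrivial, Fintype.card_fin]
      omega
    exact exists_ne j
  have h := (pair_indep hn hq L hL i j hi).ne_zero 1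
  simpa using h

/-- points of degree exactly `r` -/
private theorem exact_deg (hq : n + 1 ≤ q) {S : Set (HeightOneSpectrum (𝓞 K))} (hS : S.Finite)
    (L : Fin q → Fin (n + 1) → K)
    (hL : ∀ J : Fin (n + 1) → Fin q, Function.Injective J → LinearIndependent K fun s => L (J s))
    (r : ℕ) (hr : 1 ≤ r) (hn : r < n) (ρ c : ℝ) (hρ : ρ < q) :
    ∃ (δ C : ℝ), 0 < δ ∧ 0 ≤ C ∧ ∀ B : ℝ, 1 ≤ B → ∀ X : Finset (Pj K n),
      (∀ s ∈ X, Vio S L r ρ c B s ∧ Module.finrank K s.1 = r) →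
      (X.card : ℝ) ≤ C * B ^ ((n : ℝ) + 1 - δ) := by
  classical
  rcases Nat.lt_or_ge r 2 with hr2 | hr2
  · have hr1 : r = 1 := by omega
    subst hr1
    have hm : 0 < min 1 ((q : ℝ) - ρ) := lt_min one_pos (by linarith)
    obtain ⟨C, hC⟩ := rat_count (by omega) hq hS L hL ρ c (min 1 ((q : ℝ) - ρ) / 2) hρ.le
      (by linarith)
    refine ⟨min 1 ((q : ℝ) - ρ) / 2, |C|, by linarith, abs_nonneg C, ?_⟩
    intro B hB X hX
    have h1 := hC B hB X fun s hs => (hX s hs).1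
    have h2 : (n : ℝ) + 1 - min 1 ((q : ℝ) - ρ) + min 1 ((q : ℝ) - ρ) / 2 =
        (n : ℝ) + 1 - min 1 ((q : ℝ) - ρ) / 2 := by ring
    rw [h2] at h1
    exact h1.trans (mul_le_mul_of_nonneg_right (le_abs_self C) (by positivity))
  · obtain ⟨δ, C, hδ, hC⟩ := count_gt hS L
      (fun i j hij => pair_indep (by omega) hq L hL i j hij)
      (ne_zero (by omega) hq L hL) r hr2 hn ρ c hρ
    refine ⟨δ, |C|, hδ, abs_nonneg C, ?_⟩
    intro B hB X hX
    obtain ⟨Y, hYX, hNp, hY⟩ := to_vc X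
    have h1 : (Y.card : ℝ) ≤ C * B ^ ((n : ℝ) + 1 - δ) := by
      refine hC B hB Y hNp ?_
      intro t ht
      obtain ⟨s, hs, rfl⟩ := hY t ht
      obtain ⟨⟨hNF, hfr, hgen, hlin, hht, htr⟩, hdeg⟩ := hX s hs
      have hrep : s.2.rep ≠ 0 := s.2.rep_nonzero
      have hht' : mulHeight s.2.rep ≤ B := by
        rw [← s.2.mk_rep, Projectivization.mulHeight_mk] at hht
        exact hht
      have hlog : s.2.logHeight = logHeight s.2.rep := by
        conv_lhs => rw [← s.2.mk_rep]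
        rw [Projectivization.logHeight_mk]
      refine ⟨⟨hNF, hdeg, hrep, hgen, hht'⟩, hNF, hlin, ?_⟩
      rw [← hlog]
      exact htr
    rw [← hYX]
    exact h1.trans (mul_le_mul_of_nonneg_right (le_abs_self C) (by positivity))

end FA3b

open FA3b in
/-- FA3b : points of degree at most `r < n` -/
theorem count_gt_all {K : Type u} [Field K] [NumberField K] {n q : ℕ}
    (hq : n + 1 ≤ q) {S : Set (HeightOneSpectrum (𝓞 K))} (hS : S.Finite)
    (L : Fin q → Fin (n + 1) → K)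
    (hL : ∀ J : Fin (n + 1) → Fin q, Function.Injective J → LinearIndependent K fun s => L (J s))
    (r : ℕ) (hr : 1 ≤ r) (hn : r < n) (ρ c : ℝ) (hρ : ρ < q) :
    ∃ (δ C : ℝ), 0 < δ ∧ ∀ B : ℝ, 1 ≤ B → ∀ X : Finset (Pj K n), (∀ s ∈ X, Vio S L r ρ c B s) →
      (X.card : ℝ) ≤ C * B ^ ((n : ℝ) + 1 - δ) := by
  classical
  clear hr
  induction r with
  | zero =>
    refine ⟨1, 0, one_pos, ?_⟩
    intro B hB X hX
    have : X = ∅ := by
      rw [Finset.eq_empty_iff_forall_notMem]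
      intro s hs
      obtain ⟨hNF, hfr, -⟩ := hX s hs
      haveI : Module.Finite K s.1 := Module.Finite.right ℚ K s.1
      have hpos : 1 ≤ Module.finrank K s.1 := Module.finrank_pos
      omega
    rw [this]
    simp
  | succ r ih =>
    obtain ⟨δ₁, C₁, hδ₁, h₁⟩ := ih (by omega)
    obtain ⟨δ₂, C₂, hδ₂, hC₂, h₂⟩ := exact_deg hq hS L hL (r + 1) (by omega) hn ρ c hρ
    refine ⟨min δ₁ δ₂, |C₁| + C₂, lt_min hδ₁ hδ₂, ?_⟩
    intro B hB X hX
    have e₁ := h₁ B hB (X.filter fun s => Module.finrank K s.1 ≤ r) (by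
      intro s hs
      obtain ⟨hs1, hs2⟩ := Finset.mem_filter.mp hs
      obtain ⟨hNF, hfr, hrest⟩ := hX s hs1
      exact ⟨hNF, hs2, hrest⟩)
    have e₂ := h₂ B hB (X.filter fun s => ¬ Module.finrank K s.1 ≤ r) (by
      intro s hs
      obtain ⟨hs1, hs2⟩ := Finset.mem_filter.mp hs
      refine ⟨hX s hs1, ?_⟩
      obtain ⟨hNF, hfr, hrest⟩ := hX s hs1
      omega)
    have hsum : X.card = (X.filter fun s => Module.finrank K s.1 ≤ r).card +
        (X.filter fun s => ¬ Module.finrank K s.1 ≤ r).card :=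
      (Finset.card_filter_add_card_filter_not _).symm
    have m₁ : B ^ ((n : ℝ) + 1 - δ₁) ≤ B ^ ((n : ℝ) + 1 - min δ₁ δ₂) :=
      Real.rpow_le_rpow_of_exponent_le hB (by linarith [min_le_left δ₁ δ₂])
    have m₂ : B ^ ((n : ℝ) + 1 - δ₂) ≤ B ^ ((n : ℝ) + 1 - min δ₁ δ₂) :=
      Real.rpow_le_rpow_of_exponent_le hB (by linarith [min_le_right δ₁ δ₂])
    have k₁ : C₁ * B ^ ((n : ℝ) + 1 - δ₁) ≤ |C₁| * B ^ ((n : ℝ) + 1 - min δ₁ δ₂) :=
      (mul_le_mul_of_nonneg_right (le_abs_self C₁) (by positivity)).trans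
        (mul_le_mul_of_nonneg_left m₁ (abs_nonneg C₁))
    have k₂ : C₂ * B ^ ((n : ℝ) + 1 - δ₂) ≤ C₂ * B ^ ((n : ℝ) + 1 - min δ₁ δ₂) :=
      mul_le_mul_of_nonneg_left m₂ hC₂
    rw [hsum]
    push_cast
    rw [add_mul]
    exact add_le_add (e₁.trans k₁) (e₂.trans k₂)

end Pool.Agent.Lib.MP_44a246_ntAL
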