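import Pool.Agent.Lib.MP_44a246_ntAL.GenDefs

/-!
# NC2: the exceptional forms
-/

set_option autoImplicit false

open NumberField IsDedekindDomain Height MvPolynomial
open Pool.Agent.Lib.MP_4d5ce1_nt (fa nv ordv)
open Pool.Agent.Lib.MP_44a246_ntNF
open Pool.Agent.Lib.MP_44a246_ntNU

namespace Pool.Agent.Lib.MP_44a246_ntAL

universe u

namespace NC2

variable {K : Type u} [Field K] {n q : ℕ}

/-- The form as a polynomial. -/
noncomputable def Pf (a : Fin (n + 1) → K) : MvPolynomial (Fin (n + 1)) K := ∑ k, C (a k) * X k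

theorem Pf_hom (a : Fin (n + 1) → K) : (Pf a).IsHomogeneous 1 := by
  unfold Pf
  apply IsHomogeneous.sum
  intro i _
  simpa using (isHomogeneous_C (Fin (n + 1)) (a i)).mul (isHomogeneous_X K i)

/-- The matrix. -/
noncomputable def Mt (L : Fin q → Fin (n + 1) → K) (i b : Fin n → Fin q) (j₀ : Fin q) :
    Matrix (Fin (n + 1)) (Fin (n + 1)) (MvPolynomial (Fin (n + 1)) K) :=
  Matrix.of (Fin.snoc (α := fun _ => Fin (n + 1) → MvPolynomial (Fin (n + 1)) K)
    (fun s k => C (L (i s) k) * Pf (L (b s)) - C (L (b s) k) * Pf (L (i s)))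
    (fun k => C (L j₀ k)))

theorem Mt_castSucc (L : Fin q → Fin (n + 1) → K) (i b : Fin n → Fin q) (j₀ : Fin q)
    (s : Fin n) (k : Fin (n + 1)) : Mt L i b j₀ s.castSucc k =
      C (L (i s) k) * Pf (L (b s)) - C (L (b s) k) * Pf (L (i s)) := by
  simp [Mt]

theorem Mt_last (L : Fin q → Fin (n + 1) → K) (i b : Fin n → Fin q) (j₀ : Fin q)
    (k : Fin (n + 1)) : Mt L i b j₀ (Fin.last n) k = C (L j₀ k) := by
  simp [Mt]

theorem det_hom (L : Fin q → Fin (n + 1) → K) (i b : Fin n → Fin q) (j₀ : Fin q) :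
    (Mt L i b j₀).det.IsHomogeneous n := by
  rw [← Matrix.det_transpose, Matrix.det_apply]
  apply IsHomogeneous.sum
  intro σ _
  have h : (∏ x, (Mt L i b j₀).transpose (σ x) x).IsHomogeneous n := by
    rw [Fin.prod_univ_castSucc]
    have h1 : (∏ x : Fin n, (Mt L i b j₀).transpose (σ x.castSucc) x.castSucc).IsHomogeneous
        (∑ _x : Fin n, 1) := by
      apply IsHomogeneous.prod
      intro s _
      rw [Matrix.transpose_apply, Mt_castSucc]
      refine IsHomogeneous.sub ?_ ?_
      · simpa using (isHomogeneous_C (Fin (n + 1)) _).mul (Pf_hom (L (b s)))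
      · simpa using (isHomogeneous_C (Fin (n + 1)) _).mul (Pf_hom (L (i s)))
    have h2 : ((Mt L i b j₀).transpose (σ (Fin.last n)) (Fin.last n)).IsHomogeneous 0 := by
      rw [Matrix.transpose_apply, Mt_last]
      exact isHomogeneous_C _ _
    simpa using h1.mul h2
  rcases Int.units_eq_one_or (Equiv.Perm.sign σ) with h3 | h3
  · rw [h3, one_smul]; exact h
  · rw [h3, Units.neg_smul, one_smul]; exact h.neg

theorem aeval_Pf {E : Type*} [Field E] [Algebra K E] (a : Fin (n + 1) → K)
    (y : Fin (n + 1) → E) : aeval y (Pf a) = ∑ k, algebraMap K E (a k) * y k := by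
  simp [Pf, map_sum]

theorem aeval_det {E : Type*} [Field E] [Algebra K E] (L : Fin q → Fin (n + 1) → K)
    (i b : Fin n → Fin q) (j₀ : Fin q) (y : Fin (n + 1) → E) (N : Matrix (Fin (n + 1)) (Fin (n + 1)) K)
    (c : Fin n → E)
    (h1 : ∀ s k, algebraMap K E (L (i s) k) * (∑ k, algebraMap K E (L (b s) k) * y k) -
      algebraMap K E (L (b s) k) * (∑ k, algebraMap K E (L (i s) k) * y k) =
        c s * algebraMap K E (N s.castSucc k))
    (h2 : ∀ k, N (Fin.last n) k = L j₀ k) :
    aeval y (Mt L i b j₀).det = (∏ s, c s) * algebraMap K E N.det := by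
  have e1 : aeval y (Mt L i b j₀).det = ((Mt L i b j₀).map (aeval y)).det := by
    rw [AlgHom.map_det]; rfl
  have e2 : algebraMap K E N.det = (N.map (algebraMap K E)).det := by
    rw [RingHom.map_det]; rfl
  have e3 : (Mt L i b j₀).map (aeval y) = Matrix.of (fun s k => (Fin.snoc (α := fun _ => E) c 1) s *
      (N.map (algebraMap K E)) s k) := by
    ext s k
    rw [Matrix.map_apply, Matrix.of_apply, Matrix.map_apply]
    refine Fin.lastCases ?_ (fun s => ?_) s
    · rw [Mt_last, Fin.snoc_last, h2]; simp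
    · rw [Mt_castSucc, Fin.snoc_castSucc, ← h1]
      simp only [map_sub, map_mul, aeval_C, aeval_Pf]
  rw [e1, e2, e3, Matrix.det_mul_column, Fin.prod_univ_castSucc]
  simp

/-- the values of the forms -/
theorem lin_up {E : Type*} [Field E] [Algebra K E] (L : Fin q → Fin (n + 1) → K) (j : Fin q)
    (y : Fin (n + 1) → E) : lin (up E L j) y = ∑ k, algebraMap K E (L j k) * y k := rfl

theorem exists_zero (L : Fin q → Fin (n + 1) → K) (i : Fin n → Fin q) :
    ∃ x : Fin (n + 1) → K, x ≠ 0 ∧ ∀ s, ∑ k, L (i s) k * x k = 0 := by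
  have h := LinearMap.ker_ne_bot_of_finrank_lt
    (f := (Matrix.of fun s k => L (i s) k : Matrix (Fin n) (Fin (n + 1)) K).mulVecLin) (by simp)
  obtain ⟨x, hx, hx0⟩ := (Submodule.ne_bot_iff _).1 h
  refine ⟨x, hx0, fun s => ?_⟩
  have := congrFun (LinearMap.mem_ker.1 hx) s
  simpa [Matrix.mulVec, dotProduct] using this

theorem det_ne {L : Fin q → Fin (n + 1) → K}
    (hL : ∀ J : Fin (n + 1) → Fin q, Function.Injective J → LinearIndependent K fun s => L (J s))
    {i : Fin n → Fin q} (hi : Function.Injective i) {j₀ : Fin q} (hj : ∀ t, j₀ ≠ i t) :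
    (Matrix.of (fun s k => L (Fin.snoc (α := fun _ => Fin q) i j₀ s) k) :
      Matrix (Fin (n + 1)) (Fin (n + 1)) K).det ≠ 0 := by
  have hinj : Function.Injective (Fin.snoc (α := fun _ => Fin q) i j₀ : Fin (n + 1) → Fin q) := by
    intro s t
    refine Fin.lastCases ?_ (fun s => ?_) s <;> refine Fin.lastCases ?_ (fun t => ?_) t
    · intro _; rfl
    · intro h; simp only [Fin.snoc_last, Fin.snoc_castSucc] at h; exact absurd h (hj t)
    · intro h; simp only [Fin.snoc_last, Fin.snoc_castSucc] at h; exact absurd h.symm (hj s)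
    · intro h; simp only [Fin.snoc_castSucc] at h; rw [hi h]
  have h1 := hL _ hinj
  have h2 : LinearIndependent K (Matrix.of (fun s k => L (Fin.snoc (α := fun _ => Fin q) i j₀ s) k) :
      Matrix (Fin (n + 1)) (Fin (n + 1)) K).row := h1
  rw [Matrix.linearIndependent_rows_iff_isUnit, Matrix.isUnit_iff_isUnit_det] at h2
  exact h2.ne_zero

theorem ne_zero_at {L : Fin q → Fin (n + 1) → K}
    (hL : ∀ J : Fin (n + 1) → Fin q, Function.Injective J → LinearIndependent K fun s => L (J s))
    {i : Fin n → Fin q} (hi : Function.Injective i) {j₀ : Fin q} (hj : ∀ t, j₀ ≠ i t)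
    {x : Fin (n + 1) → K} (hx : x ≠ 0) (h0 : ∀ s, ∑ k, L (i s) k * x k = 0) :
    ∑ k, L j₀ k * x k ≠ 0 := by
  intro h1
  apply hx
  refine Matrix.eq_zero_of_mulVec_eq_zero (det_ne hL hi hj) ?_
  ext s
  simp only [Matrix.mulVec, dotProduct, Matrix.of_apply, Pi.zero_apply]
  refine Fin.lastCases ?_ (fun s => ?_) s
  · simpa using h1
  · simpa using h0 s

theorem psi_ne {L : Fin q → Fin (n + 1) → K}
    (hL : ∀ J : Fin (n + 1) → Fin q, Function.Injective J → LinearIndependent K fun s => L (J s))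
    {i b : Fin n → Fin q} (hi : Function.Injective i) (hb : ∀ s t, b s ≠ i t) {j₀ : Fin q}
    (hj : ∀ t, j₀ ≠ i t) : (Mt L i b j₀).det ≠ 0 := by
  obtain ⟨x, hx, h0⟩ := exists_zero L i
  intro h
  have h1 := aeval_det L i b j₀ x
    (Matrix.of (fun s k => L (Fin.snoc (α := fun _ => Fin q) i j₀ s) k))
    (fun s => ∑ k, L (b s) k * x k) (by
      intro s k
      simp only [Algebra.algebraMap_self, RingHom.id_apply, h0 s, mul_zero, sub_zero,
        Matrix.of_apply, Fin.snoc_castSucc]
      ring) (by intro k; simp)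
  rw [h, map_zero] at h1
  refine mul_ne_zero (Finset.prod_ne_zero_iff.2 fun s _ => ne_zero_at hL hi (hb s) hx h0) ?_ h1.symm
  simpa using det_ne hL hi hj

theorem psi_zero {E : Type*} [Field E] [Algebra K E] (L : Fin q → Fin (n + 1) → K)
    (i b : Fin n → Fin q) (j₀ : Fin q) (y : Fin (n + 1) → E)
    (hy : IntermediateField.adjoin K {z : E | ∃ i k, z = y i / y k} = ⊤)
    (hd : 2 ≤ Module.finrank K E)
    (hr : ∀ s, ∃ κ : K, lin (up E L (i s)) y = algebraMap K E κ * lin (up E L (b s)) y) :
    aeval y (Mt L i b j₀).det = 0 := by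
  choose κ hκ using hr
  set N : Matrix (Fin (n + 1)) (Fin (n + 1)) K :=
    Matrix.of (Fin.snoc (α := fun _ => Fin (n + 1) → K)
      (fun s k => L (i s) k - κ s * L (b s) k) (fun k => L j₀ k)) with hN
  have h1 := aeval_det L i b j₀ y N (fun s => lin (up E L (b s)) y) (by
      intro s k
      rw [← lin_up, ← lin_up, hκ s, hN]
      simp only [Matrix.of_apply, Fin.snoc_castSucc, map_sub, map_mul]
      ring) (by intro k; simp [hN])
  rw [h1]
  by_cases hdet : N.det = 0
  · rw [hdet, map_zero, mul_zero]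
  exfalso
  -- the coordinates are multiples of elements of `K`
  have h2 : (N.map (algebraMap K E)).mulVec y =
      fun s => Fin.snoc (α := fun _ => E) (fun _ : Fin n => (0 : E)) (lin (up E L j₀) y) s := by
    ext s
    simp only [Matrix.mulVec, dotProduct, Matrix.map_apply]
    refine Fin.lastCases ?_ (fun s => ?_) s
    · simp [hN, lin_up]
    · simp only [hN, Matrix.of_apply, Fin.snoc_castSucc, map_sub, map_mul, sub_mul,
        Finset.sum_sub_distrib]
      have := hκ s
      rw [lin_up, lin_up, Finset.mul_sum] at this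
      rw [this, sub_eq_zero]
      refine Finset.sum_congr rfl fun k _ => by ring
  have h3 : ∀ k, algebraMap K E N.det * y k =
      algebraMap K E (N.adjugate k (Fin.last n)) * lin (up E L j₀) y := by
    intro k
    have h4 : ((N.map (algebraMap K E)).adjugate * (N.map (algebraMap K E))).mulVec y =
        (N.map (algebraMap K E)).adjugate.mulVec ((N.map (algebraMap K E)).mulVec y) := by
      rw [Matrix.mulVec_mulVec]
    rw [Matrix.adjugate_mul, h2] at h4
    have h5 := congrFun h4 k
    rw [Matrix.smul_mulVec, Matrix.one_mulVec] at h5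
    have e1 : (N.map (algebraMap K E)).det = algebraMap K E N.det := by
      rw [RingHom.map_det]; rfl
    have e2 : (N.map (algebraMap K E)).adjugate k (Fin.last n) =
        algebraMap K E (N.adjugate k (Fin.last n)) := by
      have := RingHom.map_adjugate (algebraMap K E) N
      have h6 := congrFun (congrFun this k) (Fin.last n)
      simpa using h6.symm
    rw [Pi.smul_apply, smul_eq_mul, e1] at h5
    rw [h5]
    simp only [Matrix.mulVec, dotProduct]
    rw [Fin.sum_univ_castSucc]
    simp [e2]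
  have hD : algebraMap K E N.det ≠ 0 := by simpa using hdet
  have h6 : IntermediateField.adjoin K {z : E | ∃ i k, z = y i / y k} ≤ ⊥ := by
    rw [IntermediateField.adjoin_le_iff]
    rintro z ⟨a, k, rfl⟩
    rw [SetLike.mem_coe, IntermediateField.mem_bot]
    by_cases hk : y k = 0
    · exact ⟨0, by simp [hk]⟩
    refine ⟨N.adjugate a (Fin.last n) / N.adjugate k (Fin.last n), ?_⟩
    have hk' := h3 k
    have ha' := h3 a
    have hlam : lin (up E L j₀) y ≠ 0 := by
      intro h0
      rw [h0, mul_zero] at hk'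
      exact mul_ne_zero hD hk hk'
    have hadj : algebraMap K E (N.adjugate k (Fin.last n)) ≠ 0 := by
      intro h0
      rw [h0, zero_mul] at hk'
      exact mul_ne_zero hD hk hk'
    rw [map_div₀, div_eq_div_iff hadj hk]
    apply mul_left_cancel₀ (mul_ne_zero hD hlam)
    linear_combination (algebraMap K E (N.adjugate a (Fin.last n))) * lin (up E L j₀) y * hk' -
      (algebraMap K E (N.adjugate k (Fin.last n))) * lin (up E L j₀) y * ha'
  rw [hy] at h6
  have h7 : (⊥ : IntermediateField K E) = ⊤ := le_antisymm bot_le h6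
  rw [IntermediateField.bot_eq_top_iff_finrank_eq_one] at h7
  omega

end NC2

section NC
variable {K : Type u} [Field K] [NumberField K] {n q : ℕ}

/-- NC2 : the exceptional forms -/
theorem exists_psi (hn : 1 ≤ n) (L : Fin q → Fin (n + 1) → K)
    (hL : ∀ J : Fin (n + 1) → Fin q, Function.Injective J → LinearIndependent K fun s => L (J s)) :
    ∃ (N : ℕ) (Ψ : Fin N → MvPolynomial (Fin (n + 1)) K),
      (∀ i, Ψ i ≠ 0 ∧ (Ψ i).IsHomogeneous n) ∧
      ∀ (E : Type u) [Field E] [Algebra K E] (y : Fin (n + 1) → E), y ≠ 0 →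
        IntermediateField.adjoin K {z : E | ∃ i k, z = y i / y k} = ⊤ →
        2 ≤ Module.finrank K E → Rel L y → ∃ i, aeval y (Ψ i) = 0 := by
  classical
  let T := {p : (Fin n → Fin q) × (Fin n → Fin q) //
    Function.Injective p.1 ∧ ∀ s t, p.2 s ≠ p.1 t}
  let e : T ≃ Fin (Fintype.card T) := Fintype.equivFin T
  refine ⟨Fintype.card T, fun j => (NC2.Mt L (e.symm j).1.1 (e.symm j).1.2
    ((e.symm j).1.2 ⟨0, hn⟩)).det, fun j => ⟨?_, NC2.det_hom _ _ _ _⟩, ?_⟩
  · exact NC2.psi_ne hL (e.symm j).2.1 (e.symm j).2.2 ((e.symm j).2.2 _)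
  · intro E _ _ y _ hy hd hR
    obtain ⟨i, b, hi, hb, hr⟩ := hR
    refine ⟨e ⟨(i, b), hi, hb⟩, ?_⟩
    simp only [Equiv.symm_apply_apply]
    exact NC2.psi_zero L i b _ y hy hd hr

end NC

end Pool.Agent.Lib.MP_44a246_ntAL
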