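import Pool.Agent.Lib.MP_44a246_ntAL.FA3c
import Pool.Agent.Lib.MP_44a246_ntAL.NC2
import Pool.Agent.Lib.MP_44a246_ntAL.FA0
import Pool.Agent.Lib.MP_44a246_ntAL.ED3
import Pool.Agent.Lib.MP_44a246_ntAL.FA3b

/-!
# Points of degree at most `r`, `n ≤ r`
-/

set_option autoImplicit false
set_option linter.unusedSectionVars false

open NumberField IsDedekindDomain Height MvPolynomial
open Pool.Agent.Lib.MP_4d5ce1_nt (fa nv ordv)
open Pool.Agent.Lib.MP_44a246_ntNF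
open Pool.Agent.Lib.MP_44a246_ntNU

namespace Pool.Agent.Lib.MP_44a246_ntAL

universe u

namespace EF3


section
variable {K : Type u} [Field K] [NumberField K] {n q : ℕ}



/-- any two of the forms are independent -/
theorem pair_indep (hn : 1 ≤ n) (hq : n + 1 ≤ q) (L : Fin q → Fin (n + 1) → K)
    (hL : ∀ J : Fin (n + 1) → Fin q, Function.Injective J → LinearIndependent K fun s => L (J s))
    (b : K) (hb : b ≠ 0) (i j : Fin q) (hij : i ≠ j) :
    LinearIndependent K ![(fun k => b * L i k), fun k => b * L j k] := by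
  classical
  obtain ⟨m, rfl⟩ : ∃ m, n = m + 1 := ⟨n - 1, by omega⟩
  -- an injective family that starts with `i`, `j`
  obtain ⟨J, hJ, h0, h1⟩ : ∃ J : Fin (m + 1 + 1) → Fin q, Function.Injective J ∧ J 0 = i ∧
      J 1 = j := by
    let c : Fin (m + 1 + 1) → Fin q := Fin.castLE hq
    have hc : Function.Injective c := Fin.castLE_injective hq
    let e1 : Equiv.Perm (Fin q) := Equiv.swap (c 0) i
    have he1 : e1 (c 0) = i := Equiv.swap_apply_left _ _
    let e2 : Equiv.Perm (Fin q) := Equiv.swap (e1 (c 1)) j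
    have h01 : c 0 ≠ c 1 := fun h => by
      have := hc h
      exact absurd this (by simp)
    refine ⟨fun s => e2 (e1 (c s)), ?_, ?_, ?_⟩
    · exact e2.injective.comp (e1.injective.comp hc)
    · show e2 (e1 (c 0)) = i
      rw [he1]
      refine Equiv.swap_apply_of_ne_of_ne ?_ hij
      intro h
      apply h01
      apply e1.injective
      rw [he1]
      exact h
    · exact Equiv.swap_apply_left _ _
  have h2 := (hL J hJ).comp (![0, 1] : Fin 2 → Fin (m + 1 + 1)) (by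
    intro x y hxy
    fin_cases x <;> fin_cases y <;> simp_all)
  have h3 : LinearIndependent K ![L i, L j] := by
    have h4 : ((fun s => L (J s)) ∘ (![0, 1] : Fin 2 → Fin (m + 1 + 1))) = ![L i, L j] := by
      funext x
      fin_cases x
      · simp [h0]
      · simp [h1]
    rw [← h4]
    exact h2
  have h5 := h3.units_smul (fun _ : Fin 2 => Units.mk0 b hb)
  have h6 : (fun _ : Fin 2 => Units.mk0 b hb) • ![L i, L j] =
      ![(fun k => b * L i k), fun k => b * L j k] := by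
    funext x
    fin_cases x
    · rfl
    · rfl
  rw [h6] at h5
  exact h5

end

end EF3

open EF3 in
/-- EF3 : points of degree at most `r ≥ n` -/
theorem count_le_all {K : Type u} [Field K] [NumberField K] {n q : ℕ}
    (hn1 : 1 ≤ n) (hq : n + 1 ≤ q) (L : Fin q → Fin (n + 1) → K)
    (hL : ∀ J : Fin (n + 1) → Fin q, Function.Injective J → LinearIndependent K fun s => L (J s)) :
    ∃ (N : ℕ) (Ψ : Fin N → MvPolynomial (Fin (n + 1)) K),
      (∀ i, Ψ i ≠ 0 ∧ (Ψ i).IsHomogeneous n) ∧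
      ∀ S : Set (HeightOneSpectrum (𝓞 K)), S.Finite → ∀ r : ℕ, n ≤ r → 2 ≤ r → ∀ ρ c : ℝ,
        ρ < q + 1 - n → ∃ (δ C : ℝ), 0 < δ ∧ ∀ B : ℝ, 1 ≤ B → ∀ X : Finset (Pj K n),
          (∀ s ∈ X, Vio S L r ρ c B s ∧ ∀ i, aeval s.2.rep (Ψ i) ≠ 0) →
            (X.card : ℝ) ≤ C * B ^ ((r : ℝ) + 1 - δ) := by
  classical
  obtain ⟨N₁, Ψ₁, hΨ₁, hlt⟩ := count_lt_all hn1 hq L hL
  obtain ⟨N₂, Ψ₂, hΨ₂, hrel⟩ := exists_psi hn1 L hL
  refine ⟨N₁ + N₂, Fin.append Ψ₁ Ψ₂, ?_, ?_⟩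
  · intro i
    refine Fin.addCases (fun j => ?_) (fun j => ?_) i
    · rw [Fin.append_left]
      exact hΨ₁ j
    · rw [Fin.append_right]
      exact hΨ₂ j
  intro S hS r hnr hr2 ρ c hρ
  rcases lt_or_eq_of_le hnr with hnr | rfl
  · obtain ⟨δ, C, hδ, hC⟩ := hlt S hS r hnr ρ c hρ
    refine ⟨δ, C, hδ, fun B hB X hX => hC B hB X fun s hs => ⟨(hX s hs).1, fun i => ?_⟩⟩
    have h := (hX s hs).2 (Fin.castAdd N₂ i)
    rwa [Fin.append_left] at h
  -- the case `r = n`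
  obtain ⟨b, hb, hint⟩ := FA3c.exists_scale L
  have hL0 : ∀ j, (fun i => b * L j i) ≠ 0 := by
    intro j hj
    apply FA3c.form_ne_zero hq L hL j
    funext i
    have := congrFun hj i
    simpa [hb] using this
  obtain ⟨δ₁, C₁, hδ₁, h₁⟩ := count_gt_all hq hS L hL (n - 1) (by omega) (by omega) ρ c (by
    have : (2 : ℝ) ≤ n := by exact_mod_cast hr2
    linarith)
  obtain ⟨δ₂, C₂, hδ₂, h₂⟩ := count_eq hS (fun j i => b * L j i) hint
    (fun i j hij => pair_indep hn1 hq L hL b hb i j hij) hL0 hr2 ρ c hρ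
  refine ⟨min δ₁ δ₂, |C₁| + |C₂|, lt_min hδ₁ hδ₂, ?_⟩
  intro B hB X hX
  have hcov : X ⊆ (X.filter fun s => Vio S L (n - 1) ρ c B s) ∪
      X.filter fun s => Module.finrank K s.1 = n := by
    intro s hs
    obtain ⟨⟨hNF, hfr, hrest⟩, -⟩ := hX s hs
    by_cases hd : Module.finrank K s.1 = n
    · exact Finset.mem_union_right _ (Finset.mem_filter.mpr ⟨hs, hd⟩)
    · exact Finset.mem_union_left _ (Finset.mem_filter.mpr ⟨hs, hNF, by omega, hrest⟩)
  set X₁ := X.filter fun s => Vio S L (n - 1) ρ c B s with hX₁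
  set X₂ := X.filter fun s => Module.finrank K s.1 = n with hX₂
  have h3 : (X₁.card : ℝ) ≤ C₁ * B ^ ((n : ℝ) + 1 - δ₁) :=
    h₁ B hB X₁ fun s hs => (Finset.mem_filter.mp hs).2
  have h4 : (X₂.card : ℝ) ≤ C₂ * B ^ ((n : ℝ) + 1 - δ₂) := by
    obtain ⟨Y, hYX, hNp, hY⟩ := to_vc X₂
    rw [← hYX]
    refine h₂ B hB Y hNp ?_
    intro t ht
    obtain ⟨s, hs, rfl⟩ := hY t ht
    obtain ⟨hs, hd⟩ := Finset.mem_filter.mp hs
    obtain ⟨⟨hNF, hfr, hgen, hlin, hht, htr⟩, hψ⟩ := hX s hs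
    have hrep : s.2.rep ≠ 0 := s.2.rep_nonzero
    have hht' : mulHeight s.2.rep ≤ B := by
      rw [← s.2.mk_rep, Projectivization.mulHeight_mk] at hht
      exact hht
    have hlog : s.2.logHeight = logHeight s.2.rep := by
      conv_lhs => rw [← s.2.mk_rep]
      rw [Projectivization.logHeight_mk]
    refine ⟨⟨hNF, hd, hrep, hgen, hht'⟩, ?_, hNF, ?_, ?_⟩
    · intro hR
      obtain ⟨i, hi⟩ := hrel s.1 s.2.rep hrep hgen (by omega) (FA3c.rel_scale L b hb _ hR)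
      have h := hψ (Fin.natAdd N₁ i)
      rw [Fin.append_right] at h
      exact h hi
    · intro j
      rw [FA3c.lin_scale]
      exact mul_ne_zero ((map_ne_zero _).mpr hb) (hlin j)
    · rw [FA3c.trunc_scale _ L b hb, ← hlog]
      exact htr
  have h5 : ∀ C δ : ℝ, min δ₁ δ₂ ≤ δ → C * B ^ ((n : ℝ) + 1 - δ) ≤
      |C| * B ^ ((n : ℝ) + 1 - min δ₁ δ₂) := by
    intro C δ hδ
    have h6 : B ^ ((n : ℝ) + 1 - δ) ≤ B ^ ((n : ℝ) + 1 - min δ₁ δ₂) :=
      Real.rpow_le_rpow_of_exponent_le hB (by linarith)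
    calc C * B ^ ((n : ℝ) + 1 - δ) ≤ |C| * B ^ ((n : ℝ) + 1 - δ) :=
          mul_le_mul_of_nonneg_right (le_abs_self C) (by positivity)
      _ ≤ _ := mul_le_mul_of_nonneg_left h6 (abs_nonneg C)
  calc (X.card : ℝ) ≤ ((X₁ ∪ X₂).card : ℝ) := by exact_mod_cast Finset.card_le_card hcov
    _ ≤ (X₁.card : ℝ) + X₂.card := by exact_mod_cast Finset.card_union_le X₁ X₂
    _ ≤ |C₁| * B ^ ((n : ℝ) + 1 - min δ₁ δ₂) + |C₂| * B ^ ((n : ℝ) + 1 - min δ₁ δ₂) :=
        add_le_add (h3.trans (h5 C₁ δ₁ (min_le_left _ _))) (h4.trans (h5 C₂ δ₂ (min_le_right _ _)))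
    _ = (|C₁| + |C₂|) * B ^ ((n : ℝ) + 1 - min δ₁ δ₂) := by rw [add_mul]

end Pool.Agent.Lib.MP_44a246_ntAL
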