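import Pool.Agent.Lib.MP_44a246_ntAL.EDefs
import Pool.Agent.Lib.MP_44a246_ntAL.FDefs
import Pool.Agent.Lib.MP_44a246_ntAL.FA3a
import Pool.Agent.Lib.MP_44a246_ntAL.EF3
import Pool.Agent.Lib.MP_44a246_ntSR.SR11
import Pool.Agent.Lib.MP_44a246_ntAL.FA3b

set_option autoImplicit false

open NumberField IsDedekindDomain Height MvPolynomial
open Pool.Agent.Lib.MP_4d5ce1_nt (fa nv ordv)
open Pool.Agent.Lib.MP_44a246_ntNF
open Pool.Agent.Lib.MP_44a246_ntNU

namespace Pool.Agent.Lib.MP_44a246_ntAL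

universe u

section final
variable {K : Type u} [Field K] [NumberField K] {n q : ℕ}


theorem pair_det {L : Fin q → Fin (1 + 1) → K}
    (hL : ∀ J : Fin (1 + 1) → Fin q, Function.Injective J → LinearIndependent K fun s => L (J s))
    (a b : Fin q) (hab : a ≠ b) : L a 0 * L b 1 - L a 1 * L b 0 ≠ 0 := by
  intro h0
  have hJ : Function.Injective (![a, b] : Fin (1 + 1) → Fin q) := by
    intro i j hij
    fin_cases i <;> fin_cases j <;> first | rfl | (exact absurd hij hab) | (exact absurd hij.symm hab)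
  have h := hL ![a, b] hJ
  have h2 : ∀ s t : K, s • L a + t • L b = 0 → s = 0 ∧ t = 0 := by
    intro s t hst
    have h3 := (Fintype.linearIndependent_iff.mp h) ![s, t] (by
      rw [Fin.sum_univ_two]
      simpa using hst)
    exact ⟨by simpa using h3 0, by simpa using h3 1⟩
  have e1 := h2 (L b 1) (-L a 1) (by
    ext i
    fin_cases i
    · simp only [Fin.zero_eta, Pi.add_apply, Pi.smul_apply, smul_eq_mul, Pi.zero_apply]
      linear_combination h0
    · simp only [Fin.mk_one, Pi.add_apply, Pi.smul_apply, smul_eq_mul, Pi.zero_apply]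
      ring)
  have e2 := h2 (L b 0) (-L a 0) (by
    ext i
    fin_cases i
    · simp only [Fin.zero_eta, Pi.add_apply, Pi.smul_apply, smul_eq_mul, Pi.zero_apply]
      ring
    · simp only [Fin.mk_one, Pi.add_apply, Pi.smul_apply, smul_eq_mul, Pi.zero_apply]
      linear_combination -h0)
  have e3 := h2 1 0 (by
    ext i
    fin_cases i
    · have := e2.2
      simp only [neg_eq_zero] at this
      simp [this]
    · have := e1.2
      simp only [neg_eq_zero] at this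
      simp [this])
  exact one_ne_zero e3.1

theorem ne_zero_of_gp (hq : n + 1 ≤ q) {L : Fin q → Fin (n + 1) → K}
    (hL : ∀ J : Fin (n + 1) → Fin q, Function.Injective J → LinearIndependent K fun s => L (J s))
    (l : Fin q) : L l ≠ 0 := by
  have hq0 : 0 < q := by omega
  let J : Fin (n + 1) → Fin q := fun i => Equiv.swap (⟨0, hq0⟩ : Fin q) l ⟨i, by omega⟩
  have hJ : Function.Injective J := by
    intro i j hij
    have := (Equiv.swap (⟨0, hq0⟩ : Fin q) l).injective hij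
    simpa [Fin.ext_iff] using this
  have h := (hL J hJ).ne_zero (0 : Fin (n + 1))
  have e : J 0 = l := by
    simp only [J]
    exact Equiv.swap_apply_left _ _
  rwa [e] at h

/-- EF4 : all the hyperplane cases -/
theorem hyper_final2 (hn : 1 ≤ n) (hq : n + 1 ≤ q) (L : Fin q → Fin (n + 1) → K)
    (hL : ∀ J : Fin (n + 1) → Fin q, Function.Injective J → LinearIndependent K fun s => L (J s)) :
    ∃ (N : ℕ) (Ψ : Fin N → MvPolynomial (Fin (n + 1)) K),
      (∀ i, Ψ i ≠ 0 ∧ (Ψ i).IsHomogeneous n) ∧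
      ∀ S : Set (HeightOneSpectrum (𝓞 K)), S.Finite → ∀ r : ℕ, 1 ≤ r → ∀ ρ c η : ℝ, 0 ≤ ρ →
        0 < η → ∃ C δ : ℝ, 0 < δ ∧ ∀ B : ℝ, 1 ≤ B → ∀ X : Finset (Pj K n),
          (∀ s ∈ X, Vio S L r ρ c B s) →
          (min n r = 1 → 1 < max n r → ρ ≤ q →
            (X.card : ℝ) ≤ C * B ^ ((max n r : ℕ) + 1 - min 1 (q - ρ) + η)) ∧
          (r < n → ρ < q → (X.card : ℝ) ≤ C * B ^ ((n : ℝ) + 1 - δ)) ∧
          (n ≤ r → 2 ≤ r → ρ < q + 1 - n → (∀ s ∈ X, ∀ i, aeval s.2.rep (Ψ i) ≠ 0) →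
            (X.card : ℝ) ≤ C * B ^ ((r : ℝ) + 1 - δ)) := by
  obtain ⟨N, Ψ, hΨ, hle⟩ := count_le_all hn hq L hL
  refine ⟨N, Ψ, hΨ, fun S hS r hr ρ c η hρ hη => ?_⟩
  have h1 : ∃ C : ℝ, ∀ B : ℝ, 1 ≤ B → ∀ X : Finset (Pj K n), (∀ s ∈ X, Vio S L r ρ c B s) →
      (min n r = 1 → 1 < max n r → ρ ≤ q →
        (X.card : ℝ) ≤ C * B ^ ((max n r : ℕ) + 1 - min 1 (q - ρ) + η)) := by
    by_cases hc : min n r = 1 ∧ 1 < max n r ∧ ρ ≤ q
    · obtain ⟨hm, hM, hρq⟩ := hc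
      rcases Nat.lt_or_ge 1 n with hn2 | hn2
      · have hr1 : r = 1 := by omega
        subst hr1
        obtain ⟨C, hC⟩ := rat_count hn2 hq hS L hL ρ c η hρq hη
        refine ⟨C, fun B hB X hX _ _ _ => ?_⟩
        have h := hC B hB X hX
        have hmx : max n 1 = n := by omega
        rw [hmx]
        exact h
      · have hn1 : n = 1 := by omega
        subst hn1
        have hr2 : 2 ≤ r := by omega
        obtain ⟨C, hC⟩ := Pool.Agent.Lib.MP_44a246_ntSR.sym_countD hS L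
          (fun l => ne_zero_of_gp hq hL l) (fun a b hab => pair_det hL a b hab) r hr2 ρ c η hρ
          hρq hη
        refine ⟨C, fun B hB X hX _ _ _ => ?_⟩
        have h := hC B hB X hX
        have hmx : max 1 r = r := by omega
        rw [hmx]
        exact h
    · exact ⟨0, fun B hB X hX a b c' => absurd ⟨a, b, c'⟩ hc⟩
  have h2 : ∃ (δ C : ℝ), 0 < δ ∧ ∀ B : ℝ, 1 ≤ B → ∀ X : Finset (Pj K n),
      (∀ s ∈ X, Vio S L r ρ c B s) → r < n → ρ < q →
        (X.card : ℝ) ≤ C * B ^ ((n : ℝ) + 1 - δ) := by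
    by_cases hc : r < n ∧ ρ < q
    · obtain ⟨δ, C, hδ, hC⟩ := count_gt_all hq hS L hL r hr hc.1 ρ c hc.2
      exact ⟨δ, C, hδ, fun B hB X hX _ _ => hC B hB X hX⟩
    · exact ⟨1, 0, one_pos, fun B hB X hX a b => absurd ⟨a, b⟩ hc⟩
  have h3 : ∃ (δ C : ℝ), 0 < δ ∧ ∀ B : ℝ, 1 ≤ B → ∀ X : Finset (Pj K n),
      (∀ s ∈ X, Vio S L r ρ c B s) → n ≤ r → 2 ≤ r → ρ < q + 1 - n →
        (∀ s ∈ X, ∀ i, aeval s.2.rep (Ψ i) ≠ 0) →
        (X.card : ℝ) ≤ C * B ^ ((r : ℝ) + 1 - δ) := by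
    by_cases hc : n ≤ r ∧ 2 ≤ r ∧ ρ < q + 1 - n
    · obtain ⟨δ, C, hδ, hC⟩ := hle S hS r hc.1 hc.2.1 ρ c hc.2.2
      exact ⟨δ, C, hδ, fun B hB X hX _ _ _ h => hC B hB X fun s hs => ⟨hX s hs, h s hs⟩⟩
    · exact ⟨1, 0, one_pos, fun B hB X hX a b d _ => absurd ⟨a, b, d⟩ hc⟩
  obtain ⟨C₁, h1⟩ := h1
  obtain ⟨δ₂, C₂, hδ₂, h2⟩ := h2
  obtain ⟨δ₃, C₃, hδ₃, h3⟩ := h3
  have b1 : C₁ ≤ |C₁| + |C₂| + |C₃| := by
    linarith [le_abs_self C₁, abs_nonneg C₂, abs_nonneg C₃]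
  have b2 : C₂ ≤ |C₁| + |C₂| + |C₃| := by
    linarith [le_abs_self C₂, abs_nonneg C₁, abs_nonneg C₃]
  have b3 : C₃ ≤ |C₁| + |C₂| + |C₃| := by
    linarith [le_abs_self C₃, abs_nonneg C₁, abs_nonneg C₂]
  have b0 : 0 ≤ |C₁| + |C₂| + |C₃| := by positivity
  refine ⟨|C₁| + |C₂| + |C₃|, min δ₂ δ₃, lt_min hδ₂ hδ₃, fun B hB X hX => ⟨?_, ?_, ?_⟩⟩
  · intro a b d
    refine (h1 B hB X hX a b d).trans ?_
    exact mul_le_mul_of_nonneg_right b1 (Real.rpow_nonneg (by linarith) _)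
  · intro a b
    refine (h2 B hB X hX a b).trans ?_
    refine (mul_le_mul_of_nonneg_right b2 (Real.rpow_nonneg (by linarith) _)).trans ?_
    refine mul_le_mul_of_nonneg_left (Real.rpow_le_rpow_of_exponent_le hB ?_) b0
    linarith [min_le_left δ₂ δ₃]
  · intro a b d e
    refine (h3 B hB X hX a b d e).trans ?_
    refine (mul_le_mul_of_nonneg_right b3 (Real.rpow_nonneg (by linarith) _)).trans ?_
    refine mul_le_mul_of_nonneg_left (Real.rpow_le_rpow_of_exponent_le hB ?_) b0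
    linarith [min_le_right δ₂ δ₃]

end final

end Pool.Agent.Lib.MP_44a246_ntAL
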