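import Pool.Agent.Lib.MP_44a246_ntAL.GenDefs
import Pool.Agent.Lib.MP_44a246_ntAL.AL15
import Pool.Agent.Lib.MP_44a246_ntAL.AL16
import Pool.Agent.Lib.MP_44a246_ntAL.NA5
import Pool.Agent.Lib.MP_44a246_ntAL.NB3
import Pool.Agent.Lib.MP_44a246_ntAL.NC1

/-!
# Almost all points of bounded degree: the case `n < r`
-/

set_option autoImplicit false

open NumberField IsDedekindDomain Height MvPolynomial
open Pool.Agent.Lib.MP_4d5ce1_nt (fa nv ordv)
open Pool.Agent.Lib.MP_44a246_ntNF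
open Pool.Agent.Lib.MP_44a246_ntNU

namespace Pool.Agent.Lib.MP_44a246_ntAL

universe u

namespace NDaux

/-- Monotonicity of `BadG`. -/
lemma badG_mono {K : Type u} [Field K] [NumberField K] {n q : ℕ} {E : Type*} [Field E]
    [NumberField E] [Algebra K E] {S₀ : Finset (HeightOneSpectrum (𝓞 K))}
    {L : Fin q → Fin (n + 1) → K} {ε ε' : ℝ} (h : ε ≤ ε') {y : Fin (n + 1) → E}
    (hy : BadG S₀ L ε y) : BadG S₀ L ε' y := by
  have hti : ∀ w : InfinitePlace E, 0 ≤ ti y w := fun w => by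
    unfold ti
    exact Real.iSup_nonneg fun i => apply_nonneg w _
  have htf : ∀ w : HeightOneSpectrum (𝓞 E), 0 ≤ tf y w := fun w => by
    unfold tf
    exact Real.iSup_nonneg fun i => Pool.Agent.Lib.MP_4d5ce1_nt.fa_nonneg w _
  have hNk : ∀ k : HeightOneSpectrum (𝓞 E) →₀ ℕ, 0 ≤ Nk k := fun k => by
    unfold Nk Finsupp.prod
    exact Finset.prod_nonneg fun i _ =>
      pow_nonneg (Pool.Agent.Lib.MP_4d5ce1_nt.nv_pos i).le _
  have hNN : ∀ W : Finset (HeightOneSpectrum (𝓞 E)), 0 ≤ NN W := fun W => by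
    unfold NN
    exact Finset.prod_nonneg fun i _ => (Pool.Agent.Lib.MP_4d5ce1_nt.nv_pos i).le
  rcases hy with ⟨j, w, hw⟩ | ⟨j, w, hw, hw2⟩ | ⟨j, k, hk, hk1, hk2⟩ | ⟨i, j, W, h1, h2, h3, h4⟩
  · exact Or.inl ⟨j, w, hw.trans (mul_le_mul_of_nonneg_right h (hti w))⟩
  · exact Or.inr (Or.inl ⟨j, w, hw, hw2.trans (mul_le_mul_of_nonneg_right h (htf w))⟩)
  · exact Or.inr (Or.inr (Or.inl ⟨j, k, hk,
      hk1.trans (mul_le_mul_of_nonneg_right h (hNk k)), hk2⟩))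
  · exact Or.inr (Or.inr (Or.inr ⟨i, j, W, h1, h2,
      h3.trans (mul_le_mul_of_nonneg_right h (hNN W)), h4⟩))

/-- Summation over the classes. -/
lemma card_classes {K : Type u} [Field K] [NumberField K] {m : ℕ} {r : ℕ} {B C D : ℝ}
    (hC : 0 ≤ C)
    (hcl : ∀ t : Vc K m, Gd r B t → ∀ X : Finset (Vc K m), Np X → (∀ s ∈ X, SimV t s) →
      (X.card : ℝ) ≤ C * (Phi t : ℝ) ^ m) (X R : Finset (Vc K m)) (hX : Np X)
    (hG : ∀ t ∈ X, Gd r B t) (hP : ∀ t ∈ X, (Phi t : ℝ) ≤ D) (hR : R ⊆ X)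
    (hS : ∀ s ∈ X, ∃ t ∈ R, SimV t s) : (X.card : ℝ) ≤ R.card * (C * D ^ m) := by
  classical
  have h1 : X ⊆ R.biUnion fun t => X.filter fun s => SimV t s := by
    intro s hs
    obtain ⟨t, ht, hts⟩ := hS s hs
    exact Finset.mem_biUnion.2 ⟨t, ht, Finset.mem_filter.2 ⟨hs, hts⟩⟩
  have h2 : (X.card : ℝ) ≤ ∑ t ∈ R, ((X.filter fun s => SimV t s).card : ℝ) := by
    have h3 := (Finset.card_le_card h1).trans Finset.card_biUnion_le
    exact_mod_cast h3
  have h4 : ∀ t ∈ R, ((X.filter fun s => SimV t s).card : ℝ) ≤ C * D ^ m := by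
    intro t ht
    refine (hcl t (hG t (hR ht)) _ ?_ ?_).trans ?_
    · intro F x y hx hy z hz hxy
      exact hX F x y (Finset.mem_filter.1 hx).1 (Finset.mem_filter.1 hy).1 z hz hxy
    · intro s hs
      exact (Finset.mem_filter.1 hs).2
    · exact mul_le_mul_of_nonneg_left
        (pow_le_pow_left₀ (Nat.cast_nonneg _) (hP t (hR ht)) m) hC
  calc (X.card : ℝ) ≤ ∑ t ∈ R, ((X.filter fun s => SimV t s).card : ℝ) := h2
    _ ≤ ∑ _t ∈ R, C * D ^ m := Finset.sum_le_sum h4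
    _ = R.card * (C * D ^ m) := by rw [Finset.sum_const, nsmul_eq_mul]

lemma np_mono {K : Type u} [Field K] {m : ℕ} {X Y : Finset (Vc K m)} (h : Y ⊆ X) (hX : Np X) :
    Np Y := fun F x y hx hy z hz hxy => hX F x y (h hx) (h hy) z hz hxy

end NDaux

open NDaux

section NC
variable {K : Type u} [Field K] [NumberField K] {n q : ℕ}

/-- ND : `n < r` -/
theorem count_lt {S : Set (HeightOneSpectrum (𝓞 K))} (hSf : S.Finite)
    (L : Fin q → Fin (n + 1) → K) (hL : ∀ v j i, fa v (L j i) ≤ 1)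
    (hL0 : ∀ j, L j ≠ 0) (r : ℕ) (hr : 2 ≤ r) (hn : n < r) (ρ c : ℝ) (hρ : ρ < q + 1 - n) :
    ∃ (δ C : ℝ), 0 < δ ∧ ∀ B : ℝ, 1 ≤ B → ∀ X : Finset (Vc K (n + 1)), Np X →
      (∀ s ∈ X, Gd r B s ∧ ¬ Rel L s.2 ∧ ∃ _ : NumberField s.1,
        (∀ j, lin (up s.1 L j) s.2 ≠ 0) ∧
        truncCount (above K s.1 S) (up s.1 L) s.2 ≤ ρ * logHeight s.2 + c) →
      (X.card : ℝ) ≤ C * B ^ ((r : ℝ) + 1 - δ) := by
  classical
  obtain ⟨S₀, δ₀, H₀, -, hδ₀, hex⟩ := excess2 hSf L hL0 r ρ c hρ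
  set e : ℝ := min δ₀ 1 / (16 * (n + 1)) with he
  have hn1 : (1 : ℝ) ≤ n + 1 := by
    have : (0 : ℝ) ≤ n := Nat.cast_nonneg n
    linarith
  have he0 : 0 < e := by
    rw [he]
    exact div_pos (lt_min hδ₀ one_pos) (by linarith)
  have hen : e * (n + 1) = min δ₀ 1 / 16 := by
    rw [he]
    field_simp
  have hen1 : e * (n + 1) ≤ δ₀ / 16 := by
    rw [hen]
    linarith [min_le_left δ₀ (1 : ℝ)]
  have hen2 : e * (n + 1) ≤ 1 / 16 := by
    rw [hen]
    linarith [min_le_right δ₀ (1 : ℝ)]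
  have hee : e ≤ e * (n + 1) := le_mul_of_one_le_right he0.le hn1
  have hη : 0 < e / 4 := by linarith
  obtain ⟨C₁, hC₁, hbad⟩ := bad_classes S₀ L hL r hr (e / 4) hη
  obtain ⟨C₂, hC₂, himp⟩ := imprim_classes (K := K) r (n + 1) hr (e / 4) hη
  obtain ⟨C₃, hC₃, hcl⟩ := class_count (K := K) r (n + 1)
  obtain ⟨C₄, hC₄, htot⟩ := total_large (K := K) r n hr hn.le (e / 4) hη
  obtain ⟨C₅, hC₅, hph⟩ := phi_bounds (K := K) r (n + 1)
  set M : ℝ := max H₀ 1 with hM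
  have hM1 : 1 ≤ M := le_max_right _ _
  refine ⟨e / 2, C₄ + C₄ * M ^ (e / 4) * M ^ (r + 1) + C₄ + C₁ * C₃ + C₂ * C₃, by linarith, ?_⟩
  intro B hB X hX hXs
  have hB0 : 0 < B := by linarith
  set T : ℝ := B ^ ((r : ℝ) + 1 - e / 2) with hT
  -- monotonicity in the exponent
  have hmono : ∀ x : ℝ, x ≤ (r : ℝ) + 1 - e / 2 → B ^ x ≤ T := fun x hx =>
    Real.rpow_le_rpow_of_exponent_le hB hx
  have hr2 : (2 : ℝ) ≤ r := by exact_mod_cast hr
  have hT1 : 1 ≤ T := by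
    have := hmono 0 (by linarith)
    rwa [Real.rpow_zero] at this
  -- the pieces
  set Bh : ℝ := B ^ (1 / 2 : ℝ) with hBh
  have hBh1 : 1 ≤ Bh := Real.one_le_rpow hB (by norm_num)
  set Be : ℝ := B ^ e with hBe
  have hBe1 : 1 ≤ Be := Real.one_le_rpow hB he0.le
  set X₁ := X.filter fun s => Gd r Bh s with hX₁
  set X₂ := X.filter fun s => Gd r M s with hX₂
  set X₃ := X.filter fun s => Be ≤ (Phi s : ℝ) with hX₃
  set X₄ := X.filter fun s => (Phi s : ℝ) < Be ∧ ∃ _ : NumberField s.1,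
    (∀ j, lin (up s.1 L j) s.2 ≠ 0) ∧ BadG S₀ L (B ^ (-(δ₀ / 2))) s.2 with hX₄
  set X₅ := X.filter fun s => (Phi s : ℝ) < Be ∧ Imp K s.1 with hX₅
  have hcover : X ⊆ X₁ ∪ X₂ ∪ X₃ ∪ X₄ ∪ X₅ := by
    intro s hs
    obtain ⟨hG, hRel, hNF, hlin, htr⟩ := hXs s hs
    by_cases h1 : Gd r Bh s
    · simp [hX₁, hs, h1]
    by_cases h2 : Gd r M s
    · simp [hX₂, hs, h2]
    by_cases h3 : Be ≤ (Phi s : ℝ)
    · simp [hX₃, hs, h3]
    rw [not_le] at h3
    obtain ⟨_, hfr, hs0, hadj, hht⟩ := hG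
    have hht1 : Bh < mulHeight s.2 := by
      by_contra hcon
      exact h1 ⟨hNF, hfr, hs0, hadj, not_lt.1 hcon⟩
    have hht2 : M < mulHeight s.2 := by
      by_contra hcon
      exact h2 ⟨hNF, hfr, hs0, hadj, not_lt.1 hcon⟩
    have hH0 : H₀ ≤ mulHeight s.2 := (le_max_left _ _).trans hht2.le
    rcases hex s.1 hfr s.2 hs0 hlin hH0 htr with h | h | h
    · have h5 : mulHeight s.2 ^ (-δ₀) ≤ B ^ (-(δ₀ / 2)) := by
        have h6 : B ^ (-(δ₀ / 2)) = Bh ^ (-δ₀) := by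
          rw [hBh, ← Real.rpow_mul hB0.le]
          congr 1
          ring
        rw [h6]
        exact Real.rpow_le_rpow_of_nonpos (by linarith) hht1.le (by linarith)
      have h7 := badG_mono h5 h
      have h8 : s ∈ X₄ := by
        rw [hX₄, Finset.mem_filter]
        exact ⟨hs, h3, hNF, hlin, h7⟩
      simp [h8]
    · have h8 : s ∈ X₅ := by
        rw [hX₅, Finset.mem_filter]
        exact ⟨hs, h3, h⟩
      simp [h8]
    · exact absurd h hRel
  have hcard : (X.card : ℝ) ≤ X₁.card + X₂.card + X₃.card + X₄.card + X₅.card := by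
    have h1 := Finset.card_le_card hcover
    have h2 := Finset.card_union_le (X₁ ∪ X₂ ∪ X₃ ∪ X₄) X₅
    have h3 := Finset.card_union_le (X₁ ∪ X₂ ∪ X₃) X₄
    have h4 := Finset.card_union_le (X₁ ∪ X₂) X₃
    have h5 := Finset.card_union_le X₁ X₂
    have h6 : X.card ≤ X₁.card + X₂.card + X₃.card + X₄.card + X₅.card := by omega
    exact_mod_cast h6
  -- X₁
  have hc1 : (X₁.card : ℝ) ≤ C₄ * T := by
    have h := htot Bh hBh1 X₁ (np_mono (Finset.filter_subset _ _) hX)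
      (fun s hs => (Finset.mem_filter.1 hs).2) 1 le_rfl (fun s hs => by
        have := (hph Bh s hBh1 (Finset.mem_filter.1 hs).2).1
        exact_mod_cast this)
    rw [one_pow, div_one] at h
    refine h.trans ?_
    rw [mul_assoc]
    refine mul_le_mul_of_nonneg_left ?_ (by linarith)
    rw [← Real.rpow_natCast Bh (r + 1), ← Real.rpow_add (by linarith), hBh,
      ← Real.rpow_mul hB0.le]
    refine hmono _ ?_
    push_cast
    nlinarith
  -- X₂
  have hc2 : (X₂.card : ℝ) ≤ C₄ * M ^ (e / 4) * M ^ (r + 1) * T := by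
    have h := htot M hM1 X₂ (np_mono (Finset.filter_subset _ _) hX)
      (fun s hs => (Finset.mem_filter.1 hs).2) 1 le_rfl (fun s hs => by
        have := (hph M s hM1 (Finset.mem_filter.1 hs).2).1
        exact_mod_cast this)
    rw [one_pow, div_one] at h
    refine h.trans ?_
    refine le_mul_of_one_le_right ?_ hT1
    have : 0 ≤ M := by linarith
    positivity
  -- X₃
  have hc3 : (X₃.card : ℝ) ≤ C₄ * T := by
    have h := htot B hB X₃ (np_mono (Finset.filter_subset _ _) hX)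
      (fun s hs => (hXs s (Finset.mem_filter.1 hs).1).1) Be hBe1
      (fun s hs => (Finset.mem_filter.1 hs).2)
    refine h.trans ?_
    rw [mul_assoc, mul_div_assoc]
    refine mul_le_mul_of_nonneg_left ?_ (by linarith)
    have h1 : Be ≤ Be ^ (r - n) := by
      have : Be ^ 1 ≤ Be ^ (r - n) := pow_le_pow_right₀ hBe1 (by omega)
      rwa [pow_one] at this
    have h2 : B ^ (e / 4) * B ^ (r + 1) / Be ^ (r - n) ≤ B ^ (e / 4) * B ^ (r + 1) / Be := by
      apply div_le_div_of_nonneg_left _ (by linarith) h1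
      positivity
    refine h2.trans ?_
    rw [← Real.rpow_natCast B (r + 1), ← Real.rpow_add hB0, hBe, ← Real.rpow_sub hB0]
    refine hmono _ ?_
    push_cast
    linarith
  have hBen : Be ^ (n + 1) = B ^ (e * (n + 1)) := by
    rw [hBe, ← Real.rpow_natCast, ← Real.rpow_mul hB0.le]
    push_cast
    ring_nf
  -- X₄
  have hc4 : (X₄.card : ℝ) ≤ C₁ * C₃ * T := by
    have hε0 : (0 : ℝ) < B ^ (-(δ₀ / 2)) := Real.rpow_pos_of_pos hB0 _
    have hε1 : B ^ (-(δ₀ / 2)) ≤ 1 := Real.rpow_le_one_of_one_le_of_nonpos hB (by linarith)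
    obtain ⟨R, hR, hRs, hRc⟩ := hbad B hB _ hε0 hε1 X₄ (fun s hs => by
      have h1 := Finset.mem_filter.1 hs
      exact ⟨(hXs s h1.1).1, h1.2.2⟩)
    have h := card_classes (D := Be) (by linarith : (0 : ℝ) ≤ C₃)
      (fun t ht => hcl B t ht) X₄ R (np_mono (Finset.filter_subset _ _) hX)
      (fun t ht => (hXs t (Finset.mem_filter.1 ht).1).1)
      (fun t ht => (Finset.mem_filter.1 ht).2.1.le) hR hRs
    refine h.trans ?_
    have h1 : (R.card : ℝ) * (C₃ * Be ^ (n + 1)) ≤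
        C₁ * B ^ (e / 4) * ((B ^ (-(δ₀ / 2))) ^ (1 / 2 : ℝ) * B ^ (r + 1)) *
          (C₃ * Be ^ (n + 1)) := by
      refine mul_le_mul_of_nonneg_right hRc ?_
      positivity
    refine h1.trans ?_
    have h2 : C₁ * B ^ (e / 4) * ((B ^ (-(δ₀ / 2))) ^ (1 / 2 : ℝ) * B ^ (r + 1)) *
          (C₃ * Be ^ (n + 1)) = C₁ * C₃ * B ^ (e / 4 + (-(δ₀ / 2) * (1 / 2) + (r + 1 : ℕ)) +
            e * (n + 1)) := by
      rw [hBen, ← Real.rpow_natCast B (r + 1), ← Real.rpow_mul hB0.le, Real.rpow_add hB0,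
        Real.rpow_add hB0, Real.rpow_add hB0]
      ring
    rw [h2]
    refine mul_le_mul_of_nonneg_left (hmono _ ?_) (by positivity)
    push_cast
    linarith
  -- X₅
  have hc5 : (X₅.card : ℝ) ≤ C₂ * C₃ * T := by
    obtain ⟨R, hR, hRs, hRc⟩ := himp B hB X₅ (fun s hs => by
      have h1 := Finset.mem_filter.1 hs
      exact ⟨(hXs s h1.1).1, h1.2.2⟩)
    have h := card_classes (D := Be) (by linarith : (0 : ℝ) ≤ C₃)
      (fun t ht => hcl B t ht) X₅ R (np_mono (Finset.filter_subset _ _) hX)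
      (fun t ht => (hXs t (Finset.mem_filter.1 ht).1).1)
      (fun t ht => (Finset.mem_filter.1 ht).2.1.le) hR hRs
    refine h.trans ?_
    have h1 : (R.card : ℝ) * (C₃ * Be ^ (n + 1)) ≤
        C₂ * B ^ ((r : ℝ) + e / 4) * (C₃ * Be ^ (n + 1)) := by
      refine mul_le_mul_of_nonneg_right hRc ?_
      positivity
    refine h1.trans ?_
    have h2 : C₂ * B ^ ((r : ℝ) + e / 4) * (C₃ * Be ^ (n + 1)) =
        C₂ * C₃ * B ^ ((r : ℝ) + e / 4 + e * (n + 1)) := by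
      rw [hBen, Real.rpow_add hB0 ((r : ℝ) + e / 4)]
      ring
    rw [h2]
    refine mul_le_mul_of_nonneg_left (hmono _ ?_) (by positivity)
    linarith
  calc (X.card : ℝ) ≤ X₁.card + X₂.card + X₃.card + X₄.card + X₅.card := hcard
    _ ≤ C₄ * T + C₄ * M ^ (e / 4) * M ^ (r + 1) * T + C₄ * T + C₁ * C₃ * T + C₂ * C₃ * T := by
        linarith
    _ = (C₄ + C₄ * M ^ (e / 4) * M ^ (r + 1) + C₄ + C₁ * C₃ + C₂ * C₃) * T := by ring

end NC

end Pool.Agent.Lib.MP_44a246_ntAL
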