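import Pool.Agent.Lib.MP_44a246_ntAL.FDefs
import Pool.Agent.Lib.MP_44a246_ntAL.NC2
import Pool.Agent.Lib.MP_44a246_ntAL.FA0
import Pool.Agent.Lib.MP_44a246_ntAL.ND

/-!
# Points of degree at most `r > n`
-/

set_option autoImplicit false
set_option linter.unusedSectionVars false

open NumberField IsDedekindDomain Height MvPolynomial
open Pool.Agent.Lib.MP_4d5ce1_nt (fa nv ordv)
open Pool.Agent.Lib.MP_44a246_ntNF
open Pool.Agent.Lib.MP_44a246_ntNU

namespace Pool.Agent.Lib.MP_44a246_ntAL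

universe u

namespace FA3c




section
variable {K : Type u} [Field K] [NumberField K] {n q : ℕ}

/-- integral multiples of the forms -/
theorem exists_scale (L : Fin q → Fin (n + 1) → K) :
    ∃ b : K, b ≠ 0 ∧ ∀ v j i, fa v (b * L j i) ≤ 1 := by
  classical
  obtain ⟨b, hb⟩ := IsLocalization.exist_integer_multiples_of_finset (nonZeroDivisors (𝓞 K))
    (Finset.univ.image fun p : Fin q × Fin (n + 1) => L p.1 p.2)
  refine ⟨algebraMap (𝓞 K) K b, ?_, ?_⟩
  · exact (map_ne_zero_iff _ (FaithfulSMul.algebraMap_injective (𝓞 K) K)).mpr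
      (nonZeroDivisors.ne_zero b.2)
  · intro v j i
    obtain ⟨z, hz⟩ := hb (L j i) (Finset.mem_image.mpr ⟨(j, i), Finset.mem_univ _, rfl⟩)
    have h1 : algebraMap (𝓞 K) K b * L j i = algebraMap (𝓞 K) K z := by
      rw [hz]
      exact (Algebra.smul_def _ _).symm
    rw [h1]
    exact NumberField.FinitePlace.norm_le_one K v z

theorem lin_scale {E : Type*} [Field E] [Algebra K E] (L : Fin q → Fin (n + 1) → K) (b : K)
    (j : Fin q) (x : Fin (n + 1) → E) :
    lin (up E (fun j i => b * L j i) j) x = algebraMap K E b * lin (up E L j) x := by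
  unfold lin up
  rw [Finset.mul_sum]
  refine Finset.sum_congr rfl fun i _ => ?_
  rw [map_mul]
  ring

theorem rel_scale {E : Type*} [Field E] [Algebra K E] (L : Fin q → Fin (n + 1) → K) (b : K)
    (hb : b ≠ 0) (y : Fin (n + 1) → E) (h : Rel (fun j i => b * L j i) y) : Rel L y := by
  obtain ⟨i, c, hi, hc, h⟩ := h
  refine ⟨i, c, hi, hc, fun s => ?_⟩
  obtain ⟨κ, hκ⟩ := h s
  refine ⟨κ, ?_⟩
  rw [lin_scale, lin_scale] at hκ
  have hb' : algebraMap K E b ≠ 0 := (map_ne_zero _).mpr hb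
  refine mul_left_cancel₀ hb' ?_
  rw [hκ]
  ring

theorem trunc_scale {E : Type*} [Field E] [NumberField E] [Algebra K E]
    (T : Set (HeightOneSpectrum (𝓞 E)))
    (L : Fin q → Fin (n + 1) → K) (b : K) (hb : b ≠ 0) (x : Fin (n + 1) → E) :
    truncCount T (up E (fun j i => b * L j i)) x = truncCount T (up E L) x := by
  unfold truncCount
  refine finsum_congr fun v => ?_
  have hb' : 0 < FinitePlace.mk v (algebraMap K E b) :=
    FinitePlace.pos_iff.mpr ((map_ne_zero _).mpr hb)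
  have h1 : (v ∉ T ∧ ∃ j, FinitePlace.mk v (lin (up E (fun j i => b * L j i) j) x) <
      (⨆ i, FinitePlace.mk v (up E (fun j i => b * L j i) j i)) * ⨆ i, FinitePlace.mk v (x i)) ↔
      (v ∉ T ∧ ∃ j, FinitePlace.mk v (lin (up E L j) x) <
      (⨆ i, FinitePlace.mk v (up E L j i)) * ⨆ i, FinitePlace.mk v (x i)) := by
    refine and_congr_right fun _ => exists_congr fun j => ?_
    rw [lin_scale, map_mul]
    have h2 : (⨆ i, FinitePlace.mk v (up E (fun j i => b * L j i) j i)) =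
        FinitePlace.mk v (algebraMap K E b) * ⨆ i, FinitePlace.mk v (up E L j i) := by
      rw [Real.mul_iSup_of_nonneg hb'.le]
      refine iSup_congr fun i => ?_
      simp only [up, map_mul]
    rw [h2, mul_assoc]
    exact mul_lt_mul_iff_right₀ hb'
  exact finsum_congr_Prop (propext h1) (fun _ => rfl)

theorem form_ne_zero (hq : n + 1 ≤ q) (L : Fin q → Fin (n + 1) → K)
    (hL : ∀ J : Fin (n + 1) → Fin q, Function.Injective J → LinearIndependent K fun s => L (J s))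
    (j : Fin q) : L j ≠ 0 := by
  have h := (hL (fun s => Equiv.swap (Fin.castLE hq 0) j (Fin.castLE hq s)) ?_).ne_zero 0
  · simpa using h
  · intro s t hst
    exact Fin.castLE_injective hq ((Equiv.swap _ _).injective hst)

end

end FA3c

open FA3c in
/-- FA3c : points of degree at most `r > n` -/
theorem count_lt_all {K : Type u} [Field K] [NumberField K] {n q : ℕ}
    (hn1 : 1 ≤ n) (hq : n + 1 ≤ q) (L : Fin q → Fin (n + 1) → K)
    (hL : ∀ J : Fin (n + 1) → Fin q, Function.Injective J → LinearIndependent K fun s => L (J s)) :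
    ∃ (N : ℕ) (Ψ : Fin N → MvPolynomial (Fin (n + 1)) K),
      (∀ i, Ψ i ≠ 0 ∧ (Ψ i).IsHomogeneous n) ∧
      ∀ S : Set (HeightOneSpectrum (𝓞 K)), S.Finite → ∀ r : ℕ, n < r → ∀ ρ c : ℝ,
        ρ < q + 1 - n → ∃ (δ C : ℝ), 0 < δ ∧ ∀ B : ℝ, 1 ≤ B → ∀ X : Finset (Pj K n),
          (∀ s ∈ X, Vio S L r ρ c B s ∧ ∀ i, aeval s.2.rep (Ψ i) ≠ 0) →
            (X.card : ℝ) ≤ C * B ^ ((r : ℝ) + 1 - δ) := by
  classical
  obtain ⟨N, Ψ, hΨ, hrel⟩ := exists_psi hn1 L hL
  refine ⟨N, Ψ, hΨ, ?_⟩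
  intro S hS r hr ρ c hρ
  obtain ⟨b, hb, hint⟩ := FA3c.exists_scale L
  have hL0 : ∀ j, (fun i => b * L j i) ≠ 0 := by
    intro j hj
    apply form_ne_zero hq L hL j
    funext i
    have := congrFun hj i
    simpa [hb] using this
  obtain ⟨δ, C, hδ, hC⟩ := count_lt hS (fun j i => b * L j i) hint hL0 r (by omega) hr ρ c hρ
  have hdeg : ∀ j : ℕ, ∃ D : ℝ, 0 ≤ D ∧ (1 ≤ j → ∀ B : ℝ, 1 ≤ B → ∀ X : Finset (Vc K (n + 1)),
      Np X → (∀ s ∈ X, Gd j B s) → (X.card : ℝ) ≤ D * B ^ ((max n j : ℕ) + 1 + (1 / 2 : ℝ))) := by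
    intro j
    by_cases hj : 1 ≤ j
    · obtain ⟨D, hD, h⟩ := deg_total (K := K) n j hj (1 / 2) (by norm_num)
      exact ⟨D, by linarith, fun _ => h⟩
    · exact ⟨0, le_rfl, fun h => absurd h hj⟩
  choose D hD0 hD using hdeg
  refine ⟨min δ (1 / 2), |C| + ∑ j ∈ Finset.range r, D j, by positivity, ?_⟩
  intro B hB X hX
  obtain ⟨Y, hYX, hNp, hY⟩ := to_vc X
  have hNpf : ∀ Z ⊆ Y, Np Z := fun Z hZ F x y hx hy z hz hxy =>
    hNp F x y (hZ hx) (hZ hy) z hz hxy
  -- every vector of `Y` is in one of the parts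
  have hpart : ∀ t ∈ Y, (∃ j ∈ Finset.range r, 1 ≤ j ∧ Gd j B t) ∨
      (Gd r B t ∧ ¬ Rel (fun j i => b * L j i) t.2 ∧ ∃ _ : NumberField t.1,
        (∀ j, lin (up t.1 (fun j i => b * L j i) j) t.2 ≠ 0) ∧
        truncCount (above K t.1 S) (up t.1 (fun j i => b * L j i)) t.2 ≤
          ρ * logHeight t.2 + c) := by
    intro t ht
    obtain ⟨s, hs, rfl⟩ := hY t ht
    obtain ⟨⟨hNF, hfr, hgen, hlin, hht, htr⟩, hψ⟩ := hX s hs
    have hrep : s.2.rep ≠ 0 := s.2.rep_nonzero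
    have hht' : mulHeight s.2.rep ≤ B := by
      rw [← s.2.mk_rep, Projectivization.mulHeight_mk] at hht
      exact hht
    have hlog : s.2.logHeight = logHeight s.2.rep := by
      conv_lhs => rw [← s.2.mk_rep]
      rw [Projectivization.logHeight_mk]
    haveI : Module.Finite K s.1 := Module.Finite.right ℚ K s.1
    have hpos : 1 ≤ Module.finrank K s.1 := Module.finrank_pos
    have hgd : Gd (Module.finrank K s.1) B (⟨s.1, s.2.rep⟩ : Vc K (n + 1)) :=
      ⟨hNF, rfl, hrep, hgen, hht'⟩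
    rcases lt_or_eq_of_le hfr with hlt | heq
    · exact Or.inl ⟨_, Finset.mem_range.mpr hlt, hpos, hgd⟩
    · refine Or.inr ⟨heq ▸ hgd, ?_, hNF, ?_, ?_⟩
      · intro hR
        obtain ⟨i, hi⟩ := hrel s.1 s.2.rep hrep hgen (by omega) (rel_scale L b hb _ hR)
        exact hψ i hi
      · intro j
        rw [lin_scale]
        exact mul_ne_zero ((map_ne_zero _).mpr hb) (hlin j)
      · rw [trunc_scale _ L b hb, ← hlog]
        exact htr
  set Y₁ := Y.filter fun t => (Gd r B t ∧ ¬ Rel (fun j i => b * L j i) t.2 ∧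
      ∃ _ : NumberField t.1, (∀ j, lin (up t.1 (fun j i => b * L j i) j) t.2 ≠ 0) ∧
        truncCount (above K t.1 S) (up t.1 (fun j i => b * L j i)) t.2 ≤
          ρ * logHeight t.2 + c) with hY₁
  have hcov : Y ⊆ Y₁ ∪ (Finset.range r).biUnion fun j => Y.filter fun t => 1 ≤ j ∧ Gd j B t := by
    intro t ht
    rcases hpart t ht with ⟨j, hj, hj1, hg⟩ | h
    · exact Finset.mem_union_right _ (Finset.mem_biUnion.mpr
        ⟨j, hj, Finset.mem_filter.mpr ⟨ht, hj1, hg⟩⟩)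
    · exact Finset.mem_union_left _ (Finset.mem_filter.mpr ⟨ht, h⟩)
  have h1 : (Y₁.card : ℝ) ≤ C * B ^ ((r : ℝ) + 1 - δ) := by
    refine hC B hB Y₁ (hNpf _ (Finset.filter_subset _ _)) ?_
    intro s hs
    exact (Finset.mem_filter.mp hs).2
  have h2 : ∀ j ∈ Finset.range r, ((Y.filter fun t => 1 ≤ j ∧ Gd j B t).card : ℝ) ≤
      D j * B ^ ((r : ℝ) + 1 - min δ (1 / 2)) := by
    intro j hj
    by_cases hj1 : 1 ≤ j
    · have h3 := hD j hj1 B hB (Y.filter fun t => 1 ≤ j ∧ Gd j B t)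
        (hNpf _ (Finset.filter_subset _ _)) (fun s hs => (Finset.mem_filter.mp hs).2.2)
      refine h3.trans ?_
      refine mul_le_mul_of_nonneg_left ?_ (hD0 j)
      refine Real.rpow_le_rpow_of_exponent_le hB ?_
      have h4 : (max n j : ℕ) + 1 ≤ r := by
        have := Finset.mem_range.mp hj
        omega
      have h5 : (((max n j : ℕ) : ℝ) + 1) ≤ r := by exact_mod_cast h4
      have h6 : min δ (1 / 2) ≤ 1 / 2 := min_le_right _ _
      linarith
    · have h3 : (Y.filter fun t => 1 ≤ j ∧ Gd j B t) = ∅ := by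
        refine Finset.filter_eq_empty_iff.mpr fun t _ h => hj1 h.1
      rw [h3, Finset.card_empty, Nat.cast_zero]
      exact mul_nonneg (hD0 j) (by positivity)
  have h3 : C * B ^ ((r : ℝ) + 1 - δ) ≤ |C| * B ^ ((r : ℝ) + 1 - min δ (1 / 2)) := by
    have h4 : B ^ ((r : ℝ) + 1 - δ) ≤ B ^ ((r : ℝ) + 1 - min δ (1 / 2)) := by
      refine Real.rpow_le_rpow_of_exponent_le hB ?_
      have : min δ (1 / 2) ≤ δ := min_le_left _ _
      linarith
    calc C * B ^ ((r : ℝ) + 1 - δ) ≤ |C| * B ^ ((r : ℝ) + 1 - δ) :=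
          mul_le_mul_of_nonneg_right (le_abs_self C) (by positivity)
      _ ≤ _ := mul_le_mul_of_nonneg_left h4 (abs_nonneg C)
  calc (X.card : ℝ) = (Y.card : ℝ) := by rw [hYX]
    _ ≤ ((Y₁ ∪ (Finset.range r).biUnion fun j => Y.filter fun t => 1 ≤ j ∧ Gd j B t).card : ℝ) := by
        exact_mod_cast Finset.card_le_card hcov
    _ ≤ (Y₁.card : ℝ) + ∑ j ∈ Finset.range r,
          ((Y.filter fun t => 1 ≤ j ∧ Gd j B t).card : ℝ) := by
        have h5 := Finset.card_union_le Y₁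
          ((Finset.range r).biUnion fun j => Y.filter fun t => 1 ≤ j ∧ Gd j B t)
        have h6 := Finset.card_biUnion_le (s := Finset.range r)
          (t := fun j => Y.filter fun t => 1 ≤ j ∧ Gd j B t)
        have h7 := h5.trans (Nat.add_le_add_left h6 _)
        exact_mod_cast h7
    _ ≤ |C| * B ^ ((r : ℝ) + 1 - min δ (1 / 2)) +
          ∑ j ∈ Finset.range r, D j * B ^ ((r : ℝ) + 1 - min δ (1 / 2)) :=
        add_le_add (h1.trans h3) (Finset.sum_le_sum h2)
    _ = (|C| + ∑ j ∈ Finset.range r, D j) * B ^ ((r : ℝ) + 1 - min δ (1 / 2)) := by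
        rw [add_mul, Finset.sum_mul]

end Pool.Agent.Lib.MP_44a246_ntAL
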