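import Pool.Agent.Lib.MP_44a246_ntAL.FA3a
import Pool.Agent.Lib.MP_44a246_ntAL.FA3b
import Pool.Agent.Lib.MP_44a246_ntAL.FA3c
import Pool.Agent.Lib.MP_44a246_ntSR.SR11

set_option autoImplicit false

open NumberField IsDedekindDomain Height MvPolynomial
open Pool.Agent.Lib.MP_4d5ce1_nt (fa nv ordv)
open Pool.Agent.Lib.MP_44a246_ntNF
open Pool.Agent.Lib.MP_44a246_ntNU

namespace Pool.Agent.Lib.MP_44a246_ntAL

universe u

variable {K : Type u} [Field K] [NumberField K] {n q : ℕ}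


theorem det2_ne_zero {K : Type*} [Field K] {x y : Fin 2 → K}
    (h : LinearIndependent K ![x, y]) : x 0 * y 1 - x 1 * y 0 ≠ 0 := by
  intro h0
  rw [LinearIndependent.pair_iff] at h
  have h1 := h (y 1) (-x 1) (by
    ext i
    fin_cases i
    · simp only [Fin.zero_eta, Pi.add_apply, Pi.smul_apply, smul_eq_mul, Pi.zero_apply]
      linear_combination h0
    · simp only [Fin.mk_one, Pi.add_apply, Pi.smul_apply, smul_eq_mul, Pi.zero_apply]
      ring)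
  have h2 := h (y 0) (-x 0) (by
    ext i
    fin_cases i
    · simp only [Fin.zero_eta, Pi.add_apply, Pi.smul_apply, smul_eq_mul, Pi.zero_apply]
      ring
    · simp only [Fin.mk_one, Pi.add_apply, Pi.smul_apply, smul_eq_mul, Pi.zero_apply]
      linear_combination -h0)
  have hy : y = 0 := by
    ext i
    fin_cases i
    · exact h2.1
    · exact h1.1
  have h3 := h 0 1 (by rw [hy]; simp)
  exact one_ne_zero h3.2

/-- FA4, part (i) -/
theorem hyper_i (hn : 1 ≤ n) (hq : n + 1 ≤ q) (L : Fin q → Fin (n + 1) → K)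
    (hL : ∀ J : Fin (n + 1) → Fin q, Function.Injective J → LinearIndependent K fun s => L (J s))
    {S : Set (HeightOneSpectrum (𝓞 K))} (hS : S.Finite) (r : ℕ) (hr : 1 ≤ r) (ρ c η : ℝ)
    (hρ0 : 0 ≤ ρ) (hη : 0 < η) (hm : min n r = 1) (hM : 1 < max n r) (hρ : ρ ≤ q) :
    ∃ C : ℝ, ∀ B : ℝ, 1 ≤ B → ∀ X : Finset (Pj K n), (∀ s ∈ X, Vio S L r ρ c B s) →
      (X.card : ℝ) ≤ C * B ^ ((max n r : ℕ) + 1 - min 1 (q - ρ) + η) := by
  rcases Nat.lt_or_ge 1 n with h1 | h1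
  · have hr1 : r = 1 := by omega
    subst hr1
    obtain ⟨C, hC⟩ := rat_count h1 hq hS L hL ρ c η hρ hη
    refine ⟨C, fun B hB X hX => ?_⟩
    have h2 : max n 1 = n := by omega
    rw [h2]
    exact hC B hB X hX
  · have hn1 : n = 1 := by omega
    subst hn1
    have hr2 : 2 ≤ r := by omega
    have hL' : ∀ a b : Fin q, a ≠ b → L a 0 * L b 1 - L a 1 * L b 0 ≠ 0 := by
      intro a b hab
      refine det2_ne_zero ?_
      have h3 := hL ![a, b] (by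
        intro i j hij
        fin_cases i <;> fin_cases j
        · rfl
        · exact absurd hij hab
        · exact absurd hij hab.symm
        · rfl)
      convert h3 using 1
      ext i
      fin_cases i <;> rfl
    have hL0 : ∀ l, L l ≠ 0 := by
      intro l hl
      obtain ⟨l', hl'⟩ : ∃ l' : Fin q, l' ≠ l := by
        by_cases h4 : l = ⟨0, by omega⟩
        · refine ⟨⟨1, by omega⟩, ?_⟩
          rw [h4]
          intro h5
          have := congrArg Fin.val h5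
          simp at this
        · exact ⟨⟨0, by omega⟩, fun h => h4 h.symm⟩
      refine hL' l' l hl' ?_
      rw [hl]
      simp
    obtain ⟨C, hC⟩ := MP_44a246_ntSR.sym_countD hS L hL0 hL' r hr2 ρ c η hρ0 hρ hη
    refine ⟨C, fun B hB X hX => ?_⟩
    have h2 : max 1 r = r := by omega
    rw [h2]
    exact hC B hB X hX

/-- FA4 : all the hyperplane cases -/
theorem hyper_final (hn : 1 ≤ n) (hq : n + 1 ≤ q) (L : Fin q → Fin (n + 1) → K)
    (hL : ∀ J : Fin (n + 1) → Fin q, Function.Injective J → LinearIndependent K fun s => L (J s)) :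
    ∃ (N : ℕ) (Ψ : Fin N → MvPolynomial (Fin (n + 1)) K),
      (∀ i, Ψ i ≠ 0 ∧ (Ψ i).IsHomogeneous n) ∧
      ∀ S : Set (HeightOneSpectrum (𝓞 K)), S.Finite → ∀ r : ℕ, 1 ≤ r → ∀ ρ c η : ℝ, 0 ≤ ρ →
        0 < η → ∃ C δ : ℝ, 0 < δ ∧ ∀ B : ℝ, 1 ≤ B → ∀ X : Finset (Pj K n),
          (∀ s ∈ X, Vio S L r ρ c B s) →
          (min n r = 1 → 1 < max n r → ρ ≤ q →
            (X.card : ℝ) ≤ C * B ^ ((max n r : ℕ) + 1 - min 1 (q - ρ) + η)) ∧
          (r < n → ρ < q → (X.card : ℝ) ≤ C * B ^ ((n : ℝ) + 1 - δ)) ∧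
          (n < r → ρ < q + 1 - n → (∀ s ∈ X, ∀ i, aeval s.2.rep (Ψ i) ≠ 0) →
            (X.card : ℝ) ≤ C * B ^ ((r : ℝ) + 1 - δ)) := by
  obtain ⟨N, Ψ, hΨ, hlt⟩ := count_lt_all hn hq L hL
  refine ⟨N, Ψ, hΨ, fun S hS r hr ρ c η hρ hη => ?_⟩
  obtain ⟨C₁, h1⟩ : ∃ C : ℝ, min n r = 1 → 1 < max n r → ρ ≤ q → ∀ B : ℝ, 1 ≤ B →
      ∀ X : Finset (Pj K n), (∀ s ∈ X, Vio S L r ρ c B s) →
        (X.card : ℝ) ≤ C * B ^ ((max n r : ℕ) + 1 - min 1 (q - ρ) + η) := by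
    by_cases h : min n r = 1 ∧ 1 < max n r ∧ ρ ≤ q
    · obtain ⟨C, hC⟩ := hyper_i hn hq L hL hS r hr ρ c η hρ hη h.1 h.2.1 h.2.2
      exact ⟨C, fun _ _ _ => hC⟩
    · exact ⟨0, fun a b c => absurd ⟨a, b, c⟩ h⟩
  obtain ⟨δ₂, C₂, hδ₂, h2⟩ : ∃ δ C : ℝ, 0 < δ ∧ (r < n → ρ < q → ∀ B : ℝ, 1 ≤ B →
      ∀ X : Finset (Pj K n), (∀ s ∈ X, Vio S L r ρ c B s) →
        (X.card : ℝ) ≤ C * B ^ ((n : ℝ) + 1 - δ)) := by
    by_cases h : r < n ∧ ρ < q
    · obtain ⟨δ, C, hδ, hC⟩ := count_gt_all hq hS L hL r hr h.1 ρ c h.2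
      exact ⟨δ, C, hδ, fun _ _ => hC⟩
    · exact ⟨1, 0, one_pos, fun a b => absurd ⟨a, b⟩ h⟩
  obtain ⟨δ₃, C₃, hδ₃, h3⟩ : ∃ δ C : ℝ, 0 < δ ∧ (n < r → ρ < q + 1 - n → ∀ B : ℝ, 1 ≤ B →
      ∀ X : Finset (Pj K n), (∀ s ∈ X, Vio S L r ρ c B s ∧ ∀ i, aeval s.2.rep (Ψ i) ≠ 0) →
        (X.card : ℝ) ≤ C * B ^ ((r : ℝ) + 1 - δ)) := by
    by_cases h : n < r ∧ ρ < q + 1 - n
    · obtain ⟨δ, C, hδ, hC⟩ := hlt S hS r h.1 ρ c h.2
      exact ⟨δ, C, hδ, fun _ _ => hC⟩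
    · exact ⟨1, 0, one_pos, fun a b => absurd ⟨a, b⟩ h⟩
  have key : ∀ {B C e e' : ℝ}, 1 ≤ B → C ≤ |C₁| + |C₂| + |C₃| → e ≤ e' →
      C * B ^ e ≤ (|C₁| + |C₂| + |C₃|) * B ^ e' := by
    intro B C e e' hB hC he
    have h4 : 0 ≤ B ^ e := Real.rpow_nonneg (by linarith) _
    have h5 : 0 ≤ |C₁| + |C₂| + |C₃| := by positivity
    exact (mul_le_mul_of_nonneg_right hC h4).trans
      (mul_le_mul_of_nonneg_left (Real.rpow_le_rpow_of_exponent_le hB he) h5)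
  refine ⟨|C₁| + |C₂| + |C₃|, min δ₂ δ₃, lt_min hδ₂ hδ₃, fun B hB X hX => ⟨?_, ?_, ?_⟩⟩
  · intro a b c'
    refine (h1 a b c' B hB X hX).trans (key hB ?_ le_rfl)
    have := le_abs_self C₁
    have := abs_nonneg C₂
    have := abs_nonneg C₃
    linarith
  · intro a b
    refine (h2 a b B hB X hX).trans (key hB ?_ ?_)
    · have := le_abs_self C₂
      have := abs_nonneg C₁
      have := abs_nonneg C₃
      linarith
    · have := min_le_left δ₂ δ₃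
      linarith
  · intro a b c'
    refine (h3 a b B hB X fun s hs => ⟨hX s hs, c' s hs⟩).trans (key hB ?_ ?_)
    · have := le_abs_self C₃
      have := abs_nonneg C₁
      have := abs_nonneg C₂
      linarith
    · have := min_le_right δ₂ δ₃
      linarith

end Pool.Agent.Lib.MP_44a246_ntAL
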