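import Pool.Agent.Lib.MP_44a246_ntAL.BadDefs

/-!
# Almost all points of bounded degree: definitions for `n ≤ r`
-/

set_option autoImplicit false

open NumberField IsDedekindDomain Height
open Pool.Agent.Lib.MP_4d5ce1_nt (fa nv ordv)
open Pool.Agent.Lib.MP_44a246_ntNF
open Pool.Agent.Lib.MP_44a246_ntNU

namespace Pool.Agent.Lib.MP_44a246_ntAL

universe u

section gen
variable {K : Type u} [Field K] [NumberField K] {n q : ℕ}

/-- As `Bad`, but in the last case the ratio of the two forms generates the field. -/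
def BadG {E : Type*} [Field E] [NumberField E] [Algebra K E]
    (S₀ : Finset (HeightOneSpectrum (𝓞 K))) (L : Fin q → Fin (n + 1) → K) (ε : ℝ)
    (y : Fin (n + 1) → E) : Prop :=
  (∃ (j : Fin q) (w : InfinitePlace E), w (lin (up E L j) y) ≤ ε * ti y w) ∨
  (∃ (j : Fin q) (w : HeightOneSpectrum (𝓞 E)),
    w ∈ above K E (S₀ : Set (HeightOneSpectrum (𝓞 K))) ∧
      fa w (lin (up E L j) y) ≤ ε * tf y w) ∨
  (∃ (j : Fin q) (k : HeightOneSpectrum (𝓞 E) →₀ ℕ),
    (∀ w ∈ k.support, w ∉ above K E (S₀ : Set (HeightOneSpectrum (𝓞 K)))) ∧ 1 ≤ ε * Nk k ∧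
      ∀ w ∈ k.support, fa w (lin (up E L j) y) * nv w ^ (2 * k w) ≤ tf y w) ∨
  ∃ (i j : Fin q) (W : Finset (HeightOneSpectrum (𝓞 E))),
    IntermediateField.adjoin K {lin (up E L i) y / lin (up E L j) y} = ⊤ ∧
    (∀ w ∈ W, w ∉ above K E (S₀ : Set (HeightOneSpectrum (𝓞 K)))) ∧ 1 ≤ ε * NN W ∧
      ∀ w ∈ W, fa w (lin (up E L i) y) * nv w ≤ tf y w ∧ fa w (lin (up E L j) y) * nv w ≤ tf y w

/-- `n` relations over `K` between the values of the forms. -/
def Rel {E : Type*} [Field E] [Algebra K E] (L : Fin q → Fin (n + 1) → K)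
    (y : Fin (n + 1) → E) : Prop :=
  ∃ i b : Fin n → Fin q, Function.Injective i ∧ (∀ s t, b s ≠ i t) ∧
    ∀ s, ∃ κ : K, lin (up E L (i s)) y = algebraMap K E κ * lin (up E L (b s)) y

/-- `E` has a field different from `K` and `E` between `K` and `E`. -/
def Imp (K E : Type*) [Field K] [Field E] [Algebra K E] : Prop :=
  ∃ F : IntermediateField K E, F ≠ ⊥ ∧ F ≠ ⊤

end gen

end Pool.Agent.Lib.MP_44a246_ntAL
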