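import Pool.Agent.Lib.MP_44a246_ntNW.Final
import Pool.Agent.Lib.MP_44a246_ntAL.EF4
import Pool.Agent.Lib.MP_44a246_ntAL.FDefs

set_option autoImplicit false

open NumberField IsDedekindDomain Height MvPolynomial
open Pool.Agent.Lib.MP_44a246_ntNF
open Pool.Agent.Lib.MP_44a246_ntNU
open Pool.Agent.Lib.MP_44a246_ntNW

namespace Pool.Agent.Lib.MP_44a246_ntAL

universe u

/-- The forms with given coefficients. -/
theorem exists_poly {K : Type u} [Field K] {n q : ℕ} (L : Fin q → Fin (n + 1) → K) :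
    ∃ G : Fin q → MvPolynomial (Fin (n + 1)) K, (∀ j, (G j).IsHomogeneous 1) ∧ co G = L := by
  refine ⟨fun j => ∑ i, C (L j i) * X i, fun j => ?_, ?_⟩
  · refine IsHomogeneous.sum _ _ _ fun i _ => ?_
    have h1 := (isHomogeneous_X K i).C_mul (L j i)
    exact h1
  · funext j i
    unfold co
    rw [coeff_sum]
    rw [Finset.sum_eq_single i]
    · rw [coeff_C_mul, coeff_X]
      simp
    · intro b _ hb
      rw [coeff_C_mul, coeff_X, if_neg, mul_zero]
      intro h
      exact hb (Finsupp.single_left_injective one_ne_zero h)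
    · intro h
      exact absurd (Finset.mem_univ _) h

/-- Rational points of the line. -/
theorem line_one {K : Type u} [Field K] [NumberField K] {q : ℕ} (hq : 1 + 1 ≤ q)
    (L : Fin q → Fin (1 + 1) → K)
    (hL : ∀ J : Fin (1 + 1) → Fin q, Function.Injective J → LinearIndependent K fun s => L (J s))
    (S : Set (HeightOneSpectrum (𝓞 K))) (hS : S.Finite) (ρ c : ℝ) (hρ : 0 ≤ ρ) (hρq : ρ < q) :
    ∃ C δ : ℝ, 0 < δ ∧ ∀ B : ℝ, 1 ≤ B → ∀ X : Finset (Pj K 1), (∀ s ∈ X, Vio S L 1 ρ c B s) →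
      (X.card : ℝ) ≤ C * B ^ ((1 : ℝ) + 1 - δ) := by
  obtain ⟨G, hG, hGL⟩ := exists_poly L
  have h : ∀ J : Fin (1 + 1) → Fin q, Function.Injective J →
      ∀ x : Fin (1 + 1) → AlgebraicClosure K, (∀ i, aeval x (G (J i)) = 0) → x = 0 := by
    intro J hJ x hx
    let A : Matrix (Fin (1 + 1)) (Fin (1 + 1)) K := fun i => L (J i)
    have hA : A.det ≠ 0 := by
      have h1 : IsUnit A := Matrix.linearIndependent_rows_iff_isUnit.mp (hL J hJ)
      exact ((Matrix.isUnit_iff_isUnit_det A).mp h1).ne_zero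
    have hA' : (A.map (algebraMap K (AlgebraicClosure K))).det ≠ 0 := by
      rw [← RingHom.mapMatrix_apply, ← RingHom.map_det]
      exact (map_ne_zero_iff _ (algebraMap K (AlgebraicClosure K)).injective).mpr hA
    refine Matrix.eq_zero_of_mulVec_eq_zero hA' ?_
    funext i
    have h2 := hx i
    rw [aeval_eq_lin hG, hGL] at h2
    exact h2
  obtain ⟨N, Φ, -, -, h3, h4⟩ := final (t := 0) (n := 1) le_rfl hq (fun l => l.elim0)
    (fun l => l.elim0) (fun l => l.elim0) G (fun _ => 1) (fun _ => le_rfl) hG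
    (fun J hJ x _ hx => h J hJ x hx)
  have hN : ∀ i : Fin N, False := by
    intro i
    obtain ⟨b, C, A, _, _, _, _, h5, h6, _⟩ := h3 rfl rfl (fun _ => rfl) i
    omega
  have hq0 : (0 : ℝ) < q := by
    have : 0 < q := by omega
    exact_mod_cast this
  have hNF : NumberField (⊥ : IntermediateField K (AlgebraicClosure K)) :=
    NumberField.of_module_finite K _
  set η : ℝ := 1 - ρ / q with hη
  have hη0 : 0 < η := by
    rw [hη]
    have : ρ / q < 1 := (div_lt_one hq0).mpr hρq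
    linarith
  obtain ⟨C, hC⟩ := h4 S hS 1 le_rfl (2 / q) 0 ρ (by positivity) le_rfl hρ (by
    intro s hs1 hs2
    obtain rfl : s = 1 := by omega
    have e1 : q + 1 - 1 - 2 = q - 2 := by omega
    rw [e1, Nat.choose_one_right, Nat.choose_one_right, Nat.cast_sub (by omega)]
    have : 1 - ((q : ℝ) - (2 : ℕ)) / q = 2 / q := by
      field_simp
      push_cast
      ring
    rw [this]
    simp) (c + Real.log (discNorm K (⊥ : IntermediateField K (AlgebraicClosure K)))) η hη0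
  refine ⟨C, η, hη0, ?_⟩
  intro B hB X hX
  have h5 := (hC B hB X (by
    intro s hs
    obtain ⟨a1, a2, _, a3, a4, a5⟩ := hX s hs
    refine ⟨a1, a2, fun l => l.elim0, fun j => ?_, fun i => (hN i).elim, a4, ?_⟩
    · rw [aeval_eq_lin hG, hGL]
      exact a3 j
    have h6 : s.1 = ⊥ := by
      have := a1
      have : FiniteDimensional K s.1 := Module.Finite.of_restrictScalars_finite ℚ K s.1
      have hpos : 0 < Module.finrank K s.1 := Module.finrank_pos
      exact IntermediateField.finrank_eq_one_iff.mp (by omega)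
    have h7 : discNorm K s.1 = discNorm K (⊥ : IntermediateField K (AlgebraicClosure K)) := by
      obtain ⟨F, P⟩ := s
      subst h6
      rfl
    rw [h7, trCount_lin hG, hGL]
    linarith)).1
  refine h5.trans (le_of_eq ?_)
  congr 2
  have e2 : max (0 : ℝ) ((if (1 : ℕ) = 1 then 0 else (((1 : ℕ) : ℝ) + 2) / 4) - 2 / q) = 0 := by
    rw [if_pos rfl]
    apply max_eq_left
    have : (0 : ℝ) ≤ 2 / q := by positivity
    linarith
  rw [e2, hη]
  field_simp
  ring

theorem vio_max {K : Type u} [Field K] [NumberField K] {n q r : ℕ}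
    {S : Set (HeightOneSpectrum (𝓞 K))} {L : Fin q → Fin (n + 1) → K} {ρ c B : ℝ} {s : Pj K n}
    (h : Vio S L r ρ c B s) : Vio S L r (max ρ 0) c B s := by
  obtain ⟨a1, a2, a3, a4, a5, a6⟩ := h
  refine ⟨a1, a2, a3, a4, a5, a6.trans ?_⟩
  have h1 : 0 ≤ s.2.logHeight := Projectivization.logHeight_nonneg _
  have h2 := mul_le_mul_of_nonneg_right (le_max_left ρ 0) h1
  linarith

theorem min_max_le {q ρ : ℝ} (hq : 1 ≤ q) : min (1 : ℝ) (q - ρ) ≤ min 1 (q - max ρ 0) := by
  apply le_min (min_le_left _ _)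
  rcases le_total ρ 0 with h0 | h0
  · rw [max_eq_right h0]
    have := min_le_left (1 : ℝ) (q - ρ)
    linarith
  · rw [max_eq_left h0]
    exact min_le_right _ _

theorem le_up {N C C' B x y : ℝ} (hB : 1 ≤ B) (hC : C ≤ C') (hC' : 0 ≤ C') (hxy : y ≤ x)
    (h : N ≤ C * B ^ y) : N ≤ C' * B ^ x := by
  have hB0 : 0 < B := by linarith
  refine h.trans ?_
  calc C * B ^ y ≤ C' * B ^ y := mul_le_mul_of_nonneg_right hC (Real.rpow_pos_of_pos hB0 _).le
    _ ≤ C' * B ^ x := mul_le_mul_of_nonneg_left (Real.rpow_le_rpow_of_exponent_le hB hxy) hC'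

/-- Points of degree at most `r` of the line. -/
theorem line_all {K : Type u} [Field K] [NumberField K] {q : ℕ} (hq : 1 + 1 ≤ q)
    (L : Fin q → Fin (1 + 1) → K)
    (hL : ∀ J : Fin (1 + 1) → Fin q, Function.Injective J → LinearIndependent K fun s => L (J s))
    (S : Set (HeightOneSpectrum (𝓞 K))) (hS : S.Finite) (r : ℕ) (hr : 1 ≤ r) (ρ c η : ℝ)
    (hη : 0 < η) :
    ∃ C δ : ℝ, 0 < δ ∧ ∀ B : ℝ, 1 ≤ B → ∀ X : Finset (Pj K 1), (∀ s ∈ X, Vio S L r ρ c B s) →
      (ρ < q → (X.card : ℝ) ≤ C * B ^ ((r : ℝ) + 1 - δ)) ∧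
      (2 ≤ r → ρ ≤ q → (X.card : ℝ) ≤ C * B ^ ((r : ℝ) + 1 - min 1 (q - ρ) + η)) := by
  obtain ⟨N, Ψ, -, hcount⟩ := hyper_final2 le_rfl hq L hL
  have hq1 : (1 : ℝ) ≤ q := by
    have : 1 ≤ q := by omega
    exact_mod_cast this
  obtain ⟨C1, δ1, hδ1, hC1⟩ := hcount S hS r hr (max ρ 0) c η (le_max_right _ _) hη
  obtain ⟨C2, δ2, hδ2, hC2⟩ : ∃ C δ : ℝ, 0 < δ ∧ (ρ < q → ∀ B : ℝ, 1 ≤ B →
      ∀ X : Finset (Pj K 1), (∀ s ∈ X, Vio S L r (max ρ 0) c B s) →
      (X.card : ℝ) ≤ C * B ^ ((r : ℝ) + 1 - δ)) := by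
    by_cases hρ : ρ < q
    · have hρ' : max ρ 0 < q := max_lt hρ (by linarith)
      by_cases hr2 : 2 ≤ r
      · set η' : ℝ := min 1 (q - max ρ 0) / 2 with hη'
        have hm : 0 < min (1 : ℝ) (q - max ρ 0) := lt_min one_pos (by linarith)
        have hη'0 : 0 < η' := by positivity
        obtain ⟨C, δ, _, hC⟩ := hcount S hS r hr (max ρ 0) c η' (le_max_right _ _) hη'0
        refine ⟨|C|, η', hη'0, ?_⟩
        intro _ B hB X hX
        have h1 := (hC B hB X hX).1 (by omega) (by omega) hρ'.le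
        have h2 : max 1 r = r := by omega
        rw [h2] at h1
        refine le_up hB (le_abs_self C) (abs_nonneg C) ?_ h1
        have h3 : min (1 : ℝ) (q - max ρ 0) = 2 * η' := by
          rw [hη']
          ring
        rw [h3]
        linarith
      · obtain rfl : r = 1 := by omega
        obtain ⟨C, δ, hδ, hC⟩ := line_one hq L hL S hS (max ρ 0) c (le_max_right _ _) hρ'
        refine ⟨C, δ, hδ, ?_⟩
        intro _ B hB X hX
        have h1 := hC B hB X hX
        push_cast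
        exact h1
    · exact ⟨0, 1, one_pos, fun h => (hρ h).elim⟩
  refine ⟨max C1 0 + max C2 0, δ2, hδ2, ?_⟩
  intro B hB X hX
  have a1 := le_max_left C1 0
  have a2 := le_max_right C1 0
  have a3 := le_max_left C2 0
  have a4 := le_max_right C2 0
  refine ⟨fun h => ?_, fun h2 h => ?_⟩
  · exact le_up hB (by linarith) (by linarith) le_rfl (hC2 h B hB X fun s hs => vio_max (hX s hs))
  · have h1 := (hC1 B hB X fun s hs => vio_max (hX s hs)).1 (by omega) (by omega)
      (max_le h (by linarith))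
    have h3 : max 1 r = r := by omega
    rw [h3] at h1
    refine le_up hB (by linarith) (by linarith) ?_ h1
    have := min_max_le (ρ := ρ) hq1
    linarith

/-- Points of degree at most `r` of projective space, hyperplanes in general position. -/
theorem hyper_all {K : Type u} [Field K] [NumberField K] {n q : ℕ} (hn : 1 ≤ n) (hq : n + 1 ≤ q)
    (L : Fin q → Fin (n + 1) → K)
    (hL : ∀ J : Fin (n + 1) → Fin q, Function.Injective J → LinearIndependent K fun s => L (J s)) :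
    ∃ (N : ℕ) (Ψ : Fin N → MvPolynomial (Fin (n + 1)) K), (n = 1 → N = 0) ∧
      (∀ i, Ψ i ≠ 0 ∧ (Ψ i).IsHomogeneous n) ∧
      ∀ S : Set (HeightOneSpectrum (𝓞 K)), S.Finite → ∀ r : ℕ, 1 ≤ r → ∀ ρ c η : ℝ, 0 < η →
        ∃ C δ : ℝ, 0 < δ ∧ ∀ B : ℝ, 1 ≤ B →
          ∀ X : Finset (Σ E : IntermediateField K (AlgebraicClosure K),
            Projectivization E (Fin (n + 1) → E)),
          (∀ s ∈ X, ∃ _ : NumberField s.1, Module.finrank K s.1 ≤ r ∧
            IntermediateField.adjoin K {z | ∃ i k, z = s.2.rep i / s.2.rep k} = ⊤ ∧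
            (∀ j, lin (up s.1 L j) s.2.rep ≠ 0) ∧ s.2.mulHeight ≤ B ∧
            truncCount (above K s.1 S) (up s.1 L) s.2.rep ≤ ρ * s.2.logHeight + c) →
          (r < n → ρ < q → (X.card : ℝ) ≤ C * B ^ ((n : ℝ) + 1 - δ)) ∧
          (n ≤ r → ρ < q + 1 - n → (∀ s ∈ X, ∀ i, aeval s.2.rep (Ψ i) ≠ 0) →
            (X.card : ℝ) ≤ C * B ^ ((r : ℝ) + 1 - δ)) ∧
          (min n r = 1 → 1 < max n r → ρ ≤ q →
            (X.card : ℝ) ≤ C * B ^ ((max n r : ℕ) + 1 - min 1 (q - ρ) + η)) := by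
  by_cases hn1 : n = 1
  · subst hn1
    refine ⟨0, fun i => i.elim0, fun _ => rfl, fun i => i.elim0, ?_⟩
    intro S hS r hr ρ c η hη
    obtain ⟨C, δ, hδ, hC⟩ := line_all hq L hL S hS r hr ρ c η hη
    refine ⟨C, δ, hδ, ?_⟩
    intro B hB X hX
    obtain ⟨h1, h2⟩ := hC B hB X hX
    refine ⟨fun h => by omega, fun _ h _ => ?_, fun _ h h' => ?_⟩
    · apply h1
      push_cast at h
      linarith
    · have h3 : max 1 r = r := by omega
      rw [h3]
      exact h2 (by omega) h'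
  obtain ⟨N, Ψ, hΨ, hcount⟩ := hyper_final2 hn hq L hL
  refine ⟨N, Ψ, fun h => absurd h hn1, hΨ, ?_⟩
  intro S hS r hr ρ c η hη
  obtain ⟨C1, δ1, hδ1, hC1⟩ := hcount S hS r hr (max ρ 0) c η (le_max_right _ _) hη
  refine ⟨|C1|, δ1, hδ1, ?_⟩
  intro B hB X hX
  have hqn : (n : ℝ) + 1 ≤ q := by exact_mod_cast hq
  have hn0 : (0 : ℝ) ≤ n := Nat.cast_nonneg n
  obtain ⟨k1, k2, k3⟩ := hC1 B hB X fun s hs => vio_max (hX s hs)
  refine ⟨fun a b => ?_, fun a b d => ?_, fun a b d => ?_⟩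
  · exact le_up hB (le_abs_self _) (abs_nonneg _) le_rfl (k2 a (max_lt b (by linarith)))
  · exact le_up hB (le_abs_self _) (abs_nonneg _) le_rfl
      (k3 a (by omega) (max_lt b (by linarith)) d)
  · refine le_up hB (le_abs_self _) (abs_nonneg _) ?_ (k1 a b (max_le d (by linarith)))
    have := min_max_le (q := (q : ℝ)) (ρ := ρ) (by linarith)
    linarith

end Pool.Agent.Lib.MP_44a246_ntAL
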