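import Pool.Agent.Lib.MP_44a246_ntAL.Defs

set_option autoImplicit false

open NumberField IsDedekindDomain Height
open Pool.Agent.Lib.MP_4d5ce1_nt (fa nv ordv)
open Pool.Agent.Lib.MP_44a246_ntNF
open Pool.Agent.Lib.MP_44a246_ntNU

namespace Pool.Agent.Lib.MP_44a246_ntAL

universe u

/-- AL0 : the weights of a vector -/
theorem adm_tf {E : Type*} [Field E] [NumberField E] {m : ℕ} (x : Fin m → E) (hx : x ≠ 0) :
    Adm (tf x) (ti x) ∧ hb (tf x) (ti x) = mulHeight x := by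
  sorry

/-- AL1 : cells -/
theorem cell (D : ℕ) : ∃ C : ℝ, 1 ≤ C ∧ ∀ (E : Type u) [Field E] [NumberField E],
    Module.finrank ℚ E ≤ D → ∀ b : InfinitePlace E → ℝ, (∀ w, 0 < b w) →
      ∀ s s' : ℝ, 0 < s → 0 < s' → ∀ Y : Finset E, Y.Nonempty →
        (∀ y ∈ Y, ∀ w : InfinitePlace E, w y ≤ s * b w) →
        ∃ Y' ⊆ Y, Y'.Nonempty ∧
          (Y.card : ℝ) ≤ C * (1 + s / s') ^ Module.finrank ℚ E * Y'.card ∧
          ∀ y ∈ Y', ∀ z ∈ Y', ∀ w : InfinitePlace E, w (y - z) ≤ s' * b w := by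
  sorry

/-- AL2 : adelic packing, uniform in the field -/
theorem adelic_card (D : ℕ) : ∃ C : ℝ, 0 < C ∧ ∀ (E : Type u) [Field E] [NumberField E],
    Module.finrank ℚ E ≤ D → ∀ (a : HeightOneSpectrum (𝓞 E) → ℝ) (b : InfinitePlace E → ℝ),
      (∀ w, 0 < a w) → (Function.mulSupport a).Finite → (∀ w, 0 < b w) →
      ∀ Y : Finset E, (∀ y ∈ Y, y ≠ 0 ∧ y ∈ Bx a b 1) → (Y.card : ℝ) ≤ C * hb a b := by
  sorry

/-- AL2b : boxes are finite; their size -/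
theorem box_finite {E : Type*} [Field E] [NumberField E]
    {a : HeightOneSpectrum (𝓞 E) → ℝ} {b : InfinitePlace E → ℝ} (h : Adm a b) (s : ℝ) :
    (Bx a b s).Finite := by
  sorry

theorem ncard_growth (D : ℕ) : ∃ C : ℝ, 1 ≤ C ∧ ∀ (E : Type u) [Field E] [NumberField E],
    Module.finrank ℚ E ≤ D → ∀ (a : HeightOneSpectrum (𝓞 E) → ℝ) (b : InfinitePlace E → ℝ),
      Adm a b → ∀ s s' : ℝ, 0 < s → 0 < s' → ((Bx a b s).ncard : ℝ) ≤
        C * (1 + s / s') ^ Module.finrank ℚ E * (Bx a b s').ncard := by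
  sorry

theorem ncard_le (D : ℕ) : ∃ C : ℝ, 1 ≤ C ∧ ∀ (E : Type u) [Field E] [NumberField E],
    Module.finrank ℚ E ≤ D → ∀ (a : HeightOneSpectrum (𝓞 E) → ℝ) (b : InfinitePlace E → ℝ),
      Adm a b → ∀ s : ℝ, 0 < s → ((Bx a b s).ncard : ℝ) ≤
        1 + C * s ^ Module.finrank ℚ E * hb a b := by
  sorry

/-- AL3 : the number of intermediate fields -/
theorem card_intermediate (r : ℕ) : ∃ N : ℕ, ∀ (K E : Type u) [Field K] [NumberField K] [Field E]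
    [NumberField E] [Algebra K E], Module.finrank K E = r →
      ∃ A : Finset (IntermediateField K E), A.card ≤ N ∧ ∀ F, F ∈ A := by
  sorry

/-- AL4 : packing in a line over a subfield -/
theorem subline (D : ℕ) : ∃ C : ℝ, 1 ≤ C ∧ ∀ (K E : Type u) [Field K] [NumberField K] [Field E]
    [NumberField E] [Algebra K E], Module.finrank ℚ E ≤ D → ∀ (F : IntermediateField K E)
      (a : HeightOneSpectrum (𝓞 E) → ℝ) (b : InfinitePlace E → ℝ), Adm a b →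
      ∀ u : E, u ≠ 0 → ∀ l s : ℝ, 0 < l → 0 < s →
      (∀ z : E, z ≠ 0 → (∀ w, fa w z ≤ a w) → ∃ w : InfinitePlace E, l * b w ≤ w z) →
      ∀ Y : Finset E, (∀ y ∈ Y, y ∈ Bx a b s ∧ ∃ e ∈ F, y = u * e) →
        (Y.card : ℝ) ≤ C * (1 + s / l) ^ Module.finrank ℚ F := by
  sorry

/-- AL5 : a combination of the coordinates which generates the field -/
theorem exists_combo (r m : ℕ) : ∃ N : ℕ, ∀ (K E : Type u) [Field K] [NumberField K] [Field E]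
    [NumberField E] [Algebra K E], Module.finrank K E = r → ∀ x : Fin m → E,
      IntermediateField.adjoin K {z : E | ∃ i k, z = x i / x k} = ⊤ → ∀ u : E, u ≠ 0 →
        ∃ c : Fin m → ℕ, (∀ i, c i ≤ N) ∧
          IntermediateField.adjoin K {(∑ i, (c i : E) * x i) / u} = ⊤ := by
  sorry

/-- AL6 : a small pair of elements which generates the field -/
theorem gen_pair (r m D : ℕ) (hr : 2 ≤ r) : ∃ C : ℝ, 1 ≤ C ∧ ∀ (K E : Type u) [Field K]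
    [NumberField K] [Field E] [NumberField E] [Algebra K E], Module.finrank ℚ E ≤ D →
      Module.finrank K E = r →
      ∀ (a : HeightOneSpectrum (𝓞 E) → ℝ) (b : InfinitePlace E → ℝ), Adm a b →
      ∀ x : Fin m → E, (∀ i, x i ∈ Bx a b 1) →
        IntermediateField.adjoin K {z : E | ∃ i k, z = x i / x k} = ⊤ →
        ∃ (u z : E) (l1 l2 : ℝ), 0 < l1 ∧ l1 ≤ 1 ∧ 0 < l2 ∧ l2 ≤ C ∧ u ≠ 0 ∧ u ∈ Bx a b l1 ∧
          z ∈ Bx a b l2 ∧ IntermediateField.adjoin K {z / u} = ⊤ ∧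
          ((Bx a b 1).ncard : ℝ) ^ 2 * (l1 * l2) ^ Module.finrank ℚ E ≤ C := by
  sorry

/-- AL7 : primes above a prime, norms -/
theorem mem_ov {K E : Type*} [Field K] [NumberField K] [Field E] [NumberField E] [Algebra K E]
    (v : HeightOneSpectrum (𝓞 K)) (w : HeightOneSpectrum (𝓞 E)) :
    w ∈ ov K E v ↔ w.asIdeal.comap (algebraMap (𝓞 K) (𝓞 E)) = v.asIdeal := by
  sorry

theorem fa_norm {K E : Type*} [Field K] [NumberField K] [Field E] [NumberField E] [Algebra K E]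
    (v : HeightOneSpectrum (𝓞 K)) (z : E) :
    fa v (Algebra.norm K z) = ∏ w ∈ ov K E v, fa w z := by
  sorry

/-- AL8 : coefficients of `N(u T - z)` at the finite places -/
theorem coeff_fin {K E : Type u} [Field K] [NumberField K] [Field E] [NumberField E] [Algebra K E]
    (v : HeightOneSpectrum (𝓞 K)) (u z : E) (hu : u ≠ 0)
    (h : IntermediateField.adjoin K {z / u} = ⊤) (i : ℕ) :
    fa v (Algebra.norm K u * (minpoly K (z / u)).coeff i) ≤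
      ∏ w ∈ ov K E v, max (fa w u) (fa w z) := by
  sorry

/-- AL9 : norms and coefficients at the infinite places -/
theorem norm_inf {K E : Type*} [Field K] [NumberField K] [Field E] [NumberField E] [Algebra K E]
    (v : InfinitePlace K) (z : E) :
    v (Algebra.norm K z) ^ v.mult = ∏ w ∈ oi K E v, w z ^ w.mult := by
  sorry

theorem coeff_inf {K E : Type u} [Field K] [NumberField K] [Field E] [NumberField E] [Algebra K E]
    (r : ℕ) (hr : Module.finrank K E = r) (v : InfinitePlace K) (b : InfinitePlace E → ℝ)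
    (hb : ∀ w, 0 < b w) (l1 l2 : ℝ) (h1 : 0 ≤ l1) (h2 : 0 ≤ l2) (u z : E) (hu : u ≠ 0)
    (hu1 : ∀ w : InfinitePlace E, w u ≤ l1 * b w) (hz : ∀ w : InfinitePlace E, w z ≤ l2 * b w)
    (h : IntermediateField.adjoin K {z / u} = ⊤) (i : ℕ) (hi : i ≤ r) :
    v (Algebra.norm K u * (minpoly K (z / u)).coeff i) ^ v.mult ≤
      (2 ^ r * l1 ^ i * l2 ^ (r - i)) ^ v.mult * ∏ w ∈ oi K E v, b w ^ w.mult := by
  sorry

/-- AL10 : a scalar which balances the weights -/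
theorem exists_scale (K : Type*) [Field K] [NumberField K] : ∃ C : ℝ, 1 ≤ C ∧
    ∀ (a : HeightOneSpectrum (𝓞 K) → ℝ) (b : InfinitePlace K → ℝ), Adm a b →
      ∃ c : K, c ≠ 0 ∧ (∀ v, fa v c * a v ≤ 1) ∧ ∀ v : InfinitePlace K,
        v c * b v ≤ C * hb a b ^ ((Module.finrank ℚ K : ℝ)⁻¹) := by
  sorry

/-- AL12 : the normal form -/
theorem normal_form {K : Type u} [Field K] [NumberField K] (r : ℕ) : ∃ C : ℝ, 1 ≤ C ∧
    ∀ (E : Type u) [Field E] [NumberField E] [Algebra K E], Module.finrank K E = r →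
      ∀ (a : HeightOneSpectrum (𝓞 E) → ℝ) (b : InfinitePlace E → ℝ), Adm a b →
      ∃ c : K, c ≠ 0 ∧ ∀ (u z : E) (l1 l2 : ℝ), u ≠ 0 →
        IntermediateField.adjoin K {z / u} = ⊤ → 0 ≤ l1 → 0 ≤ l2 →
        (∀ w : InfinitePlace E, w u ≤ l1 * b w) → (∀ w : InfinitePlace E, w z ≤ l2 * b w) →
        (∀ v i, fa v (gv K r c u z i) ≤ ∏ w ∈ ov K E v, (max (fa w u) (fa w z) / a w)) ∧
        (∀ v, fa v (gv K r c u z (Fin.last r)) ≤ ∏ w ∈ ov K E v, fa w u / a w) ∧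
        (∀ (v : InfinitePlace K) i, v (gv K r c u z i) ≤
          C * hb a b ^ ((Module.finrank ℚ K : ℝ)⁻¹) * l1 ^ i.val * l2 ^ (r - i.val)) ∧
        ∀ v : InfinitePlace K, v (gv K r c u z (Fin.last r)) ^ v.mult ≤
          (C * hb a b ^ ((Module.finrank ℚ K : ℝ)⁻¹)) ^ v.mult *
            ∏ w ∈ oi K E v, (w u / b w) ^ w.mult := by
  sorry

/-- AL11a : families of exponents with bounded norm and given support -/
theorem card_exps (D : ℕ) (η : ℝ) (hη : 0 < η) : ∃ C : ℝ, 0 < C ∧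
    ∀ (E : Type u) [Field E] [NumberField E], Module.finrank ℚ E ≤ D → ∀ T : ℝ, 1 ≤ T →
      ∀ V : Finset (HeightOneSpectrum (𝓞 E)), NN V ≤ T →
      ∀ Y : Finset (HeightOneSpectrum (𝓞 E) →₀ ℕ), (∀ k ∈ Y, k.support ⊆ V ∧ Nk k ≤ T) →
        (Y.card : ℝ) ≤ C * T ^ η := by
  sorry

/-- AL11b : sums over the ideals, uniform in the field -/
theorem sum_ideals (D : ℕ) (p η : ℝ) (hη : 0 < η) (hp : 1 + η ≤ p) : ∃ C : ℝ, 0 < C ∧
    ∀ (E : Type u) [Field E] [NumberField E], Module.finrank ℚ E ≤ D → ∀ T : ℝ, 1 ≤ T →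
      ∀ Y : Finset (HeightOneSpectrum (𝓞 E) →₀ ℕ), (∀ k ∈ Y, T ≤ Nk k) →
        ∑ k ∈ Y, Nk k ^ (-p) ≤ C * T ^ (1 + η - p) := by
  sorry

/-- AL13 : decoding -/
theorem decode {K : Type u} [Field K] [NumberField K] (r m : ℕ) (hr : 1 ≤ r) (M η : ℝ)
    (hM : 1 ≤ M) (hη : 0 < η) : ∃ C : ℝ, 1 ≤ C ∧ ∀ B : ℝ, 1 ≤ B → ∀ (X : Finset (Vc K m))
      (c : Vc K m → K) (u z : ∀ s : Vc K m, s.1),
      (∀ s ∈ X, ∃ _ : NumberField s.1, Module.finrank K s.1 = r ∧ s.2 ≠ 0 ∧ mulHeight s.2 ≤ B ∧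
        u s ≠ 0 ∧ c s ≠ 0 ∧ u s ∈ Bx (tf s.2) (ti s.2) M ∧ z s ∈ Bx (tf s.2) (ti s.2) M ∧
        IntermediateField.adjoin K {z s / u s} = ⊤ ∧
        (∀ v i, fa v (gv K r (c s) (u s) (z s) i) ≤
          ∏ w ∈ ov K s.1 v, (max (fa w (u s)) (fa w (z s)) / tf s.2 w)) ∧
        ∀ v : InfinitePlace K, v (gv K r (c s) (u s) (z s) (Fin.last r)) ≤
          M * B ^ ((Module.finrank ℚ K : ℝ)⁻¹)) →
      ∃ R ⊆ X, (∀ s ∈ X, ∃ t ∈ R, SimV t s ∧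
          gv K r (c t) (u t) (z t) = gv K r (c s) (u s) (z s)) ∧
        ∀ R' ⊆ R, ∀ g : Fin (r + 1) → K, (∀ t ∈ R', gv K r (c t) (u t) (z t) = g) →
          (R'.card : ℝ) ≤ C * B ^ η := by
  sorry

/-- AL14a : integral vectors in a box -/
theorem card_vec (K : Type*) [Field K] [NumberField K] (r : ℕ) (hr : 1 ≤ r) (M : ℝ) (hM : 1 ≤ M) :
    ∃ C : ℝ, 1 ≤ C ∧ ∀ (B l1 l2 : ℝ), 1 ≤ B → 0 < l1 → 0 < l2 →
      1 ≤ M * (B * l1 ^ (r * Module.finrank ℚ K)) → 1 ≤ M * (B * l2 ^ (r * Module.finrank ℚ K)) →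
      ∀ G : Finset (Fin (r + 1) → K), (∀ g ∈ G, (∀ v i, fa v (g i) ≤ 1) ∧
        ∀ (v : InfinitePlace K) i, v (g i) ≤
          M * B ^ ((Module.finrank ℚ K : ℝ)⁻¹) * l1 ^ i.val * l2 ^ (r - i.val)) →
        (G.card : ℝ) ≤ C * B ^ (r + 1) *
          ((l1 * l2) ^ (r * Module.finrank ℚ K)) ^ (((r : ℝ) + 1) / 2) := by
  sorry

/-- AL14 : the number of classes -/
theorem classes {K : Type u} [Field K] [NumberField K] (r m : ℕ) (hr : 2 ≤ r) (η : ℝ)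
    (hη : 0 < η) : ∃ C : ℝ, 1 ≤ C ∧ ∀ B : ℝ, 1 ≤ B → ∀ X : Finset (Vc K m),
      (∀ s ∈ X, Gd r B s) → ∃ R ⊆ X, (∀ s ∈ X, ∃ t ∈ R, SimV t s) ∧
        ∀ F : ℝ, 1 ≤ F → ∀ R' ⊆ R, (∀ t ∈ R', F ≤ Phi t) →
          (R'.card : ℝ) ≤ C * B ^ η * (B / F) ^ (r + 1) := by
  sorry

/-- AL15a : scaling a class -/
theorem scaled {K : Type u} [Field K] {m : ℕ} (F : IntermediateField K (AlgebraicClosure K))
    [NumberField F] (x₀ : Fin m → F) (X : Finset (Vc K m)) (hX : Np X)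
    (h : ∀ s ∈ X, SimV (⟨F, x₀⟩ : Vc K m) s) :
    ∃ Y : Finset (Fin m → F), Y.card = X.card ∧ ∀ y ∈ Y,
      (∃ (x : Fin m → F) (z : F), (⟨F, x⟩ : Vc K m) ∈ X ∧ z ≠ 0 ∧ y = z • x) ∧
      (∀ w, tf y w = tf x₀ w) ∧ (∀ w : InfinitePlace F, ti y w ≤ 3 * ti x₀ w) ∧
      ∀ w : InfinitePlace F, ti x₀ w ≤ 3 * ti y w := by
  sorry

/-- AL15b : the number of elements of a class -/
theorem class_count {K : Type u} [Field K] [NumberField K] (r m : ℕ) : ∃ C : ℝ, 1 ≤ C ∧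
    ∀ (B : ℝ) (t : Vc K m), Gd r B t → ∀ X : Finset (Vc K m), Np X → (∀ s ∈ X, SimV t s) →
      (X.card : ℝ) ≤ C * (Phi t : ℝ) ^ m := by
  sorry

/-- AL15c : similar vectors have comparable boxes, and `1 ≤ Phi ≤ C * B` -/
theorem phi_sim {K : Type u} [Field K] [NumberField K] (r m : ℕ) : ∃ C : ℝ, 1 ≤ C ∧
    ∀ (B : ℝ) (s t : Vc K m), Gd r B s → Gd r B t → SimV t s →
      (Phi t : ℝ) ≤ C * Phi s ∧ (Phi s : ℝ) ≤ C * Phi t := by
  sorry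

theorem phi_bounds {K : Type u} [Field K] [NumberField K] (r m : ℕ) : ∃ C : ℝ, 1 ≤ C ∧
    ∀ (B : ℝ) (s : Vc K m), 1 ≤ B → Gd r B s → 1 ≤ Phi s ∧ (Phi s : ℝ) ≤ C * B := by
  sorry

/-- AL16 : total count in a dyadic range -/
theorem total_dyadic {K : Type u} [Field K] [NumberField K] (r m : ℕ) (hr : 2 ≤ r) (η : ℝ)
    (hη : 0 < η) : ∃ C : ℝ, 1 ≤ C ∧ ∀ B : ℝ, 1 ≤ B → ∀ X : Finset (Vc K m), Np X →
      (∀ s ∈ X, Gd r B s) → ∀ F : ℝ, 1 ≤ F → (∀ s ∈ X, F ≤ Phi s ∧ (Phi s : ℝ) ≤ 2 * F) →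
        (X.card : ℝ) ≤ C * B ^ η * (B / F) ^ (r + 1) * F ^ m := by
  sorry

theorem total_small {K : Type u} [Field K] [NumberField K] (r n : ℕ) (hr : 2 ≤ r) (hn : r ≤ n)
    (η : ℝ) (hη : 0 < η) : ∃ C : ℝ, 1 ≤ C ∧ ∀ B : ℝ, 1 ≤ B → ∀ X : Finset (Vc K (n + 1)), Np X →
      (∀ s ∈ X, Gd r B s) → ∀ F : ℝ, 1 ≤ F → (∀ s ∈ X, (Phi s : ℝ) ≤ F) →
        (X.card : ℝ) ≤ C * B ^ η * B ^ (r + 1) * F ^ (n - r) := by
  sorry

theorem total_large {K : Type u} [Field K] [NumberField K] (r n : ℕ) (hr : 2 ≤ r) (hn : n ≤ r)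
    (η : ℝ) (hη : 0 < η) : ∃ C : ℝ, 1 ≤ C ∧ ∀ B : ℝ, 1 ≤ B → ∀ X : Finset (Vc K (n + 1)), Np X →
      (∀ s ∈ X, Gd r B s) → ∀ F : ℝ, 1 ≤ F → (∀ s ∈ X, F ≤ (Phi s : ℝ)) →
        (X.card : ℝ) ≤ C * B ^ η * B ^ (r + 1) / F ^ (r - n) := by
  sorry

section bad
variable {K : Type u} [Field K] [NumberField K] {n q : ℕ}

/-- Good reduction outside `S₀`. -/
def GoodS (S₀ : Finset (HeightOneSpectrum (𝓞 K))) (L : Fin q → Fin (n + 1) → K) : Prop :=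
  ∀ v ∉ S₀, ∀ j, (∀ i, fa v (L j i) ≤ 1) ∧ ∃ i, fa v (L j i) = 1

/-- Some form is small at an infinite place or at a place over `S₀`, or divisible by the square of
an ideal of norm `≥ ε⁻¹`, or two forms are divisible by the same primes of total norm `≥ ε⁻¹`. -/
def Bad {E : Type*} [Field E] [NumberField E] [Algebra K E]
    (S₀ : Finset (HeightOneSpectrum (𝓞 K))) (L : Fin q → Fin (n + 1) → K) (ε : ℝ)
    (y : Fin (n + 1) → E) : Prop :=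
  (∃ (j : Fin q) (w : InfinitePlace E), w (lin (up E L j) y) ≤ ε * ti y w) ∨
  (∃ (j : Fin q) (w : HeightOneSpectrum (𝓞 E)),
    w ∈ above K E (S₀ : Set (HeightOneSpectrum (𝓞 K))) ∧
      fa w (lin (up E L j) y) ≤ ε * tf y w) ∨
  (∃ (j : Fin q) (k : HeightOneSpectrum (𝓞 E) →₀ ℕ),
    (∀ w ∈ k.support, w ∉ above K E (S₀ : Set (HeightOneSpectrum (𝓞 K)))) ∧ 1 ≤ ε * Nk k ∧
      ∀ w ∈ k.support, fa w (lin (up E L j) y) * nv w ^ (2 * k w) ≤ tf y w) ∨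
  ∃ (i j : Fin q) (W : Finset (HeightOneSpectrum (𝓞 E))), i ≠ j ∧
    (∀ w ∈ W, w ∉ above K E (S₀ : Set (HeightOneSpectrum (𝓞 K)))) ∧ 1 ≤ ε * NN W ∧
      ∀ w ∈ W, fa w (lin (up E L i) y) * nv w ≤ tf y w ∧ fa w (lin (up E L j) y) * nv w ≤ tf y w

/-- AL17 : the number of bad vectors in a class -/
theorem bad_count (S₀ : Finset (HeightOneSpectrum (𝓞 K))) (L : Fin q → Fin (n + 1) → K)
    (hS : GoodS S₀ L) (hL : ∀ i j, i ≠ j → LinearIndependent K ![L i, L j])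
    (hL0 : ∀ j, L j ≠ 0) (hn : 1 ≤ n) (r : ℕ) : ∃ C : ℝ, 1 ≤ C ∧
    ∀ (E : Type u) [Field E] [NumberField E] [Algebra K E], Module.finrank K E = r →
      ∀ (a : HeightOneSpectrum (𝓞 E) → ℝ) (b : InfinitePlace E → ℝ), Adm a b → 1 ≤ hb a b →
      ∀ ε : ℝ, 0 < ε → ε ≤ 1 → ∀ Y : Finset (Fin (n + 1) → E),
      (∀ y ∈ Y, tf y = a ∧ (∀ w, ti y w ≤ 3 * b w) ∧ (∀ j, lin (up E L j) y ≠ 0) ∧
        Bad S₀ L ε y) →
      (Y.card : ℝ) ≤ C * ε ^ (1 / 2 : ℝ) * (hb a b / (Bx a b 1).ncard) ^ 2 *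
        ((Bx a b 1).ncard : ℝ) ^ (n + 1) := by
  sorry

/-- AL18 : points with small truncated counting function are bad -/
theorem excess {S : Set (HeightOneSpectrum (𝓞 K))} (hSf : S.Finite)
    (L : Fin q → Fin (n + 1) → K) (hL : ∀ i j, i ≠ j → LinearIndependent K ![L i, L j])
    (hL0 : ∀ j, L j ≠ 0) (r : ℕ) (ρ c : ℝ) (hρ : ρ < q) :
    ∃ (S₀ : Finset (HeightOneSpectrum (𝓞 K))) (δ H₀ : ℝ), GoodS S₀ L ∧ 0 < δ ∧
      ∀ (E : Type u) [Field E] [NumberField E] [Algebra K E], Module.finrank K E = r →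
      ∀ y : Fin (n + 1) → E, y ≠ 0 → (∀ j, lin (up E L j) y ≠ 0) → H₀ ≤ mulHeight y →
        truncCount (above K E S) (up E L) y ≤ ρ * logHeight y + c →
        Bad S₀ L (mulHeight y ^ (-δ)) y := by
  sorry

/-- AL19 : `n > r` -/
theorem count_gt {S : Set (HeightOneSpectrum (𝓞 K))} (hSf : S.Finite)
    (L : Fin q → Fin (n + 1) → K) (hL : ∀ i j, i ≠ j → LinearIndependent K ![L i, L j])
    (hL0 : ∀ j, L j ≠ 0) (r : ℕ) (hr : 2 ≤ r) (hn : r < n) (ρ c : ℝ) (hρ : ρ < q) :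
    ∃ (δ C : ℝ), 0 < δ ∧ ∀ B : ℝ, 1 ≤ B → ∀ X : Finset (Vc K (n + 1)), Np X →
      (∀ s ∈ X, Gd r B s ∧ ∃ _ : NumberField s.1, (∀ j, lin (up s.1 L j) s.2 ≠ 0) ∧
        truncCount (above K s.1 S) (up s.1 L) s.2 ≤ ρ * logHeight s.2 + c) →
      (X.card : ℝ) ≤ C * B ^ ((n : ℝ) + 1 - δ) := by
  sorry

end bad

end Pool.Agent.Lib.MP_44a246_ntAL
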