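import Pool.Agent.Lib.MP_44a246_ntAL.GenDefs
import Pool.Agent.Lib.MP_44a246_ntSR.Defs

set_option autoImplicit false

open NumberField IsDedekindDomain Height MvPolynomial
open Pool.Agent.Lib.MP_4d5ce1_nt (fa nv ordv)
open Pool.Agent.Lib.MP_44a246_ntNF
open Pool.Agent.Lib.MP_44a246_ntNU
open Pool.Agent.Lib.MP_44a246_ntSR (mc)

namespace Pool.Agent.Lib.MP_44a246_ntAL

universe u

section NA

/-- NA1 : integral elements in a box -/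
theorem card_int (K : Type*) [Field K] [NumberField K] (M : ℝ) (hM : 1 ≤ M) : ∃ C : ℝ, 1 ≤ C ∧
    ∀ B : ℝ, 1 ≤ B → ∀ Z : Finset K, (∀ z ∈ Z, (∀ v, fa v z ≤ 1) ∧
      ∀ v : InfinitePlace K, v z ≤ M * B ^ ((Module.finrank ℚ K : ℝ)⁻¹)) →
        (Z.card : ℝ) ≤ C * B := by
  sorry

/-- NA2 : special integral elements in a box -/
theorem card_lead (K : Type*) [Field K] [NumberField K] (S₀ : Finset (HeightOneSpectrum (𝓞 K)))
    (M : ℝ) (hM : 1 ≤ M) : ∃ C : ℝ, 1 ≤ C ∧ ∀ B : ℝ, 1 ≤ B → ∀ ε : ℝ, 0 < ε → ε ≤ 1 →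
      ∀ Z : Finset K, (∀ z ∈ Z, z ≠ 0 ∧ (∀ v, fa v z ≤ 1) ∧
        (∀ v : InfinitePlace K, v z ≤ M * B ^ ((Module.finrank ℚ K : ℝ)⁻¹)) ∧
        ((∃ v : InfinitePlace K,
            v z ^ v.mult ≤ M * ε * (B ^ ((Module.finrank ℚ K : ℝ)⁻¹)) ^ v.mult) ∨
          (∃ v ∈ S₀, fa v z ≤ ε) ∨
          ∃ κ : HeightOneSpectrum (𝓞 K) →₀ ℕ, 1 ≤ ε * Nk κ ∧
            ∀ v ∈ κ.support, fa v z * nv v ^ (2 * κ v) ≤ 1)) →
        (Z.card : ℝ) ≤ C * ε ^ (1 / 2 : ℝ) * B := by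
  sorry

/-- NA3 : pairs of integral elements with a large common divisor -/
theorem card_pairs (K : Type*) [Field K] [NumberField K] (M : ℝ) (hM : 1 ≤ M) : ∃ C : ℝ, 1 ≤ C ∧
    ∀ B : ℝ, 1 ≤ B → ∀ ε : ℝ, 0 < ε → ε ≤ 1 → ∀ Z : Finset (K × K),
      (∀ z ∈ Z, z.1 ≠ 0 ∧ z.2 ≠ 0 ∧
        (∀ v : InfinitePlace K, v z.1 ≤ M * B ^ ((Module.finrank ℚ K : ℝ)⁻¹)) ∧
        (∀ v : InfinitePlace K, v z.2 ≤ M * B ^ ((Module.finrank ℚ K : ℝ)⁻¹)) ∧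
        (∀ v, fa v z.1 ≤ 1) ∧ (∀ v, fa v z.2 ≤ 1) ∧
        ∃ κ : HeightOneSpectrum (𝓞 K) →₀ ℕ, 1 ≤ ε * Nk κ ∧
          ∀ v ∈ κ.support, fa v z.1 * nv v ^ κ v ≤ 1 ∧ fa v z.2 * nv v ^ κ v ≤ 1) →
        (Z.card : ℝ) ≤ C * ε ^ (1 / 2 : ℝ) * B ^ 2 := by
  sorry

/-- NA4 : bad vectors have bad norm forms -/
theorem lead_bad {K : Type u} [Field K] [NumberField K] (S₀ : Finset (HeightOneSpectrum (𝓞 K)))
    (r : ℕ) (hr : 1 ≤ r) (M : ℝ) (hM : 1 ≤ M) : ∃ C : ℝ, 1 ≤ C ∧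
    ∀ (E : Type u) [Field E] [NumberField E] [Algebra K E], Module.finrank K E = r →
      ∀ (a : HeightOneSpectrum (𝓞 E) → ℝ) (b : InfinitePlace E → ℝ), Adm a b → ∀ B : ℝ, 1 ≤ B →
      ∀ (c : K) (u z : E), u ≠ 0 → z ≠ 0 → c ≠ 0 → u ∈ Bx a b M → z ∈ Bx a b M →
        IntermediateField.adjoin K {z / u} = ⊤ →
        (∀ v i, fa v (gv K r c u z i) ≤ ∏ w ∈ ov K E v, (max (fa w u) (fa w z) / a w)) →
        (∀ v, fa v (gv K r c u z (Fin.last r)) ≤ ∏ w ∈ ov K E v, fa w u / a w) →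
        (∀ v : InfinitePlace K, v (gv K r c u z (Fin.last r)) ^ v.mult ≤
          (M * B ^ ((Module.finrank ℚ K : ℝ)⁻¹)) ^ v.mult *
            ∏ w ∈ oi K E v, (w u / b w) ^ w.mult) →
        gv K r c u z 0 ≠ 0 ∧ gv K r c u z (Fin.last r) ≠ 0 ∧ (∀ v i, fa v (gv K r c u z i) ≤ 1) ∧
        ∀ ε : ℝ, 0 < ε → ε ≤ 1 →
          ((∃ w : InfinitePlace E, w u ≤ ε * b w) → ∃ v : InfinitePlace K,
            v (gv K r c u z (Fin.last r)) ^ v.mult ≤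
              C * ε * (B ^ ((Module.finrank ℚ K : ℝ)⁻¹)) ^ v.mult) ∧
          ((∃ w ∈ above K E (S₀ : Set (HeightOneSpectrum (𝓞 K))), fa w u ≤ ε * a w) →
            ∃ v ∈ S₀, fa v (gv K r c u z (Fin.last r)) ≤ ε) ∧
          ((∃ k : HeightOneSpectrum (𝓞 E) →₀ ℕ, 1 ≤ ε * Nk k ∧
              ∀ w ∈ k.support, fa w u * nv w ^ (2 * k w) ≤ a w) →
            ∃ κ : HeightOneSpectrum (𝓞 K) →₀ ℕ, 1 ≤ ε * Nk κ ∧
              ∀ v ∈ κ.support, fa v (gv K r c u z (Fin.last r)) * nv v ^ (2 * κ v) ≤ 1) ∧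
          ((∃ W : Finset (HeightOneSpectrum (𝓞 E)), 1 ≤ ε * NN W ∧
              ∀ w ∈ W, fa w z * nv w ≤ a w ∧ fa w u * nv w ≤ a w) →
            ∃ κ : HeightOneSpectrum (𝓞 K) →₀ ℕ, 1 ≤ ε * Nk κ ∧
              ∀ v ∈ κ.support, ∀ i, fa v (gv K r c u z i) * nv v ^ κ v ≤ 1) := by
  sorry

/-- NA5 : the classes of bad vectors -/
theorem bad_classes {K : Type u} [Field K] [NumberField K] {n q : ℕ}
    (S₀ : Finset (HeightOneSpectrum (𝓞 K))) (L : Fin q → Fin (n + 1) → K)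
    (hL : ∀ v j i, fa v (L j i) ≤ 1) (r : ℕ) (hr : 2 ≤ r) (η : ℝ) (hη : 0 < η) :
    ∃ C : ℝ, 1 ≤ C ∧ ∀ B : ℝ, 1 ≤ B → ∀ ε : ℝ, 0 < ε → ε ≤ 1 → ∀ X : Finset (Vc K (n + 1)),
      (∀ s ∈ X, Gd r B s ∧ ∃ _ : NumberField s.1, (∀ j, lin (up s.1 L j) s.2 ≠ 0) ∧
        BadG S₀ L ε s.2) →
      ∃ R ⊆ X, (∀ s ∈ X, ∃ t ∈ R, SimV t s) ∧
        (R.card : ℝ) ≤ C * B ^ η * (ε ^ (1 / 2 : ℝ) * B ^ (r + 1)) := by
  sorry

end NA

section NB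

/-- NB1 : uniform bound for the height of the minimal polynomial -/
theorem height_minpoly_unif (D j : ℕ) : ∃ C : ℝ, 1 ≤ C ∧
    ∀ (F E : Type u) [Field F] [NumberField F] [Field E] [NumberField E] [Algebra F E],
      Module.finrank ℚ F ≤ D → Module.finrank F E = j → ∀ y : E,
        IntermediateField.adjoin F {y} = ⊤ → mulHeight (mc F j y) ≤ C * mulHeight ![1, y] := by
  sorry

/-- NB2 : generators of fields with an intermediate field -/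
theorem imprim_points {K : Type u} [Field K] [NumberField K] (r : ℕ) (η : ℝ) (hη : 0 < η) :
    ∃ C : ℝ, 1 ≤ C ∧ ∀ B : ℝ, 1 ≤ B →
      ∀ X : Finset (Σ F : IntermediateField K (AlgebraicClosure K), F),
        (∀ s ∈ X, ∃ _ : NumberField s.1, Module.finrank K s.1 = r ∧
          IntermediateField.adjoin K {s.2} = ⊤ ∧ Imp K s.1 ∧ mulHeight ![1, s.2] ≤ B) →
        (X.card : ℝ) ≤ C * B ^ ((r : ℝ) - 1 + η) := by
  sorry

/-- NB3 : the classes of vectors over fields with an intermediate field -/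
theorem imprim_classes {K : Type u} [Field K] [NumberField K] (r m : ℕ) (hr : 2 ≤ r) (η : ℝ)
    (hη : 0 < η) : ∃ C : ℝ, 1 ≤ C ∧ ∀ B : ℝ, 1 ≤ B → ∀ X : Finset (Vc K m),
      (∀ s ∈ X, Gd r B s ∧ Imp K s.1) → ∃ R ⊆ X, (∀ s ∈ X, ∃ t ∈ R, SimV t s) ∧
        (R.card : ℝ) ≤ C * B ^ ((r : ℝ) + η) := by
  sorry

end NB

section NC
variable {K : Type u} [Field K] [NumberField K] {n q : ℕ}

/-- NC1 : points with small truncated counting function are bad, or their field has an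
intermediate field, or there are `n` relations -/
theorem excess2 {S : Set (HeightOneSpectrum (𝓞 K))} (hSf : S.Finite)
    (L : Fin q → Fin (n + 1) → K) (hL0 : ∀ j, L j ≠ 0) (r : ℕ) (ρ c : ℝ) (hρ : ρ < q + 1 - n) :
    ∃ (S₀ : Finset (HeightOneSpectrum (𝓞 K))) (δ H₀ : ℝ), GoodS S₀ L ∧ 0 < δ ∧
      ∀ (E : Type u) [Field E] [NumberField E] [Algebra K E], Module.finrank K E = r →
      ∀ y : Fin (n + 1) → E, y ≠ 0 → (∀ j, lin (up E L j) y ≠ 0) → H₀ ≤ mulHeight y →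
        truncCount (above K E S) (up E L) y ≤ ρ * logHeight y + c →
        BadG S₀ L (mulHeight y ^ (-δ)) y ∨ Imp K E ∨ Rel L y := by
  sorry

/-- NC2 : the exceptional forms -/
theorem exists_psi (hn : 1 ≤ n) (L : Fin q → Fin (n + 1) → K)
    (hL : ∀ J : Fin (n + 1) → Fin q, Function.Injective J → LinearIndependent K fun s => L (J s)) :
    ∃ (N : ℕ) (Ψ : Fin N → MvPolynomial (Fin (n + 1)) K),
      (∀ i, Ψ i ≠ 0 ∧ (Ψ i).IsHomogeneous n) ∧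
      ∀ (E : Type u) [Field E] [Algebra K E] (y : Fin (n + 1) → E), y ≠ 0 →
        IntermediateField.adjoin K {z : E | ∃ i k, z = y i / y k} = ⊤ →
        2 ≤ Module.finrank K E → Rel L y → ∃ i, aeval y (Ψ i) = 0 := by
  sorry

/-- ND : `n < r` -/
theorem count_lt {S : Set (HeightOneSpectrum (𝓞 K))} (hSf : S.Finite)
    (L : Fin q → Fin (n + 1) → K) (hL : ∀ v j i, fa v (L j i) ≤ 1)
    (hL0 : ∀ j, L j ≠ 0) (r : ℕ) (hr : 2 ≤ r) (hn : n < r) (ρ c : ℝ) (hρ : ρ < q + 1 - n) :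
    ∃ (δ C : ℝ), 0 < δ ∧ ∀ B : ℝ, 1 ≤ B → ∀ X : Finset (Vc K (n + 1)), Np X →
      (∀ s ∈ X, Gd r B s ∧ ¬ Rel L s.2 ∧ ∃ _ : NumberField s.1,
        (∀ j, lin (up s.1 L j) s.2 ≠ 0) ∧
        truncCount (above K s.1 S) (up s.1 L) s.2 ≤ ρ * logHeight s.2 + c) →
      (X.card : ℝ) ≤ C * B ^ ((r : ℝ) + 1 - δ) := by
  sorry

end NC

end Pool.Agent.Lib.MP_44a246_ntAL
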