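import Pool.Agent.Lib.MP_44a246_ntAL.EDefs
import Pool.Agent.Lib.MP_44a246_ntAL.FDefs

set_option autoImplicit false

open NumberField IsDedekindDomain Height MvPolynomial
open Pool.Agent.Lib.MP_4d5ce1_nt (fa nv ordv)
open Pool.Agent.Lib.MP_44a246_ntNF
open Pool.Agent.Lib.MP_44a246_ntNU

namespace Pool.Agent.Lib.MP_44a246_ntAL

universe u

/-- EA1 : cells in a subspace -/
theorem cell_sub (D : ℕ) : ∃ C : ℝ, 1 ≤ C ∧ ∀ (E : Type u) [Field E] [NumberField E],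
    Module.finrank ℚ E ≤ D → ∀ (V : Submodule ℚ E) (b : InfinitePlace E → ℝ), (∀ w, 0 < b w) →
      ∀ s s' : ℝ, 0 < s → 0 < s' → ∀ Y : Finset E, Y.Nonempty →
        (∀ y ∈ Y, y ∈ V ∧ ∀ w : InfinitePlace E, w y ≤ s * b w) →
        ∃ Y' ⊆ Y, Y'.Nonempty ∧
          (Y.card : ℝ) ≤ C * (1 + s / s') ^ Module.finrank ℚ V * Y'.card ∧
          ∀ y ∈ Y', ∀ z ∈ Y', ∀ w : InfinitePlace E, w (y - z) ≤ s' * b w := by
  sorry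

/-- EA2 : the number of elements of a box which spans the field over `ℚ` -/
theorem box_disc_rat (D : ℕ) : ∃ C : ℝ, 1 ≤ C ∧ ∀ (E : Type u) [Field E] [NumberField E],
    Module.finrank ℚ E ≤ D → ∀ (a : HeightOneSpectrum (𝓞 E) → ℝ) (b : InfinitePlace E → ℝ),
      Adm a b → Submodule.span ℚ (Bx a b 1) = ⊤ →
        ((Bx a b 1).ncard : ℝ) * √|((discr E : ℤ) : ℝ)| ≤ C * hb a b := by
  sorry

/-- EA3 : the same over `K` -/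
theorem box_disc {K : Type u} [Field K] [NumberField K] (r : ℕ) : ∃ C : ℝ, 1 ≤ C ∧
    ∀ (E : Type u) [Field E] [NumberField E] [Algebra K E], Module.finrank K E = r →
      ∀ (a : HeightOneSpectrum (𝓞 E) → ℝ) (b : InfinitePlace E → ℝ), Adm a b →
      Submodule.span K (Bx a b 1) = ⊤ →
        ((Bx a b 1).ncard : ℝ) * √|((discr E : ℤ) : ℝ)| ≤ C * hb a b := by
  sorry

/-- EA4 : the number of ideals of bounded norm -/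
theorem card_ideals (D : ℕ) (η : ℝ) (hη : 0 < η) : ∃ C : ℝ, 1 ≤ C ∧
    ∀ (E : Type u) [Field E] [NumberField E], Module.finrank ℚ E ≤ D → ∀ T : ℝ, 0 < T →
      ∀ Y : Finset (HeightOneSpectrum (𝓞 E) →₀ ℕ), (∀ k ∈ Y, Nk k ≤ T) →
        (Y.card : ℝ) ≤ C * T ^ (1 + η) := by
  sorry

/-- EA5 : the classes over one field -/
theorem field_classes {K : Type u} [Field K] [NumberField K] (r m : ℕ) (hr : 1 ≤ r) (M η : ℝ)
    (hM : 1 ≤ M) (hη : 0 < η) : ∃ C : ℝ, 1 ≤ C ∧ ∀ B : ℝ, 1 ≤ B → ∀ l : ℝ, 0 < l → l ≤ M →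
      ∀ (E : IntermediateField K (AlgebraicClosure K)) (X : Finset (Vc K m)),
      (∀ s ∈ X, s.1 = E ∧ Gd r B s ∧ ∃ (_ : NumberField s.1) (u : s.1), u ≠ 0 ∧
        u ∈ Bx (tf s.2) (ti s.2) l) →
      ∃ R ⊆ X, (∀ s ∈ X, ∃ t ∈ R, SimV t s) ∧
        (R.card : ℝ) ≤ C * B ^ η * (B * l ^ (r * Module.finrank ℚ K)) := by
  sorry

/-- EA6 : the classes with a pair of given sizes -/
theorem classes2 {K : Type u} [Field K] [NumberField K] (r m : ℕ) (hr : 2 ≤ r) (M η : ℝ)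
    (hM : 1 ≤ M) (hη : 0 < η) : ∃ C : ℝ, 1 ≤ C ∧ ∀ B : ℝ, 1 ≤ B → ∀ l1 l2 : ℝ, 0 < l1 → 0 < l2 →
      l1 ≤ M → l2 ≤ M → ∀ X : Finset (Vc K m), (∀ s ∈ X, Gd r B s ∧ Pair s l1 l2) →
      ∃ R ⊆ X, (∀ s ∈ X, ∃ t ∈ R, SimV t s) ∧ (R.card : ℝ) ≤ C * B ^ η * (B ^ (r + 1) *
        ((l1 * l2) ^ (r * Module.finrank ℚ K)) ^ (((r : ℝ) + 1) / 2)) := by
  sorry

/-- EA7 : the classes over the quadratic extensions of one field -/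
theorem rel_classes {K : Type u} [Field K] [NumberField K] (r m : ℕ) (M η : ℝ)
    (hM : 1 ≤ M) (hη : 0 < η) : ∃ C : ℝ, 1 ≤ C ∧ ∀ B : ℝ, 1 ≤ B → ∀ l1 l2 : ℝ, 0 < l1 →
      l1 ≤ l2 → l2 ≤ M → ∀ (F : IntermediateField K (AlgebraicClosure K)) [NumberField F],
      2 * Module.finrank K F = r → ∀ X : Finset (Vc K m),
      (∀ s ∈ X, F ≤ s.1 ∧ Gd r B s ∧ Pair s l1 l2) →
      ∃ R ⊆ X, (∀ s ∈ X, ∃ t ∈ R, SimV t s) ∧ (R.card : ℝ) ≤ C * B ^ η *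
        ((B * l1 ^ (2 * Module.finrank ℚ F)) * (B * (l1 * l2) ^ Module.finrank ℚ F) *
          (B * l2 ^ (2 * Module.finrank ℚ F))) := by
  sorry

/-- EA8 : the number of fields generated by an element of small height -/
theorem count_sub {K : Type u} [Field K] [NumberField K] (a : ℕ) (ha : 2 ≤ a) (η : ℝ)
    (hη : 0 < η) : ∃ C : ℝ, 1 ≤ C ∧ ∀ Y : ℝ, 1 ≤ Y →
      ∀ Fs : Finset (IntermediateField K (AlgebraicClosure K)),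
      (∀ F ∈ Fs, ∃ _ : NumberField F, Module.finrank K F = a ∧
        ∃ e : F, IntermediateField.adjoin K {e} = ⊤ ∧ mulHeight ![1, e] ≤ Y) →
        (Fs.card : ℝ) ≤ C * Y ^ ((a : ℝ) + 1 + η) := by
  sorry

/-- EB1 : a small pair, second version -/
theorem gen_pair2 (r m D : ℕ) (hr : 2 ≤ r) : ∃ C : ℝ, 1 ≤ C ∧ ∀ (K E : Type u) [Field K]
    [NumberField K] [Field E] [NumberField E] [Algebra K E], Module.finrank ℚ E ≤ D →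
      Module.finrank K E = r →
      ∀ (a : HeightOneSpectrum (𝓞 E) → ℝ) (b : InfinitePlace E → ℝ), Adm a b →
      ∀ x : Fin m → E, (∀ i, x i ∈ Bx a b 1) →
        IntermediateField.adjoin K {z : E | ∃ i k, z = x i / x k} = ⊤ →
        ∃ (u z : E) (l1 l2 : ℝ) (F : IntermediateField K E), 0 < l1 ∧ l1 ≤ 1 ∧ l1 ≤ l2 ∧
          l2 ≤ C ∧ u ≠ 0 ∧ u ∈ Bx a b l1 ∧ z ∈ Bx a b l2 ∧
          IntermediateField.adjoin K {z / u} = ⊤ ∧ F ≠ ⊤ ∧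
          (∀ y : E, y ≠ 0 → (∀ w, fa w y ≤ a w) → ∃ w : InfinitePlace E, l1 * b w ≤ w y) ∧
          ((Bx a b 1).ncard : ℝ) *
              l2 ^ (Module.finrank ℚ K * Module.finrank K (Submodule.span K (Bx a b 1))) ≤
            C * lineN a b u F l2 := by
  sorry

/-- EB2 : a generator of a subfield -/
theorem sub_gen (r D : ℕ) (M : ℝ) (hM : 1 ≤ M) : ∃ C : ℝ, 1 ≤ C ∧
    ∀ (K E : Type u) [Field K] [NumberField K] [Field E] [NumberField E] [Algebra K E],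
      Module.finrank ℚ E ≤ D → Module.finrank K E = r → ∀ F : IntermediateField K E,
      ∀ (a : HeightOneSpectrum (𝓞 E) → ℝ) (b : InfinitePlace E → ℝ), Adm a b →
      ∀ (u : E) (l1 l2 t : ℝ), 0 < l1 → l1 ≤ l2 → l2 ≤ M → 1 ≤ t → u ≠ 0 →
      (∀ y : E, y ≠ 0 → (∀ w, fa w y ≤ a w) → ∃ w : InfinitePlace E, l1 * b w ≤ w y) →
      C * ((l2 / l1) ^ (2 * Module.finrank ℚ F) * (t ^ Module.finrank ℚ F)⁻¹ +
        (l2 / l1) ^ Module.finrank ℚ F) < (lineN a b u F l2 : ℝ) ^ 2 →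
      ∃ e : E, IntermediateField.adjoin K {e} = F ∧ u * e ∈ Bx a b (t * l1) := by
  sorry

/-- EB3 : the structure of a box which does not span the field -/
theorem structure_mid (r m D : ℕ) (hr : 3 ≤ r) (e κ : ℝ) (he : 0 < e) (hκ : 0 < κ) :
    ∃ c C : ℝ, 0 < c ∧ 1 ≤ C ∧ ∀ (K E : Type u) [Field K] [NumberField K] [Field E]
      [NumberField E] [Algebra K E], Module.finrank ℚ E ≤ D → Module.finrank K E = r →
      ∀ (a : HeightOneSpectrum (𝓞 E) → ℝ) (b : InfinitePlace E → ℝ), Adm a b →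
      Submodule.span K (Bx a b 1) ≠ ⊤ → ∀ x : Fin m → E, (∀ i, x i ∈ Bx a b 1) →
        IntermediateField.adjoin K {z : E | ∃ i k, z = x i / x k} = ⊤ → ∀ B : ℝ, 1 ≤ B →
        B ^ e ≤ (Bx a b 1).ncard →
        ∃ (u z : E) (l1 l2 : ℝ), 0 < l1 ∧ l1 ≤ 1 ∧ l1 ≤ l2 ∧ l2 ≤ C ∧ u ≠ 0 ∧ u ∈ Bx a b l1 ∧
          z ∈ Bx a b l2 ∧ IntermediateField.adjoin K {z / u} = ⊤ ∧
          (((Bx a b 1).ncard : ℝ) ^ 2 * (l1 * l2) ^ Module.finrank ℚ E ≤ C * B ^ (-c) ∨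
            ∃ (F : IntermediateField K E) (g : E), 2 * Module.finrank K F = r ∧
              IntermediateField.adjoin K {g} = F ∧ u * g ∈ Bx a b (B ^ κ * l1) ∧
              ((Bx a b 1).ncard : ℝ) ^ 2 * l1 ^ Module.finrank ℚ E ≤ C * B ^ κ) := by
  sorry

/-- EC1 : boxes which span the field -/
theorem mid_span {K : Type u} [Field K] [NumberField K] (r m : ℕ) (hr : 2 ≤ r) (η : ℝ)
    (hη : 0 < η) : ∃ C : ℝ, 1 ≤ C ∧ ∀ B : ℝ, 1 ≤ B → ∀ F : ℝ, 1 ≤ F → ∀ X : Finset (Vc K m),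
      (∀ s ∈ X, Gd r B s ∧ F ≤ Phi s ∧ ∃ _ : NumberField s.1,
        Submodule.span K (Bx (tf s.2) (ti s.2) 1) = ⊤) →
      ∃ R ⊆ X, (∀ s ∈ X, ∃ t ∈ R, SimV t s) ∧
        (R.card : ℝ) ≤ C * B ^ η * (B / F) ^ (((r : ℝ) + 4) / 2) := by
  sorry

/-- EC2 : boxes which do not span the field -/
theorem mid_nonspan {K : Type u} [Field K] [NumberField K] (r m : ℕ) (hr : 3 ≤ r) (e : ℝ)
    (he : 0 < e) : ∃ δ C : ℝ, 0 < δ ∧ 1 ≤ C ∧ ∀ B : ℝ, 1 ≤ B → ∀ F : ℝ, B ^ e ≤ F →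
      ∀ X : Finset (Vc K m), (∀ s ∈ X, Gd r B s ∧ F ≤ Phi s ∧ ∃ _ : NumberField s.1,
        Submodule.span K (Bx (tf s.2) (ti s.2) 1) ≠ ⊤) →
      ∃ R ⊆ X, (∀ s ∈ X, ∃ t ∈ R, SimV t s) ∧
        (R.card : ℝ) * F ^ (r + 1) ≤ C * B ^ ((r : ℝ) + 1 - δ) := by
  sorry

/-- EC3 : the middle range -/
theorem mid_total {K : Type u} [Field K] [NumberField K] (r : ℕ) (hr : 3 ≤ r) (e : ℝ)
    (he : 0 < e) : ∃ δ C : ℝ, 0 < δ ∧ 1 ≤ C ∧ ∀ B : ℝ, 1 ≤ B → ∀ X : Finset (Vc K (r + 1)), Np X →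
      (∀ s ∈ X, Gd r B s ∧ B ^ e ≤ (Phi s : ℝ) ∧ (Phi s : ℝ) ≤ B ^ (1 - e)) →
        (X.card : ℝ) ≤ C * B ^ ((r : ℝ) + 1 - δ) := by
  sorry

section bad
variable {K : Type u} [Field K] [NumberField K] {n q : ℕ}

/-- ED1 : bad points over one quadratic extension -/
theorem field_bad (S₀ : Finset (HeightOneSpectrum (𝓞 K))) (L : Fin q → Fin (n + 1) → K)
    (hL : ∀ v j i, fa v (L j i) ≤ 1) (η : ℝ) (hη : 0 < η) : ∃ C : ℝ, 1 ≤ C ∧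
    ∀ (E : Type u) [Field E] [NumberField E] [Algebra K E], Module.finrank K E = 2 →
      ∀ B : ℝ, 1 ≤ B → ∀ ε : ℝ, 0 < ε → ε ≤ 1 → ∀ Y : Finset (Fin (n + 1) → E),
      (∀ x ∈ Y, ∀ y ∈ Y, ∀ z : E, z ≠ 0 → x = z • y → x = y) →
      (∀ y ∈ Y, y ≠ 0 ∧ IntermediateField.adjoin K {z : E | ∃ i k, z = y i / y k} = ⊤ ∧
        mulHeight y ≤ B ∧ (∀ j, lin (up E L j) y ≠ 0) ∧ BadG S₀ L ε y) →
      (Y.card : ℝ) * √|((discr E : ℤ) : ℝ)| ^ n ≤ C * B ^ η * (ε ^ (1 / 2 : ℝ) * B ^ (n + 1)) := by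
  sorry

/-- ED2 : `r = 2 ≤ n` -/
theorem count_two {S : Set (HeightOneSpectrum (𝓞 K))} (hSf : S.Finite)
    (L : Fin q → Fin (n + 1) → K) (hL : ∀ v j i, fa v (L j i) ≤ 1)
    (hL0 : ∀ j, L j ≠ 0) (hn : 2 ≤ n) (ρ c : ℝ) (hρ : ρ < q + 1 - n) :
    ∃ (δ C : ℝ), 0 < δ ∧ ∀ B : ℝ, 1 ≤ B → ∀ X : Finset (Vc K (n + 1)), Np X →
      (∀ s ∈ X, Gd 2 B s ∧ ¬ Rel L s.2 ∧ ∃ _ : NumberField s.1,
        (∀ j, lin (up s.1 L j) s.2 ≠ 0) ∧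
        truncCount (above K s.1 S) (up s.1 L) s.2 ≤ ρ * logHeight s.2 + c) →
      (X.card : ℝ) ≤ C * B ^ ((n : ℝ) + 1 - δ) := by
  sorry

/-- ED3 : `n = r` -/
theorem count_eq {S : Set (HeightOneSpectrum (𝓞 K))} (hSf : S.Finite)
    (L : Fin q → Fin (n + 1) → K) (hL : ∀ v j i, fa v (L j i) ≤ 1)
    (hL2 : ∀ i j, i ≠ j → LinearIndependent K ![L i, L j])
    (hL0 : ∀ j, L j ≠ 0) (hn : 2 ≤ n) (ρ c : ℝ) (hρ : ρ < q + 1 - n) :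
    ∃ (δ C : ℝ), 0 < δ ∧ ∀ B : ℝ, 1 ≤ B → ∀ X : Finset (Vc K (n + 1)), Np X →
      (∀ s ∈ X, Gd n B s ∧ ¬ Rel L s.2 ∧ ∃ _ : NumberField s.1,
        (∀ j, lin (up s.1 L j) s.2 ≠ 0) ∧
        truncCount (above K s.1 S) (up s.1 L) s.2 ≤ ρ * logHeight s.2 + c) →
      (X.card : ℝ) ≤ C * B ^ ((n : ℝ) + 1 - δ) := by
  sorry

/-- EF3 : points of degree at most `r ≥ n` -/
theorem count_le_all (hn1 : 1 ≤ n) (hq : n + 1 ≤ q) (L : Fin q → Fin (n + 1) → K)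
    (hL : ∀ J : Fin (n + 1) → Fin q, Function.Injective J → LinearIndependent K fun s => L (J s)) :
    ∃ (N : ℕ) (Ψ : Fin N → MvPolynomial (Fin (n + 1)) K),
      (∀ i, Ψ i ≠ 0 ∧ (Ψ i).IsHomogeneous n) ∧
      ∀ S : Set (HeightOneSpectrum (𝓞 K)), S.Finite → ∀ r : ℕ, n ≤ r → 2 ≤ r → ∀ ρ c : ℝ,
        ρ < q + 1 - n → ∃ (δ C : ℝ), 0 < δ ∧ ∀ B : ℝ, 1 ≤ B → ∀ X : Finset (Pj K n),
          (∀ s ∈ X, Vio S L r ρ c B s ∧ ∀ i, aeval s.2.rep (Ψ i) ≠ 0) →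
            (X.card : ℝ) ≤ C * B ^ ((r : ℝ) + 1 - δ) := by
  sorry

/-- EF4 : all the hyperplane cases -/
theorem hyper_final2 (hn : 1 ≤ n) (hq : n + 1 ≤ q) (L : Fin q → Fin (n + 1) → K)
    (hL : ∀ J : Fin (n + 1) → Fin q, Function.Injective J → LinearIndependent K fun s => L (J s)) :
    ∃ (N : ℕ) (Ψ : Fin N → MvPolynomial (Fin (n + 1)) K),
      (∀ i, Ψ i ≠ 0 ∧ (Ψ i).IsHomogeneous n) ∧
      ∀ S : Set (HeightOneSpectrum (𝓞 K)), S.Finite → ∀ r : ℕ, 1 ≤ r → ∀ ρ c η : ℝ, 0 ≤ ρ →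
        0 < η → ∃ C δ : ℝ, 0 < δ ∧ ∀ B : ℝ, 1 ≤ B → ∀ X : Finset (Pj K n),
          (∀ s ∈ X, Vio S L r ρ c B s) →
          (min n r = 1 → 1 < max n r → ρ ≤ q →
            (X.card : ℝ) ≤ C * B ^ ((max n r : ℕ) + 1 - min 1 (q - ρ) + η)) ∧
          (r < n → ρ < q → (X.card : ℝ) ≤ C * B ^ ((n : ℝ) + 1 - δ)) ∧
          (n ≤ r → 2 ≤ r → ρ < q + 1 - n → (∀ s ∈ X, ∀ i, aeval s.2.rep (Ψ i) ≠ 0) →
            (X.card : ℝ) ≤ C * B ^ ((r : ℝ) + 1 - δ)) := by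
  sorry

end bad

end Pool.Agent.Lib.MP_44a246_ntAL
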