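import Pool.Agent.Lib.MP_44a246_ntAL.FDefs

set_option autoImplicit false

open NumberField IsDedekindDomain Height MvPolynomial
open Pool.Agent.Lib.MP_4d5ce1_nt (fa nv ordv)
open Pool.Agent.Lib.MP_44a246_ntNF
open Pool.Agent.Lib.MP_44a246_ntNU

namespace Pool.Agent.Lib.MP_44a246_ntAL

universe u

/-- FA0 : representatives -/
theorem to_vc {K : Type u} [Field K] {n : ℕ} (X : Finset (Pj K n)) :
    ∃ Y : Finset (Vc K (n + 1)), Y.card = X.card ∧ Np Y ∧ ∀ t ∈ Y, ∃ s ∈ X, t = ⟨s.1, s.2.rep⟩ := by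
  sorry

/-- FA1 : rational points -/
theorem rational_total (K : Type*) [Field K] [NumberField K] (m : ℕ) : ∃ C : ℝ, 1 ≤ C ∧
    ∀ B : ℝ, 1 ≤ B → ∀ Y : Finset (Fin m → K), (∀ y ∈ Y, y ≠ 0 ∧ mulHeight y ≤ B) →
      (∀ x ∈ Y, ∀ y ∈ Y, ∀ z : K, z ≠ 0 → x = z • y → x = y) →
        (Y.card : ℝ) ≤ C * B ^ m := by
  sorry

/-- FA2 : points of degree `j` -/
theorem deg_total {K : Type u} [Field K] [NumberField K] (n j : ℕ) (hj : 1 ≤ j) (η : ℝ)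
    (hη : 0 < η) : ∃ C : ℝ, 1 ≤ C ∧ ∀ B : ℝ, 1 ≤ B → ∀ X : Finset (Vc K (n + 1)), Np X →
      (∀ s ∈ X, Gd j B s) → (X.card : ℝ) ≤ C * B ^ ((max n j : ℕ) + 1 + η) := by
  sorry

section
variable {K : Type u} [Field K] [NumberField K] {n q : ℕ}

/-- FA3a : rational points with small truncated counting function -/
theorem rat_count (hn : 2 ≤ n) (hq : n + 1 ≤ q) {S : Set (HeightOneSpectrum (𝓞 K))} (hS : S.Finite)
    (L : Fin q → Fin (n + 1) → K)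
    (hL : ∀ J : Fin (n + 1) → Fin q, Function.Injective J → LinearIndependent K fun s => L (J s))
    (ρ c η : ℝ) (hρ : ρ ≤ q) (hη : 0 < η) :
    ∃ C : ℝ, ∀ B : ℝ, 1 ≤ B → ∀ X : Finset (Pj K n), (∀ s ∈ X, Vio S L 1 ρ c B s) →
      (X.card : ℝ) ≤ C * B ^ ((n : ℝ) + 1 - min 1 (q - ρ) + η) := by
  sorry

/-- FA3b : points of degree at most `r < n` -/
theorem count_gt_all (hq : n + 1 ≤ q) {S : Set (HeightOneSpectrum (𝓞 K))} (hS : S.Finite)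
    (L : Fin q → Fin (n + 1) → K)
    (hL : ∀ J : Fin (n + 1) → Fin q, Function.Injective J → LinearIndependent K fun s => L (J s))
    (r : ℕ) (hr : 1 ≤ r) (hn : r < n) (ρ c : ℝ) (hρ : ρ < q) :
    ∃ (δ C : ℝ), 0 < δ ∧ ∀ B : ℝ, 1 ≤ B → ∀ X : Finset (Pj K n), (∀ s ∈ X, Vio S L r ρ c B s) →
      (X.card : ℝ) ≤ C * B ^ ((n : ℝ) + 1 - δ) := by
  sorry

/-- FA3c : points of degree at most `r > n` -/
theorem count_lt_all (hn1 : 1 ≤ n) (hq : n + 1 ≤ q) (L : Fin q → Fin (n + 1) → K)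
    (hL : ∀ J : Fin (n + 1) → Fin q, Function.Injective J → LinearIndependent K fun s => L (J s)) :
    ∃ (N : ℕ) (Ψ : Fin N → MvPolynomial (Fin (n + 1)) K),
      (∀ i, Ψ i ≠ 0 ∧ (Ψ i).IsHomogeneous n) ∧
      ∀ S : Set (HeightOneSpectrum (𝓞 K)), S.Finite → ∀ r : ℕ, n < r → ∀ ρ c : ℝ,
        ρ < q + 1 - n → ∃ (δ C : ℝ), 0 < δ ∧ ∀ B : ℝ, 1 ≤ B → ∀ X : Finset (Pj K n),
          (∀ s ∈ X, Vio S L r ρ c B s ∧ ∀ i, aeval s.2.rep (Ψ i) ≠ 0) →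
            (X.card : ℝ) ≤ C * B ^ ((r : ℝ) + 1 - δ) := by
  sorry

/-- FA4 : all the hyperplane cases -/
theorem hyper_final (hn : 1 ≤ n) (hq : n + 1 ≤ q) (L : Fin q → Fin (n + 1) → K)
    (hL : ∀ J : Fin (n + 1) → Fin q, Function.Injective J → LinearIndependent K fun s => L (J s)) :
    ∃ (N : ℕ) (Ψ : Fin N → MvPolynomial (Fin (n + 1)) K),
      (∀ i, Ψ i ≠ 0 ∧ (Ψ i).IsHomogeneous n) ∧
      ∀ S : Set (HeightOneSpectrum (𝓞 K)), S.Finite → ∀ r : ℕ, 1 ≤ r → ∀ ρ c η : ℝ, 0 ≤ ρ →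
        0 < η → ∃ C δ : ℝ, 0 < δ ∧ ∀ B : ℝ, 1 ≤ B → ∀ X : Finset (Pj K n),
          (∀ s ∈ X, Vio S L r ρ c B s) →
          (min n r = 1 → 1 < max n r → ρ ≤ q →
            (X.card : ℝ) ≤ C * B ^ ((max n r : ℕ) + 1 - min 1 (q - ρ) + η)) ∧
          (r < n → ρ < q → (X.card : ℝ) ≤ C * B ^ ((n : ℝ) + 1 - δ)) ∧
          (n < r → ρ < q + 1 - n → (∀ s ∈ X, ∀ i, aeval s.2.rep (Ψ i) ≠ 0) →
            (X.card : ℝ) ≤ C * B ^ ((r : ℝ) + 1 - δ)) := by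
  sorry

end

end Pool.Agent.Lib.MP_44a246_ntAL
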